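import Pool.Agent.H941.Defs4
import Pool.Agent.H941.A3
import Pool.Agent.H941.A4

open MeasureTheory ProbabilityTheory

namespace H941.gs_psd

/-- positive semidefinite kernels -/
def GsPK (K : ℤ × ℤ → ℤ × ℤ → ℝ) : Prop :=
  (∀ x y, K x y = K y x) ∧ ∀ (S : Finset (ℤ × ℤ)) (f : ℤ × ℤ → ℝ),
    0 ≤ ∑ x ∈ S, ∑ y ∈ S, f x * K x y * f y

theorem GsPK.add {K K' : ℤ × ℤ → ℤ × ℤ → ℝ} (h : GsPK K) (h' : GsPK K') :
    GsPK (fun x y => K x y + K' x y) := by
  refine ⟨fun x y => by show K x y + K' x y = K y x + K' y x; rw [h.1 x y, h'.1 x y], fun S f => ?_⟩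
  have e : ∑ x ∈ S, ∑ y ∈ S, f x * (K x y + K' x y) * f y =
      (∑ x ∈ S, ∑ y ∈ S, f x * K x y * f y) + ∑ x ∈ S, ∑ y ∈ S, f x * K' x y * f y := by
    rw [← Finset.sum_add_distrib]
    refine Finset.sum_congr rfl fun x _ => ?_
    rw [← Finset.sum_add_distrib]
    refine Finset.sum_congr rfl fun y _ => ?_
    ring
  rw [e]
  exact add_nonneg (h.2 S f) (h'.2 S f)

theorem GsPK.smul {K : ℤ × ℤ → ℤ × ℤ → ℝ} (h : GsPK K) {c : ℝ} (hc : 0 ≤ c) :
    GsPK (fun x y => c * K x y) := by
  refine ⟨fun x y => by show c * K x y = c * K y x; rw [h.1 x y], fun S f => ?_⟩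
  have e : ∑ x ∈ S, ∑ y ∈ S, f x * (c * K x y) * f y =
      c * ∑ x ∈ S, ∑ y ∈ S, f x * K x y * f y := by
    rw [Finset.mul_sum]
    refine Finset.sum_congr rfl fun x _ => ?_
    rw [Finset.mul_sum]
    refine Finset.sum_congr rfl fun y _ => ?_
    ring
  rw [e]
  exact mul_nonneg hc (h.2 S f)

theorem GsPK.zero : GsPK (fun _ _ => 0) :=
  ⟨fun _ _ => rfl, fun S f => by simp⟩

theorem GsPK.sum {ι : Type} (s : Finset ι) {K : ι → ℤ × ℤ → ℤ × ℤ → ℝ}
    (h : ∀ i ∈ s, GsPK (K i)) : GsPK (fun x y => ∑ i ∈ s, K i x y) := by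
  classical
  induction s using Finset.induction_on with
  | empty => simpa using GsPK.zero
  | insert a s ha ih =>
    have h1 := (h a (Finset.mem_insert_self _ _)).add
      (ih fun i hi => h i (Finset.mem_insert_of_mem hi))
    have e : (fun x y => ∑ i ∈ insert a s, K i x y) =
        fun x y => K a x y + ∑ i ∈ s, K i x y := by
      funext x y
      rw [Finset.sum_insert ha]
    rw [e]
    exact h1

theorem GsPK.green_sub {D D' : Finset (ℤ × ℤ)} (h : D ⊆ D') :
    GsPK (fun x y => green D' x y - green D x y) := by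
  classical
  obtain ⟨-, g2, g3, -, -, -⟩ := green_basic D
  obtain ⟨-, g2', g3', -, -, -⟩ := green_basic D'
  refine ⟨fun x y => by
    show H941.green D' x y - H941.green D x y = H941.green D' y x - H941.green D y x
    rw [g3 x y, g3' x y], fun S f => ?_⟩
  have hz : ∀ x y, x ∉ D' ∨ y ∉ D' → green D' x y - green D x y = 0 := by
    intro x y hxy
    rw [g2' x y hxy, g2 x y (hxy.imp (fun h1 h2 => h1 (h h2)) (fun h1 h2 => h1 (h h2))), sub_self]
  have key : ∀ F : ℤ × ℤ → ℤ × ℤ → ℝ, (∀ x y, x ∉ D' ∨ y ∉ D' → F x y = 0) →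
      (∀ x y, x ∉ S ∨ y ∉ S → F x y = 0) →
      ∑ x ∈ S, ∑ y ∈ S, F x y = ∑ x ∈ D', ∑ y ∈ D', F x y := by
    intro F h1 h2
    have e1 : ∑ x ∈ S, ∑ y ∈ S, F x y = ∑ x ∈ S ∪ D', ∑ y ∈ S ∪ D', F x y := by
      rw [← Finset.sum_subset (Finset.subset_union_left : S ⊆ S ∪ D')]
      · refine Finset.sum_congr rfl fun x _ => ?_
        exact Finset.sum_subset Finset.subset_union_left fun y _ hy => h2 x y (Or.inr hy)
      · intro x _ hx
        exact Finset.sum_eq_zero fun y _ => h2 x y (Or.inl hx)
    have e2 : ∑ x ∈ D', ∑ y ∈ D', F x y = ∑ x ∈ S ∪ D', ∑ y ∈ S ∪ D', F x y := by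
      rw [← Finset.sum_subset (Finset.subset_union_right : D' ⊆ S ∪ D')]
      · refine Finset.sum_congr rfl fun x _ => ?_
        exact Finset.sum_subset Finset.subset_union_right fun y _ hy => h1 x y (Or.inr hy)
      · intro x _ hx
        exact Finset.sum_eq_zero fun y _ => h1 x y (Or.inl hx)
    rw [e1, e2]
  have h1 := green_psd D D' h (fun x => if x ∈ S then f x else 0)
  rw [← key (fun x y => (if x ∈ S then f x else 0) * (green D' x y - green D x y) *
    (if y ∈ S then f y else 0))] at h1
  · refine le_of_le_of_eq h1 ?_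
    refine Finset.sum_congr rfl fun x hx => Finset.sum_congr rfl fun y hy => ?_
    rw [if_pos hx, if_pos hy]
  · intro x y hxy
    rw [hz x y hxy, mul_zero, zero_mul]
  · intro x y hxy
    rcases hxy with h2 | h2
    · rw [if_neg h2, zero_mul, zero_mul]
    · rw [if_neg h2, mul_zero]

theorem GsPK.green (D : Finset (ℤ × ℤ)) : GsPK (fun x y => green D x y) := by
  have h := GsPK.green_sub (Finset.empty_subset D)
  obtain ⟨-, g2, -, -, -, -⟩ := green_basic ∅
  have e : (fun x y => H941.green D x y - H941.green ∅ x y) = fun x y => H941.green D x y := by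
    funext x y
    rw [g2 x y (Or.inl (Finset.notMem_empty _)), sub_zero]
  rw [e] at h
  exact h

theorem GsPK.matrix {K : ℤ × ℤ → ℤ × ℤ → ℝ} (h : GsPK K) (S : Finset (ℤ × ℤ)) :
    (Matrix.of fun x y : (S : Finset (ℤ × ℤ)) => K x y).PosSemidef := by
  classical
  apply Matrix.PosSemidef.of_dotProduct_mulVec_nonneg
  · apply Matrix.IsHermitian.ext
    intro i j
    simp [h.1 i j]
  · intro x
    have h1 := h.2 S (fun a => if ha : a ∈ S then x ⟨a, ha⟩ else 0)
    refine le_of_le_of_eq h1 ?_
    rw [← Finset.sum_coe_sort S]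
    rw [dotProduct]
    refine Finset.sum_congr rfl fun i _ => ?_
    rw [← Finset.sum_coe_sort S, Matrix.mulVec, dotProduct, Finset.mul_sum]
    refine Finset.sum_congr rfl fun j _ => ?_
    simp [i.2, j.2, mul_assoc]

theorem gs_grid_subset (D : Finset (ℤ × ℤ)) {L L' : ℕ} (h : L ∣ L') (s : ℤ × ℤ) :
    gridSet D L s ⊆ gridSet D L' s := by
  classical
  intro z hz
  unfold gridSet at hz ⊢
  rw [Finset.mem_filter] at hz ⊢
  have h' : (L : ℤ) ∣ (L' : ℤ) := Int.natCast_dvd_natCast.2 h
  exact ⟨hz.1, fun h1 => hz.2.1 (h'.trans h1), fun h1 => hz.2.2 (h'.trans h1)⟩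

theorem _root_.H941.gs_psd (V S Da : Finset (ℤ × ℤ)) (L : ℕ → ℕ) (a : ℤ × ℤ) (j : ℕ)
    (hdvd : ∀ i, i + 1 < j → 2 * L (i + 1) ∣ L i) (hDa : Da ⊆ V) (hj : 1 ≤ j → Da ⊆ gridSet V (L (j - 1)) a) :
    (∀ i, (Matrix.of fun x y : (S : Finset (ℤ × ℤ)) => Gs V (L i) a x y).PosSemidef) ∧
    (Matrix.of fun x y : (S : Finset (ℤ × ℤ)) =>
      (1 / 4) * green V x y - ∑ i ∈ Finset.range j, Gs V (L i) a x y - (1 / 4) * green Da x y).PosSemidef := by
  classical
  have h4 : (0 : ℝ) ≤ 1 / 4 := by norm_num
  constructor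
  · intro i
    have h2 : GsPK (fun x y => (1 / 4) * (green (gridSet V (2 * L i) a) x y -
        green (gridSet V (L i) a) x y)) :=
      (GsPK.green_sub (gs_grid_subset V (Dvd.intro_left 2 rfl) a)).smul h4
    exact h2.matrix S
  · have key : ∀ n, n + 1 ≤ j → GsPK (fun x y => (1 / 4) * green V x y -
        ∑ i ∈ Finset.range (n + 1), Gs V (L i) a x y -
          (1 / 4) * green (gridSet V (L n) a) x y) := by
      intro n
      induction n with
      | zero =>
        intro _
        have h1 : GsPK (fun x y => (1 / 4) * (green V x y -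
            green (gridSet V (2 * L 0) a) x y)) :=
          (GsPK.green_sub (Finset.filter_subset _ _)).smul h4
        have e : (fun x y => (1 / 4) * green V x y -
            ∑ i ∈ Finset.range (0 + 1), Gs V (L i) a x y -
              (1 / 4) * green (gridSet V (L 0) a) x y) =
            fun x y => (1 / 4) * (green V x y - green (gridSet V (2 * L 0) a) x y) := by
          funext x y
          simp only [zero_add, Finset.range_one, Finset.sum_singleton, Gs]
          ring
        rw [e]
        exact h1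
      | succ m ih =>
        intro hm
        have h1 := ih (by omega)
        have h2 : GsPK (fun x y => (1 / 4) * (green (gridSet V (L m) a) x y -
            green (gridSet V (2 * L (m + 1)) a) x y)) :=
          (GsPK.green_sub (gs_grid_subset V (hdvd m (by omega)) a)).smul h4
        have h3 := h1.add h2
        have e : (fun x y => (1 / 4) * green V x y -
            ∑ i ∈ Finset.range (m + 1 + 1), Gs V (L i) a x y -
              (1 / 4) * green (gridSet V (L (m + 1)) a) x y) =
            fun x y => (1 / 4) * green V x y -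
              ∑ i ∈ Finset.range (m + 1), Gs V (L i) a x y -
                (1 / 4) * green (gridSet V (L m) a) x y +
              (1 / 4) * (green (gridSet V (L m) a) x y -
                green (gridSet V (2 * L (m + 1)) a) x y) := by
          funext x y
          rw [Finset.sum_range_succ _ (m + 1)]
          simp only [Gs]
          ring
        rw [e]
        exact h3
    rcases Nat.eq_zero_or_pos j with hj0 | hj0
    · subst hj0
      have h1 : GsPK (fun x y => (1 / 4) * (green V x y - green Da x y)) :=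
        (GsPK.green_sub hDa).smul h4
      have e : (fun x y => (1 / 4) * (green V x y - green Da x y)) =
          fun x y => (1 / 4) * green V x y - ∑ i ∈ Finset.range 0, Gs V (L i) a x y -
            (1 / 4) * green Da x y := by
        funext x y
        simp only [Finset.range_zero, Finset.sum_empty]
        ring
      rw [e] at h1
      exact h1.matrix S
    · obtain ⟨n, rfl⟩ : ∃ n, j = n + 1 := ⟨j - 1, by omega⟩
      have h1 := key n le_rfl
      have h2 : GsPK (fun x y => (1 / 4) * (green (gridSet V (L n) a) x y - green Da x y)) :=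
        (GsPK.green_sub (hj (by omega))).smul h4
      have h3 := h1.add h2
      have e : (fun x y => (1 / 4) * green V x y -
          ∑ i ∈ Finset.range (n + 1), Gs V (L i) a x y -
            (1 / 4) * green (gridSet V (L n) a) x y +
          (1 / 4) * (green (gridSet V (L n) a) x y - green Da x y)) =
          fun x y => (1 / 4) * green V x y - ∑ i ∈ Finset.range (n + 1), Gs V (L i) a x y -
            (1 / 4) * green Da x y := by
        funext x y
        ring
      rw [e] at h3
      exact h3.matrix S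

end H941.gs_psd
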