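import Pool.Agent.H941.Defs4
import Pool.Agent.H941.A3

open MeasureTheory ProbabilityTheory

namespace H941.green_lower

theorem green_lower_sum_nbrs (u : ℤ × ℤ) (h : ℤ × ℤ → ℝ) : ∑ z ∈ nbrs u, h z
    = h (u.1 + 1, u.2) + h (u.1 - 1, u.2) + h (u.1, u.2 + 1) + h (u.1, u.2 - 1) := by
  unfold nbrs
  rw [Finset.sum_insert, Finset.sum_insert, Finset.sum_insert, Finset.sum_singleton]
  · ring
  · simp only [Finset.mem_singleton, Prod.mk.injEq, not_and]
    omega
  · simp only [Finset.mem_insert, Finset.mem_singleton, Prod.mk.injEq]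
    omega
  · simp only [Finset.mem_insert, Finset.mem_singleton, Prod.mk.injEq]
    omega

/-- shifted squared distance -/
noncomputable def green_lower_w (z0 z : ℤ × ℤ) : ℝ :=
  ((z.1 : ℝ) - z0.1) ^ 2 + ((z.2 : ℝ) - z0.2) ^ 2 - 3 / 4

/-- subharmonic comparison function -/
noncomputable def green_lower_g (z0 : ℤ × ℤ) (m : ℕ) (z : ℤ × ℤ) : ℝ :=
  if z = z0 then 2 * Real.log m + 7.2 else max 0 (2 * Real.log m - Real.log (green_lower_w z0 z))

theorem green_lower_sq (z0 z : ℤ × ℤ) : ((z.1 : ℝ) - z0.1) ^ 2 + ((z.2 : ℝ) - z0.2) ^ 2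
    = (((z.1 - z0.1) ^ 2 + (z.2 - z0.2) ^ 2 : ℤ) : ℝ) := by push_cast; ring

theorem green_lower_ne {z0 z : ℤ × ℤ} (h : z ≠ z0) : 1 ≤ (z.1 - z0.1) ^ 2 + (z.2 - z0.2) ^ 2 := by
  by_contra hc
  push Not at hc
  have h1 : z.1 - z0.1 = 0 := by nlinarith [sq_nonneg (z.1 - z0.1), sq_nonneg (z.2 - z0.2)]
  have h2 : z.2 - z0.2 = 0 := by nlinarith [sq_nonneg (z.1 - z0.1), sq_nonneg (z.2 - z0.2)]
  exact h (Prod.ext (by omega) (by omega))

theorem green_lower_wpos {z0 z : ℤ × ℤ} (h : z ≠ z0) : 1 / 4 ≤ green_lower_w z0 z := by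
  unfold green_lower_w
  rw [green_lower_sq]
  have h1 : ((1 : ℤ) : ℝ) ≤ (((z.1 - z0.1) ^ 2 + (z.2 - z0.2) ^ 2 : ℤ) : ℝ) := by
    exact_mod_cast green_lower_ne h
  push_cast at h1 ⊢
  linarith

theorem green_lower_1300 : Real.log 1300 ≤ 7.2 := by
  have h1 : (1300 : ℝ) ^ 5 ≤ Real.exp 36 := by
    have h2 : Real.exp 36 = (Real.exp 1) ^ 36 := by
      rw [← Real.exp_nat_mul]; norm_num
    rw [h2]
    have h3 : (2.7 : ℝ) ^ 36 ≤ (Real.exp 1) ^ 36 := by
      apply pow_le_pow_left₀ (by norm_num)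
      have := Real.exp_one_gt_d9
      linarith
    have h4 : (2.718 : ℝ) ^ 36 ≤ (Real.exp 1) ^ 36 := by
      apply pow_le_pow_left₀ (by norm_num)
      have := Real.exp_one_gt_d9
      linarith
    refine le_trans ?_ h4
    norm_num
  have h5 : Real.log ((1300 : ℝ) ^ 5) ≤ 36 := by
    rw [Real.log_le_iff_le_exp (by positivity)]
    exact h1
  rw [Real.log_pow] at h5
  push_cast at h5
  linarith

theorem green_lower_ge {z0 : ℤ × ℤ} {m : ℕ} {z : ℤ × ℤ} (h : z ≠ z0) :
    0 ≤ green_lower_g z0 m z ∧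
    2 * Real.log m - Real.log (green_lower_w z0 z) ≤ green_lower_g z0 m z := by
  unfold green_lower_g
  rw [if_neg h]
  exact ⟨le_max_left _ _, le_max_right _ _⟩

/-- at distance one -/
theorem green_lower_case1 (z0 : ℤ × ℤ) (m : ℕ) (hm : 1 ≤ m) (a b : ℤ)
    (hab : (a = 1 ∧ b = 0) ∨ (a = -1 ∧ b = 0) ∨ (a = 0 ∧ b = 1) ∨ (a = 0 ∧ b = -1)) :
    4 * green_lower_g z0 m (z0.1 + a, z0.2 + b) ≤
      green_lower_g z0 m (z0.1 + a + 1, z0.2 + b) + green_lower_g z0 m (z0.1 + a - 1, z0.2 + b)
      + green_lower_g z0 m (z0.1 + a, z0.2 + b + 1) + green_lower_g z0 m (z0.1 + a, z0.2 + b - 1) := by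
  have hlog : 0 ≤ Real.log m := Real.log_nonneg (by exact_mod_cast hm)
  have hw1 : ∀ c d : ℤ, c ^ 2 + d ^ 2 = 1 →
      green_lower_g z0 m (z0.1 + c, z0.2 + d) = 2 * Real.log m + Real.log 4 := by
    intro c d hcd
    have hne : (z0.1 + c, z0.2 + d) ≠ z0 := by
      intro h
      have h1 := congrArg Prod.fst h
      have h2 := congrArg Prod.snd h
      simp only at h1 h2
      have : c = 0 := by omega
      have : d = 0 := by omega
      subst c; subst d
      norm_num at hcd
    unfold green_lower_g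
    rw [if_neg hne]
    have hw : green_lower_w z0 (z0.1 + c, z0.2 + d) = 1 / 4 := by
      unfold green_lower_w
      have : ((c : ℝ)) ^ 2 + (d : ℝ) ^ 2 = 1 := by exact_mod_cast hcd
      push_cast
      ring_nf
      linarith
    rw [hw, one_div, Real.log_inv, sub_neg_eq_add, max_eq_right]
    have : 0 ≤ Real.log 4 := Real.log_nonneg (by norm_num)
    linarith
  have hw2 : ∀ c d : ℤ, c ^ 2 + d ^ 2 = 2 →
      2 * Real.log m - Real.log (5 / 4) ≤ green_lower_g z0 m (z0.1 + c, z0.2 + d) := by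
    intro c d hcd
    have hne : (z0.1 + c, z0.2 + d) ≠ z0 := by
      intro h
      have h1 := congrArg Prod.fst h
      have h2 := congrArg Prod.snd h
      simp only at h1 h2
      have : c = 0 := by omega
      have : d = 0 := by omega
      subst c; subst d
      norm_num at hcd
    have hw : green_lower_w z0 (z0.1 + c, z0.2 + d) = 5 / 4 := by
      unfold green_lower_w
      have : ((c : ℝ)) ^ 2 + (d : ℝ) ^ 2 = 2 := by exact_mod_cast hcd
      push_cast
      ring_nf
      linarith
    have := (green_lower_ge (m := m) hne).2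
    rwa [hw] at this
  have hw4 : ∀ c d : ℤ, c ^ 2 + d ^ 2 = 4 →
      2 * Real.log m - Real.log (13 / 4) ≤ green_lower_g z0 m (z0.1 + c, z0.2 + d) := by
    intro c d hcd
    have hne : (z0.1 + c, z0.2 + d) ≠ z0 := by
      intro h
      have h1 := congrArg Prod.fst h
      have h2 := congrArg Prod.snd h
      simp only at h1 h2
      have : c = 0 := by omega
      have : d = 0 := by omega
      subst c; subst d
      norm_num at hcd
    have hw : green_lower_w z0 (z0.1 + c, z0.2 + d) = 13 / 4 := by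
      unfold green_lower_w
      have : ((c : ℝ)) ^ 2 + (d : ℝ) ^ 2 = 4 := by exact_mod_cast hcd
      push_cast
      ring_nf
      linarith
    have := (green_lower_ge (m := m) hne).2
    rwa [hw] at this
  have hz : green_lower_g z0 m (z0.1 + 0, z0.2 + 0) = 2 * Real.log m + 7.2 := by
    unfold green_lower_g
    rw [if_pos (by simp)]
  have hnum : 4 * Real.log 4 + Real.log (13 / 4) + 2 * Real.log (5 / 4) ≤ 7.2 := by
    have h1 := green_lower_1300
    have h2 : Real.log 1300 = 4 * Real.log 4 + Real.log (13 / 4) + 2 * Real.log (5 / 4) := by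
      rw [show (1300 : ℝ) = 4 ^ 4 * (13 / 4) * (5 / 4) ^ 2 by norm_num,
        Real.log_mul (by norm_num) (by norm_num), Real.log_mul (by norm_num) (by norm_num),
        Real.log_pow, Real.log_pow]
      push_cast; ring
    rw [← h2]; exact h1
  simp only [add_assoc, add_sub_assoc]
  rcases hab with ⟨rfl, rfl⟩ | ⟨rfl, rfl⟩ | ⟨rfl, rfl⟩ | ⟨rfl, rfl⟩
  · have e0 := hw1 1 0 (by norm_num)
    have e1 := hw4 2 0 (by norm_num)
    have e2 := hw2 1 1 (by norm_num)
    have e3 := hw2 1 (-1) (by norm_num)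
    norm_num at *
    linarith
  · have e0 := hw1 (-1) 0 (by norm_num)
    have e1 := hw4 (-2) 0 (by norm_num)
    have e2 := hw2 (-1) 1 (by norm_num)
    have e3 := hw2 (-1) (-1) (by norm_num)
    norm_num at *
    linarith
  · have e0 := hw1 0 1 (by norm_num)
    have e1 := hw4 0 2 (by norm_num)
    have e2 := hw2 1 1 (by norm_num)
    have e3 := hw2 (-1) 1 (by norm_num)
    norm_num at *
    linarith
  · have e0 := hw1 0 (-1) (by norm_num)
    have e1 := hw4 0 (-2) (by norm_num)
    have e2 := hw2 1 (-1) (by norm_num)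
    have e3 := hw2 (-1) (-1) (by norm_num)
    norm_num at *
    linarith

/-- at distance at least `sqrt 2` -/
theorem green_lower_case2 (z0 x : ℤ × ℤ) (m : ℕ)
    (h2 : 2 ≤ (x.1 - z0.1) ^ 2 + (x.2 - z0.2) ^ 2) :
    4 * green_lower_g z0 m x ≤
      green_lower_g z0 m (x.1 + 1, x.2) + green_lower_g z0 m (x.1 - 1, x.2)
      + green_lower_g z0 m (x.1, x.2 + 1) + green_lower_g z0 m (x.1, x.2 - 1) := by
  have n0 : x ≠ z0 := by rintro rfl; norm_num at h2
  have n1 : (x.1 + 1, x.2) ≠ z0 := by rintro rfl; norm_num at h2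
  have n2 : (x.1 - 1, x.2) ≠ z0 := by rintro rfl; norm_num at h2
  have n3 : (x.1, x.2 + 1) ≠ z0 := by rintro rfl; norm_num at h2
  have n4 : (x.1, x.2 - 1) ≠ z0 := by rintro rfl; norm_num at h2
  obtain ⟨p1, q1⟩ := green_lower_ge (m := m) n1
  obtain ⟨p2, q2⟩ := green_lower_ge (m := m) n2
  obtain ⟨p3, q3⟩ := green_lower_ge (m := m) n3
  obtain ⟨p4, q4⟩ := green_lower_ge (m := m) n4
  have w1 := green_lower_wpos n1
  have w2 := green_lower_wpos n2
  have w3 := green_lower_wpos n3
  have w4 := green_lower_wpos n4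
  set a : ℝ := (x.1 : ℝ) - z0.1 with ha
  set b : ℝ := (x.2 : ℝ) - z0.2 with hb
  set w : ℝ := a ^ 2 + b ^ 2 - 3 / 4 with hw
  have hwx : green_lower_w z0 x = w := rfl
  have hab : 2 ≤ a ^ 2 + b ^ 2 := by
    have : ((2 : ℤ) : ℝ) ≤ (((x.1 - z0.1) ^ 2 + (x.2 - z0.2) ^ 2 : ℤ) : ℝ) := by exact_mod_cast h2
    rw [← green_lower_sq] at this
    push_cast at this
    exact this
  have e1 : green_lower_w z0 (x.1 + 1, x.2) = w + 1 + 2 * a := by
    unfold green_lower_w
    push_cast
    rw [hw, ha, hb]; ring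
  have e2 : green_lower_w z0 (x.1 - 1, x.2) = w + 1 - 2 * a := by
    unfold green_lower_w
    push_cast
    rw [hw, ha, hb]; ring
  have e3 : green_lower_w z0 (x.1, x.2 + 1) = w + 1 + 2 * b := by
    unfold green_lower_w
    push_cast
    rw [hw, ha, hb]; ring
  have e4 : green_lower_w z0 (x.1, x.2 - 1) = w + 1 - 2 * b := by
    unfold green_lower_w
    push_cast
    rw [hw, ha, hb]; ring
  rw [e1] at w1 q1
  rw [e2] at w2 q2
  rw [e3] at w3 q3
  rw [e4] at w4 q4
  have hwpos : 5 / 4 ≤ w := by rw [hw]; linarith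
  have hprod : (w + 1 + 2 * a) * (w + 1 - 2 * a) * (w + 1 + 2 * b) * (w + 1 - 2 * b) ≤ w ^ 4 := by
    have hs : a ^ 2 + b ^ 2 = w + 3 / 4 := by rw [hw]; ring
    have h16 : 4 * (a ^ 2 * b ^ 2) ≤ (w + 3 / 4) ^ 2 := by
      rw [← hs]; nlinarith [sq_nonneg (a ^ 2 - b ^ 2)]
    have hexp : (w + 1 + 2 * a) * (w + 1 - 2 * a) * (w + 1 + 2 * b) * (w + 1 - 2 * b)
        = (w + 1) ^ 4 - 4 * (w + 1) ^ 2 * (a ^ 2 + b ^ 2) + 16 * (a ^ 2 * b ^ 2) := by ring
    rw [hexp, hs]
    nlinarith
  have hlogs : Real.log (w + 1 + 2 * a) + Real.log (w + 1 - 2 * a) + Real.log (w + 1 + 2 * b)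
      + Real.log (w + 1 - 2 * b) ≤ 4 * Real.log w := by
    have h4 : 4 * Real.log w = Real.log (w ^ 4) := by rw [Real.log_pow]; norm_num
    rw [h4, ← Real.log_mul (by positivity) (by positivity), ← Real.log_mul (by positivity)
      (by positivity), ← Real.log_mul (by positivity) (by positivity)]
    exact Real.log_le_log (by positivity) hprod
  have hgx : green_lower_g z0 m x = max 0 (2 * Real.log m - Real.log w) := by
    unfold green_lower_g
    rw [if_neg n0, hwx]
  rw [hgx]
  rcases max_cases 0 (2 * Real.log m - Real.log w) with ⟨h, _⟩ | ⟨h, _⟩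
  · rw [h]; linarith
  · rw [h]; linarith

theorem green_lower_unit (a b : ℤ) (h : 1 = a ^ 2 + b ^ 2) :
    (a = 1 ∧ b = 0) ∨ (a = -1 ∧ b = 0) ∨ (a = 0 ∧ b = 1) ∨ (a = 0 ∧ b = -1) := by
  have ha1 : a ≤ 1 := by nlinarith [sq_nonneg b]
  have ha2 : -1 ≤ a := by nlinarith [sq_nonneg b]
  have hb1 : b ≤ 1 := by nlinarith [sq_nonneg a]
  have hb2 : -1 ≤ b := by nlinarith [sq_nonneg a]
  have ha : a = -1 ∨ a = 0 ∨ a = 1 := by omega
  have hb : b = -1 ∨ b = 0 ∨ b = 1 := by omega
  rcases ha with rfl | rfl | rfl <;> rcases hb with rfl | rfl | rfl <;> first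
    | (exfalso; norm_num at h; done)
    | simp

theorem green_lower_out {z0 z : ℤ × ℤ} {m : ℕ} (h : z ∉ ball z0 m) :
    ((m : ℝ) + 1) ^ 2 ≤ ((z.1 : ℝ) - z0.1) ^ 2 + ((z.2 : ℝ) - z0.2) ^ 2 := by
  rw [green_lower_sq]
  have : ((m : ℤ) + 1) ^ 2 ≤ (z.1 - z0.1) ^ 2 + (z.2 - z0.2) ^ 2 := by
    simp only [ball, rect, Finset.mem_product, Finset.mem_Icc, not_and_or, not_le] at h
    have hm : (0 : ℤ) ≤ m := Int.natCast_nonneg m
    rcases h with (h | h) | (h | h)
    · nlinarith [sq_nonneg (z.2 - z0.2)]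
    · nlinarith [sq_nonneg (z.2 - z0.2)]
    · nlinarith [sq_nonneg (z.1 - z0.1)]
    · nlinarith [sq_nonneg (z.1 - z0.1)]
  exact_mod_cast this

theorem _root_.H941.green_lower (z0 x : ℤ × ℤ) (m : ℕ) (hm : 1 ≤ m) :
    (2 * Real.log m - Real.log (1 + ((x.1 : ℝ) - z0.1) ^ 2 + ((x.2 : ℝ) - z0.2) ^ 2)) / 8 ≤
      green (ball z0 m) x z0 := by
  have hmR : (1 : ℝ) ≤ m := by exact_mod_cast hm
  have hlog : 0 ≤ Real.log m := Real.log_nonneg hmR
  obtain ⟨g1, g2, g3, g4, g5, g6⟩ := green_basic (ball z0 m)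
  have hz0 : z0 ∈ ball z0 m := by
    simp only [ball, rect, Finset.mem_product, Finset.mem_Icc]
    omega
  by_cases hx : x ∈ ball z0 m
  · have key := g6 (fun v => if v = z0 then 8 else 0) (green_lower_g z0 m) ?_ ?_ x hx
    · have hsum : ∑ v ∈ ball z0 m, green (ball z0 m) x v * (if v = z0 then 8 else 0)
          = green (ball z0 m) x z0 * 8 := by
        simp only [mul_ite, mul_zero]
        rw [Finset.sum_ite_eq' (ball z0 m) z0, if_pos hz0]
      rw [hsum] at key
      by_cases hxz : x = z0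
      · subst hxz
        have : green_lower_g x m x = 2 * Real.log m + 7.2 := by
          unfold green_lower_g; rw [if_pos rfl]
        rw [this] at key
        simp only [sub_self]
        norm_num at *
        linarith
      · have h1 := (green_lower_ge (m := m) hxz).2
        have h2 := green_lower_wpos hxz
        have h3 : Real.log (green_lower_w z0 x) ≤
            Real.log (1 + ((x.1 : ℝ) - z0.1) ^ 2 + ((x.2 : ℝ) - z0.2) ^ 2) := by
          apply Real.log_le_log (by linarith)
          unfold green_lower_w; linarith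
        linarith
    · intro z hz
      have hne : z ≠ z0 := by rintro rfl; exact hz hz0
      have h1 := green_lower_out hz
      unfold green_lower_g
      rw [if_neg hne, max_eq_left]
      have h2 : (m : ℝ) ^ 2 ≤ green_lower_w z0 z := by
        unfold green_lower_w; nlinarith
      have h3 := Real.log_le_log (by positivity) h2
      rw [Real.log_pow] at h3
      push_cast at h3
      linarith
    · intro y hy
      rw [green_lower_sum_nbrs]
      by_cases hyz : y = z0
      · subst hyz
        have hv : ∀ c d : ℤ, c ^ 2 + d ^ 2 = 1 →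
            2 * Real.log m ≤ green_lower_g y m (y.1 + c, y.2 + d) := by
          intro c d hcd
          have hne : (y.1 + c, y.2 + d) ≠ y := by
            intro h
            have h1 := congrArg Prod.fst h
            have h2 := congrArg Prod.snd h
            simp only at h1 h2
            have : c = 0 := by omega
            have : d = 0 := by omega
            subst c; subst d
            norm_num at hcd
          have hw : green_lower_w y (y.1 + c, y.2 + d) = 1 / 4 := by
            unfold green_lower_w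
            have : ((c : ℝ)) ^ 2 + (d : ℝ) ^ 2 = 1 := by exact_mod_cast hcd
            push_cast
            ring_nf
            linarith
          have := (green_lower_ge (m := m) hne).2
          rw [hw] at this
          have h4 : Real.log (1 / 4 : ℝ) ≤ 0 := Real.log_nonpos (by norm_num) (by norm_num)
          linarith
        have v1 := hv 1 0 (by norm_num)
        have v2 := hv (-1) 0 (by norm_num)
        have v3 := hv 0 1 (by norm_num)
        have v4 := hv 0 (-1) (by norm_num)
        have hgy : green_lower_g y m y = 2 * Real.log m + 7.2 := by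
          unfold green_lower_g; rw [if_pos rfl]
        rw [hgy]
        simp only [add_zero, ← sub_eq_add_neg] at v1 v2 v3 v4
        simp only [if_true]
        norm_num at *
        linarith
      · have h1 := green_lower_ne hyz
        rw [if_neg hyz, zero_add]
        rcases eq_or_lt_of_le h1 with h2 | h2
        · have hab := green_lower_unit _ _ h2
          have := green_lower_case1 z0 m hm _ _ hab
          simp only [add_sub_cancel] at this
          have e : ((y.1, y.2) : ℤ × ℤ) = y := rfl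
          rw [e] at this
          linarith
        · have := green_lower_case2 z0 y m (by omega)
          linarith
  · have h1 := green_lower_out hx
    have h2 : (m : ℝ) ^ 2 ≤ 1 + ((x.1 : ℝ) - z0.1) ^ 2 + ((x.2 : ℝ) - z0.2) ^ 2 := by nlinarith
    have h3 := Real.log_le_log (by positivity) h2
    rw [Real.log_pow] at h3
    push_cast at h3
    have := g1 x z0
    linarith

end H941.green_lower
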