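import Pool.Agent.H941.Defs4
import Pool.Agent.H941.A3
import Pool.Agent.H941.B.green_decomp
import Pool.Agent.H941.B.green_log_off
import Pool.Agent.H941.B.hit_basic
import Pool.Agent.H941.C.green_lower

open MeasureTheory ProbabilityTheory

namespace H941.hit_scale

theorem hs_mem_ball (z x : ℤ × ℤ) (r : ℤ) : x ∈ ball z r ↔
    z.1 - r ≤ x.1 ∧ x.1 ≤ z.1 + r ∧ z.2 - r ≤ x.2 ∧ x.2 ≤ z.2 + r := by
  unfold ball rect
  rw [Finset.mem_product, Finset.mem_Icc, Finset.mem_Icc]
  tauto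

/-- `∑_{j<n} log (n/(j+1)) ≤ n` -/
theorem hs_sum_log (n : ℕ) :
    ∑ j ∈ Finset.range n, (Real.log n - Real.log ((j : ℝ) + 1)) ≤ n := by
  induction n with
  | zero => simp
  | succ n ih =>
    rw [Finset.sum_range_succ]
    rcases Nat.eq_zero_or_pos n with h0 | hn
    · subst h0; simp
    · have hn' : (0 : ℝ) < n := by exact_mod_cast hn
      have e1 : ∑ j ∈ Finset.range n, (Real.log ((n + 1 : ℕ) : ℝ) - Real.log ((j : ℝ) + 1)) =
          ∑ j ∈ Finset.range n, (Real.log n - Real.log ((j : ℝ) + 1)) +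
            n * (Real.log ((n + 1 : ℕ) : ℝ) - Real.log n) := by
        rw [Finset.sum_sub_distrib, Finset.sum_sub_distrib]
        simp
        ring
      rw [e1]
      have h1 : Real.log ((n + 1 : ℕ) : ℝ) - Real.log n ≤ 1 / n := by
        rw [← Real.log_div (by positivity) hn'.ne']
        have h2 : ((n + 1 : ℕ) : ℝ) / n = 1 / n + 1 := by
          push_cast; field_simp
          ring
        rw [h2]
        have := Real.add_one_le_exp (1 / (n : ℝ))
        calc Real.log (1 / n + 1) ≤ Real.log (Real.exp (1 / n)) :=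
              Real.log_le_log (by positivity) this
          _ = 1 / n := Real.log_exp _
      have h3 : (n : ℝ) * (Real.log ((n + 1 : ℕ) : ℝ) - Real.log n) ≤ 1 := by
        calc (n : ℝ) * (Real.log ((n + 1 : ℕ) : ℝ) - Real.log n) ≤ n * (1 / n) :=
              mul_le_mul_of_nonneg_left h1 hn'.le
          _ = 1 := by field_simp
      push_cast at h3 ih ⊢
      linarith

/-- `∑_{k=1}^n log (n/(|k-k0|+1)) ≤ 2 n` -/
theorem hs_sum_abs (n k0 : ℕ) (hk : 1 ≤ k0) (hk' : k0 ≤ n) :
    ∑ k ∈ Finset.Icc 1 n, (Real.log n - Real.log (|(k : ℝ) - k0| + 1)) ≤ 2 * n := by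
  have hF : ∀ j ∈ Finset.range n, 0 ≤ Real.log n - Real.log ((j : ℝ) + 1) := by
    intro j hj
    rw [Finset.mem_range] at hj
    have : Real.log ((j : ℝ) + 1) ≤ Real.log n := by
      apply Real.log_le_log (by positivity)
      exact_mod_cast hj
    linarith
  rw [← Finset.sum_filter_add_sum_filter_not _ (fun k => k0 ≤ k)]
  have h1 : ∑ k ∈ (Finset.Icc 1 n).filter (fun k => k0 ≤ k),
      (Real.log n - Real.log (|(k : ℝ) - k0| + 1)) ≤ n := by
    refine le_trans ?_ (hs_sum_log n)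
    have e : ∑ k ∈ (Finset.Icc 1 n).filter (fun k => k0 ≤ k),
        (Real.log n - Real.log (|(k : ℝ) - k0| + 1)) =
        ∑ j ∈ ((Finset.Icc 1 n).filter (fun k => k0 ≤ k)).image (fun k => k - k0),
          (Real.log n - Real.log ((j : ℝ) + 1)) := by
      rw [Finset.sum_image]
      · apply Finset.sum_congr rfl
        intro k hk1
        rw [Finset.mem_filter, Finset.mem_Icc] at hk1
        rw [Nat.cast_sub hk1.2, abs_of_nonneg]
        have : (k0 : ℝ) ≤ k := by exact_mod_cast hk1.2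
        linarith
      · intro a ha b hb hab
        simp only [Finset.coe_filter, Finset.mem_Icc, Set.mem_ofPred_eq] at ha hb
        simp only at hab
        omega
    rw [e]
    apply Finset.sum_le_sum_of_subset_of_nonneg
    · intro j hj
      rw [Finset.mem_image] at hj
      obtain ⟨k, hk1, rfl⟩ := hj
      rw [Finset.mem_filter, Finset.mem_Icc] at hk1
      rw [Finset.mem_range]
      omega
    · intro j hj _
      exact hF j hj
  have h2 : ∑ k ∈ (Finset.Icc 1 n).filter (fun k => ¬ k0 ≤ k),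
      (Real.log n - Real.log (|(k : ℝ) - k0| + 1)) ≤ n := by
    refine le_trans ?_ (hs_sum_log n)
    have e : ∑ k ∈ (Finset.Icc 1 n).filter (fun k => ¬ k0 ≤ k),
        (Real.log n - Real.log (|(k : ℝ) - k0| + 1)) =
        ∑ j ∈ ((Finset.Icc 1 n).filter (fun k => ¬ k0 ≤ k)).image (fun k => k0 - k),
          (Real.log n - Real.log ((j : ℝ) + 1)) := by
      rw [Finset.sum_image]
      · apply Finset.sum_congr rfl
        intro k hk1
        rw [Finset.mem_filter, Finset.mem_Icc] at hk1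
        have hle : k ≤ k0 := by omega
        rw [Nat.cast_sub hle, abs_sub_comm, abs_of_nonneg]
        have : (k : ℝ) ≤ k0 := by exact_mod_cast hle
        linarith
      · intro a ha b hb hab
        simp only [Finset.coe_filter, Finset.mem_Icc, Set.mem_ofPred_eq] at ha hb
        simp only at hab
        omega
    rw [e]
    apply Finset.sum_le_sum_of_subset_of_nonneg
    · intro j hj
      rw [Finset.mem_image] at hj
      obtain ⟨k, hk1, rfl⟩ := hj
      rw [Finset.mem_filter, Finset.mem_Icc] at hk1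
      rw [Finset.mem_range]
      omega
    · intro j hj _
      exact hF j hj
  linarith

theorem hs_log_const : Real.log 10895 ≤ 10 := by
  rw [Real.log_le_iff_le_exp (by norm_num)]
  have h : (2.7 : ℝ) ≤ Real.exp 1 := by
    have := Real.exp_one_gt_d9
    linarith
  calc (10895 : ℝ) ≤ 2.7 ^ 10 := by norm_num
    _ ≤ (Real.exp 1) ^ 10 := pow_le_pow_left₀ (by norm_num) h 10
    _ = Real.exp 10 := by rw [← Real.exp_nat_mul]; norm_num

/-- one term of the sum -/
theorem hs_term (n : ℕ) (hn : 1 ≤ n) (q t : ℝ) (ht : t ^ 2 ≤ 4 * q) :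
    Real.log (1 + 2 * (((32 * n + 1 : ℕ) : ℝ)) ^ 2) - Real.log (1 + q) ≤
      10 + 2 * (Real.log n - Real.log (|t| + 1)) := by
  have hn1 : (1 : ℝ) ≤ n := by exact_mod_cast hn
  have h1 : 1 + 2 * (((32 * n + 1 : ℕ) : ℝ)) ^ 2 ≤ 2179 * (n : ℝ) ^ 2 := by
    push_cast
    nlinarith
  have hq : 0 ≤ q := by nlinarith [sq_nonneg t]
  have h2 : (|t| + 1) ^ 2 / 5 ≤ 1 + q := by
    have h3 : |t| ^ 2 = t ^ 2 := sq_abs t
    nlinarith [sq_nonneg (|t| / 2 - 2)]
  have h4 : Real.log (1 + 2 * (((32 * n + 1 : ℕ) : ℝ)) ^ 2) ≤ Real.log (2179 * (n : ℝ) ^ 2) :=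
    Real.log_le_log (by positivity) h1
  have h5 : Real.log ((|t| + 1) ^ 2 / 5) ≤ Real.log (1 + q) :=
    Real.log_le_log (by positivity) h2
  have h6 : Real.log (2179 * (n : ℝ) ^ 2) = Real.log 2179 + 2 * Real.log n := by
    rw [Real.log_mul (by norm_num) (by positivity), Real.log_pow]
    norm_num
  have h7 : Real.log ((|t| + 1) ^ 2 / 5) = 2 * Real.log (|t| + 1) - Real.log 5 := by
    rw [Real.log_div (by positivity) (by norm_num), Real.log_pow]
    norm_num
  have h8 : Real.log 2179 + Real.log 5 ≤ 10 := by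
    rw [← Real.log_mul (by norm_num) (by norm_num)]
    have := hs_log_const
    norm_num at this ⊢
    exact this
  linarith

theorem _root_.H941.hit_scale : ∃ c : ℝ, 0 < c ∧ c ≤ 1 / 2 ∧ ∀ (z0 : ℤ × ℤ) (n : ℕ), 1 ≤ n → ∀ K : Finset (ℤ × ℤ),
    K ⊆ ball z0 (16 * n) → ∀ v : ℕ → ℤ × ℤ, (∀ k, 1 ≤ k → k ≤ n → v k ∈ K ∧ v k ∈ ball z0 (2 * n)) →
    (∀ k l, 1 ≤ k → k < l → l ≤ n → (l : ℤ) - k ≤ max |(v k).1 - (v l).1| |(v k).2 - (v l).2|) →
    ∀ x ∈ ball z0 (2 * n), x ∉ K → c ≤ ∑ a ∈ K, hit (ball z0 (16 * n)) K x a := by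
  refine ⟨1 / 168, by norm_num, by norm_num, ?_⟩
  intro z0 n hn K hK v hv hsep x hx hxK
  set D := ball z0 (16 * n) with hDdef
  obtain ⟨hg0, hgout, -, hgmono, -, -⟩ := green_basic D
  obtain ⟨hh0, -, -, -, -⟩ := hit_basic D K
  have hn1 : (1 : ℝ) ≤ n := by exact_mod_cast hn
  have hnz : (1 : ℤ) ≤ n := by exact_mod_cast hn
  have hdiam : ∀ y ∈ D, ∀ y' ∈ D, |y.1 - y'.1| < ((32 * n + 1 : ℕ) : ℤ) ∧
      |y.2 - y'.2| < ((32 * n + 1 : ℕ) : ℤ) := by
    intro y hy y' hy'
    rw [hDdef, hs_mem_ball] at hy hy'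
    push_cast
    constructor
    · rw [abs_lt]; constructor <;> linarith [hy.1, hy.2.1, hy'.1, hy'.2.1]
    · rw [abs_lt]
      constructor <;> linarith [hy.2.2.1, hy.2.2.2, hy'.2.2.1, hy'.2.2.2]
  -- lower bound
  have hlow : ∀ k ∈ Finset.Icc 1 n, (1 / 8 : ℝ) ≤ ∑ a ∈ K, hit D K x a * green D a (v k) := by
    intro k hk
    rw [Finset.mem_Icc] at hk
    obtain ⟨hvK, hvB⟩ := hv k hk.1 hk.2
    have e1 := green_decomp D K x (v k) hxK
    have e2 : green (D \ K) x (v k) = 0 := by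
      obtain ⟨-, h, -, -, -, -⟩ := green_basic (D \ K)
      exact h _ _ (Or.inr (by simp [hvK]))
    rw [e2, zero_add] at e1
    rw [← e1]
    have hsub : ball (v k) ((14 * n : ℕ) : ℤ) ⊆ D := by
      intro y hy
      rw [hDdef, hs_mem_ball]
      rw [hs_mem_ball] at hy hvB
      push_cast at hy
      refine ⟨by linarith [hy.1, hvB.1], by linarith [hy.2.1, hvB.2.1],
        by linarith [hy.2.2.1, hvB.2.2.1], by linarith [hy.2.2.2, hvB.2.2.2]⟩
    have h1 := green_lower (v k) x (14 * n) (by omega)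
    obtain ⟨-, -, -, hmono, -, -⟩ := green_basic (ball (v k) ((14 * n : ℕ) : ℤ))
    have h2 := hmono D hsub x (v k)
    refine le_trans ?_ (le_trans h1 h2)
    rw [hs_mem_ball] at hx hvB
    have a1 : ((x.1 : ℝ) - (v k).1) ^ 2 ≤ 16 * (n : ℝ) ^ 2 := by
      have b1 : x.1 - (v k).1 ≤ 4 * n := by linarith [hx.2.1, hvB.1]
      have b2 : -(4 * n : ℤ) ≤ x.1 - (v k).1 := by linarith [hx.1, hvB.2.1]
      have c1 : (x.1 : ℝ) - (v k).1 ≤ 4 * n := by exact_mod_cast b1
      have c2 : -(4 * n : ℝ) ≤ (x.1 : ℝ) - (v k).1 := by exact_mod_cast b2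
      nlinarith
    have a2 : ((x.2 : ℝ) - (v k).2) ^ 2 ≤ 16 * (n : ℝ) ^ 2 := by
      have b1 : x.2 - (v k).2 ≤ 4 * n := by linarith [hx.2.2.2, hvB.2.2.1]
      have b2 : -(4 * n : ℤ) ≤ x.2 - (v k).2 := by linarith [hx.2.2.1, hvB.2.2.2]
      have c1 : (x.2 : ℝ) - (v k).2 ≤ 4 * n := by exact_mod_cast b1
      have c2 : -(4 * n : ℝ) ≤ (x.2 : ℝ) - (v k).2 := by exact_mod_cast b2
      nlinarith
    have a3 : Real.log (1 + ((x.1 : ℝ) - (v k).1) ^ 2 + ((x.2 : ℝ) - (v k).2) ^ 2) ≤
        Real.log (33 * (n : ℝ) ^ 2) :=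
      Real.log_le_log (by positivity) (by nlinarith)
    have a4 : 2 * Real.log ((14 * n : ℕ) : ℝ) = Real.log (196 * (n : ℝ) ^ 2) := by
      have : (196 * (n : ℝ) ^ 2) = (((14 * n : ℕ) : ℝ)) ^ 2 := by push_cast; ring
      rw [this, Real.log_pow]; norm_num
    have a5 : 1 ≤ Real.log (196 * (n : ℝ) ^ 2) - Real.log (33 * (n : ℝ) ^ 2) := by
      rw [← Real.log_div (by positivity) (by positivity)]
      have : (196 * (n : ℝ) ^ 2) / (33 * (n : ℝ) ^ 2) = 196 / 33 := by
        field_simp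
      rw [this, Real.le_log_iff_exp_le (by norm_num)]
      have := Real.exp_one_lt_d9
      linarith
    rw [a4]
    linarith
  -- upper bound
  have hup : ∀ a ∈ K, ∑ k ∈ Finset.Icc 1 n, green D a (v k) ≤ 21 * n := by
    intro a ha
    have haD : a ∈ D := hK ha
    obtain ⟨k0, hk0, hmin⟩ := Finset.exists_min_image (Finset.Icc 1 n)
      (fun k => max |a.1 - (v k).1| |a.2 - (v k).2|) ⟨1, by simp [hn]⟩
    rw [Finset.mem_Icc] at hk0
    have hlog2 : (2 / 3 : ℝ) ≤ Real.log 2 := by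
      have := Real.log_two_gt_d9
      linarith
    have hterm : ∀ k ∈ Finset.Icc 1 n, green D a (v k) ≤
        (10 + 2 * (Real.log n - Real.log (|(k : ℝ) - k0| + 1))) / Real.log 2 := by
      intro k hk
      have hm := hmin k hk
      rw [Finset.mem_Icc] at hk
      have hvD : v k ∈ D := hK (hv k hk.1 hk.2).1
      have h1 := green_log_off D (32 * n + 1) (by omega) hdiam a (v k) haD hvD
      refine h1.trans ?_
      apply div_le_div_of_nonneg_right _ (by linarith)
      have hdist : |(k : ℤ) - k0| ≤ max |(v k).1 - (v k0).1| |(v k).2 - (v k0).2| := by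
        rcases lt_trichotomy k k0 with h | h | h
        · have := hsep k k0 hk.1 h hk0.2
          rw [abs_sub_comm, abs_of_nonneg (by omega)]
          exact this
        · subst h
          simp
        · have := hsep k0 k hk0.1 h hk.2
          rw [abs_of_nonneg (by omega), abs_sub_comm (v k).1, abs_sub_comm (v k).2]
          exact this
      have hd2 : max |(v k).1 - (v k0).1| |(v k).2 - (v k0).2| ≤
          2 * max |a.1 - (v k).1| |a.2 - (v k).2| := by
        have t1 : |(v k).1 - (v k0).1| ≤ |a.1 - (v k).1| + |a.1 - (v k0).1| := by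
          have := abs_sub (a.1 - (v k0).1) (a.1 - (v k).1)
          have e : a.1 - (v k0).1 - (a.1 - (v k).1) = (v k).1 - (v k0).1 := by ring
          rw [e] at this
          linarith
        have t2 : |(v k).2 - (v k0).2| ≤ |a.2 - (v k).2| + |a.2 - (v k0).2| := by
          have := abs_sub (a.2 - (v k0).2) (a.2 - (v k).2)
          have e : a.2 - (v k0).2 - (a.2 - (v k).2) = (v k).2 - (v k0).2 := by ring
          rw [e] at this
          linarith
        have u1 := le_max_left |a.1 - (v k).1| |a.2 - (v k).2|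
        have u2 := le_max_right |a.1 - (v k).1| |a.2 - (v k).2|
        have u3 := le_max_left |a.1 - (v k0).1| |a.2 - (v k0).2|
        have u4 := le_max_right |a.1 - (v k0).1| |a.2 - (v k0).2|
        apply max_le
        · linarith
        · linarith
      have hsq : ((k : ℝ) - k0) ^ 2 ≤
          4 * (((a.1 : ℝ) - (v k).1) ^ 2 + ((a.2 : ℝ) - (v k).2) ^ 2) := by
        have h3 : |(k : ℤ) - k0| ≤ 2 * max |a.1 - (v k).1| |a.2 - (v k).2| := hdist.trans hd2
        have h4 : ((k : ℤ) - k0) ^ 2 ≤ 4 * ((a.1 - (v k).1) ^ 2 + (a.2 - (v k).2) ^ 2) := by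
          rw [← sq_abs ((k : ℤ) - k0)]
          have h5 : |(k : ℤ) - k0| ^ 2 ≤ (2 * max |a.1 - (v k).1| |a.2 - (v k).2|) ^ 2 :=
            pow_le_pow_left₀ (abs_nonneg _) h3 2
          refine h5.trans ?_
          rcases max_cases |a.1 - (v k).1| |a.2 - (v k).2| with ⟨h6, -⟩ | ⟨h6, -⟩
          · rw [h6, mul_pow, sq_abs]; nlinarith [sq_nonneg (a.2 - (v k).2)]
          · rw [h6, mul_pow, sq_abs]; nlinarith [sq_nonneg (a.1 - (v k).1)]
        exact_mod_cast h4
      have h7 := hs_term n hn _ _ hsq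
      rw [← add_assoc] at h7
      exact h7
    calc ∑ k ∈ Finset.Icc 1 n, green D a (v k)
        ≤ ∑ k ∈ Finset.Icc 1 n,
          (10 + 2 * (Real.log n - Real.log (|(k : ℝ) - k0| + 1))) / Real.log 2 :=
          Finset.sum_le_sum hterm
      _ = (10 * n + 2 * ∑ k ∈ Finset.Icc 1 n, (Real.log n - Real.log (|(k : ℝ) - k0| + 1))) /
          Real.log 2 := by
          rw [← Finset.sum_div, Finset.sum_add_distrib, Finset.mul_sum]
          simp [mul_comm]
      _ ≤ (10 * n + 2 * (2 * n)) / Real.log 2 := by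
          apply div_le_div_of_nonneg_right _ (by linarith)
          have := hs_sum_abs n k0 hk0.1 hk0.2
          linarith
      _ ≤ 21 * n := by
          rw [div_le_iff₀ (by linarith)]
          nlinarith
  have hsum : (1 / 8 : ℝ) * n ≤ (∑ a ∈ K, hit D K x a) * (21 * n) := by
    calc (1 / 8 : ℝ) * n = ∑ k ∈ Finset.Icc 1 n, (1 / 8 : ℝ) := by
          simp [mul_comm]
      _ ≤ ∑ k ∈ Finset.Icc 1 n, ∑ a ∈ K, hit D K x a * green D a (v k) :=
          Finset.sum_le_sum hlow
      _ = ∑ a ∈ K, hit D K x a * ∑ k ∈ Finset.Icc 1 n, green D a (v k) := by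
          rw [Finset.sum_comm]
          apply Finset.sum_congr rfl
          intro a _
          rw [Finset.mul_sum]
      _ ≤ ∑ a ∈ K, hit D K x a * (21 * n) :=
          Finset.sum_le_sum fun a ha => mul_le_mul_of_nonneg_left (hup a ha) (hh0 x a)
      _ = _ := by rw [Finset.sum_mul]
  have : (0 : ℝ) < n := by linarith
  nlinarith

end H941.hit_scale
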