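import Pool.Agent.H941.Defs4
import Pool.Agent.H941.B.hit_basic
import Pool.Agent.H941.B.hit_sub
import Pool.Agent.H941.C.hit_scale

open MeasureTheory ProbabilityTheory

namespace H941.beurling

theorem cp4_walk (f : ℤ × ℤ → ℤ) (hf : ∀ u v, grid.Adj u v → f v ≤ f u + 1) (k : ℤ) {u w : ℤ × ℤ}
    (p : grid.Walk u w) (h1 : f u ≤ k) (h2 : k ≤ f w) : ∃ z ∈ p.support, f z = k := by
  induction p with
  | nil => exact ⟨_, by simp, le_antisymm h1 h2⟩
  | @cons a b c h p ih =>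
    by_cases he : f a = k
    · exact ⟨a, by simp, he⟩
    · have h3 := hf a b h
      obtain ⟨z, hz, hz'⟩ := ih (by omega) h2
      exact ⟨z, by simp [hz], hz'⟩

/-- sup distance -/
def cp4_d (a z : ℤ × ℤ) : ℤ := max |z.1 - a.1| |z.2 - a.2|

theorem cp4_adj (a u v : ℤ × ℤ) (h : grid.Adj u v) : cp4_d a v ≤ cp4_d a u + 1 := by
  have h' : |u.1 - v.1| + |u.2 - v.2| = 1 := h
  unfold cp4_d
  have := abs_nonneg (u.1 - v.1)
  have := abs_nonneg (u.2 - v.2)
  have h1 : |v.1 - a.1| ≤ |u.1 - v.1| + |u.1 - a.1| := by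
    have := abs_sub_comm v.1 u.1
    have := abs_sub_le v.1 u.1 a.1
    omega
  have h2 : |v.2 - a.2| ≤ |u.2 - v.2| + |u.2 - a.2| := by
    have := abs_sub_comm v.2 u.2
    have := abs_sub_le v.2 u.2 a.2
    omega
  have := le_max_left |u.1 - a.1| |u.2 - a.2|
  have := le_max_right |u.1 - a.1| |u.2 - a.2|
  apply max_le <;> omega

theorem cp4_mem_ball (x z : ℤ × ℤ) (r : ℤ) : z ∈ ball x r ↔ cp4_d x z ≤ r := by
  unfold ball rect cp4_d
  rw [Finset.mem_product, Finset.mem_Icc, Finset.mem_Icc, max_le_iff, abs_le, abs_le]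
  constructor
  · rintro ⟨⟨h1, h2⟩, h3, h4⟩
    refine ⟨⟨?_, ?_⟩, ?_, ?_⟩ <;> linarith
  · rintro ⟨⟨h1, h2⟩, h3, h4⟩
    refine ⟨⟨?_, ?_⟩, ?_, ?_⟩ <;> linarith

theorem cp4_tri (a b z : ℤ × ℤ) : cp4_d a z ≤ cp4_d a b + cp4_d b z := by
  unfold cp4_d
  have h1 := abs_sub_le z.1 b.1 a.1
  have h2 := abs_sub_le z.2 b.2 a.2
  have := le_max_left |z.1 - b.1| |z.2 - b.2|
  have := le_max_right |z.1 - b.1| |z.2 - b.2|
  have := le_max_left |b.1 - a.1| |b.2 - a.2|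
  have := le_max_right |b.1 - a.1| |b.2 - a.2|
  apply max_le <;> linarith

theorem cp4_comm (a b : ℤ × ℤ) : cp4_d a b = cp4_d b a := by
  unfold cp4_d
  rw [abs_sub_comm b.1, abs_sub_comm b.2]

theorem cp4_nbr (x z : ℤ × ℤ) (h : z ∈ nbrs x) : cp4_d x z ≤ 1 := by
  unfold nbrs at h
  simp only [Finset.mem_insert, Finset.mem_singleton] at h
  unfold cp4_d
  rcases h with h | h | h | h <;> subst h <;> simp

theorem cp4_card (x : ℤ × ℤ) : (nbrs x).card = 4 := by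
  unfold nbrs
  rw [Finset.card_insert_of_notMem, Finset.card_insert_of_notMem, Finset.card_insert_of_notMem,
    Finset.card_singleton]
  · simp only [Finset.mem_singleton, Prod.mk.injEq, not_and]
    intro _; omega
  · simp only [Finset.mem_insert, Finset.mem_singleton, Prod.mk.injEq, not_or, not_and]
    constructor <;> intro _ <;> omega
  · simp only [Finset.mem_insert, Finset.mem_singleton, Prod.mk.injEq, not_or, not_and]
    refine ⟨?_, ?_, ?_⟩ <;> intro _ <;> omega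

/-- one step -/
theorem cp4_step (c0 : ℝ) (hc1 : c0 ≤ 1 / 2)
    (hs : ∀ (z0 : ℤ × ℤ) (n : ℕ), 1 ≤ n → ∀ K : Finset (ℤ × ℤ),
      K ⊆ ball z0 (16 * n) → ∀ v : ℕ → ℤ × ℤ, (∀ k, 1 ≤ k → k ≤ n → v k ∈ K ∧ v k ∈ ball z0 (2 * n)) →
      (∀ k l, 1 ≤ k → k < l → l ≤ n → (l : ℤ) - k ≤ max |(v k).1 - (v l).1| |(v k).2 - (v l).2|) →
      ∀ x ∈ ball z0 (2 * n), x ∉ K → c0 ≤ ∑ a ∈ K, hit (ball z0 (16 * n)) K x a)
    (g : ℤ × ℤ → ℝ) (Z : Set (ℤ × ℤ)) (a : ℤ × ℤ) (ρ : ℕ) (hρ : 1 ≤ ρ) (S : ℝ) (hS : 0 ≤ S)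
    (hZ : ∀ z ∈ Z, g z = 0) (hsub : ∀ z ∈ ball a (16 * ρ), g z ≤ (1 / 4) * ∑ z' ∈ nbrs z, g z')
    (hM : ∀ z ∈ ball a (16 * ρ + 1), g z ≤ S)
    (hw : ∃ b : ℤ × ℤ, (ρ : ℤ) ≤ cp4_d a b ∧ ∃ p : grid.Walk a b, ∀ z ∈ p.support, z ∈ Z)
    (y : ℤ × ℤ) (hy : y ∈ ball a (2 * ρ)) : g y ≤ (1 - c0) * S := by
  classical
  obtain ⟨b, hb, p, hp⟩ := hw
  have hv : ∀ k : ℕ, ∃ z : ℤ × ℤ, k ≤ ρ → z ∈ Z ∧ cp4_d a z = k := by
    intro k
    by_cases hk : k ≤ ρ
    · obtain ⟨z, hz, hz'⟩ := cp4_walk (cp4_d a) (fun u v h => cp4_adj a u v h) k p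
        (by unfold cp4_d; simp) (le_trans (by exact_mod_cast hk) hb)
      exact ⟨z, fun _ => ⟨hp z hz, hz'⟩⟩
    · exact ⟨a, fun h => absurd h hk⟩
  choose v hv using hv
  set K : Finset (ℤ × ℤ) := (Finset.Icc 1 ρ).image v with hK
  have hKZ : ∀ z ∈ K, z ∈ Z ∧ cp4_d a z ≤ ρ := by
    intro z hz
    rw [hK, Finset.mem_image] at hz
    obtain ⟨k, hk, rfl⟩ := hz
    rw [Finset.mem_Icc] at hk
    obtain ⟨h1, h2⟩ := hv k hk.2
    exact ⟨h1, by rw [h2]; exact_mod_cast hk.2⟩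
  by_cases hyK : y ∈ K
  · rw [hZ y (hKZ y hyK).1]
    exact mul_nonneg (by linarith) hS
  have hKD : K ⊆ ball a (16 * ρ) := by
    intro z hz
    rw [cp4_mem_ball]
    have := (hKZ z hz).2
    omega
  have hc := hs a ρ hρ K hKD v (fun k h1 h2 => ⟨by
      rw [hK]; exact Finset.mem_image_of_mem v (Finset.mem_Icc.2 ⟨h1, h2⟩), by
      rw [cp4_mem_ball, (hv k h2).2]; omega⟩) (by
      intro k l h1 h2 h3
      have e1 := (hv k (by omega)).2
      have e2 := (hv l h3).2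
      have e3 := cp4_tri a (v k) (v l)
      have e4 : cp4_d (v k) (v l) = max |(v k).1 - (v l).1| |(v k).2 - (v l).2| := by
        rw [cp4_comm]; rfl
      rw [← e4]
      omega) y hy hyK
  have hyD : y ∈ ball a (16 * ρ) \ K := by
    rw [Finset.mem_sdiff]
    refine ⟨?_, hyK⟩
    rw [cp4_mem_ball] at hy ⊢
    omega
  have hU := hit_sub (ball a (16 * ρ)) K hKD (fun z => if z ∈ ball a (16 * ρ) then g z - S else 0)
    (fun z hz => by simp only [if_neg hz]; exact le_rfl) (by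
      intro x hx
      rw [Finset.mem_sdiff] at hx
      simp only [if_pos hx.1]
      have h1 := hsub x hx.1
      have h2 : ∑ z ∈ nbrs x, (g z - S) ≤ ∑ z ∈ nbrs x,
          (if z ∈ ball a (16 * ρ) then g z - S else 0) := by
        apply Finset.sum_le_sum
        intro z hz
        split_ifs with h
        · exact le_rfl
        · have h3 : z ∈ ball a (16 * ρ + 1) := by
            rw [cp4_mem_ball]
            have h4 := cp4_nbr x z hz
            have h5 := (cp4_mem_ball _ _ _).1 hx.1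
            have h6 := cp4_tri a x z
            omega
          have := hM z h3
          linarith
      rw [Finset.sum_sub_distrib, Finset.sum_const, cp4_card, nsmul_eq_mul] at h2
      push_cast at h2
      linarith) y hyD
  rw [Finset.mem_sdiff] at hyD
  simp only [if_pos hyD.1] at hU
  have h3 : ∑ v ∈ K, hit (ball a (16 * ρ)) K y v *
      (if v ∈ ball a (16 * ρ) then g v - S else 0) =
      -(S * ∑ v ∈ K, hit (ball a (16 * ρ)) K y v) := by
    rw [Finset.mul_sum, ← Finset.sum_neg_distrib]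
    apply Finset.sum_congr rfl
    intro z hz
    rw [if_pos (hKD hz), hZ z (hKZ z hz).1]
    ring
  rw [h3] at hU
  have h4 := mul_le_mul_of_nonneg_left hc hS
  linarith

theorem _root_.H941.beurling : ∃ C c : ℝ, 0 < C ∧ 0 < c ∧ c ≤ 1 ∧ ∀ (g : ℤ × ℤ → ℝ) (Z : Set (ℤ × ℤ)) (x0 : ℤ × ℤ) (R : ℕ) (M : ℝ),
    1 ≤ R → (∀ z, 0 ≤ g z) → (∀ z ∈ Z, g z = 0) →
    (∀ z ∈ ball x0 (32 * R), g z ≤ (1 / 4) * ∑ z' ∈ nbrs z, g z') → (∀ z ∈ ball x0 (32 * R + 1), g z ≤ M) →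
    (∀ a ∈ Z, a ∈ ball x0 (8 * R) → ∃ b : ℤ × ℤ, ((R : ℤ) ≤ |b.1 - a.1| ∨ (R : ℤ) ≤ |b.2 - a.2|) ∧
      ∃ p : grid.Walk a b, ∀ z ∈ p.support, z ∈ Z) →
    ∀ x ∈ ball x0 (4 * R), ∀ a ∈ Z, ∀ r : ℕ, 1 ≤ r → r ≤ R → |x.1 - a.1| ≤ r → |x.2 - a.2| ≤ r →
      g x ≤ C * ((r : ℝ) / R) ^ c * M := by
  obtain ⟨c0, hc0, hc1, hs⟩ := hit_scale
  have hl17 : 0 < Real.log 17 := Real.log_pos (by norm_num)
  have h1c : 0 < 1 - c0 := by linarith
  have hlc : Real.log (1 - c0) < 0 := Real.log_neg h1c (by linarith)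
  refine ⟨1, -Real.log (1 - c0) / Real.log 17, one_pos, div_pos (by linarith) hl17, ?_, ?_⟩
  · rw [div_le_one hl17]
    have h1 : Real.log (1 / 2) ≤ Real.log (1 - c0) := Real.log_le_log (by norm_num) (by linarith)
    have h2 : Real.log (1 / 2) = - Real.log 2 := by
      rw [one_div, Real.log_inv]
    have h3 : Real.log 2 ≤ Real.log 17 := Real.log_le_log (by norm_num) (by norm_num)
    linarith
  set c := -Real.log (1 - c0) / Real.log 17 with hcdef
  have hcpos : 0 < c := div_pos (by linarith) hl17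
  have h17 : (17 : ℝ) ^ (-c) = 1 - c0 := by
    rw [Real.rpow_def_of_pos (by norm_num), hcdef]
    have : Real.log 17 * -(-Real.log (1 - c0) / Real.log 17) = Real.log (1 - c0) := by
      field_simp
    rw [this, Real.exp_log h1c]
  intro g Z x0 R M hR hg hZ hsub hM hw x hx a ha r hr hrR hx1 hx2
  have hxa : cp4_d a x ≤ r := max_le hx1 hx2
  have hxx : cp4_d x0 x ≤ 4 * R := (cp4_mem_ball _ _ _).1 hx
  have hax : cp4_d x0 a ≤ 5 * R := by
    have h1 := cp4_tri x0 x a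
    have h2 := cp4_comm a x
    have h3 : (r : ℤ) ≤ R := by exact_mod_cast hrR
    omega
  have hM0 : 0 ≤ M := (hg x).trans (hM x ((cp4_mem_ball _ _ _).2 (by omega)))
  obtain ⟨b, hb, p, hp⟩ := hw a ha ((cp4_mem_ball _ _ _).2 (by omega))
  have hb' : (R : ℤ) ≤ cp4_d a b := le_max_iff.2 hb
  have key : ∀ m ρ : ℕ, 1 ≤ ρ → 17 ^ m * ρ ≤ 17 * R → ∀ y ∈ ball a ρ, g y ≤ (1 - c0) ^ m * M := by
    intro m
    induction m with
    | zero =>
      intro ρ h1 h2 y hy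
      rw [pow_zero, one_mul]
      apply hM
      rw [cp4_mem_ball] at hy ⊢
      have h3 := cp4_tri x0 a y
      have h4 : (ρ : ℤ) ≤ 17 * R := by
        rw [pow_zero, one_mul] at h2
        exact_mod_cast h2
      omega
    | succ m ih =>
      intro ρ h1 h2 y hy
      have h3 : ρ ≤ R := by
        have : 1 ≤ 17 ^ m := Nat.one_le_pow _ _ (by norm_num)
        have h4 : 17 * ρ ≤ 17 ^ (m + 1) * ρ := by
          rw [pow_succ]
          nlinarith
        omega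
      have h3' : (ρ : ℤ) ≤ R := by exact_mod_cast h3
      have h1' : (1 : ℤ) ≤ ρ := by exact_mod_cast h1
      rw [pow_succ, mul_comm ((1 - c0) ^ m), mul_assoc]
      refine cp4_step c0 hc1 hs g Z a ρ h1 ((1 - c0) ^ m * M)
        (mul_nonneg (pow_nonneg h1c.le _) hM0) hZ ?_ ?_ ⟨b, h3'.trans hb', p, hp⟩ y ?_
      · intro z hz
        apply hsub
        rw [cp4_mem_ball] at hz ⊢
        have := cp4_tri x0 a z
        omega
      · intro z hz
        apply ih (17 * ρ) (by omega) (by rw [← mul_assoc, ← pow_succ]; exact h2)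
        rw [cp4_mem_ball] at hz ⊢
        push_cast
        omega
      · rw [cp4_mem_ball] at hy ⊢
        omega
  have hr0 : (0 : ℝ) < r := by exact_mod_cast hr
  have hR0 : (0 : ℝ) < R := by exact_mod_cast hR
  -- choose m
  obtain ⟨m, hm1, hm2⟩ : ∃ m : ℕ, 17 ^ m * r ≤ 17 * R ∧ R ≤ 17 ^ m * r := by
    refine ⟨Nat.log 17 (R / r) + 1, ?_, ?_⟩
    · have h1 : R / r ≠ 0 := by
        rw [Nat.div_ne_zero_iff]
        omega
      have h2 := Nat.pow_log_le_self 17 h1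
      have h3 : 17 ^ Nat.log 17 (R / r) * r ≤ R := (Nat.le_div_iff_mul_le (by omega)).1 h2
      rw [pow_succ]
      nlinarith
    · have h2 := Nat.lt_pow_succ_log_self (b := 17) (by norm_num) (R / r)
      have h3 := (Nat.div_lt_iff_lt_mul (by omega)).1 h2
      exact h3.le
  have hfin := key m r hr hm1 x ((cp4_mem_ball _ _ _).2 hxa)
  refine hfin.trans ?_
  rw [one_mul]
  apply mul_le_mul_of_nonneg_right _ hM0
  have e1 : (1 - c0) ^ m = ((17 : ℝ) ^ m)⁻¹ ^ c := by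
    rw [← h17, ← Real.rpow_natCast, ← Real.rpow_natCast, ← Real.rpow_mul (by norm_num),
      ← Real.rpow_neg (by norm_num), ← Real.rpow_mul (by norm_num)]
    congr 1
    ring
  rw [e1]
  apply Real.rpow_le_rpow (by positivity) _ hcpos.le
  have h17m : (0 : ℝ) < 17 ^ m := by positivity
  rw [inv_le_iff_one_le_mul₀ h17m, div_mul_eq_mul_div, one_le_div hR0]
  have : (R : ℝ) ≤ 17 ^ m * r := by exact_mod_cast hm2
  linarith

end H941.beurling
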