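import Pool.Agent.H941.Defs4
import Pool.Agent.H941.C.caccioppoli

open MeasureTheory ProbabilityTheory

namespace H941.trunc_energy

theorem te_nbrs_symm {x y : ℤ × ℤ} : y ∈ nbrs x ↔ x ∈ nbrs y := by
  obtain ⟨x1, x2⟩ := x
  obtain ⟨y1, y2⟩ := y
  simp only [nbrs, Finset.mem_insert, Finset.mem_singleton, Prod.mk.injEq]
  constructor <;> (rintro (h | h | h | h) <;> omega)

theorem te_mem_ball {x0 z : ℤ × ℤ} {r : ℤ} :
    z ∈ ball x0 r ↔ max |z.1 - x0.1| |z.2 - x0.2| ≤ r := by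
  simp only [ball, rect, Finset.mem_product, Finset.mem_Icc, max_le_iff, abs_le]
  constructor
  · rintro ⟨⟨h1, h2⟩, h3, h4⟩
    refine ⟨⟨by linarith, by linarith⟩, by linarith, by linarith⟩
  · rintro ⟨⟨h1, h2⟩, h3, h4⟩
    refine ⟨⟨by linarith, by linarith⟩, by linarith, by linarith⟩

theorem te_dist {x0 x y : ℤ × ℤ} (h : y ∈ nbrs x) :
    max |y.1 - x0.1| |y.2 - x0.2| ≤ max |x.1 - x0.1| |x.2 - x0.2| + 1 := by
  obtain ⟨x1, x2⟩ := x
  obtain ⟨y1, y2⟩ := y
  simp only [nbrs, Finset.mem_insert, Finset.mem_singleton, Prod.mk.injEq] at h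
  simp only [max_le_iff]
  have h1 := le_max_left |x1 - x0.1| |x2 - x0.2|
  have h2 := le_max_right |x1 - x0.1| |x2 - x0.2|
  rw [abs_le] at h1 h2
  rw [abs_le, abs_le]
  rcases h with h | h | h | h <;> obtain ⟨rfl, rfl⟩ := h <;>
    exact ⟨⟨by linarith [h1.1], by linarith [h1.2]⟩, by linarith [h2.1], by linarith [h2.2]⟩

/-- the cut-off function -/
noncomputable def tetchi (x0 : ℤ × ℤ) (n : ℕ) (z : ℤ × ℤ) : ℝ :=
  max 0 (min 1 (((2 * n + 1 - max |z.1 - x0.1| |z.2 - x0.2| : ℤ) : ℝ) / n))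

theorem tetchi_nonneg (x0 : ℤ × ℤ) (n : ℕ) (z : ℤ × ℤ) : 0 ≤ tetchi x0 n z := le_max_left _ _

theorem tetchi_le_one (x0 : ℤ × ℤ) (n : ℕ) (z : ℤ × ℤ) : tetchi x0 n z ≤ 1 :=
  max_le zero_le_one (min_le_left _ _)

theorem tetchi_one {x0 : ℤ × ℤ} {n : ℕ} (hn : 1 ≤ n) {z : ℤ × ℤ} (h : z ∈ ball x0 (n + 1)) :
    tetchi x0 n z = 1 := by
  rw [te_mem_ball] at h
  have hn' : (0 : ℝ) < n := by exact_mod_cast hn
  have h1 : (n : ℝ) ≤ ((2 * n + 1 - max |z.1 - x0.1| |z.2 - x0.2| : ℤ) : ℝ) := by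
    have : (n : ℤ) ≤ 2 * n + 1 - max |z.1 - x0.1| |z.2 - x0.2| := by linarith
    exact_mod_cast this
  unfold tetchi
  rw [min_eq_left ((one_le_div hn').2 h1), max_eq_right zero_le_one]

theorem tetchi_zero {x0 : ℤ × ℤ} {n : ℕ} {z : ℤ × ℤ} (h : z ∉ ball x0 (2 * n)) :
    tetchi x0 n z = 0 := by
  rw [te_mem_ball, not_le] at h
  have h1 : ((2 * n + 1 - max |z.1 - x0.1| |z.2 - x0.2| : ℤ) : ℝ) ≤ 0 := by
    have : 2 * (n : ℤ) + 1 - max |z.1 - x0.1| |z.2 - x0.2| ≤ 0 := by
      have := Int.add_one_le_iff.2 h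
      linarith
    exact_mod_cast this
  unfold tetchi
  refine max_eq_left ((min_le_right _ _).trans ?_)
  exact div_nonpos_of_nonpos_of_nonneg h1 (Nat.cast_nonneg _)

theorem tetchi_lip' {x0 : ℤ × ℤ} {n : ℕ} (hn : 1 ≤ n) {x y : ℤ × ℤ} (h : y ∈ nbrs x) :
    tetchi x0 n x ≤ tetchi x0 n y + 1 / n := by
  have hn' : (0 : ℝ) < n := by exact_mod_cast hn
  have h1 := te_dist (x0 := x0) h
  have h2 : ((2 * n + 1 - max |x.1 - x0.1| |x.2 - x0.2| : ℤ) : ℝ) / n
      ≤ ((2 * n + 1 - max |y.1 - x0.1| |y.2 - x0.2| : ℤ) : ℝ) / n + 1 / n := by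
    rw [← add_div]
    refine div_le_div_of_nonneg_right ?_ hn'.le
    have : 2 * (n : ℤ) + 1 - max |x.1 - x0.1| |x.2 - x0.2|
        ≤ 2 * n + 1 - max |y.1 - x0.1| |y.2 - x0.2| + 1 := by linarith
    exact_mod_cast this
  have h3 : (0 : ℝ) < 1 / n := by positivity
  unfold tetchi
  set a := ((2 * n + 1 - max |x.1 - x0.1| |x.2 - x0.2| : ℤ) : ℝ) / n
  set b := ((2 * n + 1 - max |y.1 - x0.1| |y.2 - x0.2| : ℤ) : ℝ) / n
  refine max_le (add_nonneg (le_max_left _ _) h3.le) ?_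
  have h4 : min 1 a ≤ min 1 b + 1 / n := by
    rcases le_total 1 b with h | h
    · rw [min_eq_left h]
      exact (min_le_left _ _).trans (by linarith)
    · rw [min_eq_right h]
      exact (min_le_right _ _).trans h2
  exact h4.trans (add_le_add (le_max_right _ _) le_rfl)

theorem tetchi_lip {x0 : ℤ × ℤ} {n : ℕ} (hn : 1 ≤ n) {x y : ℤ × ℤ} (h : y ∈ nbrs x) :
    |tetchi x0 n x - tetchi x0 n y| ≤ 1 / n := by
  have h1 := tetchi_lip' (x0 := x0) hn h
  have h2 := tetchi_lip' (x0 := x0) hn (te_nbrs_symm.1 h)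
  rw [abs_le]
  constructor <;> linarith

theorem te_trunc (a b h : ℝ) :
    (min a h - min b h) ^ 2 ≤ (a - b) * (min a h - min b h) := by
  rcases le_total a b with hab | hab
  · have h1 : min a h ≤ min b h := min_le_min_right _ hab
    have h2 : min b h - min a h ≤ b - a := by
      rcases le_total a h with h3 | h3
      · rw [min_eq_left h3]
        exact sub_le_sub_right (min_le_left _ _) _
      · rw [min_eq_right h3, min_eq_right (h3.trans hab)]
        linarith
    nlinarith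
  · have h1 : min b h ≤ min a h := min_le_min_right _ hab
    have h2 : min a h - min b h ≤ a - b := by
      rcases le_total b h with h3 | h3
      · rw [min_eq_left h3]
        exact sub_le_sub_right (min_le_left _ _) _
      · rw [min_eq_right h3, min_eq_right (h3.trans hab)]
        linarith
    nlinarith

/-- the sum over the ordered pairs of neighbours in `V` -/
noncomputable def teSS (V : Finset (ℤ × ℤ)) (F : ℤ × ℤ → ℤ × ℤ → ℝ) : ℝ :=
  ∑ x ∈ V, ∑ y ∈ V, if y ∈ nbrs x then F x y else 0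

theorem teSS_swap (V : Finset (ℤ × ℤ)) (F : ℤ × ℤ → ℤ × ℤ → ℝ) :
    teSS V F = teSS V (fun x y => F y x) := by
  unfold teSS
  rw [Finset.sum_comm]
  refine Finset.sum_congr rfl fun x _ => Finset.sum_congr rfl fun y _ => ?_
  simp only [te_nbrs_symm (x := x) (y := y)]

theorem teSS_add (V : Finset (ℤ × ℤ)) (F G : ℤ × ℤ → ℤ × ℤ → ℝ) :
    teSS V (fun x y => F x y + G x y) = teSS V F + teSS V G := by
  unfold teSS
  simp only [← Finset.sum_add_distrib]
  refine Finset.sum_congr rfl fun x _ => Finset.sum_congr rfl fun y _ => ?_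
  split_ifs <;> simp

theorem teSS_mul (V : Finset (ℤ × ℤ)) (c : ℝ) (F : ℤ × ℤ → ℤ × ℤ → ℝ) :
    teSS V (fun x y => c * F x y) = c * teSS V F := by
  unfold teSS
  simp only [Finset.mul_sum]
  refine Finset.sum_congr rfl fun x _ => Finset.sum_congr rfl fun y _ => ?_
  split_ifs <;> simp

theorem teSS_mono (V : Finset (ℤ × ℤ)) {F G : ℤ × ℤ → ℤ × ℤ → ℝ}
    (h : ∀ x y, y ∈ nbrs x → F x y ≤ G x y) : teSS V F ≤ teSS V G := by
  unfold teSS
  refine Finset.sum_le_sum fun x _ => Finset.sum_le_sum fun y _ => ?_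
  split_ifs with h1
  · exact h x y h1
  · exact le_rfl

theorem teSS_inner {V : Finset (ℤ × ℤ)} {x : ℤ × ℤ} (h : nbrs x ⊆ V) (f : ℤ × ℤ → ℝ) :
    (∑ y ∈ V, if y ∈ nbrs x then f y else 0) = ∑ y ∈ nbrs x, f y := by
  rw [← Finset.sum_filter]
  refine Finset.sum_congr ?_ fun _ _ => rfl
  ext y
  simp only [Finset.mem_filter]
  exact ⟨fun h => h.2, fun h1 => ⟨h h1, h1⟩⟩

theorem te_sub {x0 x : ℤ × ℤ} {r : ℤ} (h : x ∈ ball x0 r) : nbrs x ⊆ ball x0 (r + 1) := by
  intro y hy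
  rw [te_mem_ball] at h ⊢
  exact (te_dist hy).trans (by linarith)

theorem te_mono {x0 : ℤ × ℤ} {r s : ℤ} (h : r ≤ s) : ball x0 r ⊆ ball x0 s := by
  intro y hy
  rw [te_mem_ball] at hy ⊢
  exact hy.trans h

theorem te_card (x : ℤ × ℤ) : (nbrs x).card = 4 := by
  obtain ⟨a, b⟩ := x
  unfold nbrs
  rw [Finset.card_insert_of_notMem, Finset.card_insert_of_notMem, Finset.card_insert_of_notMem,
    Finset.card_singleton]
  all_goals
    simp only [Finset.mem_insert, Finset.mem_singleton, Prod.mk.injEq]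
    omega

theorem te_cardb (x0 : ℤ × ℤ) (r : ℕ) : ((ball x0 r).card : ℝ) = (2 * r + 1) ^ 2 := by
  unfold ball rect
  rw [Finset.card_product, Int.card_Icc, Int.card_Icc]
  have h1 : (x0.1 + (r : ℤ) + 1 - (x0.1 - r)).toNat = 2 * r + 1 := by omega
  have h2 : (x0.2 + (r : ℤ) + 1 - (x0.2 - r)).toNat = 2 * r + 1 := by omega
  rw [h1, h2]
  push_cast
  ring

theorem te_parts {V B : Finset (ℤ × ℤ)} (hB : ∀ x ∈ B, nbrs x ⊆ V) (g φ : ℤ × ℤ → ℝ)
    (h0 : ∀ x, x ∉ B → φ x = 0) (h1 : ∀ x ∈ B, φ x * ∑ y ∈ nbrs x, (g x - g y) = 0) :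
    teSS V (fun x y => (g x - g y) * (φ x - φ y)) = 0 := by
  have h2 : teSS V (fun x y => φ x * (g x - g y)) = 0 := by
    unfold teSS
    refine Finset.sum_eq_zero fun x _ => ?_
    by_cases hx : x ∈ B
    · rw [teSS_inner (hB x hx), ← Finset.mul_sum]
      exact h1 x hx
    · refine Finset.sum_eq_zero fun y _ => ?_
      simp only [h0 x hx, zero_mul, ite_self]
  have h3 : teSS V (fun x y => (g x - g y) * (φ x - φ y))
      = teSS V (fun x y => φ x * (g x - g y)) + teSS V (fun x y => φ y * (g y - g x)) := by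
    rw [← teSS_add]
    congr 1
    funext x y
    ring
  rw [h3, ← teSS_swap V (fun x y => φ x * (g x - g y)), h2, add_zero]

theorem _root_.H941.trunc_energy : ∃ C : ℝ, 0 < C ∧ ∀ (g : ℤ × ℤ → ℝ) (Z : Set (ℤ × ℤ)) (x0 : ℤ × ℤ) (n : ℕ) (M h : ℝ),
    1 ≤ n → 0 ≤ h → (∀ z, 0 ≤ g z) → (∀ z ∈ Z, g z = 0) →
    (∀ z ∈ ball x0 (4 * n), z ∉ Z → g z = (1 / 4) * ∑ z' ∈ nbrs z, g z') → (∀ z ∈ ball x0 (4 * n + 1), g z ≤ M) →
    ∑ x ∈ ball x0 n, ∑ y ∈ nbrs x, (min (g x) h - min (g y) h) ^ 2 ≤ C * h * M := by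
  classical
  obtain ⟨C₀, hC₀, hcac⟩ := caccioppoli
  refine ⟨40 * Real.sqrt C₀, by positivity, ?_⟩
  intro g Z x0 n M h hn hh hg hZ hharm hM
  have hn' : (0 : ℝ) < n := by exact_mod_cast hn
  have hM0 : 0 ≤ M := (hg x0).trans (hM x0 (te_mem_ball.2 (by
    rw [sub_self, sub_self, abs_zero, max_self]
    positivity)))
  set T : ℤ × ℤ → ℝ := fun z => min (g z) h with hT
  set χ : ℤ × ℤ → ℝ := tetchi x0 n with hχ
  set V := ball x0 (2 * n + 1) with hV
  set B := ball x0 (2 * n) with hB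
  have hT0 : ∀ z, 0 ≤ T z := fun z => le_min (hg z) hh
  have hTh : ∀ z, T z ≤ h := fun z => min_le_right _ _
  have hsub : ∀ x ∈ B, nbrs x ⊆ V := fun x hx => te_sub hx
  -- summation by parts
  have hzero : teSS V (fun x y => (g x - g y) * (χ x ^ 2 * T x - χ y ^ 2 * T y)) = 0 := by
    refine te_parts hsub g (fun x => χ x ^ 2 * T x) (fun x hx => ?_) fun x hx => ?_
    · rw [hχ]
      simp only [tetchi_zero hx]
      ring
    · by_cases hxZ : x ∈ Z
      · have : T x = 0 := by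
          rw [hT]
          simp only [hZ x hxZ]
          exact min_eq_left hh
        simp only [this]
        ring
      · have h1 := hharm x (te_mono (by linarith) hx) hxZ
        have h2 : ∑ y ∈ nbrs x, (g x - g y) = 0 := by
          rw [Finset.sum_sub_distrib, Finset.sum_const, te_card]
          simp only [nsmul_eq_mul]
          push_cast
          linarith
        rw [h2, mul_zero]
  -- the pointwise inequality
  have hpt : ∀ x y, y ∈ nbrs x → (χ x ^ 2 + χ y ^ 2) / 2 * (T x - T y) ^ 2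
      ≤ (g x - g y) * (χ x ^ 2 * T x - χ y ^ 2 * T y)
        + 2 * h / n * (|g x - g y| * ((if x ∈ B then 1 else 0) + (if y ∈ B then 1 else 0))) := by
    intro x y hxy
    have e1 := te_trunc (g x) (g y) h
    have e2 : (0 : ℝ) ≤ (χ x ^ 2 + χ y ^ 2) / 2 := by positivity
    have e3 : (χ x ^ 2 + χ y ^ 2) / 2 * (T x - T y) ^ 2
        ≤ (χ x ^ 2 + χ y ^ 2) / 2 * ((g x - g y) * (T x - T y)) := mul_le_mul_of_nonneg_left e1 e2
    have e4 : (g x - g y) * (χ x ^ 2 * T x - χ y ^ 2 * T y)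
        = (χ x ^ 2 + χ y ^ 2) / 2 * ((g x - g y) * (T x - T y))
          + (χ x ^ 2 - χ y ^ 2) / 2 * ((g x - g y) * (T x + T y)) := by ring
    have e5 : |(χ x ^ 2 - χ y ^ 2) / 2 * ((g x - g y) * (T x + T y))|
        ≤ 2 * h / n * (|g x - g y| * ((if x ∈ B then 1 else 0) + (if y ∈ B then 1 else 0))) := by
      by_cases hb : x ∈ B ∨ y ∈ B
      · have f1 : |χ x ^ 2 - χ y ^ 2| ≤ 2 * (1 / n) := by
          have : χ x ^ 2 - χ y ^ 2 = (χ x + χ y) * (χ x - χ y) := by ring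
          rw [this, abs_mul]
          refine mul_le_mul ?_ (tetchi_lip hn hxy) (abs_nonneg _) (by norm_num)
          rw [abs_of_nonneg (add_nonneg (tetchi_nonneg _ _ _) (tetchi_nonneg _ _ _))]
          linarith [tetchi_le_one x0 n x, tetchi_le_one x0 n y]
        have f2 : |T x + T y| ≤ 2 * h := by
          rw [abs_of_nonneg (add_nonneg (hT0 x) (hT0 y))]
          linarith [hTh x, hTh y]
        have f3 : (1 : ℝ) ≤ (if x ∈ B then 1 else 0) + (if y ∈ B then 1 else 0) := by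
          rcases hb with hb | hb
          · rw [if_pos hb]
            have : (0 : ℝ) ≤ (if y ∈ B then 1 else 0) := by split_ifs <;> norm_num
            linarith
          · rw [if_pos hb]
            have : (0 : ℝ) ≤ (if x ∈ B then 1 else 0) := by split_ifs <;> norm_num
            linarith
        rw [abs_mul, abs_mul, abs_div, abs_two]
        calc |χ x ^ 2 - χ y ^ 2| / 2 * (|g x - g y| * |T x + T y|)
            ≤ (2 * (1 / n)) / 2 * (|g x - g y| * (2 * h)) := by gcongr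
          _ = 2 * h / n * (|g x - g y| * 1) := by ring
          _ ≤ _ := by gcongr
      · rw [not_or] at hb
        have g1 : χ x = 0 := tetchi_zero hb.1
        have g2 : χ y = 0 := tetchi_zero hb.2
        rw [g1, g2, if_neg hb.1, if_neg hb.2]
        norm_num
    have e6 := neg_abs_le ((χ x ^ 2 - χ y ^ 2) / 2 * ((g x - g y) * (T x + T y)))
    linarith
  have hS := teSS_mono V hpt
  rw [teSS_add, hzero, zero_add, teSS_mul] at hS
  -- the right hand side
  have hind : teSS V (fun x y => |g x - g y| * (if x ∈ B then (1 : ℝ) else 0))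
      = ∑ x ∈ B, ∑ y ∈ nbrs x, |g x - g y| := by
    unfold teSS
    rw [← Finset.sum_subset (te_mono (x0 := x0) (show (2 * (n : ℤ)) ≤ 2 * n + 1 by linarith))]
    · refine Finset.sum_congr rfl fun x hx => ?_
      rw [teSS_inner (hsub x hx)]
      refine Finset.sum_congr rfl fun y _ => ?_
      simp only [if_pos hx, mul_one]
    · intro x _ hx
      refine Finset.sum_eq_zero fun y _ => ?_
      have hx' : x ∉ B := hx
      simp only [if_neg hx', mul_zero, ite_self]
  have hrhs : teSS V (fun x y => |g x - g y| * ((if x ∈ B then (1 : ℝ) else 0) + (if y ∈ B then 1 else 0)))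
      = 2 * ∑ x ∈ B, ∑ y ∈ nbrs x, |g x - g y| := by
    have h1 : (fun x y : ℤ × ℤ => |g x - g y| * ((if x ∈ B then (1 : ℝ) else 0) + (if y ∈ B then 1 else 0)))
        = fun x y => |g x - g y| * (if x ∈ B then (1 : ℝ) else 0)
          + |g y - g x| * (if y ∈ B then (1 : ℝ) else 0) := by
      funext x y
      rw [abs_sub_comm (g y) (g x)]
      ring
    rw [h1, teSS_add, ← teSS_swap V (fun x y => |g x - g y| * (if x ∈ B then (1 : ℝ) else 0)), hind]
    ring
  rw [hrhs] at hS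
  -- Cauchy-Schwarz
  have hcs : ∑ x ∈ B, ∑ y ∈ nbrs x, |g x - g y| ≤ 10 * n * Real.sqrt C₀ * M := by
    have h1 : (∑ x ∈ B, ∑ y ∈ nbrs x, |g x - g y|) ^ 2
        ≤ (10 * n * Real.sqrt C₀ * M) ^ 2 := by
      have k1 : (∑ x ∈ B, ∑ y ∈ nbrs x, |g x - g y|) ^ 2
          ≤ B.card * ∑ x ∈ B, (∑ y ∈ nbrs x, |g x - g y|) ^ 2 := sq_sum_le_card_mul_sum_sq
      have k2 : ∀ x, (∑ y ∈ nbrs x, |g x - g y|) ^ 2 ≤ 4 * en g x := by
        intro x
        have := sq_sum_le_card_mul_sum_sq (s := nbrs x) (f := fun y => |g x - g y|)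
        rw [te_card] at this
        simp only [sq_abs] at this
        exact_mod_cast this
      have k3 : ∑ x ∈ B, (∑ y ∈ nbrs x, |g x - g y|) ^ 2 ≤ 4 * ∑ x ∈ B, en g x := by
        rw [Finset.mul_sum]
        exact Finset.sum_le_sum fun x _ => k2 x
      have k4 : ∑ x ∈ B, en g x ≤ C₀ * M ^ 2 := by
        have := hcac g x0 (2 * n) M (by omega) hg ?_ ?_
        · have e : ((2 * n : ℕ) : ℤ) = 2 * (n : ℤ) := by push_cast; ring
          rw [e] at this
          exact this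
        · intro z hz
          have e : (2 * ((2 * n : ℕ) : ℤ)) = 4 * (n : ℤ) := by push_cast; ring
          rw [e] at hz
          by_cases hzZ : z ∈ Z
          · rw [hZ z hzZ]
            exact mul_nonneg (by norm_num) (Finset.sum_nonneg fun y _ => hg y)
          · exact (hharm z hz hzZ).le
        · intro z hz
          have e : (2 * ((2 * n : ℕ) : ℤ) + 1) = 4 * (n : ℤ) + 1 := by push_cast; ring
          rw [e] at hz
          exact hM z hz
      have k5 : (B.card : ℝ) ≤ 25 * n ^ 2 := by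
        have := te_cardb x0 (2 * n)
        have e : ((2 * n : ℕ) : ℤ) = 2 * (n : ℤ) := by push_cast; ring
        rw [e] at this
        rw [hB, this]
        push_cast
        have hn1 : (1 : ℝ) ≤ n := by exact_mod_cast hn
        nlinarith
      have k6 : 0 ≤ ∑ x ∈ B, en g x :=
        Finset.sum_nonneg fun x _ => Finset.sum_nonneg fun y _ => sq_nonneg _
      calc (∑ x ∈ B, ∑ y ∈ nbrs x, |g x - g y|) ^ 2
          ≤ B.card * ∑ x ∈ B, (∑ y ∈ nbrs x, |g x - g y|) ^ 2 := k1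
        _ ≤ (25 * n ^ 2) * (4 * (C₀ * M ^ 2)) := by
            refine mul_le_mul k5 (k3.trans (mul_le_mul_of_nonneg_left k4 (by norm_num))) ?_
              (by positivity)
            exact Finset.sum_nonneg fun x _ => sq_nonneg _
        _ = (10 * n * Real.sqrt C₀ * M) ^ 2 := by
            rw [mul_pow, mul_pow, mul_pow, Real.sq_sqrt hC₀.le]
            ring
    exact le_of_sq_le_sq h1 (by positivity)
  -- the left hand side
  have hlhs : ∑ x ∈ ball x0 n, ∑ y ∈ nbrs x, (min (g x) h - min (g y) h) ^ 2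
      ≤ teSS V (fun x y => (χ x ^ 2 + χ y ^ 2) / 2 * (T x - T y) ^ 2) := by
    unfold teSS
    have hsubn : ball x0 (n : ℤ) ⊆ V := te_mono (by linarith)
    refine le_trans (le_of_eq ?_) (Finset.sum_le_sum_of_subset_of_nonneg hsubn ?_)
    · refine Finset.sum_congr rfl fun x hx => ?_
      have hx1 : x ∈ B := te_mono (by linarith) hx
      rw [teSS_inner (hsub x hx1)]
      refine Finset.sum_congr rfl fun y hy => ?_
      have hχx : χ x = 1 := tetchi_one hn (te_mono (by linarith) hx)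
      have hχy : χ y = 1 := tetchi_one hn (te_sub hx hy)
      simp only [hχx, hχy, hT]
      norm_num
    · intro x _ _
      refine Finset.sum_nonneg fun y _ => ?_
      split_ifs
      · positivity
      · exact le_rfl
  calc ∑ x ∈ ball x0 n, ∑ y ∈ nbrs x, (min (g x) h - min (g y) h) ^ 2
      ≤ teSS V (fun x y => (χ x ^ 2 + χ y ^ 2) / 2 * (T x - T y) ^ 2) := hlhs
    _ ≤ 2 * h / n * (2 * ∑ x ∈ B, ∑ y ∈ nbrs x, |g x - g y|) := hS
    _ ≤ 2 * h / n * (2 * (10 * n * Real.sqrt C₀ * M)) := by gcongr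
    _ = 40 * Real.sqrt C₀ * h * M := by
        field_simp
        ring

end H941.trunc_energy
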