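import Pool.Agent.H941.Defs4
import Pool.Agent.H941.A3

open MeasureTheory ProbabilityTheory

namespace H941.contour_ineq

theorem nbrs_symm {u v : ℤ × ℤ} (h : v ∈ nbrs u) : u ∈ nbrs v := by
  obtain ⟨u1, u2⟩ := u
  obtain ⟨v1, v2⟩ := v
  simp only [nbrs, Finset.mem_insert, Finset.mem_singleton, Prod.mk.injEq] at h ⊢
  omega

theorem nbrs_card (u : ℤ × ℤ) : (nbrs u).card = 4 := by
  obtain ⟨u1, u2⟩ := u
  unfold nbrs
  rw [Finset.card_insert_of_notMem, Finset.card_insert_of_notMem, Finset.card_insert_of_notMem,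
    Finset.card_singleton]
  all_goals
    simp only [Finset.mem_insert, Finset.mem_singleton, Prod.mk.injEq]
    omega

theorem swap (S T : Finset (ℤ × ℤ)) (h : ℤ × ℤ → ℤ × ℤ → ℝ) :
    ∑ v ∈ S, ∑ u ∈ nbrs v ∩ T, h u v = ∑ u ∈ T, ∑ v ∈ nbrs u ∩ S, h u v := by
  apply Finset.sum_comm'
  intro x y
  simp only [Finset.mem_inter]
  constructor
  · rintro ⟨h1, h2, h3⟩
    exact ⟨⟨nbrs_symm h2, h1⟩, h3⟩
  · rintro ⟨⟨h1, h2⟩, h3⟩
    exact ⟨h2, nbrs_symm h1, h3⟩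

theorem sum_nb_ite (u : ℤ × ℤ) (K : Finset (ℤ × ℤ)) (f : ℤ × ℤ → ℝ) :
    ∑ v ∈ K, (∑ w ∈ nbrs v, if u = w then (1 : ℝ) else 0) * f v
      = ∑ z ∈ nbrs u, if z ∈ K then f z else 0 := by
  have h1 : ∀ v, (∑ w ∈ nbrs v, if u = w then (1 : ℝ) else 0) = if v ∈ nbrs u then 1 else 0 := by
    intro v
    rw [Finset.sum_ite_eq]
    by_cases h : v ∈ nbrs u
    · rw [if_pos h, if_pos (nbrs_symm h)]
    · rw [if_neg h, if_neg (fun h2 => h (nbrs_symm h2))]
  simp only [h1]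
  have h2 : ∀ v ∈ K, (if v ∈ nbrs u then (1 : ℝ) else 0) * f v = if v ∈ nbrs u then f v else 0 := by
    intro v _
    split_ifs <;> simp
  rw [Finset.sum_congr rfl h2, ← Finset.sum_filter, ← Finset.sum_filter]
  apply Finset.sum_congr _ (fun _ _ => rfl)
  ext z
  simp only [Finset.mem_filter]
  tauto

theorem hx_out (D K : Finset (ℤ × ℤ)) (f : ℤ × ℤ → ℝ) {z : ℤ × ℤ} (hz : z ∉ D \ K) :
    ∑ v ∈ K, hit D K z v * f v = 0 := by
  apply Finset.sum_eq_zero
  intro v _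
  have : hit D K z v = 0 := by
    unfold hit
    rw [Finset.sum_eq_zero, mul_zero]
    intro u _
    exact (green_basic (D \ K)).2.1 z u (Or.inl hz)
  rw [this, zero_mul]

theorem hx_harm (D K : Finset (ℤ × ℤ)) (f : ℤ × ℤ → ℝ) {u : ℤ × ℤ} (hu : u ∈ D \ K) :
    hx D K f u = (1 / 4) * ∑ z ∈ nbrs u, hx D K f z := by
  classical
  have huK : u ∉ K := (Finset.mem_sdiff.1 hu).2
  have hhit : ∀ v, hit D K u v = (1 / 4) * (∑ w ∈ nbrs v, if u = w then (1 : ℝ) else 0)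
      + (1 / 4) * ∑ z ∈ nbrs u, hit D K z v := by
    intro v
    unfold hit
    have h1 : ∀ w ∈ nbrs v, green (D \ K) u w = (if u = w then (1 : ℝ) else 0) +
        (1 / 4) * ∑ z ∈ nbrs u, green (D \ K) z w := fun w _ =>
      (green_basic (D \ K)).2.2.2.2.1 u hu w
    rw [Finset.sum_congr rfl h1, Finset.sum_add_distrib, mul_add]
    congr 1
    congr 1
    rw [← Finset.mul_sum, ← Finset.mul_sum, Finset.sum_comm]
  have hz : ∀ z, hx D K f z = (if z ∈ K then f z else 0) + ∑ v ∈ K, hit D K z v * f v := by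
    intro z
    unfold hx
    by_cases h : z ∈ K
    · rw [if_pos h, if_pos h, hx_out D K f (fun h2 => (Finset.mem_sdiff.1 h2).2 h), add_zero]
    · rw [if_neg h, if_neg h, zero_add]
  have h2 : hx D K f u = ∑ v ∈ K, hit D K u v * f v := by
    rw [hz u, if_neg huK, zero_add]
  rw [h2]
  have h3 : ∀ v ∈ K, hit D K u v * f v =
      (1 / 4) * ((∑ w ∈ nbrs v, if u = w then (1 : ℝ) else 0) * f v)
      + (1 / 4) * ∑ z ∈ nbrs u, hit D K z v * f v := by
    intro v _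
    rw [hhit v, add_mul, ← Finset.sum_mul]
    ring
  rw [Finset.sum_congr rfl h3, Finset.sum_add_distrib, ← Finset.mul_sum, ← Finset.mul_sum,
    sum_nb_ite, Finset.sum_comm, ← mul_add, ← Finset.sum_add_distrib]
  congr 1
  exact Finset.sum_congr rfl fun z _ => (hz z).symm

theorem gp_out (E Q : Finset (ℤ × ℤ)) (ρ : ℤ × ℤ → ℝ) {x : ℤ × ℤ} (hx : x ∉ E) :
    gp E Q ρ x = 0 := by
  unfold gp
  apply Finset.sum_eq_zero
  intro z _
  rw [(green_basic E).2.1 z x (Or.inr hx), mul_zero]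

theorem gp_nonneg (E Q : Finset (ℤ × ℤ)) (ρ : ℤ × ℤ → ℝ) (hρ : ∀ z, 0 ≤ ρ z) (x : ℤ × ℤ) :
    0 ≤ gp E Q ρ x :=
  Finset.sum_nonneg fun z _ => mul_nonneg (hρ z) ((green_basic E).1 z x)

theorem sum_nb_E (E Q : Finset (ℤ × ℤ)) (ρ : ℤ × ℤ → ℝ) (u : ℤ × ℤ) :
    ∑ y ∈ nbrs u, gp E Q ρ y = ∑ y ∈ nbrs u ∩ E, gp E Q ρ y := by
  symm
  apply Finset.sum_subset Finset.inter_subset_left
  intro y hy hy2
  apply gp_out
  intro h
  exact hy2 (Finset.mem_inter.2 ⟨hy, h⟩)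

theorem gp_eq (E Q : Finset (ℤ × ℤ)) (ρ : ℤ × ℤ → ℝ) {u : ℤ × ℤ} (hu : u ∈ E) :
    gp E Q ρ u = (∑ z ∈ Q, ρ z * (if u = z then (1 : ℝ) else 0))
      + (1 / 4) * ∑ y ∈ nbrs u ∩ E, gp E Q ρ y := by
  rw [← sum_nb_E]
  unfold gp
  have h1 : ∀ z ∈ Q, ρ z * green E z u = ρ z * (if u = z then (1 : ℝ) else 0)
      + (1 / 4) * ∑ y ∈ nbrs u, ρ z * green E z y := by
    intro z _
    rw [(green_basic E).2.2.1 z u, (green_basic E).2.2.2.2.1 u hu z, mul_add]
    congr 1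
    rw [← Finset.mul_sum, Finset.sum_congr rfl fun y _ => (green_basic E).2.2.1 y z]
    ring
  rw [Finset.sum_congr rfl h1, Finset.sum_add_distrib, ← Finset.mul_sum, Finset.sum_comm]

theorem mu_eq (D K Q : Finset (ℤ × ℤ)) (ρ : ℤ × ℤ → ℝ) (v : ℤ × ℤ) :
    ∑ z ∈ Q, ρ z * hit D K z v = (1 / 4) * ∑ u ∈ nbrs v ∩ (D \ K), gp (D \ K) Q ρ u := by
  rw [← sum_nb_E]
  unfold hit gp
  rw [Finset.sum_comm, Finset.mul_sum]
  apply Finset.sum_congr rfl
  intro z _
  rw [← Finset.mul_sum]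
  ring

theorem key_ineq (D K : Finset (ℤ × ℤ)) (f : ℤ × ℤ → ℝ) (lam : ℝ) (hlam : 0 ≤ lam)
    {u : ℤ × ℤ} (hu : u ∈ D \ K) :
    (1 / 4) * ∑ v ∈ nbrs u ∩ K, (lam - f v) ≤
      (lam - hx D K f u) - (1 / 4) * ∑ y ∈ nbrs u ∩ (D \ K), (lam - hx D K f y) := by
  classical
  have h0 : lam - hx D K f u = (1 / 4) * ∑ z ∈ nbrs u, (lam - hx D K f z) := by
    rw [Finset.sum_sub_distrib, Finset.sum_const, nbrs_card, hx_harm D K f hu]
    simp only [nsmul_eq_mul]
    push_cast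
    ring
  have h1 : ∑ v ∈ nbrs u ∩ K, (lam - f v) = ∑ z ∈ nbrs u, if z ∈ K then (lam - f z) else 0 := by
    rw [← Finset.sum_filter, Finset.filter_mem_eq_inter]
  have h2 : ∑ y ∈ nbrs u ∩ (D \ K), (lam - hx D K f y)
      = ∑ z ∈ nbrs u, if z ∈ D \ K then (lam - hx D K f z) else 0 := by
    rw [← Finset.sum_filter, Finset.filter_mem_eq_inter]
  rw [h0, h1, h2, ← mul_sub, ← Finset.sum_sub_distrib]
  apply mul_le_mul_of_nonneg_left _ (by norm_num)
  apply Finset.sum_le_sum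
  intro z _
  by_cases hK : z ∈ K
  · have hE : z ∉ D \ K := fun h => (Finset.mem_sdiff.1 h).2 hK
    rw [if_pos hK, if_neg hE]
    unfold hx
    rw [if_pos hK]
    linarith
  · rw [if_neg hK]
    by_cases hE : z ∈ D \ K
    · rw [if_pos hE]
      linarith
    · rw [if_neg hE]
      unfold hx
      rw [if_neg hK, hx_out D K f hE]
      linarith

theorem _root_.H941.contour_ineq (D K Q Sg : Finset (ℤ × ℤ)) (f ρ X : ℤ × ℤ → ℝ) (lam : ℝ) (hlam : 0 ≤ lam) (hρ : ∀ z, 0 ≤ ρ z)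
    (hX0 : ∀ z, 0 ≤ X z) (hX1 : ∀ z, X z ≤ 1) (hXQ : ∀ z ∈ Q, X z = 0) (hSg : Sg ⊆ K)
    (hcl : ∀ u ∈ D \ K, X u < 1 → gp (D \ K) Q ρ u ≠ 0 → ∀ v ∈ nbrs u ∩ K, lam < f v ∨ v ∈ Sg) :
    ∑ v ∈ K, (∑ z ∈ Q, ρ z * hit D K z v) * (lam - f v) ≤
      ∑ v ∈ Sg, (∑ z ∈ Q, ρ z * hit D K z v) * max 0 (lam - f v) +
        ∑ u ∈ D \ K, (lam - hx D K f u) *
          ((1 / 4) * ∑ y ∈ nbrs u ∩ (D \ K), gp (D \ K) Q ρ y * (X u - X y)) := by
  classical
  have hgn : ∀ x, 0 ≤ gp (D \ K) Q ρ x := gp_nonneg (D \ K) Q ρ hρ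
  have hgeq : ∀ u ∈ D \ K, gp (D \ K) Q ρ u = (∑ z ∈ Q, ρ z * (if u = z then (1 : ℝ) else 0))
      + (1 / 4) * ∑ y ∈ nbrs u ∩ (D \ K), gp (D \ K) Q ρ y := fun u hu => gp_eq (D \ K) Q ρ hu
  have hmu := mu_eq D K Q ρ
  simp only [hmu]
  generalize hg : gp (D \ K) Q ρ = g at *
  -- left side
  have hL : ∑ v ∈ K, (1 / 4 * ∑ u ∈ nbrs v ∩ (D \ K), g u) * (lam - f v)
      = ∑ v ∈ K, ∑ u ∈ nbrs v ∩ (D \ K), (1 / 4) * (X u * g u * (lam - f v))
        + ∑ v ∈ K, ∑ u ∈ nbrs v ∩ (D \ K), (1 / 4) * ((1 - X u) * g u * (lam - f v)) := by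
    rw [← Finset.sum_add_distrib]
    apply Finset.sum_congr rfl
    intro v _
    rw [← Finset.sum_add_distrib, Finset.mul_sum, Finset.sum_mul]
    apply Finset.sum_congr rfl
    intro u _
    ring
  rw [hL]
  -- part with 1 - X
  have hB : ∑ v ∈ K, ∑ u ∈ nbrs v ∩ (D \ K), (1 / 4) * ((1 - X u) * g u * (lam - f v))
      ≤ ∑ v ∈ Sg, (1 / 4 * ∑ u ∈ nbrs v ∩ (D \ K), g u) * max 0 (lam - f v) := by
    have h1 : ∑ v ∈ Sg, (1 / 4 * ∑ u ∈ nbrs v ∩ (D \ K), g u) * max 0 (lam - f v)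
        = ∑ v ∈ K, if v ∈ Sg then (1 / 4 * ∑ u ∈ nbrs v ∩ (D \ K), g u) * max 0 (lam - f v)
          else 0 := by
      rw [← Finset.sum_filter, Finset.filter_mem_eq_inter, Finset.inter_eq_right.2 hSg]
    rw [h1]
    apply Finset.sum_le_sum
    intro v hv
    have h2 : (if v ∈ Sg then (1 / 4 * ∑ u ∈ nbrs v ∩ (D \ K), g u) * max 0 (lam - f v) else 0)
        = ∑ u ∈ nbrs v ∩ (D \ K), if v ∈ Sg then (1 / 4) * (g u * max 0 (lam - f v)) else 0 := by
      split_ifs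
      · rw [Finset.mul_sum, Finset.sum_mul]
        apply Finset.sum_congr rfl
        intro u _
        ring
      · simp
    rw [h2]
    apply Finset.sum_le_sum
    intro u hu
    obtain ⟨hu1, hu2⟩ := Finset.mem_inter.1 hu
    have hm0 : 0 ≤ max 0 (lam - f v) := le_max_left _ _
    have hm1 : lam - f v ≤ max 0 (lam - f v) := le_max_right _ _
    have hr0 : 0 ≤ (if v ∈ Sg then (1 / 4) * (g u * max 0 (lam - f v)) else (0 : ℝ)) := by
      split_ifs
      · have := mul_nonneg (hgn u) hm0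
        positivity
      · exact le_rfl
    by_cases hX : X u < 1
    · by_cases hgu : g u = 0
      · rw [hgu]
        simp
      · rcases hcl u hu2 hX hgu v (Finset.mem_inter.2 ⟨nbrs_symm hu1, hv⟩) with h3 | h3
        · refine le_trans ?_ hr0
          have h4 : 0 ≤ (1 - X u) * g u := mul_nonneg (by linarith) (hgn u)
          have h5 : (1 - X u) * g u * (lam - f v) ≤ 0 :=
            mul_nonpos_of_nonneg_of_nonpos h4 (by linarith)
          linarith
        · rw [if_pos h3]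
          apply mul_le_mul_of_nonneg_left _ (by norm_num)
          have h4 : 0 ≤ (1 - X u) * g u := mul_nonneg (by linarith) (hgn u)
          calc (1 - X u) * g u * (lam - f v) ≤ (1 - X u) * g u * max 0 (lam - f v) :=
                mul_le_mul_of_nonneg_left hm1 h4
            _ ≤ g u * max 0 (lam - f v) := by
                apply mul_le_mul_of_nonneg_right _ hm0
                have := mul_nonneg (hX0 u) (hgn u)
                linarith
    · have h3 : X u = 1 := le_antisymm (hX1 u) (not_lt.1 hX)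
      rw [h3]
      simpa using hr0
  -- part with X
  have hA : ∑ v ∈ K, ∑ u ∈ nbrs v ∩ (D \ K), (1 / 4) * (X u * g u * (lam - f v))
      ≤ ∑ u ∈ D \ K, (lam - hx D K f u) *
          ((1 / 4) * ∑ y ∈ nbrs u ∩ (D \ K), g y * (X u - X y)) := by
    rw [swap K (D \ K) (fun u v => (1 / 4) * (X u * g u * (lam - f v)))]
    have h1 : ∀ u ∈ D \ K, ∑ v ∈ nbrs u ∩ K, (1 / 4) * (X u * g u * (lam - f v)) ≤
        X u * g u * (lam - hx D K f u)
          - ∑ y ∈ nbrs u ∩ (D \ K), (1 / 4) * (X u * g u * (lam - hx D K f y)) := by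
      intro u hu
      have h2 := key_ineq D K f lam hlam hu
      have h3 : 0 ≤ X u * g u := mul_nonneg (hX0 u) (hgn u)
      have h4 := mul_le_mul_of_nonneg_left h2 h3
      have h5 : ∑ v ∈ nbrs u ∩ K, (1 / 4) * (X u * g u * (lam - f v))
          = X u * g u * ((1 / 4) * ∑ v ∈ nbrs u ∩ K, (lam - f v)) := by
        rw [Finset.mul_sum, Finset.mul_sum]
        apply Finset.sum_congr rfl
        intro v _
        ring
      have h6 : ∑ y ∈ nbrs u ∩ (D \ K), (1 / 4) * (X u * g u * (lam - hx D K f y))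
          = X u * g u * ((1 / 4) * ∑ y ∈ nbrs u ∩ (D \ K), (lam - hx D K f y)) := by
        rw [Finset.mul_sum, Finset.mul_sum]
        apply Finset.sum_congr rfl
        intro v _
        ring
      rw [h5, h6, ← mul_sub]
      exact h4
    refine (Finset.sum_le_sum h1).trans (le_of_eq ?_)
    rw [Finset.sum_sub_distrib,
      ← swap (D \ K) (D \ K) (fun u v => (1 / 4) * (X u * g u * (lam - hx D K f v))),
      ← Finset.sum_sub_distrib]
    apply Finset.sum_congr rfl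
    intro u hu
    have h7 : X u * g u = (1 / 4) * ∑ y ∈ nbrs u ∩ (D \ K), X u * g y := by
      rw [hgeq u hu, mul_add, Finset.mul_sum]
      have h8 : ∑ z ∈ Q, X u * (ρ z * (if u = z then (1 : ℝ) else 0)) = 0 := by
        apply Finset.sum_eq_zero
        intro z hz
        by_cases h : u = z
        · rw [h, hXQ z hz, zero_mul]
        · rw [if_neg h, mul_zero, mul_zero]
      rw [h8, zero_add, ← Finset.mul_sum]
      ring
    rw [h7, Finset.mul_sum, Finset.mul_sum, Finset.sum_mul, Finset.mul_sum,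
      ← Finset.sum_sub_distrib]
    apply Finset.sum_congr rfl
    intro y _
    ring
  linarith

end H941.contour_ineq
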