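import Pool.Agent.H941.Defs4

open MeasureTheory ProbabilityTheory

namespace H941.prod_cut

/-- the polynomial profile after clamping -/
noncomputable def cl (s : ℝ) : ℝ := max 0 (min 1 s)

lemma cl_nonneg (s : ℝ) : 0 ≤ cl s := le_max_left _ _

lemma cl_le (s : ℝ) : cl s ≤ 1 := max_le (by norm_num) (min_le_left _ _)

lemma cl_of_le {s : ℝ} (h : s ≤ 0) : cl s = 0 := by
  unfold cl
  rw [min_eq_right (by linarith), max_eq_left h]

lemma cl_of_ge {s : ℝ} (h : 1 ≤ s) : cl s = 1 := by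
  unfold cl
  rw [min_eq_left h, max_eq_right (by norm_num)]

lemma cl_of_mem {s : ℝ} (h : 0 ≤ s) (h' : s ≤ 1) : cl s = s := by
  unfold cl
  rw [min_eq_right h', max_eq_right h]

lemma cl_lip (s s' : ℝ) : |cl s' - cl s| ≤ |s' - s| := by
  rcases le_total s 0 with h1 | h1
  · rw [cl_of_le h1]
    rcases le_total s' 0 with h2 | h2
    · rw [cl_of_le h2]; simp
    · rcases le_total s' 1 with h3 | h3
      · rw [cl_of_mem h2 h3, abs_of_nonneg (by linarith), abs_of_nonneg (by linarith)]; linarith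
      · rw [cl_of_ge h3, abs_of_nonneg (by linarith), abs_of_nonneg (by linarith)]; linarith
  · rcases le_total s 1 with h4 | h4
    · rw [cl_of_mem h1 h4]
      rcases le_total s' 0 with h2 | h2
      · rw [cl_of_le h2, abs_of_nonpos (by linarith), abs_of_nonpos (by linarith)]; linarith
      · rcases le_total s' 1 with h3 | h3
        · rw [cl_of_mem h2 h3]
        · rw [cl_of_ge h3, abs_of_nonneg (by linarith), abs_of_nonneg (by linarith)]; linarith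
    · rw [cl_of_ge h4]
      rcases le_total s' 0 with h2 | h2
      · rw [cl_of_le h2, abs_of_nonpos (by linarith), abs_of_nonpos (by linarith)]; linarith
      · rcases le_total s' 1 with h3 | h3
        · rw [cl_of_mem h2 h3, abs_of_nonpos (by linarith), abs_of_nonpos (by linarith)]; linarith
        · rw [cl_of_ge h3]; simp

/-- the profile -/
noncomputable def GGq (s : ℝ) : ℝ := (1 - cl s ^ 2) ^ 2

/-- its derivative -/
noncomputable def dG (s : ℝ) : ℝ := -4 * cl s * (1 - cl s ^ 2)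

lemma GG_nonneg (s : ℝ) : 0 ≤ GGq s := sq_nonneg _

lemma GG_le (s : ℝ) : GGq s ≤ 1 := by
  unfold GGq
  have h1 := cl_nonneg s
  have h2 := cl_le s
  have h3 : 0 ≤ 1 - cl s ^ 2 := by nlinarith
  have h4 : 1 - cl s ^ 2 ≤ 1 := by nlinarith
  nlinarith

lemma GG_lip (s s' : ℝ) : |GGq s' - GGq s| ≤ 4 * |s' - s| := by
  unfold GGq
  have h1 := cl_nonneg s
  have h2 := cl_le s
  have h1' := cl_nonneg s'
  have h2' := cl_le s'
  have e : (1 - cl s' ^ 2) ^ 2 - (1 - cl s ^ 2) ^ 2 = (cl s' - cl s) * (-((cl s + cl s') * (2 - cl s ^ 2 - cl s' ^ 2))) := by ring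
  rw [e, abs_mul, abs_neg]
  have h3 : 0 ≤ 2 - cl s ^ 2 - cl s' ^ 2 := by nlinarith
  have h4 : |(cl s + cl s') * (2 - cl s ^ 2 - cl s' ^ 2)| ≤ 4 := by
    rw [abs_of_nonneg (mul_nonneg (by linarith) h3)]
    have h5 : 2 - cl s ^ 2 - cl s' ^ 2 ≤ 2 := by nlinarith
    calc _ ≤ 2 * 2 := mul_le_mul (by linarith) h5 h3 (by norm_num)
      _ = 4 := by norm_num
  calc _ ≤ |s' - s| * 4 := mul_le_mul (cl_lip s s') h4 (abs_nonneg _) (abs_nonneg _)
    _ = _ := by ring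

lemma GG_taylor (s s' : ℝ) : |GGq s' - GGq s - dG s * (s' - s)| ≤ 12 * (s' - s) ^ 2 := by
  have h1 := cl_nonneg s
  have h2 := cl_le s
  have h1' := cl_nonneg s'
  have h2' := cl_le s'
  have e : GGq s' - GGq s - dG s * (s' - s) =
      (cl s' - cl s) ^ 2 * (-2 + cl s' ^ 2 + 2 * cl s * cl s' + 3 * cl s ^ 2) + dG s * ((cl s' - cl s) - (s' - s)) := by
    unfold GGq dG
    ring
  rw [e]
  refine (abs_add_le _ _).trans ?_
  have h3 : |(cl s' - cl s) ^ 2 * (-2 + cl s' ^ 2 + 2 * cl s * cl s' + 3 * cl s ^ 2)| ≤ 4 * (s' - s) ^ 2 := by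
    rw [abs_mul, abs_of_nonneg (sq_nonneg _)]
    have a1 : |-2 + cl s' ^ 2 + 2 * cl s * cl s' + 3 * cl s ^ 2| ≤ 4 := by
      rw [abs_le]
      constructor
      · nlinarith [mul_nonneg h1 h1']
      · nlinarith [mul_nonneg h1 h1', mul_le_mul h2 h2' h1' (by norm_num : (0:ℝ) ≤ 1)]
    have a2 : (cl s' - cl s) ^ 2 ≤ (s' - s) ^ 2 := sq_le_sq.2 (cl_lip s s')
    calc _ ≤ (s' - s) ^ 2 * 4 := mul_le_mul a2 a1 (abs_nonneg _) (sq_nonneg _)
      _ = _ := by ring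
  have h4 : |dG s * ((cl s' - cl s) - (s' - s))| ≤ 8 * (s' - s) ^ 2 := by
    rcases le_total s 0 with h5 | h5
    · have : dG s = 0 := by unfold dG; rw [cl_of_le h5]; ring
      rw [this, zero_mul, abs_zero]
      positivity
    rcases le_total 1 s with h6 | h6
    · have : dG s = 0 := by unfold dG; rw [cl_of_ge h6]; ring
      rw [this, zero_mul, abs_zero]
      positivity
    have e1 : dG s = -(4 * s * (1 - s ^ 2)) := by unfold dG; rw [cl_of_mem h5 h6]; ring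
    rw [cl_of_mem h5 h6, e1, abs_mul, abs_neg, abs_of_nonneg (mul_nonneg (by linarith) (by nlinarith))]
    rcases le_total s' 0 with h7 | h7
    · rw [cl_of_le h7, show (0 - s - (s' - s)) = -s' by ring, abs_of_nonneg (by linarith)]
      have b1 : 4 * s * (1 - s ^ 2) ≤ 4 * (s - s') := by nlinarith [mul_nonneg h5 (sq_nonneg s)]
      have b2 : -s' ≤ s - s' := by linarith
      calc _ ≤ 4 * (s - s') * (s - s') := mul_le_mul b1 b2 (by linarith) (by linarith)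
        _ ≤ _ := by nlinarith [sq_nonneg (s - s')]
    rcases le_total s' 1 with h8 | h8
    · rw [cl_of_mem h7 h8, sub_self, abs_zero, mul_zero]
      positivity
    · rw [cl_of_ge h8, show (1 - s - (s' - s)) = -(s' - 1) by ring, abs_neg, abs_of_nonneg (by linarith)]
      have b1 : 4 * s * (1 - s ^ 2) ≤ 8 * (s' - s) := by
        have c1 : 4 * s * (1 - s ^ 2) = (4 * s * (1 + s)) * (1 - s) := by ring
        have c2 : 4 * s * (1 + s) ≤ 8 := by nlinarith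
        rw [c1]
        calc _ ≤ 8 * (1 - s) := mul_le_mul_of_nonneg_right c2 (by linarith)
          _ ≤ _ := by linarith
      calc _ ≤ 8 * (s' - s) * (s' - s) := mul_le_mul b1 (by linarith) (by linarith) (by linarith)
        _ = _ := by ring
  linarith

lemma GG_second (s h : ℝ) : |GGq (s + h) + GGq (s - h) - 2 * GGq s| ≤ 24 * h ^ 2 := by
  have h1 := GG_taylor s (s + h)
  have h2 := GG_taylor s (s - h)
  have e : GGq (s + h) + GGq (s - h) - 2 * GGq s =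
      (GGq (s + h) - GGq s - dG s * ((s + h) - s)) + (GGq (s - h) - GGq s - dG s * ((s - h) - s)) := by ring
  rw [e]
  refine (abs_add_le _ _).trans ?_
  have e1 : (s + h - s) ^ 2 = h ^ 2 := by ring
  have e2 : (s - h - s) ^ 2 = h ^ 2 := by ring
  rw [e1] at h1
  rw [e2] at h2
  linarith

lemma th_eq (r t : ℝ) : th r t = GGq ((|t| - r) / r) := rfl

lemma th_nonneg (r t : ℝ) : 0 ≤ th r t := by rw [th_eq]; exact GG_nonneg _

lemma th_le (r t : ℝ) : th r t ≤ 1 := by rw [th_eq]; exact GG_le _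

lemma th_lip (r : ℕ) (hr : 1 ≤ r) (t t' : ℝ) (h : |t' - t| ≤ 1) : |th r t' - th r t| ≤ 4 / r := by
  rw [th_eq, th_eq]
  have hr0 : (0 : ℝ) < r := by exact_mod_cast hr
  refine (GG_lip _ _).trans ?_
  have e : (|t'| - r) / (r : ℝ) - (|t| - r) / r = (|t'| - |t|) / r := by ring
  rw [e, abs_div, abs_of_pos hr0, ← mul_div_assoc]
  apply div_le_div_of_nonneg_right _ hr0.le
  have := abs_abs_sub_abs_le_abs_sub t' t
  linarith

lemma th_one (r : ℕ) (hr : 1 ≤ r) (t : ℝ) (h : |t| ≤ r) : th r t = 1 := by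
  have hr0 : (0 : ℝ) < r := by exact_mod_cast hr
  rw [th_eq]
  unfold GGq
  rw [cl_of_le (div_nonpos_of_nonpos_of_nonneg (by linarith) hr0.le)]
  norm_num

lemma th_zero (r : ℕ) (hr : 1 ≤ r) (t : ℝ) (h : 2 * r ≤ |t|) : th r t = 0 := by
  have hr0 : (0 : ℝ) < r := by exact_mod_cast hr
  rw [th_eq]
  unfold GGq
  rw [cl_of_ge (by rw [le_div_iff₀ hr0]; linarith)]
  norm_num

lemma th_second (r : ℕ) (hr : 1 ≤ r) (t : ℤ) : |th r ((t : ℝ) + 1) + th r ((t : ℝ) - 1) - 2 * th r t| ≤ 24 / (r : ℝ) ^ 2 := by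
  have hr0 : (0 : ℝ) < r := by exact_mod_cast hr
  have hr1 : (1 : ℝ) ≤ r := by exact_mod_cast hr
  have hh : 24 * (1 / (r : ℝ)) ^ 2 = 24 / (r : ℝ) ^ 2 := by rw [div_pow]; ring
  rcases lt_trichotomy t 0 with h | h | h
  · have h1 : (t : ℝ) ≤ -1 := by exact_mod_cast (by omega : t ≤ -1)
    rw [th_eq, th_eq, th_eq, abs_of_nonpos (by linarith : (t : ℝ) + 1 ≤ 0), abs_of_nonpos (by linarith : (t : ℝ) - 1 ≤ 0),
      abs_of_nonpos (by linarith : (t : ℝ) ≤ 0)]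
    have := GG_second ((-(t : ℝ) - r) / r) (1 / r)
    rw [hh] at this
    have e1 : (-((t : ℝ) + 1) - r) / (r : ℝ) = (-(t : ℝ) - r) / r - 1 / r := by ring
    have e2 : (-((t : ℝ) - 1) - r) / (r : ℝ) = (-(t : ℝ) - r) / r + 1 / r := by ring
    rw [e1, e2, add_comm (GGq _) (GGq _)]
    exact this
  · subst h
    rw [th_one r hr _ (by simp; exact hr), th_one r hr _ (by simp; exact hr), th_one r hr _ (by simp)]
    norm_num
    positivity
  · have h1 : (1 : ℝ) ≤ t := by exact_mod_cast (by omega : 1 ≤ t)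
    rw [th_eq, th_eq, th_eq, abs_of_nonneg (by linarith : 0 ≤ (t : ℝ) + 1), abs_of_nonneg (by linarith : 0 ≤ (t : ℝ) - 1),
      abs_of_nonneg (by linarith : 0 ≤ (t : ℝ))]
    have := GG_second (((t : ℝ) - r) / r) (1 / r)
    rw [hh] at this
    have e1 : (((t : ℝ) + 1) - r) / (r : ℝ) = ((t : ℝ) - r) / r + 1 / r := by ring
    have e2 : (((t : ℝ) - 1) - r) / (r : ℝ) = ((t : ℝ) - r) / r - 1 / r := by ring
    rw [e1, e2]
    exact this

lemma chi_nonneg (c : ℤ × ℤ) (r : ℕ) (z : ℤ × ℤ) : 0 ≤ chi c r z := mul_nonneg (th_nonneg _ _) (th_nonneg _ _)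

lemma chi_le (c : ℤ × ℤ) (r : ℕ) (z : ℤ × ℤ) : chi c r z ≤ 1 := by
  unfold chi
  calc _ ≤ (1 : ℝ) * 1 := mul_le_mul (th_le _ _) (th_le _ _) (th_nonneg _ _) (by norm_num)
    _ = 1 := by norm_num

lemma sum_nbrs (f : ℤ × ℤ → ℝ) (u : ℤ × ℤ) :
    ∑ y ∈ nbrs u, f y = f (u.1 + 1, u.2) + f (u.1 - 1, u.2) + f (u.1, u.2 + 1) + f (u.1, u.2 - 1) := by
  unfold nbrs
  rw [Finset.sum_insert, Finset.sum_insert, Finset.sum_insert, Finset.sum_singleton]
  · ring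
  · simp only [Finset.mem_singleton, Prod.mk.injEq, not_and]
    intro _; omega
  · simp only [Finset.mem_insert, Finset.mem_singleton, Prod.mk.injEq, not_or, not_and]
    constructor <;> (intro _; omega)
  · simp only [Finset.mem_insert, Finset.mem_singleton, Prod.mk.injEq, not_or, not_and]
    refine ⟨?_, ?_, ?_⟩ <;> (intro _; omega)

lemma mem_nbrs {u y : ℤ × ℤ} (h : y ∈ nbrs u) :
    y = (u.1 + 1, u.2) ∨ y = (u.1 - 1, u.2) ∨ y = (u.1, u.2 + 1) ∨ y = (u.1, u.2 - 1) := by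
  simpa [nbrs] using h

lemma chi_lip (c : ℤ × ℤ) (r : ℕ) (hr : 1 ≤ r) (u y : ℤ × ℤ) (hy : y ∈ nbrs u) : |chi c r u - chi c r y| ≤ 4 / r := by
  have hr0 : (0 : ℝ) < r := by exact_mod_cast hr
  have key : ∀ a a' b : ℝ, |a - a'| ≤ 4 / r → 0 ≤ b → b ≤ 1 → |a * b - a' * b| ≤ 4 / r := by
    intro a a' b h1 h2 h3
    rw [← sub_mul, abs_mul, abs_of_nonneg h2]
    calc _ ≤ 4 / (r : ℝ) * 1 := mul_le_mul h1 h3 h2 (by positivity)
      _ = _ := mul_one _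
  have key' : ∀ a a' b : ℝ, |a - a'| ≤ 4 / r → 0 ≤ b → b ≤ 1 → |b * a - b * a'| ≤ 4 / r := by
    intro a a' b h1 h2 h3
    rw [mul_comm b a, mul_comm b a']
    exact key a a' b h1 h2 h3
  rcases mem_nbrs hy with h | h | h | h <;> subst h <;> unfold chi <;> simp only
  · apply key _ _ _ _ (th_nonneg _ _) (th_le _ _)
    apply th_lip r hr
    push_cast
    rw [show ((u.1 : ℝ) - c.1 - (u.1 + 1 - c.1)) = -1 by ring]
    norm_num
  · apply key _ _ _ _ (th_nonneg _ _) (th_le _ _)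
    apply th_lip r hr
    push_cast
    rw [show ((u.1 : ℝ) - c.1 - (u.1 - 1 - c.1)) = 1 by ring]
    norm_num
  · apply key' _ _ _ _ (th_nonneg _ _) (th_le _ _)
    apply th_lip r hr
    push_cast
    rw [show ((u.2 : ℝ) - c.2 - (u.2 + 1 - c.2)) = -1 by ring]
    norm_num
  · apply key' _ _ _ _ (th_nonneg _ _) (th_le _ _)
    apply th_lip r hr
    push_cast
    rw [show ((u.2 : ℝ) - c.2 - (u.2 - 1 - c.2)) = 1 by ring]
    norm_num

lemma chi_lap (c : ℤ × ℤ) (r : ℕ) (hr : 1 ≤ r) (u : ℤ × ℤ) : |∑ y ∈ nbrs u, (chi c r u - chi c r y)| ≤ 48 / (r : ℝ) ^ 2 := by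
  have hr0 : (0 : ℝ) < r := by exact_mod_cast hr
  rw [sum_nbrs]
  unfold chi
  simp only
  have h1 := th_second r hr (u.1 - c.1)
  have h2 := th_second r hr (u.2 - c.2)
  push_cast at h1 h2 ⊢
  set a := th r ((u.1 : ℝ) - c.1) with ha
  set b := th r ((u.2 : ℝ) - c.2) with hb
  rw [show ((u.1 : ℝ) + 1 - c.1) = (u.1 - c.1) + 1 by ring, show ((u.1 : ℝ) - 1 - c.1) = (u.1 - c.1) - 1 by ring,
    show ((u.2 : ℝ) + 1 - c.2) = (u.2 - c.2) + 1 by ring, show ((u.2 : ℝ) - 1 - c.2) = (u.2 - c.2) - 1 by ring]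
  set a1 := th r ((u.1 : ℝ) - c.1 + 1)
  set a2 := th r ((u.1 : ℝ) - c.1 - 1)
  set b1 := th r ((u.2 : ℝ) - c.2 + 1)
  set b2 := th r ((u.2 : ℝ) - c.2 - 1)
  have e : a * b - a1 * b + (a * b - a2 * b) + (a * b - a * b1) + (a * b - a * b2) =
      -((a1 + a2 - 2 * a) * b) + -((b1 + b2 - 2 * b) * a) := by ring
  rw [e]
  refine (abs_add_le _ _).trans ?_
  rw [abs_neg, abs_neg, abs_mul, abs_mul, abs_of_nonneg (th_nonneg _ _ : 0 ≤ a), abs_of_nonneg (th_nonneg _ _ : 0 ≤ b)]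
  have g1 : |a1 + a2 - 2 * a| * b ≤ 24 / (r : ℝ) ^ 2 * 1 := mul_le_mul h1 (th_le _ _) (th_nonneg _ _) (by positivity)
  have g2 : |b1 + b2 - 2 * b| * a ≤ 24 / (r : ℝ) ^ 2 * 1 := mul_le_mul h2 (th_le _ _) (th_nonneg _ _) (by positivity)
  calc _ ≤ 24 / (r : ℝ) ^ 2 * 1 + 24 / (r : ℝ) ^ 2 * 1 := add_le_add g1 g2
    _ = _ := by ring

lemma chi_zero (c : ℤ × ℤ) (r : ℕ) (hr : 1 ≤ r) (u z : ℤ × ℤ) (hu : u ∉ ball c (2 * r + 1)) (h1 : |z.1 - u.1| ≤ 1)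
    (h2 : |z.2 - u.2| ≤ 1) : chi c r z = 0 := by
  unfold ball rect at hu
  rw [Finset.mem_product, Finset.mem_Icc, Finset.mem_Icc] at hu
  have hz : 2 * (r : ℤ) ≤ |z.1 - c.1| ∨ 2 * (r : ℤ) ≤ |z.2 - c.2| := by
    by_contra hcon
    push Not at hcon
    apply hu
    obtain ⟨h3, h4⟩ := hcon
    rw [abs_lt] at h3 h4
    rw [abs_le] at h1 h2
    refine ⟨⟨by linarith [h1.2, h3.1], by linarith [h1.1, h3.2]⟩, ⟨by linarith [h2.2, h4.1], by linarith [h2.1, h4.2]⟩⟩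
  unfold chi
  rcases hz with h | h
  · rw [th_zero r hr _ (by exact_mod_cast h), zero_mul]
  · rw [th_zero r hr ((z.2 : ℝ) - c.2) (by exact_mod_cast h), mul_zero]

lemma chi_diff_zero (c : ℤ × ℤ) (r : ℕ) (hr : 1 ≤ r) (u y : ℤ × ℤ) (hu : u ∉ ball c (2 * r + 1)) (hy : y ∈ nbrs u) :
    chi c r u - chi c r y = 0 := by
  rw [chi_zero c r hr u u hu (by simp) (by simp), chi_zero c r hr u y hu, sub_self]
  · rcases mem_nbrs hy with h | h | h | h <;> subst h <;> simp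
  · rcases mem_nbrs hy with h | h | h | h <;> subst h <;> simp

lemma tele {ι : Type*} [DecidableEq ι] (I : Finset ι) (p : ι → ℝ) (hp : ∀ i, 0 ≤ p i ∧ p i ≤ 1) :
    ∃ w : ι → ℝ, (∀ i, 0 ≤ w i ∧ w i ≤ 1) ∧ ∀ q : ι → ℝ, (∀ i, 0 ≤ q i ∧ q i ≤ 1) →
      |∏ i ∈ I, q i - ∏ i ∈ I, p i| ≤ ∑ i ∈ I, |q i - p i| ∧
      |∏ i ∈ I, q i - ∏ i ∈ I, p i - ∑ i ∈ I, (q i - p i) * w i| ≤ (∑ i ∈ I, |q i - p i|) ^ 2 := by
  induction I using Finset.induction_on with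
  | empty => exact ⟨fun _ => 0, fun _ => ⟨le_rfl, zero_le_one⟩, fun q _ => by simp⟩
  | insert a s ha ih =>
    obtain ⟨w, hw, h⟩ := ih
    have hP0 : 0 ≤ ∏ i ∈ s, p i := Finset.prod_nonneg fun i _ => (hp i).1
    have hP1 : ∏ i ∈ s, p i ≤ 1 := Finset.prod_le_one (fun i _ => (hp i).1) (fun i _ => (hp i).2)
    refine ⟨fun i => if i = a then ∏ i ∈ s, p i else p a * w i, ?_, ?_⟩
    · intro i
      simp only
      split_ifs
      · exact ⟨hP0, hP1⟩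
      · refine ⟨mul_nonneg (hp a).1 (hw i).1, ?_⟩
        calc _ ≤ (1 : ℝ) * 1 := mul_le_mul (hp a).2 (hw i).2 (hw i).1 (by norm_num)
          _ = 1 := by norm_num
    · intro q hq
      obtain ⟨h1, h2⟩ := h q hq
      have hQ0 : 0 ≤ ∏ i ∈ s, q i := Finset.prod_nonneg fun i _ => (hq i).1
      have hQ1 : ∏ i ∈ s, q i ≤ 1 := Finset.prod_le_one (fun i _ => (hq i).1) (fun i _ => (hq i).2)
      rw [Finset.prod_insert ha, Finset.prod_insert ha, Finset.sum_insert ha, Finset.sum_insert ha]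
      simp only [if_true]
      have e1 : ∑ i ∈ s, (q i - p i) * (if i = a then ∏ i ∈ s, p i else p a * w i) = p a * ∑ i ∈ s, (q i - p i) * w i := by
        rw [Finset.mul_sum]
        apply Finset.sum_congr rfl
        intro i hi
        have hia : i ≠ a := fun h => ha (h ▸ hi)
        rw [if_neg hia]
        ring
      rw [e1]
      set P := ∏ i ∈ s, p i
      set R := ∏ i ∈ s, q i
      set D := ∑ i ∈ s, |q i - p i|
      set Λ := ∑ i ∈ s, (q i - p i) * w i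
      have hD : 0 ≤ D := Finset.sum_nonneg fun i _ => abs_nonneg _
      constructor
      · have e2 : q a * R - p a * P = (q a - p a) * P + q a * (R - P) := by ring
        rw [e2]
        refine (abs_add_le _ _).trans ?_
        rw [abs_mul, abs_mul, abs_of_nonneg hP0, abs_of_nonneg (hq a).1]
        have g1 : |q a - p a| * P ≤ |q a - p a| * 1 := mul_le_mul_of_nonneg_left hP1 (abs_nonneg _)
        have g2 : q a * |R - P| ≤ 1 * D := mul_le_mul (hq a).2 h1 (abs_nonneg _) (by norm_num)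
        linarith
      · have e2 : q a * R - p a * P - ((q a - p a) * P + p a * Λ) = p a * (R - P - Λ) + (q a - p a) * (R - P) := by ring
        rw [e2]
        refine (abs_add_le _ _).trans ?_
        rw [abs_mul, abs_mul, abs_of_nonneg (hp a).1]
        have g1 : p a * |R - P - Λ| ≤ 1 * D ^ 2 := mul_le_mul (hp a).2 h2 (abs_nonneg _) (by norm_num)
        have g2 : |q a - p a| * |R - P| ≤ |q a - p a| * D := mul_le_mul_of_nonneg_left h1 (abs_nonneg _)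
        nlinarith [abs_nonneg (q a - p a), mul_nonneg (abs_nonneg (q a - p a)) hD, sq_nonneg (|q a - p a|)]

theorem _root_.H941.prod_cut : ∃ C : ℝ, 0 < C ∧ ∀ (I : Finset ((ℤ × ℤ) × ℕ)) (A : ℝ), 1 ≤ A → (∀ i ∈ I, 1 ≤ i.2) →
    (∀ u : ℤ × ℤ, ∀ i ∈ I, u ∈ ball i.1 (2 * i.2 + 1) →
      ∑ l ∈ I.filter (fun l => u ∈ ball l.1 (2 * l.2 + 1) ∧ i.2 ≤ l.2), 1 / (l.2 : ℝ) ≤ A / i.2) →
    ∀ u : ℤ × ℤ,
      |(1 / 4) * ∑ y ∈ nbrs u, ((1 - ∏ i ∈ I, (1 - chi i.1 i.2 u)) - (1 - ∏ i ∈ I, (1 - chi i.1 i.2 y)))| ≤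
        C * A ^ 2 * ∑ i ∈ I.filter (fun i => u ∈ ball i.1 (2 * i.2 + 1)), 1 / (i.2 : ℝ) ^ 2 ∧
      ∀ y ∈ nbrs u, |(1 - ∏ i ∈ I, (1 - chi i.1 i.2 u)) - (1 - ∏ i ∈ I, (1 - chi i.1 i.2 y))| ≤
        C * ∑ i ∈ I.filter (fun i => u ∈ ball i.1 (2 * i.2 + 1)), 1 / (i.2 : ℝ) := by
  classical
  refine ⟨28, by norm_num, fun I A hA hI hov u => ?_⟩
  set J := I.filter (fun i => u ∈ ball i.1 (2 * i.2 + 1)) with hJ
  obtain ⟨w, hw, htel⟩ := tele I (fun i => 1 - chi i.1 i.2 u) (fun i => ⟨by linarith [chi_le i.1 i.2 u], by linarith [chi_nonneg i.1 i.2 u]⟩)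
  have hq : ∀ y, ∀ i : (ℤ × ℤ) × ℕ, 0 ≤ 1 - chi i.1 i.2 y ∧ 1 - chi i.1 i.2 y ≤ 1 := fun y i =>
    ⟨by linarith [chi_le i.1 i.2 y], by linarith [chi_nonneg i.1 i.2 y]⟩
  have hdif : ∀ y, ∀ i : (ℤ × ℤ) × ℕ, (1 - chi i.1 i.2 y) - (1 - chi i.1 i.2 u) = chi i.1 i.2 u - chi i.1 i.2 y := fun y i => by ring
  have hS : ∀ y ∈ nbrs u, ∑ i ∈ I, |(1 - chi i.1 i.2 y) - (1 - chi i.1 i.2 u)| ≤ 4 * ∑ i ∈ J, 1 / (i.2 : ℝ) := by
    intro y hy
    rw [hJ, Finset.sum_filter, Finset.mul_sum]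
    apply Finset.sum_le_sum
    intro i hi
    rw [hdif]
    split_ifs with h
    · have := chi_lip i.1 i.2 (hI i hi) u y hy
      rw [← mul_div_assoc, mul_one]
      exact this
    · rw [chi_diff_zero i.1 i.2 (hI i hi) u y h hy]
      simp
  have hS0 : 0 ≤ ∑ i ∈ J, 1 / (i.2 : ℝ) := Finset.sum_nonneg fun _ _ => by positivity
  have hS2 : 0 ≤ ∑ i ∈ J, 1 / (i.2 : ℝ) ^ 2 := Finset.sum_nonneg fun _ _ => by positivity
  have hA2 : 1 ≤ A ^ 2 := by nlinarith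
  have hsq : (∑ i ∈ J, 1 / (i.2 : ℝ)) ^ 2 ≤ A ^ 2 * ∑ i ∈ J, 1 / (i.2 : ℝ) ^ 2 := by
    rcases J.eq_empty_or_nonempty with h | h
    · rw [h]; simp
    obtain ⟨i0, hi0, hmin⟩ := J.exists_min_image (fun i => i.2) h
    have hi0' := hi0
    rw [hJ, Finset.mem_filter] at hi0'
    have h1 := hov u i0 hi0'.1 hi0'.2
    have h2 : I.filter (fun l => u ∈ ball l.1 (2 * l.2 + 1) ∧ i0.2 ≤ l.2) = J := by
      ext l
      rw [hJ, Finset.mem_filter, Finset.mem_filter]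
      constructor
      · rintro ⟨a, b, _⟩
        exact ⟨a, b⟩
      · rintro ⟨a, b⟩
        exact ⟨a, b, hmin l (by rw [hJ, Finset.mem_filter]; exact ⟨a, b⟩)⟩
    rw [h2] at h1
    have h3 : 1 / (i0.2 : ℝ) ^ 2 ≤ ∑ i ∈ J, 1 / (i.2 : ℝ) ^ 2 :=
      Finset.single_le_sum (f := fun i : (ℤ × ℤ) × ℕ => 1 / (i.2 : ℝ) ^ 2) (fun _ _ => by positivity) hi0
    calc (∑ i ∈ J, 1 / (i.2 : ℝ)) ^ 2 ≤ (A / i0.2) ^ 2 := pow_le_pow_left₀ hS0 h1 2
      _ = A ^ 2 * (1 / (i0.2 : ℝ) ^ 2) := by rw [div_pow]; ring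
      _ ≤ _ := mul_le_mul_of_nonneg_left h3 (by positivity)
  constructor
  · have e1 : ∑ y ∈ nbrs u, ((1 - ∏ i ∈ I, (1 - chi i.1 i.2 u)) - (1 - ∏ i ∈ I, (1 - chi i.1 i.2 y))) =
        ∑ y ∈ nbrs u, (∏ i ∈ I, (1 - chi i.1 i.2 y) - ∏ i ∈ I, (1 - chi i.1 i.2 u) -
          ∑ i ∈ I, ((1 - chi i.1 i.2 y) - (1 - chi i.1 i.2 u)) * w i) +
        ∑ i ∈ I, (∑ y ∈ nbrs u, (chi i.1 i.2 u - chi i.1 i.2 y)) * w i := by
      have e2 : ∑ i ∈ I, (∑ y ∈ nbrs u, (chi i.1 i.2 u - chi i.1 i.2 y)) * w i =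
          ∑ y ∈ nbrs u, ∑ i ∈ I, ((1 - chi i.1 i.2 y) - (1 - chi i.1 i.2 u)) * w i := by
        rw [Finset.sum_comm]
        apply Finset.sum_congr rfl
        intro i _
        rw [Finset.sum_mul]
        apply Finset.sum_congr rfl
        intro y _
        rw [hdif]
      rw [e2, ← Finset.sum_add_distrib]
      apply Finset.sum_congr rfl
      intro y _
      ring
    have e3 : |∑ y ∈ nbrs u, (∏ i ∈ I, (1 - chi i.1 i.2 y) - ∏ i ∈ I, (1 - chi i.1 i.2 u) -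
          ∑ i ∈ I, ((1 - chi i.1 i.2 y) - (1 - chi i.1 i.2 u)) * w i)| ≤ 4 * (4 * ∑ i ∈ J, 1 / (i.2 : ℝ)) ^ 2 := by
      refine (Finset.abs_sum_le_sum_abs _ _).trans ?_
      calc _ ≤ ∑ y ∈ nbrs u, (4 * ∑ i ∈ J, 1 / (i.2 : ℝ)) ^ 2 := by
            apply Finset.sum_le_sum
            intro y hy
            refine ((htel _ (hq y)).2).trans ?_
            exact pow_le_pow_left₀ (Finset.sum_nonneg fun _ _ => abs_nonneg _) (hS y hy) 2
        _ = _ := by rw [sum_nbrs]; ring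
    have e4 : |∑ i ∈ I, (∑ y ∈ nbrs u, (chi i.1 i.2 u - chi i.1 i.2 y)) * w i| ≤ 48 * ∑ i ∈ J, 1 / (i.2 : ℝ) ^ 2 := by
      refine (Finset.abs_sum_le_sum_abs _ _).trans ?_
      rw [hJ, Finset.sum_filter, Finset.mul_sum]
      apply Finset.sum_le_sum
      intro i hi
      rw [abs_mul, abs_of_nonneg (hw i).1]
      split_ifs with h
      · have := chi_lap i.1 i.2 (hI i hi) u
        rw [← mul_div_assoc, mul_one]
        calc _ ≤ 48 / (i.2 : ℝ) ^ 2 * 1 := mul_le_mul this (hw i).2 (hw i).1 (by positivity)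
          _ = _ := mul_one _
      · rw [Finset.sum_eq_zero fun y hy => chi_diff_zero i.1 i.2 (hI i hi) u y h hy]
        simp
    rw [e1, abs_mul, abs_of_pos (by norm_num : (0 : ℝ) < 1 / 4)]
    have e5 := abs_add_le (∑ y ∈ nbrs u, (∏ i ∈ I, (1 - chi i.1 i.2 y) - ∏ i ∈ I, (1 - chi i.1 i.2 u) -
          ∑ i ∈ I, ((1 - chi i.1 i.2 y) - (1 - chi i.1 i.2 u)) * w i))
        (∑ i ∈ I, (∑ y ∈ nbrs u, (chi i.1 i.2 u - chi i.1 i.2 y)) * w i)
    have e6 : ∑ i ∈ J, 1 / (i.2 : ℝ) ^ 2 ≤ A ^ 2 * ∑ i ∈ J, 1 / (i.2 : ℝ) ^ 2 := by nlinarith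
    have e7 : 4 * (4 * ∑ i ∈ J, 1 / (i.2 : ℝ)) ^ 2 = 64 * (∑ i ∈ J, 1 / (i.2 : ℝ)) ^ 2 := by ring
    rw [e7] at e3
    have e8 : 28 * A ^ 2 * ∑ i ∈ J, 1 / (i.2 : ℝ) ^ 2 = 28 * (A ^ 2 * ∑ i ∈ J, 1 / (i.2 : ℝ) ^ 2) := by ring
    rw [e8]
    linarith
  · intro y hy
    have e1 : (1 - ∏ i ∈ I, (1 - chi i.1 i.2 u)) - (1 - ∏ i ∈ I, (1 - chi i.1 i.2 y)) =
        ∏ i ∈ I, (1 - chi i.1 i.2 y) - ∏ i ∈ I, (1 - chi i.1 i.2 u) := by ring
    rw [e1]
    refine ((htel _ (hq y)).1).trans ?_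
    refine (hS y hy).trans ?_
    linarith

end H941.prod_cut
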