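import Pool.Agent.H941.Defs4

open MeasureTheory ProbabilityTheory

namespace H941.slice_bound

theorem _root_.H941.slice_bound (E : Finset (ℤ × ℤ)) (Acc : Set (ℤ × ℤ)) (g F X Xb : ℤ × ℤ → ℝ) (hg : ∀ z, 0 ≤ g z)
    (hgE : ∀ z, z ∉ E → g z = 0) (h1 : ∀ u ∈ E, u ∉ Acc → X u = 1) (hacc : ∀ u ∈ Acc, X u = Xb u)
    (h3 : ∀ u ∈ E, u ∉ Acc → ∀ y ∈ nbrs u ∩ E, X y = 1)
    (h2 : ∀ u ∈ Acc, ∀ y ∈ nbrs u ∩ E, y ∉ Acc → Xb y = 1) :
    ∑ u ∈ E, F u * ((1 / 4) * ∑ y ∈ nbrs u ∩ E, g y * (X u - X y)) ≤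
      ∑ u ∈ E, |F u| * (g u * |(1 / 4) * ∑ y ∈ nbrs u, (Xb u - Xb y)| +
        (1 / 4) * ∑ y ∈ nbrs u, |g y - g u| * |Xb u - Xb y|) := by
  classical
  refine Finset.sum_le_sum fun u hu => ?_
  have hR : 0 ≤ g u * |(1 / 4) * ∑ y ∈ nbrs u, (Xb u - Xb y)| +
      (1 / 4) * ∑ y ∈ nbrs u, |g y - g u| * |Xb u - Xb y| :=
    add_nonneg (mul_nonneg (hg u) (abs_nonneg _))
      (mul_nonneg (by norm_num) (Finset.sum_nonneg fun y _ =>
        mul_nonneg (abs_nonneg _) (abs_nonneg _)))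
  refine (le_abs_self _).trans ?_
  rw [abs_mul]
  refine mul_le_mul_of_nonneg_left ?_ (abs_nonneg _)
  by_cases hA : u ∈ Acc
  · have e1 : ∑ y ∈ nbrs u ∩ E, g y * (X u - X y) = ∑ y ∈ nbrs u, g y * (Xb u - Xb y) := by
      rw [← Finset.sum_subset (Finset.inter_subset_left : nbrs u ∩ E ⊆ nbrs u)]
      · refine Finset.sum_congr rfl fun y hy => ?_
        have hyE : y ∈ E := (Finset.mem_inter.1 hy).2
        have hXy : X y = Xb y := by
          by_cases hyA : y ∈ Acc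
          · exact hacc y hyA
          · rw [h1 y hyE hyA, h2 u hA y hy hyA]
        rw [hacc u hA, hXy]
      · intro y hy hy'
        have hyE : y ∉ E := fun h => hy' (Finset.mem_inter.2 ⟨hy, h⟩)
        rw [hgE y hyE, zero_mul]
    have e2 : ∑ y ∈ nbrs u, g y * (Xb u - Xb y) =
        g u * ∑ y ∈ nbrs u, (Xb u - Xb y) + ∑ y ∈ nbrs u, (g y - g u) * (Xb u - Xb y) := by
      rw [Finset.mul_sum, ← Finset.sum_add_distrib]
      refine Finset.sum_congr rfl fun y _ => ?_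
      ring
    rw [e1, e2, mul_add]
    refine (abs_add_le _ _).trans (add_le_add ?_ ?_)
    · have e3 : (1 / 4 : ℝ) * (g u * ∑ y ∈ nbrs u, (Xb u - Xb y)) =
          g u * ((1 / 4) * ∑ y ∈ nbrs u, (Xb u - Xb y)) := by ring
      rw [e3, abs_mul (g u), abs_of_nonneg (hg u)]
    · rw [abs_mul, abs_of_pos (by norm_num : (0 : ℝ) < 1 / 4)]
      refine mul_le_mul_of_nonneg_left ?_ (by norm_num)
      refine (Finset.abs_sum_le_sum_abs _ _).trans (le_of_eq ?_)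
      refine Finset.sum_congr rfl fun y _ => ?_
      rw [abs_mul]
  · have e1 : ∑ y ∈ nbrs u ∩ E, g y * (X u - X y) = 0 := by
      refine Finset.sum_eq_zero fun y hy => ?_
      rw [h1 u hu hA, h3 u hu hA y hy, sub_self, mul_zero]
    rw [e1, mul_zero, abs_zero]
    exact hR

end H941.slice_bound
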