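import Pool.Agent.H941.Defs4
import Pool.Agent.H941.A3
import Pool.Agent.H941.B.expl_facts
import Pool.Agent.H941.B.green_conn
import Pool.Agent.H941.B.hit_basic
import Pool.Agent.H941.B.hit_mass_ge
import Pool.Agent.H941.B.row_le
import Pool.Agent.H941.C.box_slice
import Pool.Agent.H941.C.det_front
import Pool.Agent.H941.C.shield

open MeasureTheory ProbabilityTheory

namespace H941.det_step

theorem mem_rect {a b c d : ℤ} {z : ℤ × ℤ} :
    z ∈ rect a b c d ↔ (a ≤ z.1 ∧ z.1 ≤ b) ∧ (c ≤ z.2 ∧ z.2 ≤ d) := by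
  simp [rect, Finset.mem_product]

theorem mem_ball' {x z : ℤ × ℤ} {r : ℤ} :
    z ∈ ball x r ↔ (x.1 - r ≤ z.1 ∧ z.1 ≤ x.1 + r) ∧ (x.2 - r ≤ z.2 ∧ z.2 ≤ x.2 + r) := by
  simp [ball, mem_rect]

theorem straight (v e : ℤ × ℤ) (he : ∀ x : ℤ × ℤ, grid.Adj x (x + e)) (n : ℕ) :
    ∃ b : ℤ × ℤ, b = v + n • e ∧ ∃ p : grid.Walk v b, ∀ z ∈ p.support, ∃ i ≤ n, z = v + i • e := by
  induction n with
  | zero =>
    refine ⟨v, by simp, SimpleGraph.Walk.nil, ?_⟩
    intro z hz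
    refine ⟨0, le_rfl, ?_⟩
    simpa using hz
  | succ n ih =>
    obtain ⟨b, hb, p, hp⟩ := ih
    refine ⟨b + e, by rw [hb, succ_nsmul, add_assoc], p.concat (he b), ?_⟩
    intro z hz
    rw [SimpleGraph.Walk.support_concat, List.mem_append, List.mem_singleton] at hz
    rcases hz with hz | hz
    · obtain ⟨i, hi, h⟩ := hp z hz
      exact ⟨i, by omega, h⟩
    · exact ⟨n + 1, le_rfl, by rw [hz, hb, succ_nsmul, add_assoc]⟩

theorem adj_nbrs {u v : ℤ × ℤ} (h : v ∈ nbrs u) : grid.Adj u v := by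
  simp only [nbrs, Finset.mem_insert, Finset.mem_singleton] at h
  rcases h with h | h | h | h <;> subst h <;> simp [grid]

theorem adj_r (x : ℤ × ℤ) : grid.Adj x (x + (1, 0)) := by simp [grid]

theorem adj_l (x : ℤ × ℤ) : grid.Adj x (x + (-1, 0)) := by simp [grid]

theorem adj_u (x : ℤ × ℤ) : grid.Adj x (x + (0, 1)) := by simp [grid]

theorem adj_d (x : ℤ × ℤ) : grid.Adj x (x + (0, -1)) := by simp [grid]

theorem cr_cr (i j : ℕ) (h : j ≤ i) (v : ℤ × ℤ) : cr i (cr j v) = cr i v := by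
  obtain ⟨k, rfl⟩ := Nat.exists_eq_add_of_le h
  have h2 : (0 : ℤ) < 2 ^ j := by positivity
  have key : ∀ x : ℤ, 2 ^ j * (x / 2 ^ j) / (2 ^ (j + k) : ℤ) = x / 2 ^ (j + k) := by
    intro x
    rw [pow_add, Int.mul_ediv_mul_of_pos _ _ h2, Int.ediv_ediv_of_nonneg h2.le]
  simp only [cr, key]

theorem cr_bd (j : ℕ) (v : ℤ × ℤ) :
    (cr j v).1 ≤ v.1 ∧ v.1 < (cr j v).1 + 2 ^ j ∧ (cr j v).2 ≤ v.2 ∧ v.2 < (cr j v).2 + 2 ^ j := by
  have h2 : (0 : ℤ) < 2 ^ j := by positivity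
  have key : ∀ x : ℤ, 2 ^ j * (x / 2 ^ j) ≤ x ∧ x < 2 ^ j * (x / 2 ^ j) + 2 ^ j := by
    intro x
    have h3 := Int.emod_add_mul_ediv x (2 ^ j)
    have h4 := Int.emod_nonneg x h2.ne'
    have h5 := Int.emod_lt_of_pos x h2
    constructor <;> linarith
  exact ⟨(key v.1).1, (key v.1).2, (key v.2).1, (key v.2).2⟩

theorem geo_sum (m : ℕ) (hm : 1 ≤ m) (N : ℕ) :
    (m ≤ 2 ^ N → ∑ j ∈ (Finset.range N).filter (fun j => m ≤ 2 ^ (j + 1)), (1 : ℝ) / 2 ^ (j + 1) ≤ 2 / m - 1 / 2 ^ N) ∧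
    (2 ^ N < m → ∑ j ∈ (Finset.range N).filter (fun j => m ≤ 2 ^ (j + 1)), (1 : ℝ) / 2 ^ (j + 1) = 0) := by
  have hm0 : (0 : ℝ) < m := by exact_mod_cast hm
  induction N with
  | zero =>
    constructor
    · intro h
      have : m = 1 := by
        rw [pow_zero] at h
        omega
      subst this
      norm_num
    · intro h
      simp
  | succ N ih =>
    rw [Finset.range_add_one, Finset.filter_insert]
    constructor
    · intro h
      rw [if_pos h, Finset.sum_insert (by simp)]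
      rcases le_or_gt m (2 ^ N) with h1 | h1
      · have := ih.1 h1
        have h3 : (1 : ℝ) / 2 ^ N = 1 / 2 ^ (N + 1) + 1 / 2 ^ (N + 1) := by
          rw [pow_succ]; field_simp; norm_num
        linarith
      · rw [ih.2 h1]
        have h3 : (2 : ℝ) / 2 ^ (N + 1) ≤ 2 / m := by
          apply div_le_div_of_nonneg_left (by norm_num) hm0
          exact_mod_cast h
        have h4 : (2 : ℝ) / 2 ^ (N + 1) = 1 / 2 ^ (N + 1) + 1 / 2 ^ (N + 1) := by ring
        linarith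
    · intro h
      rw [if_neg (by omega)]
      apply ih.2
      have : 2 ^ N ≤ 2 ^ (N + 1) := Nat.pow_le_pow_right (by norm_num) (by omega)
      omega

theorem geo_sum' (m : ℕ) (hm : 1 ≤ m) (N : ℕ) :
    ∑ j ∈ (Finset.range N).filter (fun j => m ≤ 2 ^ (j + 1)), (1 : ℝ) / 2 ^ (j + 1) ≤ 2 / m := by
  have hm0 : (0 : ℝ) < m := by exact_mod_cast hm
  rcases le_or_gt m (2 ^ N) with h1 | h1
  · have := (geo_sum m hm N).1 h1
    have h3 : (0 : ℝ) ≤ 1 / 2 ^ N := by positivity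
    linarith
  · rw [(geo_sum m hm N).2 h1]
    positivity

theorem count_c (j : ℕ) (u : ℤ × ℤ) (T : Finset (ℤ × ℤ)) (hT : ∀ c ∈ T, cr j c = c ∧ u ∈ ball c (5 * 2 ^ j)) :
    T.card ≤ 121 := by
  have h2 : (0 : ℤ) < 2 ^ j := by positivity
  have key : ∀ a x : ℤ, 2 ^ j * (a / 2 ^ j) = a → a - 5 * 2 ^ j ≤ x → x ≤ a + 5 * 2 ^ j →
      a / 2 ^ j ∈ Finset.Icc (x / 2 ^ j - 5) (x / 2 ^ j + 5) := by
    intro a x ha h3 h4
    rw [Finset.mem_Icc]
    obtain ⟨q, hq⟩ : ∃ q, q = a / 2 ^ j := ⟨_, rfl⟩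
    rw [← hq] at ha ⊢
    have h5 := Int.emod_add_mul_ediv x (2 ^ j)
    have h6 := Int.emod_nonneg x h2.ne'
    have h7 := Int.emod_lt_of_pos x h2
    constructor
    · have : 2 ^ j * (x / 2 ^ j - 5) ≤ 2 ^ j * q := by nlinarith
      exact le_of_mul_le_mul_left this h2
    · have : 2 ^ j * q < 2 ^ j * (x / 2 ^ j + 6) := by nlinarith
      have := lt_of_mul_lt_mul_left this h2.le
      omega
  have : T.card ≤ ((Finset.Icc (u.1 / 2 ^ j - 5) (u.1 / 2 ^ j + 5)) ×ˢ (Finset.Icc (u.2 / 2 ^ j - 5) (u.2 / 2 ^ j + 5))).card := by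
    apply Finset.card_le_card_of_injOn (fun c => (c.1 / 2 ^ j, c.2 / 2 ^ j))
    · intro c hc
      obtain ⟨h3, h4⟩ := hT c hc
      rw [mem_ball'] at h4
      have h5 : 2 ^ j * (c.1 / 2 ^ j) = c.1 := congrArg Prod.fst h3
      have h6 : 2 ^ j * (c.2 / 2 ^ j) = c.2 := congrArg Prod.snd h3
      rw [Finset.mem_coe, Finset.mem_product]
      exact ⟨key _ _ h5 h4.1.1 h4.1.2, key _ _ h6 h4.2.1 h4.2.2⟩
    · intro c hc c' hc' h
      obtain ⟨h3, -⟩ := hT c hc
      obtain ⟨h4, -⟩ := hT c' hc'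
      simp only [Prod.mk.injEq] at h
      rw [← h3, ← h4]
      simp only [cr, h.1, h.2]
  refine this.trans ?_
  rw [Finset.card_product]
  simp only [Int.card_Icc]
  have h8 : ∀ y : ℤ, (y + 5 + 1 - (y - 5)).toNat = 11 := by intro y; omega
  rw [h8, h8]

theorem conn_K0 (w d : ℕ) (lam : ℝ) (f : ℤ × ℤ → ℝ) (k : ℕ) (a : ℤ × ℤ) (ha : a ∈ Kk w d lam f k) :
    ∃ b : ℤ × ℤ, b.1 = w ∧ (d : ℤ) ≤ b.2 ∧ b.2 ≤ (w : ℤ) - d ∧
      ∃ p : grid.Walk a b, ∀ z ∈ p.support, z ∈ Kk w d lam f k := by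
  have hsub : rect w w d (w - d) ⊆ rect w (5 * w) d (w - d) := by
    intro z hz
    rw [mem_rect] at hz ⊢
    omega
  have facts := expl_facts (rect w (5 * w) d (w - d)) (rect w w d (w - d)) hsub (fun v => f v ≤ lam)
  induction k generalizing a with
  | zero =>
    have ha' : a ∈ rect w w d (w - d) := ha
    rw [mem_rect] at ha'
    refine ⟨a, by omega, by omega, by omega, SimpleGraph.Walk.nil, ?_⟩
    intro z hz
    simp only [SimpleGraph.Walk.support_nil, List.mem_singleton] at hz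
    rw [hz]; exact ha
  | succ k ih =>
    have mono : Kk w d lam f k ⊆ Kk w d lam f (k + 1) := (facts.1 k).2.2
    have ha' : a ∈ Kk w d lam f k ∨ (a ∈ rect w (5 * w) d (w - d) ∧ ∃ u ∈ Lk w d lam f k, a ∈ nbrs u) := by
      have := ha
      simp only [Kk, expl, Finset.mem_union, Finset.mem_filter] at this
      exact this
    rcases ha' with h | ⟨h1, u, hu, h2⟩
    · obtain ⟨b, hb1, hb2, hb3, p, hp⟩ := ih a h
      exact ⟨b, hb1, hb2, hb3, p, fun z hz => mono (hp z hz)⟩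
    · have hu' : u ∈ Kk w d lam f k := (facts.2.1 k).1 hu
      obtain ⟨b, hb1, hb2, hb3, p, hp⟩ := ih u hu'
      refine ⟨b, hb1, hb2, hb3, SimpleGraph.Walk.cons (adj_nbrs h2).symm p, ?_⟩
      intro z hz
      rw [SimpleGraph.Walk.support_cons, List.mem_cons] at hz
      rcases hz with hz | hz
      · rw [hz]; exact ha
      · exact mono (hp z hz)

theorem Qs_card (w : ℕ) (hw : 10 ^ 9 ≤ w) : (w : ℝ) ^ 2 / 5 ≤ ((Qs w).card : ℝ) := by
  have h1 : (Qs w).card = (6 * (w : ℤ) + 1 - (5 * w + 1)).toNat * ((w : ℤ) / 2 + 1 - ((w : ℤ) / 4 + 1)).toNat := by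
    simp only [Qs, rect, Finset.card_product, Int.card_Icc]
  have h2 : (6 * (w : ℤ) + 1 - (5 * w + 1)).toNat = w := by omega
  have h3 : w ≤ 5 * ((w : ℤ) / 2 + 1 - ((w : ℤ) / 4 + 1)).toNat := by omega
  have h4 : w * w ≤ 5 * (Qs w).card := by
    rw [h1, h2]
    calc w * w ≤ w * (5 * ((w : ℤ) / 2 + 1 - ((w : ℤ) / 4 + 1)).toNat) := Nat.mul_le_mul_left _ h3
      _ = _ := by ring
  have h5 : (w : ℝ) * w ≤ 5 * ((Qs w).card : ℝ) := by exact_mod_cast h4
  linarith [sq (w : ℝ)]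

theorem rq_nonneg (w : ℕ) (z : ℤ × ℤ) : 0 ≤ rq w z := by
  unfold rq; positivity

theorem gp_nonneg (E Q : Finset (ℤ × ℤ)) (ρ : ℤ × ℤ → ℝ) (hρ : ∀ z, 0 ≤ ρ z) (x : ℤ × ℤ) : 0 ≤ gp E Q ρ x := by
  unfold gp
  exact Finset.sum_nonneg fun z _ => mul_nonneg (hρ z) ((green_basic E).1 z x)

theorem mem_Dw {w : ℕ} {z : ℤ × ℤ} : z ∈ Dw w ↔ (1 ≤ z.1 ∧ z.1 ≤ 7 * (w : ℤ) - 1) ∧ (1 ≤ z.2 ∧ z.2 ≤ (w : ℤ) - 1) := by
  simp [Dw, mem_rect]

theorem mem_Qs {w : ℕ} {z : ℤ × ℤ} : z ∈ Qs w ↔ (5 * (w : ℤ) + 1 ≤ z.1 ∧ z.1 ≤ 6 * (w : ℤ)) ∧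
    ((w : ℤ) / 4 + 1 ≤ z.2 ∧ z.2 ≤ (w : ℤ) / 2) := by
  simp [Qs, mem_rect]

theorem gp_edge (w d : ℕ) (hd : 1 ≤ d) (hw : 10 ^ 9 * d ≤ w) (E : Finset (ℤ × ℤ)) (hE : E ⊆ Dw w) (z : ℤ × ℤ)
    (hz : z.2 ≤ 97 * (d : ℤ) ∨ (w : ℤ) - 97 * d ≤ z.2) : gp E (Qs w) (rq w) z ≤ 970 * ((d : ℝ) / w) := by
  have hw9 : 10 ^ 9 ≤ w := by nlinarith
  have hw0 : (0 : ℝ) < w := by
    have : 0 < w := by omega
    exact_mod_cast this
  have hcard := Qs_card w hw9
  have hcard0 : (0 : ℝ) < ((Qs w).card : ℝ) := lt_of_lt_of_le (by positivity) hcard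
  obtain ⟨g1, g2, g3, g4, -, -⟩ := green_basic E
  obtain ⟨k1, k2, k3, k4, -, -⟩ := green_basic (Dw w)
  by_cases hzD : z ∈ Dw w
  · have h1 : gp E (Qs w) (rq w) z ≤ (1 / ((Qs w).card : ℝ)) * ∑ v ∈ Dw w, green (Dw w) z v := by
      unfold gp rq
      rw [← Finset.mul_sum]
      apply mul_le_mul_of_nonneg_left _ (by positivity)
      calc ∑ i ∈ Qs w, green E i z ≤ ∑ i ∈ Qs w, green (Dw w) z i := by
            apply Finset.sum_le_sum
            intro i _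
            rw [k3 z i]
            exact g4 (Dw w) hE i z
        _ ≤ ∑ v ∈ Dw w, green (Dw w) z v := by
            apply Finset.sum_le_sum_of_subset_of_nonneg
            · intro v hv
              rw [mem_Qs] at hv
              rw [mem_Dw]
              omega
            · intro v _ _
              exact k1 z v
    have h2 := row_le (Dw w) 0 w (by
      intro y hy
      rw [mem_Dw] at hy
      constructor
      · omega
      · omega) z hzD
    rw [mem_Dw] at hzD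
    have hz1 : (1 : ℝ) ≤ (z.2 : ℝ) := by exact_mod_cast hzD.2.1
    have hz2 : (z.2 : ℝ) ≤ w - 1 := by
      have := hzD.2.2
      have h : (z.2 : ℝ) ≤ ((w : ℤ) - 1 : ℤ) := by exact_mod_cast this
      simpa using h
    have hd0 : (0 : ℝ) < d := by exact_mod_cast (show 0 < d by omega)
    have h3 : ∑ v ∈ Dw w, green (Dw w) z v ≤ 194 * d * w := by
      refine h2.trans ?_
      simp only [Int.cast_zero, sub_zero, zero_add]
      rcases hz with hz | hz
      · have h : (z.2 : ℝ) ≤ 97 * d := by exact_mod_cast hz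
        nlinarith
      · have h : (w : ℝ) - 97 * d ≤ z.2 := by exact_mod_cast hz
        have h' : (w : ℝ) - z.2 ≤ 97 * d := by linarith
        nlinarith
    refine h1.trans ?_
    calc (1 / ((Qs w).card : ℝ)) * ∑ v ∈ Dw w, green (Dw w) z v ≤ (1 / ((w : ℝ) ^ 2 / 5)) * (194 * d * w) := by
          apply mul_le_mul _ h3 (Finset.sum_nonneg fun v _ => k1 z v) (by positivity)
          exact one_div_le_one_div_of_le (by positivity) hcard
      _ = 970 * ((d : ℝ) / w) := by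
          field_simp
          norm_num
  · have : gp E (Qs w) (rq w) z = 0 := by
      unfold gp
      apply Finset.sum_eq_zero
      intro i _
      rw [g2 i z (Or.inr fun h => hzD (hE h)), mul_zero]
    rw [this]
    positivity

theorem K0_sub (w d : ℕ) (lam : ℝ) (f : ℤ × ℤ → ℝ) (k : ℕ) :
    rect w w d (w - d) ⊆ Kk w d lam f k ∧ Kk w d lam f k ⊆ rect w (5 * w) d (w - d) := by
  have hsub : rect w w d (w - d) ⊆ rect w (5 * w) d (w - d) := by
    intro z hz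
    rw [mem_rect] at hz ⊢
    omega
  have facts := expl_facts (rect w (5 * w) d (w - d)) (rect w w d (w - d)) hsub (fun v => f v ≤ lam)
  exact ⟨(facts.1 k).1, (facts.1 k).2.1⟩

theorem conn_good (w d : ℕ) (lam : ℝ) (f : ℤ × ℤ → ℝ) (k j : ℕ) (hd : 1 ≤ d) (c : ℤ × ℤ)
    (hc : ball c (256 * 2 ^ j) ⊆ rect (w + 1) (5 * w) d (w - d)) (a : ℤ × ℤ)
    (ha : a ∈ ball c (8 * ((2 ^ (j + 1) : ℕ) : ℤ))) (ha' : a ∉ Dw w \ Kk w d lam f k) :
    ∃ b : ℤ × ℤ, (((2 ^ (j + 1) : ℕ) : ℤ) ≤ |b.1 - a.1| ∨ ((2 ^ (j + 1) : ℕ) : ℤ) ≤ |b.2 - a.2|) ∧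
      ∃ p : grid.Walk a b, ∀ z ∈ p.support, z ∉ Dw w \ Kk w d lam f k := by
  have h2 : (0 : ℤ) < 2 ^ j := by positivity
  have hcast : ((2 ^ (j + 1) : ℕ) : ℤ) = 2 * 2 ^ j := by push_cast; ring
  rw [hcast] at ha ⊢
  rw [mem_ball'] at ha
  have hc1 : ((c.1 - 256 * 2 ^ j, c.2) : ℤ × ℤ) ∈ rect ((w : ℤ) + 1) (5 * w) d (w - d) := by
    apply hc
    rw [mem_ball']
    simp only
    constructor <;> constructor <;> linarith
  have ha2 : a ∈ rect ((w : ℤ) + 1) (5 * w) d (w - d) := by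
    apply hc
    rw [mem_ball']
    constructor <;> constructor <;> linarith
  have haD : a ∈ Dw w := by
    rw [mem_rect] at ha2
    rw [mem_Dw]
    omega
  have haK : a ∈ Kk w d lam f k := by
    by_contra h
    exact ha' (Finset.mem_sdiff.mpr ⟨haD, h⟩)
  obtain ⟨b, hb1, -, -, p, hp⟩ := conn_K0 w d lam f k a haK
  refine ⟨b, Or.inl ?_, p, fun z hz h => (Finset.mem_sdiff.mp h).2 (hp z hz)⟩
  rw [mem_rect] at hc1
  have h5 := hc1.1.1
  simp only at h5
  rw [hb1]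
  have : (w : ℤ) - a.1 ≤ -(2 * 2 ^ j) := by linarith [ha.1.1]
  rw [abs_of_neg (by linarith)]
  linarith

theorem conn_edge (w d : ℕ) (lam : ℝ) (f : ℤ × ℤ → ℝ) (k : ℕ) (hd : 1 ≤ d) (hw : 10 ^ 9 * d ≤ w)
    (a : ℤ × ℤ) (ha : a.2 ≤ 24 * (d : ℤ) ∨ (w : ℤ) - 24 * d ≤ a.2) (ha' : a ∉ Dw w \ Kk w d lam f k) :
    ∃ b : ℤ × ℤ, (((3 * d : ℕ) : ℤ) ≤ |b.1 - a.1| ∨ ((3 * d : ℕ) : ℤ) ≤ |b.2 - a.2|) ∧
      ∃ p : grid.Walk a b, ∀ z ∈ p.support, z ∉ Dw w \ Kk w d lam f k := by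
  have hcast : ((3 * d : ℕ) : ℤ) = 3 * d := by push_cast; ring
  rw [hcast]
  by_cases haD : a ∈ Dw w
  · have haK : a ∈ Kk w d lam f k := by
      by_contra h
      exact ha' (Finset.mem_sdiff.mpr ⟨haD, h⟩)
    obtain ⟨b, hb1, hb2, hb3, p, hp⟩ := conn_K0 w d lam f k a haK
    have hK0 := (K0_sub w d lam f k).1
    rcases ha with ha | ha
    · obtain ⟨b', hb', q, hq⟩ := straight b (0, 1) adj_u ((w : ℤ) - d - b.2).toNat
      have hb'2 : b'.2 = w - d := by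
        rw [hb']
        simp
        omega
      refine ⟨b', Or.inr ?_, p.append q, ?_⟩
      · rw [hb'2]
        have : 3 * (d : ℤ) ≤ w - d - a.2 := by omega
        exact this.trans (le_abs_self _)
      · intro z hz h
        rw [SimpleGraph.Walk.mem_support_append_iff] at hz
        rcases hz with hz | hz
        · exact (Finset.mem_sdiff.mp h).2 (hp z hz)
        · obtain ⟨i, hi, hz⟩ := hq z hz
          apply (Finset.mem_sdiff.mp h).2
          apply hK0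
          rw [mem_rect, hz]
          simp
          omega
    · obtain ⟨b', hb', q, hq⟩ := straight b (0, -1) adj_d (b.2 - d).toNat
      have hb'2 : b'.2 = d := by
        rw [hb']
        simp
        omega
      refine ⟨b', Or.inr ?_, p.append q, ?_⟩
      · rw [hb'2, abs_sub_comm]
        have : 3 * (d : ℤ) ≤ a.2 - d := by omega
        exact this.trans (le_abs_self _)
      · intro z hz h
        rw [SimpleGraph.Walk.mem_support_append_iff] at hz
        rcases hz with hz | hz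
        · exact (Finset.mem_sdiff.mp h).2 (hp z hz)
        · obtain ⟨i, hi, hz⟩ := hq z hz
          apply (Finset.mem_sdiff.mp h).2
          apply hK0
          rw [mem_rect, hz]
          simp
          omega
  · have haD' := haD
    rw [mem_Dw] at haD'
    have hcases : a.1 ≤ 0 ∨ 7 * (w : ℤ) ≤ a.1 ∨ a.2 ≤ 0 ∨ (w : ℤ) ≤ a.2 := by omega
    rcases hcases with h | h | h | h
    · obtain ⟨b', hb', q, hq⟩ := straight a (-1, 0) adj_l (3 * d)
      refine ⟨b', Or.inl ?_, q, ?_⟩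
      · rw [hb', abs_sub_comm]
        simp
      · intro z hz hz2
        obtain ⟨i, hi, hz⟩ := hq z hz
        rw [Finset.mem_sdiff, mem_Dw, hz] at hz2
        simp at hz2
        omega
    · obtain ⟨b', hb', q, hq⟩ := straight a (1, 0) adj_r (3 * d)
      refine ⟨b', Or.inl ?_, q, ?_⟩
      · rw [hb']
        simp
      · intro z hz hz2
        obtain ⟨i, hi, hz⟩ := hq z hz
        rw [Finset.mem_sdiff, mem_Dw, hz] at hz2
        simp at hz2
        omega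
    · obtain ⟨b', hb', q, hq⟩ := straight a (0, -1) adj_d (3 * d)
      refine ⟨b', Or.inr ?_, q, ?_⟩
      · rw [hb', abs_sub_comm]
        simp
      · intro z hz hz2
        obtain ⟨i, hi, hz⟩ := hq z hz
        rw [Finset.mem_sdiff, mem_Dw, hz] at hz2
        simp at hz2
        omega
    · obtain ⟨b', hb', q, hq⟩ := straight a (0, 1) adj_u (3 * d)
      refine ⟨b', Or.inr ?_, q, ?_⟩
      · rw [hb']
        simp
      · intro z hz hz2
        obtain ⟨i, hi, hz⟩ := hq z hz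
        rw [Finset.mem_sdiff, mem_Dw, hz] at hz2
        simp at hz2
        omega

theorem sum_union_le' {β : Type*} [DecidableEq β] (A B : Finset β) (G : β → ℝ) (hG : ∀ b, 0 ≤ G b) :
    ∑ b ∈ A ∪ B, G b ≤ ∑ b ∈ A, G b + ∑ b ∈ B, G b := by
  rw [← Finset.sum_union_inter]
  have : 0 ≤ ∑ b ∈ A ∩ B, G b := Finset.sum_nonneg fun b _ => hG b
  linarith

theorem sum_biUnion_le' {ι β : Type*} [DecidableEq ι] [DecidableEq β] (s : Finset ι) (t : ι → Finset β)
    (G : β → ℝ) (hG : ∀ b, 0 ≤ G b) : ∑ b ∈ s.biUnion t, G b ≤ ∑ i ∈ s, ∑ b ∈ t i, G b := by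
  induction s using Finset.induction_on with
  | empty => simp
  | insert a s ha ih =>
    rw [Finset.biUnion_insert, Finset.sum_insert ha]
    exact (sum_union_le' _ _ G hG).trans (by linarith)

/-- the squares used in `det_step` -/
def II (w d : ℕ) (S : ℕ → Finset (ℤ × ℤ)) (b1 b2 : ℕ) : Finset ((ℤ × ℤ) × ℕ) :=
  ((Finset.range (Nat.log 2 w + 1)).biUnion (fun j => (S j).image (fun c => (c, 2 ^ (j + 1))))) ∪
    ({((((b1 : ℤ) * d, 0) : ℤ × ℤ), 3 * d)} ∪ {((((b2 : ℤ) * d, (w : ℤ)) : ℤ × ℤ), 3 * d)})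

theorem sum_II (w d : ℕ) (S : ℕ → Finset (ℤ × ℤ)) (b1 b2 : ℕ) (G : (ℤ × ℤ) × ℕ → ℝ) (hG : ∀ b, 0 ≤ G b) :
    ∑ i ∈ II w d S b1 b2, G i ≤ ∑ j ∈ Finset.range (Nat.log 2 w + 1), ∑ c ∈ S j, G (c, 2 ^ (j + 1)) +
      (G (((b1 : ℤ) * d, 0), 3 * d) + G (((b2 : ℤ) * d, (w : ℤ)), 3 * d)) := by
  unfold II
  refine (sum_union_le' _ _ G hG).trans ?_
  refine add_le_add ?_ ?_
  · refine (sum_biUnion_le' _ _ G hG).trans (le_of_eq ?_)
    apply Finset.sum_congr rfl
    intro j _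
    rw [Finset.sum_image]
    intro c _ c' _ h
    simpa using h
  · refine (sum_union_le' _ _ G hG).trans (le_of_eq ?_)
    rw [Finset.sum_singleton, Finset.sum_singleton]

theorem mem_II {w d : ℕ} {S : ℕ → Finset (ℤ × ℤ)} {b1 b2 : ℕ} {i : (ℤ × ℤ) × ℕ} :
    i ∈ II w d S b1 b2 ↔ (∃ j ∈ Finset.range (Nat.log 2 w + 1), ∃ c ∈ S j, i = (c, 2 ^ (j + 1))) ∨
      i = (((b1 : ℤ) * d, 0), 3 * d) ∨ i = (((b2 : ℤ) * d, (w : ℤ)), 3 * d) := by
  unfold II
  simp only [Finset.mem_union, Finset.mem_biUnion, Finset.mem_image, Finset.mem_singleton]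
  constructor
  · rintro (⟨j, hj, c, hc, h⟩ | h)
    · exact Or.inl ⟨j, hj, c, hc, h.symm⟩
    · exact Or.inr h
  · rintro (⟨j, hj, c, hc, h⟩ | h)
    · exact Or.inl ⟨j, hj, c, hc, h.symm⟩
    · exact Or.inr h

theorem overlap (w d : ℕ) (hd : 1 ≤ d) (S : ℕ → Finset (ℤ × ℤ)) (b1 b2 : ℕ) (hS : ∀ j, ∀ c ∈ S j, cr j c = c)
    (u : ℤ × ℤ) (n : ℕ) (hn : 1 ≤ n) :
    ∑ l ∈ (II w d S b1 b2).filter (fun l => u ∈ ball l.1 (2 * l.2 + 1) ∧ n ≤ l.2), 1 / (l.2 : ℝ) ≤ 2000 / n := by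
  have hn0 : (0 : ℝ) < n := by exact_mod_cast hn
  rw [Finset.sum_filter]
  refine (sum_II w d S b1 b2 (fun l => if u ∈ ball l.1 (2 * l.2 + 1) ∧ n ≤ l.2 then 1 / (l.2 : ℝ) else 0) ?_).trans ?_
  · intro b
    split_ifs
    · positivity
    · exact le_rfl
  · have h1 : ∀ j ∈ Finset.range (Nat.log 2 w + 1), ∑ c ∈ S j,
        (fun l : (ℤ × ℤ) × ℕ => if u ∈ ball l.1 (2 * l.2 + 1) ∧ n ≤ l.2 then 1 / (l.2 : ℝ) else 0) (c, 2 ^ (j + 1)) ≤
        121 * (if n ≤ 2 ^ (j + 1) then 1 / (2 : ℝ) ^ (j + 1) else 0) := by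
      intro j _
      by_cases hnj : n ≤ 2 ^ (j + 1)
      · rw [if_pos hnj]
        simp only [hnj, and_true]
        rw [← Finset.sum_filter, Finset.sum_const, nsmul_eq_mul]
        push_cast
        apply mul_le_mul_of_nonneg_right _ (by positivity)
        have := count_c j u ((S j).filter (fun c => u ∈ ball c (2 * 2 ^ (j + 1) + 1))) (by
          intro c hc
          rw [Finset.mem_filter] at hc
          refine ⟨hS j c hc.1, ?_⟩
          have h2 : (1 : ℤ) ≤ 2 ^ j := one_le_pow₀ (by norm_num)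
          have h3 := hc.2
          rw [mem_ball'] at h3 ⊢
          have h4 : (2 : ℤ) * 2 ^ (j + 1) + 1 = 4 * 2 ^ j + 1 := by ring
          rw [h4] at h3
          constructor <;> constructor <;> linarith [h3.1.1, h3.1.2, h3.2.1, h3.2.2])
        exact_mod_cast this
      · rw [if_neg hnj]
        apply le_of_eq
        rw [mul_zero]
        apply Finset.sum_eq_zero
        intro c _
        simp only [hnj, and_false, if_false]
    have h2 : ∑ j ∈ Finset.range (Nat.log 2 w + 1), ∑ c ∈ S j,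
        (fun l : (ℤ × ℤ) × ℕ => if u ∈ ball l.1 (2 * l.2 + 1) ∧ n ≤ l.2 then 1 / (l.2 : ℝ) else 0) (c, 2 ^ (j + 1)) ≤
        121 * (2 / n) := by
      refine (Finset.sum_le_sum h1).trans ?_
      rw [← Finset.mul_sum, ← Finset.sum_filter]
      exact mul_le_mul_of_nonneg_left (geo_sum' n hn _) (by norm_num)
    have h3 : ∀ e : ℤ × ℤ, (fun l : (ℤ × ℤ) × ℕ => if u ∈ ball l.1 (2 * l.2 + 1) ∧ n ≤ l.2 then 1 / (l.2 : ℝ) else 0) (e, 3 * d) ≤ 1 / n := by
      intro e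
      simp only
      split_ifs with h
      · apply one_div_le_one_div_of_le hn0
        exact_mod_cast h.2
      · positivity
    have h4 := h3 ((b1 : ℤ) * d, 0)
    have h5 := h3 ((b2 : ℤ) * d, (w : ℤ))
    have h6 : 121 * (2 / (n : ℝ)) + (1 / n + 1 / n) ≤ 2000 / n := by
      rw [show 121 * (2 / (n : ℝ)) + (1 / n + 1 / n) = 244 / n by ring]
      exact div_le_div_of_nonneg_right (by norm_num) hn0.le
    linarith

theorem good_bound {w d : ℕ} {lam Kp : ℝ} {f : ℤ × ℤ → ℝ} {i : ℕ} {c : ℤ × ℤ} (h : goodB w d lam Kp f i c) :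
    i ≤ Nat.log 2 w := by
  have hc := h.1
  have h2 : (0 : ℤ) < 2 ^ i := by positivity
  have h3 : ((c.1 - 256 * 2 ^ i, c.2) : ℤ × ℤ) ∈ rect ((w : ℤ) + 1) (5 * w) d (w - d) := by
    apply hc
    rw [mem_ball']
    simp only
    constructor <;> constructor <;> linarith
  have h4 : ((c.1 + 256 * 2 ^ i, c.2) : ℤ × ℤ) ∈ rect ((w : ℤ) + 1) (5 * w) d (w - d) := by
    apply hc
    rw [mem_ball']
    simp only
    constructor <;> constructor <;> linarith
  rw [mem_rect] at h3 h4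
  have h5 := h3.1.1
  have h6 := h4.1.2
  simp only at h5 h6
  have h7 : (2 : ℤ) ^ i ≤ w := by linarith
  have h8 : 2 ^ i ≤ w := by exact_mod_cast h7
  have hw : w ≠ 0 := by
    have : 0 < 2 ^ i := by positivity
    omega
  exact (Nat.le_log_iff_pow_le (by norm_num) hw).mpr h8

theorem cover (w d : ℕ) (lam Kp : ℝ) (f : ℤ × ℤ → ℝ) (m : ℕ → ℕ) (k : ℕ) (hd : 1 ≤ d) (hw : 10 ^ 9 * d ≤ w)
    (hm : ∀ j, Kp * 2 ^ j ≤ m j) (v : ℤ × ℤ) (hv : v ∈ Lk w d lam f k) (hs : ¬ sgl w d lam Kp f v) :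
    ∃ j ∈ Finset.range (Nat.log 2 w + 1), cr j v ∈ Ak w d lam Kp f j (m j) k ∨
      ∀ u ∈ nbrs v, gp (Dw w \ Kk w d lam f k) (Qs w) (rq w) u = 0 := by
  classical
  unfold sgl at hs
  push Not at hs
  obtain ⟨i0, hi0⟩ := hs
  have hsp := Nat.findGreatest_spec (P := fun i => goodB w d lam Kp f i (cr i v)) (good_bound hi0) hi0
  have hgr : ∀ i, Nat.findGreatest (fun i => goodB w d lam Kp f i (cr i v)) (Nat.log 2 w) < i →
      ¬ goodB w d lam Kp f i (cr i v) := by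
    intro i hi hgi
    exact Nat.findGreatest_is_greatest hi (good_bound hgi) hgi
  obtain ⟨j, hj⟩ : ∃ j, j = Nat.findGreatest (fun i => goodB w d lam Kp f i (cr i v)) (Nat.log 2 w) := ⟨_, rfl⟩
  rw [← hj] at hsp hgr
  have h2 : (0 : ℤ) < 2 ^ j := by positivity
  have hjl : j ≤ Nat.log 2 w := good_bound hsp
  refine ⟨j, Finset.mem_range.mpr (by omega), ?_⟩
  have hsp' := hsp
  obtain ⟨hsub, H, hHc, hH, hHcard, hsep⟩ := hsp
  by_cases hact : act w d lam f j (m j) k (cr j v)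
  · left
    have h3 : cr j v ∈ rect ((w : ℤ) + 1) (5 * w) d (w - d) := by
      apply hsub
      rw [mem_ball']
      constructor <;> constructor <;> linarith
    rw [mem_rect] at h3
    unfold Ak
    rw [Finset.mem_filter, mem_rect]
    refine ⟨by omega, cr_cr j j le_rfl v, hact, hsp', ?_⟩
    intro i hi
    rw [cr_cr i j hi.le]
    exact hgr i hi
  · right
    have hex : ∃ k', ∃ z ∈ Lk w d lam f k', cr j z = cr j v := ⟨k, v, hv, rfl⟩
    have hk' : Nat.find hex ≤ k := Nat.find_min' hex ⟨v, hv, rfl⟩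
    have hmin : ∀ k'' < Nat.find hex, ∀ z ∈ Lk w d lam f k'', cr j z ≠ cr j v := by
      intro k'' hk'' z hz h
      exact Nat.find_min hex hk'' ⟨z, hz, h⟩
    have hfar : ¬ k ≤ Nat.find hex + m j := by
      intro h
      exact hact ⟨Nat.find hex, hk', h, Nat.find_spec hex, hmin⟩
    obtain ⟨z, hz, hzc⟩ := Nat.find_spec hex
    have hcast : (((128 * 2 ^ j : ℕ)) : ℤ) = 128 * 2 ^ j := by push_cast; ring
    have hsh := shield w d hd (by omega) lam f (rq w) (cr j v) (128 * 2 ^ j) H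
      (by
        intro y hy
        refine ⟨(hH y hy).1, ?_⟩
        have := hsub (hH y hy).2
        rw [mem_rect] at this ⊢
        omega) hHc
      (by
        intro a b ha hb r
        apply hsep a b
        · rw [hcast] at ha; exact ha
        · rw [hcast, show (2 : ℤ) * (128 * 2 ^ j) = 256 * 2 ^ j by ring] at hb; exact hb)
      (by
        intro y hy
        rw [hcast, show (2 : ℤ) * (128 * 2 ^ j) = 256 * 2 ^ j by ring] at hy
        have := hsub hy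
        rw [mem_rect] at this
        omega)
      (by
        rw [hcast, show (2 : ℤ) * (128 * 2 ^ j) = 256 * 2 ^ j by ring, Finset.disjoint_left]
        intro y hy hy2
        have := hsub hy
        rw [mem_rect] at this
        rw [mem_Qs] at hy2
        omega)
      (Nat.find hex) (Nat.find hex) (k - Nat.find hex) z hz
      (by
        have hb := cr_bd j z
        rw [hzc] at hb
        rw [hcast, mem_ball']
        constructor <;> constructor <;> linarith [hb.1, hb.2.1, hb.2.2.1, hb.2.2.2])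
      le_rfl
      (by
        have h5 : (H.card : ℝ) ≤ m j := hHcard.trans (hm j)
        have h6 : H.card ≤ m j := by exact_mod_cast h5
        omega)
    rw [show Nat.find hex + (k - Nat.find hex) = k by omega] at hsh
    intro u hu
    apply hsh
    have hb := cr_bd j v
    have h2' : (1 : ℤ) ≤ 2 ^ j := by omega
    have hu' : v.1 - 1 ≤ u.1 ∧ u.1 ≤ v.1 + 1 ∧ v.2 - 1 ≤ u.2 ∧ u.2 ≤ v.2 + 1 := by
      simp only [nbrs, Finset.mem_insert, Finset.mem_singleton] at hu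
      rcases hu with h | h | h | h <;> subst h <;> refine ⟨?_, ?_, ?_, ?_⟩ <;> dsimp only <;> linarith
    rw [hcast, mem_ball']
    constructor <;> constructor <;>
      linarith [hb.1, hb.2.1, hb.2.2.1, hb.2.2.2, hu'.1, hu'.2.1, hu'.2.2.1, hu'.2.2.2]

theorem _root_.H941.det_step : ∃ C kap : ℝ, 0 < C ∧ 0 < kap ∧ kap ≤ 1 ∧ ∀ (w d : ℕ) (lam Kp : ℝ) (f : ℤ × ℤ → ℝ) (m : ℕ → ℕ) (k : ℕ),
    1 ≤ d → 10 ^ 9 * d ≤ w → 0 ≤ lam → (∀ j, Kp * 2 ^ j ≤ m j) → (∀ i ≤ k, ∀ v ∈ Lk w d lam f i, v.1 ≠ 5 * w) →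
    ∃ (b1 b2 : ℕ) (Mx : ℕ → ℤ × ℤ → ℝ), b1 ≤ 5 * w / d ∧ b2 ≤ 5 * w / d ∧
      (∀ j, ∀ c ∈ Ak w d lam Kp f j (m j) k, ∃ z ∈ ball c (64 * 2 ^ j + 1),
        Mx j c = gp (Dw w \ Kk w d lam f k) (Qs w) (rq w) z) ∧
      lam / 10 ^ 8 ≤ Mk w d lam f k +
        ∑ v ∈ (Lk w d lam f k).filter (fun v => @decide (sgl w d lam Kp f v) (Classical.dec _) = true),
          (∑ z ∈ Qs w, rq w z * hit (Dw w) (Kk w d lam f k) z v) * max 0 (lam - f v) +
        C * ∑ j ∈ Finset.range (Nat.log 2 w + 1), ∑ c ∈ Ak w d lam Kp f j (m j) k, Mx j c * Phi kap w d lam f k c (2 ^ (j + 1)) +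
        C * (d / w) * (Phi kap w d lam f k ((b1 : ℤ) * d, 0) (3 * d) + Phi kap w d lam f k ((b2 : ℤ) * d, (w : ℤ)) (3 * d)) := by
  obtain ⟨C₁, hC₁, hdet⟩ := det_front
  obtain ⟨C₂, κ, hC₂, hκ, hκ1, hbox⟩ := box_slice
  refine ⟨C₁ * 2000 ^ 2 * C₂ * 970, κ, by positivity, hκ, hκ1, ?_⟩
  intro w d lam Kp f m k hd hw hlam hm hopen
  have hw9 : 10 ^ 9 ≤ w := by nlinarith
  have hw0 : (0 : ℝ) < w := by
    have : 0 < w := by omega
    exact_mod_cast this
  obtain ⟨Xt, Xb, hXt1, hXt2, hXb1, hXb2, hmain⟩ := hdet w d hd (by omega) (by omega) lam hlam f k hopen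
  have hdz : (0 : ℤ) < d := by exact_mod_cast hd
  -- the two extra squares
  have hXX : ∀ X : ℤ, (w : ℤ) ≤ X → X ≤ 5 * w → (((X / d).toNat : ℕ) : ℤ) * d ≤ X ∧
      X < (((X / d).toNat : ℕ) : ℤ) * d + d ∧ (X / d).toNat ≤ 5 * w / d := by
    intro X h1 h2
    have h3 : 0 ≤ X / d := Int.ediv_nonneg (by omega) hdz.le
    have h4 : (((X / d).toNat : ℕ) : ℤ) = X / d := Int.toNat_of_nonneg h3
    have h5 := Int.emod_add_mul_ediv X d
    have h6 := Int.emod_nonneg X hdz.ne'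
    have h7 := Int.emod_lt_of_pos X hdz
    rw [h4]
    refine ⟨by nlinarith, by nlinarith, ?_⟩
    have h8 : X / d ≤ (5 * (w : ℤ)) / d := Int.ediv_le_ediv hdz h2
    have h9 : (((X / d).toNat : ℕ) : ℤ) ≤ ((5 * w / d : ℕ) : ℤ) := by
      rw [h4]
      push_cast
      exact h8
    exact_mod_cast h9
  obtain ⟨b2, hb2⟩ : ∃ b2, b2 = (Xt / d).toNat := ⟨_, rfl⟩
  obtain ⟨b1, hb1⟩ : ∃ b1, b1 = (Xb / d).toNat := ⟨_, rfl⟩
  have hB2 := hXX Xt hXt1 hXt2
  have hB1 := hXX Xb hXb1 hXb2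
  rw [← hb2] at hB2
  rw [← hb1] at hB1
  have hMx : ∀ (j : ℕ) (c : ℤ × ℤ), ∃ z ∈ ball c (64 * 2 ^ j + 1), ∀ y ∈ ball c (64 * 2 ^ j + 1),
      gp (Dw w \ Kk w d lam f k) (Qs w) (rq w) y ≤ gp (Dw w \ Kk w d lam f k) (Qs w) (rq w) z := by
    intro j c
    apply Finset.exists_max_image
    refine ⟨c, ?_⟩
    have h2 : (0 : ℤ) < 2 ^ j := by positivity
    rw [mem_ball']
    constructor <;> constructor <;> linarith
  choose zz hz1 hz2 using hMx
  refine ⟨b1, b2, fun j c => gp (Dw w \ Kk w d lam f k) (Qs w) (rq w) (zz j c), hB1.2.2, hB2.2.2,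
    fun j c _ => ⟨zz j c, hz1 j c, rfl⟩, ?_⟩
  have hAk : ∀ j, ∀ c ∈ Ak w d lam Kp f j (m j) k, cr j c = c ∧ goodB w d lam Kp f j c := by
    intro j c hc
    classical
    simp only [Ak, Finset.mem_filter] at hc
    exact ⟨hc.2.1, hc.2.2.2.1⟩
  have hPhi0 : ∀ (c : ℤ × ℤ) (r : ℕ), 0 ≤ Phi κ w d lam f k c r := by
    intro c r
    unfold Phi
    exact Finset.sum_nonneg fun l _ => mul_nonneg (Real.rpow_nonneg (by norm_num) _) (Real.sqrt_nonneg _)
  have hgood_disj : ∀ j, ∀ c ∈ Ak w d lam Kp f j (m j) k, ∀ r : ℤ, r ≤ 256 * 2 ^ j → Disjoint (ball c r) (Qs w) := by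
    intro j c hc r hr
    rw [Finset.disjoint_left]
    intro y hy hy2
    have hs := (hAk j c hc).2.1
    have : y ∈ rect ((w : ℤ) + 1) (5 * w) d (w - d) := by
      apply hs
      rw [mem_ball'] at hy ⊢
      constructor <;> constructor <;> linarith [hy.1.1, hy.1.2, hy.2.1, hy.2.2]
    rw [mem_rect] at this
    rw [mem_Qs] at hy2
    omega
  have hedge_disj : ∀ (x y r : ℤ), (y = 0 ∨ y = w) → r ≤ 97 * d → Disjoint (ball (x, y) r) (Qs w) := by
    intro x y r hy hr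
    rw [Finset.disjoint_left]
    intro z hz hz2
    rw [mem_ball'] at hz
    rw [mem_Qs] at hz2
    simp only at hz
    omega
  obtain ⟨G, hG⟩ : ∃ G : (ℤ × ℤ) × ℕ → ℝ, ∀ i, G i = ∑ u ∈ (Dw w \ Kk w d lam f k).filter (fun u => u ∈ ball i.1 (2 * i.2 + 1)),
          |lam - hx (Dw w) (Kk w d lam f k) f u| *
          (gp (Dw w \ Kk w d lam f k) (Qs w) (rq w) u / (i.2 : ℝ) ^ 2 + (1 / (i.2 : ℝ)) * ∑ y ∈ nbrs u,
            |gp (Dw w \ Kk w d lam f k) (Qs w) (rq w) y - gp (Dw w \ Kk w d lam f k) (Qs w) (rq w) u|) := ⟨_, fun _ => rfl⟩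
  have hG0 : ∀ i, 0 ≤ G i := by
    intro i
    rw [hG]
    apply Finset.sum_nonneg
    intro u _
    apply mul_nonneg (abs_nonneg _)
    apply add_nonneg
    · exact div_nonneg (gp_nonneg _ _ _ (rq_nonneg w) u) (by positivity)
    · exact mul_nonneg (by positivity) (Finset.sum_nonneg fun y _ => abs_nonneg _)
  have hGgood : ∀ j, ∀ c ∈ Ak w d lam Kp f j (m j) k, G (c, 2 ^ (j + 1)) ≤
      C₂ * gp (Dw w \ Kk w d lam f k) (Qs w) (rq w) (zz j c) * Phi κ w d lam f k c (2 ^ (j + 1)) := by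
    intro j c hc
    rw [hG]
    have hcast : ((2 ^ (j + 1) : ℕ) : ℤ) = 2 * 2 ^ j := by push_cast; ring
    have h2 : (0 : ℤ) < 2 ^ j := by positivity
    refine hbox (Dw w) (Kk w d lam f k) (Qs w) (rq w) (fun u => lam - hx (Dw w) (Kk w d lam f k) f u) c (2 ^ (j + 1))
      (gp (Dw w \ Kk w d lam f k) (Qs w) (rq w) (zz j c)) Nat.one_le_two_pow (rq_nonneg w) ?_ ?_ ?_
    · rw [hcast]
      exact hgood_disj j c hc _ (by linarith)
    · intro z hz
      rw [hcast, show (32 : ℤ) * (2 * 2 ^ j) + 1 = 64 * 2 ^ j + 1 by ring] at hz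
      exact hz2 j c z hz
    · intro a ha ha'
      exact conn_good w d lam f k j hd c (hAk j c hc).2.1 a ha ha'
  have hGedge : ∀ (x y : ℤ), (y = 0 ∨ y = w) → G ((x, y), 3 * d) ≤
      C₂ * (970 * ((d : ℝ) / w)) * Phi κ w d lam f k (x, y) (3 * d) := by
    intro x y hy
    rw [hG]
    have hcast : ((3 * d : ℕ) : ℤ) = 3 * d := by push_cast; ring
    refine hbox (Dw w) (Kk w d lam f k) (Qs w) (rq w) (fun u => lam - hx (Dw w) (Kk w d lam f k) f u) (x, y) (3 * d)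
      (970 * ((d : ℝ) / w)) (by omega) (rq_nonneg w) ?_ ?_ ?_
    · rw [hcast]
      exact hedge_disj x y _ hy (by linarith)
    · intro z hz
      apply gp_edge w d hd hw _ Finset.sdiff_subset
      rw [hcast, mem_ball'] at hz
      simp only at hz
      omega
    · intro a ha ha'
      apply conn_edge w d lam f k hd hw a _ ha'
      rw [hcast, mem_ball'] at ha
      simp only at ha
      omega
  have H := hmain (rq w) (II w d (fun j => Ak w d lam Kp f j (m j) k) b1 b2) 2000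
    ((Lk w d lam f k).filter (fun v => @decide (sgl w d lam Kp f v) (Classical.dec _) = true)) (rq_nonneg w) (by norm_num)
    (by
      intro i hi
      rw [mem_II] at hi
      rcases hi with ⟨j, hj, c, hc, rfl⟩ | rfl | rfl
      · exact Nat.one_le_two_pow
      · show 1 ≤ 3 * d
        omega
      · show 1 ≤ 3 * d
        omega)
    (by
      intro u i hi hu
      refine overlap w d hd _ b1 b2 (fun j c hc => (hAk j c hc).1) u i.2 ?_
      rw [mem_II] at hi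
      rcases hi with ⟨j, hj, c, hc, rfl⟩ | rfl | rfl
      · exact Nat.one_le_two_pow
      · show 1 ≤ 3 * d
        omega
      · show 1 ≤ 3 * d
        omega)
    (by
      intro i hi
      rw [mem_II] at hi
      rcases hi with ⟨j, hj, c, hc, rfl⟩ | rfl | rfl
      · apply hgood_disj j c hc
        have hcast : ((2 ^ (j + 1) : ℕ) : ℤ) = 2 * 2 ^ j := by push_cast; ring
        have h2 : (1 : ℤ) ≤ 2 ^ j := one_le_pow₀ (by norm_num)
        show 2 * ((2 ^ (j + 1) : ℕ) : ℤ) + 1 ≤ _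
        rw [hcast]
        linarith
      · apply hedge_disj _ _ _ (Or.inl rfl)
        show 2 * ((3 * d : ℕ) : ℤ) + 1 ≤ _
        push_cast
        linarith
      · apply hedge_disj _ _ _ (Or.inr rfl)
        show 2 * ((3 * d : ℕ) : ℤ) + 1 ≤ _
        push_cast
        linarith)
    (Finset.filter_subset _ _)
    (by
      intro v hv hvS
      have hns : ¬ sgl w d lam Kp f v := by
        intro h
        apply hvS
        rw [Finset.mem_filter]
        exact ⟨hv, by simpa using h⟩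
      obtain ⟨j, hj, h | h⟩ := cover w d lam Kp f m k hd hw hm v hv hns
      · left
        refine ⟨(cr j v, 2 ^ (j + 1)), mem_II.mpr (Or.inl ⟨j, hj, cr j v, h, rfl⟩), ?_⟩
        have hcast : ((2 ^ (j + 1) : ℕ) : ℤ) = 2 * 2 ^ j := by push_cast; ring
        have h2 : (1 : ℤ) ≤ 2 ^ j := one_le_pow₀ (by norm_num)
        have hb := cr_bd j v
        show v ∈ ball (cr j v) (((2 ^ (j + 1) : ℕ) : ℤ) - 1)
        rw [hcast, mem_ball']
        constructor <;> constructor <;> linarith [hb.1, hb.2.1, hb.2.2.1, hb.2.2.2]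
      · right
        exact h)
    (by
      refine ⟨(((b1 : ℤ) * d, 0), 3 * d), mem_II.mpr (Or.inr (Or.inl rfl)), ?_⟩
      intro z hz
      show z ∈ ball ((b1 : ℤ) * d, 0) ((3 * d : ℕ) : ℤ)
      rw [mem_rect] at hz
      rw [mem_ball']
      push_cast
      constructor <;> constructor <;> linarith [hz.1.1, hz.1.2, hz.2.1, hz.2.2, hB1.1, hB1.2.1])
    (by
      refine ⟨(((b2 : ℤ) * d, (w : ℤ)), 3 * d), mem_II.mpr (Or.inr (Or.inr rfl)), ?_⟩
      intro z hz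
      show z ∈ ball ((b2 : ℤ) * d, (w : ℤ)) ((3 * d : ℕ) : ℤ)
      rw [mem_rect] at hz
      rw [mem_ball']
      push_cast
      constructor <;> constructor <;> linarith [hz.1.1, hz.1.2, hz.2.1, hz.2.2, hB2.1, hB2.2.1])
  -- left side
  have hL1 : ∑ v ∈ Kk w d lam f k, (∑ z ∈ Qs w, rq w z * hit (Dw w) (Kk w d lam f k) z v) * (lam - f v) =
      lam * (∑ v ∈ Kk w d lam f k, ∑ z ∈ Qs w, rq w z * hit (Dw w) (Kk w d lam f k) z v) - Mk w d lam f k := by
    unfold Mk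
    rw [Finset.mul_sum, ← Finset.sum_sub_distrib]
    apply Finset.sum_congr rfl
    intro v _
    ring
  have hL2 : 1 / 10 ^ 8 ≤ ∑ v ∈ Kk w d lam f k, ∑ z ∈ Qs w, rq w z * hit (Dw w) (Kk w d lam f k) z v := by
    rw [Finset.sum_comm]
    have hcard := Qs_card w hw9
    have hcard0 : (0 : ℝ) < ((Qs w).card : ℝ) := lt_of_lt_of_le (by positivity) hcard
    have hone : ∑ z ∈ Qs w, rq w z = 1 := by
      unfold rq
      rw [Finset.sum_const, nsmul_eq_mul]
      field_simp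
    calc (1 : ℝ) / 10 ^ 8 = ∑ z ∈ Qs w, rq w z * (1 / 10 ^ 8) := by
          rw [← Finset.sum_mul, hone, one_mul]
      _ ≤ _ := by
          apply Finset.sum_le_sum
          intro z hz
          rw [← Finset.mul_sum]
          apply mul_le_mul_of_nonneg_left _ (rq_nonneg w z)
          rw [mem_Qs] at hz
          exact hit_mass_ge w d hd hw _ (K0_sub w d lam f k).1 (K0_sub w d lam f k).2 z hz.1.1 hz.1.2
            (by omega) (by omega)
  have hL3 : lam / 10 ^ 8 ≤ lam * (∑ v ∈ Kk w d lam f k, ∑ z ∈ Qs w, rq w z * hit (Dw w) (Kk w d lam f k) z v) := by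
    have := mul_le_mul_of_nonneg_left hL2 hlam
    calc lam / 10 ^ 8 = lam * (1 / 10 ^ 8) := by ring
      _ ≤ _ := this
  simp only [← hG] at H
  rw [hL1] at H
  have hR1 := sum_II w d (fun j => Ak w d lam Kp f j (m j) k) b1 b2 G hG0
  have hR2 : ∑ j ∈ Finset.range (Nat.log 2 w + 1), ∑ c ∈ Ak w d lam Kp f j (m j) k, G (c, 2 ^ (j + 1)) ≤
      C₂ * ∑ j ∈ Finset.range (Nat.log 2 w + 1), ∑ c ∈ Ak w d lam Kp f j (m j) k,
        gp (Dw w \ Kk w d lam f k) (Qs w) (rq w) (zz j c) * Phi κ w d lam f k c (2 ^ (j + 1)) := by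
    rw [Finset.mul_sum]
    apply Finset.sum_le_sum
    intro j _
    rw [Finset.mul_sum]
    apply Finset.sum_le_sum
    intro c hc
    refine (hGgood j c hc).trans (le_of_eq ?_)
    ring
  have hR3 := hGedge ((b1 : ℤ) * d) 0 (Or.inl rfl)
  have hR4 := hGedge ((b2 : ℤ) * d) w (Or.inr rfl)
  have hS0 : 0 ≤ ∑ j ∈ Finset.range (Nat.log 2 w + 1), ∑ c ∈ Ak w d lam Kp f j (m j) k,
        gp (Dw w \ Kk w d lam f k) (Qs w) (rq w) (zz j c) * Phi κ w d lam f k c (2 ^ (j + 1)) :=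
    Finset.sum_nonneg fun j _ => Finset.sum_nonneg fun c _ =>
      mul_nonneg (gp_nonneg _ _ _ (rq_nonneg w) _) (hPhi0 c _)
  have hCC : 0 < C₁ * 2000 ^ 2 := by positivity
  have hR5 : C₁ * 2000 ^ 2 * ∑ i ∈ II w d (fun j => Ak w d lam Kp f j (m j) k) b1 b2, G i ≤
      C₁ * 2000 ^ 2 * C₂ * 970 * ∑ j ∈ Finset.range (Nat.log 2 w + 1), ∑ c ∈ Ak w d lam Kp f j (m j) k,
        gp (Dw w \ Kk w d lam f k) (Qs w) (rq w) (zz j c) * Phi κ w d lam f k c (2 ^ (j + 1)) +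
      C₁ * 2000 ^ 2 * C₂ * 970 * ((d : ℝ) / w) * (Phi κ w d lam f k ((b1 : ℤ) * d, 0) (3 * d) +
        Phi κ w d lam f k ((b2 : ℤ) * d, (w : ℤ)) (3 * d)) := by
    have hle := hR1.trans (add_le_add hR2 (add_le_add hR3 hR4))
    have h1 := mul_le_mul_of_nonneg_left hle hCC.le
    refine h1.trans ?_
    have h2 : C₁ * 2000 ^ 2 * C₂ * ∑ j ∈ Finset.range (Nat.log 2 w + 1), ∑ c ∈ Ak w d lam Kp f j (m j) k,
        gp (Dw w \ Kk w d lam f k) (Qs w) (rq w) (zz j c) * Phi κ w d lam f k c (2 ^ (j + 1)) ≤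
        C₁ * 2000 ^ 2 * C₂ * 970 * ∑ j ∈ Finset.range (Nat.log 2 w + 1), ∑ c ∈ Ak w d lam Kp f j (m j) k,
        gp (Dw w \ Kk w d lam f k) (Qs w) (rq w) (zz j c) * Phi κ w d lam f k c (2 ^ (j + 1)) := by
      apply mul_le_mul_of_nonneg_right _ hS0
      have : 0 < C₁ * 2000 ^ 2 * C₂ := by positivity
      linarith
    refine le_trans (le_of_eq ?_) (add_le_add h2 le_rfl)
    ring
  linarith

end H941.det_step
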