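import Pool.Agent.H941.Defs4
import Pool.Agent.H941.A3

open MeasureTheory ProbabilityTheory

namespace H941.energy_drop

theorem energy_drop_nbrs_sum (f : ℤ × ℤ → ℝ) (u : ℤ × ℤ) :
    ∑ y ∈ nbrs u, f y = f (u + (1, 0)) + f (u + (-1, 0)) + f (u + (0, 1)) + f (u + (0, -1)) := by
  obtain ⟨a, b⟩ := u
  have h : nbrs (a, b) = {(a + 1, b), (a - 1, b), (a, b + 1), (a, b - 1)} := rfl
  rw [h, Finset.sum_insert, Finset.sum_insert, Finset.sum_insert, Finset.sum_singleton]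
  · simp only [Prod.mk_add_mk, add_zero, ← sub_eq_add_neg]
    ring
  · simp only [Finset.mem_singleton, Prod.mk.injEq]
    omega
  · simp only [Finset.mem_insert, Finset.mem_singleton, Prod.mk.injEq]
    omega
  · simp only [Finset.mem_insert, Finset.mem_singleton, Prod.mk.injEq]
    omega

theorem energy_drop_mem_nbrs (x : ℤ × ℤ) :
    x ∈ nbrs (x + (1, 0)) ∧ x ∈ nbrs (x + (-1, 0)) ∧ x ∈ nbrs (x + (0, 1)) ∧ x ∈ nbrs (x + (0, -1)) := by
  obtain ⟨a, b⟩ := x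
  simp only [nbrs, Prod.mk_add_mk, Finset.mem_insert, Finset.mem_singleton, Prod.mk.injEq]
  omega

theorem energy_drop_shift (T : Finset (ℤ × ℤ)) (F : ℤ × ℤ → ℝ) (e : ℤ × ℤ)
    (h1 : ∀ x, x ∉ T → F x = 0) (h2 : ∀ x, x ∉ T → F (x + e) = 0) :
    ∑ x ∈ T, F (x + e) = ∑ x ∈ T, F x := by
  have a1 : ∑ᶠ x, F (x + e) = ∑ x ∈ T, F (x + e) := by
    apply finsum_eq_sum_of_support_subset
    intro x hx
    by_contra hc
    exact hx (h2 x (by simpa using hc))
  have a2 : ∑ᶠ x, F x = ∑ x ∈ T, F x := by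
    apply finsum_eq_sum_of_support_subset
    intro x hx
    by_contra hc
    exact hx (h1 x (by simpa using hc))
  rw [← a1, ← a2]
  exact finsum_comp_equiv (Equiv.addRight e)

/-- symmetric form -/
theorem energy_drop_sym (T E : Finset (ℤ × ℤ)) (hE : E ⊆ T) (hN : ∀ x ∈ E, nbrs x ⊆ T)
    (f h : ℤ × ℤ → ℝ) (hf : ∀ x, x ∉ E → f x = 0) (hh : ∀ x, x ∉ E → h x = 0) :
    ∑ x ∈ T, f x * (∑ y ∈ nbrs x, h y) = ∑ x ∈ T, h x * (∑ y ∈ nbrs x, f y) := by
  have key : ∀ e : ℤ × ℤ, ∑ x ∈ T, f x * h (x + e) = ∑ x ∈ T, h x * f (x + -e) := by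
    intro e
    have := energy_drop_shift T (fun x => h x * f (x + -e)) e
      (fun x hx => by
        show h x * f (x + -e) = 0
        rw [hh x (fun hc => hx (hE hc)), zero_mul])
      (fun x hx => by
        show h (x + e) * f (x + e + -e) = 0
        rw [add_neg_cancel_right, hf x (fun hc => hx (hE hc)), mul_zero])
    rw [← this]
    apply Finset.sum_congr rfl
    intro x _
    show f x * h (x + e) = h (x + e) * f (x + e + -e)
    rw [add_neg_cancel_right, mul_comm]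
  simp only [energy_drop_nbrs_sum, mul_add, Finset.sum_add_distrib]
  have k1 := key (1, 0)
  have k2 := key (-1, 0)
  have k3 := key (0, 1)
  have k4 := key (0, -1)
  simp only [Prod.neg_mk, neg_zero, neg_neg] at k1 k2 k3 k4
  linarith

theorem energy_drop_sq (T E : Finset (ℤ × ℤ)) (hE : E ⊆ T) (hN : ∀ x ∈ E, nbrs x ⊆ T)
    (u : ℤ × ℤ → ℝ) (hu : ∀ x, x ∉ E → u x = 0) :
    ∑ x ∈ T, ∑ y ∈ nbrs x, (u y) ^ 2 = 4 * ∑ x ∈ T, (u x) ^ 2 := by
  have key : ∀ e : ℤ × ℤ, (∀ x : ℤ × ℤ, x ∈ nbrs (x + e)) →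
      ∑ x ∈ T, (u (x + e)) ^ 2 = ∑ x ∈ T, (u x) ^ 2 := by
    intro e he
    refine energy_drop_shift T (fun x => (u x) ^ 2) e ?_ ?_
    · intro x hx
      show (u x) ^ 2 = 0
      rw [hu x (fun hc => hx (hE hc))]; norm_num
    · intro x hx
      show (u (x + e)) ^ 2 = 0
      rw [hu (x + e) (fun hc => hx (hN _ hc (he x)))]; norm_num
  simp only [energy_drop_nbrs_sum (fun y => (u y) ^ 2), Finset.sum_add_distrib]
  rw [key (1, 0) fun x => (energy_drop_mem_nbrs x).1,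
    key (-1, 0) fun x => (energy_drop_mem_nbrs x).2.1,
    key (0, 1) fun x => (energy_drop_mem_nbrs x).2.2.1,
    key (0, -1) fun x => (energy_drop_mem_nbrs x).2.2.2]
  ring

theorem energy_drop_gp_off (E Q : Finset (ℤ × ℤ)) (ρ : ℤ × ℤ → ℝ) (x : ℤ × ℤ) (hx : x ∉ E) :
    gp E Q ρ x = 0 := by
  unfold gp
  apply Finset.sum_eq_zero
  intro z _
  rw [(green_basic E).2.1 z x (Or.inr hx), mul_zero]

open Classical in
theorem energy_drop_gp_on (E Q : Finset (ℤ × ℤ)) (ρ : ℤ × ℤ → ℝ) (x : ℤ × ℤ) (hx : x ∈ E) :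
    gp E Q ρ x = (if x ∈ Q then ρ x else 0) + (1 / 4) * ∑ y ∈ nbrs x, gp E Q ρ y := by
  obtain ⟨_, _, hsym, _, hrec, _⟩ := green_basic E
  unfold gp
  have h1 : ∀ z ∈ Q, ρ z * green E z x =
      (if x = z then ρ z else 0) + (1 / 4) * ∑ y ∈ nbrs x, ρ z * green E z y := by
    intro z _
    rw [hsym z x, hrec x hx z, mul_add, mul_ite, mul_one, mul_zero]
    congr 1
    rw [Finset.mul_sum, Finset.mul_sum, Finset.mul_sum]
    apply Finset.sum_congr rfl
    intro y _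
    rw [hsym y z]
    ring
  rw [Finset.sum_congr rfl h1, Finset.sum_add_distrib, Finset.sum_ite_eq]
  congr 1
  rw [← Finset.mul_sum, Finset.sum_comm]

theorem _root_.H941.energy_drop (D A B Q S : Finset (ℤ × ℤ)) (hAB : A ⊆ B) (ρ : ℤ × ℤ → ℝ) :
    ∑ x ∈ S, en (fun x => gp (D \ A) Q ρ x - gp (D \ B) Q ρ x) x ≤
      8 * (∑ x ∈ Q, ∑ y ∈ Q, ρ x * green (D \ A) x y * ρ y - ∑ x ∈ Q, ∑ y ∈ Q, ρ x * green (D \ B) x y * ρ y) := by
  classical
  set E1 := D \ A with hE1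
  set E2 := D \ B with hE2
  have hsub : E2 ⊆ E1 := Finset.sdiff_subset_sdiff (le_refl D) hAB
  set g1 := gp E1 Q ρ with hg1
  set g2 := gp E2 Q ρ with hg2
  set u : ℤ × ℤ → ℝ := fun x => g1 x - g2 x with hu
  have hg1off : ∀ x, x ∉ E1 → g1 x = 0 := fun x hx => energy_drop_gp_off E1 Q ρ x hx
  have hg2off : ∀ x, x ∉ E2 → g2 x = 0 := fun x hx => energy_drop_gp_off E2 Q ρ x hx
  have hg2off' : ∀ x, x ∉ E1 → g2 x = 0 := fun x hx => hg2off x (fun hc => hx (hsub hc))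
  have huoff : ∀ x, x ∉ E1 → u x = 0 := by
    intro x hx
    show g1 x - g2 x = 0
    rw [hg1off x hx, hg2off' x hx, sub_zero]
  set T : Finset (ℤ × ℤ) := S ∪ (E1 ∪ E1.biUnion nbrs) with hT
  have hST : S ⊆ T := Finset.subset_union_left
  have hE1T : E1 ⊆ T := fun x hx => Finset.mem_union_right _ (Finset.mem_union_left _ hx)
  have hNT : ∀ x ∈ E1, nbrs x ⊆ T := fun x hx y hy =>
    Finset.mem_union_right _ (Finset.mem_union_right _ (Finset.mem_biUnion.mpr ⟨x, hx, hy⟩))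
  -- step 1
  have s1 : ∑ x ∈ S, en u x ≤ ∑ x ∈ T, en u x := by
    apply Finset.sum_le_sum_of_subset_of_nonneg hST
    intro x _ _
    unfold en
    exact Finset.sum_nonneg fun y _ => sq_nonneg _
  -- step 2
  have s2 : ∑ x ∈ T, en u x = 8 * ∑ x ∈ T, u x * (u x - (1 / 4) * ∑ y ∈ nbrs x, u y) := by
    have e1 : ∀ x, en u x = 4 * (u x) ^ 2 - 2 * (u x * ∑ y ∈ nbrs x, u y) + ∑ y ∈ nbrs x, (u y) ^ 2 := by
      intro x
      unfold en
      rw [energy_drop_nbrs_sum (fun y => (u x - u y) ^ 2), energy_drop_nbrs_sum u,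
        energy_drop_nbrs_sum (fun y => (u y) ^ 2)]
      ring
    have e2 := energy_drop_sq T E1 hE1T hNT u huoff
    calc ∑ x ∈ T, en u x
        = ∑ x ∈ T, (4 * (u x) ^ 2 - 2 * (u x * ∑ y ∈ nbrs x, u y)) + ∑ x ∈ T, ∑ y ∈ nbrs x, (u y) ^ 2 := by
          rw [← Finset.sum_add_distrib]
          exact Finset.sum_congr rfl fun x _ => e1 x
      _ = ∑ x ∈ T, (4 * (u x) ^ 2 - 2 * (u x * ∑ y ∈ nbrs x, u y)) + ∑ x ∈ T, 4 * (u x) ^ 2 := by
          rw [e2, Finset.mul_sum]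
      _ = 8 * ∑ x ∈ T, u x * (u x - (1 / 4) * ∑ y ∈ nbrs x, u y) := by
          rw [← Finset.sum_add_distrib, Finset.mul_sum]
          apply Finset.sum_congr rfl
          intro x _
          ring
  -- step 3
  have s3 : ∑ x ∈ T, u x * (u x - (1 / 4) * ∑ y ∈ nbrs x, u y) = ∑ x ∈ Q, ρ x * u x := by
    have hLg1 : ∀ x ∈ E1, g1 x - (1 / 4) * ∑ y ∈ nbrs x, g1 y = if x ∈ Q then ρ x else 0 := by
      intro x hx
      have := energy_drop_gp_on E1 Q ρ x hx
      rw [← hg1] at this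
      linarith
    have hLg2 : ∀ x ∈ E2, g2 x - (1 / 4) * ∑ y ∈ nbrs x, g2 y = if x ∈ Q then ρ x else 0 := by
      intro x hx
      have := energy_drop_gp_on E2 Q ρ x hx
      rw [← hg2] at this
      linarith
    have hsum : ∀ x, ∑ y ∈ nbrs x, u y = ∑ y ∈ nbrs x, g1 y - ∑ y ∈ nbrs x, g2 y := by
      intro x
      rw [← Finset.sum_sub_distrib]
    -- sum u * L g2 = sum g2 * L u = 0
    have sym := energy_drop_sym T E1 hE1T hNT u g2 huoff hg2off'
    have z1 : ∑ x ∈ T, g2 x * (u x - (1 / 4) * ∑ y ∈ nbrs x, u y) = 0 := by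
      apply Finset.sum_eq_zero
      intro x _
      by_cases hx : x ∈ E2
      · have a := hLg1 x (hsub hx)
        have b := hLg2 x hx
        have : u x - (1 / 4) * ∑ y ∈ nbrs x, u y = 0 := by
          rw [hsum x]
          show g1 x - g2 x - _ = 0
          linarith
        rw [this, mul_zero]
      · rw [hg2off x hx, zero_mul]
    have z2 : ∑ x ∈ T, u x * (g2 x - (1 / 4) * ∑ y ∈ nbrs x, g2 y) = 0 := by
      rw [← z1]
      have h1 : ∑ x ∈ T, u x * (g2 x - (1 / 4) * ∑ y ∈ nbrs x, g2 y) =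
          ∑ x ∈ T, u x * g2 x - (1 / 4) * ∑ x ∈ T, u x * ∑ y ∈ nbrs x, g2 y := by
        rw [Finset.mul_sum, ← Finset.sum_sub_distrib]
        exact Finset.sum_congr rfl fun x _ => by ring
      have h2 : ∑ x ∈ T, g2 x * (u x - (1 / 4) * ∑ y ∈ nbrs x, u y) =
          ∑ x ∈ T, u x * g2 x - (1 / 4) * ∑ x ∈ T, g2 x * ∑ y ∈ nbrs x, u y := by
        rw [Finset.mul_sum, ← Finset.sum_sub_distrib]
        exact Finset.sum_congr rfl fun x _ => by ring
      rw [h1, h2, sym]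
    have z3 : ∑ x ∈ T, u x * (u x - (1 / 4) * ∑ y ∈ nbrs x, u y) =
        ∑ x ∈ T, u x * (g1 x - (1 / 4) * ∑ y ∈ nbrs x, g1 y) := by
      rw [← sub_eq_zero, ← Finset.sum_sub_distrib, ← neg_eq_zero, ← Finset.sum_neg_distrib, ← z2]
      apply Finset.sum_congr rfl
      intro x _
      rw [hsum x]
      simp only [hu]
      ring
    rw [z3]
    have z4 : ∑ x ∈ T, u x * (g1 x - (1 / 4) * ∑ y ∈ nbrs x, g1 y) =
        ∑ x ∈ T, (if x ∈ Q then ρ x * u x else 0) := by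
      apply Finset.sum_congr rfl
      intro x _
      by_cases hx : x ∈ E1
      · rw [hLg1 x hx]
        split_ifs <;> ring
      · rw [huoff x hx]
        split_ifs <;> ring
    rw [z4, ← Finset.sum_filter]
    apply Finset.sum_subset
    · intro x hx
      exact (Finset.mem_filter.mp hx).2
    · intro x hxQ hx
      have hxE : x ∉ E1 := by
        intro hc
        exact hx (Finset.mem_filter.mpr ⟨hE1T hc, hxQ⟩)
      rw [huoff x hxE, mul_zero]
  have s4 : ∑ x ∈ Q, ρ x * u x = ∑ x ∈ Q, ∑ y ∈ Q, ρ x * green E1 x y * ρ y -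
      ∑ x ∈ Q, ∑ y ∈ Q, ρ x * green E2 x y * ρ y := by
    rw [← Finset.sum_sub_distrib]
    apply Finset.sum_congr rfl
    intro x _
    simp only [hu, hg1, hg2, gp]
    rw [mul_sub, Finset.mul_sum, Finset.mul_sum]
    congr 1
    · apply Finset.sum_congr rfl
      intro y _
      rw [(green_basic E1).2.2.1 y x]; ring
    · apply Finset.sum_congr rfl
      intro y _
      rw [(green_basic E2).2.2.1 y x]; ring
  calc ∑ x ∈ S, en u x ≤ ∑ x ∈ T, en u x := s1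
    _ = 8 * _ := by rw [s2, s3, s4]

end H941.energy_drop
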