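import Pool.Agent.H941.Defs4

open MeasureTheory ProbabilityTheory

namespace H941.poincare

/-- total variation bound, one-sided -/
theorem poinc_tv0 (g : ℤ → ℝ) (a b : ℤ) (x : ℤ) (hx : a ≤ x) (k : ℕ) (hk : x + k ≤ b) :
    |g (x + k) - g x| ≤ ∑ s ∈ Finset.Ico a b, |g (s + 1) - g s| := by
  have h1 : |g (x + k) - g x| ≤ ∑ s ∈ Finset.Ico x (x + k), |g (s + 1) - g s| := by
    clear hk
    induction k with
    | zero => simp
    | succ k ih =>
      have h2 : Finset.Ico x (x + ((k + 1 : ℕ) : ℤ)) = insert (x + (k : ℤ)) (Finset.Ico x (x + (k : ℤ))) := by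
        ext s
        simp only [Finset.mem_Ico, Finset.mem_insert]
        push_cast
        constructor
        · intro h; omega
        · intro h; omega
      rw [h2, Finset.sum_insert (by simp)]
      have h3 : g (x + ((k + 1 : ℕ) : ℤ)) - g x = (g (x + k + 1) - g (x + k)) + (g (x + k) - g x) := by
        push_cast
        rw [← add_assoc]
        ring
      rw [h3]
      exact (abs_add_le _ _).trans (by linarith)
  refine h1.trans (Finset.sum_le_sum_of_subset_of_nonneg ?_ (fun _ _ _ => abs_nonneg _))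
  intro s hs
  simp only [Finset.mem_Ico] at hs ⊢
  omega

theorem poinc_tv (g : ℤ → ℝ) (a b : ℤ) (x y : ℤ) (hx : x ∈ Finset.Icc a b) (hy : y ∈ Finset.Icc a b) :
    |g x - g y| ≤ ∑ s ∈ Finset.Ico a b, |g (s + 1) - g s| := by
  simp only [Finset.mem_Icc] at hx hy
  rcases le_total x y with h | h
  · obtain ⟨k, hk⟩ := Int.le.dest h
    have := poinc_tv0 g a b x hx.1 k (by omega)
    rw [hk] at this
    rwa [abs_sub_comm]
  · obtain ⟨k, hk⟩ := Int.le.dest h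
    have := poinc_tv0 g a b y hy.1 k (by omega)
    rwa [hk] at this

theorem poinc_key (f : ℤ → ℤ → ℝ) (a1 b1 : ℤ) (n : ℕ) (hn : 1 ≤ n) (T : Finset ℤ)
    (hT : T ⊆ Finset.Icc a1 (a1 + 2 * n)) (hcard : n ≤ 64 * T.card)
    (hz : ∀ t ∈ T, ∃ r ∈ Finset.Icc b1 (b1 + 2 * n), f t r = 0) :
    (∑ s ∈ Finset.Icc a1 (a1 + 2 * n), ∑ r ∈ Finset.Icc b1 (b1 + 2 * n), |f s r|) ^ 2 ≤
      5971968 * (n : ℝ) ^ 4 *
       ((∑ r ∈ Finset.Icc b1 (b1 + 2 * n), ∑ s ∈ Finset.Ico a1 (a1 + 2 * n), (f (s + 1) r - f s r) ^ 2) +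
        ∑ s ∈ Finset.Icc a1 (a1 + 2 * n), ∑ r ∈ Finset.Ico b1 (b1 + 2 * n), (f s (r + 1) - f s r) ^ 2) := by
  set A := Finset.Icc a1 (a1 + 2 * n) with hA
  set B := Finset.Icc b1 (b1 + 2 * n) with hB
  set A' := Finset.Ico a1 (a1 + 2 * n) with hA'
  set B' := Finset.Ico b1 (b1 + 2 * n) with hB'
  have cA : (A.card : ℝ) = 2 * n + 1 := by
    rw [hA, Int.card_Icc]
    have : (a1 + 2 * (n : ℤ) + 1 - a1).toNat = 2 * n + 1 := by omega
    rw [this]; push_cast; ring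
  have cB : (B.card : ℝ) = 2 * n + 1 := by
    rw [hB, Int.card_Icc]
    have : (b1 + 2 * (n : ℤ) + 1 - b1).toNat = 2 * n + 1 := by omega
    rw [this]; push_cast; ring
  have cA' : (A'.card : ℝ) = 2 * n := by
    rw [hA', Int.card_Ico]
    have : (a1 + 2 * (n : ℤ) - a1).toNat = 2 * n := by omega
    rw [this]; push_cast; ring
  have cB' : (B'.card : ℝ) = 2 * n := by
    rw [hB', Int.card_Ico]
    have : (b1 + 2 * (n : ℤ) - b1).toNat = 2 * n := by omega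
    rw [this]; push_cast; ring
  have hn' : (1 : ℝ) ≤ n := by exact_mod_cast hn
  set H : ℤ → ℝ := fun r => ∑ s ∈ A', |f (s + 1) r - f s r| with hH
  set V : ℤ → ℝ := fun t => ∑ r ∈ B', |f t (r + 1) - f t r| with hV
  have hHn : ∀ r, 0 ≤ H r := fun r => Finset.sum_nonneg (fun _ _ => abs_nonneg _)
  have hVn : ∀ r, 0 ≤ V r := fun r => Finset.sum_nonneg (fun _ _ => abs_nonneg _)
  have pt : ∀ s ∈ A, ∀ r ∈ B, ∀ t ∈ T, |f s r| ≤ H r + V t := by
    intro s hs r hr t ht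
    obtain ⟨r', hr', h0⟩ := hz t ht
    have e1 := poinc_tv (fun s => f s r) a1 (a1 + 2 * n) s t hs (hT ht)
    have e2 := poinc_tv (fun r => f t r) b1 (b1 + 2 * n) r r' hr hr'
    rw [h0, sub_zero] at e2
    have e3 : f s r = (f s r - f t r) + f t r := by ring
    rw [e3]
    exact (abs_add_le _ _).trans (add_le_add e1 e2)
  set m : ℝ := (T.card : ℝ) with hm
  have hm1 : (n : ℝ) ≤ 64 * m := by rw [hm]; exact_mod_cast hcard
  have hmpos : 0 < m := by nlinarith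
  set SH := ∑ r ∈ B, H r with hSH
  set SV := ∑ t ∈ A, V t with hSV
  have hSHn : 0 ≤ SH := Finset.sum_nonneg (fun _ _ => hHn _)
  have hSVn : 0 ≤ SV := Finset.sum_nonneg (fun _ _ => hVn _)
  set X := ∑ s ∈ A, ∑ r ∈ B, |f s r| with hX
  have hXn : 0 ≤ X := Finset.sum_nonneg (fun _ _ => Finset.sum_nonneg (fun _ _ => abs_nonneg _))
  have hVT : ∑ t ∈ T, V t ≤ SV := Finset.sum_le_sum_of_subset_of_nonneg hT (fun _ _ _ => hVn _)
  have main : m * X ≤ m * (2 * n + 1) * SH + (2 * n + 1) ^ 2 * SV := by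
    have h1 : m * X = ∑ s ∈ A, ∑ r ∈ B, ∑ t ∈ T, |f s r| := by
      rw [hX, Finset.mul_sum]
      refine Finset.sum_congr rfl (fun s _ => ?_)
      rw [Finset.mul_sum]
      refine Finset.sum_congr rfl (fun r _ => ?_)
      rw [Finset.sum_const, nsmul_eq_mul]
    have h2 : ∑ s ∈ A, ∑ r ∈ B, ∑ t ∈ T, |f s r| ≤ ∑ s ∈ A, ∑ r ∈ B, ∑ t ∈ T, (H r + V t) :=
      Finset.sum_le_sum (fun s hs => Finset.sum_le_sum (fun r hr => Finset.sum_le_sum (fun t ht => pt s hs r hr t ht)))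
    have h3 : ∑ s ∈ A, ∑ r ∈ B, ∑ t ∈ T, (H r + V t) = m * (2 * n + 1) * SH + (2 * n + 1) ^ 2 * ∑ t ∈ T, V t := by
      simp only [Finset.sum_add_distrib, Finset.sum_const, nsmul_eq_mul]
      rw [← Finset.mul_sum]
      rw [cA, cB]
      ring
    rw [h1]
    refine h2.trans ?_
    rw [h3]
    have : (2 * (n : ℝ) + 1) ^ 2 * ∑ t ∈ T, V t ≤ (2 * (n : ℝ) + 1) ^ 2 * SV :=
      mul_le_mul_of_nonneg_left hVT (by positivity)
    linarith
  have hX2 : X ≤ 576 * n * (SH + SV) := by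
    have h1 : m * X ≤ m * (576 * n * (SH + SV)) := by
      have a1 : m * (2 * (n : ℝ) + 1) * SH ≤ m * (576 * n) * SH := by
        apply mul_le_mul_of_nonneg_right _ hSHn
        apply mul_le_mul_of_nonneg_left _ hmpos.le
        linarith
      have a2 : (2 * (n : ℝ) + 1) ^ 2 * SV ≤ m * (576 * n) * SV := by
        apply mul_le_mul_of_nonneg_right _ hSVn
        have : (2 * (n : ℝ) + 1) ^ 2 ≤ 9 * (n : ℝ) * n := by nlinarith
        nlinarith
      calc m * X ≤ m * (2 * n + 1) * SH + (2 * n + 1) ^ 2 * SV := main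
        _ ≤ m * (576 * n) * SH + m * (576 * n) * SV := add_le_add a1 a2
        _ = m * (576 * n * (SH + SV)) := by ring
    exact le_of_mul_le_mul_left h1 hmpos
  -- Cauchy-Schwarz
  have cs1 : SH ^ 2 ≤ ((2 * n + 1) * (2 * n)) * ∑ r ∈ B, ∑ s ∈ A', (f (s + 1) r - f s r) ^ 2 := by
    have h1 : SH ^ 2 ≤ (B.card : ℝ) * ∑ r ∈ B, (H r) ^ 2 := sq_sum_le_card_mul_sum_sq
    have h2 : ∑ r ∈ B, (H r) ^ 2 ≤ ∑ r ∈ B, (2 * n) * ∑ s ∈ A', (f (s + 1) r - f s r) ^ 2 := by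
      refine Finset.sum_le_sum (fun r _ => ?_)
      have h3 : (H r) ^ 2 ≤ (A'.card : ℝ) * ∑ s ∈ A', |f (s + 1) r - f s r| ^ 2 := sq_sum_le_card_mul_sum_sq
      simpa [cA', sq_abs] using h3
    rw [← Finset.mul_sum] at h2
    rw [cB] at h1
    calc SH ^ 2 ≤ (2 * n + 1) * ∑ r ∈ B, (H r) ^ 2 := h1
      _ ≤ (2 * n + 1) * ((2 * n) * ∑ r ∈ B, ∑ s ∈ A', (f (s + 1) r - f s r) ^ 2) :=
        mul_le_mul_of_nonneg_left h2 (by positivity)
      _ = _ := by ring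
  have cs2 : SV ^ 2 ≤ ((2 * n + 1) * (2 * n)) * ∑ s ∈ A, ∑ r ∈ B', (f s (r + 1) - f s r) ^ 2 := by
    have h1 : SV ^ 2 ≤ (A.card : ℝ) * ∑ r ∈ A, (V r) ^ 2 := sq_sum_le_card_mul_sum_sq
    have h2 : ∑ s ∈ A, (V s) ^ 2 ≤ ∑ s ∈ A, (2 * n) * ∑ r ∈ B', (f s (r + 1) - f s r) ^ 2 := by
      refine Finset.sum_le_sum (fun s _ => ?_)
      have h3 : (V s) ^ 2 ≤ (B'.card : ℝ) * ∑ r ∈ B', |f s (r + 1) - f s r| ^ 2 := sq_sum_le_card_mul_sum_sq
      simpa [cB', sq_abs] using h3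
    rw [← Finset.mul_sum] at h2
    rw [cA] at h1
    calc SV ^ 2 ≤ (2 * n + 1) * ∑ r ∈ A, (V r) ^ 2 := h1
      _ ≤ (2 * n + 1) * ((2 * n) * ∑ s ∈ A, ∑ r ∈ B', (f s (r + 1) - f s r) ^ 2) :=
        mul_le_mul_of_nonneg_left h2 (by positivity)
      _ = _ := by ring
  set E1 := ∑ r ∈ B, ∑ s ∈ A', (f (s + 1) r - f s r) ^ 2 with hE1
  set E2 := ∑ s ∈ A, ∑ r ∈ B', (f s (r + 1) - f s r) ^ 2 with hE2
  have hE1n : 0 ≤ E1 := Finset.sum_nonneg (fun _ _ => Finset.sum_nonneg (fun _ _ => sq_nonneg _))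
  have hE2n : 0 ≤ E2 := Finset.sum_nonneg (fun _ _ => Finset.sum_nonneg (fun _ _ => sq_nonneg _))
  have h9 : ((2 * (n : ℝ) + 1) * (2 * n)) ≤ 9 * (n : ℝ) ^ 2 := by nlinarith
  have cs1' : SH ^ 2 ≤ 9 * (n : ℝ) ^ 2 * E1 := cs1.trans (mul_le_mul_of_nonneg_right h9 hE1n)
  have cs2' : SV ^ 2 ≤ 9 * (n : ℝ) ^ 2 * E2 := cs2.trans (mul_le_mul_of_nonneg_right h9 hE2n)
  have hG : (SH + SV) ^ 2 ≤ 18 * (n : ℝ) ^ 2 * (E1 + E2) := by nlinarith [sq_nonneg (SH - SV)]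
  calc X ^ 2 ≤ (576 * n * (SH + SV)) ^ 2 := by
        apply pow_le_pow_left₀ hXn hX2
    _ = 331776 * (n : ℝ) ^ 2 * (SH + SV) ^ 2 := by ring
    _ ≤ 331776 * (n : ℝ) ^ 2 * (18 * (n : ℝ) ^ 2 * (E1 + E2)) :=
        mul_le_mul_of_nonneg_left hG (by positivity)
    _ = 5971968 * (n : ℝ) ^ 4 * (E1 + E2) := by ring

theorem poinc_walk (φ : ℤ × ℤ → ℤ) (hφ : ∀ u v, grid.Adj u v → |φ u - φ v| ≤ 1) {a b : ℤ × ℤ}
    (p : grid.Walk a b) : ∀ t, ((φ a ≤ t ∧ t ≤ φ b) ∨ (φ b ≤ t ∧ t ≤ φ a)) → ∃ z ∈ p.support, φ z = t := by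
  induction p with
  | @nil u =>
    intro t ht
    refine ⟨u, by simp, ?_⟩
    omega
  | @cons u v w h q ih =>
    intro t ht
    by_cases h0 : φ u = t
    · exact ⟨u, by simp, h0⟩
    · have h1 := hφ u v h
      rw [abs_le] at h1
      obtain ⟨z, hz, hz'⟩ := ih t (by omega)
      exact ⟨z, by simp [hz], hz'⟩

theorem poinc_E1 (u : ℤ × ℤ → ℝ) (a1 a2 b1 b2 : ℤ) :
    (∑ r ∈ Finset.Icc b1 b2, ∑ s ∈ Finset.Ico a1 a2, (u (s + 1, r) - u (s, r)) ^ 2) ≤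
      ∑ x ∈ rect a1 a2 b1 b2, ∑ y ∈ nbrs x ∩ rect a1 a2 b1 b2, (u x - u y) ^ 2 := by
  rw [Finset.sum_comm, ← Finset.sum_product' (Finset.Ico a1 a2) (Finset.Icc b1 b2) (fun s r => (u (s + 1, r) - u (s, r)) ^ 2)]
  calc _ ≤ ∑ x ∈ Finset.Ico a1 a2 ×ˢ Finset.Icc b1 b2, ∑ y ∈ nbrs x ∩ rect a1 a2 b1 b2, (u x - u y) ^ 2 := by
        refine Finset.sum_le_sum (fun x hx => ?_)
        simp only [Finset.mem_product, Finset.mem_Ico, Finset.mem_Icc] at hx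
        have h1 : (u x - u (x.1 + 1, x.2)) ^ 2 ≤ ∑ y ∈ nbrs x ∩ rect a1 a2 b1 b2, (u x - u y) ^ 2 := by
          apply Finset.single_le_sum (f := fun y => (u x - u y) ^ 2) (fun _ _ => sq_nonneg _)
          simp only [Finset.mem_inter, nbrs, rect, Finset.mem_insert, Finset.mem_product, Finset.mem_Icc, true_or, true_and]
          omega
        have h2 : (u (x.1 + 1, x.2) - u (x.1, x.2)) ^ 2 = (u x - u (x.1 + 1, x.2)) ^ 2 := by
          rw [Prod.mk.eta]; ring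
        rw [h2]; exact h1
    _ ≤ _ := by
        apply Finset.sum_le_sum_of_subset_of_nonneg
        · intro x hx
          simp only [rect, Finset.mem_product, Finset.mem_Ico, Finset.mem_Icc] at hx ⊢
          omega
        · intro _ _ _
          exact Finset.sum_nonneg (fun _ _ => sq_nonneg _)

theorem poinc_E2 (u : ℤ × ℤ → ℝ) (a1 a2 b1 b2 : ℤ) :
    (∑ s ∈ Finset.Icc a1 a2, ∑ r ∈ Finset.Ico b1 b2, (u (s, r + 1) - u (s, r)) ^ 2) ≤
      ∑ x ∈ rect a1 a2 b1 b2, ∑ y ∈ nbrs x ∩ rect a1 a2 b1 b2, (u x - u y) ^ 2 := by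
  rw [← Finset.sum_product' (Finset.Icc a1 a2) (Finset.Ico b1 b2) (fun s r => (u (s, r + 1) - u (s, r)) ^ 2)]
  calc _ ≤ ∑ x ∈ Finset.Icc a1 a2 ×ˢ Finset.Ico b1 b2, ∑ y ∈ nbrs x ∩ rect a1 a2 b1 b2, (u x - u y) ^ 2 := by
        refine Finset.sum_le_sum (fun x hx => ?_)
        simp only [Finset.mem_product, Finset.mem_Ico, Finset.mem_Icc] at hx
        have h1 : (u x - u (x.1, x.2 + 1)) ^ 2 ≤ ∑ y ∈ nbrs x ∩ rect a1 a2 b1 b2, (u x - u y) ^ 2 := by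
          apply Finset.single_le_sum (f := fun y => (u x - u y) ^ 2) (fun _ _ => sq_nonneg _)
          simp only [Finset.mem_inter, nbrs, rect, Finset.mem_insert, Finset.mem_product, Finset.mem_Icc, true_or, or_true, true_and]
          omega
        have h2 : (u (x.1, x.2 + 1) - u (x.1, x.2)) ^ 2 = (u x - u (x.1, x.2 + 1)) ^ 2 := by
          rw [Prod.mk.eta]; ring
        rw [h2]; exact h1
    _ ≤ _ := by
        apply Finset.sum_le_sum_of_subset_of_nonneg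
        · intro x hx
          simp only [rect, Finset.mem_product, Finset.mem_Ico, Finset.mem_Icc] at hx ⊢
          omega
        · intro _ _ _
          exact Finset.sum_nonneg (fun _ _ => sq_nonneg _)

theorem _root_.H941.poincare : ∃ C : ℝ, 0 < C ∧ ∀ (u : ℤ × ℤ → ℝ) (x0 : ℤ × ℤ) (n : ℕ) (a b : ℤ × ℤ) (p : grid.Walk a b), 1 ≤ n →
    (∀ z ∈ p.support, z ∈ ball x0 n ∧ u z = 0) → ((n : ℤ) ≤ 64 * |a.1 - b.1| ∨ (n : ℤ) ≤ 64 * |a.2 - b.2|) →
    (∑ z ∈ ball x0 n, |u z|) ^ 2 ≤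
      C * (n : ℝ) ^ 4 * ∑ x ∈ ball x0 n, ∑ y ∈ nbrs x ∩ ball x0 n, (u x - u y) ^ 2 := by
  refine ⟨11943936, by norm_num, ?_⟩
  intro u x0 n a b p hn hp hab
  have hx1 : x0.1 + (n : ℤ) = (x0.1 - n) + 2 * n := by ring
  have hx2 : x0.2 + (n : ℤ) = (x0.2 - n) + 2 * n := by ring
  set a1 : ℤ := x0.1 - n with ha1
  set b1 : ℤ := x0.2 - n with hb1
  have hball : ball x0 n = rect a1 (a1 + 2 * n) b1 (b1 + 2 * n) := by
    rw [ball, hx1, hx2]
  have hE1 := poinc_E1 u a1 (a1 + 2 * n) b1 (b1 + 2 * n)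
  have hE2 := poinc_E2 u a1 (a1 + 2 * n) b1 (b1 + 2 * n)
  rw [hball] at hp ⊢
  have hmem : ∀ z : ℤ × ℤ, z ∈ rect a1 (a1 + 2 * n) b1 (b1 + 2 * n) ↔ z.1 ∈ Finset.Icc a1 (a1 + 2 * n) ∧ z.2 ∈ Finset.Icc b1 (b1 + 2 * n) := by
    intro z; rw [rect, Finset.mem_product]
  have ha := (hmem a).1 (hp a (by simp)).1
  have hb := (hmem b).1 (hp b (by simp)).1
  set E := ∑ x ∈ rect a1 (a1 + 2 * n) b1 (b1 + 2 * n), ∑ y ∈ nbrs x ∩ rect a1 (a1 + 2 * n) b1 (b1 + 2 * n), (u x - u y) ^ 2 with hE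
  have hn4 : (0 : ℝ) ≤ 5971968 * (n : ℝ) ^ 4 := by positivity
  rcases hab with hab | hab
  · have key := poinc_key (fun s r => u (s, r)) a1 b1 n hn (Finset.uIcc a.1 b.1) ?_ ?_ ?_
    · have h1 : ∑ z ∈ rect a1 (a1 + 2 * n) b1 (b1 + 2 * n), |u z| =
          ∑ s ∈ Finset.Icc a1 (a1 + 2 * n), ∑ r ∈ Finset.Icc b1 (b1 + 2 * n), |u (s, r)| := by
        rw [rect, Finset.sum_product]
      rw [h1]
      calc _ ≤ _ := key
        _ ≤ 5971968 * (n : ℝ) ^ 4 * (E + E) := mul_le_mul_of_nonneg_left (add_le_add hE1 hE2) hn4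
        _ = _ := by ring
    · intro t ht
      simp only [Finset.mem_Icc] at ha hb
      rw [Finset.mem_uIcc] at ht
      simp only [Finset.mem_Icc]
      omega
    · rw [Int.card_uIcc]
      rcases abs_cases (a.1 - b.1) with h | h <;> omega
    · intro t ht
      rw [Finset.mem_uIcc] at ht
      obtain ⟨z, hz, hz'⟩ := poinc_walk Prod.fst (fun u v h => by
        have h' : |u.1 - v.1| + |u.2 - v.2| = 1 := h
        have := abs_nonneg (u.2 - v.2)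
        omega) p t (by omega)
      have hz2 := hp z hz
      refine ⟨z.2, ((hmem z).1 hz2.1).2, ?_⟩
      rw [← hz']
      exact hz2.2
  · have key := poinc_key (fun s r => u (r, s)) b1 a1 n hn (Finset.uIcc a.2 b.2) ?_ ?_ ?_
    · have h1 : ∑ z ∈ rect a1 (a1 + 2 * n) b1 (b1 + 2 * n), |u z| =
          ∑ s ∈ Finset.Icc b1 (b1 + 2 * n), ∑ r ∈ Finset.Icc a1 (a1 + 2 * n), |u (r, s)| := by
        rw [rect, Finset.sum_product, Finset.sum_comm]
      rw [h1]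
      calc _ ≤ _ := key
        _ ≤ 5971968 * (n : ℝ) ^ 4 * (E + E) := mul_le_mul_of_nonneg_left (add_le_add hE2 hE1) hn4
        _ = _ := by ring
    · intro t ht
      simp only [Finset.mem_Icc] at ha hb
      rw [Finset.mem_uIcc] at ht
      simp only [Finset.mem_Icc]
      omega
    · rw [Int.card_uIcc]
      rcases abs_cases (a.2 - b.2) with h | h <;> omega
    · intro t ht
      rw [Finset.mem_uIcc] at ht
      obtain ⟨z, hz, hz'⟩ := poinc_walk Prod.snd (fun u v h => by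
        have h' : |u.1 - v.1| + |u.2 - v.2| = 1 := h
        have := abs_nonneg (u.1 - v.1)
        omega) p t (by omega)
      have hz2 := hp z hz
      refine ⟨z.1, ((hmem z).1 hz2.1).1, ?_⟩
      rw [← hz']
      exact hz2.2

end H941.poincare
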