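import Pool.Agent.H941.Defs4
import Pool.Agent.H941.A2
import Pool.Agent.H941.A3
import Pool.Agent.H941.B.green_log_off
import Pool.Agent.H941.B.harm_grad

open MeasureTheory ProbabilityTheory

namespace H941.exit_density

theorem sum_nbrs (u : ℤ × ℤ) (f : ℤ × ℤ → ℝ) : ∑ z ∈ nbrs u, f z =
    f (u.1 + 1, u.2) + (f (u.1 - 1, u.2) + (f (u.1, u.2 + 1) + f (u.1, u.2 - 1))) := by
  unfold nbrs
  rw [Finset.sum_insert, Finset.sum_insert, Finset.sum_insert, Finset.sum_singleton]
  · simp only [Finset.mem_singleton, Prod.mk.injEq, not_and]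
    intro _
    omega
  · simp only [Finset.mem_insert, Finset.mem_singleton, Prod.mk.injEq, not_or, not_and]
    constructor
    · intro h
      omega
    · intro h
      omega
  · simp only [Finset.mem_insert, Finset.mem_singleton, Prod.mk.injEq, not_or, not_and]
    refine ⟨fun h => ?_, fun h => ?_, fun h => ?_⟩ <;> omega

theorem card_nbrs (u : ℤ × ℤ) : (nbrs u).card = 4 := by
  have h := sum_nbrs u (fun _ => 1)
  rw [Finset.sum_const, nsmul_eq_mul, mul_one] at h
  have h2 : ((nbrs u).card : ℝ) = 4 := by rw [h]; norm_num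
  exact_mod_cast h2

theorem mem_ball {x z : ℤ × ℤ} {r : ℤ} :
    z ∈ ball x r ↔ (x.1 - r ≤ z.1 ∧ z.1 ≤ x.1 + r) ∧ (x.2 - r ≤ z.2 ∧ z.2 ≤ x.2 + r) := by
  unfold ball rect
  rw [Finset.mem_product, Finset.mem_Icc, Finset.mem_Icc]

/-- far from the centre the Green function is bounded -/
theorem green_far (x z : ℤ × ℤ) (n m : ℕ) (hm : n ≤ 2 * m + 1) (hz : z ∈ ball x n) (t : ℤ)
    (ht : (m : ℤ) ≤ t) (hsq : t ^ 2 ≤ (x.1 - z.1) ^ 2 + (x.2 - z.2) ^ 2) :
    green (ball x n) x z ≤ 6 := by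
  have hx : x ∈ ball x n := by
    rw [mem_ball]
    refine ⟨⟨?_, ?_⟩, ?_, ?_⟩ <;> omega
  have h := green_log_off (ball x n) (2 * n + 1) (by omega) (by
    intro a ha b hb
    rw [mem_ball] at ha hb
    constructor
    · rw [abs_lt]
      push_cast
      constructor <;> omega
    · rw [abs_lt]
      push_cast
      constructor <;> omega) x z hx hz
  refine h.trans ?_
  have hlog2 : (0 : ℝ) < Real.log 2 := Real.log_pos (by norm_num)
  rw [div_le_iff₀ hlog2]
  have h1 : (6 : ℝ) * Real.log 2 = Real.log 64 := by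
    have : (64 : ℝ) = 2 ^ 6 := by norm_num
    rw [this, Real.log_pow]
    norm_num
  rw [h1]
  have hm2 : ((m : ℝ)) ^ 2 ≤ ((x.1 : ℝ) - z.1) ^ 2 + ((x.2 : ℝ) - z.2) ^ 2 := by
    have h2 : (m : ℤ) ^ 2 ≤ (x.1 - z.1) ^ 2 + (x.2 - z.2) ^ 2 := by nlinarith
    exact_mod_cast h2
  have hpos : (0 : ℝ) < 1 + ((x.1 : ℝ) - z.1) ^ 2 + ((x.2 : ℝ) - z.2) ^ 2 := by positivity
  have hn : ((n : ℝ)) ≤ 2 * m + 1 := by exact_mod_cast hm
  have hn0 : (0 : ℝ) ≤ n := Nat.cast_nonneg n
  have hm0 : (0 : ℝ) ≤ m := Nat.cast_nonneg m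
  have h3 : 1 + 2 * (((2 * n + 1 : ℕ) : ℝ)) ^ 2 ≤
      64 * (1 + ((x.1 : ℝ) - z.1) ^ 2 + ((x.2 : ℝ) - z.2) ^ 2) := by
    push_cast
    nlinarith [mul_self_nonneg ((m : ℝ) - 1), mul_self_nonneg ((2 : ℝ) * m + 1 - n)]
  have h4 : Real.log (1 + 2 * (((2 * n + 1 : ℕ) : ℝ)) ^ 2) ≤
      Real.log (64 * (1 + ((x.1 : ℝ) - z.1) ^ 2 + ((x.2 : ℝ) - z.2) ^ 2)) :=
    Real.log_le_log (by positivity) h3
  rw [Real.log_mul (by norm_num) hpos.ne'] at h4
  linarith

/-- linear barrier in direction `t` -/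
theorem side_bound (x : ℤ × ℤ) (n m : ℕ) (hm : n ≤ 2 * m + 1) (hmn : m ≤ n) (t : ℤ × ℤ → ℤ)
    (hx0 : t x = 0)
    (hsum : ∀ z, ∑ z' ∈ nbrs z, (t z' : ℝ) = 4 * t z)
    (hstep : ∀ z, ∀ z' ∈ nbrs z, |t z' - t z| ≤ 1) (hB : ∀ z ∈ ball x n, t z ≤ n)
    (hsq : ∀ z : ℤ × ℤ, (t z) ^ 2 ≤ (x.1 - z.1) ^ 2 + (x.2 - z.2) ^ 2)
    (z : ℤ × ℤ) (hz : z ∈ ball x n) (hzm : (m : ℤ) ≤ t z) :
    green (ball x n) x z ≤ 6 * ((n : ℝ) + 1 - t z) / ((n : ℝ) + 1 - m) := by
  classical
  obtain ⟨g0, goff, gsymm, -, grec, -⟩ := green_basic (ball x n)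
  set h : ℤ × ℤ → ℝ := fun z => 6 * ((n : ℝ) + 1 - t z) / ((n : ℝ) + 1 - m) with hh
  have hmn' : ((m : ℝ)) ≤ n := by exact_mod_cast hmn
  have hden : (0 : ℝ) < (n : ℝ) + 1 - m := by linarith
  have hfar : ∀ w ∈ ball x n, t w = m → green (ball x n) x w ≤ h w := by
    intro w hw htw
    refine (green_far x w n m hm hw (t w) (by omega) (hsq w)).trans ?_
    rw [hh]
    simp only
    rw [htw, le_div_iff₀ hden]
    push_cast
    linarith
  have hnn : ∀ w, t w ≤ n + 1 → 0 ≤ h w := by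
    intro w hw
    have : ((t w : ℤ) : ℝ) ≤ n + 1 := by exact_mod_cast hw
    rw [hh]
    simp only
    apply div_nonneg _ hden.le
    nlinarith
  set S : Finset (ℤ × ℤ) := (ball x n).filter (fun w => (m : ℤ) < t w) with hS
  obtain ⟨-, -, -, -, -, smax⟩ := green_basic S
  set k : ℤ × ℤ → ℝ := fun w => if w ∈ S then max (green (ball x n) x w - h w) 0 else 0 with hk
  have hk0 : ∀ w, 0 ≤ k w := by
    intro w
    rw [hk]
    simp only
    split_ifs
    · exact le_max_right _ _
    · exact le_rfl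
  have hhar : ∀ w, h w = (1 / 4) * ∑ z' ∈ nbrs w, h z' := by
    intro w
    have e1 : ∑ z' ∈ nbrs w, h z' = 6 * (4 * ((n : ℝ) + 1) - ∑ z' ∈ nbrs w, (t z' : ℝ)) /
        ((n : ℝ) + 1 - m) := by
      rw [hh]
      simp only
      rw [← Finset.sum_div, ← Finset.mul_sum, Finset.sum_sub_distrib, Finset.sum_const,
        card_nbrs, nsmul_eq_mul]
      norm_num
    rw [e1, hsum w, hh]
    simp only
    ring
  have key := smax (fun _ => 0) k (by
      intro w hw
      rw [hk]
      simp only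
      rw [if_neg hw]) (by
      intro w hw
      rw [zero_add]
      have hwB : w ∈ ball x n := (Finset.mem_filter.1 hw).1
      have hwt : (m : ℤ) < t w := (Finset.mem_filter.1 hw).2
      have hkw : k w = max (green (ball x n) x w - h w) 0 := by
        rw [hk]
        simp only
        rw [if_pos hw]
      rw [hkw]
      apply max_le
      · have hne : w ≠ x := by
          rintro rfl
          rw [hx0] at hwt
          omega
        have e2 : green (ball x n) x w = (1 / 4) * ∑ z' ∈ nbrs w, green (ball x n) x z' := by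
          have e3 := grec w hwB x
          rw [if_neg hne, zero_add] at e3
          rw [gsymm x w, e3]
          congr 1
          apply Finset.sum_congr rfl
          intro z' _
          exact gsymm z' x
        rw [e2, hhar w, ← mul_sub, ← Finset.sum_sub_distrib]
        apply mul_le_mul_of_nonneg_left _ (by norm_num)
        apply Finset.sum_le_sum
        intro z' hz'
        have hst := abs_le.1 (hstep w z' hz')
        have htwn : t w ≤ n := hB w hwB
        by_cases hz'S : z' ∈ S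
        · rw [hk]
          simp only
          rw [if_pos hz'S]
          exact le_max_left _ _
        · have hkz : k z' = 0 := by
            rw [hk]
            simp only
            rw [if_neg hz'S]
          rw [hkz, sub_nonpos]
          by_cases hz'B : z' ∈ ball x n
          · have : ¬ (m : ℤ) < t z' := fun hc => hz'S (Finset.mem_filter.2 ⟨hz'B, hc⟩)
            exact hfar z' hz'B (by omega)
          · rw [goff x z' (Or.inr hz'B)]
            exact hnn z' (by omega)
      · apply mul_nonneg (by norm_num)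
        exact Finset.sum_nonneg fun z' _ => hk0 z')
  rcases hzm.lt_or_eq with hlt | heq
  · have hzS : z ∈ S := Finset.mem_filter.2 ⟨hz, hlt⟩
    have hle := key z hzS
    simp only [mul_zero, Finset.sum_const_zero] at hle
    rw [hk] at hle
    simp only at hle
    rw [if_pos hzS] at hle
    have := (le_max_left _ _).trans hle
    have h5 : green (ball x n) x z ≤ h z := by linarith
    exact h5
  · exact hfar z hz heq.symm

theorem side_ex (x : ℤ × ℤ) (n : ℕ) (t : ℤ × ℤ → ℤ) (hx0 : t x = 0)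
    (hsum : ∀ z, ∑ z' ∈ nbrs z, (t z' : ℝ) = 4 * t z)
    (hstep : ∀ z, ∀ z' ∈ nbrs z, |t z' - t z| ≤ 1) (hB : ∀ z ∈ ball x n, t z ≤ n)
    (hsq : ∀ z : ℤ × ℤ, (t z) ^ 2 ≤ (x.1 - z.1) ^ 2 + (x.2 - z.2) ^ 2)
    (v : ℤ × ℤ) (hv : (n : ℤ) < t v) : ex (ball x n) x v ≤ 12 / ((n : ℝ) + 1) := by
  obtain ⟨-, goff, -, -, -, -⟩ := green_basic (ball x n)
  have hn0 : (0 : ℝ) ≤ n := Nat.cast_nonneg n
  have h1 : ∀ u ∈ nbrs v, green (ball x n) x u ≤ 12 / ((n : ℝ) + 1) := by
    intro u hu
    by_cases huB : u ∈ ball x n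
    · have h2 := abs_le.1 (hstep v u hu)
      have h3 := hB u huB
      have h4 : t u = n := by omega
      have h5 := side_bound x n (n / 2) (by omega) (by omega) t hx0 hsum hstep hB hsq u huB
        (by omega)
      refine h5.trans ?_
      rw [h4]
      have h6 : ((n / 2 : ℕ) : ℝ) ≤ (n : ℝ) / 2 := Nat.cast_div_le
      have h7 : (0 : ℝ) < (n : ℝ) + 1 - ((n / 2 : ℕ) : ℝ) := by linarith
      rw [div_le_div_iff₀ h7 (by linarith)]
      push_cast
      nlinarith
    · rw [goff x u (Or.inr huB)]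
      positivity
  unfold ex
  have h2 : ∑ u ∈ nbrs v, green (ball x n) x u ≤ ∑ u ∈ nbrs v, 12 / ((n : ℝ) + 1) :=
    Finset.sum_le_sum h1
  rw [Finset.sum_const, card_nbrs, nsmul_eq_mul] at h2
  push_cast at h2
  linarith

theorem mem_nbrs {u z : ℤ × ℤ} : z ∈ nbrs u ↔ z = (u.1 + 1, u.2) ∨ z = (u.1 - 1, u.2) ∨
    z = (u.1, u.2 + 1) ∨ z = (u.1, u.2 - 1) := by
  unfold nbrs
  simp only [Finset.mem_insert, Finset.mem_singleton]

theorem _root_.H941.exit_density : ∃ C : ℝ, 0 < C ∧ ∀ (x v : ℤ × ℤ) (n : ℕ), v ∉ ball x n →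
    ex (ball x n) x v ≤ C / ((n : ℝ) + 1) := by
  refine ⟨12, by norm_num, fun x v n hv => ?_⟩
  rw [mem_ball] at hv
  have hc : (n : ℤ) < v.1 - x.1 ∨ (n : ℤ) < x.1 - v.1 ∨ (n : ℤ) < v.2 - x.2 ∨
      (n : ℤ) < x.2 - v.2 := by
    by_contra hcon
    push Not at hcon
    apply hv
    refine ⟨⟨?_, ?_⟩, ?_, ?_⟩ <;> omega
  rcases hc with hc | hc | hc | hc
  · refine side_ex x n (fun z => z.1 - x.1) (by simp) ?_ ?_ ?_ ?_ v hc
    · intro z
      rw [sum_nbrs]
      push_cast
      ring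
    · intro z z' hz'
      rw [mem_nbrs] at hz'
      rw [abs_le]
      rcases hz' with rfl | rfl | rfl | rfl <;> constructor <;> simp only <;> omega
    · intro z hz
      rw [mem_ball] at hz
      omega
    · intro z
      nlinarith [sq_nonneg (x.2 - z.2)]
  · refine side_ex x n (fun z => x.1 - z.1) (by simp) ?_ ?_ ?_ ?_ v hc
    · intro z
      rw [sum_nbrs]
      push_cast
      ring
    · intro z z' hz'
      rw [mem_nbrs] at hz'
      rw [abs_le]
      rcases hz' with rfl | rfl | rfl | rfl <;> constructor <;> simp only <;> omega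
    · intro z hz
      rw [mem_ball] at hz
      omega
    · intro z
      nlinarith [sq_nonneg (x.2 - z.2)]
  · refine side_ex x n (fun z => z.2 - x.2) (by simp) ?_ ?_ ?_ ?_ v hc
    · intro z
      rw [sum_nbrs]
      push_cast
      ring
    · intro z z' hz'
      rw [mem_nbrs] at hz'
      rw [abs_le]
      rcases hz' with rfl | rfl | rfl | rfl <;> constructor <;> simp only <;> omega
    · intro z hz
      rw [mem_ball] at hz
      omega
    · intro z
      nlinarith [sq_nonneg (x.1 - z.1)]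
  · refine side_ex x n (fun z => x.2 - z.2) (by simp) ?_ ?_ ?_ ?_ v hc
    · intro z
      rw [sum_nbrs]
      push_cast
      ring
    · intro z z' hz'
      rw [mem_nbrs] at hz'
      rw [abs_le]
      rcases hz' with rfl | rfl | rfl | rfl <;> constructor <;> simp only <;> omega
    · intro z hz
      rw [mem_ball] at hz
      omega
    · intro z
      nlinarith [sq_nonneg (x.1 - z.1)]

end H941.exit_density
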