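import Pool.Agent.H941.Defs4
import Pool.Agent.H941.A3
import Pool.Agent.H941.C.exit_density

open MeasureTheory ProbabilityTheory

namespace H941.submean

theorem submean_nbrs_symm (u v : ℤ × ℤ) : u ∈ nbrs v ↔ v ∈ nbrs u := by
  simp only [nbrs, Finset.mem_insert, Finset.mem_singleton, Prod.ext_iff]
  constructor <;> intro h <;> omega

theorem submean_mem_ball (x z : ℤ × ℤ) (r : ℤ) : z ∈ ball x r ↔
    (x.1 - r ≤ z.1 ∧ z.1 ≤ x.1 + r) ∧ (x.2 - r ≤ z.2 ∧ z.2 ≤ x.2 + r) := by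
  simp only [ball, rect, Finset.mem_product, Finset.mem_Icc]

theorem submean_nbrs_ball {x v w : ℤ × ℤ} {r : ℤ} (hv : v ∈ ball x r) (hw : w ∈ nbrs v) :
    w ∈ ball x (r + 1) := by
  rw [submean_mem_ball] at hv ⊢
  simp only [nbrs, Finset.mem_insert, Finset.mem_singleton, Prod.ext_iff] at hw
  omega

theorem submean_ball_mono {x : ℤ × ℤ} {r s : ℤ} (h : r ≤ s) : ball x r ⊆ ball x s := by
  intro z hz
  rw [submean_mem_ball] at hz ⊢
  omega

theorem submean_step {C : ℝ} (hC : ∀ (x v : ℤ × ℤ) (n : ℕ), v ∉ ball x n →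
    ex (ball x n) x v ≤ C / ((n : ℝ) + 1)) (g : ℤ × ℤ → ℝ) (x : ℤ × ℤ) (m : ℕ)
    (hg : ∀ z, 0 ≤ g z) (hsub : ∀ z ∈ ball x m, g z ≤ (1 / 4) * ∑ z' ∈ nbrs z, g z') :
    ((m : ℝ) + 1) * g x ≤ C * (∑ z ∈ ball x (m + 1) \ ball x m, g z) := by
  classical
  set D : Finset (ℤ × ℤ) := ball x m with hD
  obtain ⟨h0, hz, -, -, -, hlast⟩ := green_basic D
  have hxD : x ∈ D := by
    rw [hD, submean_mem_ball]
    have : (0 : ℤ) ≤ m := Int.natCast_nonneg m
    omega
  have key := hlast (fun z => (1 / 4) * ∑ w ∈ nbrs z, if w ∈ D then 0 else g w)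
    (fun z => if z ∈ D then g z else 0) (fun z hz => if_neg hz) (fun y hy => by
      simp only [if_pos hy]
      have h1 : ∑ z' ∈ nbrs y, g z' = (∑ w ∈ nbrs y, if w ∈ D then 0 else g w) +
          ∑ z ∈ nbrs y, if z ∈ D then g z else 0 := by
        rw [← Finset.sum_add_distrib]
        refine Finset.sum_congr rfl fun w _ => ?_
        split_ifs <;> simp
      have h2 := hsub y hy
      rw [h1] at h2
      linarith) x hxD
  simp only [if_pos hxD] at key
  have hT : ∀ v ∈ D, (∑ w ∈ nbrs v, if w ∈ D then 0 else g w) =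
      ∑ w ∈ ball x (m + 1) \ D, if v ∈ nbrs w then g w else 0 := by
    intro v hv
    rw [← Finset.sum_filter, ]
    have e1 : (∑ w ∈ nbrs v, if w ∈ D then 0 else g w) =
        ∑ w ∈ (nbrs v).filter (fun w => w ∉ D), g w := by
      rw [Finset.sum_filter]
      refine Finset.sum_congr rfl fun w _ => ?_
      by_cases hw : w ∈ D <;> simp [hw]
    rw [e1]
    refine Finset.sum_congr ?_ fun _ _ => rfl
    ext w
    simp only [Finset.mem_filter, Finset.mem_sdiff]
    constructor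
    · rintro ⟨h1, h2⟩
      exact ⟨⟨submean_nbrs_ball hv h1, h2⟩, (submean_nbrs_symm _ _).1 h1⟩
    · rintro ⟨⟨-, h2⟩, h3⟩
      exact ⟨(submean_nbrs_symm _ _).1 h3, h2⟩
  have hsum : ∑ v ∈ D, green D x v * ((1 / 4) * ∑ w ∈ nbrs v, if w ∈ D then 0 else g w) =
      ∑ w ∈ ball x (m + 1) \ D, ex D x w * g w := by
    calc ∑ v ∈ D, green D x v * ((1 / 4) * ∑ w ∈ nbrs v, if w ∈ D then 0 else g w)
        = ∑ v ∈ D, ∑ w ∈ ball x (m + 1) \ D,
            (if v ∈ nbrs w then (1 / 4) * green D x v * g w else 0) := by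
          refine Finset.sum_congr rfl fun v hv => ?_
          rw [hT v hv, Finset.mul_sum, Finset.mul_sum]
          refine Finset.sum_congr rfl fun w _ => ?_
          split_ifs <;> ring
      _ = ∑ w ∈ ball x (m + 1) \ D, ∑ v ∈ D,
            (if v ∈ nbrs w then (1 / 4) * green D x v * g w else 0) := Finset.sum_comm
      _ = _ := by
          refine Finset.sum_congr rfl fun w _ => ?_
          unfold ex
          rw [mul_assoc, Finset.sum_mul, Finset.mul_sum, ← Finset.sum_filter]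
          have e2 : ∑ v ∈ nbrs w, (1 / 4) * (green D x v * g w) =
              ∑ v ∈ (nbrs w).filter (fun v => v ∈ D), (1 / 4) * (green D x v * g w) := by
            rw [Finset.sum_filter]
            refine Finset.sum_congr rfl fun v _ => ?_
            by_cases hv : v ∈ D
            · simp [hv]
            · simp [hv, hz x v (Or.inr hv)]
          rw [e2]
          refine Finset.sum_congr ?_ fun v _ => by ring
          ext v
          simp only [Finset.mem_filter]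
          tauto
  rw [hsum] at key
  have hm : (0 : ℝ) < (m : ℝ) + 1 := by positivity
  have hbound : ∑ w ∈ ball x (m + 1) \ D, ex D x w * g w ≤
      C / ((m : ℝ) + 1) * ∑ w ∈ ball x (m + 1) \ D, g w := by
    rw [Finset.mul_sum]
    refine Finset.sum_le_sum fun w hw => ?_
    exact mul_le_mul_of_nonneg_right (hC x w m (Finset.mem_sdiff.1 hw).2) (hg w)
  have h5 := mul_le_mul_of_nonneg_left (key.trans hbound) hm.le
  calc ((m : ℝ) + 1) * g x ≤ ((m : ℝ) + 1) * (C / ((m : ℝ) + 1) *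
        ∑ w ∈ ball x (m + 1) \ D, g w) := h5
    _ = C * ∑ w ∈ ball x (m + 1) \ D, g w := by field_simp

theorem submean_sum {C : ℝ} (hC0 : 0 < C) (hC : ∀ (x v : ℤ × ℤ) (n : ℕ), v ∉ ball x n →
    ex (ball x n) x v ≤ C / ((n : ℝ) + 1)) (g : ℤ × ℤ → ℝ) (x : ℤ × ℤ) (n : ℕ)
    (hg : ∀ z, 0 ≤ g z) (hsub : ∀ z ∈ ball x n, g z ≤ (1 / 4) * ∑ z' ∈ nbrs z, g z') :
    ∀ N : ℕ, N ≤ n + 1 → (N : ℝ) * (N + 1) / 2 * g x ≤ C * ∑ z ∈ ball x N, g z := by
  intro N
  induction N with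
  | zero =>
    intro _
    have : 0 ≤ ∑ z ∈ ball x ((0 : ℕ) : ℤ), g z := Finset.sum_nonneg fun z _ => hg z
    simp only [Nat.cast_zero, zero_mul, zero_div]
    exact mul_nonneg hC0.le (by simpa using this)
  | succ N ih =>
    intro hN
    have h1 := ih (by omega)
    have hle : ((N : ℕ) : ℤ) ≤ (n : ℤ) := by exact_mod_cast (by omega : N ≤ n)
    have h2 := submean_step hC g x N hg (fun z hz => hsub z (submean_ball_mono hle hz))
    have h3 : ball x (N : ℤ) ⊆ ball x ((N : ℤ) + 1) := submean_ball_mono (by omega)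
    have h4 := Finset.sum_sdiff (f := g) h3
    have h5 : ball x ((N + 1 : ℕ) : ℤ) = ball x ((N : ℤ) + 1) := by push_cast; rfl
    rw [h5, ← h4, mul_add]
    push_cast
    nlinarith

theorem _root_.H941.submean : ∃ C : ℝ, 0 < C ∧ ∀ (g : ℤ × ℤ → ℝ) (x : ℤ × ℤ) (n : ℕ), 1 ≤ n → (∀ z, 0 ≤ g z) →
    (∀ z ∈ ball x n, g z ≤ (1 / 4) * ∑ z' ∈ nbrs z, g z') →
    g x ≤ C / (n : ℝ) ^ 2 * ∑ z ∈ ball x (n + 1), g z := by
  obtain ⟨C, hC0, hC⟩ := exit_density
  refine ⟨2 * C, by positivity, fun g x n hn hg hsub => ?_⟩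
  have h := submean_sum hC0 hC g x n hg hsub (n + 1) le_rfl
  have hn' : (0 : ℝ) < (n : ℝ) := by exact_mod_cast hn
  have h5 : ball x ((n + 1 : ℕ) : ℤ) = ball x ((n : ℤ) + 1) := by push_cast; rfl
  rw [h5] at h
  have hgx := hg x
  have h6 : (n : ℝ) ^ 2 / 2 * g x ≤ C * ∑ z ∈ ball x ((n : ℤ) + 1), g z := by
    refine le_trans ?_ h
    refine mul_le_mul_of_nonneg_right ?_ hgx
    push_cast
    nlinarith
  rw [div_mul_eq_mul_div, le_div_iff₀ (by positivity)]
  linarith

end H941.submean
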