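import Pool.Agent.H941.Defs4
import Pool.Agent.H941.A3
import Pool.Agent.H941.B.green_log_off
import Pool.Agent.H941.B.harm_grad

open MeasureTheory ProbabilityTheory

namespace H941.osc_var

theorem mem_ball' (v z : ℤ × ℤ) (r : ℤ) : z ∈ ball v r ↔ |z.1 - v.1| ≤ r ∧ |z.2 - v.2| ≤ r := by
  simp only [ball, rect, Finset.mem_product, Finset.mem_Icc, abs_le]
  constructor <;> intro h <;> omega

theorem nbrs_dist (x z : ℤ × ℤ) (hz : z ∈ nbrs x) : |z.1 - x.1| ≤ 1 ∧ |z.2 - x.2| ≤ 1 := by
  simp only [nbrs, Finset.mem_insert, Finset.mem_singleton] at hz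
  rcases hz with rfl | rfl | rfl | rfl <;> simp

theorem path_bound (f : ℤ × ℤ → ℝ) (v : ℤ × ℤ) (d : ℕ) (c : ℝ)
    (h : ∀ x ∈ ball v d, ∀ x' ∈ nbrs x, |f x' - f x| ≤ c) (z : ℤ × ℤ) (hz : z ∈ ball v d) :
    |f z - f v| ≤ 2 * d * c := by
  have hc : 0 ≤ c := by
    have h0 := h v ((mem_ball' v v d).2 (by simp)) (v.1 + 1, v.2) (by simp [nbrs])
    exact (abs_nonneg _).trans h0
  have hstep1 : ∀ e : ℤ, (e = 1 ∨ e = -1) → ∀ w : ℤ, |w - v.2| ≤ d → ∀ k : ℕ, k ≤ d →
      |f (v.1 + e * k, w) - f (v.1, w)| ≤ k * c := by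
    intro e he w hw k
    induction k with
    | zero => intro _; simp
    | succ k ih =>
      intro hk
      have h1 := ih (by omega)
      have hmem : (v.1 + e * k, w) ∈ ball v d := by
        rw [mem_ball']
        refine ⟨?_, hw⟩
        simp only [add_sub_cancel_left, abs_mul]
        have : |e| = 1 := by rcases he with rfl | rfl <;> simp
        rw [this, one_mul, Nat.abs_cast]
        exact_mod_cast (by omega : k ≤ d)
      have hn : (v.1 + e * ((k + 1 : ℕ) : ℤ), w) ∈ nbrs (v.1 + e * k, w) := by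
        simp only [nbrs, Finset.mem_insert, Finset.mem_singleton, Prod.mk.injEq]
        push_cast
        rcases he with rfl | rfl
        · left; constructor <;> first | trivial | ring1
        · right; left; constructor <;> first | trivial | ring1
      have h2 := h _ hmem _ hn
      have h3 : |f (v.1 + e * ((k + 1 : ℕ) : ℤ), w) - f (v.1, w)| ≤
          |f (v.1 + e * ((k + 1 : ℕ) : ℤ), w) - f (v.1 + e * k, w)| +
            |f (v.1 + e * k, w) - f (v.1, w)| := abs_sub_le _ _ _
      push_cast at h3 h2 ⊢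
      linarith
  have hstep2 : ∀ e : ℤ, (e = 1 ∨ e = -1) → ∀ k : ℕ, k ≤ d →
      |f (v.1, v.2 + e * k) - f (v.1, v.2)| ≤ k * c := by
    intro e he k
    induction k with
    | zero => intro _; simp
    | succ k ih =>
      intro hk
      have h1 := ih (by omega)
      have hmem : (v.1, v.2 + e * k) ∈ ball v d := by
        rw [mem_ball']
        refine ⟨by simp, ?_⟩
        simp only [add_sub_cancel_left, abs_mul]
        have : |e| = 1 := by rcases he with rfl | rfl <;> simp
        rw [this, one_mul, Nat.abs_cast]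
        exact_mod_cast (by omega : k ≤ d)
      have hn : (v.1, v.2 + e * ((k + 1 : ℕ) : ℤ)) ∈ nbrs (v.1, v.2 + e * k) := by
        simp only [nbrs, Finset.mem_insert, Finset.mem_singleton, Prod.mk.injEq]
        push_cast
        rcases he with rfl | rfl
        · right; right; left; constructor <;> first | trivial | ring1
        · right; right; right; constructor <;> first | trivial | ring1
      have h2 := h _ hmem _ hn
      have h3 : |f (v.1, v.2 + e * ((k + 1 : ℕ) : ℤ)) - f (v.1, v.2)| ≤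
          |f (v.1, v.2 + e * ((k + 1 : ℕ) : ℤ)) - f (v.1, v.2 + e * k)| +
            |f (v.1, v.2 + e * k) - f (v.1, v.2)| := abs_sub_le _ _ _
      push_cast at h3 h2 ⊢
      linarith
  rw [mem_ball'] at hz
  have ha : ∀ a : ℤ, |a| ≤ d → ∃ e : ℤ, (e = 1 ∨ e = -1) ∧ ∃ k : ℕ, k ≤ d ∧ a = e * k := by
    intro a ha
    rcases le_or_gt 0 a with h0 | h0
    · refine ⟨1, Or.inl rfl, a.toNat, ?_, ?_⟩
      · rw [abs_of_nonneg h0] at ha; omega
      · omega
    · refine ⟨-1, Or.inr rfl, (-a).toNat, ?_, ?_⟩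
      · rw [abs_of_neg h0] at ha; omega
      · omega
  obtain ⟨e1, he1, k1, hk1, h1⟩ := ha _ hz.1
  obtain ⟨e2, he2, k2, hk2, h2⟩ := ha _ hz.2
  have g1 := hstep1 e1 he1 z.2 hz.2 k1 hk1
  have g2 := hstep2 e2 he2 k2 hk2
  rw [← h1, add_sub_cancel] at g1
  rw [← h2, add_sub_cancel] at g2
  have hk1' : (k1 : ℝ) ≤ d := by exact_mod_cast hk1
  have hk2' : (k2 : ℝ) ≤ d := by exact_mod_cast hk2
  have h3 : |f (z.1, z.2) - f (v.1, v.2)| ≤
      |f (z.1, z.2) - f (v.1, z.2)| + |f (v.1, z.2) - f (v.1, v.2)| := abs_sub_le _ _ _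
  have h4 : (k1:ℝ) * c ≤ d * c := mul_le_mul_of_nonneg_right hk1' hc
  have h5 : (k2:ℝ) * c ≤ d * c := mul_le_mul_of_nonneg_right hk2' hc
  change |f (z.1, z.2) - f (v.1, v.2)| ≤ 2 * d * c
  linarith

theorem one_step (v x : ℤ × ℤ) (s t d : ℕ) (hs : 1 ≤ s) (hst : s ≤ t) (ht : t ≤ 2 * s)
    (hd : d ≤ 3 * s / 4) (hx : x ∈ ball v d) (z : ℤ × ℤ) (hz : z ∈ ball v d) :
    |(green (ball v t) x z - green (ball v s) x z) -
      (green (ball v t) x v - green (ball v s) x v)| ≤ 400 * d / s := by
  classical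
  obtain ⟨-, goff, gsymm, -, grec, -⟩ := green_basic (ball v t)
  obtain ⟨-, goff', gsymm', gmono', grec', gsub'⟩ := green_basic (ball v s)
  have hsub : ball v s ⊆ ball v t := by
    intro z hz
    rw [mem_ball'] at hz ⊢
    have : (s : ℤ) ≤ t := by exact_mod_cast hst
    exact ⟨hz.1.trans this, hz.2.trans this⟩
  set F : ℤ × ℤ → ℝ := fun y => green (ball v t) x y - green (ball v s) x y with hF
  have hFharm : ∀ y ∈ ball v s, F y = (1 / 4) * ∑ w ∈ nbrs y, F w := by
    intro y hy
    have h1 := grec y (hsub hy) x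
    have h2 := grec' y hy x
    have h3 : ∑ w ∈ nbrs y, F w = ∑ w ∈ nbrs y, green (ball v t) w x -
        ∑ w ∈ nbrs y, green (ball v s) w x := by
      rw [← Finset.sum_sub_distrib]
      refine Finset.sum_congr rfl fun w _ => ?_
      simp only [hF]
      rw [gsymm x w, gsymm' x w]
    rw [h3]
    simp only [hF]
    rw [gsymm x y, gsymm' x y, h1, h2]
    ring
  have hF0 : ∀ y, 0 ≤ F y := fun y => sub_nonneg.2 (gmono' (ball v t) hsub x y)
  have hd' : (4:ℤ) * d ≤ 3 * s := by
    have : 4 * d ≤ 3 * s := by omega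
    exact_mod_cast this
  have hout : ∀ y, y ∉ ball v s → F y ≤ 10 := by
    intro y hy
    have e0 : green (ball v s) x y = 0 := goff' x y (Or.inr hy)
    by_cases hyt : y ∈ ball v t
    · have hxt : x ∈ ball v t := by
        rw [mem_ball'] at hx ⊢
        have : (d : ℤ) ≤ t := by
          have : (s:ℤ) ≤ t := by exact_mod_cast hst
          omega
        exact ⟨hx.1.trans this, hx.2.trans this⟩
      have hlog := green_log_off (ball v t) (2 * t + 1) (by omega) (by
        intro a ha b hb
        rw [mem_ball', abs_le, abs_le] at ha hb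
        rw [abs_lt, abs_lt]
        push_cast
        omega) x y hxt hyt
      have hsR : (1:ℝ) ≤ s := by exact_mod_cast hs
      have htR : (t:ℝ) ≤ 2 * s := by exact_mod_cast ht
      have hdist : (s:ℝ)^2 / 16 ≤ ((x.1 : ℝ) - y.1) ^ 2 + ((x.2 : ℝ) - y.2) ^ 2 := by
        rw [mem_ball', not_and_or, not_le, not_le] at hy
        rw [mem_ball', abs_le, abs_le] at hx
        rcases hy with hy | hy
        · have h1 : (s:ℤ) ≤ 4 * |x.1 - y.1| := by
            rcases abs_cases (y.1 - v.1) with h | h <;> rcases abs_cases (x.1 - y.1) with h' | h' <;> omega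
          have h2 : (s:ℝ) ≤ 4 * |(x.1:ℝ) - y.1| := by exact_mod_cast h1
          have h3 : (s:ℝ)^2 ≤ (4 * |(x.1:ℝ) - y.1|)^2 := pow_le_pow_left₀ (by positivity) h2 2
          rw [mul_pow, sq_abs] at h3
          nlinarith [sq_nonneg ((x.2:ℝ) - y.2)]
        · have h1 : (s:ℤ) ≤ 4 * |x.2 - y.2| := by
            rcases abs_cases (y.2 - v.2) with h | h <;> rcases abs_cases (x.2 - y.2) with h' | h' <;> omega
          have h2 : (s:ℝ) ≤ 4 * |(x.2:ℝ) - y.2| := by exact_mod_cast h1
          have h3 : (s:ℝ)^2 ≤ (4 * |(x.2:ℝ) - y.2|)^2 := pow_le_pow_left₀ (by positivity) h2 2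
          rw [mul_pow, sq_abs] at h3
          nlinarith [sq_nonneg ((x.1:ℝ) - y.1)]
      have hl2 : 0 < Real.log 2 := Real.log_pos (by norm_num)
      have hA : Real.log (1 + 2 * (((2 * t + 1 : ℕ)) : ℝ) ^ 2) ≤ Real.log (1024 * ((s:ℝ)^2 / 16)) := by
        apply Real.log_le_log (by positivity)
        push_cast
        nlinarith
      have hB : Real.log ((s:ℝ)^2 / 16) ≤
          Real.log (1 + ((x.1 : ℝ) - y.1) ^ 2 + ((x.2 : ℝ) - y.2) ^ 2) := by
        apply Real.log_le_log (by positivity)
        linarith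
      have hC : Real.log (1024 * ((s:ℝ)^2 / 16)) = 10 * Real.log 2 + Real.log ((s:ℝ)^2 / 16) := by
        rw [Real.log_mul (by norm_num) (by positivity)]
        rw [show (1024:ℝ) = 2^10 by norm_num, Real.log_pow]
        push_cast; ring
      have hfin : green (ball v t) x y ≤ 10 := by
        refine hlog.trans ?_
        rw [div_le_iff₀ hl2]
        linarith
      simp only [hF]
      rw [e0]; linarith
    · have e1 : green (ball v t) x y = 0 := goff x y (Or.inr hyt)
      simp only [hF]
      rw [e0, e1]; norm_num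
  have hin : ∀ y, F y ≤ 10 := by
    intro y
    by_cases hy : y ∈ ball v s
    · have h := gsub' (fun _ => 0) (fun w => if w ∈ ball v s then F w - 10 else 0) (by
        intro w hw; simp [hw]) (by
        intro w hw
        simp only [hw, if_true, zero_add]
        have hcard : (nbrs w).card = 4 := by
          unfold nbrs
          rw [Finset.card_insert_of_notMem, Finset.card_insert_of_notMem,
            Finset.card_insert_of_notMem, Finset.card_singleton]
          · simp only [Finset.mem_singleton, Prod.mk.injEq]; omega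
          · simp only [Finset.mem_insert, Finset.mem_singleton, Prod.mk.injEq]; omega
          · simp only [Finset.mem_insert, Finset.mem_singleton, Prod.mk.injEq]; omega
        have h1 : ∑ u ∈ nbrs w, (F u - 10) ≤ ∑ u ∈ nbrs w, (if u ∈ ball v s then F u - 10 else 0) := by
          refine Finset.sum_le_sum fun u _ => ?_
          split_ifs with hu
          · exact le_refl _
          · linarith [hout u hu]
        rw [Finset.sum_sub_distrib, Finset.sum_const, hcard] at h1
        rw [hFharm w hw]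
        simp only [nsmul_eq_mul] at h1
        push_cast at h1
        linarith) y hy
      simp only [hy, if_true, mul_zero, Finset.sum_const_zero] at h
      linarith
    · exact hout y hy
  -- gradient
  have hr1 : 1 ≤ s - 3 * s / 4 := by omega
  have hgrad : ∀ p ∈ ball v d, ∀ p' ∈ nbrs p, |F p' - F p| ≤ 200 / s := by
    intro p hp p' hp'
    have h := harm_grad F p p' hp' (s - 3 * s / 4) hr1 10 (by
      intro w h1 h2
      apply hFharm
      rw [mem_ball', abs_le, abs_le] at hp ⊢
      rw [abs_le] at h1 h2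
      have h3 : ((s - 3 * s / 4 : ℕ) : ℤ) + (3 * s / 4 : ℕ) = s := by
        have : s - 3 * s / 4 + 3 * s / 4 = s := by omega
        exact_mod_cast this
      have h4 : (d:ℤ) ≤ (3 * s / 4 : ℕ) := by exact_mod_cast hd
      omega) (by
      intro w _ _
      rw [abs_of_nonneg (hF0 w)]; exact hin w)
    refine h.trans ?_
    have hsR : (0:ℝ) < s := by exact_mod_cast (by omega : 0 < s)
    have hr : (s:ℝ) / 4 ≤ ((s - 3 * s / 4 : ℕ) : ℝ) := by
      have : s ≤ 4 * (s - 3 * s / 4) := by omega
      have : (s:ℝ) ≤ 4 * ((s - 3 * s / 4 : ℕ) : ℝ) := by exact_mod_cast this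
      linarith
    have hrpos : (0:ℝ) < ((s - 3 * s / 4 : ℕ) : ℝ) := by
      have : (0:ℝ) < s / 4 := by positivity
      linarith
    rw [div_le_div_iff₀ hrpos hsR]
    nlinarith
  have h := path_bound F v d (200 / s) hgrad z hz
  have e : 2 * (d:ℝ) * (200 / s) = 400 * d / s := by ring
  rw [e] at h
  exact h

theorem tele (v z : ℤ × ℤ) (d : ℕ) (hz : z ∈ ball v d) (ρ : ℕ) : ∀ k s : ℕ, ρ - s ≤ k → 1 ≤ s → s ≤ ρ →
    d ≤ 3 * s / 4 →
    (green (ball v ρ) z z - green (ball v s) z z) - 2 * (green (ball v ρ) z v - green (ball v s) z v) +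
      (green (ball v ρ) v v - green (ball v s) v v) ≤ 1600 * d / s := by
  have hstep : ∀ s t : ℕ, 1 ≤ s → s ≤ t → t ≤ 2 * s → d ≤ 3 * s / 4 →
      (green (ball v t) z z - green (ball v s) z z) - 2 * (green (ball v t) z v - green (ball v s) z v) +
      (green (ball v t) v v - green (ball v s) v v) ≤ 800 * d / s := by
    intro s t hs hst ht hd
    have hv : v ∈ ball v d := (mem_ball' v v d).2 (by simp)
    have h1 := abs_le.1 (one_step v z s t d hs hst ht hd hz z hz)
    have h2 := abs_le.1 (one_step v v s t d hs hst ht hd hv z hz)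
    have s1 := (green_basic (ball v t)).2.2.1 v z
    have s2 := (green_basic (ball v s)).2.2.1 v z
    rw [s1, s2] at h2
    have e : 800 * (d:ℝ) / s = 400 * d / s + 400 * d / s := by ring
    rw [e]
    linarith [h1.2, h2.1]
  intro k
  induction k with
  | zero =>
    intro s hk hs hsρ hd
    have : s = ρ := by omega
    subst this
    have h1 : (0:ℝ) ≤ 1600 * d / s := by positivity
    simpa using h1
  | succ k ih =>
    intro s hk hs hsρ hd
    have hsR : (0:ℝ) < s := by exact_mod_cast (by omega : 0 < s)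
    by_cases h2 : ρ ≤ 2 * s
    · refine (hstep s ρ hs hsρ h2 hd).trans ?_
      apply div_le_div_of_nonneg_right _ hsR.le
      have : (0:ℝ) ≤ d := Nat.cast_nonneg d
      linarith
    · have a1 := hstep s (2 * s) hs (by omega) le_rfl hd
      have a2 := ih (2 * s) (by omega) (by omega) (by omega) (by omega)
      have e : 1600 * (d:ℝ) / ((2 * s : ℕ) : ℝ) = 800 * d / s := by
        push_cast
        field_simp
        ring
      rw [e] at a2
      have e2 : 1600 * (d:ℝ) / s = 800 * d / s + 800 * d / s := by ring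
      rw [e2]
      linarith

theorem _root_.H941.osc_var : ∃ C : ℝ, 0 < C ∧ ∀ (v z : ℤ × ℤ) (ρ ρ' : ℕ), 1 ≤ ρ' → ρ' ≤ ρ → z ∈ ball v ((3 * ρ' / 4 : ℕ) : ℤ) →
    (green (ball v ρ) z z - green (ball v ρ') z z) - 2 * (green (ball v ρ) z v - green (ball v ρ') z v) +
      (green (ball v ρ) v v - green (ball v ρ') v v) ≤ C := by
  refine ⟨1600, by norm_num, ?_⟩
  intro v z ρ ρ' h1 h2 hz
  have h := tele v z (3 * ρ' / 4) hz ρ (ρ - ρ') ρ' le_rfl h1 h2 le_rfl
  refine h.trans ?_
  have hρ : (0:ℝ) < ρ' := by exact_mod_cast (by omega : 0 < ρ')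
  rw [div_le_iff₀ hρ]
  have : 3 * ρ' / 4 ≤ ρ' := by omega
  have : ((3 * ρ' / 4 : ℕ) : ℝ) ≤ ρ' := by exact_mod_cast this
  linarith

end H941.osc_var
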