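import Pool.Agent.H941.Defs4
import Pool.Agent.H941.C.submean

open MeasureTheory ProbabilityTheory

namespace H941.sup_harm

open Matrix in
theorem sh_map {ι : Type*} [Fintype ι] [DecidableEq ι] (Γ : Matrix ι ι ℝ) (h : Γ.PosSemidef) (c : ι → ℝ) :
    (multivariateGaussian (0 : EuclideanSpace ℝ ι) Γ).map (fun x => ∑ y, c y * x y) =
      gaussianReal 0 (c ⬝ᵥ Γ *ᵥ c).toNNReal := by
  have hL : (fun x : EuclideanSpace ℝ ι => ∑ y, c y * x y) = (innerSL ℝ (WithLp.toLp 2 c) : StrongDual ℝ (EuclideanSpace ℝ ι)) := by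
    ext x
    simp [PiLp.inner_apply, mul_comm]
  rw [hL, IsGaussian.map_eq_gaussianReal]
  congr 1
  · rw [ContinuousLinearMap.integral_comp_id_comm IsGaussian.integrable_id]
    simp
  · have h1 := covarianceBilin_multivariateGaussian (μ := (0 : EuclideanSpace ℝ ι)) h (WithLp.toLp 2 c) (WithLp.toLp 2 c)
    rw [covarianceBilin_self IsGaussian.memLp_two_id] at h1
    congr 1

theorem sum_nbrs (z : ℤ × ℤ) (f : ℤ × ℤ → ℝ) :
    ∑ z' ∈ nbrs z, f z' = f (z.1 + 1, z.2) + (f (z.1 - 1, z.2) + (f (z.1, z.2 + 1) + f (z.1, z.2 - 1))) := by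
  unfold nbrs
  rw [Finset.sum_insert, Finset.sum_insert, Finset.sum_insert, Finset.sum_singleton]
  · simp [Prod.ext_iff]; omega
  · simp [Prod.ext_iff]
  · simp [Prod.ext_iff]; omega

/-- indicator of `z` on `S` -/
noncomputable def sh_e (S : Finset (ℤ × ℤ)) (z : ℤ × ℤ) (y : (S : Finset (ℤ × ℤ))) : ℝ := if y.1 = z then 1 else 0

theorem extf_eq (S : Finset (ℤ × ℤ)) (x : EuclideanSpace ℝ (S : Finset (ℤ × ℤ))) (z : ℤ × ℤ) :
    extf S x z = ∑ y, sh_e S z y * x y := by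
  unfold extf sh_e
  split_ifs with h
  · rw [Finset.sum_eq_single (⟨z, h⟩ : (S : Finset (ℤ × ℤ)))]
    · simp
    · intro b _ hb
      rw [if_neg]
      · simp
      · intro h2; exact hb (Subtype.ext h2)
    · intro h2; exact absurd (Finset.mem_univ _) h2
  · symm
    apply Finset.sum_eq_zero
    intro y _
    rw [if_neg]
    · simp
    · intro h2; exact h (h2 ▸ y.2)

theorem ksum (S : Finset (ℤ × ℤ)) (k : ℤ × ℤ → ℤ × ℤ → ℝ) (hk0 : ∀ z, z ∉ S → ∀ y, k z y = 0)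
    (hs : ∀ x y, k x y = k y x) (w z : ℤ × ℤ) : ∑ y : (S : Finset (ℤ × ℤ)), k w y * sh_e S z y = k w z := by
  unfold sh_e
  by_cases h : z ∈ S
  · rw [Finset.sum_eq_single (⟨z, h⟩ : (S : Finset (ℤ × ℤ)))]
    · simp
    · intro b _ hb
      rw [if_neg]
      · simp
      · intro h2; exact hb (Subtype.ext h2)
    · intro h2; exact absurd (Finset.mem_univ _) h2
  · rw [hs w z, hk0 z h w]
    apply Finset.sum_eq_zero
    intro y _
    rw [if_neg]
    · simp
    · intro h2; exact h (h2 ▸ y.2)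

open Matrix in
theorem q_eq (S : Finset (ℤ × ℤ)) (k : ℤ × ℤ → ℤ × ℤ → ℝ) (c : ↥S → ℝ) :
    c ⬝ᵥ (Matrix.of fun x y : (S : Finset (ℤ × ℤ)) => k x y) *ᵥ c = ∑ y, c y * ∑ y' : (S : Finset (ℤ × ℤ)), k y y' * c y' := by
  simp [dotProduct, mulVec]

open Matrix in
theorem q_harm (S : Finset (ℤ × ℤ)) (k : ℤ × ℤ → ℤ × ℤ → ℝ) (hk0 : ∀ z, z ∉ S → ∀ y, k z y = 0)
    (hs : ∀ x y, k x y = k y x) (z : ℤ × ℤ) (hh : ∀ y, k z y = (1 / 4) * ∑ z' ∈ nbrs z, k z' y) :
    (fun y => sh_e S z y - (1 / 4) * ∑ z' ∈ nbrs z, sh_e S z' y) ⬝ᵥ (Matrix.of fun x y : (S : Finset (ℤ × ℤ)) => k x y) *ᵥ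
      (fun y => sh_e S z y - (1 / 4) * ∑ z' ∈ nbrs z, sh_e S z' y) = 0 := by
  rw [q_eq]
  apply Finset.sum_eq_zero
  intro y _
  have : ∑ y' : (S : Finset (ℤ × ℤ)), k y y' * (sh_e S z y' - (1 / 4) * ∑ z' ∈ nbrs z, sh_e S z' y') = 0 := by
    have h1 : ∀ y' : (S : Finset (ℤ × ℤ)), k y y' * (sh_e S z y' - (1 / 4) * ∑ z' ∈ nbrs z, sh_e S z' y')
        = k y y' * sh_e S z y' - (1 / 4) * ∑ z' ∈ nbrs z, k y y' * sh_e S z' y' := by
      intro y'
      rw [← Finset.mul_sum]; ring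
    simp_rw [h1]
    rw [Finset.sum_sub_distrib, ksum S k hk0 hs, ← Finset.mul_sum, Finset.sum_comm]
    simp_rw [ksum S k hk0 hs]
    rw [hs y z, hh y]
    simp_rw [hs (y : ℤ × ℤ)]
    ring
  rw [this, mul_zero]

open Matrix in
theorem q_var (S : Finset (ℤ × ℤ)) (k : ℤ × ℤ → ℤ × ℤ → ℝ) (hk0 : ∀ z, z ∉ S → ∀ y, k z y = 0)
    (hs : ∀ x y, k x y = k y x) (z : ℤ × ℤ) (a : ↥S → ℝ) :
    (fun y => sh_e S z y - a y) ⬝ᵥ (Matrix.of fun x y : (S : Finset (ℤ × ℤ)) => k x y) *ᵥ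
      (fun y => sh_e S z y - a y) = k z z - 2 * ∑ y : (S : Finset (ℤ × ℤ)), a y * k z y +
        ∑ y : (S : Finset (ℤ × ℤ)), ∑ y' : (S : Finset (ℤ × ℤ)), a y * k y y' * a y' := by
  rw [q_eq]
  have h1 : ∀ y : (S : Finset (ℤ × ℤ)), ∑ y' : (S : Finset (ℤ × ℤ)), k y y' * (sh_e S z y' - a y') = k y z - ∑ y' : (S : Finset (ℤ × ℤ)), k y y' * a y' := by
    intro y
    simp_rw [mul_sub]
    rw [Finset.sum_sub_distrib, ksum S k hk0 hs]
  simp_rw [h1, sub_mul, mul_sub]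
  rw [Finset.sum_sub_distrib, Finset.sum_sub_distrib, Finset.sum_sub_distrib]
  have h2 : ∑ y : (S : Finset (ℤ × ℤ)), sh_e S z y * k y z = k z z := by
    rw [← ksum S k hk0 hs z z]
    apply Finset.sum_congr rfl
    intro y _
    rw [hs z y]; ring
  have h3 : ∑ y : (S : Finset (ℤ × ℤ)), sh_e S z y * ∑ y' : (S : Finset (ℤ × ℤ)), k y y' * a y' = ∑ y' : (S : Finset (ℤ × ℤ)), a y' * k z y' := by
    simp_rw [Finset.mul_sum]
    rw [Finset.sum_comm]
    apply Finset.sum_congr rfl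
    intro y' _
    rw [hs z y', ← ksum S k hk0 hs y' z, Finset.mul_sum]
    apply Finset.sum_congr rfl
    intro y _
    rw [hs y y']; ring
  have h4 : ∑ y : (S : Finset (ℤ × ℤ)), a y * k y z = ∑ y : (S : Finset (ℤ × ℤ)), a y * k z y := by
    apply Finset.sum_congr rfl
    intro y _
    rw [hs y z]
  have h5 : ∑ y : (S : Finset (ℤ × ℤ)), a y * ∑ y' : (S : Finset (ℤ × ℤ)), k y y' * a y' = ∑ y : (S : Finset (ℤ × ℤ)), ∑ y' : (S : Finset (ℤ × ℤ)), a y * k y y' * a y' := by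
    simp_rw [Finset.mul_sum]
    apply Finset.sum_congr rfl
    intro y _
    apply Finset.sum_congr rfl
    intro y' _
    ring
  rw [h2, h3, h4, h5]; ring

open Matrix in
theorem ae_zero {ι : Type*} [Fintype ι] [DecidableEq ι] (Γ : Matrix ι ι ℝ) (h : Γ.PosSemidef) (c : ι → ℝ)
    (hc : c ⬝ᵥ Γ *ᵥ c = 0) :
    ∀ᵐ x ∂(multivariateGaussian (0 : EuclideanSpace ℝ ι) Γ), ∑ y, c y * x y = 0 := by
  have h1 := sh_map Γ h c
  rw [hc, Real.toNNReal_zero, gaussianReal_zero_var] at h1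
  have hm : Measurable (fun x : EuclideanSpace ℝ ι => ∑ y, c y * x y) := by fun_prop
  have h2 : ∀ᵐ u ∂((multivariateGaussian (0 : EuclideanSpace ℝ ι) Γ).map (fun x => ∑ y, c y * x y)), u = 0 := by
    rw [h1, ae_dirac_eq]
    simp
  exact ae_of_ae_map hm.aemeasurable h2

open Matrix in
theorem mgf_lin {ι : Type*} [Fintype ι] [DecidableEq ι] (Γ : Matrix ι ι ℝ) (h : Γ.PosSemidef) (c : ι → ℝ) (v : ℝ)
    (hc : c ⬝ᵥ Γ *ᵥ c ≤ v) (hv : 0 ≤ v) (s : ℝ) :
    Integrable (fun x : EuclideanSpace ℝ ι => Real.exp (s * ∑ y, c y * x y)) (multivariateGaussian (0 : EuclideanSpace ℝ ι) Γ) ∧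
    ∫ x, Real.exp (s * ∑ y, c y * x y) ∂(multivariateGaussian (0 : EuclideanSpace ℝ ι) Γ) ≤ Real.exp (s ^ 2 * v / 2) := by
  have h1 := sh_map Γ h c
  have h2 := mgf_gaussianReal h1 s
  constructor
  · by_contra hcon
    have h3 := mgf_undef hcon
    rw [h2] at h3
    exact absurd h3 (Real.exp_pos _).ne'
  · unfold mgf at h2
    rw [h2]
    apply Real.exp_le_exp.mpr
    have h3 : ((c ⬝ᵥ Γ *ᵥ c).toNNReal : ℝ) ≤ v := by
      rw [Real.coe_toNNReal']
      exact max_le hc hv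
    nlinarith [sq_nonneg s]

theorem ball_card (z : ℤ × ℤ) (r : ℕ) : ((ball z (2 * r)).card : ℝ) = (4 * r + 1) ^ 2 := by
  unfold ball rect
  rw [Finset.card_product, Int.card_Icc, Int.card_Icc]
  have h1 : z.1 + 2 * (r : ℤ) + 1 - (z.1 - 2 * r) = ((4 * r + 1 : ℕ) : ℤ) := by push_cast; ring
  have h2 : z.2 + 2 * (r : ℤ) + 1 - (z.2 - 2 * r) = ((4 * r + 1 : ℕ) : ℤ) := by push_cast; ring
  rw [h1, h2, Int.toNat_natCast]
  push_cast
  ring

theorem mem_ball (z w : ℤ × ℤ) (r : ℤ) : w ∈ ball z r ↔ (z.1 - r ≤ w.1 ∧ w.1 ≤ z.1 + r) ∧ (z.2 - r ≤ w.2 ∧ w.2 ≤ z.2 + r) := by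
  unfold ball rect
  rw [Finset.mem_product, Finset.mem_Icc, Finset.mem_Icc]

/-- deterministic local maximum bound -/
theorem det_bound {C : ℝ} (hC : 0 < C) (hsub : ∀ (g : ℤ × ℤ → ℝ) (x : ℤ × ℤ) (n : ℕ), 1 ≤ n → (∀ z, 0 ≤ g z) →
    (∀ z ∈ ball x n, g z ≤ (1 / 4) * ∑ z' ∈ nbrs z, g z') →
    g x ≤ C / (n : ℝ) ^ 2 * ∑ z ∈ ball x (n + 1), g z) (g : ℤ × ℤ → ℝ) (z0 : ℤ × ℤ) (r : ℕ) (hr : 1 ≤ r)
    (hg : ∀ z, 0 ≤ g z) (hh : ∀ z ∈ ball z0 (2 * r), g z ≤ (1 / 4) * ∑ z' ∈ nbrs z, g z') (z : ℤ × ℤ) (hz : z ∈ ball z0 r) :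
    g z ≤ (25 * (4 * C + 1)) * ((1 / ((ball z0 (2 * r)).card : ℝ)) * ∑ z' ∈ ball z0 (2 * r), g z') := by
  have hN := ball_card z0 r
  have hr' : (1 : ℝ) ≤ r := by exact_mod_cast hr
  have hNpos : (0 : ℝ) < ((ball z0 (2 * r)).card : ℝ) := by rw [hN]; positivity
  have hN25 : ((ball z0 (2 * r)).card : ℝ) ≤ 25 * (r : ℝ) ^ 2 := by rw [hN]; nlinarith
  have hSnn : 0 ≤ ∑ z' ∈ ball z0 (2 * r), g z' := Finset.sum_nonneg (fun z _ => hg z)
  rw [mem_ball] at hz
  -- reduce to g z ≤ (4C+1)/r^2 * sum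
  have key : g z ≤ (4 * C + 1) / (r : ℝ) ^ 2 * ∑ z' ∈ ball z0 (2 * r), g z' := by
    rcases Nat.lt_or_ge r 2 with h2 | h2
    · have hr1 : r = 1 := by omega
      subst hr1
      have h3 : g z ≤ ∑ z' ∈ ball z0 (2 * ((1 : ℕ) : ℤ)), g z' := by
        apply Finset.single_le_sum (f := g) (fun z _ => hg z)
        rw [mem_ball]
        push_cast at hz ⊢
        omega
      calc g z ≤ ∑ z' ∈ ball z0 (2 * ((1 : ℕ) : ℤ)), g z' := h3
        _ ≤ (4 * C + 1) / (((1 : ℕ) : ℝ)) ^ 2 * ∑ z' ∈ ball z0 (2 * ((1 : ℕ) : ℤ)), g z' := by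
          apply le_mul_of_one_le_left hSnn
          simp
          linarith
    · have h3 := hsub g z (r - 1) (by omega) hg (by
        intro w hw
        apply hh
        rw [mem_ball] at hw ⊢
        have : ((r - 1 : ℕ) : ℤ) = (r : ℤ) - 1 := by omega
        rw [this] at hw
        omega)
      have e1 : ((r - 1 : ℕ) : ℤ) + 1 = (r : ℤ) := by omega
      have e2 : ((r - 1 : ℕ) : ℝ) = (r : ℝ) - 1 := by
        rw [Nat.cast_sub (by omega)]; simp
      rw [e1, e2] at h3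
      have h4 : ∑ z' ∈ ball z r, g z' ≤ ∑ z' ∈ ball z0 (2 * r), g z' := by
        apply Finset.sum_le_sum_of_subset_of_nonneg
        · intro w hw
          rw [mem_ball] at hw ⊢
          omega
        · intro w _ _; exact hg w
      have hr2 : (2 : ℝ) ≤ r := by exact_mod_cast h2
      have h5 : C / ((r : ℝ) - 1) ^ 2 ≤ (4 * C + 1) / (r : ℝ) ^ 2 := by
        rw [div_le_div_iff₀ (by nlinarith) (by positivity)]
        have : (r : ℝ) ^ 2 ≤ 4 * ((r : ℝ) - 1) ^ 2 := by nlinarith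
        nlinarith [sq_nonneg ((r : ℝ) - 1)]
      calc g z ≤ C / ((r : ℝ) - 1) ^ 2 * ∑ z' ∈ ball z r, g z' := h3
        _ ≤ C / ((r : ℝ) - 1) ^ 2 * ∑ z' ∈ ball z0 (2 * r), g z' := by
          apply mul_le_mul_of_nonneg_left h4; positivity
        _ ≤ _ := by apply mul_le_mul_of_nonneg_right h5 hSnn
  have h6 : (4 * C + 1) / (r : ℝ) ^ 2 ≤ (25 * (4 * C + 1)) * (1 / ((ball z0 (2 * r)).card : ℝ)) := by
    rw [mul_one_div, div_le_div_iff₀ (by positivity) hNpos]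
    nlinarith
  calc g z ≤ _ := key
    _ ≤ (25 * (4 * C + 1)) * (1 / ((ball z0 (2 * r)).card : ℝ)) * ∑ z' ∈ ball z0 (2 * r), g z' := by
      apply mul_le_mul_of_nonneg_right h6 hSnn
    _ = _ := by ring

theorem _root_.H941.sup_harm : ∃ C : ℝ, 0 < C ∧ ∀ (S : Finset (ℤ × ℤ)) (k : ℤ × ℤ → ℤ × ℤ → ℝ),
    (Matrix.of fun x y : (S : Finset (ℤ × ℤ)) => k x y).PosSemidef → (∀ z, z ∉ S → ∀ y, k z y = 0) → (∀ x y, k x y = k y x) →
    ∀ (z0 : ℤ × ℤ) (r : ℕ), 1 ≤ r → (∀ z ∈ ball z0 (2 * r), ∀ y, k z y = (1 / 4) * ∑ z' ∈ nbrs z, k z' y) →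
    ∀ (a : ↥S → ℝ) (v t : ℝ), 0 < v → 0 ≤ t →
      (∀ z ∈ ball z0 (2 * r), k z z - 2 * ∑ y : (S : Finset (ℤ × ℤ)), a y * k z y +
        ∑ y : (S : Finset (ℤ × ℤ)), ∑ y' : (S : Finset (ℤ × ℤ)), a y * k y y' * a y' ≤ v) →
      multivariateGaussian (0 : EuclideanSpace ℝ (S : Finset (ℤ × ℤ))) (Matrix.of fun x y : (S : Finset (ℤ × ℤ)) => k x y)
        {x | ∃ z ∈ ball z0 r, t < |extf S x z - ∑ y, a y * x y|} ≤
      ENNReal.ofReal (C * Real.exp (-(t ^ 2 / (C * v)))) := by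
  obtain ⟨C0, hC0, hsub⟩ := submean
  set K : ℝ := 25 * (4 * C0 + 1) with hK
  have hK1 : 1 ≤ K := by rw [hK]; linarith
  have hKpos : 0 < K := by linarith
  refine ⟨2 * K ^ 2, by positivity, ?_⟩
  intro S k hpsd hk0 hs z0 r hr hharm a v t hv ht hvar
  set μ := multivariateGaussian (0 : EuclideanSpace ℝ (S : Finset (ℤ × ℤ))) (Matrix.of fun x y : (S : Finset (ℤ × ℤ)) => k x y) with hμ
  set B := ball z0 (2 * r) with hB
  have hN := ball_card z0 r
  have hr' : (1 : ℝ) ≤ r := by exact_mod_cast hr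
  have hNpos : (0 : ℝ) < (B.card : ℝ) := by rw [hN]; positivity
  -- linear functionals
  have hGlin : ∀ (x : EuclideanSpace ℝ (S : Finset (ℤ × ℤ))) (z : ℤ × ℤ),
      extf S x z - ∑ y, a y * x y = ∑ y, (sh_e S z y - a y) * x y := by
    intro x z
    rw [extf_eq, ← Finset.sum_sub_distrib]
    apply Finset.sum_congr rfl
    intro y _; ring
  -- a.s. harmonic
  have hae : ∀ᵐ x ∂μ, ∀ z ∈ B, extf S x z = (1 / 4) * ∑ z' ∈ nbrs z, extf S x z' := by
    rw [Finset.eventually_all]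
    intro z hz
    have h1 := ae_zero _ hpsd _ (q_harm S k hk0 hs z (hharm z hz))
    filter_upwards [h1] with x hx
    have h2 : ∑ y, (sh_e S z y - (1 / 4) * ∑ z' ∈ nbrs z, sh_e S z' y) * x y = extf S x z - (1 / 4) * ∑ z' ∈ nbrs z, extf S x z' := by
      simp_rw [extf_eq, sub_mul, Finset.sum_sub_distrib]
      congr 1
      rw [Finset.sum_comm, Finset.mul_sum]
      apply Finset.sum_congr rfl
      intro y _
      rw [← Finset.sum_mul]; ring
    linarith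
  -- the exponential functional
  set θ : ℝ := t / (K ^ 2 * v) with hθ
  have hθ0 : 0 ≤ θ := by rw [hθ]; positivity
  set L : ℤ × ℤ → EuclideanSpace ℝ (S : Finset (ℤ × ℤ)) → ℝ := fun z x => ∑ y, (sh_e S z y - a y) * x y with hL
  set F : EuclideanSpace ℝ (S : Finset (ℤ × ℤ)) → ℝ := fun x =>
    ∑ z ∈ B, (1 / (B.card : ℝ)) * (Real.exp ((θ * K) * L z x) + Real.exp ((-(θ * K)) * L z x)) with hF
  have hmgf : ∀ z ∈ B, ∀ s : ℝ, Integrable (fun x => Real.exp (s * L z x)) μ ∧ ∫ x, Real.exp (s * L z x) ∂μ ≤ Real.exp (s ^ 2 * v / 2) := by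
    intro z hz s
    apply mgf_lin _ hpsd _ v _ hv.le
    rw [q_var S k hk0 hs]
    exact hvar z hz
  have hFint : Integrable F μ := by
    apply integrable_finsetSum
    intro z hz
    exact ((hmgf z hz _).1.add (hmgf z hz _).1).const_mul _
  have hFE : ∫ x, F x ∂μ ≤ 2 * Real.exp ((θ * K) ^ 2 * v / 2) := by
    rw [hF, integral_finsetSum]
    · calc ∑ z ∈ B, ∫ x, (1 / (B.card : ℝ)) * (Real.exp ((θ * K) * L z x) + Real.exp ((-(θ * K)) * L z x)) ∂μ
          ≤ ∑ z ∈ B, (1 / (B.card : ℝ)) * (2 * Real.exp ((θ * K) ^ 2 * v / 2)) := by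
            apply Finset.sum_le_sum
            intro z hz
            rw [integral_const_mul, integral_add (hmgf z hz _).1 (hmgf z hz _).1]
            apply mul_le_mul_of_nonneg_left _ (by positivity)
            have h1 := (hmgf z hz (θ * K)).2
            have h2 := (hmgf z hz (-(θ * K))).2
            rw [neg_sq] at h2
            linarith
        _ = _ := by
            rw [Finset.sum_const, nsmul_eq_mul]
            field_simp
    · intro z hz
      exact ((hmgf z hz _).1.add (hmgf z hz _).1).const_mul _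
  have hFnn : ∀ x, 0 ≤ F x := by
    intro x
    rw [hF]
    positivity
  -- inclusion
  have hincl : ∀ᵐ x ∂μ, x ∈ {x | ∃ z ∈ ball z0 r, t < |extf S x z - ∑ y, a y * x y|} → x ∈ {x | Real.exp (θ * t) ≤ F x} := by
    filter_upwards [hae] with x hx hxm
    obtain ⟨z, hz, htz⟩ := hxm
    have h1 := det_bound hC0 hsub (fun z => |extf S x z - ∑ y, a y * x y|) z0 r hr (fun z => abs_nonneg _)
      (by
        intro w hw
        have h2 := hx w hw
        rw [sum_nbrs] at h2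
        simp only [sum_nbrs]
        rw [h2]
        set A := ∑ y, a y * x y
        set b1 := extf S x (w.1 + 1, w.2)
        set b2 := extf S x (w.1 - 1, w.2)
        set b3 := extf S x (w.1, w.2 + 1)
        set b4 := extf S x (w.1, w.2 - 1)
        rw [abs_le]
        constructor
        · have := neg_abs_le (b1 - A)
          have := neg_abs_le (b2 - A)
          have := neg_abs_le (b3 - A)
          have := neg_abs_le (b4 - A)
          linarith
        · have := le_abs_self (b1 - A)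
          have := le_abs_self (b2 - A)
          have := le_abs_self (b3 - A)
          have := le_abs_self (b4 - A)
          linarith) z hz
    simp only [hGlin] at h1 htz
    have h3 : t ≤ ∑ z' ∈ B, (1 / (B.card : ℝ)) * (K * |L z' x|) := by
      rw [← Finset.mul_sum, ← Finset.mul_sum]
      calc t ≤ |∑ y, (sh_e S z y - a y) * x y| := htz.le
        _ ≤ _ := h1
        _ = _ := by rw [← hK]; ring
    have h4 : θ * t ≤ ∑ z' ∈ B, (1 / (B.card : ℝ)) * ((θ * K) * |L z' x|) := by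
      calc θ * t ≤ θ * ∑ z' ∈ B, (1 / (B.card : ℝ)) * (K * |L z' x|) := mul_le_mul_of_nonneg_left h3 hθ0
        _ = _ := by
          rw [Finset.mul_sum]
          apply Finset.sum_congr rfl
          intro z' _; ring
    have h5 := convexOn_exp.map_sum_le (t := B) (w := fun _ => 1 / (B.card : ℝ)) (p := fun z' => (θ * K) * |L z' x|)
      (fun _ _ => by positivity) (by rw [Finset.sum_const, nsmul_eq_mul]; field_simp) (fun _ _ => Set.mem_univ _)
    simp only [smul_eq_mul] at h5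
    calc Real.exp (θ * t) ≤ Real.exp (∑ z' ∈ B, (1 / (B.card : ℝ)) * ((θ * K) * |L z' x|)) := Real.exp_le_exp.mpr h4
      _ ≤ _ := h5
      _ ≤ F x := by
        rw [hF]
        apply Finset.sum_le_sum
        intro z' _
        apply mul_le_mul_of_nonneg_left _ (by positivity)
        rcases abs_cases (L z' x) with ⟨h6, _⟩ | ⟨h6, _⟩
        · rw [h6]
          have := Real.exp_pos ((-(θ * K)) * L z' x)
          linarith
        · rw [h6]
          have := Real.exp_pos ((θ * K) * L z' x)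
          have e : θ * K * -L z' x = (-(θ * K)) * L z' x := by ring
          rw [e]
          linarith
  have hmk := mul_meas_ge_le_integral_of_nonneg (ae_of_all μ hFnn) hFint (Real.exp (θ * t))
  have hfin : μ.real {x | Real.exp (θ * t) ≤ F x} ≤ 2 * Real.exp (-(t ^ 2 / (2 * K ^ 2 * v))) := by
    have h7 : Real.exp (θ * t) * μ.real {x | Real.exp (θ * t) ≤ F x} ≤ 2 * Real.exp ((θ * K) ^ 2 * v / 2) := hmk.trans hFE
    have h8 : μ.real {x | Real.exp (θ * t) ≤ F x} ≤ Real.exp (-(θ * t)) * (2 * Real.exp ((θ * K) ^ 2 * v / 2)) := by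
      calc μ.real {x | Real.exp (θ * t) ≤ F x} = Real.exp (-(θ * t)) * (Real.exp (θ * t) * μ.real {x | Real.exp (θ * t) ≤ F x}) := by
            rw [← mul_assoc, ← Real.exp_add]; simp
        _ ≤ _ := mul_le_mul_of_nonneg_left h7 (Real.exp_pos _).le
    refine h8.trans (le_of_eq ?_)
    rw [mul_left_comm, ← Real.exp_add]
    congr 2
    rw [hθ]
    field_simp
    ring
  calc μ {x | ∃ z ∈ ball z0 r, t < |extf S x z - ∑ y, a y * x y|} ≤ μ {x | Real.exp (θ * t) ≤ F x} := measure_mono_ae hincl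
    _ = ENNReal.ofReal (μ.real {x | Real.exp (θ * t) ≤ F x}) := by
      rw [ofReal_measureReal]
    _ ≤ _ := by
      apply ENNReal.ofReal_le_ofReal
      refine hfin.trans ?_
      apply mul_le_mul_of_nonneg_right _ (Real.exp_pos _).le
      nlinarith

end H941.sup_harm
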