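import Pool.Agent.H941.Defs4
import Pool.Agent.H941.A3
import Pool.Agent.H941.B.green_decomp
import Pool.Agent.H941.B.hit_sub
import Pool.Agent.H941.C.green_lower

open MeasureTheory ProbabilityTheory

namespace H941.var_lower

theorem _root_.H941.var_lower (v : ℤ × ℤ) (ρ ρ' : ℕ) (h1 : 1 ≤ ρ') (h2 : ρ' ≤ ρ) :
    (2 * Real.log ρ - Real.log (1 + 2 * ((ρ' : ℝ) + 1) ^ 2)) / 8 ≤ green (ball v ρ) v v - green (ball v ρ') v v := by
  classical
  obtain ⟨g0, goff, gsymm, gmono, grec, gsub⟩ := green_basic (ball v ρ)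
  obtain ⟨g0', goff', -, gmono', -, -⟩ := green_basic (ball v ρ')
  have hsub : ball v ρ' ⊆ ball v ρ := by
    intro z hz
    simp only [ball, rect, Finset.mem_product, Finset.mem_Icc] at hz ⊢
    have : (ρ' : ℤ) ≤ ρ := by exact_mod_cast h2
    omega
  have hmono := gmono' (ball v ρ) hsub v v
  set L := (2 * Real.log ρ - Real.log (1 + 2 * ((ρ' : ℝ) + 1) ^ 2)) / 8 with hL
  by_cases hLn : L ≤ 0
  · linarith
  push Not at hLn
  have hρ1 : (1:ℝ) ≤ ρ := by exact_mod_cast h1.trans h2
  have hlt : ρ' < ρ := by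
    rcases Nat.lt_or_ge ρ' ρ with h | h
    · exact h
    · exfalso
      have he : ρ' = ρ := le_antisymm h2 h
      have h3 : 2 * Real.log (ρ:ℝ) = Real.log ((ρ:ℝ)^2) := by
        rw [Real.log_pow]; push_cast; ring
      have h4 : Real.log ((ρ:ℝ)^2) ≤ Real.log (1 + 2 * ((ρ' : ℝ) + 1) ^ 2) := by
        apply Real.log_le_log (by positivity)
        rw [he]; nlinarith
      have : L ≤ 0 := by rw [hL, h3]; linarith
      linarith
  -- the set `K`
  set D := ball v ρ with hD
  set K := D \ ball v ρ' with hK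
  have hDK : D \ K = ball v ρ' := by
    ext z
    rw [hK, Finset.mem_sdiff, Finset.mem_sdiff]
    constructor
    · rintro ⟨h8, h9⟩
      by_contra hcon
      exact h9 ⟨h8, hcon⟩
    · intro h8
      exact ⟨hsub h8, fun h9 => h9.2 h8⟩
  have hvball : v ∈ ball v ρ' := by
    simp only [ball, rect, Finset.mem_product, Finset.mem_Icc]
    omega
  have hvK : v ∉ K := by
    rw [hK, Finset.mem_sdiff]; exact fun h => h.2 hvball
  have hKD : K ⊆ D := Finset.sdiff_subset
  have hdec := green_decomp D K v v hvK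
  rw [hDK] at hdec
  have hhit0 : ∀ b, 0 ≤ hit D K v b := by
    intro b
    unfold hit
    rw [hDK]
    exact mul_nonneg (by norm_num) (Finset.sum_nonneg fun u _ => g0' v u)
  have hcard : ∀ x : ℤ × ℤ, (nbrs x).card = 4 := by
    intro x
    unfold nbrs
    rw [Finset.card_insert_of_notMem, Finset.card_insert_of_notMem, Finset.card_insert_of_notMem,
      Finset.card_singleton]
    · simp only [Finset.mem_singleton, Prod.mk.injEq]; omega
    · simp only [Finset.mem_insert, Finset.mem_singleton, Prod.mk.injEq]; omega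
    · simp only [Finset.mem_insert, Finset.mem_singleton, Prod.mk.injEq]; omega
  have hnb : ∀ x z : ℤ × ℤ, z ∈ nbrs x → |z.1 - x.1| ≤ 1 ∧ |z.2 - x.2| ≤ 1 := by
    intro x z hz
    simp only [nbrs, Finset.mem_insert, Finset.mem_singleton] at hz
    rcases hz with rfl | rfl | rfl | rfl <;> simp
  -- total mass one
  have hmass : 1 ≤ ∑ b ∈ K, hit D K v b := by
    have h := hit_sub D K hKD (fun z => if z ∈ D then 1 else 0) (by
      intro z hz; simp [hz]) (by
      intro x hx
      rw [hDK] at hx
      have hxD : x ∈ D := hsub hx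
      have h5 : ∀ z ∈ nbrs x, (if z ∈ D then (1:ℝ) else 0) = 1 := by
        intro z hz
        have h6 := hnb x z hz
        have : z ∈ D := by
          rw [abs_le, abs_le] at h6
          simp only [hD, ball, rect, Finset.mem_product, Finset.mem_Icc] at hx ⊢
          have : (ρ' : ℤ) + 1 ≤ ρ := by exact_mod_cast hlt
          omega
        simp [this]
      rw [Finset.sum_congr rfl h5, Finset.sum_const, hcard]
      simp [hxD]) v (by rw [hDK]; exact hvball)
    have hvD : v ∈ D := hsub hvball
    simp only [hvD, if_true] at h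
    refine h.trans (Finset.sum_le_sum fun b hb => ?_)
    have : b ∈ D := hKD hb
    simp [this]
  have hterm : ∀ b ∈ K, L * hit D K v b ≤ hit D K v b * green D b v := by
    intro b hb
    by_cases hz : hit D K v b = 0
    · rw [hz]; simp
    · have hpos : 0 < hit D K v b := lt_of_le_of_ne (hhit0 b) (Ne.symm hz)
      -- some neighbour in the small ball
      have hex : ∃ u ∈ nbrs b, green (ball v ρ') v u ≠ 0 := by
        by_contra hcon
        push Not at hcon
        apply hz
        unfold hit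
        rw [hDK, Finset.sum_eq_zero hcon, mul_zero]
      obtain ⟨u, hu, hgu⟩ := hex
      have huB : u ∈ ball v ρ' := by
        by_contra hcon
        exact hgu (goff' v u (Or.inr hcon))
      have h6 := hnb b u hu
      rw [abs_le, abs_le] at h6
      simp only [ball, rect, Finset.mem_product, Finset.mem_Icc] at huB
      have e1 : |b.1 - v.1| ≤ (ρ':ℤ) + 1 := by rw [abs_le]; omega
      have e2 : |b.2 - v.2| ≤ (ρ':ℤ) + 1 := by rw [abs_le]; omega
      have e1' : |(b.1:ℝ) - v.1| ≤ (ρ':ℝ) + 1 := by exact_mod_cast e1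
      have e2' : |(b.2:ℝ) - v.2| ≤ (ρ':ℝ) + 1 := by exact_mod_cast e2
      have s1 : ((b.1:ℝ) - v.1)^2 ≤ ((ρ':ℝ) + 1)^2 := by
        rw [← sq_abs]; exact pow_le_pow_left₀ (abs_nonneg _) e1' 2
      have s2 : ((b.2:ℝ) - v.2)^2 ≤ ((ρ':ℝ) + 1)^2 := by
        rw [← sq_abs]; exact pow_le_pow_left₀ (abs_nonneg _) e2' 2
      have hlow := green_lower v b ρ (h1.trans h2)
      have hlog : Real.log (1 + ((b.1 : ℝ) - v.1) ^ 2 + ((b.2 : ℝ) - v.2) ^ 2) ≤
          Real.log (1 + 2 * ((ρ' : ℝ) + 1) ^ 2) := by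
        apply Real.log_le_log (by positivity)
        linarith
      have hLg : L ≤ green D b v := by
        refine le_trans ?_ hlow
        rw [hL]; linarith
      rw [mul_comm]
      exact mul_le_mul_of_nonneg_left hLg (hhit0 b)
  have hsum : L * ∑ b ∈ K, hit D K v b ≤ ∑ b ∈ K, hit D K v b * green D b v := by
    rw [Finset.mul_sum]
    exact Finset.sum_le_sum hterm
  have h7 : L ≤ L * ∑ b ∈ K, hit D K v b := by
    nlinarith
  linarith

end H941.var_lower
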