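import Pool.Agent.H941.Defs4
import Pool.Agent.H941.A3
import Pool.Agent.H941.A4
import Pool.Agent.H941.B.green_decomp
import Pool.Agent.H941.C.arm_dev
import Pool.Agent.H941.C.var_lower

open MeasureTheory ProbabilityTheory

namespace H941.block_bad

namespace block_bad


theorem psd (S : Finset (ℤ × ℤ)) :
    (Matrix.of fun x y : (S : Finset (ℤ × ℤ)) => (1 / 4) * green S x y).PosSemidef := by
  apply Matrix.PosSemidef.of_dotProduct_mulVec_nonneg
  · ext x y
    simp only [Matrix.conjTranspose_apply, Matrix.of_apply, star_trivial]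
    rw [(green_basic S).2.2.1]
  · intro f
    have h0 : ∀ x y, green (∅ : Finset (ℤ × ℤ)) x y = 0 := fun x y =>
      (green_basic ∅).2.1 x y (Or.inl (by simp))
    have h := green_psd ∅ S (Finset.empty_subset _) (fun v => if h : v ∈ S then f ⟨v, h⟩ else 0)
    simp only [h0, sub_zero] at h
    rw [← Finset.sum_coe_sort S] at h
    have h2 : ∀ i : (S : Finset (ℤ × ℤ)), ∑ y ∈ S,
        (if h : (i : ℤ × ℤ) ∈ S then f ⟨i, h⟩ else 0) * green S i y * (if h : y ∈ S then f ⟨y, h⟩ else 0) =
        ∑ y : (S : Finset (ℤ × ℤ)), f i * green S i y * f y := by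
      intro i
      rw [← Finset.sum_coe_sort S]
      apply Finset.sum_congr rfl
      intro y _
      rw [dif_pos i.2, dif_pos y.2]
    rw [Finset.sum_congr rfl (fun i _ => h2 i)] at h
    simp only [star_trivial, dotProduct, Matrix.mulVec, Matrix.of_apply]
    have h3 : ∑ x : (S : Finset (ℤ × ℤ)), f x * ∑ y : (S : Finset (ℤ × ℤ)), (1 / 4) * green S x y * f y =
        (1 / 4) * ∑ x : (S : Finset (ℤ × ℤ)), ∑ y : (S : Finset (ℤ × ℤ)), f x * green S x y * f y := by
      rw [Finset.mul_sum]
      apply Finset.sum_congr rfl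
      intro x _
      rw [Finset.mul_sum, Finset.mul_sum]
      apply Finset.sum_congr rfl
      intro y _
      ring
    rw [h3]
    positivity

open scoped RealInnerProductSpace in
theorem lin_law (S : Finset (ℤ × ℤ)) (w : ↥S → ℝ) :
    (gf S S).map (fun x => ∑ y, w y * x y) = gaussianReal 0
      ((1 / 4) * ∑ x : (S : Finset (ℤ × ℤ)), ∑ y : (S : Finset (ℤ × ℤ)), w x * green S x y * w y).toNNReal := by
  set W : EuclideanSpace ℝ (S : Finset (ℤ × ℤ)) := WithLp.toLp 2 w with hW
  have h1 : (fun x : EuclideanSpace ℝ (S : Finset (ℤ × ℤ)) => ∑ y, w y * x y) = innerSL ℝ W := by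
    funext x
    simp [PiLp.inner_apply, hW, mul_comm]
  have hG : IsGaussian (gf S S) := by
    unfold gf
    infer_instance
  rw [h1, IsGaussian.map_eq_gaussianReal]
  congr 1
  · have h5 := (innerSL ℝ W).integral_comp_id_comm (μ := gf S S) IsGaussian.integrable_id
    have h6 : ∫ x, x ∂(gf S S) = 0 := by
      unfold gf
      simp
    rw [h5, h6, map_zero]
  · congr 1
    have h2 := covarianceBilin_self (μ := gf S S) IsGaussian.memLp_two_id W
    have h3 : (Var[innerSL ℝ W; gf S S]) = covarianceBilin (gf S S) W W := by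
      rw [h2]
      rfl
    rw [h3]
    unfold gf
    rw [covarianceBilin_multivariateGaussian (psd S)]
    simp only [dotProduct, Matrix.mulVec, Matrix.of_apply, hW]
    rw [Finset.mul_sum]
    apply Finset.sum_congr rfl
    intro x _
    rw [Finset.mul_sum, Finset.mul_sum]
    apply Finset.sum_congr rfl
    intro y _
    ring

theorem interval (s a b : ℝ) (hs : 0 < s) :
    gaussianReal 0 s.toNNReal (Set.Ioo a b) ≤ ENNReal.ofReal ((b - a) / Real.sqrt (2 * Real.pi * s)) := by
  have hv : s.toNNReal ≠ 0 := by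
    rw [ne_eq, Real.toNNReal_eq_zero, not_le]
    exact hs
  rw [gaussianReal_apply _ hv]
  have hcoe : ((s.toNNReal : NNReal) : ℝ) = s := Real.coe_toNNReal s hs.le
  calc ∫⁻ x in Set.Ioo a b, gaussianPDF 0 s.toNNReal x
      ≤ ∫⁻ x in Set.Ioo a b, ENNReal.ofReal (1 / Real.sqrt (2 * Real.pi * s)) := by
        apply lintegral_mono
        intro x
        unfold gaussianPDF
        apply ENNReal.ofReal_le_ofReal
        unfold gaussianPDFReal
        rw [hcoe, one_div]
        have : Real.exp (-(x - 0) ^ 2 / (2 * s)) ≤ 1 := by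
          apply Real.exp_le_one_iff.2
          apply div_nonpos_of_nonpos_of_nonneg
          · nlinarith [sq_nonneg (x - 0)]
          · linarith
        calc _ ≤ (Real.sqrt (2 * Real.pi * s))⁻¹ * 1 := mul_le_mul_of_nonneg_left this (by positivity)
          _ = _ := mul_one _
    _ = ENNReal.ofReal (1 / Real.sqrt (2 * Real.pi * s)) * ENNReal.ofReal (b - a) := by
        rw [setLIntegral_const, Real.volume_Ioo]
    _ = ENNReal.ofReal ((b - a) / Real.sqrt (2 * Real.pi * s)) := by
        rw [← ENNReal.ofReal_mul (by positivity)]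
        congr 1
        ring

theorem gf_neg (S : Finset (ℤ × ℤ)) (A : Set (EuclideanSpace ℝ (S : Finset (ℤ × ℤ)))) :
    gf S S {x | -x ∈ A} = gf S S A := by
  have h : (gf S S).map (MeasurableEquiv.neg (EuclideanSpace ℝ (S : Finset (ℤ × ℤ)))) = gf S S := by
    have h1 : IsProbabilityMeasure (gf S S) := by
      unfold gf
      infer_instance
    have h2 : IsProbabilityMeasure ((gf S S).map (MeasurableEquiv.neg (EuclideanSpace ℝ (S : Finset (ℤ × ℤ))))) :=
      Measure.isProbabilityMeasure_map (by fun_prop)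
    apply Measure.ext_of_charFun
    funext t
    have h3 : charFun ((gf S S).map (MeasurableEquiv.neg (EuclideanSpace ℝ (S : Finset (ℤ × ℤ))))) t =
        charFun (gf S S) (-t) := by
      rw [charFun_apply, charFun_apply, integral_map (by fun_prop) (by fun_prop)]
      simp
    rw [h3]
    unfold gf
    rw [charFun_multivariateGaussian (psd S), charFun_multivariateGaussian (psd S)]
    simp [Matrix.mulVec_neg]
  conv_rhs => rw [← h]
  rw [MeasurableEquiv.map_apply]
  rfl

end block_bad

theorem _root_.H941.block_bad : ∃ Cb : ℝ, 1 ≤ Cb ∧ ∀ (u Kh q lam : ℝ) (W ρ : ℕ) (v c : ℤ × ℤ) (h : ℤ × ℤ → ℝ),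
    128 ≤ W → 1 ≤ u → Real.exp (Cb * u ^ 2) * W ≤ ρ → 0 ≤ q → q ≤ 1 / 64 → HypA u Kh q W →
    |c.1 - v.1| ≤ (W : ℤ) → |c.2 - v.2| ≤ (W : ℤ) → (∀ z ∈ ball v (5 * W), |h z - h v| ≤ 1) →
    gf (ball v ρ) (ball v ρ) {x | bad lam Kh c W (fun z => h z + extf (ball v ρ) x z)} ≤ ENNReal.ofReal (1 / 4) := by
  obtain ⟨Cm, hCm1, hCm⟩ := arm_dev
  refine ⟨1000 * (3 + 2 * Cm) ^ 2, by nlinarith, ?_⟩
  intro u Kh q lam W ρ v c h hW hu hρ hq0 hq hA hc1 hc2 hh
  have hW0 : (0 : ℝ) < W := by
    have : (128 : ℝ) ≤ W := by exact_mod_cast hW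
    linarith
  have hW128 : (128 : ℝ) ≤ W := by exact_mod_cast hW
  set Cb : ℝ := 1000 * (3 + 2 * Cm) ^ 2 with hCb
  have hCb0 : 8 ≤ Cb := by nlinarith
  have hu2 : 1 ≤ u ^ 2 := by nlinarith
  have hCbu : 8 ≤ Cb * u ^ 2 := by nlinarith
  have hexp : 8 ≤ Real.exp (Cb * u ^ 2) := by
    have := Real.add_one_le_exp (Cb * u ^ 2)
    linarith
  have h8 : 8 * W ≤ ρ := by
    have h1 : (8 : ℝ) * W ≤ ρ := by
      refine le_trans ?_ hρ
      exact mul_le_mul_of_nonneg_right hexp hW0.le
    exact_mod_cast h1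
  have hρ0 : (0 : ℝ) < ρ := lt_of_lt_of_le (by positivity) hρ
  set S : Finset (ℤ × ℤ) := ball v ρ with hS
  set S' : Finset (ℤ × ℤ) := ball v (8 * W) with hS'
  have hSS' : S' ⊆ S := by
    intro z hz
    rw [hS', ball, rect, Finset.mem_product, Finset.mem_Icc, Finset.mem_Icc] at hz
    rw [hS, ball, rect, Finset.mem_product, Finset.mem_Icc, Finset.mem_Icc]
    omega
  have hvS' : v ∈ S' := by
    rw [hS', ball, rect, Finset.mem_product, Finset.mem_Icc, Finset.mem_Icc]
    omega
  set K : Finset (ℤ × ℤ) := S \ S' with hK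
  have hvK : v ∉ K := by
    rw [hK, Finset.mem_sdiff]
    exact fun hx => hx.2 hvS'
  have hSK : S \ K = S' := by
    rw [hK]
    ext z
    simp only [Finset.mem_sdiff, not_and, not_not]
    exact ⟨fun hz => hz.2 hz.1, fun hz => ⟨hSS' hz, fun _ => hz⟩⟩
  -- the functional
  set w : ↥S → ℝ := fun y => if (y : ℤ × ℤ) ∈ K then hit S K v y else 0 with hw
  have hl : ∀ x : EuclideanSpace ℝ (S : Finset (ℤ × ℤ)),
      ∑ y ∈ K, hit S K v y * extf S x y = ∑ y, w y * x y := by
    intro x
    have h1 : ∑ y ∈ K, hit S K v y * extf S x y = ∑ y ∈ S, (if y ∈ K then hit S K v y else 0) * extf S x y := by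
      symm
      rw [← Finset.sum_subset (Finset.sdiff_subset : S \ S' ⊆ S)]
      · apply Finset.sum_congr rfl
        intro y hy
        rw [if_pos hy]
      · intro y _ hy
        rw [if_neg hy, zero_mul]
    rw [h1, ← Finset.sum_coe_sort S]
    apply Finset.sum_congr rfl
    intro y _
    rw [hw]
    unfold extf
    rw [dif_pos y.2]
  -- variance
  have hvar : ∑ x : ↥S, ∑ y : ↥S, w x * green S x y * w y = green S v v - green S' v v := by
    have h1 : ∀ y ∈ K, green S v y = ∑ x ∈ K, hit S K v x * green S x y := by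
      intro y hy
      have h2 := green_decomp S K v y hvK
      rw [hSK, (green_basic S').2.1 v y (Or.inr (by
        rw [hK, Finset.mem_sdiff] at hy
        exact hy.2)), zero_add] at h2
      exact h2
    have h3 : ∑ x : ↥S, ∑ y : ↥S, w x * green S x y * w y =
        ∑ x ∈ K, ∑ y ∈ K, hit S K v x * green S x y * hit S K v y := by
      have h4 : ∀ g : ℤ × ℤ → ℝ, ∑ y : ↥S, (if (y : ℤ × ℤ) ∈ K then g y else 0) = ∑ y ∈ K, g y := by
        intro g
        rw [Finset.sum_coe_sort S (fun y => if y ∈ K then g y else 0)]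
        symm
        rw [← Finset.sum_subset (Finset.sdiff_subset : S \ S' ⊆ S)]
        · apply Finset.sum_congr rfl
          intro y hy
          rw [if_pos hy]
        · intro y _ hy
          rw [if_neg hy]
      rw [← h4]
      apply Finset.sum_congr rfl
      intro x _
      by_cases hx : (x : ℤ × ℤ) ∈ K
      · rw [if_pos hx, ← h4]
        apply Finset.sum_congr rfl
        intro y _
        simp only [hw]
        by_cases hy : (y : ℤ × ℤ) ∈ K
        · rw [if_pos hx, if_pos hy, if_pos hy]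
        · rw [if_neg hy, if_neg hy, mul_zero]
      · rw [if_neg hx]
        apply Finset.sum_eq_zero
        intro y _
        simp only [hw]
        rw [if_neg hx, zero_mul, zero_mul]
    rw [h3, Finset.sum_comm]
    have h5 : ∀ y ∈ K, ∑ x ∈ K, hit S K v x * green S x y * hit S K v y = hit S K v y * green S y v := by
      intro y hy
      rw [← Finset.sum_mul, ← h1 y hy, (green_basic S).2.2.1 y v]
      ring
    rw [Finset.sum_congr rfl h5]
    have h6 := green_decomp S K v v hvK
    rw [hSK] at h6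
    linarith
  set s : ℝ := (1 / 4) * (green S v v - green S' v v) with hs
  have hs_low : 43 * (3 + 2 * Cm) ^ 2 * u ^ 2 ≤ s := by
    have h1 := var_lower v ρ (8 * W) (by omega) h8
    have h2 : Cb * u ^ 2 + Real.log W ≤ Real.log ρ := by
      have h3 : Real.log (Real.exp (Cb * u ^ 2) * W) ≤ Real.log ρ := Real.log_le_log (by positivity) hρ
      rw [Real.log_mul (by positivity) (by positivity), Real.log_exp] at h3
      exact h3
    have h4 : Real.log (1 + 2 * (((8 * W : ℕ) : ℝ) + 1) ^ 2) ≤ 6 + 2 * Real.log W := by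
      have h5 : (1 + 2 * (((8 * W : ℕ) : ℝ) + 1) ^ 2) ≤ Real.exp 6 * W ^ 2 := by
        have h6 : (163 : ℝ) ≤ Real.exp 6 := by
          have h7 : (2.7 : ℝ) ≤ Real.exp 1 := by
            have := Real.exp_one_gt_d9
            linarith
          have h8 : Real.exp 6 = Real.exp 1 ^ 6 := by
            rw [← Real.exp_nat_mul]
            norm_num
          rw [h8]
          calc (163 : ℝ) ≤ 2.7 ^ 6 := by norm_num
            _ ≤ Real.exp 1 ^ 6 := pow_le_pow_left₀ (by norm_num) h7 6
        push_cast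
        nlinarith
      calc Real.log (1 + 2 * (((8 * W : ℕ) : ℝ) + 1) ^ 2) ≤ Real.log (Real.exp 6 * W ^ 2) :=
            Real.log_le_log (by positivity) h5
        _ = 6 + 2 * Real.log W := by
            rw [Real.log_mul (by positivity) (by positivity), Real.log_exp, Real.log_pow]
            norm_num
    have h9 : green (ball v (((8 * W : ℕ) : ℤ))) v v = green S' v v := by
      rw [hS']
      push_cast
      rfl
    rw [h9] at h1
    rw [hs]
    have h10 : (3 + 2 * Cm) ^ 2 ≥ 25 := by nlinarith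
    have h11 : 25 ≤ (3 + 2 * Cm) ^ 2 * u ^ 2 := by nlinarith
    nlinarith
  have hs0 : 0 < s := by
    have h10 : (3 + 2 * Cm) ^ 2 ≥ 25 := by nlinarith
    have h11 : 25 ≤ (3 + 2 * Cm) ^ 2 * u ^ 2 := by nlinarith
    nlinarith
  -- the middle part
  have hmid : gf S S {x | lam - u - Cm < h v + ∑ y ∈ K, hit S K v y * extf S x y ∧
      h v + ∑ y ∈ K, hit S K v y * extf S x y < lam + 1 + u + Cm} ≤ ENNReal.ofReal (1 / 16) := by
    have h1 : {x : EuclideanSpace ℝ (S : Finset (ℤ × ℤ)) | lam - u - Cm < h v + ∑ y ∈ K, hit S K v y * extf S x y ∧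
        h v + ∑ y ∈ K, hit S K v y * extf S x y < lam + 1 + u + Cm} =
        (fun x => ∑ y, w y * x y) ⁻¹' (Set.Ioo (lam - u - Cm - h v) (lam + 1 + u + Cm - h v)) := by
      ext x
      simp only [Set.mem_ofPred_eq, Set.mem_preimage, Set.mem_Ioo]
      rw [hl x]
      constructor
      · rintro ⟨a1, a2⟩
        exact ⟨by linarith, by linarith⟩
      · rintro ⟨a1, a2⟩
        exact ⟨by linarith, by linarith⟩
    rw [h1, ← Measure.map_apply (by fun_prop) measurableSet_Ioo, block_bad.lin_law S w, hvar]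
    refine (block_bad.interval s _ _ hs0).trans ?_
    apply ENNReal.ofReal_le_ofReal
    rw [div_le_iff₀ (by positivity)]
    have h2 : 16 * ((3 + 2 * Cm) * u) ≤ Real.sqrt (2 * Real.pi * s) := by
      apply Real.le_sqrt_of_sq_le
      have h3 : 3 ≤ Real.pi := Real.pi_gt_three.le
      have h4 : 6 * s ≤ 2 * Real.pi * s := by nlinarith
      nlinarith
    nlinarith
  -- the arms
  have harm : ∀ (h' : ℤ × ℤ → ℝ) (lam' : ℝ), (∀ z ∈ ball v (5 * W), |h' z - h' v| ≤ 1) →
      gf S S {x | h' v + ∑ y ∈ K, hit S K v y * extf S x y ≤ lam' - u - Cm ∧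
        ¬ circuitOK c W (W / 4) lam' (Kh * W) (fun z => h' z + extf S x z)} ≤
      ENNReal.ofReal (4 * (q + 1 / 256)) := by
    intro h' lam' hh'
    have e1 := hCm u Kh q lam' W ρ v c true (c.1 - 3 * W, c.2 + W) h' hW h8 hq0 hA hc1 hc2
      (Or.inl ⟨rfl, rfl⟩) hh'
    have e2 := hCm u Kh q lam' W ρ v c true (c.1 - 3 * W, c.2 - 2 * W) h' hW h8 hq0 hA hc1 hc2
      (Or.inr (Or.inl ⟨rfl, rfl⟩)) hh'
    have e3 := hCm u Kh q lam' W ρ v c false (c.1 + W, c.2 - 3 * W) h' hW h8 hq0 hA hc1 hc2
      (Or.inr (Or.inr (Or.inl ⟨rfl, rfl⟩))) hh'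
    have e4 := hCm u Kh q lam' W ρ v c false (c.1 - 2 * W, c.2 - 3 * W) h' hW h8 hq0 hA hc1 hc2
      (Or.inr (Or.inr (Or.inr ⟨rfl, rfl⟩))) hh'
    have hsub : {x | h' v + ∑ y ∈ K, hit S K v y * extf S x y ≤ lam' - u - Cm ∧
        ¬ circuitOK c W (W / 4) lam' (Kh * W) (fun z => h' z + extf S x z)} ⊆
        (({x | h' v + ∑ y ∈ K, hit S K v y * extf S x y ≤ lam' - u - Cm ∧
          ¬ armOK true (c.1 - 3 * W, c.2 + W) W (W / 4) lam' (Kh * W) (fun z => h' z + extf S x z)} ∪
        {x | h' v + ∑ y ∈ K, hit S K v y * extf S x y ≤ lam' - u - Cm ∧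
          ¬ armOK true (c.1 - 3 * W, c.2 - 2 * W) W (W / 4) lam' (Kh * W) (fun z => h' z + extf S x z)}) ∪
        ({x | h' v + ∑ y ∈ K, hit S K v y * extf S x y ≤ lam' - u - Cm ∧
          ¬ armOK false (c.1 + W, c.2 - 3 * W) W (W / 4) lam' (Kh * W) (fun z => h' z + extf S x z)} ∪
        {x | h' v + ∑ y ∈ K, hit S K v y * extf S x y ≤ lam' - u - Cm ∧
          ¬ armOK false (c.1 - 2 * W, c.2 - 3 * W) W (W / 4) lam' (Kh * W) (fun z => h' z + extf S x z)}) :
          Set (EuclideanSpace ℝ (S : Finset (ℤ × ℤ)))) := by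
      intro x hx
      obtain ⟨hx1, hx2⟩ := hx
      unfold circuitOK at hx2
      by_cases b1 : armOK true (c.1 - 3 * W, c.2 + W) W (W / 4) lam' (Kh * W) (fun z => h' z + extf S x z)
      · by_cases b2 : armOK true (c.1 - 3 * W, c.2 - 2 * W) W (W / 4) lam' (Kh * W) (fun z => h' z + extf S x z)
        · by_cases b3 : armOK false (c.1 + W, c.2 - 3 * W) W (W / 4) lam' (Kh * W) (fun z => h' z + extf S x z)
          · right
            right
            exact ⟨hx1, fun b4 => hx2 ⟨b1, b2, b3, b4⟩⟩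
          · right
            left
            exact ⟨hx1, b3⟩
        · left
          right
          exact ⟨hx1, b2⟩
      · left
        left
        exact ⟨hx1, b1⟩
    refine (measure_mono hsub).trans ?_
    refine (measure_union_le _ _).trans ?_
    refine (add_le_add (measure_union_le _ _) (measure_union_le _ _)).trans ?_
    refine (add_le_add (add_le_add e1 e2) (add_le_add e3 e4)).trans ?_
    rw [← ENNReal.ofReal_add (by positivity) (by positivity), ← ENNReal.ofReal_add (by positivity) (by positivity)]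
    apply le_of_eq
    congr 1
    ring
  have hneg : gf S S {x | lam + 1 + u + Cm ≤ h v + ∑ y ∈ K, hit S K v y * extf S x y ∧
        ¬ circuitOK c W (W / 4) (-(lam + 1)) (Kh * W) (fun z => -(h z + extf S x z))} ≤
      ENNReal.ofReal (4 * (q + 1 / 256)) := by
    have h1 := harm (fun z => -h z) (-(lam + 1)) (by
      intro z hz
      have := hh z hz
      rw [abs_sub_comm] at this
      have h2 : -h z - -h v = h v - h z := by ring
      rw [h2]
      exact this)
    rw [← block_bad.gf_neg] at h1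
    refine le_trans (measure_mono ?_) h1
    intro x hx
    obtain ⟨hx1, hx2⟩ := hx
    have h3 : ∀ z, extf S (-x) z = - extf S x z := by
      intro z
      unfold extf
      by_cases hz : z ∈ S
      · rw [dif_pos hz, dif_pos hz]
        rfl
      · rw [dif_neg hz, dif_neg hz, neg_zero]
    simp only [Set.mem_ofPred_eq, h3]
    constructor
    · simp only [mul_neg, Finset.sum_neg_distrib]
      linarith
    · have h4 : (fun z => -h z + -extf S x z) = (fun z => -(h z + extf S x z)) := by
        funext z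
        ring
      rw [h4]
      exact hx2
  have htot : {x : EuclideanSpace ℝ (S : Finset (ℤ × ℤ)) | bad lam Kh c W (fun z => h z + extf S x z)} ⊆
      ({x | lam - u - Cm < h v + ∑ y ∈ K, hit S K v y * extf S x y ∧
        h v + ∑ y ∈ K, hit S K v y * extf S x y < lam + 1 + u + Cm} ∪
      ({x | h v + ∑ y ∈ K, hit S K v y * extf S x y ≤ lam - u - Cm ∧
        ¬ circuitOK c W (W / 4) lam (Kh * W) (fun z => h z + extf S x z)} ∪
      {x | lam + 1 + u + Cm ≤ h v + ∑ y ∈ K, hit S K v y * extf S x y ∧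
        ¬ circuitOK c W (W / 4) (-(lam + 1)) (Kh * W) (fun z => -(h z + extf S x z))})) := by
    intro x hx
    obtain ⟨hx1, hx2⟩ := hx
    rcases le_or_gt (h v + ∑ y ∈ K, hit S K v y * extf S x y) (lam - u - Cm) with h1 | h1
    · right
      left
      exact ⟨h1, hx1⟩
    · rcases le_or_gt (lam + 1 + u + Cm) (h v + ∑ y ∈ K, hit S K v y * extf S x y) with h2 | h2
      · right
        right
        exact ⟨h2, hx2⟩
      · left
        exact ⟨h1, h2⟩
  refine (measure_mono htot).trans ?_
  refine (measure_union_le _ _).trans ?_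
  refine (add_le_add hmid ((measure_union_le _ _).trans (add_le_add (harm h lam hh) hneg))).trans ?_
  rw [← ENNReal.ofReal_add (by positivity) (by positivity), ← ENNReal.ofReal_add (by positivity) (by positivity)]
  apply ENNReal.ofReal_le_ofReal
  linarith

end H941.block_bad
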