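import Pool.Agent.H941.Defs4
import Pool.Agent.H941.A3
import Pool.Agent.H941.A4
import Pool.Agent.H941.B.circuit_lemma
import Pool.Agent.H941.B.expl_facts
import Pool.Agent.H941.B.green_log_off
import Pool.Agent.H941.B.harm_grad
import Pool.Agent.H941.C.chain
import Pool.Agent.H941.C.markov_split

open MeasureTheory ProbabilityTheory

namespace H941.density

theorem density_mem_ball {x z : ℤ × ℤ} {r : ℤ} :
    z ∈ ball x r ↔ |z.1 - x.1| ≤ r ∧ |z.2 - x.2| ≤ r := by
  simp only [ball, rect, Finset.mem_product, Finset.mem_Icc, abs_le]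
  constructor
  · rintro ⟨⟨h1, h2⟩, h3, h4⟩
    exact ⟨⟨by linarith, by linarith⟩, by linarith, by linarith⟩
  · rintro ⟨⟨h1, h2⟩, h3, h4⟩
    exact ⟨⟨by linarith, by linarith⟩, by linarith, by linarith⟩

theorem density_cr (i : ℕ) (v : ℤ × ℤ) :
    |(cr i v).1 - v.1| ≤ 2 ^ i ∧ |(cr i v).2 - v.2| ≤ 2 ^ i := by
  have h : ∀ a : ℤ, |2 ^ i * (a / 2 ^ i) - a| ≤ 2 ^ i := by
    intro a
    have h1 := Int.emod_add_mul_ediv a (2 ^ i)
    have hp : (0 : ℤ) < 2 ^ i := by positivity
    have h2 := Int.emod_nonneg a hp.ne'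
    have h3 := Int.emod_lt_of_pos a hp
    rw [abs_le]
    constructor <;> linarith
  exact ⟨h v.1, h v.2⟩

/-- the deterministic part -/
theorem density_det {w d j e : ℕ} {v : ℤ × ℤ} {lam Kh : ℝ} {f : ℤ × ℤ → ℝ}
    (hd : 1 ≤ d) (hdw : 2 * d + 1 ≤ w)
    (hball : ball v (2 ^ e) ⊆ rect (w + 1) (5 * w) d (w - d))
    (hvis : ∃ k, ∃ z ∈ Lk w d lam f k, z ∈ ball v (2 ^ j))
    (hno : ∀ i, j < i → ¬ goodB w d lam (512 * Kh) f i (cr i v)) {i : ℕ} (hi : j < i)
    (hie : 257 * 2 ^ i ≤ 2 ^ e) : bad lam Kh (cr i v) (128 * 2 ^ i) f := by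
  obtain ⟨c1, c2⟩ := density_cr i v
  have hieZ : (257 : ℤ) * 2 ^ i ≤ 2 ^ e := by exact_mod_cast hie
  have hpi : (1 : ℤ) ≤ 2 ^ i := one_le_pow₀ (by norm_num)
  have hpiN : (1 : ℕ) ≤ 2 ^ i := Nat.one_le_two_pow
  have hcast : ((128 * 2 ^ i : ℕ) : ℤ) = 128 * 2 ^ i := by push_cast; ring
  have hsub : ball (cr i v) (256 * 2 ^ i) ⊆ ball v (2 ^ e) := by
    intro z hz
    rw [density_mem_ball] at hz ⊢
    obtain ⟨h1, h2⟩ := hz
    rw [abs_le] at h1 h2 c1 c2
    constructor
    · rw [abs_le]; constructor <;> linarith [h1.1, h1.2, c1.1, c1.2]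
    · rw [abs_le]; constructor <;> linarith [h2.1, h2.2, c2.1, c2.2]
  constructor
  · intro hc
    obtain ⟨H, H1, H2, H3, H4, H5⟩ := circuit_lemma (cr i v) (128 * 2 ^ i) (128 * 2 ^ i / 4)
      (by omega) (by omega) lam _ f hc
    apply hno i hi
    refine ⟨hsub.trans hball, H, H1, ?_, ?_, ?_⟩
    · intro z hz
      refine ⟨H2 z hz, ?_⟩
      rw [density_mem_ball]
      obtain ⟨a1, a2⟩ := H3 z hz
      rw [hcast] at a1 a2
      exact ⟨by linarith, by linarith⟩
    · refine H4.trans (le_of_eq ?_)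
      push_cast; ring
    · intro a b ha hb r
      rw [density_mem_ball] at ha
      rw [density_mem_ball, not_and_or, not_le, not_le] at hb
      apply H5 a b
      · rw [hcast]; exact ha.1
      · rw [hcast]; exact ha.2
      · rw [hcast]
        rcases hb with hb | hb
        · left; linarith
        · right; linarith
  · intro hc
    obtain ⟨H, H1, H2, H3, H4, H5⟩ := circuit_lemma (cr i v) (128 * 2 ^ i) (128 * 2 ^ i / 4)
      (by omega) (by omega) (-(lam + 1)) _ (fun z => -f z) hc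
    obtain ⟨k, z, hz, hzb⟩ := hvis
    have hK0 : rect w w d (w - d) ⊆ rect w (5 * w) d (w - d) := by
      intro y hy
      simp only [rect, Finset.mem_product, Finset.mem_Icc] at hy ⊢
      have : (0 : ℤ) ≤ w := Int.natCast_nonneg w
      omega
    obtain ⟨_, _, _, _, _, h6, _⟩ := expl_facts (rect w (5 * w) d (w - d)) (rect w w d (w - d)) hK0
      (fun v => f v ≤ lam)
    obtain ⟨u, hu, p, _, hp⟩ := h6 k z hz
    have hunot : u ∉ ball (cr i v) (256 * 2 ^ i) := by
      intro hu'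
      have h7 := hball (hsub hu')
      simp only [rect, Finset.mem_product, Finset.mem_Icc] at hu h7
      omega
    rw [density_mem_ball, not_and_or, not_le, not_le] at hunot
    rw [density_mem_ball] at hzb
    have hji : (2 : ℤ) ^ j ≤ 2 ^ i := pow_le_pow_right₀ (by norm_num) hi.le
    obtain ⟨y, hy, hyH⟩ := H5 z u
      (by
        rw [hcast]
        have := hzb.1
        rw [abs_le] at *
        constructor <;> linarith [this.1, this.2, c1.1, c1.2])
      (by
        rw [hcast]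
        have := hzb.2
        rw [abs_le] at *
        constructor <;> linarith [this.1, this.2, c2.1, c2.2])
      (by
        rw [hcast]
        rcases hunot with h | h
        · left; linarith
        · right; linarith) p.reverse
    rw [SimpleGraph.Walk.support_reverse, List.mem_reverse] at hy
    have h8 := (hp y hy).2
    have h9 := H2 y hyH
    linarith

/-- measurability of `armOK` -/
theorem density_meas_arm {α : Type*} [MeasurableSpace α] (o : Bool) (t : ℤ × ℤ) (w d : ℕ)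
    (lam len : ℝ) (F : α → ℤ × ℤ → ℝ) (hF : ∀ z, Measurable (fun x => F x z)) :
    MeasurableSet {x | armOK o t w d lam len (F x)} := by
  classical
  set P : Set (Finset (ℤ × ℤ)) := {T | ∃ (u v : ℤ × ℤ) (p : grid.Walk u v), u.1 = w ∧ v.1 = 5 * w ∧
    (∀ z ∈ p.support, z ∈ rect w (5 * w) d (w - d)) ∧ (p.support.length : ℝ) ≤ len ∧
    T = p.support.toFinset} with hP
  have : {x | armOK o t w d lam len (F x)} = ⋃ T ∈ P, ⋂ z ∈ T, {x | F x (place o t z) ≤ lam} := by
    ext x
    simp only [Set.mem_setOf_eq, Set.mem_iUnion, Set.mem_iInter, exists_prop, hP]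
    constructor
    · rintro ⟨u, v, p, h1, h2, h3, h4⟩
      refine ⟨p.support.toFinset, ⟨u, v, p, h1, h2, fun z hz => (h3 z hz).1, h4, rfl⟩, ?_⟩
      intro z hz
      exact (h3 z (List.mem_toFinset.mp hz)).2
    · rintro ⟨T, ⟨u, v, p, h1, h2, h3, h4, rfl⟩, h5⟩
      exact ⟨u, v, p, h1, h2, fun z hz => ⟨h3 z hz, h5 z (List.mem_toFinset.mpr hz)⟩, h4⟩
  rw [this]
  refine MeasurableSet.biUnion (Set.to_countable P) fun T _ => ?_
  refine Finset.measurableSet_biInter T fun z _ => ?_
  exact measurableSet_le (hF _) measurable_const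

theorem density_meas_circuit {α : Type*} [MeasurableSpace α] (c : ℤ × ℤ) (w d : ℕ)
    (lam len : ℝ) (F : α → ℤ × ℤ → ℝ) (hF : ∀ z, Measurable (fun x => F x z)) :
    MeasurableSet {x | circuitOK c w d lam len (F x)} := by
  unfold circuitOK
  exact (density_meas_arm _ _ _ _ _ _ F hF).inter ((density_meas_arm _ _ _ _ _ _ F hF).inter
    ((density_meas_arm _ _ _ _ _ _ F hF).inter (density_meas_arm _ _ _ _ _ _ F hF)))

theorem density_meas_bad {α : Type*} [MeasurableSpace α] (lam Kh : ℝ) (c : ℤ × ℤ) (W : ℕ)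
    (F : α → ℤ × ℤ → ℝ) (hF : ∀ z, Measurable (fun x => F x z)) :
    MeasurableSet {x | bad lam Kh c W (F x)} := by
  unfold bad
  exact (density_meas_circuit _ _ _ _ _ F hF).compl.inter
    (density_meas_circuit _ _ _ _ _ (fun x z => -F x z) (fun z => (hF z).neg)).compl

theorem density_meas_ext (S : Finset (ℤ × ℤ)) (z : ℤ × ℤ) : Measurable (fun x => extf S x z) := by
  unfold extf
  by_cases h : z ∈ S
  · simp only [h, dite_true]
    fun_prop
  · simp only [h, dite_false]
    exact measurable_const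

theorem density_sum_nbrs (u : ℤ × ℤ) (h : ℤ × ℤ → ℝ) : ∑ z ∈ nbrs u, h z
    = h (u.1 + 1, u.2) + h (u.1 - 1, u.2) + h (u.1, u.2 + 1) + h (u.1, u.2 - 1) := by
  unfold nbrs
  rw [Finset.sum_insert, Finset.sum_insert, Finset.sum_insert, Finset.sum_singleton]
  · ring
  · simp only [Finset.mem_singleton, Prod.mk.injEq, not_and]
    omega
  · simp only [Finset.mem_insert, Finset.mem_singleton, Prod.mk.injEq]
    omega
  · simp only [Finset.mem_insert, Finset.mem_singleton, Prod.mk.injEq]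
    omega

/-- difference of the Green functions -/
noncomputable def density_kap (D D' : Finset (ℤ × ℤ)) (x y : ℤ × ℤ) : ℝ := green D x y - green D' x y

theorem density_kap_harm {D D' : Finset (ℤ × ℤ)} (h : D' ⊆ D) {z : ℤ × ℤ} (hz : z ∈ D') (y : ℤ × ℤ) :
    density_kap D D' z y = (1 / 4) * ∑ z' ∈ nbrs z, density_kap D D' z' y := by
  unfold density_kap
  obtain ⟨_, _, _, _, g5, _⟩ := green_basic D
  obtain ⟨_, _, _, _, g5', _⟩ := green_basic D'
  rw [g5 z (h hz) y, g5' z hz y, Finset.sum_sub_distrib]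
  ring

theorem density_kap_nonneg {D D' : Finset (ℤ × ℤ)} (h : D' ⊆ D) (x y : ℤ × ℤ) :
    0 ≤ density_kap D D' x y := by
  unfold density_kap
  obtain ⟨_, _, _, g4, _, _⟩ := green_basic D'
  linarith [g4 D h x y]

theorem density_kap_symm (D D' : Finset (ℤ × ℤ)) (x y : ℤ × ℤ) :
    density_kap D D' x y = density_kap D D' y x := by
  unfold density_kap
  rw [(green_basic D).2.2.1 x y, (green_basic D').2.2.1 x y]

theorem density_kap_le {w ρ : ℕ} {v : ℤ × ℤ} (hS : ball v ρ ⊆ Dw w) (hρw : ρ ≤ w) (hw : 1 ≤ w)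
    {y : ℤ × ℤ} (hy : y ∈ ball v ((3 * ρ / 4 : ℕ) : ℤ)) :
    density_kap (Dw w) (ball v ρ) y y ≤
      (Real.log (1 + 2 * ((7 * w : ℕ) : ℝ) ^ 2) - Real.log (1 + ((ρ : ℝ) / 4) ^ 2)) / Real.log 2 := by
  set M := (Real.log (1 + 2 * ((7 * w : ℕ) : ℝ) ^ 2) - Real.log (1 + ((ρ : ℝ) / 4) ^ 2)) / Real.log 2
    with hM
  have hlog2 : 0 < Real.log 2 := Real.log_pos (by norm_num)
  have hρwR : (ρ : ℝ) ≤ w := by exact_mod_cast hρw
  have hρ0 : (0 : ℝ) ≤ ρ := Nat.cast_nonneg ρ
  have hM0 : 0 ≤ M := by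
    apply div_nonneg _ hlog2.le
    rw [sub_nonneg]
    apply Real.log_le_log (by positivity)
    push_cast
    nlinarith
  have hyS : y ∈ ball v ρ := by
    rw [density_mem_ball] at hy ⊢
    have : ((3 * ρ / 4 : ℕ) : ℤ) ≤ ρ := by omega
    exact ⟨hy.1.trans this, hy.2.trans this⟩
  have hyD : y ∈ Dw w := hS hyS
  obtain ⟨_, g2, _, _, _, _⟩ := green_basic (Dw w)
  obtain ⟨_, g2', _, _, _, g6⟩ := green_basic (ball v ρ)
  have hout : ∀ x, x ∉ ball v ρ → density_kap (Dw w) (ball v ρ) x y ≤ M := by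
    intro x hx
    unfold density_kap
    rw [g2' x y (Or.inl hx), sub_zero]
    by_cases hxD : x ∈ Dw w
    · have h1 := green_log_off (Dw w) (7 * w) (by omega) (by
        intro a ha b hb
        simp only [Dw, rect, Finset.mem_product, Finset.mem_Icc] at ha hb
        constructor
        · rw [abs_lt]; push_cast; constructor <;> omega
        · rw [abs_lt]; push_cast; constructor <;> omega) x y hxD hyD
      refine h1.trans ?_
      rw [hM]
      apply div_le_div_of_nonneg_right _ hlog2.le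
      apply sub_le_sub_left
      apply Real.log_le_log (by positivity)
      rw [density_mem_ball] at hy
      rw [density_mem_ball, not_and_or, not_le, not_le] at hx
      have h34 : (((3 * ρ / 4 : ℕ) : ℤ) : ℝ) ≤ 3 * (ρ : ℝ) / 4 := by
        have : (4 * (3 * ρ / 4) : ℕ) ≤ 3 * ρ := by omega
        have h' : ((4 * (3 * ρ / 4) : ℕ) : ℝ) ≤ ((3 * ρ : ℕ) : ℝ) := by exact_mod_cast this
        rw [Nat.cast_mul, Nat.cast_mul] at h'
        rw [Int.cast_natCast]
        push_cast at h'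
        norm_num at h' ⊢
        linarith
      have hsq : ∀ a b c : ℤ, |b - c| ≤ ((3 * ρ / 4 : ℕ) : ℤ) → (ρ : ℤ) < |a - c| →
          ((ρ : ℝ) / 4) ^ 2 ≤ ((a : ℝ) - b) ^ 2 := by
        intro a b c h1 h2
        have h1' : |(b : ℝ) - c| ≤ 3 * (ρ : ℝ) / 4 := by
          refine le_trans ?_ h34
          exact_mod_cast h1
        have h2' : (ρ : ℝ) < |(a : ℝ) - c| := by exact_mod_cast h2
        rw [← sq_abs ((a : ℝ) - b)]
        apply pow_le_pow_left₀ (by positivity)
        have h3 : |(a : ℝ) - c| ≤ |(a : ℝ) - b| + |(b : ℝ) - c| := abs_sub_le _ _ _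
        linarith
      rcases hx with hx | hx
      · have := hsq _ _ _ hy.1 hx
        nlinarith [sq_nonneg ((x.2 : ℝ) - y.2)]
      · have := hsq _ _ _ hy.2 hx
        nlinarith [sq_nonneg ((x.1 : ℝ) - y.1)]
    · rw [g2 x y (Or.inl hxD)]; exact hM0
  have key := g6 (fun _ => 0) (fun x => max 0 (density_kap (Dw w) (ball v ρ) x y - M)) ?_ ?_ y hyS
  · simp only [mul_zero, Finset.sum_const_zero] at key
    have := (le_max_right 0 _).trans key
    linarith
  · intro x hx
    rw [max_eq_left]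
    linarith [hout x hx]
  · intro x hx
    rw [zero_add]
    apply max_le
    · apply mul_nonneg (by norm_num)
      exact Finset.sum_nonneg fun z _ => le_max_left _ _
    · rw [density_kap_harm hS hx y, density_sum_nbrs, density_sum_nbrs]
      have e1 := le_max_right 0 (density_kap (Dw w) (ball v ρ) (x.1 + 1, x.2) y - M)
      have e2 := le_max_right 0 (density_kap (Dw w) (ball v ρ) (x.1 - 1, x.2) y - M)
      have e3 := le_max_right 0 (density_kap (Dw w) (ball v ρ) (x.1, x.2 + 1) y - M)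
      have e4 := le_max_right 0 (density_kap (Dw w) (ball v ρ) (x.1, x.2 - 1) y - M)
      linarith

/-- the harmonic part -/
noncomputable def density_mu (S S' : Finset (ℤ × ℤ)) :
    Measure (EuclideanSpace ℝ (S : Finset (ℤ × ℤ))) :=
  multivariateGaussian (0 : EuclideanSpace ℝ (S : Finset (ℤ × ℤ)))
    (Matrix.of fun x y : (S : Finset (ℤ × ℤ)) => (1 / 4) * (green S x y - green S' x y))

instance density_mu_gauss (S S' : Finset (ℤ × ℤ)) : IsGaussian (density_mu S S') := by
  unfold density_mu; infer_instance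

theorem density_L2 (S S' : Finset (ℤ × ℤ)) (z : ℤ × ℤ) :
    MemLp (fun x => extf S x z) 2 (density_mu S S') := by
  by_cases h : z ∈ S
  · have : (fun x => extf S x z) = (EuclideanSpace.proj (𝕜 := ℝ) (⟨z, h⟩ : (S : Finset (ℤ × ℤ)))) := by
      funext x
      simp only [extf, h, dite_true]
      rfl
    rw [this]
    exact IsGaussian.memLp_dual _ _ _ (by norm_num)
  · have : (fun x => extf S x z) = fun _ => (0 : ℝ) := by
      funext x
      simp only [extf, h, dite_false]
    rw [this]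
    exact memLp_const 0

theorem density_mean (S S' : Finset (ℤ × ℤ)) (z : ℤ × ℤ) :
    ∫ x, extf S x z ∂(density_mu S S') = 0 := by
  by_cases h : z ∈ S
  · have : (fun x => extf S x z) = (EuclideanSpace.proj (𝕜 := ℝ) (⟨z, h⟩ : (S : Finset (ℤ × ℤ)))) := by
      funext x
      simp only [extf, h, dite_true]
      rfl
    rw [this, ContinuousLinearMap.integral_comp_id_comm]
    · unfold density_mu
      simp
    · exact IsGaussian.integrable_id
  · simp only [extf, h, dite_false, integral_zero]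

theorem density_cov {S S' : Finset (ℤ × ℤ)} (hS : S' ⊆ S) (z y : ℤ × ℤ) :
    ∫ x, extf S x z * extf S x y ∂(density_mu S S') = (1 / 4) * density_kap S S' z y := by
  obtain ⟨_, g2, g3, _, _, _⟩ := green_basic S
  obtain ⟨_, g2', g3', _, _, _⟩ := green_basic S'
  by_cases hz : z ∈ S
  · by_cases hy : y ∈ S
    · have hpsd := (markov_split S S S' hS (Finset.Subset.refl S)).1
      have h1 := covariance_eval_multivariateGaussian (μ := (0 : EuclideanSpace ℝ (S : Finset (ℤ × ℤ))))
        hpsd ⟨z, hz⟩ ⟨y, hy⟩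
      have h2 := covariance_eq_sub (density_L2 S S' z) (density_L2 S S' y)
      rw [density_mean, zero_mul, sub_zero] at h2
      have e1 : (fun x => extf S x z) = fun x => x (⟨z, hz⟩ : (S : Finset (ℤ × ℤ))) := by
        funext x
        simp only [extf, hz, dite_true]
      have e2 : (fun x => extf S x y) = fun x => x (⟨y, hy⟩ : (S : Finset (ℤ × ℤ))) := by
        funext x
        simp only [extf, hy, dite_true]
      have h3 : ∫ x, extf S x z * extf S x y ∂(density_mu S S')
          = cov[fun x => extf S x z, fun x => extf S x y; density_mu S S'] := by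
        rw [h2]; rfl
      rw [h3, e1, e2]
      exact h1
    · have : density_kap S S' z y = 0 := by
        unfold density_kap
        rw [g2 z y (Or.inr hy), g2' z y (Or.inr fun h => hy (hS h)), sub_zero]
      rw [this]
      simp only [extf, hy, dite_false, mul_zero, integral_zero]
  · have : density_kap S S' z y = 0 := by
      unfold density_kap
      rw [g2 z y (Or.inl hz), g2' z y (Or.inl fun h => hz (hS h)), sub_zero]
    rw [this]
    simp only [extf, hz, dite_false, zero_mul, mul_zero, integral_zero]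

theorem density_int_mul (S S' : Finset (ℤ × ℤ)) (z y : ℤ × ℤ) :
    Integrable (fun x => extf S x z * extf S x y) (density_mu S S') :=
  MemLp.integrable_mul (density_L2 S S' z) (density_L2 S S' y)

/-- the field is almost surely harmonic inside -/
theorem density_harm {S S' : Finset (ℤ × ℤ)} (hS : S' ⊆ S) {z : ℤ × ℤ} (hz : z ∈ S') :
    ∀ᵐ x ∂(density_mu S S'), extf S x z = (1 / 4) * ∑ z' ∈ nbrs z, extf S x z' := by
  set Y : EuclideanSpace ℝ (S : Finset (ℤ × ℤ)) → ℝ :=
    fun x => extf S x z - (1 / 4) * ∑ z' ∈ nbrs z, extf S x z' with hY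
  have hYL2 : MemLp Y 2 (density_mu S S') := by
    apply (density_L2 S S' z).sub
    apply MemLp.const_mul
    exact memLp_finsetSum _ fun z' _ => density_L2 S S' z'
  have hYy : ∀ y, ∫ x, Y x * extf S x y ∂(density_mu S S') = 0 := by
    intro y
    have e1 : (fun x => Y x * extf S x y) = fun x => extf S x z * extf S x y
        - (1 / 4) * ∑ z' ∈ nbrs z, extf S x z' * extf S x y := by
      funext x
      simp only [hY]
      rw [sub_mul, mul_assoc, Finset.sum_mul]
    rw [e1, integral_sub (density_int_mul S S' z y), integral_const_mul,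
      integral_finsetSum _ (fun z' _ => density_int_mul S S' z' y), density_cov hS]
    · have e2 : ∑ z' ∈ nbrs z, ∫ x, extf S x z' * extf S x y ∂(density_mu S S')
          = (1 / 4) * ∑ z' ∈ nbrs z, density_kap S S' z' y := by
        rw [Finset.mul_sum]
        exact Finset.sum_congr rfl fun z' _ => density_cov hS z' y
      rw [e2, ← density_kap_harm hS hz y, sub_self]
    · apply Integrable.const_mul
      exact integrable_finsetSum _ fun z' _ => density_int_mul S S' z' y
  have hYY : ∫ x, Y x ^ 2 ∂(density_mu S S') = 0 := by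
    have e1 : (fun x => Y x ^ 2) = fun x => Y x * extf S x z
        - (1 / 4) * ∑ z' ∈ nbrs z, Y x * extf S x z' := by
      funext x
      rw [sq]
      conv_lhs => rw [show Y x * Y x = Y x * (extf S x z - (1 / 4) * ∑ z' ∈ nbrs z, extf S x z') from rfl]
      rw [mul_sub, ← Finset.mul_sum]
      ring
    have hint : ∀ y, Integrable (fun x => Y x * extf S x y) (density_mu S S') := fun y =>
      MemLp.integrable_mul hYL2 (density_L2 S S' y)
    rw [e1, integral_sub (hint z), integral_const_mul, integral_finsetSum _ (fun z' _ => hint z')]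
    · simp only [hYy, Finset.sum_const_zero, mul_zero, sub_zero]
    · apply Integrable.const_mul
      exact integrable_finsetSum _ fun z' _ => hint z'
  have h0 := (integral_eq_zero_iff_of_nonneg (fun x => sq_nonneg (Y x)) hYL2.integrable_sq).mp hYY
  filter_upwards [h0] with x hx
  have : Y x ^ 2 = 0 := hx
  have h2 : Y x = 0 := by simpa using this
  simp only [hY] at h2
  linarith

theorem density_diff {S S' : Finset (ℤ × ℤ)} (hS : S' ⊆ S) (z y : ℤ × ℤ) :
    ∫ x, (extf S x z - extf S x y) ^ 2 ∂(density_mu S S') ≤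
      (1 / 4) * (density_kap S S' z z + density_kap S S' y y) := by
  have e1 : (fun x => (extf S x z - extf S x y) ^ 2) = fun x => extf S x z * extf S x z
      - 2 * (extf S x z * extf S x y) + extf S x y * extf S x y := by
    funext x; ring
  rw [e1, integral_add, integral_sub (density_int_mul S S' z z), integral_const_mul,
    density_cov hS, density_cov hS, density_cov hS]
  · have := density_kap_nonneg hS z y
    linarith
  · exact (density_int_mul S S' z y).const_mul 2
  · exact (density_int_mul S S' z z).sub ((density_int_mul S S' z y).const_mul 2)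
  · exact density_int_mul S S' y y

theorem density_absdiff_int (S S' : Finset (ℤ × ℤ)) (z y : ℤ × ℤ) :
    Integrable (fun x => |extf S x z - extf S x y|) (density_mu S S') :=
  (((density_L2 S S' z).sub (density_L2 S S' y)).integrable (by norm_num)).abs

theorem density_absdiff {S S' : Finset (ℤ × ℤ)} (hS : S' ⊆ S) (z y : ℤ × ℤ) {M : ℝ}
    (hz : density_kap S S' z z ≤ M) (hy : density_kap S S' y y ≤ M) (hM : 0 ≤ M) :
    ∫ x, |extf S x z - extf S x y| ∂(density_mu S S') ≤ 1 + M := by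
  have h1 := density_diff hS z y
  have hsq : Integrable (fun x => (extf S x z - extf S x y) ^ 2) (density_mu S S') :=
    ((density_L2 S S' z).sub (density_L2 S S' y)).integrable_sq
  have h2 : ∫ x, |extf S x z - extf S x y| ∂(density_mu S S') ≤
      ∫ x, (1 + (extf S x z - extf S x y) ^ 2) ∂(density_mu S S') := by
    apply integral_mono (density_absdiff_int S S' z y) ((integrable_const 1).add hsq)
    intro x
    show |extf S x z - extf S x y| ≤ 1 + (extf S x z - extf S x y) ^ 2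
    have := sq_abs (extf S x z - extf S x y)
    nlinarith [sq_nonneg (|extf S x z - extf S x y| - 1), abs_nonneg (extf S x z - extf S x y)]
  rw [integral_add (integrable_const 1) hsq] at h2
  simp only [integral_const, probReal_univ, smul_eq_mul, mul_one] at h2
  linarith

theorem density_Aosc_int (S S' : Finset (ℤ × ℤ)) (v : ℤ × ℤ) (ρ : ℕ) :
    Integrable (fun x => Aosc v ρ (extf S x)) (density_mu S S') := by
  unfold Aosc
  apply Integrable.const_mul
  exact integrable_finsetSum _ fun z _ => density_absdiff_int S S' z v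

theorem density_Aosc {S S' : Finset (ℤ × ℤ)} (hS : S' ⊆ S) (v : ℤ × ℤ) {ρ : ℕ} (hρ : 1 ≤ ρ) {M : ℝ}
    (hM : 0 ≤ M) (hκ : ∀ y ∈ ball v ((3 * ρ / 4 : ℕ) : ℤ), density_kap S S' y y ≤ M) :
    ∫ x, Aosc v ρ (extf S x) ∂(density_mu S S') ≤ 9 * (1 + M) := by
  unfold Aosc
  rw [integral_const_mul, integral_finsetSum _ (fun z _ => density_absdiff_int S S' z v)]
  have hvmem : v ∈ ball v ((3 * ρ / 4 : ℕ) : ℤ) := by
    rw [density_mem_ball, sub_self, sub_self, abs_zero]
    exact ⟨Int.natCast_nonneg _, Int.natCast_nonneg _⟩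
  have h1 : ∑ z ∈ ball v ((3 * ρ / 4 : ℕ) : ℤ), ∫ x, |extf S x z - extf S x v| ∂(density_mu S S')
      ≤ ∑ z ∈ ball v ((3 * ρ / 4 : ℕ) : ℤ), (1 + M) :=
    Finset.sum_le_sum fun z hz => density_absdiff hS z v (hκ z hz) (hκ v hvmem) hM
  have hcard : (ball v ((3 * ρ / 4 : ℕ) : ℤ)).card = (2 * (3 * ρ / 4) + 1) ^ 2 := by
    unfold ball rect
    rw [Finset.card_product, Int.card_Icc, Int.card_Icc, sq]
    congr 1 <;> omega
  rw [Finset.sum_const, hcard, nsmul_eq_mul] at h1
  have hρR : (1 : ℝ) ≤ ρ := by exact_mod_cast hρ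
  have h2 : (((2 * (3 * ρ / 4) + 1) ^ 2 : ℕ) : ℝ) ≤ 9 * (ρ : ℝ) ^ 2 := by
    have h3 : 2 * (3 * ρ / 4) + 1 ≤ 3 * ρ := by omega
    have h4 : (2 * (3 * ρ / 4) + 1) ^ 2 ≤ (3 * ρ) ^ 2 := Nat.pow_le_pow_left h3 2
    have h5 : (((2 * (3 * ρ / 4) + 1) ^ 2 : ℕ) : ℝ) ≤ (((3 * ρ) ^ 2 : ℕ) : ℝ) := by
      exact_mod_cast h4
    refine h5.trans (le_of_eq ?_)
    push_cast; ring
  have h6 : (((2 * (3 * ρ / 4) + 1) ^ 2 : ℕ) : ℝ) * (1 + M) ≤ 9 * (ρ : ℝ) ^ 2 * (1 + M) :=
    mul_le_mul_of_nonneg_right h2 (by linarith)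
  calc 1 / (ρ : ℝ) ^ 2 * ∑ z ∈ ball v ((3 * ρ / 4 : ℕ) : ℤ),
        ∫ x, |extf S x z - extf S x v| ∂(density_mu S S')
      ≤ 1 / (ρ : ℝ) ^ 2 * (9 * (ρ : ℝ) ^ 2 * (1 + M)) :=
        mul_le_mul_of_nonneg_left (h1.trans h6) (by positivity)
    _ = 9 * (1 + M) := by field_simp

instance density_gf_prob (S D : Finset (ℤ × ℤ)) : IsProbabilityMeasure (gf S D) := by
  unfold gf; infer_instance

/-- decomposition of the probability that all blocks are bad -/
theorem density_split {S S' : Finset (ℤ × ℤ)} (hS : S' ⊆ S) (lam Kh : ℝ) (L : ℕ) (c : ℕ → ℤ × ℤ)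
    (W : ℕ → ℕ) :
    gf S S {x | ∀ l < L, bad lam Kh (c l) (W l) (extf S x)} =
      ∫⁻ H, gf S' S' {x | ∀ l < L, bad lam Kh (c l) (W l) (fun z => extf S H z + extf S' x z)}
        ∂(density_mu S S') := by
  obtain ⟨_, hmap, hres⟩ := markov_split S S S' hS (Finset.Subset.refl S)
  have hmeas : ∀ {α : Type} [MeasurableSpace α] (F : α → ℤ × ℤ → ℝ),
      (∀ z, Measurable (fun x => F x z)) →
      MeasurableSet {x | ∀ l < L, bad lam Kh (c l) (W l) (F x)} := by
    intro α _ F hF
    have : {x | ∀ l < L, bad lam Kh (c l) (W l) (F x)}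
        = ⋂ l ∈ Finset.range L, {x | bad lam Kh (c l) (W l) (F x)} := by
      ext x; simp
    rw [this]
    exact Finset.measurableSet_biInter _ fun l _ => density_meas_bad _ _ _ _ F hF
  have hadd : ∀ (H ψ : EuclideanSpace ℝ (S : Finset (ℤ × ℤ))),
      extf S (H + ψ) = fun z => extf S H z + extf S ψ z := by
    intro H ψ
    funext z
    unfold extf
    by_cases h : z ∈ S
    · simp only [h, dite_true]; rfl
    · simp only [h, dite_false, add_zero]
  have hE := hmeas (fun x => extf S x) (density_meas_ext S)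
  conv_lhs => rw [← hmap]
  have hadd_meas : Measurable (fun p : EuclideanSpace ℝ (S : Finset (ℤ × ℤ)) ×
      EuclideanSpace ℝ (S : Finset (ℤ × ℤ)) => p.1 + p.2) := measurable_fst.add measurable_snd
  rw [Measure.map_apply hadd_meas hE, Measure.prod_apply (hadd_meas hE)]
  show ∫⁻ H, _ ∂(density_mu S S') = _
  apply lintegral_congr
  intro H
  have h1 : (Prod.mk H ⁻¹' ((fun p : EuclideanSpace ℝ (S : Finset (ℤ × ℤ)) ×
      EuclideanSpace ℝ (S : Finset (ℤ × ℤ)) => p.1 + p.2) ⁻¹'
        {x | ∀ l < L, bad lam Kh (c l) (W l) (extf S x)}))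
      = {ψ | ∀ l < L, bad lam Kh (c l) (W l) (fun z => extf S H z + extf S ψ z)} := by
    ext ψ
    show (∀ l < L, bad lam Kh (c l) (W l) (extf S (H + ψ))) ↔ _
    rw [hadd]
    rfl
  rw [h1]
  exact hres (fun g => ∀ l < L, bad lam Kh (c l) (W l) (fun z => extf S H z + g z))
    (hmeas _ fun z => measurable_const.add (density_meas_ext S' z))
    (hmeas _ fun z => measurable_const.add (density_meas_ext S z))

theorem density_Aosc_nonneg (v : ℤ × ℤ) (r : ℕ) (g : ℤ × ℤ → ℝ) : 0 ≤ Aosc v r g := by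
  unfold Aosc
  apply mul_nonneg (by positivity)
  exact Finset.sum_nonneg fun z _ => abs_nonneg _

/-- probability that all blocks are bad -/
theorem density_prob {S : Finset (ℤ × ℤ)} {v : ℤ × ℤ} {ρ : ℕ} (hS : ball v ρ ⊆ S) (hρ : 1 ≤ ρ)
    (lam Kh : ℝ) (L : ℕ) (c : ℕ → ℤ × ℤ) (W : ℕ → ℕ) {B M : ℝ} (hB : 1 ≤ B) (hM : 0 ≤ M)
    (hκ : ∀ y ∈ ball v ((3 * ρ / 4 : ℕ) : ℤ), density_kap S (ball v ρ) y y ≤ M)
    (hchain : ∀ h : ℤ × ℤ → ℝ, (∀ z ∈ ball v ρ, h z = (1 / 4) * ∑ z' ∈ nbrs z, h z') →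
      gf (ball v ρ) (ball v ρ) {x | ∀ l < L, bad lam Kh (c l) (W l)
        (fun z => h z + extf (ball v ρ) x z)} ≤ ENNReal.ofReal ((3 / 4) ^ L * (1 + Aosc v ρ h / B))) :
    gf S S {x | ∀ l < L, bad lam Kh (c l) (W l) (extf S x)} ≤
      ENNReal.ofReal ((3 / 4) ^ L * (10 + 9 * M)) := by
  rw [density_split hS]
  have hae : ∀ᵐ H ∂(density_mu S (ball v ρ)), ∀ z ∈ ball v ρ,
      extf S H z = (1 / 4) * ∑ z' ∈ nbrs z, extf S H z' := by
    rw [Filter.eventually_all_finset]
    intro z hz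
    exact density_harm hS hz
  have hint : Integrable (fun H => (3 / 4 : ℝ) ^ L * (1 + Aosc v ρ (extf S H) / B))
      (density_mu S (ball v ρ)) := by
    apply Integrable.const_mul
    exact (integrable_const 1).add ((density_Aosc_int S (ball v ρ) v ρ).div_const B)
  calc ∫⁻ H, gf (ball v ρ) (ball v ρ) {x | ∀ l < L, bad lam Kh (c l) (W l)
          (fun z => extf S H z + extf (ball v ρ) x z)} ∂(density_mu S (ball v ρ))
      ≤ ∫⁻ H, ENNReal.ofReal ((3 / 4) ^ L * (1 + Aosc v ρ (extf S H) / B))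
          ∂(density_mu S (ball v ρ)) := by
        apply lintegral_mono_ae
        filter_upwards [hae] with H hH
        exact hchain (extf S H) hH
    _ = ENNReal.ofReal (∫ H, (3 / 4) ^ L * (1 + Aosc v ρ (extf S H) / B)
          ∂(density_mu S (ball v ρ))) := by
        rw [ofReal_integral_eq_lintegral_ofReal hint]
        filter_upwards with H
        have h1 := density_Aosc_nonneg v ρ (extf S H)
        have h2 : 0 ≤ Aosc v ρ (extf S H) / B := div_nonneg h1 (by linarith)
        positivity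
    _ ≤ ENNReal.ofReal ((3 / 4) ^ L * (10 + 9 * M)) := by
        apply ENNReal.ofReal_le_ofReal
        rw [integral_const_mul, integral_add (integrable_const 1)
          ((density_Aosc_int S (ball v ρ) v ρ).div_const B), integral_div]
        simp only [integral_const, probReal_univ, smul_eq_mul, mul_one]
        apply mul_le_mul_of_nonneg_left _ (by positivity)
        have h1 := density_Aosc hS v hρ hM hκ
        have h2 : (∫ x, Aosc v ρ (extf S x) ∂(density_mu S (ball v ρ))) / B ≤ 9 * (1 + M) / 1 :=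
          div_le_div₀ (by positivity) h1 (by norm_num) hB
        linarith

/-- the final estimate -/
theorem density_num {Cn a u ℓ M : ℝ} {n L j e : ℕ} (hCn : 1 ≤ Cn) (ha : 0 ≤ a) (hu : 1 ≤ u)
    (hℓ : 0 ≤ ℓ) (hn1 : 1 ≤ n) (hn : (n : ℝ) ≤ Cn * u ^ 2) (hL : e - j - 10 < n * (L + 1))
    (hje : j + 10 ≤ e) (hM : M ≤ 17 + 3 * ℓ + 3 * n) (h34 : Real.log (3 / 4) = -a) :
    (3 / 4 : ℝ) ^ L * (10 + 9 * M) ≤
      217 * Cn * Real.exp (11 * a) * u ^ 2 * (1 + ℓ) * Real.exp (-(a / Cn * ((e : ℝ) - j) / u ^ 2)) := by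
  have hu2 : 1 ≤ u ^ 2 := one_le_pow₀ hu
  have hn1R : (1 : ℝ) ≤ n := by exact_mod_cast hn1
  have hCu : 1 ≤ Cn * u ^ 2 := by nlinarith
  have hje' : (j : ℝ) + 10 ≤ e := by exact_mod_cast hje
  have h1 : 10 + 9 * M ≤ 217 * Cn * u ^ 2 * (1 + ℓ) := by
    have e1 : 10 + 9 * M ≤ 163 + 27 * ℓ + 27 * n := by linarith
    have e2 : ℓ ≤ Cn * u ^ 2 * ℓ := by nlinarith
    have e3 : (n : ℝ) ≤ Cn * u ^ 2 * (1 + ℓ) := by nlinarith
    nlinarith
  have h2 : (3 / 4 : ℝ) ^ L ≤ Real.exp (11 * a) * Real.exp (-(a / Cn * ((e : ℝ) - j) / u ^ 2)) := by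
    rw [← Real.exp_add]
    have e1 : (3 / 4 : ℝ) ^ L = Real.exp (-(a * L)) := by
      rw [← Real.exp_log (show (0 : ℝ) < 3 / 4 by norm_num), ← Real.exp_nat_mul, h34]
      congr 1; ring
    rw [e1]
    apply Real.exp_le_exp.mpr
    have hLR : ((e : ℝ) - j - 10) ≤ n * (L + 1) := by
      have : e ≤ n * (L + 1) + j + 10 := by omega
      have h' : (e : ℝ) ≤ ((n * (L + 1) + j + 10 : ℕ) : ℝ) := by exact_mod_cast this
      push_cast at h'
      linarith
    have e2 : ((e : ℝ) - j) / n ≤ 11 + L := by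
      rw [div_le_iff₀ (by linarith)]
      nlinarith
    have e3 : ((e : ℝ) - j) / (Cn * u ^ 2) ≤ ((e : ℝ) - j) / n :=
      div_le_div_of_nonneg_left (by linarith) (by linarith) hn
    have e4 : a / Cn * ((e : ℝ) - j) / u ^ 2 = a * (((e : ℝ) - j) / (Cn * u ^ 2)) := by
      field_simp
    rw [e4]
    nlinarith [mul_le_mul_of_nonneg_left (e3.trans e2) ha]
  have h3 : 0 ≤ 217 * Cn * u ^ 2 * (1 + ℓ) := by positivity
  calc (3 / 4 : ℝ) ^ L * (10 + 9 * M) ≤ (3 / 4 : ℝ) ^ L * (217 * Cn * u ^ 2 * (1 + ℓ)) :=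
        mul_le_mul_of_nonneg_left h1 (by positivity)
    _ ≤ (Real.exp (11 * a) * Real.exp (-(a / Cn * ((e : ℝ) - j) / u ^ 2)))
          * (217 * Cn * u ^ 2 * (1 + ℓ)) := mul_le_mul_of_nonneg_right h2 h3
    _ = _ := by ring

theorem density_M {w e n ρ : ℕ} (hρ : 1 ≤ ρ) (hρw : ρ ≤ w) (he : 2 ^ e ≤ ρ * 2 ^ (n + 2)) :
    (Real.log (1 + 2 * ((7 * w : ℕ) : ℝ) ^ 2) - Real.log (1 + ((ρ : ℝ) / 4) ^ 2)) / Real.log 2 ≤
      17 + 3 * Real.log ((w : ℝ) / 2 ^ e) + 3 * n := by
  have hρR : (1 : ℝ) ≤ ρ := by exact_mod_cast hρ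
  have hρwR : (ρ : ℝ) ≤ w := by exact_mod_cast hρw
  have hw : (1 : ℝ) ≤ w := hρR.trans hρwR
  have hlog2 : 0 < Real.log 2 := Real.log_pos (by norm_num)
  have hl2 : (0.69 : ℝ) < Real.log 2 := by have := Real.log_two_gt_d9; linarith
  have hl2' : Real.log 2 < 0.7 := by have := Real.log_two_lt_d9; linarith
  have h1 : Real.log (1 + 2 * ((7 * w : ℕ) : ℝ) ^ 2) ≤ 7 * Real.log 2 + 2 * Real.log w := by
    have : 7 * Real.log 2 + 2 * Real.log w = Real.log (2 ^ 7 * (w : ℝ) ^ 2) := by
      rw [Real.log_mul (by positivity) (by positivity), Real.log_pow, Real.log_pow]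
      push_cast; ring
    rw [this]
    apply Real.log_le_log (by positivity)
    push_cast
    nlinarith
  have h2 : 2 * Real.log ρ - 4 * Real.log 2 ≤ Real.log (1 + ((ρ : ℝ) / 4) ^ 2) := by
    have : 2 * Real.log ρ - 4 * Real.log 2 = Real.log ((ρ : ℝ) ^ 2 / 2 ^ 4) := by
      rw [Real.log_div (by positivity) (by positivity), Real.log_pow, Real.log_pow]
      push_cast; ring
    rw [this]
    apply Real.log_le_log (by positivity)
    nlinarith [sq_nonneg (ρ : ℝ)]
  have h3 : (e : ℝ) * Real.log 2 ≤ Real.log ρ + (n + 2) * Real.log 2 := by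
    have h4 : ((2 ^ e : ℕ) : ℝ) ≤ ((ρ * 2 ^ (n + 2) : ℕ) : ℝ) := by exact_mod_cast he
    have h5 := Real.log_le_log (by positivity) h4
    push_cast at h5
    rw [Real.log_pow, Real.log_mul (by positivity) (by positivity), Real.log_pow] at h5
    push_cast at h5
    exact h5
  have h6 : Real.log ((w : ℝ) / 2 ^ e) = Real.log w - e * Real.log 2 := by
    rw [Real.log_div (by positivity) (by positivity), Real.log_pow]
  have h7 : 0 ≤ Real.log ((w : ℝ) / 2 ^ e) + (n + 2) * Real.log 2 := by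
    rw [h6]
    have := Real.log_le_log (by linarith) hρwR
    linarith
  rw [div_le_iff₀ hlog2]
  set ℓ := Real.log ((w : ℝ) / 2 ^ e) with hℓ
  have h8 : Real.log (1 + 2 * ((7 * w : ℕ) : ℝ) ^ 2) - Real.log (1 + ((ρ : ℝ) / 4) ^ 2)
      ≤ 11 * Real.log 2 + 2 * (ℓ + (n + 2) * Real.log 2) := by
    rw [h6]
    linarith
  have hn0 : (0 : ℝ) ≤ n := Nat.cast_nonneg n
  nlinarith [mul_nonneg hn0 hlog2.le]

theorem _root_.H941.density : ∃ Cd kd : ℝ, 1 ≤ Cd ∧ 0 < kd ∧ ∀ (u Kh q lam : ℝ) (w d j e : ℕ) (v : ℤ × ℤ),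
    1 ≤ u → 0 ≤ q → q ≤ 1 / 64 → 1 ≤ d → 2 * d + 1 ≤ w → (∀ w' : ℕ, 128 ≤ w' → w' < w → HypA u Kh q w') →
    ball v (2 ^ e) ⊆ rect (w + 1) (5 * w) d (w - d) → j ≤ e →
    gf (Dw w) (Dw w) {x | (∃ k, ∃ z ∈ Lk w d lam (extf (Dw w) x) k, z ∈ ball v (2 ^ j)) ∧
        ∀ i, j < i → ¬ goodB w d lam (512 * Kh) (extf (Dw w) x) i (cr i v)} ≤
      ENNReal.ofReal (Cd * u ^ 2 * (1 + Real.log (w / 2 ^ e)) * Real.exp (-(kd * ((e : ℝ) - j) / u ^ 2))) := by
  obtain ⟨Cb, B, hCb, hB, hch⟩ := chain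
  set a : ℝ := -Real.log (3 / 4) with ha
  have ha0 : 0 < a := by
    rw [ha]
    have : Real.log (3 / 4) < 0 := Real.log_neg (by norm_num) (by norm_num)
    linarith
  have h34 : Real.log (3 / 4) = -a := by rw [ha]; ring
  set Cn : ℝ := 2 + 2 * Cb with hCn
  have hCn1 : 1 ≤ Cn := by rw [hCn]; linarith
  have hexp1 : 1 ≤ Real.exp (11 * a) := Real.one_le_exp (by positivity)
  have hCd1 : 1 ≤ 217 * Cn * Real.exp (11 * a) := by nlinarith
  refine ⟨217 * Cn * Real.exp (11 * a), a / Cn, hCd1, by positivity, ?_⟩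
  intro u Kh q lam w d j e v hu hq0 hq1 hd hdw hHyp hball hje
  have hp2e : (0 : ℤ) < 2 ^ e := by positivity
  have h2e : 2 * (2 : ℤ) ^ e + 2 * d ≤ w := by
    have m1 : (v.1, v.2 + 2 ^ e) ∈ ball v (2 ^ e) := by
      rw [density_mem_ball]
      constructor
      · simp
      · rw [add_sub_cancel_left, abs_of_pos hp2e]
    have m2 : (v.1, v.2 - 2 ^ e) ∈ ball v (2 ^ e) := by
      rw [density_mem_ball]
      constructor
      · simp
      · rw [sub_sub_cancel_left, abs_neg, abs_of_pos hp2e]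
    have m1' := hball m1
    have m2' := hball m2
    simp only [rect, Finset.mem_product, Finset.mem_Icc] at m1' m2'
    linarith [m1'.2.2, m2'.2.1]
  have hew : 2 * 2 ^ e ≤ w := by
    have : ((2 * 2 ^ e : ℕ) : ℤ) ≤ (w : ℤ) := by
      push_cast
      have : (0 : ℤ) ≤ d := Int.natCast_nonneg d
      linarith
    exact_mod_cast this
  have hewR : (2 : ℝ) ^ e ≤ w := by
    have : ((2 * 2 ^ e : ℕ) : ℝ) ≤ (w : ℝ) := by exact_mod_cast hew
    push_cast at this
    have h0 : (0 : ℝ) < 2 ^ e := by positivity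
    linarith
  set ℓ : ℝ := Real.log ((w : ℝ) / 2 ^ e) with hℓ
  have hℓ0 : 0 ≤ ℓ := Real.log_nonneg (by rw [le_div_iff₀ (by positivity)]; linarith)
  have hu2 : 1 ≤ u ^ 2 := one_le_pow₀ hu
  have hDsub : rect (w + 1) (5 * w) d (w - d) ⊆ Dw w := by
    intro y hy
    simp only [Dw, rect, Finset.mem_product, Finset.mem_Icc] at hy ⊢
    omega
  by_cases hcase : j + 10 ≤ e
  · -- main case
    have hlog2 : 0 < Real.log 2 := Real.log_pos (by norm_num)
    have hl2 : (0.69 : ℝ) < Real.log 2 := by have := Real.log_two_gt_d9; linarith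
    set n : ℕ := ⌈(Real.log 2 + Cb * u ^ 2) / Real.log 2⌉₊ with hn
    have hpos : 0 < (Real.log 2 + Cb * u ^ 2) / Real.log 2 := by positivity
    have hn1 : 1 ≤ n := Nat.one_le_ceil_iff.mpr hpos
    have hn2 : 2 * Real.exp (Cb * u ^ 2) ≤ 2 ^ n := by
      have h1 := Nat.le_ceil ((Real.log 2 + Cb * u ^ 2) / Real.log 2)
      rw [← hn, div_le_iff₀ hlog2] at h1
      have h2 : (2 : ℝ) ^ n = Real.exp (n * Real.log 2) := by
        rw [← Real.log_pow, Real.exp_log (by positivity)]
      have h3 : 2 * Real.exp (Cb * u ^ 2) = Real.exp (Real.log 2 + Cb * u ^ 2) := by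
        rw [Real.exp_add, Real.exp_log (by norm_num)]
      rw [h2, h3]
      exact Real.exp_le_exp.mpr h1
    have hnC : (n : ℝ) ≤ Cn * u ^ 2 := by
      have h1 := (Nat.ceil_lt_add_one hpos.le).le
      rw [← hn] at h1
      have h2 : (Real.log 2 + Cb * u ^ 2) / Real.log 2 ≤ 1 + 2 * (Cb * u ^ 2) := by
        rw [div_le_iff₀ hlog2]
        have : 0 ≤ Cb * u ^ 2 := by positivity
        nlinarith
      rw [hCn]
      nlinarith
    set L : ℕ := (e - j - 10) / n with hL
    have hL1 : n * L ≤ e - j - 10 := Nat.mul_div_le _ _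
    have hL2 : e - j - 10 < n * (L + 1) := Nat.lt_mul_div_succ _ (by omega)
    set r : ℕ := 64 * 2 ^ (j + 1) with hr
    set ρ : ℕ := 2 ^ (n * L) * r with hρ
    have hρ' : ρ = 2 ^ (n * L + j + 7) := by
      rw [hρ, hr, show (64 : ℕ) = 2 ^ 6 by norm_num, ← pow_add, ← pow_add]
      congr 1; omega
    have hρ1 : 1 ≤ ρ := by rw [hρ']; exact Nat.one_le_two_pow
    have hρe : ρ ≤ 2 ^ e := by rw [hρ']; exact Nat.pow_le_pow_right (by norm_num) (by omega)
    have hρw : ρ ≤ w := by omega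
    have hρeZ : (ρ : ℤ) ≤ 2 ^ e := by exact_mod_cast hρe
    have hS : ball v ρ ⊆ Dw w := by
      refine Finset.Subset.trans ?_ (hball.trans hDsub)
      intro y hy
      rw [density_mem_ball] at hy ⊢
      exact ⟨hy.1.trans hρeZ, hy.2.trans hρeZ⟩
    have hWl : ∀ l, 2 ^ (n * l + 1) * r = 128 * 2 ^ (n * l + j + 1) := by
      intro l
      rw [hr, show (64 : ℕ) = 2 ^ 6 by norm_num, show (128 : ℕ) = 2 ^ 7 by norm_num, ← pow_add,
        ← pow_add, ← pow_add]
      congr 1; omega
    have hil : ∀ l < L, n * l + j + 1 + 10 ≤ e := by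
      intro l hl
      have : n * (l + 1) ≤ n * L := Nat.mul_le_mul_left n hl
      have h2 : n * (l + 1) = n * l + n := by ring
      omega
    have h257 : ∀ l < L, 257 * 2 ^ (n * l + j + 1) ≤ 2 ^ e := by
      intro l hl
      have h1 : 2 ^ (n * l + j + 1 + 10) ≤ 2 ^ e := Nat.pow_le_pow_right (by norm_num) (hil l hl)
      rw [pow_add] at h1
      have : (0 : ℕ) < 2 ^ (n * l + j + 1) := by positivity
      omega
    have hsub : {x | (∃ k, ∃ z ∈ Lk w d lam (extf (Dw w) x) k, z ∈ ball v (2 ^ j)) ∧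
        ∀ i, j < i → ¬ goodB w d lam (512 * Kh) (extf (Dw w) x) i (cr i v)} ⊆
        {x | ∀ l < L, bad lam Kh (cr (n * l + j + 1) v) (2 ^ (n * l + 1) * r) (extf (Dw w) x)} := by
      rintro x ⟨hx1, hx2⟩ l hl
      rw [hWl]
      exact density_det hd hdw hball hx1 hx2 (by omega) (h257 l hl)
    refine (measure_mono hsub).trans ?_
    set M : ℝ := (Real.log (1 + 2 * ((7 * w : ℕ) : ℝ) ^ 2) - Real.log (1 + ((ρ : ℝ) / 4) ^ 2))
      / Real.log 2 with hM
    have hκ : ∀ y ∈ ball v ((3 * ρ / 4 : ℕ) : ℤ), density_kap (Dw w) (ball v ρ) y y ≤ M :=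
      fun y hy => density_kap_le hS hρw (by omega) hy
    have hM0 : 0 ≤ M := by
      refine (density_kap_nonneg hS v v).trans (hκ v ?_)
      rw [density_mem_ball, sub_self, sub_self, abs_zero]
      exact ⟨Int.natCast_nonneg _, Int.natCast_nonneg _⟩
    have hprob := density_prob hS hρ1 lam Kh L (fun l => cr (n * l + j + 1) v)
      (fun l => 2 ^ (n * l + 1) * r) hB hM0 hκ (by
        intro h hharm
        refine hch u Kh q lam n r v (fun l => cr (n * l + j + 1) v) ?_ hu hn2 hq0 hq1 L ?_ ?_ h hharm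
        · rw [hr]
          have : 1 ≤ 2 ^ (j + 1) := Nat.one_le_two_pow
          omega
        · intro l hl
          have h1 := h257 l hl
          have h2 : (0 : ℕ) < 2 ^ (n * l + j + 1) := by positivity
          rw [hWl]
          apply hHyp
          · omega
          · omega
        · intro l hl
          obtain ⟨c1, c2⟩ := density_cr (n * l + j + 1) v
          rw [hWl]
          have h2 : (0 : ℤ) < 2 ^ (n * l + j + 1) := by positivity
          constructor
          · push_cast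
            show 4 * |(cr (n * l + j + 1) v).1 - v.1| ≤ _
            linarith
          · push_cast
            show 4 * |(cr (n * l + j + 1) v).2 - v.2| ≤ _
            linarith)
    refine hprob.trans (ENNReal.ofReal_le_ofReal ?_)
    refine density_num hCn1 ha0.le hu hℓ0 hn1 hnC hL2 hcase ?_ h34
    apply density_M hρ1 hρw
    rw [hρ', ← pow_add]
    apply Nat.pow_le_pow_right (by norm_num)
    have h2 : n * (L + 1) = n * L + n := by ring
    omega
  · -- trivial case
    have h1 : (gf (Dw w) (Dw w)) {x | (∃ k, ∃ z ∈ Lk w d lam (extf (Dw w) x) k, z ∈ ball v (2 ^ j)) ∧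
        ∀ i, j < i → ¬ goodB w d lam (512 * Kh) (extf (Dw w) x) i (cr i v)} ≤ 1 := prob_le_one
    refine h1.trans ?_
    rw [← ENNReal.ofReal_one]
    apply ENNReal.ofReal_le_ofReal
    push Not at hcase
    have hcR : (e : ℝ) ≤ j + 10 := by
      have : e ≤ j + 10 := by omega
      exact_mod_cast this
    have hjeR : (j : ℝ) ≤ e := by exact_mod_cast hje
    have h2 : Real.exp (-(10 * a)) ≤ Real.exp (-(a / Cn * ((e : ℝ) - j) / u ^ 2)) := by
      apply Real.exp_le_exp.mpr
      apply neg_le_neg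
      have e1 : a / Cn ≤ a := div_le_self ha0.le hCn1
      have e2 : a / Cn * ((e : ℝ) - j) ≤ a * 10 := by
        apply mul_le_mul e1 (by linarith) (by linarith) ha0.le
      have e3 : a / Cn * ((e : ℝ) - j) / u ^ 2 ≤ a / Cn * ((e : ℝ) - j) := by
        apply div_le_self _ hu2
        apply mul_nonneg (by positivity) (by linarith)
      linarith
    have h3 : Real.exp (11 * a) * Real.exp (-(10 * a)) = Real.exp a := by
      rw [← Real.exp_add]; congr 1; ring
    have h4 : 1 ≤ Real.exp a := Real.one_le_exp ha0.le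
    have h5 : 1 ≤ 217 * Cn * (u ^ 2 * (1 + ℓ)) := by
      have : 1 ≤ u ^ 2 * (1 + ℓ) := by nlinarith
      nlinarith
    calc (1 : ℝ) ≤ 217 * Cn * (u ^ 2 * (1 + ℓ)) * Real.exp a := by nlinarith
      _ = 217 * Cn * Real.exp (11 * a) * u ^ 2 * (1 + ℓ) * Real.exp (-(10 * a)) := by
          rw [← h3]; ring
      _ ≤ 217 * Cn * Real.exp (11 * a) * u ^ 2 * (1 + ℓ)
          * Real.exp (-(a / Cn * ((e : ℝ) - j) / u ^ 2)) :=
          mul_le_mul_of_nonneg_left h2 (by positivity)

end H941.density
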