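import Pool.Agent.H941.Defs4

open MeasureTheory ProbabilityTheory

namespace H941.gauss_eight


theorem _root_.H941.gauss_eight : ∃ C : ℝ, 0 < C ∧ ∀ (ι : Type) [Fintype ι] [DecidableEq ι] (Γ : Matrix ι ι ℝ), Γ.PosSemidef →
    ∀ (a : ι → ℝ) (lam v : ℝ), 0 ≤ v → (∑ i, ∑ j, a i * Γ i j * a j ≤ v) →
      Integrable (fun x : EuclideanSpace ℝ ι => (lam - ∑ i, a i * x i) ^ 8) (multivariateGaussian (0 : EuclideanSpace ℝ ι) Γ) ∧
      ∫ x : EuclideanSpace ℝ ι, (lam - ∑ i, a i * x i) ^ 8 ∂(multivariateGaussian (0 : EuclideanSpace ℝ ι) Γ) ≤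
        C * (lam ^ 2 + v) ^ 4 := by
  -- the one-dimensional facts
  have hM : ∀ w : NNReal, Integrable (fun y : ℝ => y ^ 8) (gaussianReal 0 w) := by
    intro w
    have h0 : MemLp id ((8 : ℕ) : ENNReal) (gaussianReal 0 w) := by
      have := memLp_id_gaussianReal (μ := 0) (v := w) (8 : NNReal)
      exact_mod_cast this
    refine (h0.integrable_norm_pow (by norm_num)).congr (Filter.Eventually.of_forall fun y => ?_)
    simp only [id_eq, Real.norm_eq_abs]
    exact Even.pow_abs ⟨4, rfl⟩ y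
  set M : ℝ := ∫ y : ℝ, y ^ 8 ∂(gaussianReal 0 1) with hMdef
  have hM0 : 0 ≤ M := integral_nonneg fun y => by positivity
  have hscale : ∀ s : ℝ, 0 ≤ s → ∫ y : ℝ, y ^ 8 ∂(gaussianReal 0 s.toNNReal) = s ^ 4 * M := by
    intro s hs
    have h1 : gaussianReal 0 s.toNNReal = (gaussianReal 0 1).map (Real.sqrt s * ·) := by
      rw [gaussianReal_map_const_mul]
      congr 1
      · simp
      · ext
        simp [Real.sq_sqrt hs, hs]
    rw [h1, integral_map (by fun_prop) (by fun_prop)]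
    have h2 : (fun y : ℝ => (Real.sqrt s * y) ^ 8) = fun y => s ^ 4 * y ^ 8 := by
      funext y
      have : Real.sqrt s ^ 8 = s ^ 4 := by
        calc Real.sqrt s ^ 8 = (Real.sqrt s ^ 2) ^ 4 := by ring
          _ = s ^ 4 := by rw [Real.sq_sqrt hs]
      rw [mul_pow, this]
    rw [h2, integral_const_mul]
  refine ⟨2 ^ 7 * (1 + M), by positivity, ?_⟩
  intro ι _ _ Γ hΓ a lam v hv hav
  set μ : Measure (EuclideanSpace ℝ ι) := multivariateGaussian (0 : EuclideanSpace ℝ ι) Γ with hμ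
  set a' : EuclideanSpace ℝ ι := WithLp.toLp 2 a with ha'
  set s : ℝ := ∑ i, ∑ j, a i * Γ i j * a j with hs
  let L : StrongDual ℝ (EuclideanSpace ℝ ι) := innerSL ℝ a'
  have hL : ∀ x : EuclideanSpace ℝ ι, L x = ∑ i, a i * x i := by
    intro x
    simp [L, a', PiLp.inner_apply, mul_comm]
  have hvar : Var[L; μ] = s := by
    have h1 : Var[fun u => inner ℝ a' u; μ] = s := by
      rw [← covarianceBilin_self IsGaussian.memLp_two_id, hμ, covarianceBilin_multivariateGaussian hΓ]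
      simp only [dotProduct, Matrix.mulVec, a', hs, Finset.mul_sum]
      refine Finset.sum_congr rfl fun i _ => Finset.sum_congr rfl fun j _ => by ring
    exact h1
  have hs0 : 0 ≤ s := by rw [← hvar]; exact variance_nonneg _ _
  have hmean : μ[L] = 0 := by
    rw [ContinuousLinearMap.integral_comp_id_comm IsGaussian.integrable_id]
    simp [hμ]
  have hmap : μ.map L = gaussianReal 0 s.toNNReal := by
    rw [IsGaussian.map_eq_gaussianReal, hmean, hvar]
  have hL8i : Integrable (fun x => (L x) ^ 8) μ := by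
    have := hM s.toNNReal
    rw [← hmap] at this
    exact (integrable_map_measure (by fun_prop) (by fun_prop)).1 this
  have hL8 : ∫ x, (L x) ^ 8 ∂μ = s ^ 4 * M := by
    rw [← hscale s hs0, ← hmap, integral_map (by fun_prop) (by fun_prop)]
  have hpt : ∀ x : EuclideanSpace ℝ ι, (lam - ∑ i, a i * x i) ^ 8 ≤ 2 ^ 7 * (lam ^ 8 + (L x) ^ 8) := by
    intro x
    rw [← hL x]
    have h1 : (lam - L x) ^ 8 = |lam - L x| ^ 8 := by
      rw [Even.pow_abs ⟨4, rfl⟩]
    have h2 : |lam - L x| ≤ |lam| + |L x| := abs_sub _ _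
    have h3 := add_pow_le (abs_nonneg lam) (abs_nonneg (L x)) 8
    rw [h1]
    calc |lam - L x| ^ 8 ≤ (|lam| + |L x|) ^ 8 := pow_le_pow_left₀ (abs_nonneg _) h2 8
      _ ≤ 2 ^ (8 - 1) * (|lam| ^ 8 + |L x| ^ 8) := h3
      _ = 2 ^ 7 * (lam ^ 8 + (L x) ^ 8) := by
        rw [Even.pow_abs ⟨4, rfl⟩, Even.pow_abs ⟨4, rfl⟩]
  have hint : Integrable (fun x : EuclideanSpace ℝ ι => 2 ^ 7 * (lam ^ 8 + (L x) ^ 8)) μ :=
    ((integrable_const _).add hL8i).const_mul _
  have hint0 : Integrable (fun x : EuclideanSpace ℝ ι => (lam - ∑ i, a i * x i) ^ 8) μ := by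
    refine hint.mono' ?_ (Filter.Eventually.of_forall fun x => ?_)
    · have : (fun x : EuclideanSpace ℝ ι => (lam - ∑ i, a i * x i) ^ 8) = fun x => (lam - L x) ^ 8 := by
        funext x; rw [hL x]
      rw [this]
      fun_prop
    · rw [Real.norm_eq_abs, abs_of_nonneg (by positivity)]
      exact hpt x
  refine ⟨hint0, ?_⟩
  calc ∫ x : EuclideanSpace ℝ ι, (lam - ∑ i, a i * x i) ^ 8 ∂μ
      ≤ ∫ x : EuclideanSpace ℝ ι, 2 ^ 7 * (lam ^ 8 + (L x) ^ 8) ∂μ :=
        integral_mono hint0 hint hpt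
    _ = 2 ^ 7 * (lam ^ 8 + s ^ 4 * M) := by
        rw [integral_const_mul, integral_add (integrable_const _) hL8i, hL8]
        simp
    _ ≤ 2 ^ 7 * (1 + M) * (lam ^ 2 + v) ^ 4 := by
        have h1 : lam ^ 8 ≤ (lam ^ 2 + v) ^ 4 := by
          calc lam ^ 8 = (lam ^ 2) ^ 4 := by ring
            _ ≤ (lam ^ 2 + v) ^ 4 := pow_le_pow_left₀ (by positivity) (by linarith) 4
        have h2 : s ^ 4 ≤ (lam ^ 2 + v) ^ 4 :=
          pow_le_pow_left₀ hs0 (by nlinarith [sq_nonneg lam]) 4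
        have h3 : s ^ 4 * M ≤ (lam ^ 2 + v) ^ 4 * M := mul_le_mul_of_nonneg_right h2 hM0
        nlinarith

end H941.gauss_eight
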