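import Pool.Agent.H941.Defs4
import Pool.Agent.H941.A3
import Pool.Agent.H941.A4
import Pool.Agent.H941.B.green_decomp
import Pool.Agent.H941.G1

open MeasureTheory ProbabilityTheory

namespace H941.jensen_stop

private theorem tangent8 (a b : ℝ) : a ^ 8 + 8 * a ^ 7 * (b - a) ≤ b ^ 8 := by
  have h : b ^ 8 - (a ^ 8 + 8 * a ^ 7 * (b - a)) =
      (b - a) ^ 2 * ((b ^ 4 + 2 * (a ^ 2 * b ^ 2) + 3 * a ^ 4) * (b + a) ^ 2 + 4 * a ^ 6) := by ring
  have h2 : 0 ≤ (b - a) ^ 2 * ((b ^ 4 + 2 * (a ^ 2 * b ^ 2) + 3 * a ^ 4) * (b + a) ^ 2 + 4 * a ^ 6) := by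
    positivity
  linarith

private theorem clm_memLp {ι : Type*} [Fintype ι] (P : Measure (EuclideanSpace ℝ ι)) [IsGaussian P]
    (L : EuclideanSpace ℝ ι →L[ℝ] ℝ) (lam : ℝ) :
    MemLp (fun x => lam - L x) 8 P := by
  have h1 : MemLp (fun x => L x) 8 P :=
    L.comp_memLp' (IsGaussian.memLp_id P 8 (by norm_num))
  exact (memLp_const lam).sub h1

private theorem clm_int {ι : Type*} [Fintype ι] (P : Measure (EuclideanSpace ℝ ι)) [IsGaussian P]
    (L : EuclideanSpace ℝ ι →L[ℝ] ℝ) (lam : ℝ) :
    Integrable (fun x => (lam - L x) ^ 8) P := by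
  have h := (clm_memLp P L lam).integrable_norm_pow (p := 8) (by norm_num)
  refine h.congr (Filter.Eventually.of_forall fun x => ?_)
  show ‖lam - L x‖ ^ 8 = (lam - L x) ^ 8
  rw [Real.norm_eq_abs]
  exact Even.pow_abs (by decide) _

private theorem aux_jensen {ι κ : Type*} [Fintype ι] [Fintype κ]
    (P : Measure (EuclideanSpace ℝ ι)) [IsGaussian P]
    (X : κ → EuclideanSpace ℝ ι →L[ℝ] ℝ) (Y G : EuclideanSpace ℝ ι →L[ℝ] ℝ)
    (g : (κ → ℝ) → ℝ) (hg : Measurable g) (hG : ∀ x, g (fun i => X i x) = G x)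
    (hcov : ∀ i, cov[fun x => X i x, fun x => Y x; P] = 0)
    (hmean : ∫ x, Y x ∂P = 0) (S : Set (κ → ℝ)) (hS : MeasurableSet S) (lam : ℝ) :
    ∫ x in {x | (fun i => X i x) ∈ S}, (lam - G x) ^ 8 ∂P ≤
      ∫ x in {x | (fun i => X i x) ∈ S}, (lam - (G x + Y x)) ^ 8 ∂P := by
  classical
  have : IsProbabilityMeasure P := inferInstance
  have hmX : Measurable (fun x : EuclideanSpace ℝ ι => fun i => X i x) :=
    measurable_pi_lambda _ fun i => (X i).measurable
  have hTm : MeasurableSet {x : EuclideanSpace ℝ ι | (fun i => X i x) ∈ S} := hmX hS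
  set T : Set (EuclideanSpace ℝ ι) := {x | (fun i => X i x) ∈ S} with hT
  -- independence
  have hind : IndepFun (fun x (i : κ) => X i x) (fun x (_ : Unit) => Y x) P := by
    refine HasGaussianLaw.indepFun_of_covariance_eval (X := fun i x => X i x)
      (Y := fun (_ : Unit) x => Y x) ?_ (fun i _ => hcov i)
    exact (IsGaussian.hasGaussianLaw_id (μ := P)).map_fun
      ((ContinuousLinearMap.pi X).prod (ContinuousLinearMap.pi (fun _ : Unit => Y)))
  have hi1 : Integrable (fun x => (lam - G x) ^ 8) P := clm_int P G lam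
  have hi2 : Integrable (fun x => (lam - (G x + Y x)) ^ 8) P := by
    simpa using! clm_int P (G + Y) lam
  have hi3 : Integrable (fun x => (lam - G x) ^ 7 * Y x) P := by
    have hY8 : Integrable (fun x => (Y x) ^ 8) P := by
      have := clm_int P Y 0
      refine this.congr (Filter.Eventually.of_forall fun x => ?_)
      show (0 - Y x) ^ 8 = (Y x) ^ 8
      ring
    refine Integrable.mono' (hi1.add hY8) (by fun_prop) (Filter.Eventually.of_forall fun x => ?_)
    show ‖(lam - G x) ^ 7 * Y x‖ ≤ (lam - G x) ^ 8 + (Y x) ^ 8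
    rw [norm_mul, norm_pow, Real.norm_eq_abs, Real.norm_eq_abs,
      ← Even.pow_abs (by decide : Even 8) (lam - G x), ← Even.pow_abs (by decide : Even 8) (Y x)]
    have ha := abs_nonneg (lam - G x)
    have hb := abs_nonneg (Y x)
    generalize |lam - G x| = a at ha ⊢
    generalize |Y x| = b at hb ⊢
    rcases le_total a b with h | h
    · have : a ^ 7 * b ≤ b ^ 7 * b := mul_le_mul_of_nonneg_right (pow_le_pow_left₀ ha h 7) hb
      have h2 : 0 ≤ a ^ 8 := by positivity
      calc a ^ 7 * b ≤ b ^ 7 * b := this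
        _ = b ^ 8 := by ring
        _ ≤ a ^ 8 + b ^ 8 := by linarith
    · have : a ^ 7 * b ≤ a ^ 7 * a := mul_le_mul_of_nonneg_left h (by positivity)
      have h2 : 0 ≤ b ^ 8 := by positivity
      calc a ^ 7 * b ≤ a ^ 7 * a := this
        _ = a ^ 8 := by ring
        _ ≤ a ^ 8 + b ^ 8 := by linarith
  have key : ∫ x in T, (lam - G x) ^ 7 * Y x ∂P = 0 := by
    rw [← integral_indicator hTm]
    have e : (fun x => T.indicator (fun x => (lam - G x) ^ 7 * Y x) x) =
        fun x => ((S.indicator (fun y => (lam - g y) ^ 7)) ∘ (fun x i => X i x)) x *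
          ((fun y : Unit → ℝ => y ()) ∘ (fun x (_ : Unit) => Y x)) x := by
      funext x
      simp only [Function.comp, Set.indicator, hT, Set.mem_ofPred_eq, hG]
      split_ifs <;> simp
    rw [e]
    have hψ : Measurable (fun y : Unit → ℝ => y ()) := measurable_pi_apply _
    have hind2 := hind.comp (φ := S.indicator (fun y => (lam - g y) ^ 7))
      (ψ := fun y : Unit → ℝ => y ()) ((by fun_prop : Measurable (fun y => (lam - g y) ^ 7)).indicator hS)
      hψ
    rw [hind2.integral_fun_mul_eq_mul_integral]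
    · have : ∫ x, ((fun y : Unit → ℝ => y ()) ∘ (fun x (_ : Unit) => Y x)) x ∂P = 0 := hmean
      rw [this, mul_zero]
    · exact (((by fun_prop : Measurable (fun y => (lam - g y) ^ 7)).indicator hS).comp hmX).aestronglyMeasurable
    · exact (hψ.comp (measurable_pi_lambda _ fun _ => Y.measurable)).aestronglyMeasurable
  calc ∫ x in T, (lam - G x) ^ 8 ∂P
      = ∫ x in T, ((lam - G x) ^ 8 - 8 * ((lam - G x) ^ 7 * Y x)) ∂P := by
        rw [integral_sub hi1.integrableOn (hi3.const_mul 8).integrableOn, integral_const_mul, key]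
        ring
    _ ≤ ∫ x in T, (lam - (G x + Y x)) ^ 8 ∂P := by
        refine integral_mono (hi1.integrableOn.sub (hi3.const_mul 8).integrableOn) hi2.integrableOn ?_
        intro x
        have := tangent8 (lam - G x) (lam - (G x + Y x))
        show (lam - G x) ^ 8 - 8 * ((lam - G x) ^ 7 * Y x) ≤ _
        linarith [this, show 8 * (lam - G x) ^ 7 * (lam - (G x + Y x) - (lam - G x)) = - (8 * ((lam - G x) ^ 7 * Y x)) by ring]

theorem _root_.H941.jensen_stop (D U : Finset (ℤ × ℤ)) (u : ℤ × ℤ) (hu : u ∈ U) (hU : U ⊆ D) (lam : ℝ)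
    (A : EuclideanSpace ℝ (D : Finset (ℤ × ℤ)) → Finset (ℤ × ℤ)) (E : Set (EuclideanSpace ℝ (D : Finset (ℤ × ℤ))))
    (hA : ∀ B, MeasurableSet {x | A x = B}) (hAD : ∀ x, A x ⊆ D) (hEm : MeasurableSet E)
    (hstop : ∀ x x' : EuclideanSpace ℝ (D : Finset (ℤ × ℤ)), (∀ v ∈ A x, extf D x v = extf D x' v) → A x' = A x)
    (hE : ∀ x x' : EuclideanSpace ℝ (D : Finset (ℤ × ℤ)), (∀ v ∈ A x, extf D x v = extf D x' v) → x ∈ E → x' ∈ E)
    (hEU : ∀ x ∈ E, Disjoint (A x) U) :
    ∫ x in E, (lam - hx D (A x) (extf D x) u) ^ 8 ∂(gf D D) ≤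
      ∫ x in E, (lam - ∑ z ∈ D \ U, hit D (D \ U) u z * extf D x z) ^ 8 ∂(gf D D) := by
  classical
  -- positive semidefiniteness
  obtain ⟨-, hg0, hgsym, -, -, -⟩ := green_basic D
  have hS : (Matrix.of fun x y : (D : Finset (ℤ × ℤ)) => (1 / 4) * green D x y).PosSemidef := by
    refine Matrix.PosSemidef.of_dotProduct_mulVec_nonneg ?_ ?_
    · ext i j
      simp only [Matrix.conjTranspose_apply, Matrix.of_apply, star_trivial]
      rw [hgsym]
    · intro x
      have h := green_psd ∅ D (Finset.empty_subset D)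
        (fun v => if h : v ∈ D then x ⟨v, h⟩ else 0)
      have h0 : ∀ a b, green ∅ a b = 0 := fun a b => by
        obtain ⟨-, h0, -⟩ := green_basic ∅
        exact h0 a b (Or.inl (Finset.notMem_empty a))
      simp only [h0, sub_zero] at h
      rw [← Finset.sum_coe_sort D] at h
      have e : dotProduct (star x) (Matrix.mulVec (Matrix.of (fun x y : (D : Finset (ℤ × ℤ)) => (1 / 4) * green D x y)) x) =
          (1 / 4) * ∑ i : (D : Finset (ℤ × ℤ)), ∑ x_1 ∈ D, (if h : (i : ℤ × ℤ) ∈ D then x ⟨i, h⟩ else 0) * green D i x_1 *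
            (if h : x_1 ∈ D then x ⟨x_1, h⟩ else 0) := by
        simp only [dotProduct, Matrix.mulVec, Matrix.of_apply, star_trivial, Finset.mul_sum]
        refine Finset.sum_congr rfl fun i _ => ?_
        rw [← Finset.sum_coe_sort D]
        refine Finset.sum_congr rfl fun j _ => ?_
        simp only [i.2, j.2, dif_pos, Pi.star_apply]
        ring
      rw [e]
      exact mul_nonneg (by norm_num) h
  -- the linear functionals
  let ev : ℤ × ℤ → (EuclideanSpace ℝ (D : Finset (ℤ × ℤ)) →L[ℝ] ℝ) := fun v =>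
    if h : v ∈ D then EuclideanSpace.proj ⟨v, h⟩ else 0
  have hev : ∀ v x, ev v x = extf D x v := by
    intro v x
    simp only [ev, extf]
    split_ifs <;> simp
  set P := gf D D with hP
  have hGauss : IsGaussian P := by rw [hP]; unfold gf; infer_instance
  have hmean : ∀ v, ∫ x, ev v x ∂P = 0 := by
    intro v
    rw [IsGaussian.integral_dual, hP]
    unfold gf
    rw [integral_id_multivariateGaussian, map_zero]
  have hcov : ∀ v w, cov[fun x => ev v x, fun x => ev w x; P] = (1 / 4) * green D v w := by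
    intro v w
    by_cases hv : v ∈ D
    · by_cases hw : w ∈ D
      · have h := covariance_eval_multivariateGaussian (μ := (0 : EuclideanSpace ℝ (D : Finset (ℤ × ℤ)))) hS ⟨v, hv⟩ ⟨w, hw⟩
        simp only [ev, dif_pos hv, dif_pos hw]
        exact h
      · simp only [ev, dif_neg hw, hg0 v w (Or.inr hw)]
        simp
    · simp only [ev, dif_neg hv, hg0 v w (Or.inl hv)]
      simp
  have hL2 : ∀ L : EuclideanSpace ℝ (D : Finset (ℤ × ℤ)) →L[ℝ] ℝ, MemLp (fun x => L x) 2 P := fun L =>
    L.comp_memLp' (IsGaussian.memLp_id P 2 (by norm_num))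
  have hu' : u ∉ D \ U := fun h => (Finset.mem_sdiff.1 h).2 hu
  have hDU : D \ (D \ U) = U := by
    rw [sdiff_sdiff_right_self]
    exact Finset.inter_eq_right.2 hU
  -- the claim for one value of `A`
  have hone : ∀ B : Finset (ℤ × ℤ), B ∈ D.powerset →
      IntegrableOn (fun x => (lam - hx D (A x) (extf D x) u) ^ 8) (E ∩ {x | A x = B}) P ∧
      IntegrableOn (fun x => (lam - ∑ z ∈ D \ U, hit D (D \ U) u z * extf D x z) ^ 8) (E ∩ {x | A x = B}) P ∧
      ∫ x in E ∩ {x | A x = B}, (lam - hx D (A x) (extf D x) u) ^ 8 ∂P ≤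
        ∫ x in E ∩ {x | A x = B}, (lam - ∑ z ∈ D \ U, hit D (D \ U) u z * extf D x z) ^ 8 ∂P := by
    intro B hB
    rw [Finset.mem_powerset] at hB
    have hEBm : MeasurableSet (E ∩ {x | A x = B}) := hEm.inter (hA B)
    by_cases hne : (E ∩ {x | A x = B}).Nonempty
    swap
    · rw [Set.not_nonempty_iff_eq_empty.1 hne]
      simp
    obtain ⟨x₀, hx₀E, hx₀A⟩ := hne
    have hx₀A' : A x₀ = B := hx₀A
    have hBU : Disjoint B U := hx₀A' ▸ hEU x₀ hx₀E
    have huB : u ∉ B := fun h => Finset.disjoint_left.1 hBU h hu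
    -- functionals
    let G : EuclideanSpace ℝ (D : Finset (ℤ × ℤ)) →L[ℝ] ℝ := ∑ v ∈ B, hit D B u v • ev v
    let Xi : EuclideanSpace ℝ (D : Finset (ℤ × ℤ)) →L[ℝ] ℝ := ∑ z ∈ D \ U, hit D (D \ U) u z • ev z
    have hGe : ∀ x, G x = hx D B (extf D x) u := by
      intro x
      simp only [G, hx, if_neg huB, ContinuousLinearMap.sum_apply, ContinuousLinearMap.smul_apply,
        hev, smul_eq_mul]
    have hXie : ∀ x, Xi x = ∑ z ∈ D \ U, hit D (D \ U) u z * extf D x z := by
      intro x
      simp only [Xi, ContinuousLinearMap.sum_apply, ContinuousLinearMap.smul_apply,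
        hev, smul_eq_mul]
    let X : ↥B → EuclideanSpace ℝ (D : Finset (ℤ × ℤ)) →L[ℝ] ℝ := fun b => ev b
    -- the set
    let ext0 : (↥B → ℝ) → EuclideanSpace ℝ (D : Finset (ℤ × ℤ)) := fun y =>
      WithLp.toLp 2 (fun v => if h : (v : ℤ × ℤ) ∈ B then y ⟨v, h⟩ else 0)
    have hext0 : Measurable ext0 := by
      refine (WithLp.measurable_toLp 2 _).comp ?_
      refine measurable_pi_lambda _ fun v => ?_
      split_ifs with h
      · exact measurable_pi_apply _
      · exact measurable_const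
    let S : Set (↥B → ℝ) := ext0 ⁻¹' (E ∩ {x | A x = B})
    have hSm : MeasurableSet S := hext0 hEBm
    have hagree : ∀ x : EuclideanSpace ℝ (D : Finset (ℤ × ℤ)), ∀ v ∈ B, extf D x v = extf D (ext0 fun i => X i x) v := by
      intro x v hv
      have hvD : v ∈ D := hB hv
      have e2 : extf D (ext0 fun i => X i x) v = X ⟨v, hv⟩ x := by
        simp only [extf, dif_pos hvD, ext0, dif_pos hv]
      rw [e2]
      exact (hev v x).symm
    have hSet : E ∩ {x | A x = B} = {x | (fun i => X i x) ∈ S} := by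
      ext x
      simp only [S, Set.mem_inter_iff, Set.mem_ofPred_eq, Set.mem_preimage]
      constructor
      · rintro ⟨h1, h2⟩
        refine ⟨hE x _ (fun v hv => hagree x v (h2 ▸ hv)) h1, ?_⟩
        rw [hstop x _ (fun v hv => hagree x v (h2 ▸ hv)), h2]
      · rintro ⟨h1, h2⟩
        refine ⟨hE (ext0 fun i => X i x) x (fun v hv => (hagree x v (h2 ▸ hv)).symm) h1, ?_⟩
        rw [hstop (ext0 fun i => X i x) x (fun v hv => (hagree x v (h2 ▸ hv)).symm), h2]
    have hcovb : ∀ b : ↥B, cov[fun x => X b x, fun x => (Xi - G) x; P] = 0 := by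
      rintro ⟨b, hb⟩
      have hbU : b ∉ U := fun h => Finset.disjoint_left.1 hBU hb h
      have e1 : cov[fun x => X ⟨b, hb⟩ x, fun x => (Xi - G) x; P] =
          cov[fun x => ev b x, fun x => Xi x; P] - cov[fun x => ev b x, fun x => G x; P] := by
        have : (fun x => (Xi - G) x) = (fun x => Xi x) - (fun x => G x) := by
          funext x; simp
        rw [this]
        exact covariance_sub_right (hL2 _) (hL2 _) (hL2 _)
      have hlin : ∀ (K : Finset (ℤ × ℤ)) (c : ℤ × ℤ → ℝ),
          cov[fun x => ev b x, fun x => (∑ z ∈ K, c z • ev z) x; P] = ∑ z ∈ K, c z * ((1 / 4) * green D z b) := by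
        intro K c
        have : (fun x => (∑ z ∈ K, c z • ev z) x) = fun x => ∑ z ∈ K, (fun z x => c z * ev z x) z x := by
          funext x
          simp only [ContinuousLinearMap.sum_apply, ContinuousLinearMap.smul_apply, smul_eq_mul]
        rw [this, covariance_fun_sum_right' (fun z _ => (hL2 (ev z)).const_mul (c z)) (hL2 _)]
        refine Finset.sum_congr rfl fun z _ => ?_
        rw [covariance_const_mul_right, hcov, hgsym]
      have e2 : cov[fun x => ev b x, fun x => Xi x; P] = (1 / 4) * green D u b := by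
        rw [hlin, green_decomp D (D \ U) u b hu', hDU]
        obtain ⟨-, hU0, -⟩ := green_basic U
        rw [hU0 u b (Or.inr hbU), zero_add, Finset.mul_sum]
        exact Finset.sum_congr rfl fun z _ => by ring
      have e3 : cov[fun x => ev b x, fun x => G x; P] = (1 / 4) * green D u b := by
        rw [hlin, green_decomp D B u b huB]
        obtain ⟨-, hU0, -⟩ := green_basic (D \ B)
        rw [hU0 u b (Or.inr fun h => (Finset.mem_sdiff.1 h).2 hb), zero_add, Finset.mul_sum]
        exact Finset.sum_congr rfl fun z _ => by ring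
      rw [e1, e2, e3, sub_self]
    have hmeanY : ∫ x, (Xi - G) x ∂P = 0 := by
      rw [IsGaussian.integral_dual, hP]
      unfold gf
      rw [integral_id_multivariateGaussian, map_zero]
    have main := aux_jensen P X (Xi - G) G (fun y => ∑ v : ↥B, hit D B u v * y v)
      (by fun_prop)
      (fun x => by
        simp only [G, X, ContinuousLinearMap.sum_apply, ContinuousLinearMap.smul_apply, smul_eq_mul]
        exact Finset.sum_coe_sort B (fun v => hit D B u v * ev v x))
      hcovb hmeanY S hSm lam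
    have c1 : ∫ x in E ∩ {x | A x = B}, (lam - hx D (A x) (extf D x) u) ^ 8 ∂P =
        ∫ x in {x | (fun i => X i x) ∈ S}, (lam - G x) ^ 8 ∂P := by
      rw [← hSet]
      refine setIntegral_congr_fun hEBm fun x hx' => ?_
      have : A x = B := hx'.2
      simp only [this, hGe]
    have c2 : ∫ x in E ∩ {x | A x = B}, (lam - ∑ z ∈ D \ U, hit D (D \ U) u z * extf D x z) ^ 8 ∂P =
        ∫ x in {x | (fun i => X i x) ∈ S}, (lam - (G x + (Xi - G) x)) ^ 8 ∂P := by
      rw [← hSet]
      refine setIntegral_congr_fun hEBm fun x hx' => ?_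
      simp only [← hXie, ContinuousLinearMap.sub_apply]
      ring
    refine ⟨?_, ?_, ?_⟩
    · refine ((clm_int P G lam).integrableOn (s := E ∩ {x | A x = B})).congr_fun (fun x hx' => ?_) hEBm
      have : A x = B := hx'.2
      simp only [this, hGe]
    · refine ((clm_int P Xi lam).integrableOn (s := E ∩ {x | A x = B})).congr_fun (fun x hx' => ?_) hEBm
      simp only [hXie]
    · rw [c1, c2]
      exact main
  -- assemble
  have hcover : E = ⋃ B ∈ D.powerset, (E ∩ {x | A x = B}) := by
    ext x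
    simp only [Set.mem_iUnion, Set.mem_inter_iff, Set.mem_ofPred_eq, exists_prop, Finset.mem_powerset]
    constructor
    · intro h
      exact ⟨A x, hAD x, h, rfl⟩
    · rintro ⟨B, -, h, -⟩
      exact h
  have hdisj : Set.Pairwise (↑D.powerset) (Function.onFun Disjoint fun B : Finset (ℤ × ℤ) => (E ∩ {x | A x = B})) := by
    intro B _ B' _ hBB'
    refine Set.disjoint_left.2 ?_
    rintro x ⟨-, h1⟩ ⟨-, h2⟩
    exact hBB' ((h1 : A x = B).symm.trans h2)
  rw [hcover, integral_biUnion_finset _ (fun B _ => hEm.inter (hA B)) hdisj (fun B hB => (hone B hB).1),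
    integral_biUnion_finset _ (fun B _ => hEm.inter (hA B)) hdisj (fun B hB => (hone B hB).2.1)]
  exact Finset.sum_le_sum fun B hB => (hone B hB).2.2

end H941.jensen_stop
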