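import Pool.Agent.H941.Defs4
import Pool.Agent.H941.A4
import Pool.Agent.H941.B.expl_facts
import Pool.Agent.H941.C.gauss_eight
import Pool.Agent.H941.C.jensen_stop
import Pool.Agent.H941.C.xi_var

open MeasureTheory ProbabilityTheory

namespace H941.win_mom

theorem walkProb_succ' (D : Finset (ℤ × ℤ)) : ∀ (n : ℕ) (u v : ℤ × ℤ),
    walkProb D (n + 1) u v = if v ∈ D then (1 / 4) * ∑ z ∈ nbrs v, walkProb D n u z else 0 := by
  classical
  have hnb : ∀ u v : ℤ × ℤ, v ∈ nbrs u ↔ u ∈ nbrs v := by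
    intro u v
    simp only [nbrs, Finset.mem_insert, Finset.mem_singleton, Prod.ext_iff]
    constructor <;> · rintro (h | h | h | h) <;> omega
  intro n
  induction n with
  | zero =>
    intro u v
    have h1 : walkProb D (0 + 1) u v = if u ∈ D then (1 / 4) * ∑ z ∈ nbrs u, walkProb D 0 z v else 0 := rfl
    rw [h1]
    have h2 : ∀ a b, walkProb D 0 a b = if a ∈ D ∧ a = b then 1 else 0 := fun a b => by
      rw [walkProb]
    simp only [h2]
    have e1 : ∑ z ∈ nbrs u, (if z ∈ D ∧ z = v then (1:ℝ) else 0) = if v ∈ nbrs u ∧ v ∈ D then 1 else 0 := by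
      have : ∀ z ∈ nbrs u, (if z ∈ D ∧ z = v then (1:ℝ) else 0) = if z = v then (if v ∈ D then 1 else 0) else 0 := by
        intro z _
        by_cases hz : z = v
        · subst hz; simp
        · simp [hz]
      rw [Finset.sum_congr rfl this, Finset.sum_ite_eq']
      by_cases h : v ∈ nbrs u <;> by_cases h' : v ∈ D <;> simp [h, h']
    have e2 : ∑ z ∈ nbrs v, (if u ∈ D ∧ u = z then (1:ℝ) else 0) = if u ∈ nbrs v ∧ u ∈ D then 1 else 0 := by
      have : ∀ z ∈ nbrs v, (if u ∈ D ∧ u = z then (1:ℝ) else 0) = if u = z then (if u ∈ D then 1 else 0) else 0 := by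
        intro z _
        by_cases hz : u = z
        · subst hz; simp
        · simp [hz]
      rw [Finset.sum_congr rfl this, Finset.sum_ite_eq]
      by_cases h : u ∈ nbrs v <;> by_cases h' : u ∈ D <;> simp [h, h']
    rw [e1, e2]
    by_cases h1 : u ∈ D <;> by_cases h2 : v ∈ D <;> by_cases h3 : v ∈ nbrs u <;>
      simp [h1, h2, h3, (hnb u v).symm]
  | succ n ih =>
    intro u v
    have h1 : walkProb D (n + 1 + 1) u v =
        if u ∈ D then (1 / 4) * ∑ z ∈ nbrs u, walkProb D (n + 1) z v else 0 := rfl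
    rw [h1]
    have h2 : ∀ a b, walkProb D (n + 1) a b =
        if a ∈ D then (1 / 4) * ∑ z ∈ nbrs a, walkProb D n z b else 0 := fun a b => rfl
    by_cases hu : u ∈ D
    · rw [if_pos hu]
      rw [Finset.sum_congr rfl (fun z _ => ih z v)]
      by_cases hv : v ∈ D
      · simp only [if_pos hv]
        rw [Finset.sum_congr rfl (fun z _ => h2 u z)]
        simp only [if_pos hu]
        rw [← Finset.mul_sum, ← Finset.mul_sum, Finset.sum_comm]
      · simp [hv]
    · rw [if_neg hu]
      by_cases hv : v ∈ D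
      · rw [if_pos hv]
        rw [Finset.sum_congr rfl (fun z _ => h2 u z)]
        simp [hu]
      · rw [if_neg hv]

theorem walkProb_symm (D : Finset (ℤ × ℤ)) : ∀ (n : ℕ) (u v : ℤ × ℤ),
    walkProb D n u v = walkProb D n v u := by
  classical
  intro n
  induction n with
  | zero =>
    intro u v
    rw [walkProb, walkProb]
    by_cases h : u = v
    · subst h; rfl
    · have h' : ¬ v = u := fun e => h e.symm
      simp [h, h']
  | succ n ih =>
    intro u v
    rw [walkProb_succ']
    have h2 : walkProb D (n + 1) v u =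
        if v ∈ D then (1 / 4) * ∑ z ∈ nbrs v, walkProb D n z u else 0 := rfl
    rw [h2, Finset.sum_congr rfl (fun z _ => ih u z)]

theorem green_symm' (D : Finset (ℤ × ℤ)) (u v : ℤ × ℤ) : green D u v = green D v u := by
  unfold green
  exact tsum_congr fun n => walkProb_symm D n u v

theorem green_empty (u v : ℤ × ℤ) : green ∅ u v = 0 := by
  unfold green
  have : ∀ n, walkProb ∅ n u v = 0 := by
    intro n
    cases n with
    | zero => rw [walkProb]; simp
    | succ n => rw [walkProb]; simp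
  simp [this]

theorem quarter_green_psd (D : Finset (ℤ × ℤ)) :
    (Matrix.of fun x y : (D : Finset (ℤ × ℤ)) => (1 / 4 : ℝ) * green D x y).PosSemidef := by
  classical
  rw [Matrix.posSemidef_iff_dotProduct_mulVec]
  refine ⟨?_, ?_⟩
  · ext x y
    simp only [Matrix.conjTranspose_apply, Matrix.of_apply, star_trivial]
    rw [green_symm']
  · intro x
    have h := green_psd ∅ D (by simp) (fun v => if h : v ∈ D then x ⟨v, h⟩ else 0)
    simp only [green_empty, sub_zero] at h
    rw [← Finset.sum_coe_sort D] at h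
    have e : ∀ i : D, ∑ y ∈ D, (if h : (i : ℤ × ℤ) ∈ D then x ⟨i, h⟩ else 0) * green D i y *
        (if h : y ∈ D then x ⟨y, h⟩ else 0) = ∑ j : D, x i * green D i j * x j := by
      intro i
      rw [← Finset.sum_coe_sort D]
      refine Finset.sum_congr rfl fun j _ => ?_
      simp
    rw [Finset.sum_congr rfl (fun i _ => e i)] at h
    have e2 : star x ⬝ᵥ (Matrix.of fun x y : (D : Finset (ℤ × ℤ)) => (1 / 4 : ℝ) * green D x y).mulVec x =
        (1 / 4) * ∑ i : D, ∑ j : D, x i * green D i j * x j := by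
      simp only [dotProduct, Matrix.mulVec, Matrix.of_apply, Pi.star_apply, star_trivial]
      rw [Finset.mul_sum]
      refine Finset.sum_congr rfl fun i _ => ?_
      rw [Finset.mul_sum, Finset.mul_sum]
      refine Finset.sum_congr rfl fun j _ => ?_
      ring
    rw [e2]
    positivity

theorem meas_Kk (w d : ℕ) (lam : ℝ) (k : ℕ) (hd : 1 ≤ d) (hw : 2 * d + 1 ≤ w) (B : Finset (ℤ × ℤ)) :
    MeasurableSet {x : EuclideanSpace ℝ (Dw w : Finset (ℤ × ℤ)) | Kk w d lam (extf (Dw w) x) k = B} := by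
  classical
  set R : Finset (ℤ × ℤ) := rect w (5 * w) d (w - d) with hR
  set K0 : Finset (ℤ × ℤ) := rect w w d (w - d) with hK0
  have hK0R : K0 ⊆ R := by
    intro v hv
    simp only [hK0, hR, rect, Finset.mem_product, Finset.mem_Icc] at hv ⊢
    omega
  have key : ∀ x : EuclideanSpace ℝ (Dw w : Finset (ℤ × ℤ)), Kk w d lam (extf (Dw w) x) k =
      (expl R K0 (fun v => v ∈ R.filter (fun v => extf (Dw w) x v ≤ lam)) k).1 := by
    intro x
    have h := (expl_facts R K0 hK0R (fun v => extf (Dw w) x v ≤ lam)).2.2.2.2.2.2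
      (fun v => v ∈ R.filter (fun v => extf (Dw w) x v ≤ lam)) k
      (fun v hv => by
        have hvR : v ∈ R := ((expl_facts R K0 hK0R (fun v => extf (Dw w) x v ≤ lam)).1 k).2.1 hv
        simp [hvR]) k le_rfl
    rw [h]
    rfl
  have hset : {x : EuclideanSpace ℝ (Dw w : Finset (ℤ × ℤ)) | Kk w d lam (extf (Dw w) x) k = B} =
      ⋃ S ∈ (R.powerset.filter (fun S => (expl R K0 (fun v => v ∈ S) k).1 = B)),
        {x | R.filter (fun v => extf (Dw w) x v ≤ lam) = S} := by
    ext x
    simp only [Set.mem_setOf_eq, Finset.mem_filter, Finset.mem_powerset, Set.mem_iUnion, exists_prop]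
    constructor
    · intro hx
      exact ⟨R.filter (fun v => extf (Dw w) x v ≤ lam), ⟨Finset.filter_subset _ _, by rw [← key x]; exact hx⟩, rfl⟩
    · rintro ⟨S, ⟨_, hS⟩, rfl⟩
      rw [key x]; exact hS
  rw [hset]
  refine Finset.measurableSet_biUnion _ fun S hS => ?_
  have hSR : S ⊆ R := by
    simp only [Finset.mem_filter, Finset.mem_powerset] at hS
    exact hS.1
  have h2 : {x : EuclideanSpace ℝ (Dw w : Finset (ℤ × ℤ)) | R.filter (fun v => extf (Dw w) x v ≤ lam) = S} =
      ⋂ v ∈ R, {x | extf (Dw w) x v ≤ lam ↔ v ∈ S} := by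
    ext x
    simp only [Set.mem_setOf_eq, Set.mem_iInter]
    constructor
    · rintro rfl v hv
      simp [hv]
    · intro h
      ext v
      simp only [Finset.mem_filter]
      constructor
      · rintro ⟨h1, h2⟩; exact (h v h1).1 h2
      · intro h1; exact ⟨hSR h1, (h v (hSR h1)).2 h1⟩
  rw [h2]
  refine Finset.measurableSet_biInter _ fun v _ => ?_
  have hmeas : Measurable (fun x : EuclideanSpace ℝ (Dw w : Finset (ℤ × ℤ)) => extf (Dw w) x v) := by
    unfold extf
    by_cases h : v ∈ Dw w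
    · simp only [h, dite_true]
      fun_prop
    · simp only [h, dite_false]
      exact measurable_const
  have hm := measurableSet_le hmeas (measurable_const (a := lam))
  by_cases hvS : v ∈ S
  · simpa [hvS] using hm
  · simp only [hvS, iff_false]
    exact hm.compl

theorem log_bound (w n : ℕ) (hn : n + 1 ≤ w) :
    0 ≤ Real.log (7 * w / (n + 1)) ∧
    (1 / 4) * ((Real.log (1 + 2 * ((7 * w : ℕ) : ℝ) ^ 2) - Real.log (1 + (n : ℝ) ^ 2)) / Real.log 2) ≤
      1 + Real.log (7 * w / (n + 1)) := by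
  have hn' : ((n : ℝ) + 1) ≤ w := by exact_mod_cast hn
  have hn0 : (0 : ℝ) ≤ n := Nat.cast_nonneg n
  have hw0 : (1 : ℝ) ≤ w := by linarith
  have hL : 0 ≤ Real.log (7 * w / (n + 1)) := by
    apply Real.log_nonneg
    rw [le_div_iff₀ (by positivity)]
    linarith
  refine ⟨hL, ?_⟩
  have e1 : Real.log (1 + 2 * ((7 * w : ℕ) : ℝ) ^ 2) ≤ Real.log 3 + 2 * Real.log (7 * w) := by
    have : Real.log 3 + 2 * Real.log (7 * w) = Real.log (3 * (7 * w) ^ 2) := by
      rw [Real.log_mul (x := 3) (y := (7 * (w:ℝ)) ^ 2) (by norm_num) (by positivity), Real.log_pow]; norm_num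
    rw [this]
    apply Real.log_le_log (by positivity)
    push_cast
    nlinarith
  have e2 : 2 * Real.log ((n : ℝ) + 1) - Real.log 2 ≤ Real.log (1 + (n : ℝ) ^ 2) := by
    have : 2 * Real.log ((n : ℝ) + 1) - Real.log 2 = Real.log (((n : ℝ) + 1) ^ 2 / 2) := by
      rw [Real.log_div (by positivity) (by norm_num), Real.log_pow]; norm_num
    rw [this]
    apply Real.log_le_log (by positivity)
    nlinarith [sq_nonneg ((n : ℝ) - 1)]
  have e3 : Real.log (7 * w / (n + 1)) = Real.log (7 * w) - Real.log ((n : ℝ) + 1) := by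
    rw [Real.log_div (by positivity) (by positivity)]
  have h2 : (0.5 : ℝ) ≤ Real.log 2 := by have := Real.log_two_gt_d9; linarith
  have h6 : Real.log 3 + Real.log 2 ≤ 3 * Real.log 2 := by
    have : Real.log 3 ≤ Real.log 4 := Real.log_le_log (by norm_num) (by norm_num)
    have h4 : Real.log 4 = 2 * Real.log 2 := by
      rw [show (4:ℝ) = 2 ^ 2 by norm_num, Real.log_pow]; norm_num
    linarith
  rw [← mul_div_assoc, div_le_iff₀ (by linarith)]
  nlinarith

theorem _root_.H941.win_mom : ∃ C : ℝ, 0 < C ∧ ∀ (w d : ℕ) (lam : ℝ), 1 ≤ d → 2 * d + 1 ≤ w → ∀ (u : ℤ × ℤ) (n T m : ℕ), ball u n ⊆ Dw w →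
    ∀ E : ℕ → Set (EuclideanSpace ℝ (Dw w : Finset (ℤ × ℤ))), (∀ k, MeasurableSet (E k)) →
    (∀ k, ∀ x x' : EuclideanSpace ℝ (Dw w : Finset (ℤ × ℤ)),
      (∀ v ∈ Kk w d lam (extf (Dw w) x) k, extf (Dw w) x v = extf (Dw w) x' v) → x ∈ E k → x' ∈ E k) →
    (∀ k, ∀ x ∈ E k, ball u n ⊆ Dw w \ Kk w d lam (extf (Dw w) x) k) →
    (∀ x, ∑ k ∈ Finset.range T, Set.indicator (E k) (fun _ => (1 : ℝ)) x ≤ m) →
    ∑ k ∈ Finset.range T, ∫ x in E k, (lam - hx (Dw w) (Kk w d lam (extf (Dw w) x) k) (extf (Dw w) x) u) ^ 8 ∂(gf (Dw w) (Dw w)) ≤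
      m * (C * (lam ^ 2 + 1 + Real.log (7 * w / (n + 1))) ^ 4) := by
  classical
  obtain ⟨C, hC0, hC⟩ := gauss_eight
  refine ⟨C, hC0, ?_⟩
  intro w d lam hd hw u n T m hball E hEm hEst hEb hEsum
  have huU : u ∈ ball u n := by
    simp only [ball, rect, Finset.mem_product, Finset.mem_Icc]
    omega
  have hnw : n + 1 ≤ w := by
    have h1 : (u.1, u.2 - n) ∈ ball u n := by
      simp only [ball, rect, Finset.mem_product, Finset.mem_Icc]; omega
    have h2 : (u.1, u.2 + n) ∈ ball u n := by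
      simp only [ball, rect, Finset.mem_product, Finset.mem_Icc]; omega
    have h1' := hball h1
    have h2' := hball h2
    simp only [Dw, rect, Finset.mem_product, Finset.mem_Icc] at h1' h2'
    omega
  obtain ⟨hL0, hLb⟩ := log_bound w n hnw
  have hK0R : (rect w w d (w - d) : Finset (ℤ × ℤ)) ⊆ rect w (5 * w) d (w - d) := by
    intro v hv
    simp only [rect, Finset.mem_product, Finset.mem_Icc] at hv ⊢
    omega
  have hRD : (rect w (5 * w) d (w - d) : Finset (ℤ × ℤ)) ⊆ Dw w := by
    intro v hv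
    simp only [Dw, rect, Finset.mem_product, Finset.mem_Icc] at hv ⊢
    omega
  have hstopK : ∀ k, ∀ x x' : EuclideanSpace ℝ (Dw w : Finset (ℤ × ℤ)),
      (∀ v ∈ Kk w d lam (extf (Dw w) x) k, extf (Dw w) x v = extf (Dw w) x' v) →
      Kk w d lam (extf (Dw w) x') k = Kk w d lam (extf (Dw w) x) k := by
    intro k x x' h
    have h2 := (expl_facts _ _ hK0R (fun v => extf (Dw w) x v ≤ lam)).2.2.2.2.2.2
      (fun v => extf (Dw w) x' v ≤ lam) k (fun v hv => by
        have := h v hv
        simp only [this]) k le_rfl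
    unfold Kk
    rw [h2]
  set U : Finset (ℤ × ℤ) := ball u n with hU
  set g : EuclideanSpace ℝ (Dw w : Finset (ℤ × ℤ)) → ℝ := fun x =>
    (lam - ∑ z ∈ Dw w \ U, hit (Dw w) (Dw w \ U) u z * extf (Dw w) x z) ^ 8 with hg
  have hg0 : ∀ x, 0 ≤ g x := fun x => by simp only [hg]; positivity
  have hstep : ∀ k, ∫ x in E k, (lam - hx (Dw w) (Kk w d lam (extf (Dw w) x) k) (extf (Dw w) x) u) ^ 8 ∂(gf (Dw w) (Dw w)) ≤
      ∫ x in E k, g x ∂(gf (Dw w) (Dw w)) := by
    intro k
    refine jensen_stop (Dw w) U u huU hball lam (fun x => Kk w d lam (extf (Dw w) x) k) (E k)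
      (meas_Kk w d lam k hd hw) ?_ (hEm k) (hstopK k) (hEst k) ?_
    · intro x
      exact ((expl_facts _ _ hK0R (fun v => extf (Dw w) x v ≤ lam)).1 k).2.1.trans hRD
    · intro x hx
      have := hEb k x hx
      rw [Finset.disjoint_left]
      intro v hv hvU
      exact (Finset.mem_sdiff.1 (this hvU)).2 hv
  have hpsd := quarter_green_psd (Dw w)
  set a : ↥(Dw w) → ℝ := fun i => if (i : ℤ × ℤ) ∈ Dw w \ U then hit (Dw w) (Dw w \ U) u i else 0 with ha
  have hsum1 : ∀ x : EuclideanSpace ℝ (Dw w : Finset (ℤ × ℤ)),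
      ∑ z ∈ Dw w \ U, hit (Dw w) (Dw w \ U) u z * extf (Dw w) x z = ∑ i, a i * x i := by
    intro x
    have e1 : ∀ f : ℤ × ℤ → ℝ, ∑ z ∈ Dw w \ U, f z = ∑ z ∈ Dw w, if z ∈ Dw w \ U then f z else 0 := by
      intro f
      rw [← Finset.sum_filter]
      congr 1
      ext v
      simp only [Finset.mem_filter, Finset.mem_sdiff]
      tauto
    rw [e1, ← Finset.sum_coe_sort]
    refine Finset.sum_congr rfl fun i _ => ?_
    simp only [ha]
    by_cases hi : (i : ℤ × ℤ) ∈ Dw w \ U
    · rw [if_pos hi, if_pos hi]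
      simp [extf]
    · rw [if_neg hi, if_neg hi, zero_mul]
  have hquad : ∑ i, ∑ j, a i * (Matrix.of fun x y : (Dw w : Finset (ℤ × ℤ)) => (1 / 4 : ℝ) * green (Dw w) x y) i j * a j ≤
      1 + Real.log (7 * w / (n + 1)) := by
    have hx := xi_var (Dw w) (7 * w) n (by omega) (by
      intro x hx y hy
      simp only [Dw, rect, Finset.mem_product, Finset.mem_Icc] at hx hy
      push_cast
      constructor <;> rw [abs_lt] <;> constructor <;> omega) u hball
    refine le_trans (le_of_eq ?_) (le_trans (mul_le_mul_of_nonneg_left hx (by norm_num : (0:ℝ) ≤ 1 / 4)) hLb)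
    have e1 : ∀ f : ℤ × ℤ → ℝ, ∑ z ∈ Dw w \ U, f z = ∑ i : (Dw w : Finset (ℤ × ℤ)), if (i : ℤ × ℤ) ∈ Dw w \ U then f i else 0 := by
      intro f
      rw [Finset.sum_coe_sort (Dw w) (fun z => if z ∈ Dw w \ U then f z else 0), ← Finset.sum_filter]
      congr 1
      ext v
      simp only [Finset.mem_filter, Finset.mem_sdiff]
      tauto
    rw [e1, Finset.mul_sum]
    refine Finset.sum_congr rfl fun i _ => ?_
    rw [e1]
    by_cases hi : (i : ℤ × ℤ) ∈ Dw w \ U
    · rw [if_pos hi, Finset.mul_sum]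
      refine Finset.sum_congr rfl fun j _ => ?_
      simp only [ha, Matrix.of_apply]
      by_cases hj : (j : ℤ × ℤ) ∈ Dw w \ U
      · rw [if_pos hi, if_pos hj, if_pos hj]; ring
      · rw [if_neg hj, if_neg hj]; ring
    · rw [if_neg hi]
      simp only [ha, if_neg hi]
      simp
  obtain ⟨hint, hbound⟩ := hC (Dw w : Finset (ℤ × ℤ)) _ hpsd a lam (1 + Real.log (7 * w / (n + 1)))
    (by linarith) hquad
  have hgi : g = fun x : EuclideanSpace ℝ (Dw w : Finset (ℤ × ℤ)) => (lam - ∑ i, a i * x i) ^ 8 := by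
    funext x
    simp only [hg]
    rw [hsum1 x]
  have hgint : Integrable g (gf (Dw w) (Dw w)) := by
    rw [hgi]; exact hint
  have hgb : ∫ x, g x ∂(gf (Dw w) (Dw w)) ≤ C * (lam ^ 2 + (1 + Real.log (7 * w / (n + 1)))) ^ 4 := by
    rw [hgi]; exact hbound
  calc ∑ k ∈ Finset.range T, ∫ x in E k, (lam - hx (Dw w) (Kk w d lam (extf (Dw w) x) k) (extf (Dw w) x) u) ^ 8 ∂(gf (Dw w) (Dw w))
      ≤ ∑ k ∈ Finset.range T, ∫ x in E k, g x ∂(gf (Dw w) (Dw w)) := Finset.sum_le_sum fun k _ => hstep k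
    _ = ∑ k ∈ Finset.range T, ∫ x, Set.indicator (E k) (fun _ => (1:ℝ)) x * g x ∂(gf (Dw w) (Dw w)) := by
        refine Finset.sum_congr rfl fun k _ => ?_
        rw [← integral_indicator (hEm k)]
        refine integral_congr_ae (Filter.Eventually.of_forall fun x => ?_)
        by_cases hx : x ∈ E k <;> simp [hx]
    _ = ∫ x, ∑ k ∈ Finset.range T, Set.indicator (E k) (fun _ => (1:ℝ)) x * g x ∂(gf (Dw w) (Dw w)) := by
        rw [integral_finset_sum]
        intro k _
        have : (fun x => Set.indicator (E k) (fun _ => (1:ℝ)) x * g x) = Set.indicator (E k) g := by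
          funext x
          by_cases hx : x ∈ E k <;> simp [hx]
        rw [this]
        exact hgint.indicator (hEm k)
    _ ≤ ∫ x, (m : ℝ) * g x ∂(gf (Dw w) (Dw w)) := by
        refine integral_mono ?_ (hgint.const_mul _) ?_
        · refine integrable_finset_sum _ fun k _ => ?_
          have : (fun x => Set.indicator (E k) (fun _ => (1:ℝ)) x * g x) = Set.indicator (E k) g := by
            funext x
            by_cases hx : x ∈ E k <;> simp [hx]
          rw [this]
          exact hgint.indicator (hEm k)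
        · intro x
          simp only
          rw [← Finset.sum_mul]
          exact mul_le_mul_of_nonneg_right (hEsum x) (hg0 x)
    _ = m * ∫ x, g x ∂(gf (Dw w) (Dw w)) := integral_const_mul _ _
    _ ≤ m * (C * (lam ^ 2 + 1 + Real.log (7 * w / (n + 1))) ^ 4) := by
        refine mul_le_mul_of_nonneg_left ?_ (Nat.cast_nonneg m)
        rw [add_assoc]
        exact hgb

end H941.win_mom
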