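import Pool.Agent.H941.Defs4
import Pool.Agent.H941.B.expl_facts
import Pool.Agent.H941.C.win_mom

open MeasureTheory ProbabilityTheory

namespace H941.mom_exp

namespace ME


abbrev EE (w : ℕ) : Type := EuclideanSpace ℝ (Dw w : Finset (ℤ × ℤ))

noncomputable abbrev Rr (w d : ℕ) : Finset (ℤ × ℤ) := rect w (5 * w) d (w - d)

/-- the low vertices of the rectangle -/
noncomputable def lowR (w d : ℕ) (lam : ℝ) (x : EE w) : Finset (ℤ × ℤ) :=
  (Rr w d).filter (fun v => extf (Dw w) x v ≤ lam)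

noncomputable def KS (w d : ℕ) (S : Finset (ℤ × ℤ)) (k : ℕ) : Finset (ℤ × ℤ) :=
  (expl (rect w (5 * w) d (w - d)) (rect w w d (w - d)) (fun v => v ∈ S) k).1

theorem K0_sub (w d : ℕ) :
    rect (w : ℤ) w d (w - d) ⊆ rect w (5 * w) d (w - d) := by
  intro v hv
  simp only [rect, Finset.mem_product, Finset.mem_Icc] at hv ⊢
  omega

theorem Kk_eq (w d : ℕ) (lam : ℝ) (x : EE w) (k : ℕ) :
    Kk w d lam (extf (Dw w) x) k = KS w d (lowR w d lam x) k := by
  have h := expl_facts (rect w (5 * w) d (w - d)) (rect w w d (w - d)) (K0_sub w d)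
    (fun v => extf (Dw w) x v ≤ lam)
  have h1 := h.2.2.2.2.2.2 (fun v => v ∈ lowR w d lam x) k (fun v hv => by
    have h2 := (h.1 k).2.1 hv
    simp only [lowR, Rr, Finset.mem_filter, h2, true_and]) k le_rfl
  unfold Kk KS
  rw [h1]

theorem Kk_congr (w d : ℕ) (lam : ℝ) (x x' : EE w) (k : ℕ)
    (h : ∀ v ∈ Kk w d lam (extf (Dw w) x) k, extf (Dw w) x v = extf (Dw w) x' v) :
    Kk w d lam (extf (Dw w) x') k = Kk w d lam (extf (Dw w) x) k := by
  have h0 := expl_facts (rect w (5 * w) d (w - d)) (rect w w d (w - d)) (K0_sub w d)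
    (fun v => extf (Dw w) x v ≤ lam)
  have h1 := h0.2.2.2.2.2.2 (fun v => extf (Dw w) x' v ≤ lam) k (fun v hv => by
    rw [h v hv]) k le_rfl
  unfold Kk
  rw [h1]

instance (w : ℕ) : IsGaussian (gf (Dw w) (Dw w)) := by unfold gf; infer_instance

theorem meas_extf (w : ℕ) (v : ℤ × ℤ) : Measurable (fun x : EE w => extf (Dw w) x v) := by
  unfold extf
  by_cases h : v ∈ Dw w
  · simp only [h, dif_pos]
    exact (EuclideanSpace.proj (𝕜 := ℝ) (⟨v, h⟩ : (Dw w : Finset (ℤ × ℤ)))).continuous.measurable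
  · simp only [h, dif_neg, not_false_iff]
    exact measurable_const

theorem memLp_extf (w : ℕ) (v : ℤ × ℤ) (p : ENNReal) (hp : p ≠ ⊤) :
    MemLp (fun x : EE w => extf (Dw w) x v) p (gf (Dw w) (Dw w)) := by
  unfold extf
  by_cases h : v ∈ Dw w
  · simp only [h, dif_pos]
    have := IsGaussian.memLp_dual (gf (Dw w) (Dw w) : Measure (EE w))
      (EuclideanSpace.proj (𝕜 := ℝ) (⟨v, h⟩ : (Dw w : Finset (ℤ × ℤ)))) p hp
    exact this
  · simp only [h, dif_neg, not_false_iff]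
    exact MemLp.zero

theorem meas_lowR (w d : ℕ) (lam : ℝ) (S : Finset (ℤ × ℤ)) :
    MeasurableSet {x : EE w | lowR w d lam x = S} := by
  have : {x : EE w | lowR w d lam x = S} =
      ⋂ v ∈ (Rr w d ∪ S), {x : EE w | v ∈ lowR w d lam x ↔ v ∈ S} := by
    ext x
    simp only [Set.mem_ofPred_eq, Set.mem_iInter]
    constructor
    · intro h v _
      rw [h]
    · intro h
      ext v
      by_cases hv : v ∈ Rr w d ∪ S
      · exact h v hv
      · rw [Finset.mem_union, not_or] at hv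
        constructor
        · intro h1
          exact absurd (Finset.mem_filter.1 h1).1 hv.1
        · intro h1
          exact absurd h1 hv.2
  rw [this]
  refine Finset.measurableSet_biInter _ fun v _ => ?_
  have h1 : MeasurableSet {x : EE w | v ∈ lowR w d lam x} := by
    by_cases hv : v ∈ Rr w d
    · have : {x : EE w | v ∈ lowR w d lam x} = {x : EE w | extf (Dw w) x v ≤ lam} := by
        ext x
        simp only [Set.mem_ofPred_eq, lowR, Finset.mem_filter, hv, true_and]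
      rw [this]
      exact measurableSet_le (meas_extf w v) measurable_const
    · have : {x : EE w | v ∈ lowR w d lam x} = ∅ := by
        ext x
        simp only [Set.mem_ofPred_eq, lowR, Finset.mem_filter, hv, false_and, Set.mem_empty_iff_false]
      rw [this]
      exact MeasurableSet.empty
  by_cases hS : v ∈ S
  · simp only [hS, iff_true]
    exact h1
  · simp only [hS, iff_false]
    exact h1.compl

/-- integrability of functions that, for each value of `lowR`, are integrable -/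
theorem int_fac (w d : ℕ) (lam : ℝ) (g : Finset (ℤ × ℤ) → EE w → ℝ)
    (hg : ∀ S, Integrable (g S) (gf (Dw w) (Dw w))) :
    Integrable (fun x => g (lowR w d lam x) x) (gf (Dw w) (Dw w)) := by
  have : (fun x => g (lowR w d lam x) x) = fun x => ∑ S ∈ (Rr w d).powerset,
      {x : EE w | lowR w d lam x = S}.indicator (g S) x := by
    funext x
    rw [Finset.sum_eq_single (lowR w d lam x)]
    · rw [Set.indicator_of_mem]
      rfl
    · intro S _ hS
      rw [Set.indicator_of_notMem]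
      exact fun h => hS h.symm
    · intro h
      exact absurd (Finset.mem_powerset.2 (Finset.filter_subset _ _)) h
  rw [this]
  exact integrable_finsetSum _ fun S _ => (hg S).indicator (meas_lowR w d lam S)

/-- measurability of sets described by `lowR` -/
theorem meas_fac (w d : ℕ) (lam : ℝ) (P : Finset (ℤ × ℤ) → Prop) :
    MeasurableSet {x : EE w | P (lowR w d lam x)} := by
  classical
  have : {x : EE w | P (lowR w d lam x)} =
      ⋃ S ∈ (Rr w d).powerset.filter P, {x : EE w | lowR w d lam x = S} := by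
    ext x
    simp only [Set.mem_ofPred_eq, Set.mem_iUnion, exists_prop, Finset.mem_filter]
    constructor
    · intro h
      exact ⟨_, ⟨Finset.mem_powerset.2 (Finset.filter_subset _ _), h⟩, rfl⟩
    · rintro ⟨S, ⟨_, h⟩, h'⟩
      rw [h']
      exact h
  rw [this]
  exact Finset.measurableSet_biUnion _ fun S _ => meas_lowR w d lam S

theorem memLp_F (w : ℕ) (lam : ℝ) (K : Finset (ℤ × ℤ)) (u : ℤ × ℤ) (p : ENNReal) (hp : p ≠ ⊤) :
    MemLp (fun x : EE w => lam - hx (Dw w) K (extf (Dw w) x) u) p (gf (Dw w) (Dw w)) := by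
  refine (memLp_const lam).sub ?_
  unfold hx
  by_cases h : u ∈ K
  · simp only [h, if_true]
    exact memLp_extf w u p hp
  · simp only [h, if_false]
    exact memLp_finsetSum _ fun v _ => (memLp_extf w v p hp).const_mul _

theorem int_F_pow (w : ℕ) (lam : ℝ) (K : Finset (ℤ × ℤ)) (u : ℤ × ℤ) (n : ℕ) (hn : Even n)
    (hn0 : n ≠ 0) :
    Integrable (fun x : EE w => (lam - hx (Dw w) K (extf (Dw w) x) u) ^ n) (gf (Dw w) (Dw w)) := by
  have h := (memLp_F w lam K u (n : ENNReal) (by simp)).integrable_norm_pow hn0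
  refine h.congr (Filter.Eventually.of_forall fun x => ?_)
  simp only [Real.norm_eq_abs, hn.pow_abs]

/-- the explored deviation -/
noncomputable def Fd (w d : ℕ) (lam : ℝ) (k : ℕ) (u : ℤ × ℤ) (x : EE w) : ℝ :=
  lam - hx (Dw w) (Kk w d lam (extf (Dw w) x) k) (extf (Dw w) x) u

def Ev (w d : ℕ) (lam : ℝ) (u : ℤ × ℤ) (n k : ℕ) : Set (EE w) :=
  {x | ball u n ⊆ Dw w \ Kk w d lam (extf (Dw w) x) k}

theorem meas_Ev (w d : ℕ) (lam : ℝ) (u : ℤ × ℤ) (n k : ℕ) : MeasurableSet (Ev w d lam u n k) := by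
  have := meas_fac w d lam (fun S => ball u n ⊆ Dw w \ KS w d S k)
  unfold Ev
  simp only [Kk_eq]
  exact this

theorem int_Fd (w d : ℕ) (lam : ℝ) (k : ℕ) (u : ℤ × ℤ) (n : ℕ) (hn : Even n) (hn0 : n ≠ 0) :
    Integrable (fun x => Fd w d lam k u x ^ n) (gf (Dw w) (Dw w)) := by
  have := int_fac w d lam (fun S x => (lam - hx (Dw w) (KS w d S k) (extf (Dw w) x) u) ^ n)
    (fun S => int_F_pow w lam _ u n hn hn0)
  unfold Fd
  simp only [Kk_eq]
  exact this

/-- fourth moment bound -/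
theorem four_mom : ∃ C : ℝ, 0 < C ∧ ∀ (w d : ℕ) (lam : ℝ), 1 ≤ d → 2 * d + 1 ≤ w →
    ∀ (u : ℤ × ℤ) (n T : ℕ),
    ∑ k ∈ Finset.range T, ∫ x in Ev w d lam u n k, Fd w d lam k u x ^ 4 ∂(gf (Dw w) (Dw w)) ≤
      T * (C * (lam ^ 2 + 1 + Real.log (7 * w / (n + 1))) ^ 2) := by
  obtain ⟨C, hC, H⟩ := win_mom
  refine ⟨(C + 1), by linarith, ?_⟩
  intro w d lam hd hw u n T
  by_cases hb : ball u n ⊆ Dw w
  · have h := H w d lam hd hw u n T T hb (Ev w d lam u n) (meas_Ev w d lam u n)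
      (fun k x x' hx hx' => by
        unfold Ev at hx' ⊢
        rw [Set.mem_ofPred_eq] at hx' ⊢
        rw [Kk_congr w d lam x x' k hx]
        exact hx')
      (fun k x hx => hx)
      (fun x => by
        calc ∑ k ∈ Finset.range T, Set.indicator (Ev w d lam u n k) (fun _ => (1 : ℝ)) x
            ≤ ∑ k ∈ Finset.range T, (1 : ℝ) := by
              refine Finset.sum_le_sum fun k _ => ?_
              by_cases h : x ∈ Ev w d lam u n k
              · rw [Set.indicator_of_mem h]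
              · rw [Set.indicator_of_notMem h]; exact zero_le_one
          _ = T := by simp)
    -- the logarithm is nonnegative
    have hn : (n : ℤ) ≤ 7 * w := by
      have h1 : (u.1, u.2) ∈ ball u n := by
        simp only [ball, rect, Finset.mem_product, Finset.mem_Icc]; omega
      have h2 : (u.1 + n, u.2) ∈ ball u n := by
        simp only [ball, rect, Finset.mem_product, Finset.mem_Icc]; omega
      have h3 := hb h1
      have h4 := hb h2
      simp only [Dw, rect, Finset.mem_product, Finset.mem_Icc] at h3 h4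
      omega
    have hn' : (n : ℤ) + 1 ≤ 7 * w := by
      have h1 : (u.1, u.2) ∈ ball u n := by
        simp only [ball, rect, Finset.mem_product, Finset.mem_Icc]; omega
      have h2 : (u.1 + n, u.2) ∈ ball u n := by
        simp only [ball, rect, Finset.mem_product, Finset.mem_Icc]; omega
      have h3 := hb h1
      have h4 := hb h2
      simp only [Dw, rect, Finset.mem_product, Finset.mem_Icc] at h3 h4
      omega
    have hlog : 0 ≤ Real.log (7 * w / (n + 1)) := by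
      apply Real.log_nonneg
      rw [le_div_iff₀ (by positivity), one_mul]
      exact_mod_cast hn'
    set a : ℝ := (lam ^ 2 + 1 + Real.log (7 * w / (n + 1))) with ha
    have ha1 : 1 ≤ a := by nlinarith [sq_nonneg lam]
    have hkey : ∀ k, ∫ x in Ev w d lam u n k, Fd w d lam k u x ^ 4 ∂(gf (Dw w) (Dw w)) ≤
        a ^ 2 / 2 + (1 / (2 * a ^ 2)) *
          ∫ x in Ev w d lam u n k, Fd w d lam k u x ^ 8 ∂(gf (Dw w) (Dw w)) := by
      intro k
      have i8 := (int_Fd w d lam k u 8 (by decide) (by norm_num)).integrableOn (s := Ev w d lam u n k)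
      have i4 := (int_Fd w d lam k u 4 (by decide) (by norm_num)).integrableOn (s := Ev w d lam u n k)
      calc ∫ x in Ev w d lam u n k, Fd w d lam k u x ^ 4 ∂(gf (Dw w) (Dw w))
          ≤ ∫ x in Ev w d lam u n k, (a ^ 2 / 2 + (1 / (2 * a ^ 2)) * Fd w d lam k u x ^ 8)
              ∂(gf (Dw w) (Dw w)) := by
            refine integral_mono i4 ((integrable_const _).add (i8.const_mul _)) fun x => ?_
            show Fd w d lam k u x ^ 4 ≤ a ^ 2 / 2 + (1 / (2 * a ^ 2)) * Fd w d lam k u x ^ 8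
            have hpos : 0 < 2 * a ^ 2 := by positivity
            have e : a ^ 2 / 2 + (1 / (2 * a ^ 2)) * Fd w d lam k u x ^ 8 - Fd w d lam k u x ^ 4 =
                (1 / (2 * a ^ 2)) * (a ^ 2 - Fd w d lam k u x ^ 4) ^ 2 := by
              field_simp
              ring
            have e2 : 0 ≤ (1 / (2 * a ^ 2)) * (a ^ 2 - Fd w d lam k u x ^ 4) ^ 2 := by positivity
            linarith
        _ = ∫ x in Ev w d lam u n k, (a ^ 2 / 2) ∂(gf (Dw w) (Dw w)) +
              (1 / (2 * a ^ 2)) * ∫ x in Ev w d lam u n k, Fd w d lam k u x ^ 8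
                ∂(gf (Dw w) (Dw w)) := by
            rw [integral_add (integrable_const _) (i8.const_mul _), integral_const_mul]
        _ ≤ _ := by
            refine add_le_add ?_ le_rfl
            rw [setIntegral_const, smul_eq_mul]
            have : (gf (Dw w) (Dw w)).real (Ev w d lam u n k) ≤ 1 := measureReal_le_one
            have h2 : 0 ≤ a ^ 2 / 2 := by positivity
            nlinarith
    calc ∑ k ∈ Finset.range T, ∫ x in Ev w d lam u n k, Fd w d lam k u x ^ 4 ∂(gf (Dw w) (Dw w))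
        ≤ ∑ k ∈ Finset.range T, (a ^ 2 / 2 + (1 / (2 * a ^ 2)) *
          ∫ x in Ev w d lam u n k, Fd w d lam k u x ^ 8 ∂(gf (Dw w) (Dw w))) :=
          Finset.sum_le_sum fun k _ => hkey k
      _ = T * (a ^ 2 / 2) + (1 / (2 * a ^ 2)) * ∑ k ∈ Finset.range T,
          ∫ x in Ev w d lam u n k, Fd w d lam k u x ^ 8 ∂(gf (Dw w) (Dw w)) := by
          rw [Finset.sum_add_distrib, Finset.mul_sum]
          simp
      _ ≤ T * (a ^ 2 / 2) + (1 / (2 * a ^ 2)) * (T * (C * a ^ 4)) := by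
          refine add_le_add le_rfl (mul_le_mul_of_nonneg_left h (by positivity))
      _ ≤ T * ((C + 1) * a ^ 2) := by
          have e : T * (a ^ 2 / 2) + (1 / (2 * a ^ 2)) * (T * (C * a ^ 4)) =
              T * ((C + 1) * a ^ 2) / 2 := by
            field_simp
            ring
          rw [e]
          have : 0 ≤ T * ((C + 1) * a ^ 2) := by positivity
          linarith
  · have : ∀ k, Ev w d lam u n k = ∅ := by
      intro k
      ext x
      simp only [Ev, Set.mem_ofPred_eq, Set.mem_empty_iff_false, iff_false]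
      exact fun h => hb (h.trans Finset.sdiff_subset)
    simp only [this, Measure.restrict_empty, integral_zero_measure, Finset.sum_const_zero]
    positivity

/-- sum of the weights -/
theorem wsum (kap : ℝ) (hk : 0 < kap) : ∃ A : ℝ, 0 < A ∧ ∀ n : ℕ,
    ∑ l ∈ Finset.range n, (2 : ℝ) ^ (-(kap * l)) ≤ A ∧
    ∑ l ∈ Finset.range n, (2 : ℝ) ^ (-(kap * l)) * ((l : ℝ) + 5) ^ 2 ≤ A := by
  set q : ℝ := (2 : ℝ) ^ (-kap) with hq
  have hq0 : 0 < q := by positivity
  have hq1 : q < 1 := Real.rpow_lt_one_of_one_lt_of_neg (by norm_num) (by linarith)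
  have e : ∀ l : ℕ, (2 : ℝ) ^ (-(kap * l)) = q ^ l := by
    intro l
    rw [hq, ← Real.rpow_natCast, ← Real.rpow_mul (by norm_num)]
    congr 1
    ring
  have hqn : ‖q‖ < 1 := by rw [Real.norm_eq_abs, abs_of_pos hq0]; exact hq1
  have s0 := summable_pow_mul_geometric_of_norm_lt_one 0 hqn
  have s1 := summable_pow_mul_geometric_of_norm_lt_one 1 hqn
  have s2 := summable_pow_mul_geometric_of_norm_lt_one 2 hqn
  have s : Summable (fun l : ℕ => q ^ l * ((l : ℝ) + 5) ^ 2) := by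
    have := (s2.add (s1.mul_left 10)).add (s0.mul_left 25)
    refine this.congr fun l => ?_
    ring
  refine ⟨∑' l : ℕ, q ^ l * ((l : ℝ) + 5) ^ 2, ?_, ?_⟩
  · refine s.tsum_pos (fun l => by positivity) 0 (by positivity)
  · intro n
    have h2 : ∑ l ∈ Finset.range n, q ^ l * ((l : ℝ) + 5) ^ 2 ≤
        ∑' l : ℕ, q ^ l * ((l : ℝ) + 5) ^ 2 := s.sum_le_tsum _ (fun l _ => by positivity)
    simp only [e]
    refine ⟨?_, h2⟩
    refine le_trans (Finset.sum_le_sum fun l _ => ?_) h2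
    have : (1 : ℝ) ≤ ((l : ℝ) + 5) ^ 2 := by
      have : (0 : ℝ) ≤ l := Nat.cast_nonneg l
      nlinarith
    have h3 : 0 < q ^ l := by positivity
    nlinarith

theorem card_ball (c : ℤ × ℤ) (r : ℕ) (hr : 1 ≤ r) :
    ((ball c (2 * r + 1)).card : ℝ) ≤ 49 * (r : ℝ) ^ 2 := by
  have h : (ball c (2 * r + 1)).card = (4 * r + 3) * (4 * r + 3) := by
    simp only [ball, rect, Finset.card_product, Int.card_Icc]
    congr 1 <;> omega
  rw [h]
  push_cast
  have : (1 : ℝ) ≤ r := by exact_mod_cast hr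
  nlinarith

/-- weighted power mean -/
theorem pm4 {ι : Type} (s : Finset ι) (a b : ι → ℝ) (ha : ∀ i ∈ s, 0 ≤ a i) :
    (∑ i ∈ s, a i * b i) ^ 4 ≤ (∑ i ∈ s, a i) ^ 3 * ∑ i ∈ s, a i * b i ^ 4 := by
  have h1 : (∑ i ∈ s, a i * b i) ^ 2 ≤ (∑ i ∈ s, a i) * ∑ i ∈ s, a i * b i ^ 2 :=
    Finset.sum_sq_le_sum_mul_sum_of_sq_le_mul s ha
      (fun i hi => mul_nonneg (ha i hi) (sq_nonneg _)) (fun i _ => le_of_eq (by ring))
  have h2 : (∑ i ∈ s, a i * b i ^ 2) ^ 2 ≤ (∑ i ∈ s, a i) * ∑ i ∈ s, a i * b i ^ 4 :=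
    Finset.sum_sq_le_sum_mul_sum_of_sq_le_mul s ha
      (fun i hi => mul_nonneg (ha i hi) (by positivity)) (fun i _ => le_of_eq (by ring))
  have hA : 0 ≤ ∑ i ∈ s, a i := Finset.sum_nonneg ha
  calc (∑ i ∈ s, a i * b i) ^ 4 = ((∑ i ∈ s, a i * b i) ^ 2) ^ 2 := by ring
    _ ≤ ((∑ i ∈ s, a i) * ∑ i ∈ s, a i * b i ^ 2) ^ 2 :=
        pow_le_pow_left₀ (sq_nonneg _) h1 2
    _ = (∑ i ∈ s, a i) ^ 2 * (∑ i ∈ s, a i * b i ^ 2) ^ 2 := by ring
    _ ≤ (∑ i ∈ s, a i) ^ 2 * ((∑ i ∈ s, a i) * ∑ i ∈ s, a i * b i ^ 4) :=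
        mul_le_mul_of_nonneg_left h2 (sq_nonneg _)
    _ = _ := by ring

open Classical in
/-- pointwise bound for `Phi ^ 4` -/
theorem phi_bd (kap A : ℝ)
    (hA : ∀ n : ℕ, ∑ l ∈ Finset.range n, (2 : ℝ) ^ (-(kap * l)) ≤ A)
    (w d : ℕ) (lam : ℝ) (x : EE w) (k : ℕ) (c : ℤ × ℤ) (r : ℕ) (hr : 1 ≤ r) :
    Phi kap w d lam (extf (Dw w) x) k c r ^ 4 ≤
      A ^ 3 * ∑ l ∈ Finset.range (Nat.log 2 r + 2), (2 : ℝ) ^ (-(kap * l)) *
        ((49 / (r : ℝ) ^ 2) * ∑ u ∈ ball c (2 * r + 1),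
          (Ev w d lam u (r / 2 ^ (l + 1)) k).indicator (fun x => Fd w d lam k u x ^ 4) x) := by
  have hr' : (0 : ℝ) < r := by exact_mod_cast hr
  unfold Phi
  refine (pm4 _ _ _ fun i _ => by positivity).trans ?_
  refine mul_le_mul (pow_le_pow_left₀ (Finset.sum_nonneg fun i _ => by positivity) (hA _) 3)
    (Finset.sum_le_sum fun l _ => mul_le_mul_of_nonneg_left ?_ (by positivity))
    (Finset.sum_nonneg fun i _ => by positivity) ?_
  · set s := (ball c (2 * r + 1)).filter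
      (fun u => ball u ((r / 2 ^ (l + 1) : ℕ) : ℤ) ⊆ Dw w \ Kk w d lam (extf (Dw w) x) k) with hs
    have hX : 0 ≤ (1 / (r : ℝ) ^ 2) * ∑ u ∈ s,
        (lam - hx (Dw w) (Kk w d lam (extf (Dw w) x) k) (extf (Dw w) x) u) ^ 2 :=
      mul_nonneg (by positivity) (Finset.sum_nonneg fun u _ => sq_nonneg _)
    have e1 : ∑ u ∈ ball c (2 * r + 1),
          (Ev w d lam u (r / 2 ^ (l + 1)) k).indicator (fun x => Fd w d lam k u x ^ 4) x =
        ∑ u ∈ s, Fd w d lam k u x ^ 4 := by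
      rw [hs, Finset.sum_filter]
      refine Finset.sum_congr rfl fun u _ => ?_
      by_cases h : ball u ((r / 2 ^ (l + 1) : ℕ) : ℤ) ⊆ Dw w \ Kk w d lam (extf (Dw w) x) k
      · rw [if_pos h, Set.indicator_of_mem]
        exact h
      · rw [if_neg h, Set.indicator_of_notMem]
        exact h
    rw [e1]
    have e2 : Real.sqrt ((1 / (r : ℝ) ^ 2) * ∑ u ∈ s,
        (lam - hx (Dw w) (Kk w d lam (extf (Dw w) x) k) (extf (Dw w) x) u) ^ 2) ^ 4 =
        ((1 / (r : ℝ) ^ 2) * ∑ u ∈ s, Fd w d lam k u x ^ 2) ^ 2 := by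
      calc _ = (Real.sqrt ((1 / (r : ℝ) ^ 2) * ∑ u ∈ s,
        (lam - hx (Dw w) (Kk w d lam (extf (Dw w) x) k) (extf (Dw w) x) u) ^ 2) ^ 2) ^ 2 := by ring
        _ = _ := by rw [Real.sq_sqrt hX]; rfl
    rw [e2]
    have e3 : (∑ u ∈ s, Fd w d lam k u x ^ 2) ^ 2 ≤ (s.card : ℝ) * ∑ u ∈ s, (Fd w d lam k u x ^ 2) ^ 2 :=
      sq_sum_le_card_mul_sum_sq
    have e4 : (s.card : ℝ) ≤ 49 * (r : ℝ) ^ 2 :=
      le_trans (by exact_mod_cast Finset.card_filter_le _ _) (card_ball c r hr)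
    have e5 : ∑ u ∈ s, (Fd w d lam k u x ^ 2) ^ 2 = ∑ u ∈ s, Fd w d lam k u x ^ 4 :=
      Finset.sum_congr rfl fun u _ => by ring
    have e6 : 0 ≤ ∑ u ∈ s, Fd w d lam k u x ^ 4 := Finset.sum_nonneg fun u _ => by positivity
    rw [e5] at e3
    calc ((1 / (r : ℝ) ^ 2) * ∑ u ∈ s, Fd w d lam k u x ^ 2) ^ 2
        = (1 / (r : ℝ) ^ 4) * (∑ u ∈ s, Fd w d lam k u x ^ 2) ^ 2 := by
          field_simp
      _ ≤ (1 / (r : ℝ) ^ 4) * ((49 * (r : ℝ) ^ 2) * ∑ u ∈ s, Fd w d lam k u x ^ 4) := by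
          refine mul_le_mul_of_nonneg_left (e3.trans (mul_le_mul_of_nonneg_right e4 e6))
            (by positivity)
      _ = (49 / (r : ℝ) ^ 2) * ∑ u ∈ s, Fd w d lam k u x ^ 4 := by
          field_simp
  · exact pow_nonneg (le_trans (Finset.sum_nonneg fun i _ => by positivity) (hA 0)) 3

end ME


theorem _root_.H941.mom_exp (kap : ℝ) (hk : 0 < kap) (hk1 : kap ≤ 1) : ∃ C : ℝ, 0 < C ∧ ∀ (w d T : ℕ) (lam t : ℝ), 1 ≤ d → 2 * d + 1 ≤ w → 0 ≤ lam → 0 < t →
    gf (Dw w) (Dw w) {x | t ≤ (d / w) * ((T : ℝ) ^ 3 * Ye kap w d lam (extf (Dw w) x) T) ^ (1 / 4 : ℝ)} ≤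
      ENNReal.ofReal (C * T ^ 4 * (d / w) ^ 3 * (lam ^ 2 + 1 + Real.log (w / d)) ^ 2 / t ^ 4) := by
  obtain ⟨C4, hC4, H4⟩ := ME.four_mom
  obtain ⟨A, hA0, hA⟩ := ME.wsum kap hk
  refine ⟨12 * (A ^ 4 * (49 ^ 2 * C4)), by positivity, ?_⟩
  intro w d T lam t hd hw hlam ht
  have hd' : (1 : ℝ) ≤ d := by exact_mod_cast hd
  have hw' : (2 : ℝ) * d + 1 ≤ w := by exact_mod_cast hw
  have hd0 : (0 : ℝ) < d := by linarith
  have hw0 : (0 : ℝ) < w := by linarith
  have hwd : (1 : ℝ) ≤ w / d := by rw [le_div_iff₀ hd0]; linarith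
  have hlog : 0 ≤ Real.log (w / d) := Real.log_nonneg hwd
  set M := lam ^ 2 + 1 + Real.log (w / d) with hM
  have hM1 : 1 ≤ M := by nlinarith [sq_nonneg lam]
  set r : ℕ := 3 * d with hr
  have hr1 : 1 ≤ r := by omega
  have hr0 : (0 : ℝ) < r := by exact_mod_cast hr1
  have hrd : (r : ℝ) = 3 * d := by rw [hr]; push_cast; ring
  let Z : ℤ × ℤ → ℕ → ME.EE w → ℝ := fun c k x =>
    A ^ 3 * ∑ l ∈ Finset.range (Nat.log 2 r + 2), (2 : ℝ) ^ (-(kap * l)) *
        ((49 / (r : ℝ) ^ 2) * ∑ u ∈ ball c (2 * r + 1),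
          (ME.Ev w d lam u (r / 2 ^ (l + 1)) k).indicator (fun x => ME.Fd w d lam k u x ^ 4) x)
  have hF4 : ∀ (u : ℤ × ℤ) (n k : ℕ), Integrable
      ((ME.Ev w d lam u n k).indicator (fun x => ME.Fd w d lam k u x ^ 4)) (gf (Dw w) (Dw w)) :=
    fun u n k => (ME.int_Fd w d lam k u 4 (by decide) (by norm_num)).indicator
      (ME.meas_Ev w d lam u n k)
  have hZi : ∀ c k, Integrable (Z c k) (gf (Dw w) (Dw w)) := by
    intro c k
    refine Integrable.const_mul (integrable_finsetSum _ fun l _ => Integrable.const_mul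
      (Integrable.const_mul (integrable_finsetSum _ fun u _ => ?_) _) _) _
    exact hF4 u _ k
  have hF0 : ∀ (u : ℤ × ℤ) (n k : ℕ) x, 0 ≤
      (ME.Ev w d lam u n k).indicator (fun x => ME.Fd w d lam k u x ^ 4) x := by
    intro u n k x
    exact Set.indicator_nonneg (fun x _ => by positivity) x
  have hZ0 : ∀ c k x, 0 ≤ Z c k x := by
    intro c k x
    refine mul_nonneg (by positivity) (Finset.sum_nonneg fun l _ => mul_nonneg (by positivity)
      (mul_nonneg (by positivity) (Finset.sum_nonneg fun u _ => hF0 u _ k x)))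
  have hfour : ∀ (u : ℤ × ℤ) (l : ℕ), ∑ k ∈ Finset.range T,
      ∫ x in ME.Ev w d lam u (r / 2 ^ (l + 1)) k, ME.Fd w d lam k u x ^ 4 ∂(gf (Dw w) (Dw w)) ≤
      T * (C4 * (((l : ℝ) + 5) ^ 2 * M ^ 2)) := by
    intro u l
    refine (H4 w d lam hd hw u (r / 2 ^ (l + 1)) T).trans ?_
    refine mul_le_mul_of_nonneg_left (mul_le_mul_of_nonneg_left ?_ hC4.le) (Nat.cast_nonneg T)
    set n := r / 2 ^ (l + 1) with hn
    have h2 : (0 : ℝ) < 2 ^ (l + 1) := by positivity
    have hn1 : (r : ℝ) / 2 ^ (l + 1) ≤ (n : ℝ) + 1 := by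
      rw [div_le_iff₀ h2]
      have : r < (n + 1) * 2 ^ (l + 1) := by
        rw [hn]
        exact Nat.lt_mul_of_div_lt (Nat.lt_succ_self _) (by positivity)
      exact_mod_cast this.le
    have hn2 : (n : ℝ) + 1 ≤ 7 * w := by
      have : n ≤ r := Nat.div_le_self _ _
      have : (n : ℝ) ≤ r := by exact_mod_cast this
      rw [hrd] at this
      linarith
    have hl0 : 0 ≤ Real.log (7 * w / (n + 1)) := by
      apply Real.log_nonneg
      rw [le_div_iff₀ (by positivity), one_mul]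
      exact hn2
    have hl1 : Real.log (7 * w / (n + 1)) ≤ Real.log (w / d) + 4 + l := by
      have e1 : 7 * w / ((n : ℝ) + 1) ≤ (w / d) * ((14 / 3) * 2 ^ l) := by
        rw [div_le_iff₀ (by positivity)]
        have e2 : (w / d : ℝ) * ((14 / 3) * 2 ^ l) * ((r : ℝ) / 2 ^ (l + 1)) = 7 * w := by
          rw [hrd, pow_succ]
          field_simp
          ring
        rw [← e2]
        exact mul_le_mul_of_nonneg_left hn1 (by positivity)
      refine (Real.log_le_log (by positivity) e1).trans ?_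
      rw [Real.log_mul (by positivity) (by positivity), Real.log_mul (by norm_num) (by positivity),
        Real.log_pow]
      have h14 : Real.log (14 / 3) ≤ 4 := by
        have := Real.log_le_sub_one_of_pos (show (0 : ℝ) < 14 / 3 by norm_num)
        linarith
      have hl2 : Real.log 2 ≤ 1 := by
        have := Real.log_two_lt_d9
        linarith
      have : (l : ℝ) * Real.log 2 ≤ l := by
        have h0 : (0 : ℝ) ≤ l := Nat.cast_nonneg l
        nlinarith
      linarith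
    have h3 : lam ^ 2 + 1 + Real.log (7 * w / (n + 1)) ≤ ((l : ℝ) + 5) * M := by
      have h0 : (0 : ℝ) ≤ l := Nat.cast_nonneg l
      nlinarith
    have h4 : 0 ≤ lam ^ 2 + 1 + Real.log (7 * w / (n + 1)) := by positivity
    calc (lam ^ 2 + 1 + Real.log (7 * w / (n + 1))) ^ 2 ≤ (((l : ℝ) + 5) * M) ^ 2 :=
          pow_le_pow_left₀ h4 h3 2
      _ = _ := by ring
  have hZs : ∀ c, ∑ k ∈ Finset.range T, ∫ x, Z c k x ∂(gf (Dw w) (Dw w)) ≤
      A ^ 4 * (49 ^ 2 * C4) * (T * M ^ 2) := by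
    intro c
    have e1 : ∀ k, ∫ x, Z c k x ∂(gf (Dw w) (Dw w)) =
        A ^ 3 * ∑ l ∈ Finset.range (Nat.log 2 r + 2), (2 : ℝ) ^ (-(kap * l)) *
        ((49 / (r : ℝ) ^ 2) * ∑ u ∈ ball c (2 * r + 1),
          ∫ x in ME.Ev w d lam u (r / 2 ^ (l + 1)) k, ME.Fd w d lam k u x ^ 4
            ∂(gf (Dw w) (Dw w))) := by
      intro k
      simp only [Z]
      rw [integral_const_mul, integral_finsetSum _ (fun l _ => Integrable.const_mul
      (Integrable.const_mul (integrable_finsetSum _ fun u _ => hF4 u _ k) _) _)]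
      congr 1
      refine Finset.sum_congr rfl fun l _ => ?_
      rw [integral_const_mul, integral_const_mul, integral_finsetSum _ (fun u _ => hF4 u _ k)]
      congr 2
      refine Finset.sum_congr rfl fun u _ => ?_
      rw [integral_indicator (ME.meas_Ev w d lam u _ k)]
    simp only [e1]
    rw [← Finset.mul_sum, Finset.sum_comm]
    have e2 : ∀ l : ℕ, ∑ k ∈ Finset.range T, (2 : ℝ) ^ (-(kap * l)) *
        ((49 / (r : ℝ) ^ 2) * ∑ u ∈ ball c (2 * r + 1),
          ∫ x in ME.Ev w d lam u (r / 2 ^ (l + 1)) k, ME.Fd w d lam k u x ^ 4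
            ∂(gf (Dw w) (Dw w))) ≤ (2 : ℝ) ^ (-(kap * l)) * ((l : ℝ) + 5) ^ 2 *
            (49 ^ 2 * C4 * (T * M ^ 2)) := by
      intro l
      rw [← Finset.mul_sum, ← Finset.mul_sum, Finset.sum_comm]
      have e3 : ∑ u ∈ ball c (2 * r + 1), ∑ k ∈ Finset.range T,
          ∫ x in ME.Ev w d lam u (r / 2 ^ (l + 1)) k, ME.Fd w d lam k u x ^ 4
            ∂(gf (Dw w) (Dw w)) ≤ (49 * (r : ℝ) ^ 2) * (T * (C4 * (((l : ℝ) + 5) ^ 2 * M ^ 2))) := by
        refine (Finset.sum_le_card_nsmul _ _ _ fun u _ => hfour u l).trans ?_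
        rw [nsmul_eq_mul]
        exact mul_le_mul_of_nonneg_right (ME.card_ball c r hr1) (by positivity)
      refine (mul_le_mul_of_nonneg_left (mul_le_mul_of_nonneg_left e3 (by positivity :
        (0 : ℝ) ≤ 49 / (r : ℝ) ^ 2)) (by positivity : (0 : ℝ) ≤ (2 : ℝ) ^ (-(kap * l)))).trans
        (le_of_eq ?_)
      have hrr : (49 / (r : ℝ) ^ 2) * (49 * (r : ℝ) ^ 2) = 49 ^ 2 := by
        field_simp
      calc (2 : ℝ) ^ (-(kap * l)) * ((49 / (r : ℝ) ^ 2) *
            ((49 * (r : ℝ) ^ 2) * (T * (C4 * (((l : ℝ) + 5) ^ 2 * M ^ 2)))))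
          = (2 : ℝ) ^ (-(kap * l)) * (((49 / (r : ℝ) ^ 2) * (49 * (r : ℝ) ^ 2)) *
            (T * (C4 * (((l : ℝ) + 5) ^ 2 * M ^ 2)))) := by ring
        _ = _ := by rw [hrr]; ring
    refine (mul_le_mul_of_nonneg_left (Finset.sum_le_sum fun l _ => e2 l)
      (by positivity : (0 : ℝ) ≤ A ^ 3)).trans ?_
    calc A ^ 3 * (∑ l ∈ Finset.range (Nat.log 2 r + 2),
            (2 : ℝ) ^ (-(kap * l)) * ((l : ℝ) + 5) ^ 2 * (49 ^ 2 * C4 * (T * M ^ 2)))
        = A ^ 3 * ((∑ l ∈ Finset.range (Nat.log 2 r + 2),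
            (2 : ℝ) ^ (-(kap * l)) * ((l : ℝ) + 5) ^ 2) * (49 ^ 2 * C4 * (T * M ^ 2))) := by
          rw [Finset.sum_mul]
      _ ≤ A ^ 3 * (A * (49 ^ 2 * C4 * (T * M ^ 2))) :=
          mul_le_mul_of_nonneg_left (mul_le_mul_of_nonneg_right (hA _).2 (by positivity))
            (by positivity)
      _ = _ := by ring
  -- the dominating variable
  let W : ME.EE w → ℝ := fun x => ∑ k ∈ Finset.range T, ∑ b ∈ Finset.range (5 * w / d + 1),
    (Z ((b : ℤ) * d, 0) k x + Z ((b : ℤ) * d, (w : ℤ)) k x)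
  have hWi : Integrable W (gf (Dw w) (Dw w)) :=
    integrable_finsetSum _ fun k _ => integrable_finsetSum _ fun b _ => (hZi _ k).add (hZi _ k)
  have hW0 : ∀ x, 0 ≤ W x := fun x => Finset.sum_nonneg fun k _ => Finset.sum_nonneg fun b _ =>
    add_nonneg (hZ0 _ k x) (hZ0 _ k x)
  have hWe : ∫ x, W x ∂(gf (Dw w) (Dw w)) ≤
      (12 * (w / d)) * (A ^ 4 * (49 ^ 2 * C4) * (T * M ^ 2)) := by
    have e1 : ∫ x, W x ∂(gf (Dw w) (Dw w)) = ∑ b ∈ Finset.range (5 * w / d + 1),
        (∑ k ∈ Finset.range T, ∫ x, Z ((b : ℤ) * d, 0) k x ∂(gf (Dw w) (Dw w)) +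
          ∑ k ∈ Finset.range T, ∫ x, Z ((b : ℤ) * d, (w : ℤ)) k x ∂(gf (Dw w) (Dw w))) := by
      have hadd : ∀ (k b : ℕ), Integrable (fun x => Z ((b : ℤ) * d, 0) k x +
          Z ((b : ℤ) * d, (w : ℤ)) k x) (gf (Dw w) (Dw w)) := fun k b => (hZi _ k).add (hZi _ k)
      have hadd2 : ∀ (k : ℕ), Integrable (fun x => ∑ b ∈ Finset.range (5 * w / d + 1),
          (Z ((b : ℤ) * d, 0) k x + Z ((b : ℤ) * d, (w : ℤ)) k x)) (gf (Dw w) (Dw w)) :=
        fun k => integrable_finsetSum _ fun b _ => hadd k b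
      simp only [W]
      rw [integral_finsetSum _ (fun k _ => hadd2 k)]
      simp only [← Finset.sum_add_distrib]
      rw [Finset.sum_comm]
      refine Finset.sum_congr rfl fun k _ => ?_
      rw [integral_finsetSum _ (fun b _ => hadd k b)]
      refine Finset.sum_congr rfl fun b _ => ?_
      rw [integral_add (hZi _ k) (hZi _ k)]
    rw [e1]
    refine (Finset.sum_le_card_nsmul _ _ _ fun b _ => add_le_add (hZs _) (hZs _)).trans ?_
    rw [Finset.card_range, nsmul_eq_mul]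
    have e2 : (((5 * w / d + 1 : ℕ)) : ℝ) ≤ 6 * (w / d) := by
      push_cast
      have h1 : (((5 * w / d : ℕ)) : ℝ) ≤ ((5 * w : ℕ) : ℝ) / d := Nat.cast_div_le
      push_cast at h1
      have h2 : 5 * (w : ℝ) / d = 5 * (w / d) := by ring
      rw [h2] at h1
      linarith
    have e3 : 0 ≤ A ^ 4 * (49 ^ 2 * C4) * (T * M ^ 2) := by positivity
    calc _ ≤ (6 * (w / d)) * (A ^ 4 * (49 ^ 2 * C4) * (T * M ^ 2) +
          A ^ 4 * (49 ^ 2 * C4) * (T * M ^ 2)) :=
          mul_le_mul_of_nonneg_right e2 (by linarith)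
      _ = _ := by ring
  have hYe : ∀ x, Ye kap w d lam (extf (Dw w) x) T ≤ W x := by
    intro x
    unfold Ye
    refine Finset.sum_le_sum fun k _ => Finset.sum_le_sum fun b _ => add_le_add ?_ ?_
    · exact ME.phi_bd kap A (fun n => (hA n).1) w d lam x k _ (3 * d) hr1
    · exact ME.phi_bd kap A (fun n => (hA n).1) w d lam x k _ (3 * d) hr1
  have hYe0 : ∀ x, 0 ≤ Ye kap w d lam (extf (Dw w) x) T := by
    intro x
    unfold Ye
    exact Finset.sum_nonneg fun k _ => Finset.sum_nonneg fun b _ => by positivity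
  let V : ME.EE w → ℝ := fun x => ((d / w : ℝ) ^ 4 * (T : ℝ) ^ 3) * W x
  have hVi : Integrable V (gf (Dw w) (Dw w)) := hWi.const_mul _
  have hV0 : ∀ x, 0 ≤ V x := fun x => mul_nonneg (by positivity) (hW0 x)
  have hsub : {x : ME.EE w | t ≤ (d / w) * ((T : ℝ) ^ 3 * Ye kap w d lam (extf (Dw w) x) T) ^ (1 / 4 : ℝ)} ⊆
      {x | t ^ 4 ≤ V x} := by
    intro x hx
    rw [Set.mem_ofPred_eq] at hx ⊢
    have h0 : 0 ≤ (T : ℝ) ^ 3 * Ye kap w d lam (extf (Dw w) x) T :=
      mul_nonneg (by positivity) (hYe0 x)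
    have h1 := pow_le_pow_left₀ ht.le hx 4
    have h2 : (((T : ℝ) ^ 3 * Ye kap w d lam (extf (Dw w) x) T) ^ (1 / 4 : ℝ)) ^ 4 =
        (T : ℝ) ^ 3 * Ye kap w d lam (extf (Dw w) x) T := by
      rw [← Real.rpow_natCast, ← Real.rpow_mul h0]
      norm_num
    rw [mul_pow, h2] at h1
    refine h1.trans ?_
    simp only [V]
    rw [mul_assoc]
    exact mul_le_mul_of_nonneg_left (mul_le_mul_of_nonneg_left (hYe x) (by positivity))
      (by positivity)
  have hmk := mul_meas_ge_le_integral_of_nonneg (μ := gf (Dw w) (Dw w))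
    (Filter.Eventually.of_forall hV0) hVi (t ^ 4)
  have hVe : ∫ x, V x ∂(gf (Dw w) (Dw w)) ≤
      12 * (A ^ 4 * (49 ^ 2 * C4)) * T ^ 4 * (d / w) ^ 3 * M ^ 2 := by
    simp only [V]
    rw [integral_const_mul]
    calc _ ≤ ((d / w : ℝ) ^ 4 * (T : ℝ) ^ 3) *
          ((12 * (w / d)) * (A ^ 4 * (49 ^ 2 * C4) * (T * M ^ 2))) :=
          mul_le_mul_of_nonneg_left hWe (by positivity)
      _ = _ := by
          field_simp
  refine (measure_mono hsub).trans ?_
  rw [← ofReal_measureReal]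
  refine ENNReal.ofReal_le_ofReal ?_
  rw [le_div_iff₀ (by positivity), mul_comm]
  exact hmk.trans hVe

end H941.mom_exp
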