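import Pool.Agent.H941.Defs4
import Pool.Agent.H941.A3
import Pool.Agent.H941.A4
import Pool.Agent.H941.B.law_split
import Pool.Agent.H941.C.markov_split
import Pool.Agent.H941.C.place_law

open MeasureTheory ProbabilityTheory

namespace H941.arm_abs

namespace ArmAbsAux


open Classical in
theorem psd_green (S D : Finset (ℤ × ℤ)) (hDS : D ⊆ S) (c : ℝ) (hc : 0 ≤ c) :
    (Matrix.of (fun x y : (S : Finset (ℤ × ℤ)) => c * green D x y)).PosSemidef := by
  refine Matrix.PosSemidef.of_dotProduct_mulVec_nonneg ?_ ?_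
  · ext x y
    simp only [Matrix.conjTranspose_apply, Matrix.of_apply, star_trivial]
    rw [(green_basic D).2.2.1]
  · intro f
    set g : ℤ × ℤ → ℝ := fun v => if h : v ∈ S then f ⟨v, h⟩ else 0 with hg
    have h1 := green_psd ∅ D (Finset.empty_subset D) g
    have h0 : ∀ x y, green ∅ x y = 0 := fun x y => (green_basic ∅).2.1 x y (Or.inl (by simp))
    simp only [h0, sub_zero] at h1
    have hz := (green_basic D).2.1
    have h2 : star f ⬝ᵥ (Matrix.of (fun x y : (S : Finset (ℤ × ℤ)) => c * green D x y)).mulVec f =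
        c * ∑ x ∈ S, ∑ y ∈ S, g x * green D x y * g y := by
      have e1 : ∑ x ∈ S, ∑ y ∈ S, g x * green D x y * g y =
          ∑ x : S, ∑ y : S, f x * green D x y * f y := by
        rw [← Finset.sum_coe_sort S]
        refine Finset.sum_congr rfl fun x _ => ?_
        rw [← Finset.sum_coe_sort S]
        refine Finset.sum_congr rfl fun y _ => ?_
        simp only [hg, x.2, y.2, dif_pos, Subtype.coe_eta]
      rw [e1]
      simp only [dotProduct, Matrix.mulVec, Matrix.of_apply, star_trivial, Finset.mul_sum]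
      refine Finset.sum_congr rfl fun x _ => ?_
      refine Finset.sum_congr rfl fun y _ => ?_
      ring
    rw [h2]
    refine mul_nonneg hc ?_
    have h3 : ∑ x ∈ S, ∑ y ∈ S, g x * green D x y * g y =
        ∑ x ∈ D, ∑ y ∈ D, g x * green D x y * g y := by
      symm
      refine (Finset.sum_subset hDS fun x _ hx => ?_).trans ?_
      · refine Finset.sum_eq_zero fun y _ => ?_
        rw [hz x y (Or.inl hx)]
        ring
      · refine Finset.sum_congr rfl fun x _ => ?_
        refine Finset.sum_subset hDS fun y _ hy => ?_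
        rw [hz x y (Or.inr hy)]
        ring
    rw [h3]
    exact h1

theorem meas_fin {ι : Type} [Fintype ι] (c : ℝ) (G : (ι → Prop) → Prop) :
    MeasurableSet {x : EuclideanSpace ℝ ι | G fun i => x i ≤ c} := by
  have h1 : Measurable fun x : EuclideanSpace ℝ ι => fun i => x i ≤ c := by
    refine measurable_pi_iff.2 fun i => ?_
    refine measurableSet_setOfPred.1 ?_
    exact measurableSet_le (by fun_prop) measurable_const
  have h2 : MeasurableSet {P : ι → Prop | G P} := Set.Finite.measurableSet (Set.toFinite _)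
  exact h1 h2

theorem meas_arm (S : Finset (ℤ × ℤ)) (o : Bool) (t : ℤ × ℤ) (w d : ℕ) (lam len : ℝ) :
    MeasurableSet {x : EuclideanSpace ℝ (S : Finset (ℤ × ℤ)) | armOK o t w d lam len (extf S x)} := by
  have h := meas_fin (ι := (S : Finset (ℤ × ℤ))) lam (fun P =>
    ∃ (u v : ℤ × ℤ) (p : grid.Walk u v), u.1 = w ∧ v.1 = 5 * w ∧
      (∀ z ∈ p.support, z ∈ rect w (5 * w) d (w - d) ∧
        (if h : place o t z ∈ S then P ⟨place o t z, h⟩ else 0 ≤ lam)) ∧
      (p.support.length : ℝ) ≤ len)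
  convert h using 1
  ext x
  simp only [Set.mem_ofPred_eq, armOK]
  have key : ∀ z, (extf S x (place o t z) ≤ lam) ↔
      (if h : place o t z ∈ S then x ⟨place o t z, h⟩ ≤ lam else 0 ≤ lam) := by
    intro z
    unfold extf
    by_cases h : place o t z ∈ S
    · simp only [h, dif_pos]
    · simp only [h, dif_neg, not_false_eq_true]
  simp only [key]

theorem signs {ι : Type} [Fintype ι] [DecidableEq ι] (j : ℕ)
    (ν : Fin (j + 1) → Measure (EuclideanSpace ℝ ι)) [∀ k, IsProbabilityMeasure (ν k)]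
    (E : Fin j → Set (EuclideanSpace ℝ ι)) (hE2 : ∀ k : Fin j, ν k.castSucc (E k) ≤ 1 / 2) :
    Measure.pi ν {ω | ∀ k : Fin j, ω k.castSucc ∈ E k} ≤ (1 / 2) ^ j := by
  have e1 : {ω : Fin (j + 1) → EuclideanSpace ℝ ι | ∀ k : Fin j, ω k.castSucc ∈ E k} =
      Set.univ.pi (Fin.snoc (α := fun _ => Set (EuclideanSpace ℝ ι)) E Set.univ) := by
    ext ω
    simp only [Set.mem_ofPred_eq, Set.mem_pi, Set.mem_univ, forall_const]
    constructor
    · intro h k
      refine Fin.lastCases ?_ (fun i => ?_) k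
      · rw [Fin.snoc_last]; exact Set.mem_univ _
      · rw [Fin.snoc_castSucc]; exact h i
    · intro h k
      have := h k.castSucc
      rwa [Fin.snoc_castSucc] at this
  rw [e1, Measure.pi_pi, Fin.prod_univ_castSucc]
  simp only [Fin.snoc_last, measure_univ, mul_one, Fin.snoc_castSucc]
  calc ∏ k : Fin j, ν k.castSucc (E k) ≤ ∏ _k : Fin j, (1 / 2 : ENNReal) :=
        Finset.prod_le_prod' fun k _ => hE2 k
    _ = (1 / 2) ^ j := by simp

theorem armOK_iff (o : Bool) (t : ℤ × ℤ) (w d : ℕ) (g len : ℝ) (F : ℤ × ℤ → ℝ) :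
    armOK true (0, 0) w d g len (fun v => F (place o t v)) ↔ armOK o t w d g len F := by
  have h : ∀ z : ℤ × ℤ, place true (0, 0) z = z := by
    intro z
    simp [place]
  simp only [armOK, h]

theorem gf_bad (S : Finset (ℤ × ℤ)) (o : Bool) (t : ℤ × ℤ) (w d : ℕ) (g len : ℝ)
    (hDS : (Dw w).image (place o t) ⊆ S) :
    gf S ((Dw w).image (place o t)) {x | ¬ armOK o t w d g len (extf S x)} =
      gf (Dw w) (Dw w) {x | ¬ armOK true (0, 0) w d g len (extf (Dw w) x)} := by
  have h1 := (markov_split S ((Dw w).image (place o t)) ((Dw w).image (place o t))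
    (Finset.Subset.refl _) hDS).2.2 (fun F => ¬ armOK o t w d g len F)
    (meas_arm _ o t w d g len).compl (meas_arm _ o t w d g len).compl
  have h2 := place_law o t (Dw w) (fun F => ¬ armOK true (0, 0) w d g len F)
    (meas_arm _ true (0, 0) w d g len).compl
  rw [h1, ← h2]
  congr 1
  ext x
  simp only [Set.mem_ofPred_eq, armOK_iff]

end ArmAbsAux


theorem _root_.H941.arm_abs (S : Finset (ℤ × ℤ)) (o : Bool) (t : ℤ × ℤ) (w d : ℕ) (lam0 g len p2 : ℝ) (hd : 1 ≤ d) (hw : 2 * d ≤ w) (hp2 : 0 ≤ p2)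
    (hDS : (Dw w).image (place o t) ⊆ S)
    (hloc : gf (Dw w) (Dw w) {x | ¬ armOK true (0, 0) w d g len (extf (Dw w) x)} ≤ ENNReal.ofReal p2)
    (j : ℕ) (Γ : Fin (j + 1) → Matrix (S : Finset (ℤ × ℤ)) (S : Finset (ℤ × ℤ)) ℝ)
    (hΓ : ∀ k, (Γ k).PosSemidef) (A : Matrix (S : Finset (ℤ × ℤ)) (S : Finset (ℤ × ℤ)) ℝ)
    (hA : A.PosSemidef)
    (hlast : Γ (Fin.last j) = A + Matrix.of (fun x y : (S : Finset (ℤ × ℤ)) => (1 / 4) * green ((Dw w).image (place o t)) x y))
    (E : Fin j → Set (EuclideanSpace ℝ (S : Finset (ℤ × ℤ)))) (hE : ∀ k, MeasurableSet (E k))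
    (hE2 : ∀ k, multivariateGaussian (0 : EuclideanSpace ℝ (S : Finset (ℤ × ℤ))) (Γ k.castSucc) (E k) ≤ 1 / 2)
    (Bd : ℝ) (hBd : 0 ≤ Bd)
    (hcoarse : (Measure.pi (fun k : Fin (j + 1) =>
        multivariateGaussian (0 : EuclideanSpace ℝ (S : Finset (ℤ × ℤ))) (if k = Fin.last j then A else Γ k)))
        {ω | (∀ k : Fin j, ω k.castSucc ∈ E k) ∧ ∃ x : (S : Finset (ℤ × ℤ)),
          (x : ℤ × ℤ) ∈ (rect w (5 * w) d (w - d)).image (place o t) ∧ lam0 - g < ∑ k, ω k x} ≤
      ENNReal.ofReal Bd) :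
    (Measure.pi fun k => multivariateGaussian (0 : EuclideanSpace ℝ (S : Finset (ℤ × ℤ))) (Γ k))
        {ω | (∀ k : Fin j, ω k.castSucc ∈ E k) ∧ ¬ armOK o t w d lam0 len (extf S (∑ k, ω k))} ≤
      ENNReal.ofReal ((1 / 2) ^ j * p2 + Bd) := by
  classical
  set R0 : Finset (ℤ × ℤ) := Dw w with hR0
  set B : Matrix (S : Finset (ℤ × ℤ)) (S : Finset (ℤ × ℤ)) ℝ :=
    Matrix.of (fun x y : (S : Finset (ℤ × ℤ)) => (1 / 4) * green (R0.image (place o t)) x y) with hBdef
  have hB : B.PosSemidef := ArmAbsAux.psd_green S _ hDS (1 / 4) (by norm_num)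
  have hls := law_split j Γ hΓ A B hA hB hlast
  set ν : Fin (j + 1) → Measure (EuclideanSpace ℝ (S : Finset (ℤ × ℤ))) := fun k =>
    multivariateGaussian (0 : EuclideanSpace ℝ (S : Finset (ℤ × ℤ)))
      (if k = Fin.last j then A else Γ k) with hν
  set G : Measure (EuclideanSpace ℝ (S : Finset (ℤ × ℤ))) :=
    multivariateGaussian (0 : EuclideanSpace ℝ (S : Finset (ℤ × ℤ))) B with hG
  rw [← hls]
  have hmF : Measurable (fun (z : (Fin (j + 1) → EuclideanSpace ℝ (S : Finset (ℤ × ℤ))) ×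
      EuclideanSpace ℝ (S : Finset (ℤ × ℤ))) (k : Fin (j + 1)) =>
        if k = Fin.last j then z.1 k + z.2 else z.1 k) := by
    refine measurable_pi_iff.2 fun k => ?_
    split_ifs <;> fun_prop
  have hmZ : MeasurableSet {ω : Fin (j + 1) → EuclideanSpace ℝ (S : Finset (ℤ × ℤ)) |
      (∀ k : Fin j, ω k.castSucc ∈ E k) ∧
        ¬ armOK o t w d lam0 len (extf S (∑ k, ω k))} := by
    have h1 : MeasurableSet {ω : Fin (j + 1) → EuclideanSpace ℝ (S : Finset (ℤ × ℤ)) |
        ∀ k : Fin j, ω k.castSucc ∈ E k} := by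
      have : {ω : Fin (j + 1) → EuclideanSpace ℝ (S : Finset (ℤ × ℤ)) |
          ∀ k : Fin j, ω k.castSucc ∈ E k} =
          ⋂ k : Fin j, (fun ω : Fin (j + 1) → EuclideanSpace ℝ (S : Finset (ℤ × ℤ)) =>
            ω k.castSucc) ⁻¹' E k := by
        ext ω; simp
      rw [this]
      exact MeasurableSet.iInter fun k => (measurable_pi_apply _) (hE k)
    have h2 : Measurable fun ω : Fin (j + 1) → EuclideanSpace ℝ (S : Finset (ℤ × ℤ)) =>
        ∑ k, ω k := by fun_prop
    exact h1.inter (h2 (ArmAbsAux.meas_arm S o t w d lam0 len)).compl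
  rw [Measure.map_apply hmF hmZ]
  -- the bad event of the local field
  set Bad : Set (EuclideanSpace ℝ (S : Finset (ℤ × ℤ))) :=
    {ω | ¬ armOK o t w d g len (extf S ω)} with hBad
  have hbad : G Bad ≤ ENNReal.ofReal p2 := by
    have h3 := ArmAbsAux.gf_bad S o t w d g len hDS
    have h4 : G Bad = gf S ((Dw w).image (place o t)) {x | ¬ armOK o t w d g len (extf S x)} := rfl
    rw [h4, h3]
    exact hloc
  set Sgn : Set (Fin (j + 1) → EuclideanSpace ℝ (S : Finset (ℤ × ℤ))) :=
    {ω | ∀ k : Fin j, ω k.castSucc ∈ E k} with hSgn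
  set Crs : Set (Fin (j + 1) → EuclideanSpace ℝ (S : Finset (ℤ × ℤ))) :=
    {ω | (∀ k : Fin j, ω k.castSucc ∈ E k) ∧ ∃ x : (S : Finset (ℤ × ℤ)),
          (x : ℤ × ℤ) ∈ (rect w (5 * w) d (w - d)).image (place o t) ∧ lam0 - g < ∑ k, ω k x} with hCrs
  have hsub : (fun (z : (Fin (j + 1) → EuclideanSpace ℝ (S : Finset (ℤ × ℤ))) ×
      EuclideanSpace ℝ (S : Finset (ℤ × ℤ))) (k : Fin (j + 1)) =>
        if k = Fin.last j then z.1 k + z.2 else z.1 k) ⁻¹'
        {ω : Fin (j + 1) → EuclideanSpace ℝ (S : Finset (ℤ × ℤ)) |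
      (∀ k : Fin j, ω k.castSucc ∈ E k) ∧
        ¬ armOK o t w d lam0 len (extf S (∑ k, ω k))} ⊆
      (Sgn ×ˢ Bad) ∪ (Crs ×ˢ Set.univ) := by
    rintro ⟨ω, z⟩ ⟨h1, h2⟩
    have h1' : ∀ k : Fin j, ω k.castSucc ∈ E k := by
      intro k
      have := h1 k
      simp only [(Fin.castSucc_lt_last k).ne, if_false] at this
      exact this
    by_cases hc : ω ∈ Crs
    · exact Or.inr ⟨hc, Set.mem_univ _⟩
    · refine Or.inl ⟨h1', ?_⟩
      intro hb
      obtain ⟨u, v, q, hu, hv, hq, hl⟩ := hb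
      apply h2
      refine ⟨u, v, q, hu, hv, fun y hy => ⟨(hq y hy).1, ?_⟩, hl⟩
      have hy1 := (hq y hy).1
      have hz := (hq y hy).2
      have hyR : y ∈ R0 := by
        rw [hR0]
        simp only [Dw, rect, Finset.mem_product, Finset.mem_Icc] at hy1 ⊢
        have hd' : (1 : ℤ) ≤ d := by exact_mod_cast hd
        have hw' : (2 * d : ℤ) ≤ w := by exact_mod_cast hw
        omega
      have hyS : place o t y ∈ S := hDS (Finset.mem_image_of_mem _ hyR)
      have hH : ∑ k, ω k ⟨place o t y, hyS⟩ ≤ lam0 - g := by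
        by_contra hlt
        exact hc ⟨h1', ⟨place o t y, hyS⟩, Finset.mem_image_of_mem _ hy1, not_le.1 hlt⟩
      have hz' : z ⟨place o t y, hyS⟩ ≤ g := by
        unfold extf at hz
        rwa [dif_pos hyS] at hz
      have hsum : (∑ k : Fin (j + 1), if k = Fin.last j then ω k + z else ω k) =
          (∑ k, ω k) + z := by
        have e2 : ∀ k : Fin (j + 1), (if k = Fin.last j then ω k + z else ω k) =
            ω k + if k = Fin.last j then z else 0 := by
          intro k
          split_ifs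
          · rfl
          · rw [add_zero]
        simp only [e2, Finset.sum_add_distrib, Finset.sum_ite_eq', Finset.mem_univ, if_true]
      show extf S (∑ k : Fin (j + 1), if k = Fin.last j then ω k + z else ω k) (place o t y) ≤
        lam0
      rw [hsum]
      unfold extf
      rw [dif_pos hyS, PiLp.add_apply]
      have e3 : (∑ k, ω k) ⟨place o t y, hyS⟩ = ∑ k, ω k ⟨place o t y, hyS⟩ := by
        simp only [WithLp.ofLp_sum, Finset.sum_apply]
      rw [e3]
      linarith
  have hs1 : (Measure.pi ν) Sgn ≤ (1 / 2) ^ j := by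
    refine ArmAbsAux.signs j ν E fun k => ?_
    have := hE2 k
    simp only [hν]
    rw [if_neg (Fin.castSucc_lt_last k).ne]
    exact this
  refine (measure_mono hsub).trans ((measure_union_le _ _).trans ?_)
  rw [Measure.prod_prod, Measure.prod_prod, measure_univ, mul_one]
  rw [ENNReal.ofReal_add (by positivity) hBd, ENNReal.ofReal_mul (by positivity)]
  have e5 : ENNReal.ofReal ((1 / 2 : ℝ) ^ j) = (1 / 2) ^ j := by
    rw [ENNReal.ofReal_pow (by norm_num)]
    congr 1
    rw [ENNReal.ofReal_div_of_pos (by norm_num)]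
    simp
  rw [e5]
  exact add_le_add (mul_le_mul' hs1 hbad) hcoarse

end H941.arm_abs
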