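import Pool.Agent.H941.Defs4
import Pool.Agent.H941.G2
import Pool.Agent.H941.G3

open MeasureTheory ProbabilityTheory

namespace H941.sign_mgf

/-- completing the square for the Gaussian density -/
theorem sign_mgf_pdf (b : ℝ) (V : NNReal) (hV : V ≠ 0) (x : ℝ) :
    gaussianPDFReal 0 V x * Real.exp (b * x) =
      Real.exp (b ^ 2 * V / 2) * gaussianPDFReal (b * V) V x := by
  have hV' : (V : ℝ) ≠ 0 := by exact_mod_cast hV
  rw [gaussianPDFReal, gaussianPDFReal, mul_assoc, ← Real.exp_add]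
  rw [mul_left_comm, ← Real.exp_add]
  congr 2
  field_simp
  ring

/-- the one dimensional estimate -/
theorem sign_mgf_one (b σ : ℝ) (hσ : 0 < σ) :
    ∫ x, Set.indicator {x : ℝ | x ≤ 0} (fun x => Real.exp (b * x)) x
        ∂(gaussianReal 0 (σ ^ 2).toNNReal) ≤
      (1 / 2) * Real.exp (b ^ 2 * σ ^ 2 / 2 + |b| * σ) := by
  obtain ⟨c0, hc0, hc1, hhalf⟩ := half_exp
  rcases le_or_gt 0 b with hb | hb
  · refine (hhalf b σ hb hσ).trans ?_
    have h1 : Real.exp (-(c0 * min 1 (b * σ))) ≤ Real.exp (b ^ 2 * σ ^ 2 / 2 + |b| * σ) := by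
      apply Real.exp_le_exp.2
      have h2 : 0 ≤ min 1 (b * σ) := le_min zero_le_one (by positivity)
      have h3 : 0 ≤ c0 * min 1 (b * σ) := by positivity
      have h4 : 0 ≤ b ^ 2 * σ ^ 2 / 2 + |b| * σ := by positivity
      linarith
    linarith
  · obtain ⟨V, hVdef⟩ : ∃ V : NNReal, V = (σ ^ 2).toNNReal := ⟨_, rfl⟩
    have hVr : (V : ℝ) = σ ^ 2 := by
      rw [hVdef, Real.coe_toNNReal _ (by positivity)]
    have hV : V ≠ 0 := by
      intro h
      have : (V : ℝ) = 0 := by rw [h]; simp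
      rw [hVr] at this
      have : 0 < σ ^ 2 := by positivity
      linarith
    have h0 : ∫ x, Set.indicator {x : ℝ | x ≤ 0} (fun _ => (1 : ℝ)) x ∂(gaussianReal 0 V) ≤ 1 / 2 := by
      have := hhalf 0 σ le_rfl hσ
      simpa [hVdef] using this
    rw [integral_gaussianReal_eq_integral_smul hV] at h0
    rw [← hVdef, integral_gaussianReal_eq_integral_smul hV]
    -- rewrite as a set integral
    have e1 : (fun x : ℝ => gaussianPDFReal 0 V x •
        Set.indicator {x : ℝ | x ≤ 0} (fun x => Real.exp (b * x)) x) =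
        Set.indicator (Set.Iic 0) (fun x => Real.exp (b ^ 2 * V / 2) *
          gaussianPDFReal (b * V) V x) := by
      funext x
      by_cases hx : x ≤ 0
      · rw [Set.indicator_of_mem (show x ∈ {x : ℝ | x ≤ 0} from hx),
          Set.indicator_of_mem (show x ∈ Set.Iic (0 : ℝ) from hx), smul_eq_mul, sign_mgf_pdf b V hV]
      · rw [Set.indicator_of_notMem (show x ∉ {x : ℝ | x ≤ 0} from hx),
          Set.indicator_of_notMem (show x ∉ Set.Iic (0 : ℝ) from hx), smul_zero]
    have e2 : (fun x : ℝ => gaussianPDFReal 0 V x •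
        Set.indicator {x : ℝ | x ≤ 0} (fun _ => (1 : ℝ)) x) =
        Set.indicator (Set.Iic 0) (fun x => gaussianPDFReal 0 V x) := by
      funext x
      by_cases hx : x ≤ 0
      · rw [Set.indicator_of_mem (show x ∈ {x : ℝ | x ≤ 0} from hx),
          Set.indicator_of_mem (show x ∈ Set.Iic (0 : ℝ) from hx), smul_eq_mul, mul_one]
      · rw [Set.indicator_of_notMem (show x ∉ {x : ℝ | x ≤ 0} from hx),
          Set.indicator_of_notMem (show x ∉ Set.Iic (0 : ℝ) from hx), smul_zero]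
    rw [e1, integral_indicator measurableSet_Iic, integral_const_mul]
    rw [e2, integral_indicator measurableSet_Iic] at h0
    -- shift
    have hshift : ∫ x in Set.Iic (0 : ℝ), gaussianPDFReal (b * V) V x =
        ∫ x in Set.Iic (-(b * V)), gaussianPDFReal 0 V x := by
      have h1 : ∀ x, gaussianPDFReal (b * V) V x = gaussianPDFReal 0 V (x - b * V) := by
        intro x
        rw [gaussianPDFReal_sub]
        simp
      rw [← integral_indicator measurableSet_Iic, ← integral_indicator measurableSet_Iic,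
        ← integral_sub_right_eq_self (Set.indicator (Set.Iic (-(b * V)))
          (fun x => gaussianPDFReal 0 V x)) (b * V)]
      congr 1
      funext x
      by_cases hx : x ≤ 0
      · rw [Set.indicator_of_mem (show x ∈ Set.Iic (0 : ℝ) from hx),
          Set.indicator_of_mem (show x - b * V ∈ Set.Iic (-(b * V)) from by
            simp only [Set.mem_Iic]; linarith), h1]
      · rw [Set.indicator_of_notMem (show x ∉ Set.Iic (0 : ℝ) from hx),
          Set.indicator_of_notMem (show x - b * V ∉ Set.Iic (-(b * V)) from by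
            simp only [Set.mem_Iic]; intro h; apply hx; linarith)]
    have hbV : 0 ≤ -(b * V) := by
      have : 0 ≤ (V : ℝ) := V.2
      nlinarith
    have hint : Integrable (gaussianPDFReal 0 V) := integrable_gaussianPDFReal 0 V
    have hsplit : ∫ x in Set.Iic (-(b * V)), gaussianPDFReal 0 V x =
        (∫ x in Set.Iic (0 : ℝ), gaussianPDFReal 0 V x) +
          ∫ x in (0 : ℝ)..(-(b * V)), gaussianPDFReal 0 V x := by
      rw [← intervalIntegral.integral_Iic_sub_Iic hint.integrableOn hint.integrableOn]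
      ring
    have hsmall : ∫ x in (0 : ℝ)..(-(b * V)), gaussianPDFReal 0 V x ≤ |b| * σ / 2 := by
      have h1 : ∀ x, gaussianPDFReal 0 V x ≤ 1 / (2 * σ) := by
        intro x
        rw [gaussianPDFReal, hVr]
        have h2 : Real.exp (-(x - 0) ^ 2 / (2 * σ ^ 2)) ≤ 1 := by
          apply Real.exp_le_one_iff.2
          apply div_nonpos_of_nonpos_of_nonneg
          · nlinarith [sq_nonneg (x - 0)]
          · positivity
        have h3 : 2 * σ ≤ Real.sqrt (2 * Real.pi * σ ^ 2) := by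
          apply Real.le_sqrt_of_sq_le
          have := Real.pi_gt_three
          nlinarith [sq_nonneg σ]
        have h4 : (Real.sqrt (2 * Real.pi * σ ^ 2))⁻¹ ≤ (2 * σ)⁻¹ := by
          apply inv_anti₀ (by positivity) h3
        calc (Real.sqrt (2 * Real.pi * σ ^ 2))⁻¹ * Real.exp (-(x - 0) ^ 2 / (2 * σ ^ 2))
            ≤ (2 * σ)⁻¹ * 1 := by
              apply mul_le_mul h4 h2 (Real.exp_pos _).le (by positivity)
          _ = 1 / (2 * σ) := by rw [mul_one, one_div]
      have h5 : ∫ x in (0 : ℝ)..(-(b * V)), gaussianPDFReal 0 V x ≤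
          ∫ x in (0 : ℝ)..(-(b * V)), (1 / (2 * σ)) := by
        apply intervalIntegral.integral_mono_on hbV hint.intervalIntegrable
          intervalIntegrable_const
        intro x _
        exact h1 x
      refine h5.trans (le_of_eq ?_)
      rw [intervalIntegral.integral_const, hVr, abs_of_neg hb, smul_eq_mul]
      field_simp
      ring
    have hx : 1 / 2 + |b| * σ / 2 ≤ (1 / 2) * Real.exp (|b| * σ) := by
      have := Real.add_one_le_exp (|b| * σ)
      linarith
    rw [hshift, hsplit]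
    calc Real.exp (b ^ 2 * V / 2) * ((∫ x in Set.Iic (0 : ℝ), gaussianPDFReal 0 V x) +
          ∫ x in (0 : ℝ)..(-(b * V)), gaussianPDFReal 0 V x)
        ≤ Real.exp (b ^ 2 * V / 2) * ((1 / 2) * Real.exp (|b| * σ)) := by
          apply mul_le_mul_of_nonneg_left _ (Real.exp_pos _).le
          linarith
      _ = (1 / 2) * Real.exp (b ^ 2 * σ ^ 2 / 2 + |b| * σ) := by
          rw [Real.exp_add, hVr]; ring

theorem _root_.H941.sign_mgf {ι : Type} [Fintype ι] [DecidableEq ι] (Γ : Matrix ι ι ℝ) (hΓ : Γ.PosSemidef) (a w : ι → ℝ) (v : ℝ)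
    (hw : 0 < ∑ x, ∑ y, w x * Γ x y * w y) (hv : ∑ x, ∑ y, a x * Γ x y * a y ≤ v) :
    Integrable (fun x : EuclideanSpace ℝ ι => Real.exp (∑ y, a y * x y)) (multivariateGaussian (0 : EuclideanSpace ℝ ι) Γ) ∧
    ∫ x : EuclideanSpace ℝ ι, Set.indicator {x : EuclideanSpace ℝ ι | ∑ y, w y * x y ≤ 0} (fun x => Real.exp (∑ y, a y * x y)) x
        ∂(multivariateGaussian (0 : EuclideanSpace ℝ ι) Γ) ≤
      (1 / 2) * Real.exp (v / 2 + Real.sqrt v) := by
  obtain ⟨P, hP⟩ : ∃ P : Measure (EuclideanSpace ℝ ι), P = multivariateGaussian 0 Γ := ⟨_, rfl⟩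
  have hPG : IsGaussian P := by rw [hP]; infer_instance
  obtain ⟨σ, hσdef⟩ : ∃ σ : ℝ, σ = Real.sqrt (∑ x, ∑ y, w x * Γ x y * w y) := ⟨_, rfl⟩
  have hσ : 0 < σ := by rw [hσdef]; exact Real.sqrt_pos.2 hw
  have hσ' : ∑ x, ∑ y, w x * Γ x y * w y = σ ^ 2 := by
    rw [hσdef, Real.sq_sqrt hw.le]
  -- the vectors
  obtain ⟨ww, hww⟩ : ∃ ww : EuclideanSpace ℝ ι, ww = WithLp.toLp 2 w := ⟨_, rfl⟩
  obtain ⟨aa, haa⟩ : ∃ aa : EuclideanSpace ℝ ι, aa = WithLp.toLp 2 a := ⟨_, rfl⟩
  have hW : ∀ x : EuclideanSpace ℝ ι, inner ℝ ww x = ∑ y, w y * x y := by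
    intro x
    rw [hww, PiLp.inner_apply]
    apply Finset.sum_congr rfl
    intro i _
    simp [mul_comm]
  have hA : ∀ x : EuclideanSpace ℝ ι, inner ℝ aa x = ∑ y, a y * x y := by
    intro x
    rw [haa, PiLp.inner_apply]
    apply Finset.sum_congr rfl
    intro i _
    simp [mul_comm]
  have hmem : MemLp id 2 P := IsGaussian.memLp_two_id
  obtain ⟨B, hB⟩ : ∃ B : EuclideanSpace ℝ ι → EuclideanSpace ℝ ι → ℝ,
      ∀ a b, B a b = covarianceBilin P a b := ⟨_, fun _ _ => rfl⟩
  have hcovB : ∀ a b : EuclideanSpace ℝ ι,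
      cov[fun x => inner ℝ a x, fun x => inner ℝ b x; P] = B a b := by
    intro a b
    rw [hB, ← covarianceBilin_apply_eq_cov hmem]
  have hcovf : ∀ a b : EuclideanSpace ℝ ι, B a b = ∑ i, ∑ j, a i * Γ i j * b j := by
    intro a b
    rw [hB, hP, covarianceBilin_multivariateGaussian hΓ]
    simp only [dotProduct, Matrix.mulVec, Finset.mul_sum]
    apply Finset.sum_congr rfl
    intro i _
    apply Finset.sum_congr rfl
    intro j _
    ring
  have hBcomm : ∀ a b, B a b = B b a := by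
    intro a b; rw [hB, hB, covarianceBilin_comm]
  obtain ⟨ρ, hρ⟩ : ∃ ρ : ℝ, ρ = B aa ww := ⟨_, rfl⟩
  obtain ⟨β, hβ⟩ : ∃ β : ℝ, β = ρ / σ ^ 2 := ⟨_, rfl⟩
  have hβσ : β * σ ^ 2 = ρ := by rw [hβ]; field_simp
  have hBsub : ∀ a b c, B (a - β • b) c = B a c - β * B b c := by
    intro a b c; rw [hB, hB, hB]; simp
  have hWW : B ww ww = σ ^ 2 := by
    rw [hcovf, ← hσ', hww]
  obtain ⟨v', hv'⟩ : ∃ v' : ℝ, v' = B aa aa := ⟨_, rfl⟩
  have hv'v : v' ≤ v := by
    rw [hv', hcovf, haa]; exact hv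
  obtain ⟨z, hz⟩ : ∃ z : EuclideanSpace ℝ ι, z = aa - β • ww := ⟨_, rfl⟩
  have hzW : B z ww = 0 := by
    rw [hz, hBsub, ← hρ, hWW, hβσ]; ring
  have hzz : B z z = v' - β ^ 2 * σ ^ 2 := by
    have h1 : B z z = B aa z - β * B ww z := by
      nth_rewrite 1 [hz]
      rw [hBsub]
    rw [h1, hBcomm ww z, hzW, hBcomm aa z, hz, hBsub, ← hv', hBcomm ww aa, ← hρ, ← hβσ]
    ring
  -- Gaussian laws
  have hid : HasGaussianLaw (fun x : EuclideanSpace ℝ ι => x) P := ⟨by simpa using hPG⟩
  have hlaw1 : ∀ b : EuclideanSpace ℝ ι, HasGaussianLaw (fun x => inner ℝ b x) P := by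
    intro b
    exact hid.map_fun (innerSL ℝ b)
  have hlaw2 : HasGaussianLaw (fun x => (inner ℝ z x, inner ℝ ww x)) P :=
    hid.map_fun ((innerSL ℝ z).prod (innerSL ℝ ww))
  have hind : IndepFun (fun x => inner ℝ z x) (fun x => inner ℝ ww x) P :=
    hlaw2.indepFun_of_covariance_eq_zero (by rw [hcovB, hzW])
  have hmean : ∀ b : EuclideanSpace ℝ ι, ∫ x, inner ℝ b x ∂P = 0 := by
    intro b
    have h0 : Integrable (fun x : EuclideanSpace ℝ ι => x) P := IsGaussian.integrable_id
    rw [integral_inner h0, hP, integral_id_multivariateGaussian]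
    simp
  have hmapf : ∀ b : EuclideanSpace ℝ ι,
      P.map (fun x => inner ℝ b x) = gaussianReal 0 (B b b).toNNReal := by
    intro b
    rw [(hlaw1 b).map_eq_gaussianReal, hmean, ← covariance_self (hlaw1 b).aemeasurable, hcovB]
  have hBnn : ∀ b : EuclideanSpace ℝ ι, 0 ≤ B b b := by
    intro b
    rw [← hcovB, covariance_self (hlaw1 b).aemeasurable]
    exact variance_nonneg _ _
  have hmeasinner : ∀ b : EuclideanSpace ℝ ι, Measurable (fun x => inner ℝ b x) := by
    intro b; fun_prop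
  rw [← hP]
  refine ⟨?_, ?_⟩
  · have h1 : Integrable (fun t : ℝ => Real.exp (1 * t)) (P.map (fun x => inner ℝ aa x)) := by
      rw [hmapf]
      exact integrable_exp_mul_gaussianReal 1
    have h2 := h1.comp_measurable (hmeasinner aa)
    refine h2.congr (Filter.Eventually.of_forall ?_)
    intro x
    simp only [Function.comp_def, one_mul, hA]
  -- factorization of the integrand
  have hfac : ∀ x : EuclideanSpace ℝ ι,
      Set.indicator {x : EuclideanSpace ℝ ι | ∑ y, w y * x y ≤ 0}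
        (fun x => Real.exp (∑ y, a y * x y)) x =
      Real.exp (1 * inner ℝ z x) *
        Set.indicator {t : ℝ | t ≤ 0} (fun t => Real.exp (β * t)) (inner ℝ ww x) := by
    intro x
    have e1 : inner ℝ z x = (∑ y, a y * x y) - β * inner ℝ ww x := by
      rw [hz, inner_sub_left, real_inner_smul_left, hA]
    by_cases h : ∑ y, w y * x y ≤ 0
    · rw [Set.indicator_of_mem (show x ∈ {x : EuclideanSpace ℝ ι | ∑ y, w y * x y ≤ 0} from h),
        Set.indicator_of_mem (show inner ℝ ww x ∈ {t : ℝ | t ≤ 0} from by rw [hW]; exact h),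
        ← Real.exp_add, e1]
      congr 1; ring
    · rw [Set.indicator_of_notMem (show x ∉ {x : EuclideanSpace ℝ ι | ∑ y, w y * x y ≤ 0} from h),
        Set.indicator_of_notMem (show inner ℝ ww x ∉ {t : ℝ | t ≤ 0} from by rw [hW]; exact h),
        mul_zero]
  have hmeas1 : Measurable (fun t : ℝ => Real.exp (1 * t)) := by fun_prop
  have hmeas2 : Measurable (Set.indicator {t : ℝ | t ≤ 0} (fun t => Real.exp (β * t))) :=
    Measurable.indicator (by fun_prop) measurableSet_Iic
  have hint : ∫ x : EuclideanSpace ℝ ι,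
      Set.indicator {x : EuclideanSpace ℝ ι | ∑ y, w y * x y ≤ 0}
          (fun x => Real.exp (∑ y, a y * x y)) x ∂P =
      (∫ x, Real.exp (1 * inner ℝ z x) ∂P) *
      (∫ x, Set.indicator {t : ℝ | t ≤ 0} (fun t => Real.exp (β * t)) (inner ℝ ww x) ∂P) := by
    have e : (fun x : EuclideanSpace ℝ ι =>
        Set.indicator {x : EuclideanSpace ℝ ι | ∑ y, w y * x y ≤ 0}
          (fun x => Real.exp (∑ y, a y * x y)) x) = (fun x =>
          Real.exp (1 * inner ℝ z x) *
        Set.indicator {t : ℝ | t ≤ 0} (fun t => Real.exp (β * t)) (inner ℝ ww x)) :=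
      funext hfac
    rw [e]
    exact (hind.comp hmeas1 hmeas2).integral_fun_mul_eq_mul_integral
      (hmeas1.comp (hmeasinner z)).aestronglyMeasurable
      (hmeas2.comp (hmeasinner ww)).aestronglyMeasurable
  have hfirst : ∫ x, Real.exp (1 * inner ℝ z x) ∂P = Real.exp ((v' - β ^ 2 * σ ^ 2) / 2) := by
    have h1 := mgf_gaussianReal (hmapf z) 1
    rw [mgf] at h1
    rw [h1, Real.coe_toNNReal _ (hBnn z), hzz]
    congr 1; ring
  have hsecond : ∫ x, Set.indicator {t : ℝ | t ≤ 0} (fun t => Real.exp (β * t))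
      (inner ℝ ww x) ∂P ≤ (1 / 2) * Real.exp (β ^ 2 * σ ^ 2 / 2 + |β| * σ) := by
    have h1 := sign_mgf_one β σ hσ
    rw [← hWW, ← hmapf ww, integral_map (hmeasinner ww).aemeasurable
      hmeas2.aestronglyMeasurable, hWW] at h1
    exact h1
  have hβs : |β| * σ ≤ Real.sqrt v := by
    apply Real.le_sqrt_of_sq_le
    have h1 : (|β| * σ) ^ 2 = β ^ 2 * σ ^ 2 := by
      rw [mul_pow, sq_abs]
    have h2 := hBnn z
    rw [hzz] at h2
    rw [h1]
    linarith
  rw [hint, hfirst]
  calc Real.exp ((v' - β ^ 2 * σ ^ 2) / 2) *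
        ∫ x, Set.indicator {t : ℝ | t ≤ 0} (fun t => Real.exp (β * t)) (inner ℝ ww x) ∂P
      ≤ Real.exp ((v' - β ^ 2 * σ ^ 2) / 2) *
        ((1 / 2) * Real.exp (β ^ 2 * σ ^ 2 / 2 + |β| * σ)) :=
        mul_le_mul_of_nonneg_left hsecond (Real.exp_pos _).le
    _ = (1 / 2) * Real.exp (v' / 2 + |β| * σ) := by
        rw [mul_left_comm, ← Real.exp_add]
        congr 2; ring
    _ ≤ (1 / 2) * Real.exp (v / 2 + Real.sqrt v) := by
        apply mul_le_mul_of_nonneg_left _ (by norm_num)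
        apply Real.exp_le_exp.2
        linarith

end H941.sign_mgf
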