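import Pool.Agent.H941.Defs4
import Pool.Agent.H941.C.sign_mgf
import Pool.Agent.H941.C.submean
import Pool.Agent.H941.G1

open MeasureTheory ProbabilityTheory

namespace H941.coarse_abs

open scoped RealInnerProductSpace in
theorem lin_law {ι : Type} [Fintype ι] [DecidableEq ι] (Γ : Matrix ι ι ℝ) (hΓ : Γ.PosSemidef)
    (a : ι → ℝ) :
    (multivariateGaussian (0 : EuclideanSpace ℝ ι) Γ).map (fun x => ∑ y, a y * x y) =
      gaussianReal 0 (∑ x, ∑ y, a x * Γ x y * a y).toNNReal := by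
  set A : EuclideanSpace ℝ ι := WithLp.toLp 2 a with hA
  have h1 : (fun x : EuclideanSpace ℝ ι => ∑ y, a y * x y) = ⇑(innerSL ℝ A) := by
    funext x
    rw [innerSL_apply_apply, PiLp.inner_apply]
    refine Finset.sum_congr rfl fun y _ => ?_
    simp [hA, mul_comm]
  rw [h1, IsGaussian.map_eq_gaussianReal]
  have h2 : (multivariateGaussian (0 : EuclideanSpace ℝ ι) Γ)[innerSL ℝ A] = 0 := by
    rw [ContinuousLinearMap.integral_comp_id_comm]
    · simp
    · exact IsGaussian.integrable_id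
  have h3 : Var[innerSL ℝ A; multivariateGaussian (0 : EuclideanSpace ℝ ι) Γ] =
      ∑ x, ∑ y, a x * Γ x y * a y := by
    have h4 := covarianceBilin_multivariateGaussian (μ := (0 : EuclideanSpace ℝ ι)) hΓ A A
    rw [covarianceBilin_apply_eq_cov IsGaussian.memLp_two_id, covariance_self] at h4
    · change Var[fun x => ⟪A, x⟫; multivariateGaussian (0 : EuclideanSpace ℝ ι) Γ] = _
      rw [h4]
      simp only [dotProduct, Matrix.mulVec, hA]
      refine Finset.sum_congr rfl fun x _ => ?_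
      rw [Finset.mul_sum]
      refine Finset.sum_congr rfl fun y _ => ?_
      ring
    · fun_prop
  rw [h2, h3]

theorem lin_zero {ι : Type} [Fintype ι] [DecidableEq ι] (Γ : Matrix ι ι ℝ) (hΓ : Γ.PosSemidef)
    (w : ι → ℝ) (hw : ∀ y, ∑ x, w x * Γ x y = 0) :
    ∀ᵐ x ∂(multivariateGaussian (0 : EuclideanSpace ℝ ι) Γ), ∑ y, w y * x y = 0 := by
  have h1 := lin_law Γ hΓ w
  have h2 : ∑ x, ∑ y, w x * Γ x y * w y = 0 := by
    rw [Finset.sum_comm]
    refine Finset.sum_eq_zero fun y _ => ?_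
    rw [← Finset.sum_mul, hw, zero_mul]
  rw [h2, Real.toNNReal_zero, gaussianReal_zero_var] at h1
  have h3 : ∀ᵐ t ∂((multivariateGaussian (0 : EuclideanSpace ℝ ι) Γ).map
      (fun x => ∑ y, w y * x y)), t = 0 := by
    rw [h1, ae_dirac_eq]
    simp
  exact ae_of_ae_map (by fun_prop) h3

theorem lin_mgf {ι : Type} [Fintype ι] [DecidableEq ι] (Γ : Matrix ι ι ℝ) (hΓ : Γ.PosSemidef)
    (a : ι → ℝ) (v : ℝ) (hv : ∑ x, ∑ y, a x * Γ x y * a y ≤ v) (hv0 : 0 ≤ v) :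
    Integrable (fun x : EuclideanSpace ℝ ι => Real.exp (∑ y, a y * x y))
      (multivariateGaussian (0 : EuclideanSpace ℝ ι) Γ) ∧
    ∫ x : EuclideanSpace ℝ ι, Real.exp (∑ y, a y * x y)
      ∂(multivariateGaussian (0 : EuclideanSpace ℝ ι) Γ) ≤ Real.exp (v / 2) := by
  have h1 := lin_law Γ hΓ a
  have hm : Measurable (fun x : EuclideanSpace ℝ ι => ∑ y, a y * x y) := by fun_prop
  constructor
  · have h2 := integrable_exp_mul_gaussianReal (μ := (0 : ℝ))
      (v := (∑ x, ∑ y, a x * Γ x y * a y).toNNReal) 1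
    rw [← h1] at h2
    have h3 := h2.comp_measurable hm
    simpa [Function.comp_def] using h3
  · have h2 := mgf_gaussianReal h1 1
    unfold mgf at h2
    simp only [one_mul] at h2
    rw [h2]
    refine Real.exp_le_exp.2 ?_
    have h3 : ((∑ x, ∑ y, a x * Γ x y * a y).toNNReal : ℝ) ≤ v := by
      rw [Real.coe_toNNReal']
      exact max_le hv hv0
    simp only [zero_mul, zero_add, one_pow, mul_one]
    linarith

theorem mem_ball_iff (x z : ℤ × ℤ) (r : ℤ) : z ∈ ball x r ↔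
    x.1 - r ≤ z.1 ∧ z.1 ≤ x.1 + r ∧ x.2 - r ≤ z.2 ∧ z.2 ≤ x.2 + r := by
  unfold ball rect
  rw [Finset.mem_product, Finset.mem_Icc, Finset.mem_Icc, and_assoc]

theorem card_ball (x : ℤ × ℤ) (r : ℕ) : ((ball x r).card : ℝ) = (2 * r + 1) ^ 2 := by
  unfold ball rect
  rw [Finset.card_product, Int.card_Icc, Int.card_Icc]
  have h1 : (x.1 + (r : ℤ) + 1 - (x.1 - r)).toNat = 2 * r + 1 := by omega
  have h2 : (x.2 + (r : ℤ) + 1 - (x.2 - r)).toNat = 2 * r + 1 := by omega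
  rw [h1, h2]
  push_cast
  ring

theorem nbrs_sub (p z : ℤ × ℤ) (n : ℤ) (hz : z ∈ ball p n) : nbrs z ⊆ ball p (n + 1) := by
  intro z' hz'
  rw [mem_ball_iff] at hz ⊢
  simp only [nbrs, Finset.mem_insert, Finset.mem_singleton] at hz'
  rcases hz' with h | h | h | h <;> subst h <;> simp only <;> omega

theorem ball_sub (p z : ℤ × ℤ) (m n k : ℤ) (hz : z ∈ ball p m) (hk : m + n ≤ k) :
    ball z n ⊆ ball p k := by
  intro z' hz'
  rw [mem_ball_iff] at hz hz' ⊢
  omega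

theorem card_nbrs (z : ℤ × ℤ) : (nbrs z).card = 4 := by
  unfold nbrs
  rw [Finset.card_insert_of_notMem, Finset.card_insert_of_notMem, Finset.card_insert_of_notMem,
    Finset.card_singleton]
  · simp only [Finset.mem_singleton, Prod.mk.injEq]
    omega
  · simp only [Finset.mem_insert, Finset.mem_singleton, Prod.mk.injEq]
    omega
  · simp only [Finset.mem_insert, Finset.mem_singleton, Prod.mk.injEq]
    omega

theorem exp_nbrs (z : ℤ × ℤ) (f : ℤ × ℤ → ℝ) :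
    Real.exp ((1 / 4) * ∑ z' ∈ nbrs z, f z') ≤ (1 / 4) * ∑ z' ∈ nbrs z, Real.exp (f z') := by
  have h := convexOn_exp.map_sum_le (t := nbrs z) (w := fun _ => (1 / 4 : ℝ)) (p := f)
    (fun _ _ => by norm_num) (by
      rw [Finset.sum_const, card_nbrs]
      norm_num) (fun _ _ => Set.mem_univ _)
  simp only [smul_eq_mul] at h
  rw [← Finset.mul_sum, ← Finset.mul_sum] at h
  exact h

section quad

variable {ι : Type} [Fintype ι] [DecidableEq ι]

/-- difference of two point masses -/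
def dlq (u o : ι) (y : ι) : ℝ := (if y = u then 1 else 0) - (if y = o then 1 else 0)

theorem dl_sum (u o : ι) (f : ι → ℝ) : ∑ y, dlq u o y * f y = f u - f o := by
  unfold dlq
  simp [sub_mul, Finset.sum_sub_distrib]

theorem dl_quad (Γ : Matrix ι ι ℝ) (hΓ : Γ.PosSemidef) (u o : ι) :
    ∑ x, ∑ y, dlq u o x * Γ x y * dlq u o y = Γ u u - 2 * Γ u o + Γ o o := by
  have h1 : ∀ x, ∑ y, dlq u o x * Γ x y * dlq u o y = dlq u o x * (Γ x u - Γ x o) := by
    intro x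
    have h2 : ∀ y, dlq u o x * Γ x y * dlq u o y = dlq u o x * (dlq u o y * Γ x y) := by
      intro y; ring
    simp_rw [h2]
    rw [← Finset.mul_sum, dl_sum]
  simp_rw [h1]
  rw [dl_sum (f := fun x => Γ x u - Γ x o)]
  have h3 : Γ o u = Γ u o := by
    have h4 := hΓ.isHermitian.apply u o
    simpa using h4
  rw [h3]
  ring

theorem prod_bound (j : ℕ) (Γ : Fin (j + 1) → Matrix ι ι ℝ) (hΓ : ∀ k, (Γ k).PosSemidef)
    (W : Fin j → ι → ℝ) (hW : ∀ k : Fin j, 0 < ∑ x, ∑ y, W k x * Γ k.castSucc x y * W k y)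
    (u o : ι) (v : Fin (j + 1) → ℝ) (hv0 : ∀ k, 0 ≤ v k)
    (hv : ∀ k, Γ k u u - 2 * Γ k u o + Γ k o o ≤ v k) :
    Integrable (fun ω : Fin (j + 1) → EuclideanSpace ℝ ι =>
        (∏ i : Fin j, ({x : EuclideanSpace ℝ ι | ∑ y, W i y * x y ≤ 0}).indicator
          (fun _ => (1 : ℝ)) (ω i.castSucc)) * Real.exp (∑ k, ω k u - ∑ k, ω k o))
      (Measure.pi fun k => multivariateGaussian (0 : EuclideanSpace ℝ ι) (Γ k)) ∧
    ∫ ω : Fin (j + 1) → EuclideanSpace ℝ ι,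
        (∏ i : Fin j, ({x : EuclideanSpace ℝ ι | ∑ y, W i y * x y ≤ 0}).indicator
          (fun _ => (1 : ℝ)) (ω i.castSucc)) * Real.exp (∑ k, ω k u - ∑ k, ω k o)
      ∂(Measure.pi fun k => multivariateGaussian (0 : EuclideanSpace ℝ ι) (Γ k)) ≤
    (1 / 2) ^ j * Real.exp (∑ k, v k / 2 + ∑ k : Fin j, Real.sqrt (v k.castSucc)) := by
  set A : Fin j → Set (EuclideanSpace ℝ ι) := fun i => {x | ∑ y, W i y * x y ≤ 0} with hA
  have hAm : ∀ i, MeasurableSet (A i) := fun i =>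
    measurableSet_le (by fun_prop) measurable_const
  set F : EuclideanSpace ℝ ι → ℝ := fun x => Real.exp (∑ y, dlq u o y * x y) with hF
  have hFe : ∀ x : EuclideanSpace ℝ ι, F x = Real.exp (x u - x o) := by
    intro x
    rw [hF]
    simp only
    rw [dl_sum u o (fun y => x y)]
  set G : Fin (j + 1) → EuclideanSpace ℝ ι → ℝ :=
    Fin.snoc (α := fun _ => EuclideanSpace ℝ ι → ℝ) (fun i => (A i).indicator F) F with hG
  have hGc : ∀ i : Fin j, G i.castSucc = (A i).indicator F := by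
    intro i
    rw [hG, Fin.snoc_castSucc]
  have hGl : G (Fin.last j) = F := by
    rw [hG, Fin.snoc_last]
  have hprod : (fun ω : Fin (j + 1) → EuclideanSpace ℝ ι =>
      (∏ i : Fin j, (A i).indicator (fun _ => (1 : ℝ)) (ω i.castSucc)) *
        Real.exp (∑ k, ω k u - ∑ k, ω k o)) = fun ω => ∏ k, G k (ω k) := by
    funext ω
    rw [← Finset.sum_sub_distrib, Real.exp_sum, Fin.prod_univ_castSucc, Fin.prod_univ_castSucc,
      ← mul_assoc, ← Finset.prod_mul_distrib, hGl, hFe]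
    congr 1
    refine Finset.prod_congr rfl fun i _ => ?_
    rw [hGc]
    by_cases h : ω i.castSucc ∈ A i
    · rw [Set.indicator_of_mem h, Set.indicator_of_mem h, one_mul, hFe]
    · rw [Set.indicator_of_notMem h, Set.indicator_of_notMem h, zero_mul]
  have hq : ∀ k, ∑ x, ∑ y, dlq u o x * Γ k x y * dlq u o y ≤ v k := fun k => by
    rw [dl_quad (Γ k) (hΓ k)]
    exact hv k
  have hbase : ∀ k, Integrable F (multivariateGaussian (0 : EuclideanSpace ℝ ι) (Γ k)) :=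
    fun k => (lin_mgf (Γ k) (hΓ k) (dlq u o) (v k) (hq k) (hv0 k)).1
  have hint : ∀ k, Integrable (G k) (multivariateGaussian (0 : EuclideanSpace ℝ ι) (Γ k)) := by
    intro k
    refine Fin.lastCases ?_ (fun i => ?_) k
    · rw [hGl]
      exact hbase _
    · rw [hGc]
      exact (hbase _).indicator (hAm i)
  rw [hprod]
  refine ⟨Integrable.fintype_prod hint, ?_⟩
  rw [integral_fintype_prod_eq_prod, Fin.prod_univ_castSucc]
  have hlast : ∫ x, G (Fin.last j) x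
      ∂(multivariateGaussian (0 : EuclideanSpace ℝ ι) (Γ (Fin.last j))) ≤
      Real.exp (v (Fin.last j) / 2) := by
    rw [hGl]
    exact (lin_mgf _ (hΓ _) (dlq u o) _ (hq _) (hv0 _)).2
  have hfac : ∀ i : Fin j, ∫ x, G i.castSucc x
      ∂(multivariateGaussian (0 : EuclideanSpace ℝ ι) (Γ i.castSucc)) ≤
      (1 / 2) * Real.exp (v i.castSucc / 2 + Real.sqrt (v i.castSucc)) := by
    intro i
    rw [hGc]
    exact (sign_mgf _ (hΓ _) (dlq u o) (W i) (v i.castSucc) (hW i) (hq _)).2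
  have hnn : ∀ i : Fin j, 0 ≤ ∫ x, G i.castSucc x
      ∂(multivariateGaussian (0 : EuclideanSpace ℝ ι) (Γ i.castSucc)) := by
    intro i
    rw [hGc]
    exact integral_nonneg fun x => Set.indicator_nonneg (fun _ _ => (Real.exp_pos _).le) x
  calc _ ≤ (∏ i : Fin j, (1 / 2) * Real.exp (v i.castSucc / 2 + Real.sqrt (v i.castSucc))) *
        Real.exp (v (Fin.last j) / 2) := by
        refine mul_le_mul (Finset.prod_le_prod (fun i _ => hnn i) (fun i _ => hfac i)) hlast ?_ ?_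
        · rw [hGl]
          exact integral_nonneg fun x => (Real.exp_pos _).le
        · exact Finset.prod_nonneg fun i _ => by positivity
    _ = _ := by
        rw [Finset.prod_mul_distrib, Finset.prod_const, Finset.card_univ, Fintype.card_fin,
          ← Real.exp_sum, mul_assoc, ← Real.exp_add, Finset.sum_add_distrib,
          Fin.sum_univ_castSucc (f := fun k => v k / 2)]
        congr 2
        ring

end quad

/-- extension by zero -/
noncomputable def ext0 (S : Finset (ℤ × ℤ)) (f : ↥S → ℝ) (z : ℤ × ℤ) : ℝ :=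
  if hz : z ∈ S then f ⟨z, hz⟩ else 0

theorem ext0_sum (S : Finset (ℤ × ℤ)) (f : ↥S → ℝ) (z : ℤ × ℤ) :
    ∑ y : (S : Finset (ℤ × ℤ)), (if (y : ℤ × ℤ) = z then (1 : ℝ) else 0) * f y = ext0 S f z := by
  unfold ext0
  by_cases hz : z ∈ S
  · rw [dif_pos hz, Finset.sum_eq_single (⟨z, hz⟩ : (S : Finset (ℤ × ℤ)))]
    · simp
    · intro y _ hy
      rw [if_neg, zero_mul]
      intro h
      exact hy (Subtype.ext h)
    · intro h
      exact absurd (Finset.mem_univ _) h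
  · rw [dif_neg hz]
    refine Finset.sum_eq_zero fun y _ => ?_
    rw [if_neg, zero_mul]
    intro h
    exact hz (h ▸ y.2)

/-- the weights of the defect of harmonicity -/
noncomputable def wz (S : Finset (ℤ × ℤ)) (z : ℤ × ℤ) (y : (S : Finset (ℤ × ℤ))) : ℝ :=
  (if (y : ℤ × ℤ) = z then (1 : ℝ) else 0) -
    (1 / 4) * ∑ z' ∈ nbrs z, (if (y : ℤ × ℤ) = z' then (1 : ℝ) else 0)

theorem wz_sum (S : Finset (ℤ × ℤ)) (f : ↥S → ℝ) (z : ℤ × ℤ) :
    ∑ y, wz S z y * f y = ext0 S f z - (1 / 4) * ∑ z' ∈ nbrs z, ext0 S f z' := by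
  unfold wz
  simp_rw [sub_mul, Finset.sum_sub_distrib, ext0_sum]
  congr 1
  simp_rw [mul_assoc]
  rw [← Finset.mul_sum]
  congr 1
  simp_rw [Finset.sum_mul]
  rw [Finset.sum_comm]
  exact Finset.sum_congr rfl fun z' _ => ext0_sum S f z'

theorem _root_.H941.coarse_abs : ∃ C : ℝ, 1 ≤ C ∧ ∀ (S : Finset (ℤ × ℤ)) (j : ℕ) (Γ : Fin (j + 1) → Matrix (S : Finset (ℤ × ℤ)) (S : Finset (ℤ × ℤ)) ℝ),
    (∀ k, (Γ k).PosSemidef) → ∀ (W : Fin j → ↥S → ℝ), (∀ k : Fin j, 0 < ∑ x, ∑ y, W k x * Γ k.castSucc x y * W k y) →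
    ∀ (κ : ℤ × ℤ → ℤ × ℤ → ℝ), (∀ x y : (S : Finset (ℤ × ℤ)), (∑ k, Γ k) x y = κ x y) → (∀ z, z ∉ S → ∀ y, κ z y = 0) →
      (∀ x y, κ x y = κ y x) →
    ∀ (x0 : (S : Finset (ℤ × ℤ))) (R net : Finset (ℤ × ℤ)) (r : ℕ), 1 ≤ r → (∀ z ∈ R, ∃ p ∈ net, z ∈ ball p r) →
      (∀ p ∈ net, ball p (2 * r + 1) ⊆ S ∧ ∀ z ∈ ball p (2 * r), ∀ y, κ z y = (1 / 4) * ∑ z' ∈ nbrs z, κ z' y) →
    ∀ v : Fin (j + 1) → ℝ, (∀ k, 0 ≤ v k) → (∀ k, ∀ p ∈ net, ∀ z : (S : Finset (ℤ × ℤ)), (z : ℤ × ℤ) ∈ ball p (2 * r + 1) →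
        Γ k z z - 2 * Γ k z x0 + Γ k x0 x0 ≤ v k) →
    ∀ g : ℝ,
      (Measure.pi fun k => multivariateGaussian (0 : EuclideanSpace ℝ (S : Finset (ℤ × ℤ))) (Γ k))
        {ω | (∀ k : Fin j, ω k.castSucc ∈ {x : EuclideanSpace ℝ (S : Finset (ℤ × ℤ)) | ∑ y, W k y * x y ≤ 0}) ∧
          ∃ z : (S : Finset (ℤ × ℤ)), (z : ℤ × ℤ) ∈ R ∧ g + ∑ k, ω k x0 < ∑ k, ω k z} ≤
      ENNReal.ofReal (C * net.card * ((1 / 2) ^ j * Real.exp (-g + ∑ k, v k / 2 + ∑ k : Fin j, Real.sqrt (v k.castSucc)))) := by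
  obtain ⟨C, hC, hsub⟩ := submean
  refine ⟨49 * C + 1, by linarith, ?_⟩
  intro S j Γ hΓ W hW κ hκS hκ0 hκs x0 R net r hr hcov hnet v hv0 hv g
  set P := Measure.pi fun k => multivariateGaussian (0 : EuclideanSpace ℝ (S : Finset (ℤ × ℤ))) (Γ k)
    with hP
  set h : (Fin (j + 1) → EuclideanSpace ℝ (S : Finset (ℤ × ℤ))) → ℤ × ℤ → ℝ :=
    fun ω z => ext0 S (fun y => ∑ k, ω k y) z with hh
  have hS : ∀ ω (z : (S : Finset (ℤ × ℤ))), h ω z = ∑ k, ω k z := by
    intro ω z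
    simp only [hh, ext0]
    rw [dif_pos z.2]
  have hsum : (∑ k, Γ k).PosSemidef := Matrix.posSemidef_sum _ fun k _ => hΓ k
  have hlaw := law_sum Γ hΓ
  have hext : ∀ (y : (S : Finset (ℤ × ℤ))) (z : ℤ × ℤ),
      ext0 S (fun x => (∑ k, Γ k) x y) z = κ z y := by
    intro y z
    unfold ext0
    by_cases hz : z ∈ S
    · rw [dif_pos hz]
      exact hκS ⟨z, hz⟩ y
    · rw [dif_neg hz, hκ0 z hz]
  have harm1 : ∀ p ∈ net, ∀ z ∈ ball p (2 * r), ∀ᵐ ω ∂P,
      h ω z = (1 / 4) * ∑ z' ∈ nbrs z, h ω z' := by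
    intro p hp z hz
    have h1 := lin_zero (∑ k, Γ k) hsum (wz S z) (fun y => by
      rw [wz_sum S (fun x => (∑ k, Γ k) x y) z]
      simp_rw [hext y]
      rw [(hnet p hp).2 z hz y]
      ring)
    rw [← hlaw] at h1
    have h2 := ae_of_ae_map (by fun_prop) h1
    filter_upwards [h2] with ω hω
    rw [wz_sum S (fun y => (∑ k, ω k) y) z] at hω
    have h3 : (fun y : (S : Finset (ℤ × ℤ)) => (∑ k, ω k) y) = fun y => ∑ k, ω k y := by
      funext y
      simp
    rw [h3] at hω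
    simp only [hh]
    linarith
  have harm : ∀ᵐ ω ∂P, ∀ p ∈ net, ∀ z ∈ ball p (2 * r),
      h ω z = (1 / 4) * ∑ z' ∈ nbrs z, h ω z' := by
    rw [Filter.eventually_all_finset]
    intro p hp
    rw [Filter.eventually_all_finset]
    intro z hz
    exact harm1 p hp z hz
  set A : Fin j → Set (EuclideanSpace ℝ (S : Finset (ℤ × ℤ))) :=
    fun i => {x | ∑ y, W i y * x y ≤ 0} with hA
  set T : (Fin (j + 1) → EuclideanSpace ℝ (S : Finset (ℤ × ℤ))) → ℤ × ℤ → ℝ := fun ω z =>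
    (∏ i : Fin j, (A i).indicator (fun _ => (1 : ℝ)) (ω i.castSucc)) *
      Real.exp (h ω z - h ω x0) with hT
  have hT0 : ∀ ω z, 0 ≤ T ω z := fun ω z =>
    mul_nonneg (Finset.prod_nonneg fun i _ => Set.indicator_nonneg (fun _ _ => zero_le_one) _)
      (Real.exp_pos _).le
  set b : ℝ := Real.exp (-g) * (C / (r : ℝ) ^ 2) with hb
  have hr0 : (0 : ℝ) < r := by exact_mod_cast hr
  have hb0 : 0 ≤ b := by positivity
  set Φ : (Fin (j + 1) → EuclideanSpace ℝ (S : Finset (ℤ × ℤ))) → ℝ := fun ω =>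
    ∑ p ∈ net, ∑ z ∈ ball p (2 * r + 1), b * T ω z with hΦ
  set Kv : ℝ := (1 / 2) ^ j * Real.exp (∑ k, v k / 2 + ∑ k : Fin j, Real.sqrt (v k.castSucc))
    with hKv
  have hTi : ∀ p ∈ net, ∀ z ∈ ball p (2 * r + 1), Integrable (fun ω => T ω z) P ∧
      ∫ ω, T ω z ∂P ≤ Kv := by
    intro p hp z hz
    have hzS : z ∈ S := (hnet p hp).1 hz
    have h1 := prod_bound j Γ hΓ W hW ⟨z, hzS⟩ x0 v hv0 (fun k => hv k p hp ⟨z, hzS⟩ hz)
    have h2 : (fun ω => T ω z) = fun ω => (∏ i : Fin j, (A i).indicator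
        (fun _ => (1 : ℝ)) (ω i.castSucc)) * Real.exp (∑ k, ω k ⟨z, hzS⟩ - ∑ k, ω k x0) := by
      funext ω
      simp only [hT]
      rw [hS ω x0, hS ω ⟨z, hzS⟩]
    rw [h2]
    exact h1
  have hΦi : Integrable Φ P := by
    refine integrable_finsetSum _ fun p hp => integrable_finsetSum _ fun z hz => ?_
    exact ((hTi p hp z hz).1).const_mul b
  have hΦ0 : ∀ ω, 0 ≤ Φ ω := fun ω =>
    Finset.sum_nonneg fun p _ => Finset.sum_nonneg fun z _ => mul_nonneg hb0 (hT0 ω z)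
  have hKv0 : 0 ≤ Kv := by positivity
  have hΦle : ∫ ω, Φ ω ∂P ≤ (49 * C + 1) * net.card * ((1 / 2) ^ j *
      Real.exp (-g + ∑ k, v k / 2 + ∑ k : Fin j, Real.sqrt (v k.castSucc))) := by
    have h1 : ∫ ω, Φ ω ∂P = ∑ p ∈ net, ∑ z ∈ ball p (2 * r + 1), b * ∫ ω, T ω z ∂P := by
      simp only [hΦ]
      rw [integral_finsetSum _ fun p hp => integrable_finsetSum _ fun z hz =>
        ((hTi p hp z hz).1).const_mul b]
      refine Finset.sum_congr rfl fun p hp => ?_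
      rw [integral_finsetSum _ fun z hz => ((hTi p hp z hz).1).const_mul b]
      refine Finset.sum_congr rfl fun z hz => ?_
      rw [integral_const_mul]
    have h2 : ∀ p ∈ net, ∑ z ∈ ball p (2 * r + 1), b * ∫ ω, T ω z ∂P ≤
        49 * C * (Real.exp (-g) * Kv) := by
      intro p hp
      have h3 : ∑ z ∈ ball p (2 * r + 1), b * ∫ ω, T ω z ∂P ≤
          ∑ _z ∈ ball p (2 * r + 1), b * Kv :=
        Finset.sum_le_sum fun z hz => mul_le_mul_of_nonneg_left (hTi p hp z hz).2 hb0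
      refine h3.trans ?_
      rw [Finset.sum_const, nsmul_eq_mul]
      have h4 := card_ball p (2 * r + 1)
      have h5 : (((2 * r + 1 : ℕ) : ℤ)) = 2 * (r : ℤ) + 1 := by push_cast; ring
      rw [h5] at h4
      rw [h4]
      have h6 : (1 : ℝ) ≤ r := by exact_mod_cast hr
      have h7 : (2 * ((2 * r + 1 : ℕ) : ℝ) + 1) ^ 2 ≤ 49 * (r : ℝ) ^ 2 := by
        push_cast
        nlinarith
      calc (2 * ((2 * r + 1 : ℕ) : ℝ) + 1) ^ 2 * (b * Kv) ≤ 49 * (r : ℝ) ^ 2 * (b * Kv) :=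
            mul_le_mul_of_nonneg_right h7 (by positivity)
        _ = _ := by
            have key : ∀ e K' : ℝ, 49 * (r : ℝ) ^ 2 * (e * (C / (r : ℝ) ^ 2) * K') =
                49 * C * (e * K') := by
              intro e K'
              field_simp
            exact key _ _
    rw [h1]
    refine (Finset.sum_le_sum h2).trans ?_
    rw [Finset.sum_const, nsmul_eq_mul]
    have h8 : Real.exp (-g) * Kv = (1 / 2) ^ j *
      Real.exp (-g + ∑ k, v k / 2 + ∑ k : Fin j, Real.sqrt (v k.castSucc)) := by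
      rw [hKv, add_assoc, Real.exp_add (-g)]
      ring
    rw [← h8]
    have h9 : (0 : ℝ) ≤ net.card * (Real.exp (-g) * Kv) := by positivity
    nlinarith
  -- the event
  have hev : ∀ ω, (∀ p ∈ net, ∀ z ∈ ball p (2 * r), h ω z = (1 / 4) * ∑ z' ∈ nbrs z, h ω z') →
      ((∀ k : Fin j, ω k.castSucc ∈ {x : EuclideanSpace ℝ (S : Finset (ℤ × ℤ)) |
        ∑ y, W k y * x y ≤ 0}) ∧ ∃ z : (S : Finset (ℤ × ℤ)), (z : ℤ × ℤ) ∈ R ∧
          g + ∑ k, ω k x0 < ∑ k, ω k z) → 1 ≤ Φ ω := by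
    intro ω hω hE
    obtain ⟨hE1, z, hzR, hz⟩ := hE
    obtain ⟨p, hp, hzp⟩ := hcov z hzR
    rw [← hS ω x0, ← hS ω z] at hz
    have hprod : ∏ i : Fin j, (A i).indicator (fun _ => (1 : ℝ)) (ω i.castSucc) = 1 :=
      Finset.prod_eq_one fun i _ => Set.indicator_of_mem (hE1 i) _
    have hTG : ∀ z', T ω z' = Real.exp (h ω z' - h ω x0) := fun z' => by
      simp only [hT]
      rw [hprod, one_mul]
    have hs1 := hsub (fun z' => Real.exp (h ω z' - h ω x0)) z r hr (fun z' => (Real.exp_pos _).le)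
      (fun z' hz' => by
        have hz2 : z' ∈ ball p (2 * r) := ball_sub p z r r (2 * r) hzp (by omega) hz'
        have h1 := exp_nbrs z' (fun z'' => h ω z'' - h ω x0)
        have h2 : (1 / 4 : ℝ) * ∑ z'' ∈ nbrs z', (h ω z'' - h ω x0) = h ω z' - h ω x0 := by
          rw [Finset.sum_sub_distrib, Finset.sum_const, card_nbrs, hω p hp z' hz2]
          simp only [nsmul_eq_mul]
          push_cast
          ring
        rw [h2] at h1
        exact h1)
    have hs2 : ∑ z' ∈ ball z (r + 1), Real.exp (h ω z' - h ω x0) ≤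
        ∑ z' ∈ ball p (2 * r + 1), Real.exp (h ω z' - h ω x0) :=
      Finset.sum_le_sum_of_subset_of_nonneg (ball_sub p z r (r + 1) (2 * r + 1) hzp (by omega))
        fun _ _ _ => (Real.exp_pos _).le
    have hs3 : Real.exp g ≤ C / (r : ℝ) ^ 2 * ∑ z' ∈ ball p (2 * r + 1),
        Real.exp (h ω z' - h ω x0) := by
      calc Real.exp g ≤ Real.exp (h ω z - h ω x0) := Real.exp_le_exp.2 (by linarith)
        _ ≤ _ := hs1
        _ ≤ _ := mul_le_mul_of_nonneg_left hs2 (by positivity)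
    calc (1 : ℝ) = Real.exp (-g) * Real.exp g := by
          rw [← Real.exp_add, neg_add_cancel, Real.exp_zero]
      _ ≤ Real.exp (-g) * (C / (r : ℝ) ^ 2 * ∑ z' ∈ ball p (2 * r + 1),
          Real.exp (h ω z' - h ω x0)) := mul_le_mul_of_nonneg_left hs3 (Real.exp_pos _).le
      _ = ∑ z' ∈ ball p (2 * r + 1), b * T ω z' := by
          rw [← mul_assoc, ← Finset.mul_sum]
          simp_rw [hTG]
          rfl
      _ ≤ Φ ω := Finset.single_le_sum (f := fun p => ∑ z ∈ ball p (2 * r + 1), b * T ω z)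
          (fun p _ => Finset.sum_nonneg fun z _ => mul_nonneg hb0 (hT0 ω z)) hp
  have hmark := mul_meas_ge_le_integral_of_nonneg (μ := P)
    (Filter.Eventually.of_forall hΦ0) hΦi 1
  rw [one_mul] at hmark
  calc P {ω | (∀ k : Fin j, ω k.castSucc ∈ {x : EuclideanSpace ℝ (S : Finset (ℤ × ℤ)) |
        ∑ y, W k y * x y ≤ 0}) ∧ ∃ z : (S : Finset (ℤ × ℤ)), (z : ℤ × ℤ) ∈ R ∧
          g + ∑ k, ω k x0 < ∑ k, ω k z} ≤ P {ω | 1 ≤ Φ ω} := by
        refine measure_mono_ae ?_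
        filter_upwards [harm] with ω hω hE
        exact hev ω hω hE
    _ = ENNReal.ofReal (P.real {ω | 1 ≤ Φ ω}) := (ofReal_measureReal).symm
    _ ≤ _ := ENNReal.ofReal_le_ofReal (hmark.trans hΦle)

end H941.coarse_abs
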