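import Pool.Agent.H941.Defs4
import Pool.Agent.H941.A3
import Pool.Agent.H941.A4
import Pool.Agent.H941.B.coarse_var
import Pool.Agent.H941.C.osc_var

open MeasureTheory ProbabilityTheory

namespace H941.inc_arm

theorem inc_arm_sum (B : Finset (ℤ × ℤ)) (K : ℤ × ℤ → ℤ × ℤ → ℝ) (x z : ℤ × ℤ) (hx : x ∈ B)
    (hz : z ∈ B) : ∑ a ∈ B, ∑ b ∈ B, ((if a = z then (1 : ℝ) else 0) - (if a = x then 1 else 0)) *
      K a b * ((if b = z then (1 : ℝ) else 0) - (if b = x then 1 else 0)) =
      K z z - K z x - K x z + K x x := by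
  have h1 : ∀ a ∈ B, ∑ b ∈ B, ((if a = z then (1 : ℝ) else 0) - (if a = x then 1 else 0)) *
      K a b * ((if b = z then (1 : ℝ) else 0) - (if b = x then 1 else 0)) =
      ((if a = z then (1 : ℝ) else 0) - (if a = x then 1 else 0)) * (K a z - K a x) := by
    intro a _
    simp_rw [mul_sub, Finset.sum_sub_distrib, mul_ite, mul_one, mul_zero, Finset.sum_ite_eq']
    simp [hx, hz]
  rw [Finset.sum_congr rfl h1]
  simp_rw [sub_mul, ite_mul, one_mul, zero_mul, Finset.sum_sub_distrib, Finset.sum_ite_eq']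
  simp [hx, hz]
  ring

theorem inc_arm_mem (x : ℤ × ℤ) (r : ℤ) (z : ℤ × ℤ) :
    z ∈ ball x r ↔ |z.1 - x.1| ≤ r ∧ |z.2 - x.2| ≤ r := by
  unfold ball rect
  rw [Finset.mem_product, Finset.mem_Icc, Finset.mem_Icc, abs_le, abs_le]
  constructor <;> intro h <;> refine ⟨⟨?_, ?_⟩, ⟨?_, ?_⟩⟩ <;> omega

theorem _root_.H941.inc_arm : ∃ C : ℝ, 0 < C ∧ ∀ (V Da : Finset (ℤ × ℤ)) (x z : ℤ × ℤ) (W ρ d : ℕ), 1 ≤ W → 1 ≤ d → d ≤ W → 8 * W ≤ ρ →
    ball x (8 * W) ⊆ V → V ⊆ ball x ρ → Da ⊆ ball x (8 * W) → ball x d ⊆ Da → ball z d ⊆ Da → z ∈ ball x (6 * W) →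
    (1 / 4) * ((green V z z - green Da z z) - 2 * (green V z x - green Da z x) + (green V x x - green Da x x)) ≤
      C * (1 + Real.log (W / d)) := by
  obtain ⟨C1, hC1, hosc⟩ := osc_var
  refine ⟨C1 + 22, by linarith, ?_⟩
  intro V Da x z W ρ d hW hd hdW hρ hSV hVρ hDS hxd hzd hz
  have hWr : (1 : ℝ) ≤ W := by exact_mod_cast hW
  have hdr : (1 : ℝ) ≤ d := by exact_mod_cast hd
  have hdWr : (d : ℝ) ≤ W := by exact_mod_cast hdW
  have hL : 0 ≤ Real.log (W / d) := Real.log_nonneg (by rw [le_div_iff₀ (by linarith)]; linarith)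
  set S := ball x (8 * W) with hS
  -- first part
  have hzρ : z ∈ ball x ρ := by
    rw [inc_arm_mem] at hz ⊢
    constructor <;> omega
  have hxρ : x ∈ ball x ρ := by
    rw [inc_arm_mem]
    simp
  have h1 := green_psd V (ball x ρ) hVρ
    (fun a => (if a = z then (1 : ℝ) else 0) - (if a = x then 1 else 0))
  rw [inc_arm_sum (ball x ρ) (fun a b => green (ball x ρ) a b - green V a b) x z hxρ hzρ] at h1
  have hsym := (green_basic (ball x ρ)).2.2.1
  have hsymV := (green_basic V).2.2.1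
  have h2 := hosc x z ρ (8 * W) (by omega) hρ (by
    have : (3 * (8 * W) / 4 : ℕ) = 6 * W := by omega
    rw [this]
    push_cast
    exact hz)
  have hcast : ball x ((8 * W : ℕ) : ℤ) = S := by
    rw [hS]; push_cast; rfl
  rw [hcast] at h2
  -- second part
  have hmono := (green_basic Da).2.2.2.1 S hDS
  have hcv : ∀ y : ℤ × ℤ, ball y d ⊆ Da → green S y y - green Da y y ≤ 11 * (1 + Real.log (W / d)) := by
    intro y hy
    have h3 := coarse_var S Da hDS (16 * W + 2) (by omega) (by
      intro a ha b hb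
      rw [hS, inc_arm_mem] at ha hb
      obtain ⟨ha1, ha2⟩ := ha
      obtain ⟨hb1, hb2⟩ := hb
      rw [abs_le] at ha1 ha2 hb1 hb2
      push_cast
      constructor <;> rw [abs_lt] <;> constructor <;> omega) y d (by
      intro w h1 h2
      apply hy
      rw [inc_arm_mem]
      exact ⟨h1, h2⟩)
    refine h3.trans ?_
    have hl2 : (0.6931471803 : ℝ) < Real.log 2 := Real.log_two_gt_d9
    rw [div_le_iff₀ (by linarith)]
    have h4 : Real.log (1 + 2 * ((16 * W + 2 : ℕ) : ℝ) ^ 2) ≤ Real.log 649 + 2 * Real.log W := by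
      have : Real.log 649 + 2 * Real.log W = Real.log (649 * (W : ℝ) ^ 2) := by
        rw [Real.log_mul (by norm_num) (by positivity), Real.log_pow]
        push_cast
        ring
      rw [this]
      apply Real.log_le_log (by positivity)
      push_cast
      nlinarith
    have h5 : 2 * Real.log d ≤ Real.log (1 + (d : ℝ) ^ 2) := by
      have : 2 * Real.log d = Real.log ((d : ℝ) ^ 2) := by
        rw [Real.log_pow]
        push_cast
        ring
      rw [this]
      apply Real.log_le_log (by positivity)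
      linarith
    have h6 : Real.log (W / d) = Real.log W - Real.log d :=
      Real.log_div (by positivity) (by positivity)
    have h7 : Real.log 649 ≤ 7 := by
      rw [Real.log_le_iff_le_exp (by norm_num)]
      have h8 : Real.exp 7 = Real.exp 1 ^ 7 := by
        rw [← Real.exp_nat_mul]; norm_num
      have h9 := Real.exp_one_gt_d9
      rw [h8]
      calc (649 : ℝ) ≤ 2.7182818283 ^ 7 := by norm_num
        _ ≤ Real.exp 1 ^ 7 := by
          apply pow_le_pow_left₀ (by norm_num) h9.le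
    nlinarith
  have h3 := hcv x hxd
  have h4 := hcv z hzd
  have h5 := hmono z x
  have h6 := hsym x z
  have h7 := hsymV x z

  rw [h6, h7] at h1
  have h8 : 0 ≤ C1 * Real.log (W / d) := mul_nonneg hC1.le hL
  nlinarith

end H941.inc_arm
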