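import Pool.Agent.H941.Defs4
import Pool.Agent.H941.A3
import Pool.Agent.H941.A4
import Pool.Agent.H941.B.coarse_var
import Pool.Agent.H941.B.gauss_tail
import Pool.Agent.H941.C.arm_abs
import Pool.Agent.H941.C.coarse_abs
import Pool.Agent.H941.C.inc_arm

open MeasureTheory ProbabilityTheory

namespace H941.arm_fixed

theorem mem_place_rect (o : Bool) (t : ℤ × ℤ) (a b c d : ℤ) (z : ℤ × ℤ) :
    z ∈ (rect a b c d).image (place o t) ↔
      (o = true ∧ a ≤ z.1 - t.1 ∧ z.1 - t.1 ≤ b ∧ c ≤ z.2 - t.2 ∧ z.2 - t.2 ≤ d) ∨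
      (o = false ∧ a ≤ z.2 - t.2 ∧ z.2 - t.2 ≤ b ∧ c ≤ z.1 - t.1 ∧ z.1 - t.1 ≤ d) := by
  obtain ⟨z1, z2⟩ := z
  obtain ⟨t1, t2⟩ := t
  constructor
  · intro h
    obtain ⟨v, hv, hvz⟩ := Finset.mem_image.1 h
    simp only [rect, Finset.mem_product, Finset.mem_Icc] at hv
    cases o
    · right
      simp only [place, Prod.mk.injEq] at hvz
      simp at hvz
      simp only [true_and]
      omega
    · left
      simp only [place, Prod.mk.injEq] at hvz
      simp at hvz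
      simp only [true_and]
      omega
  · intro h
    rw [Finset.mem_image]
    rcases h with ⟨ho, h⟩ | ⟨ho, h⟩
    · subst ho
      refine ⟨(z1 - t1, z2 - t2), ?_, ?_⟩
      · simp only [rect, Finset.mem_product, Finset.mem_Icc]
        simp only at h
        omega
      · simp [place]
    · subst ho
      refine ⟨(z2 - t2, z1 - t1), ?_, ?_⟩
      · simp only [rect, Finset.mem_product, Finset.mem_Icc]
        simp only at h
        omega
      · simp [place]

theorem mem_ball (x z : ℤ × ℤ) (r : ℤ) : z ∈ ball x r ↔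
    x.1 - r ≤ z.1 ∧ z.1 ≤ x.1 + r ∧ x.2 - r ≤ z.2 ∧ z.2 ≤ x.2 + r := by
  simp only [ball, rect, Finset.mem_product, Finset.mem_Icc]
  omega

theorem xa_eq (o : Bool) (t : ℤ × ℤ) (W : ℕ) :
    (o = true ∧ (xa o t W).1 = t.1 + 3 * (W : ℤ) ∧ (xa o t W).2 = t.2 + ((W / 2 : ℕ) : ℤ)) ∨
    (o = false ∧ (xa o t W).1 = t.1 + ((W / 2 : ℕ) : ℤ) ∧ (xa o t W).2 = t.2 + 3 * (W : ℤ)) := by
  cases o
  · right; simp [xa, place]
  · left; simp [xa, place]

/-- psd of a difference of Green functions, on a larger index set -/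
theorem psd_diff (S V D : Finset (ℤ × ℤ)) (hVS : V ⊆ S) (hDV : D ⊆ V) :
    (Matrix.of fun x y : (S : Finset (ℤ × ℤ)) => (1 / 4) * (green V x y - green D x y)).PosSemidef := by
  refine Matrix.PosSemidef.of_dotProduct_mulVec_nonneg ?_ ?_
  · ext x y
    simp only [Matrix.conjTranspose_apply, Matrix.of_apply, star_trivial]
    rw [(green_basic V).2.2.1 y x, (green_basic D).2.2.1 y x]
  · intro f
    have h := green_psd D V hDV (extf S (WithLp.toLp 2 f))
    have e : star f ⬝ᵥ ((Matrix.of fun x y : (S : Finset (ℤ × ℤ)) => (1 / 4) * (green V x y - green D x y)).mulVec f)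
        = (1 / 4) * ∑ x ∈ V, ∑ y ∈ V, extf S (WithLp.toLp 2 f) x * (green V x y - green D x y) * extf S (WithLp.toLp 2 f) y := by
      have e1 : ∑ x ∈ V, ∑ y ∈ V, extf S (WithLp.toLp 2 f) x * (green V x y - green D x y) * extf S (WithLp.toLp 2 f) y
          = ∑ x ∈ S, ∑ y ∈ S, extf S (WithLp.toLp 2 f) x * (green V x y - green D x y) * extf S (WithLp.toLp 2 f) y := by
        rw [← Finset.sum_subset hVS]
        · refine Finset.sum_congr rfl fun x hx => ?_
          refine Finset.sum_subset hVS ?_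
          intro y _ hy
          rw [(green_basic V).2.1 x y (Or.inr hy), (green_basic D).2.1 x y (Or.inr fun h => hy (hDV h))]
          ring
        · intro x _ hx
          refine Finset.sum_eq_zero fun y _ => ?_
          rw [(green_basic V).2.1 x y (Or.inl hx), (green_basic D).2.1 x y (Or.inl fun h => hx (hDV h))]
          ring
      rw [e1, ← Finset.sum_coe_sort S]
      simp only [dotProduct, Matrix.mulVec, Matrix.of_apply, Pi.star_apply, star_trivial]
      rw [Finset.mul_sum]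
      refine Finset.sum_congr rfl fun x _ => ?_
      rw [← Finset.sum_coe_sort S, Finset.mul_sum, Finset.mul_sum]
      refine Finset.sum_congr rfl fun y _ => ?_
      have ex : ∀ x : (S : Finset (ℤ × ℤ)), extf S (WithLp.toLp 2 f) x = f x := by
        intro x
        simp [extf]
      rw [ex, ex]
      ring
    rw [e]
    positivity

theorem psd_green (S V : Finset (ℤ × ℤ)) (hVS : V ⊆ S) :
    (Matrix.of fun x y : (S : Finset (ℤ × ℤ)) => (1 / 4) * green V x y).PosSemidef := by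
  have h := psd_diff S V ∅ hVS (Finset.empty_subset _)
  have e : ∀ x y, green ∅ x y = 0 := fun x y => (green_basic ∅).2.1 x y (Or.inl (Finset.notMem_empty _))
  simpa [e] using h

theorem pi_one {E : Type} [MeasurableSpace E] (μ : Measure E) [SigmaFinite μ] (A : Set E) :
    (Measure.pi fun _ : Fin 1 => μ) {ω | ω 0 ∈ A} = μ A := by
  have h := MeasureTheory.measurePreserving_funUnique μ (Fin 1)
  have h2 := h.measure_preimage_equiv A
  rw [← h2]
  congr 1

theorem log_bound1 (N w r : ℕ) (hw : 128 ≤ w) (hN : w ≤ N) (hr : r = w / 2 - 1) :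
    (1 / 4) * ((Real.log (1 + 2 * ((2 * N + 1 : ℕ) : ℝ) ^ 2) - Real.log (1 + (r : ℝ) ^ 2)) / Real.log 2) ≤
      152 * (1 + Real.log (N / w)) := by
  have hw0 : (128 : ℝ) ≤ w := by exact_mod_cast hw
  have hN0 : (w : ℝ) ≤ N := by exact_mod_cast hN
  have hr4 : (w : ℝ) / 4 ≤ r := by
    have : w ≤ 4 * r := by omega
    have : (w : ℝ) ≤ 4 * r := by exact_mod_cast this
    linarith
  have hNw : 1 ≤ (N : ℝ) / w := by rw [le_div_iff₀ (by linarith)]; linarith
  have hL : 0 ≤ Real.log (N / w) := Real.log_nonneg hNw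
  have e1 : Real.log (1 + 2 * ((2 * N + 1 : ℕ) : ℝ) ^ 2) ≤ Real.log (19 * (N : ℝ) ^ 2) := by
    apply Real.log_le_log (by positivity)
    push_cast
    nlinarith
  have e2 : Real.log ((w : ℝ) ^ 2 / 16) ≤ Real.log (1 + (r : ℝ) ^ 2) := by
    apply Real.log_le_log (by positivity)
    nlinarith
  have e3 : Real.log (19 * (N : ℝ) ^ 2) - Real.log ((w : ℝ) ^ 2 / 16) = Real.log 304 + 2 * Real.log (N / w) := by
    have hw1 : (w : ℝ) ≠ 0 := by linarith
    have hN1 : (N : ℝ) ≠ 0 := by linarith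
    rw [Real.log_mul (by norm_num) (by positivity), Real.log_div (by positivity) (by norm_num), Real.log_pow, Real.log_pow,
      Real.log_div hN1 hw1, show (304 : ℝ) = 19 * 16 by norm_num, Real.log_mul (by norm_num) (by norm_num)]
    push_cast
    ring
  have e4 : Real.log 304 ≤ 303 := by
    have := Real.log_le_sub_one_of_pos (show (0 : ℝ) < 304 by norm_num)
    linarith
  have h2 : (1 / 2 : ℝ) ≤ Real.log 2 := by
    have := Real.log_two_gt_d9
    linarith
  have hpos : 0 < Real.log 2 := by linarith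
  have e5 : (Real.log (1 + 2 * ((2 * N + 1 : ℕ) : ℝ) ^ 2) - Real.log (1 + (r : ℝ) ^ 2)) / Real.log 2 ≤
      608 * (1 + Real.log (N / w)) := by
    rw [div_le_iff₀ hpos]
    have : 608 * (1 + Real.log (N / w)) * (1 / 2) ≤ 608 * (1 + Real.log (N / w)) * Real.log 2 :=
      mul_le_mul_of_nonneg_left h2 (by positivity)
    nlinarith
  linarith

theorem log_bound2 (C1 C2 : ℝ) (hC1 : 0 < C1) (hC2 : 1 ≤ C2) (w d : ℕ) (hd : 64 ≤ d) (hw : 2 * d ≤ w) (g : ℝ) (n : ℕ)
    (hn : n ≤ (4 * w / (d / 8) + 1) * ((w - 2 * d) / (d / 8) + 1)) (C : ℝ) (hC : C = 304 + 2560 * C2 * Real.exp (2 * C1) + (2 + C1)) :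
    C2 * n * ((1 / 2) ^ 0 * Real.exp (-(g / 4) + (C1 * (1 + Real.log (w / ((d / 4 : ℕ) : ℝ)))) / 2)) ≤
      C * ((w : ℝ) / d) ^ C * Real.exp (-(g / 4)) := by
  have hd0 : (64 : ℝ) ≤ d := by exact_mod_cast hd
  have hw0 : 2 * (d : ℝ) ≤ w := by exact_mod_cast hw
  have hX : 1 ≤ (w : ℝ) / d := by rw [le_div_iff₀ (by linarith)]; linarith
  set X : ℝ := (w : ℝ) / d with hXdef
  have hXd : X * d = w := by rw [hXdef]; field_simp
  -- bound for n
  have hr : (d : ℝ) / 16 ≤ ((d / 8 : ℕ) : ℝ) := by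
    have : d ≤ 16 * (d / 8) := by omega
    have : (d : ℝ) ≤ 16 * ((d / 8 : ℕ) : ℝ) := by exact_mod_cast this
    linarith
  have hr8 : ((d / 8 : ℕ) : ℝ) ≤ d := by exact_mod_cast (by omega : d / 8 ≤ d)
  have hrpos : 0 < ((d / 8 : ℕ) : ℝ) := by linarith
  have hq : (w : ℝ) / ((d / 8 : ℕ) : ℝ) ≤ 16 * X := by
    rw [div_le_iff₀ hrpos]
    nlinarith
  have hq1 : 1 ≤ (w : ℝ) / ((d / 8 : ℕ) : ℝ) := by
    rw [le_div_iff₀ hrpos]; linarith
  have hn1 : ((4 * w / (d / 8) + 1 : ℕ) : ℝ) ≤ 80 * X := by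
    push_cast
    have h := @Nat.cast_div_le ℝ _ _ _ (4 * w) (d / 8)
    have h2 : ((4 * w : ℕ) : ℝ) / ((d / 8 : ℕ) : ℝ) = 4 * (w / ((d / 8 : ℕ) : ℝ)) := by push_cast; ring
    rw [h2] at h
    push_cast at h
    linarith
  have hn2 : (((w - 2 * d) / (d / 8) + 1 : ℕ) : ℝ) ≤ 32 * X := by
    push_cast
    have h := @Nat.cast_div_le ℝ _ _ _ (w - 2 * d) (d / 8)
    have h3 : ((w - 2 * d : ℕ) : ℝ) ≤ w := by exact_mod_cast Nat.sub_le _ _
    have h2 : ((w - 2 * d : ℕ) : ℝ) / ((d / 8 : ℕ) : ℝ) ≤ w / ((d / 8 : ℕ) : ℝ) := by gcongr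
    push_cast at h h2
    linarith
  have hnX : (n : ℝ) ≤ 2560 * X ^ 2 := by
    have h : (n : ℝ) ≤ ((4 * w / (d / 8) + 1 : ℕ) : ℝ) * (((w - 2 * d) / (d / 8) + 1 : ℕ) : ℝ) := by
      exact_mod_cast hn
    have h2 : ((4 * w / (d / 8) + 1 : ℕ) : ℝ) * (((w - 2 * d) / (d / 8) + 1 : ℕ) : ℝ) ≤ (80 * X) * (32 * X) :=
      mul_le_mul hn1 hn2 (by positivity) (by positivity)
    nlinarith
  -- bound for the exponential
  have h4 : (d : ℝ) / 8 ≤ ((d / 4 : ℕ) : ℝ) := by
    have : d ≤ 8 * (d / 4) := by omega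
    have : (d : ℝ) ≤ 8 * ((d / 4 : ℕ) : ℝ) := by exact_mod_cast this
    linarith
  have h4pos : 0 < ((d / 4 : ℕ) : ℝ) := by linarith
  have hlog : Real.log (w / ((d / 4 : ℕ) : ℝ)) ≤ 3 + Real.log X := by
    have h1 : (w : ℝ) / ((d / 4 : ℕ) : ℝ) ≤ 8 * X := by
      rw [div_le_iff₀ h4pos]
      nlinarith
    have h2 : Real.log (w / ((d / 4 : ℕ) : ℝ)) ≤ Real.log (8 * X) := by
      apply Real.log_le_log _ h1
      apply div_pos _ h4pos
      linarith
    rw [Real.log_mul (by norm_num) (by positivity)] at h2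
    have h8 : Real.log 8 ≤ 3 := by
      rw [show (8 : ℝ) = 2 ^ 3 by norm_num, Real.log_pow]
      have := Real.log_two_lt_d9
      push_cast
      linarith
    linarith
  have hLX : 0 ≤ Real.log X := Real.log_nonneg hX
  have hexp : Real.exp (-(g / 4) + (C1 * (1 + Real.log (w / ((d / 4 : ℕ) : ℝ)))) / 2) ≤
      Real.exp (-(g / 4)) * (Real.exp (2 * C1) * X ^ C1) := by
    rw [Real.rpow_def_of_pos (by linarith), ← Real.exp_add, ← Real.exp_add]
    apply Real.exp_le_exp.2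
    nlinarith [mul_nonneg hC1.le hLX]
  have hXC : X ^ 2 * X ^ C1 ≤ X ^ C := by
    rw [← Real.rpow_natCast, ← Real.rpow_add (by linarith)]
    apply Real.rpow_le_rpow_of_exponent_le hX
    rw [hC]
    have : 0 ≤ 2560 * C2 * Real.exp (2 * C1) := by positivity
    push_cast
    linarith
  have hCge : 2560 * C2 * Real.exp (2 * C1) ≤ C := by rw [hC]; linarith
  have hC0 : 0 ≤ C := by
    have : 0 ≤ 2560 * C2 * Real.exp (2 * C1) := by positivity
    linarith
  calc C2 * n * ((1 / 2) ^ 0 * Real.exp (-(g / 4) + (C1 * (1 + Real.log (w / ((d / 4 : ℕ) : ℝ)))) / 2))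
      = C2 * n * Real.exp (-(g / 4) + (C1 * (1 + Real.log (w / ((d / 4 : ℕ) : ℝ)))) / 2) := by ring
    _ ≤ C2 * (2560 * X ^ 2) * (Real.exp (-(g / 4)) * (Real.exp (2 * C1) * X ^ C1)) := by
        gcongr
    _ = (2560 * C2 * Real.exp (2 * C1)) * (X ^ 2 * X ^ C1) * Real.exp (-(g / 4)) := by ring
    _ ≤ C * X ^ C * Real.exp (-(g / 4)) := by
        gcongr

theorem _root_.H941.arm_fixed : ∃ C : ℝ, 1 ≤ C ∧ ∀ (S V : Finset (ℤ × ℤ)), V ⊆ S → ∀ (N w d : ℕ) (c : ℤ × ℤ) (o : Bool) (t : ℤ × ℤ) (lam g len p2 : ℝ),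
    64 ≤ d → 2 * d ≤ w → 8 * w ≤ N → 0 ≤ p2 → 0 < g → 5 / 4 * g ≤ lam → armAt c w o t →
    ball (xa o t w) (8 * w) ⊆ V → V ⊆ ball (xa o t w) N →
    gf (Dw w) (Dw w) {x | ¬ armOK true (0, 0) w d g len (extf (Dw w) x)} ≤ ENNReal.ofReal p2 →
    gf S V {x | ¬ armOK o t w d lam len (extf S x)} ≤
      ENNReal.ofReal (p2 + Real.exp (-((lam - 5 / 4 * g) ^ 2 / (C * (1 + Real.log (N / w))))) + C * ((w : ℝ) / d) ^ C * Real.exp (-(g / 4))) := by
  obtain ⟨C1, hC1, hinc⟩ := inc_arm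
  obtain ⟨C2, hC2, hcoa⟩ := coarse_abs
  obtain ⟨C, hCdef⟩ : ∃ C : ℝ, C = 304 + 2560 * C2 * Real.exp (2 * C1) + (2 + C1) := ⟨_, rfl⟩
  have hC304 : 304 ≤ C := by
    have : 0 ≤ 2560 * C2 * Real.exp (2 * C1) := by positivity
    rw [hCdef]; linarith
  refine ⟨C, by linarith, ?_⟩
  intro S V hVS N w d c o t lam g len p2 hd hwd hwN hp2 hg hlam _ hball hVN hloc
  have hw128 : 128 ≤ w := by omega
  have hx := xa_eq o t w
  obtain ⟨x0, hx0⟩ : ∃ x0, x0 = xa o t w := ⟨_, rfl⟩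
  rw [← hx0] at hx hball hVN
  obtain ⟨Da, hDa⟩ : ∃ Da, Da = (Dw w).image (place o t) := ⟨_, rfl⟩
  have memDa : ∀ z, z ∈ Da ↔ (o = true ∧ 1 ≤ z.1 - t.1 ∧ z.1 - t.1 ≤ 7 * (w : ℤ) - 1 ∧ 1 ≤ z.2 - t.2 ∧ z.2 - t.2 ≤ (w : ℤ) - 1) ∨
      (o = false ∧ 1 ≤ z.2 - t.2 ∧ z.2 - t.2 ≤ 7 * (w : ℤ) - 1 ∧ 1 ≤ z.1 - t.1 ∧ z.1 - t.1 ≤ (w : ℤ) - 1) := by
    intro z
    rw [hDa, Dw, mem_place_rect]
  obtain ⟨R, hR⟩ : ∃ R, R = (rect w (5 * w) d (w - d)).image (place o t) := ⟨_, rfl⟩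
  have memR : ∀ z, z ∈ R ↔ (o = true ∧ (w : ℤ) ≤ z.1 - t.1 ∧ z.1 - t.1 ≤ 5 * (w : ℤ) ∧ (d : ℤ) ≤ z.2 - t.2 ∧ z.2 - t.2 ≤ (w : ℤ) - d) ∨
      (o = false ∧ (w : ℤ) ≤ z.2 - t.2 ∧ z.2 - t.2 ≤ 5 * (w : ℤ) ∧ (d : ℤ) ≤ z.1 - t.1 ∧ z.1 - t.1 ≤ (w : ℤ) - d) := by
    intro z
    rw [hR, mem_place_rect]
  have hDaball : Da ⊆ ball x0 (8 * w) := by
    intro z hz
    rw [memDa] at hz
    rw [mem_ball]
    omega
  have hDaV : Da ⊆ V := hDaball.trans hball
  have hDaS : Da ⊆ S := hDaV.trans hVS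
  have hx0Da : x0 ∈ Da := by
    rw [memDa]
    rcases hx with ⟨ho, hx⟩ | ⟨ho, hx⟩ <;> simp only [ho, reduceCtorEq, true_and, false_and, or_false, false_or] <;> omega
  have hx0S : x0 ∈ S := hDaS hx0Da
  -- the covariance of the coarse field
  obtain ⟨A, hA⟩ : ∃ A : Matrix (S : Finset (ℤ × ℤ)) (S : Finset (ℤ × ℤ)) ℝ,
      A = Matrix.of fun x y : (S : Finset (ℤ × ℤ)) => (1 / 4) * (green V x y - green Da x y) := ⟨_, rfl⟩
  have hApsd : A.PosSemidef := by
    rw [hA]; exact psd_diff S V Da hVS hDaV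
  have hNw : 1 ≤ (N : ℝ) / w := by
    have h1 : (w : ℝ) ≤ N := by exact_mod_cast (by omega : w ≤ N)
    have h2 : (0 : ℝ) < w := by exact_mod_cast (by omega : 0 < w)
    rw [le_div_iff₀ h2]; linarith
  have hLN : 0 ≤ Real.log (N / w) := Real.log_nonneg hNw
  -- the first term
  have hvar : (1 / 4) * (green V x0 x0 - green Da x0 x0) ≤ 152 * (1 + Real.log (N / w)) := by
    refine le_trans (mul_le_mul_of_nonneg_left (coarse_var V Da hDaV (2 * N + 1) (by omega) ?_ x0 (w / 2 - 1) ?_) (by norm_num))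
      (log_bound1 N w (w / 2 - 1) hw128 (by omega) rfl)
    · intro x hxV y hyV
      have h1 := hVN hxV
      have h2 := hVN hyV
      rw [mem_ball] at h1 h2
      rw [abs_lt, abs_lt]
      push_cast
      omega
    · intro z h1 h2
      rw [abs_le] at h1 h2
      rw [memDa]
      rcases hx with ⟨ho, hx⟩ | ⟨ho, hx⟩ <;> simp only [ho, reduceCtorEq, true_and, false_and, or_false, false_or] <;> omega
  have hterm1 : multivariateGaussian (0 : EuclideanSpace ℝ (S : Finset (ℤ × ℤ))) A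
      {x | lam - 5 / 4 * g ≤ x ⟨x0, hx0S⟩} ≤
      ENNReal.ofReal (Real.exp (-((lam - 5 / 4 * g) ^ 2 / (C * (1 + Real.log (N / w)))))) := by
    have h := gauss_tail A hApsd (Pi.single (⟨x0, hx0S⟩ : ↥S) (1 : ℝ) : ↥S → ℝ) (152 * (1 + Real.log (N / w))) (lam - 5 / 4 * g)
      (by positivity) (by linarith) (by
        refine le_trans (le_of_eq ?_) hvar
        rw [Finset.sum_eq_single ⟨x0, hx0S⟩, Finset.sum_eq_single ⟨x0, hx0S⟩]
        · simp [hA]
        · intro b _ hb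
          simp [Pi.single_eq_of_ne hb]
        · intro h; exact absurd (Finset.mem_univ _) h
        · intro b _ hb
          simp [Pi.single_eq_of_ne hb]
        · intro h; exact absurd (Finset.mem_univ _) h)
    have e : ∀ x : EuclideanSpace ℝ (S : Finset (ℤ × ℤ)), ∑ i, (Pi.single (⟨x0, hx0S⟩ : ↥S) (1 : ℝ) : ↥S → ℝ) i * x i = x ⟨x0, hx0S⟩ := by
      intro x
      rw [Finset.sum_eq_single ⟨x0, hx0S⟩]
      · simp
      · intro b _ hb
        simp [Pi.single_eq_of_ne hb]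
      · intro h; exact absurd (Finset.mem_univ _) h
    simp only [e] at h
    refine h.trans (ENNReal.ofReal_le_ofReal (Real.exp_le_exp.2 (neg_le_neg ?_)))
    apply div_le_div_of_nonneg_left (by positivity) (by positivity)
    nlinarith
  -- the second term
  have hharm : ∀ z ∈ Da, ∀ y, (1 / 4) * (green V z y - green Da z y) =
      (1 / 4) * ∑ z' ∈ nbrs z, (1 / 4) * (green V z' y - green Da z' y) := by
    intro z hz y
    rw [(green_basic V).2.2.2.2.1 z (hDaV hz) y, (green_basic Da).2.2.2.2.1 z hz y]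
    rw [← Finset.mul_sum, Finset.sum_sub_distrib]
    ring
  obtain ⟨net, hnet⟩ : ∃ net : Finset (ℤ × ℤ), net = (Finset.range (4 * w / (d / 8) + 1) ×ˢ Finset.range ((w - 2 * d) / (d / 8) + 1)).image
      (fun ij : ℕ × ℕ => place o t ((w : ℤ) + ij.1 * (d / 8 : ℕ), (d : ℤ) + ij.2 * (d / 8 : ℕ))) := ⟨_, rfl⟩
  have hr8 : 8 ≤ d / 8 := by omega
  have hnetR : ∀ p ∈ net, p ∈ R := by
    intro p hp
    rw [hnet, Finset.mem_image] at hp
    obtain ⟨⟨i, j⟩, hij, rfl⟩ := hp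
    simp only [Finset.mem_product, Finset.mem_range] at hij
    rw [hR, Finset.mem_image]
    refine ⟨_, ?_, rfl⟩
    simp only [rect, Finset.mem_product, Finset.mem_Icc]
    have h1 : i * (d / 8) ≤ 4 * w := by
      calc i * (d / 8) ≤ (4 * w / (d / 8)) * (d / 8) := Nat.mul_le_mul_right _ (by omega)
        _ ≤ 4 * w := Nat.div_mul_le_self _ _
    have h2 : j * (d / 8) ≤ w - 2 * d := by
      calc j * (d / 8) ≤ ((w - 2 * d) / (d / 8)) * (d / 8) := Nat.mul_le_mul_right _ (by omega)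
        _ ≤ w - 2 * d := Nat.div_mul_le_self _ _
    have h1' : (i : ℤ) * ((d / 8 : ℕ) : ℤ) ≤ 4 * (w : ℤ) := by exact_mod_cast h1
    have h2' : (j : ℤ) * ((d / 8 : ℕ) : ℤ) ≤ (w : ℤ) - 2 * d := by
      have : ((j * (d / 8) : ℕ) : ℤ) ≤ ((w - 2 * d : ℕ) : ℤ) := by exact_mod_cast h2
      rw [Nat.cast_sub (by omega)] at this
      push_cast at this ⊢
      linarith
    have h3 : 0 ≤ (i : ℤ) * ((d / 8 : ℕ) : ℤ) := by positivity
    have h4 : 0 ≤ (j : ℤ) * ((d / 8 : ℕ) : ℤ) := by positivity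
    refine ⟨⟨?_, ?_⟩, ?_, ?_⟩ <;> linarith
  have hcard : net.card ≤ (4 * w / (d / 8) + 1) * ((w - 2 * d) / (d / 8) + 1) := by
    rw [hnet]
    refine Finset.card_image_le.trans ?_
    simp
  have hcover : ∀ z ∈ R, ∃ p ∈ net, z ∈ ball p ((d / 8 : ℕ) : ℤ) := by
    intro z hz
    rw [hR, Finset.mem_image] at hz
    obtain ⟨⟨a, b⟩, hab, rfl⟩ := hz
    simp only [rect, Finset.mem_product, Finset.mem_Icc] at hab
    obtain ⟨a', ha'⟩ : ∃ a' : ℕ, a = (w : ℤ) + a' := ⟨(a - w).toNat, by omega⟩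
    obtain ⟨b', hb'⟩ : ∃ b' : ℕ, b = (d : ℤ) + b' := ⟨(b - d).toNat, by omega⟩
    have ha4 : a' ≤ 4 * w := by omega
    have hb4 : b' ≤ w - 2 * d := by omega
    refine ⟨place o t ((w : ℤ) + (a' / (d / 8) : ℕ) * (d / 8 : ℕ), (d : ℤ) + (b' / (d / 8) : ℕ) * (d / 8 : ℕ)), ?_, ?_⟩
    · rw [hnet, Finset.mem_image]
      refine ⟨(a' / (d / 8), b' / (d / 8)), ?_, rfl⟩
      simp only [Finset.mem_product, Finset.mem_range]
      exact ⟨Nat.lt_succ_of_le (Nat.div_le_div_right ha4), Nat.lt_succ_of_le (Nat.div_le_div_right hb4)⟩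
    · rw [mem_ball]
      have h1 := Nat.div_add_mod a' (d / 8)
      have h2 := Nat.mod_lt a' (show 0 < d / 8 by omega)
      have h3 := Nat.div_add_mod b' (d / 8)
      have h4 := Nat.mod_lt b' (show 0 < d / 8 by omega)
      have h5 : ((a' / (d / 8) : ℕ) : ℤ) * ((d / 8 : ℕ) : ℤ) = (a' : ℤ) - ((a' % (d / 8) : ℕ) : ℤ) := by
        have : ((d / 8 * (a' / (d / 8)) + a' % (d / 8) : ℕ) : ℤ) = (a' : ℤ) := by exact_mod_cast h1
        push_cast at this ⊢
        linarith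
      have h6 : ((b' / (d / 8) : ℕ) : ℤ) * ((d / 8 : ℕ) : ℤ) = (b' : ℤ) - ((b' % (d / 8) : ℕ) : ℤ) := by
        have : ((d / 8 * (b' / (d / 8)) + b' % (d / 8) : ℕ) : ℤ) = (b' : ℤ) := by exact_mod_cast h3
        push_cast at this ⊢
        linarith
      rw [h5, h6]
      generalize d / 8 = r at *
      generalize a' % r = ma at *
      generalize b' % r = mb at *
      cases o <;> simp only [place, if_true, Bool.false_eq_true, if_false] <;> omega
  have hnetball : ∀ p ∈ net, ∀ z ∈ ball p (2 * ((d / 8 : ℕ) : ℤ) + 1), z ∈ Da ∧ ball z ((d / 4 : ℕ) : ℤ) ⊆ Da := by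
    intro p hp z hz
    have h1 := hnetR p hp
    rw [memR] at h1
    rw [mem_ball] at hz
    constructor
    · rw [memDa]
      rcases hx with ⟨ho, hx⟩ | ⟨ho, hx⟩ <;> simp only [ho, reduceCtorEq, true_and, false_and, or_false, false_or] at h1 ⊢ <;> omega
    · intro y hy
      rw [mem_ball] at hy
      rw [memDa]
      rcases hx with ⟨ho, hx⟩ | ⟨ho, hx⟩ <;> simp only [ho, reduceCtorEq, true_and, false_and, or_false, false_or] at h1 ⊢ <;> omega
  have hterm2 : (Measure.pi fun _ : Fin (0 + 1) => multivariateGaussian (0 : EuclideanSpace ℝ (S : Finset (ℤ × ℤ))) A)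
        {ω | (∀ k : Fin 0, ω k.castSucc ∈ {x : EuclideanSpace ℝ (S : Finset (ℤ × ℤ)) | ∑ y, (fun (_ : Fin 0) (_ : ↥S) => (0 : ℝ)) k y * x y ≤ 0}) ∧
          ∃ z : (S : Finset (ℤ × ℤ)), (z : ℤ × ℤ) ∈ R ∧ g / 4 + ∑ k, ω k ⟨x0, hx0S⟩ < ∑ k, ω k z} ≤
      ENNReal.ofReal (C * ((w : ℝ) / d) ^ C * Real.exp (-(g / 4))) := by
    refine (hcoa S 0 (fun _ => A) (fun _ => hApsd) (fun _ _ => 0) (fun k => k.elim0)
      (fun x y => (1 / 4) * (green V x y - green Da x y)) ?_ ?_ ?_ ⟨x0, hx0S⟩ R net (d / 8) (by omega) hcover ?_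
      (fun _ => C1 * (1 + Real.log (w / ((d / 4 : ℕ) : ℝ)))) ?_ ?_ (g / 4)).trans ?_
    · intro x y
      simp [hA]
    · intro z hz y
      show (1 / 4) * (green V z y - green Da z y) = 0
      rw [(green_basic V).2.1 z y (Or.inl fun h => hz (hVS h)), (green_basic Da).2.1 z y (Or.inl fun h => hz (hDaS h))]
      ring
    · intro x y
      show (1 / 4) * (green V x y - green Da x y) = (1 / 4) * (green V y x - green Da y x)
      rw [(green_basic V).2.2.1 x y, (green_basic Da).2.2.1 x y]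
    · intro p hp
      refine ⟨fun z hz => hDaS (hnetball p hp z hz).1, ?_⟩
      intro z hz y
      refine hharm z (hnetball p hp z ?_).1 y
      rw [mem_ball] at hz ⊢
      omega
    · intro k
      have h4 : (0 : ℝ) < ((d / 4 : ℕ) : ℝ) := by exact_mod_cast (by omega : 0 < d / 4)
      have h5 : 1 ≤ (w : ℝ) / ((d / 4 : ℕ) : ℝ) := by
        rw [le_div_iff₀ h4]
        have : ((d / 4 : ℕ) : ℝ) ≤ w := by exact_mod_cast (by omega : d / 4 ≤ w)
        linarith
      have := Real.log_nonneg h5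
      positivity
    · intro k p hp z hz
      have h1 := hnetball p hp z hz
      have h2 := hinc V Da x0 z w N (d / 4) (by omega) (by omega) (by omega) hwN hball hVN hDaball ?_ h1.2 ?_
      · refine le_trans (le_of_eq ?_) h2
        simp only [hA, Matrix.of_apply]
        ring
      · intro y hy
        rw [mem_ball] at hy
        rw [memDa]
        rcases hx with ⟨ho, hx⟩ | ⟨ho, hx⟩ <;> simp only [ho, reduceCtorEq, true_and, false_and, or_false, false_or] <;> omega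
      · have h3 := h1.1
        rw [memDa] at h3
        rw [mem_ball]
        rcases hx with ⟨ho, hx⟩ | ⟨ho, hx⟩ <;> simp only [ho, reduceCtorEq, true_and, false_and, or_false, false_or] at h3 <;> omega
    · apply ENNReal.ofReal_le_ofReal
      have h := log_bound2 C1 C2 hC1 hC2 w d hd hwd g net.card hcard C hCdef
      simpa using h
  -- the coarse event
  have hcoarse : multivariateGaussian (0 : EuclideanSpace ℝ (S : Finset (ℤ × ℤ))) A
      {x | ∃ z : (S : Finset (ℤ × ℤ)), (z : ℤ × ℤ) ∈ R ∧ lam - g < x z} ≤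
      ENNReal.ofReal (Real.exp (-((lam - 5 / 4 * g) ^ 2 / (C * (1 + Real.log (N / w))))) + C * ((w : ℝ) / d) ^ C * Real.exp (-(g / 4))) := by
    have h2 : multivariateGaussian (0 : EuclideanSpace ℝ (S : Finset (ℤ × ℤ))) A
        {x | ∃ z : (S : Finset (ℤ × ℤ)), (z : ℤ × ℤ) ∈ R ∧ g / 4 + x ⟨x0, hx0S⟩ < x z} ≤
        ENNReal.ofReal (C * ((w : ℝ) / d) ^ C * Real.exp (-(g / 4))) := by
      rw [← pi_one (multivariateGaussian (0 : EuclideanSpace ℝ (S : Finset (ℤ × ℤ))) A)]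
      refine le_trans (measure_mono ?_) hterm2
      intro ω hω
      refine ⟨fun k => k.elim0, ?_⟩
      simpa using hω
    rw [ENNReal.ofReal_add (by positivity) (by positivity)]
    refine le_trans (le_trans (measure_mono ?_) (measure_union_le _ _)) (add_le_add hterm1 h2)
    intro x hx
    obtain ⟨z, hz, hz2⟩ := hx
    by_cases h : lam - 5 / 4 * g ≤ x ⟨x0, hx0S⟩
    · left; exact h
    · right
      refine ⟨z, hz, ?_⟩
      push Not at h
      linarith
  -- conclusion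
  have hfin := arm_abs S o t w d lam g len p2 (by omega) hwd hp2 (by rw [← hDa]; exact hDaS) hloc 0
    (fun _ => Matrix.of fun x y : (S : Finset (ℤ × ℤ)) => (1 / 4) * green V x y) (fun _ => psd_green S V hVS) A hApsd
    (by
      rw [hA, ← hDa]
      ext x y
      simp only [Matrix.add_apply, Matrix.of_apply]
      ring) (fun _ => Set.univ) (fun _ => MeasurableSet.univ) (fun k => k.elim0)
    (Real.exp (-((lam - 5 / 4 * g) ^ 2 / (C * (1 + Real.log (N / w))))) + C * ((w : ℝ) / d) ^ C * Real.exp (-(g / 4)))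
    (by positivity) (by
      have e : (fun k : Fin (0 + 1) => multivariateGaussian (0 : EuclideanSpace ℝ (S : Finset (ℤ × ℤ)))
          (if k = Fin.last 0 then A else (fun _ => Matrix.of fun x y : (S : Finset (ℤ × ℤ)) => (1 / 4) * green V x y) k)) =
          fun _ : Fin (0 + 1) => multivariateGaussian (0 : EuclideanSpace ℝ (S : Finset (ℤ × ℤ))) A := by
        funext k
        rw [if_pos (by fin_cases k; rfl)]
      rw [e]
      refine le_trans (le_trans (measure_mono ?_) (le_of_eq (pi_one (multivariateGaussian (0 : EuclideanSpace ℝ (S : Finset (ℤ × ℤ))) A) _))) hcoarse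
      intro ω hω
      obtain ⟨_, z, hz, hz2⟩ := hω
      refine ⟨z, ?_, ?_⟩
      · rw [hR]; exact hz
      · simpa using hz2)
  rw [gf, ← pi_one (multivariateGaussian (0 : EuclideanSpace ℝ (S : Finset (ℤ × ℤ))) _)]
  refine le_trans (measure_mono ?_) (hfin.trans (ENNReal.ofReal_le_ofReal (le_of_eq ?_)))
  · intro ω hω
    refine ⟨fun k => k.elim0, ?_⟩
    simpa using hω
  · ring

end H941.arm_fixed
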