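import Pool.Agent.H941.Defs4
import Pool.Agent.H941.B.circuit_lemma
import Pool.Agent.H941.B.hull_lemma

open MeasureTheory ProbabilityTheory

namespace H941.det_annulus

theorem da_h (x y : ℤ) (n : ℕ) : ∀ x' : ℤ, x' = x + n → ∃ p : grid.Walk (x, y) (x', y),
    ∀ z ∈ p.support, z.2 = y ∧ x ≤ z.1 ∧ z.1 ≤ x' := by
  induction n with
  | zero =>
    intro x' hx'
    have : x' = x := by simpa using hx'
    subst this
    refine ⟨SimpleGraph.Walk.nil, ?_⟩
    intro z hz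
    simp only [SimpleGraph.Walk.support_nil, List.mem_singleton] at hz
    subst hz
    exact ⟨rfl, le_rfl, le_rfl⟩
  | succ n ih =>
    intro x' hx'
    obtain ⟨p, hp⟩ := ih (x + n) rfl
    have hadj : grid.Adj (x + n, y) (x', y) := by
      show |(x + n) - x'| + |y - y| = 1
      rw [hx']
      push_cast
      have : x + (n : ℤ) - (x + (n + 1)) = -1 := by ring
      rw [this]
      simp
    refine ⟨p.concat hadj, ?_⟩
    intro z hz
    rw [SimpleGraph.Walk.support_concat, List.mem_append,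
      List.mem_singleton] at hz
    rcases hz with hz | hz
    · obtain ⟨h1, h2, h3⟩ := hp z hz
      exact ⟨h1, h2, by rw [hx']; push_cast; linarith⟩
    · subst hz
      refine ⟨rfl, ?_, le_rfl⟩
      rw [hx']
      push_cast
      have : (0 : ℤ) ≤ n := Int.natCast_nonneg n
      show x ≤ x + (n + 1)
      linarith

theorem da_v (x y : ℤ) (n : ℕ) : ∀ y' : ℤ, y' = y + n → ∃ p : grid.Walk (x, y) (x, y'),
    ∀ z ∈ p.support, z.1 = x ∧ y ≤ z.2 ∧ z.2 ≤ y' := by
  induction n with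
  | zero =>
    intro y' hy'
    have : y' = y := by simpa using hy'
    subst this
    refine ⟨SimpleGraph.Walk.nil, ?_⟩
    intro z hz
    simp only [SimpleGraph.Walk.support_nil, List.mem_singleton] at hz
    subst hz
    exact ⟨rfl, le_rfl, le_rfl⟩
  | succ n ih =>
    intro y' hy'
    obtain ⟨p, hp⟩ := ih (y + n) rfl
    have hadj : grid.Adj (x, y + n) (x, y') := by
      show |x - x| + |(y + n) - y'| = 1
      rw [hy']
      push_cast
      have : y + (n : ℤ) - (y + (n + 1)) = -1 := by ring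
      rw [this]
      simp
    refine ⟨p.concat hadj, ?_⟩
    intro z hz
    rw [SimpleGraph.Walk.support_concat, List.mem_append,
      List.mem_singleton] at hz
    rcases hz with hz | hz
    · obtain ⟨h1, h2, h3⟩ := hp z hz
      exact ⟨h1, h2, by rw [hy']; push_cast; linarith⟩
    · subst hz
      refine ⟨rfl, ?_, le_rfl⟩
      rw [hy']
      push_cast
      have : (0 : ℤ) ≤ n := Int.natCast_nonneg n
      show y ≤ y + (n + 1)
      linarith

theorem da_hle {x x' : ℤ} (y : ℤ) (h : x ≤ x') : ∃ p : grid.Walk (x, y) (x', y),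
    ∀ z ∈ p.support, z.2 = y ∧ x ≤ z.1 ∧ z.1 ≤ x' :=
  da_h x y (x' - x).toNat x' (by rw [Int.toNat_of_nonneg (by linarith)]; ring)

theorem da_vle {y y' : ℤ} (x : ℤ) (h : y ≤ y') : ∃ p : grid.Walk (x, y) (x, y'),
    ∀ z ∈ p.support, z.1 = x ∧ y ≤ z.2 ∧ z.2 ≤ y' :=
  da_v x y (y' - y).toNat y' (by rw [Int.toNat_of_nonneg (by linarith)]; ring)

theorem da_conn : grid.Connected := by
  have h1 : ∀ x x' y : ℤ, grid.Reachable (x, y) (x', y) := by
    intro x x' y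
    rcases le_total x x' with h | h
    · obtain ⟨p, -⟩ := da_hle y h
      exact ⟨p⟩
    · obtain ⟨p, -⟩ := da_hle y h
      exact ⟨p.reverse⟩
  have h2 : ∀ x y y' : ℤ, grid.Reachable (x, y) (x, y') := by
    intro x y y'
    rcases le_total y y' with h | h
    · obtain ⟨p, -⟩ := da_vle x h
      exact ⟨p⟩
    · obtain ⟨p, -⟩ := da_vle x h
      exact ⟨p.reverse⟩
  have h3 : grid.Preconnected := by
    rintro ⟨x, y⟩ ⟨x', y'⟩
    exact (h1 x x' y).trans (h2 x' y y')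
  exact ⟨h3⟩

theorem da_box {M : ℕ} {z : ℤ × ℤ} : z ∈ box M ↔
    (-(((M - 1) / 2 : ℕ) : ℤ) ≤ z.1 ∧ z.1 ≤ ((M / 2 : ℕ) : ℤ)) ∧
      (-(((M - 1) / 2 : ℕ) : ℤ) ≤ z.2 ∧ z.2 ≤ ((M / 2 : ℕ) : ℤ)) := by
  unfold box
  rw [Finset.mem_product, Finset.mem_Icc, Finset.mem_Icc]

theorem da_mono {a b : ℕ} (h : a ≤ b) : box a ⊆ box b := by
  intro z hz
  rw [da_box] at hz ⊢
  omega

theorem da_bdry {M : ℕ} {v : ℤ × ℤ} (h : v ∈ box M) (u : ℤ × ℤ) (ha : grid.Adj v u)
    (hu : u ∉ box M) : v ∈ innerBdry M := by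
  classical
  unfold innerBdry
  simp only [Finset.mem_filter]
  exact ⟨h, u, ha, hu⟩

/-- first exit -/
theorem da_exit (b : ℕ) {x y : ℤ × ℤ} (p : grid.Walk x y) : x ∈ box b → y ∉ box b →
    ∃ (v : ℤ × ℤ) (q : grid.Walk x v), v ∈ innerBdry b ∧
      (∀ z ∈ q.support, z ∈ box b ∧ z ∈ p.support) ∧ q.support.length ≤ p.support.length := by
  induction p with
  | nil =>
    intro h1 h2
    exact absurd h1 h2
  | @cons x x1 y h p ih =>
    intro h1 h2
    by_cases h3 : x1 ∈ box b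
    · obtain ⟨v, q, hv, hq, hl⟩ := ih h3 h2
      refine ⟨v, SimpleGraph.Walk.cons h q, hv, ?_, ?_⟩
      · intro z hz
        rw [SimpleGraph.Walk.support_cons, List.mem_cons] at hz
        rw [SimpleGraph.Walk.support_cons, List.mem_cons]
        rcases hz with rfl | hz
        · exact ⟨h1, Or.inl rfl⟩
        · exact ⟨(hq z hz).1, Or.inr (hq z hz).2⟩
      · rw [SimpleGraph.Walk.support_cons, SimpleGraph.Walk.support_cons, List.length_cons,
          List.length_cons]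
        omega
    · refine ⟨x, SimpleGraph.Walk.nil, da_bdry h1 x1 h h3, ?_, ?_⟩
      · intro z hz
        simp only [SimpleGraph.Walk.support_nil, List.mem_singleton] at hz
        subst hz
        exact ⟨h1, SimpleGraph.Walk.start_mem_support _⟩
      · rw [SimpleGraph.Walk.support_cons]
        simp

/-- exit from the small box -/
theorem da_start (a : ℕ) {x v : ℤ × ℤ} (q : grid.Walk x v) : x ∈ box a → v ∉ box a →
    ∃ (u : ℤ × ℤ) (r : grid.Walk u v), u ∈ innerBdry a ∧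
      (∀ z ∈ r.support, z ∈ q.support) ∧ r.support.length ≤ q.support.length := by
  induction q with
  | nil =>
    intro h1 h2
    exact absurd h1 h2
  | @cons x x1 y h p ih =>
    intro h1 h2
    by_cases h3 : x1 ∈ box a
    · obtain ⟨u, r, hu, hr, hl⟩ := ih h3 h2
      refine ⟨u, r, hu, ?_, ?_⟩
      · intro z hz
        rw [SimpleGraph.Walk.support_cons, List.mem_cons]
        exact Or.inr (hr z hz)
      · rw [SimpleGraph.Walk.support_cons, List.length_cons]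
        omega
    · exact ⟨x, SimpleGraph.Walk.cons h p, da_bdry h1 x1 h h3, fun z hz => hz, le_rfl⟩

theorem da_extract {a b : ℕ} (hab : a ≤ b) {x y : ℤ × ℤ} (p : grid.Walk x y) (hx : x ∈ box a)
    (hy : y ∉ box b) : ∃ (u v : ℤ × ℤ) (q : grid.Walk u v), u ∈ innerBdry a ∧ v ∈ innerBdry b ∧
      (∀ z ∈ q.support, z ∈ box b ∧ z ∈ p.support) ∧ q.support.length ≤ p.support.length := by
  obtain ⟨v, q, hv, hq, hl⟩ := da_exit b p (da_mono hab hx) hy
  by_cases h : v ∈ box a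
  · have hv2 := hv
    unfold innerBdry at hv2
    simp only [Finset.mem_filter] at hv2
    obtain ⟨hvb, u, hu1, hu2⟩ := hv2
    refine ⟨v, v, SimpleGraph.Walk.nil, da_bdry h u hu1 fun h3 => hu2 (da_mono hab h3), hv, ?_, ?_⟩
    · intro z hz
      simp only [SimpleGraph.Walk.support_nil, List.mem_singleton] at hz
      subst hz
      exact hq _ (SimpleGraph.Walk.end_mem_support _)
    · refine le_trans ?_ hl
      rw [SimpleGraph.Walk.support_nil, List.length_singleton]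
      exact List.length_pos_of_mem (SimpleGraph.Walk.end_mem_support q)
  · obtain ⟨u, r, hu, hr, hl2⟩ := da_start a q hx h
    exact ⟨u, v, r, hu, hv, fun z hz => hq z (hr z hz), hl2.trans hl⟩

/-- a short path in a connected subset of a finite set -/
theorem da_path (S : Set (ℤ × ℤ)) (hS : (grid.induce S).Connected) (T : Finset (ℤ × ℤ))
    (hT : ∀ z ∈ S, z ∈ T) {x y : ℤ × ℤ} (hx : x ∈ S) (hy : y ∈ S) :
    ∃ p : grid.Walk x y, (∀ z ∈ p.support, z ∈ S) ∧ p.support.length ≤ T.card := by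
  obtain ⟨p, hp⟩ := (hS.preconnected ⟨x, hx⟩ ⟨y, hy⟩).exists_isPath
  let f : (grid.induce S) →g grid := (SimpleGraph.Embedding.induce S).toHom
  have hf : Function.Injective f := (SimpleGraph.Embedding.induce (G := grid) S).injective
  have hmem : ∀ z ∈ (p.map f).support, z ∈ S := by
    intro z hz
    rw [SimpleGraph.Walk.support_map, List.mem_map] at hz
    obtain ⟨w, -, rfl⟩ := hz
    exact w.2
  refine ⟨p.map f, hmem, ?_⟩
  have hnd : (p.map f).support.Nodup := by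
    rw [SimpleGraph.Walk.support_map]
    exact hp.support_nodup.map hf
  have h1 := List.toFinset_card_of_nodup hnd
  have h2 : (p.map f).support.toFinset.card ≤ T.card := by
    apply Finset.card_le_card
    intro z hz
    exact hT z (hmem z (List.mem_toFinset.1 hz))
  exact le_of_eq_of_le h1.symm h2

theorem _root_.H941.det_annulus (a b w m d : ℕ) (lam len : ℝ) (f : ℤ × ℤ → ℝ) (ha : 1 ≤ a) (hab : a ≤ b) (hd : 1 ≤ d) (hw : 2 * d ≤ w)
    (hL : 4 * w + 20 ≤ a) (hR : b / 2 + 5 ≤ m * w) (hlen : 0 ≤ len)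
    (hc : ∀ j ≤ m, circuitOK (((j * w : ℕ) : ℤ), 0) w d lam len f) :
    ∃ (u v : ℤ × ℤ) (p : grid.Walk u v), u ∈ innerBdry a ∧ v ∈ innerBdry b ∧
      (∀ z ∈ p.support, z ∈ box b ∧ f z ≤ lam) ∧ (p.support.length : ℝ) ≤ 4 * (m + 1) * len := by
  have hw1 : 2 ≤ w := by omega
  have hex : ∀ j : ℕ, ∃ H : Finset (ℤ × ℤ), j ≤ m →
      (grid.induce (H : Set (ℤ × ℤ))).Connected ∧ (∀ z ∈ H, f z ≤ lam) ∧
      (∀ z ∈ H, |z.1 - ((j * w : ℕ) : ℤ)| ≤ 2 * (w : ℤ) ∧ |z.2 - 0| ≤ 2 * (w : ℤ)) ∧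
      (H.card : ℝ) ≤ 4 * len ∧
      (∀ a b : ℤ × ℤ, |a.1 - ((j * w : ℕ) : ℤ)| ≤ w → |a.2 - 0| ≤ w →
        (2 * (w : ℤ) ≤ |b.1 - ((j * w : ℕ) : ℤ)| ∨ 2 * (w : ℤ) ≤ |b.2 - 0|) →
        ∀ r : grid.Walk a b, ∃ z ∈ r.support, z ∈ H) := by
    intro j
    by_cases hj : j ≤ m
    · obtain ⟨H, h⟩ := circuit_lemma (((j * w : ℕ) : ℤ), 0) w d hd hw lam len f (hc j hj)
      exact ⟨H, fun _ => h⟩
    · exact ⟨∅, fun h => absurd h hj⟩
  choose Hs hHs using hex
  -- the segment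
  obtain ⟨γ, hγ⟩ := da_hle (x := 0) (x' := ((m * w : ℕ) : ℤ)) 0 (Int.natCast_nonneg _)
  have hj : ∀ v ∈ γ.support, v.1.toNat / w ≤ m ∧
      |v.1 - ((v.1.toNat / w * w : ℕ) : ℤ)| ≤ w ∧ |v.2 - 0| ≤ w := by
    intro v hv
    obtain ⟨h1, h2, h3⟩ := hγ v hv
    obtain ⟨k, hk⟩ := Int.eq_ofNat_of_zero_le h2
    have hk2 : v.1.toNat = k := by rw [hk]; rfl
    rw [hk2, hk, h1]
    have h4 : k ≤ m * w := by
      rw [hk] at h3
      exact_mod_cast h3
    have h5 : k / w ≤ m := by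
      rw [Nat.div_le_iff_le_mul_add_pred (by omega)]
      nlinarith
    have h6 : k / w * w + k % w = k := Nat.div_add_mod' k w
    have h7 : k % w < w := Nat.mod_lt _ (by omega)
    refine ⟨h5, ?_, by simp⟩
    rw [abs_le]
    generalize k / w * w = q at *
    constructor <;> omega
  let w0 : ℤ × ℤ := (-(3 * (w : ℤ)), 0)
  obtain ⟨S, hSc, hSH, hSsep⟩ := hull_lemma grid da_conn w0 γ
    (fun v => (Hs (v.1.toNat / w) : Set (ℤ × ℤ)))
    (fun v hv => (hHs _ (hj v hv).1).1)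
    (fun v hv r => by
      obtain ⟨h1, h2, h3⟩ := hj v hv
      refine (hHs _ h1).2.2.2.2 v w0 h2 h3 (Or.inl ?_) r
      have h4 : (0 : ℤ) ≤ ((v.1.toNat / w * w : ℕ) : ℤ) := Int.natCast_nonneg _
      show 2 * (w : ℤ) ≤ |-(3 * (w : ℤ)) - ((v.1.toNat / w * w : ℕ) : ℤ)|
      rw [abs_of_nonpos (by linarith [Int.natCast_nonneg w])]
      linarith [Int.natCast_nonneg w])
  have hS2 : ∀ z ∈ S, (f z ≤ lam ∧ z ∈ (Finset.range (m + 1)).biUnion Hs) ∧
      (-(2 * (w : ℤ)) ≤ z.1 ∧ z.1 ≤ ((m * w : ℕ) : ℤ) + 2 * w) ∧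
      (-(2 * (w : ℤ)) ≤ z.2 ∧ z.2 ≤ 2 * w) := by
    intro z hz
    obtain ⟨v, hv, hzv⟩ := hSH z hz
    obtain ⟨h1, h2, h3⟩ := hj v hv
    have h4 := hHs _ h1
    have hzv' : z ∈ Hs (v.1.toNat / w) := hzv
    obtain ⟨h5, h6⟩ := h4.2.2.1 z hzv'
    rw [abs_le] at h5 h6
    have h7 : (0 : ℤ) ≤ ((v.1.toNat / w * w : ℕ) : ℤ) := Int.natCast_nonneg _
    have h8 : ((v.1.toNat / w * w : ℕ) : ℤ) ≤ ((m * w : ℕ) : ℤ) := by
      exact_mod_cast Nat.mul_le_mul_right w h1
    refine ⟨⟨h4.2.1 z hzv', ?_⟩, ⟨by linarith [h5.1], by linarith [h5.2]⟩, ?_, ?_⟩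
    · rw [Finset.mem_biUnion]
      exact ⟨_, Finset.mem_range.2 (by omega), hzv'⟩
    · linarith [h6.1]
    · linarith [h6.2]
  -- a point of `S` in the small box
  have hstart : ∃ z ∈ S, z ∈ box a := by
    obtain ⟨p, hp⟩ := da_hle (x := -(3 * (w : ℤ))) (x' := 0) 0 (by omega)
    obtain ⟨z, hz, hzS⟩ := hSsep (0, 0) (SimpleGraph.Walk.start_mem_support γ) p.reverse
    rw [SimpleGraph.Walk.support_reverse, List.mem_reverse] at hz
    obtain ⟨h1, h2, h3⟩ := hp z hz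
    obtain ⟨-, ⟨h4, -⟩, -⟩ := hS2 z hzS
    refine ⟨z, hzS, ?_⟩
    rw [da_box]
    refine ⟨⟨?_, ?_⟩, ?_, ?_⟩ <;> omega
  -- a point of `S` outside the large box
  have hend : ∃ z ∈ S, z ∉ box b := by
    obtain ⟨p1, hp1⟩ := da_hle (x := ((m * w : ℕ) : ℤ)) (x' := ((m * w : ℕ) : ℤ) + 3 * w) 0
      (by omega)
    obtain ⟨p2, hp2⟩ := da_vle (y := 0) (y' := 2 * (w : ℤ) + 1) (((m * w : ℕ) : ℤ) + 3 * w)
      (by omega)
    obtain ⟨p3, hp3⟩ := da_hle (x := -(3 * (w : ℤ))) (x' := ((m * w : ℕ) : ℤ) + 3 * w)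
      (2 * (w : ℤ) + 1) (by linarith [Int.natCast_nonneg (m * w), Int.natCast_nonneg w])
    obtain ⟨p4, hp4⟩ := da_vle (y := 0) (y' := 2 * (w : ℤ) + 1) (-(3 * (w : ℤ))) (by omega)
    obtain ⟨z, hz, hzS⟩ := hSsep _ (SimpleGraph.Walk.end_mem_support γ)
      (((p1.append p2).append p3.reverse).append p4.reverse)
    obtain ⟨-, ⟨h4, h5⟩, h6, h7⟩ := hS2 z hzS
    refine ⟨z, hzS, ?_⟩
    rw [SimpleGraph.Walk.mem_support_append_iff, SimpleGraph.Walk.mem_support_append_iff,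
      SimpleGraph.Walk.mem_support_append_iff, SimpleGraph.Walk.support_reverse,
      SimpleGraph.Walk.support_reverse, List.mem_reverse, List.mem_reverse] at hz
    rw [da_box]
    rcases hz with ((hz | hz) | hz) | hz
    · obtain ⟨-, h9, -⟩ := hp1 z hz
      have h10 : ((b / 2 + 5 : ℕ) : ℤ) ≤ ((m * w : ℕ) : ℤ) := by exact_mod_cast hR
      push_cast at h10 h9 ⊢
      omega
    · obtain ⟨h9, -, -⟩ := hp2 z hz
      exfalso
      omega
    · obtain ⟨h9, -, -⟩ := hp3 z hz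
      exfalso
      omega
    · obtain ⟨h9, -, -⟩ := hp4 z hz
      exfalso
      omega
  obtain ⟨z1, hz1S, hz1⟩ := hstart
  obtain ⟨z2, hz2S, hz2⟩ := hend
  obtain ⟨p, hpS, hpl⟩ := da_path S hSc ((Finset.range (m + 1)).biUnion Hs)
    (fun z hz => (hS2 z hz).1.2) hz1S hz2S
  obtain ⟨u, v, q, hu, hv, hq, hql⟩ := da_extract hab p hz1 hz2
  refine ⟨u, v, q, hu, hv, fun z hz => ⟨(hq z hz).1, (hS2 z (hpS z (hq z hz).2)).1.1⟩, ?_⟩
  have hcard : (((Finset.range (m + 1)).biUnion Hs).card : ℝ) ≤ 4 * (m + 1) * len := by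
    have h1 : ((Finset.range (m + 1)).biUnion Hs).card ≤ ∑ j ∈ Finset.range (m + 1), (Hs j).card :=
      Finset.card_biUnion_le
    have h2 : (((Finset.range (m + 1)).biUnion Hs).card : ℝ) ≤
        ∑ j ∈ Finset.range (m + 1), ((Hs j).card : ℝ) := by exact_mod_cast h1
    have h3 : ∑ j ∈ Finset.range (m + 1), ((Hs j).card : ℝ) ≤
        ∑ j ∈ Finset.range (m + 1), 4 * len :=
      Finset.sum_le_sum fun j hjm => (hHs j (by rw [Finset.mem_range] at hjm; omega)).2.2.2.1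
    rw [Finset.sum_const, Finset.card_range, nsmul_eq_mul] at h3
    push_cast at h3
    linarith
  have h4 : (q.support.length : ℝ) ≤ (((Finset.range (m + 1)).biUnion Hs).card : ℝ) := by
    exact_mod_cast hql.trans hpl
  exact h4.trans hcard

end H941.det_annulus
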