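import Pool.Agent.H941.Defs4
import Pool.Agent.H941.A3
import Pool.Agent.H941.A4
import Pool.Agent.H941.A5
import Pool.Agent.H941.B.gauss_tail

open MeasureTheory ProbabilityTheory

namespace H941.hyp_base

theorem F12_walk (n : ℕ) : ∀ (a b h : ℤ), b = a + n → ∃ p : grid.Walk (a, h) (b, h),
    p.support.length = n + 1 ∧ ∀ z ∈ p.support, z.2 = h ∧ a ≤ z.1 ∧ z.1 ≤ b := by
  induction n with
  | zero =>
    intro a b h hb
    obtain rfl : b = a := by simpa using hb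
    refine ⟨SimpleGraph.Walk.nil, by simp, ?_⟩
    intro z hz
    rw [SimpleGraph.Walk.support_nil, List.mem_singleton] at hz
    subst hz
    exact ⟨rfl, le_refl _, le_refl _⟩
  | succ n ih =>
    intro a b h hb
    obtain ⟨p, hp1, hp2⟩ := ih (a + 1) b h (by push_cast at hb; linarith)
    have hadj : grid.Adj (a, h) (a + 1, h) := by
      show |a - (a + 1)| + |h - h| = 1
      simp
    refine ⟨SimpleGraph.Walk.cons hadj p, ?_, ?_⟩
    · rw [SimpleGraph.Walk.support_cons, List.length_cons, hp1]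
    · intro z hz
      rw [SimpleGraph.Walk.support_cons, List.mem_cons] at hz
      rcases hz with rfl | hz
      · refine ⟨rfl, le_refl _, ?_⟩
        show a ≤ b
        push_cast at hb
        have : (0 : ℤ) ≤ (n : ℤ) := Int.natCast_nonneg n
        linarith
      · obtain ⟨h1, h2, h3⟩ := hp2 z hz
        exact ⟨h1, by linarith, h3⟩

theorem F12_pow (n : ℕ) (hn : 200 ≤ n) : 2 ^ 46 * n ^ 16 ≤ 2 ^ n := by
  induction n, hn using Nat.le_induction with
  | base => norm_num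
  | succ n hn ih =>
    have h1 : 200 * (n + 1) ≤ 201 * n := by omega
    have h2 : (200 * (n + 1)) ^ 16 ≤ (201 * n) ^ 16 := Nat.pow_le_pow_left h1 16
    rw [mul_pow, mul_pow] at h2
    have h3 : (201 : ℕ) ^ 16 ≤ 2 * 200 ^ 16 := by norm_num
    have h4 : 200 ^ 16 * (n + 1) ^ 16 ≤ 200 ^ 16 * (2 * n ^ 16) := by
      calc 200 ^ 16 * (n + 1) ^ 16 ≤ 201 ^ 16 * n ^ 16 := h2
        _ ≤ 2 * 200 ^ 16 * n ^ 16 := Nat.mul_le_mul_right _ h3
        _ = 200 ^ 16 * (2 * n ^ 16) := by ring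
    have h5 : (n + 1) ^ 16 ≤ 2 * n ^ 16 := Nat.le_of_mul_le_mul_left h4 (by norm_num)
    calc 2 ^ 46 * (n + 1) ^ 16 ≤ 2 ^ 46 * (2 * n ^ 16) := Nat.mul_le_mul_left _ h5
      _ = 2 * (2 ^ 46 * n ^ 16) := by ring
      _ ≤ 2 * 2 ^ n := Nat.mul_le_mul_left _ ih
      _ = 2 ^ (n + 1) := by ring

theorem F12_w (u w : ℕ) (hu : 2 ^ 100 ≤ u) (hw : 128 ≤ w) (h : w < 64 ^ 5 * (Nat.log 2 w + u) ^ 16) :
    w ≤ 2 ^ 46 * u ^ 16 := by
  have h1 : 2 ^ Nat.log 2 w ≤ w := Nat.pow_log_le_self 2 (by omega)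
  have hL : Nat.log 2 w ≤ u := by
    by_contra hcon
    push Not at hcon
    have h2 : (Nat.log 2 w + u) ^ 16 ≤ (2 * Nat.log 2 w) ^ 16 := Nat.pow_le_pow_left (by omega) 16
    have h3 := F12_pow (Nat.log 2 w) (by
      have : 200 ≤ 2 ^ 100 := by norm_num
      omega)
    have h4 : 64 ^ 5 * (Nat.log 2 w + u) ^ 16 ≤ 2 ^ 46 * (Nat.log 2 w) ^ 16 := by
      calc 64 ^ 5 * (Nat.log 2 w + u) ^ 16 ≤ 64 ^ 5 * (2 * Nat.log 2 w) ^ 16 :=
            Nat.mul_le_mul_left _ h2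
        _ = 2 ^ 46 * (Nat.log 2 w) ^ 16 := by rw [mul_pow]; ring
    omega
  have h2 : (Nat.log 2 w + u) ^ 16 ≤ (2 * u) ^ 16 := Nat.pow_le_pow_left (by omega) 16
  have h4 : 64 ^ 5 * (Nat.log 2 w + u) ^ 16 ≤ 2 ^ 46 * u ^ 16 := by
    calc 64 ^ 5 * (Nat.log 2 w + u) ^ 16 ≤ 64 ^ 5 * (2 * u) ^ 16 := Nat.mul_le_mul_left _ h2
      _ = 2 ^ 46 * u ^ 16 := by rw [mul_pow]; ring
  exact h.le.trans h4

theorem F12_log (U : ℝ) (hU : 1 ≤ U) : Real.log U ^ 2 ≤ 4 * U := by
  have h0 : 0 ≤ Real.log U := Real.log_nonneg hU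
  have hs : 0 < Real.sqrt U := Real.sqrt_pos.2 (by linarith)
  have h1 : Real.log U = 2 * Real.log (Real.sqrt U) := by
    rw [Real.log_sqrt (by linarith)]
    ring
  have h2 := Real.log_le_sub_one_of_pos hs
  have h3 : Real.log U ≤ 2 * Real.sqrt U := by linarith
  calc Real.log U ^ 2 ≤ (2 * Real.sqrt U) ^ 2 := pow_le_pow_left₀ h0 h3 2
    _ = 4 * U := by rw [mul_pow, Real.sq_sqrt (by linarith)]; norm_num

theorem F12_psd (D : Finset (ℤ × ℤ)) : (Matrix.of fun x y : (D : Finset (ℤ × ℤ)) =>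
    (1 / 4) * green D x y).PosSemidef := by
  obtain ⟨-, h0, hs, -, -, -⟩ := green_basic D
  refine Matrix.PosSemidef.of_dotProduct_mulVec_nonneg ?_ ?_
  · ext x y
    simp only [Matrix.conjTranspose_apply, Matrix.of_apply, star_trivial]
    rw [hs]
  · intro x
    have h := green_psd ∅ D (Finset.empty_subset _) (fun z => if hz : z ∈ D then x ⟨z, hz⟩ else 0)
    have hE := (green_basic ∅).2.1
    have e : star x ⬝ᵥ (Matrix.of fun x y : (D : Finset (ℤ × ℤ)) =>
        (1 / 4) * green D x y).mulVec x = (1 / 4) * ∑ z ∈ D, ∑ y ∈ D,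
        (if hz : z ∈ D then x ⟨z, hz⟩ else 0) * (green D z y - green ∅ z y) *
        (if hy : y ∈ D then x ⟨y, hy⟩ else 0) := by
      rw [Finset.mul_sum]
      simp only [dotProduct, Matrix.mulVec, Matrix.of_apply, Pi.star_apply, star_trivial]
      rw [← Finset.sum_coe_sort D]
      refine Finset.sum_congr rfl fun z _ => ?_
      rw [Finset.mul_sum, Finset.mul_sum, ← Finset.sum_coe_sort D]
      refine Finset.sum_congr rfl fun y _ => ?_
      rw [dif_pos z.2, dif_pos y.2, hE z y (Or.inl (Finset.notMem_empty _))]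
      ring
    rw [e]
    positivity

theorem _root_.H941.hyp_base : ∃ u0 : ℕ, ∀ u ≥ u0, ∀ w : ℕ, 128 ≤ w → w < 64 ^ 5 * (Nat.log 2 w + u) ^ 16 → HypA u 12 (1 / 64) w := by
  refine ⟨2 ^ 100, fun u hu w hw hlt => ?_⟩
  have hwu := F12_w u w hu hw hlt
  -- real parameters
  obtain ⟨U, hU⟩ : ∃ U : ℝ, U = u := ⟨_, rfl⟩
  have hU1 : (2 : ℝ) ^ 100 ≤ U := by rw [hU]; exact_mod_cast hu
  have hUone : (1 : ℝ) ≤ U := le_trans (by norm_num) hU1
  have hU0 : 0 < U := by linarith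
  have hwR : (w : ℝ) ≤ 2 ^ 46 * U ^ 16 := by rw [hU]; exact_mod_cast hwu
  have hw1 : (1 : ℝ) ≤ w := by
    have : 1 ≤ w := by omega
    exact_mod_cast this
  have hlogpos : 0 < Real.log U := Real.log_pos (lt_of_lt_of_le (by norm_num) hU1)
  -- the straight line
  obtain ⟨D, hD⟩ : ∃ D, D = Dw w := ⟨_, rfl⟩
  have hmem : ∀ i : ℤ, (w : ℤ) ≤ i → i ≤ 5 * w → (i, ((w / 2 : ℕ) : ℤ)) ∈ D := by
    intro i h1 h2
    rw [hD]
    unfold Dw rect
    rw [Finset.mem_product, Finset.mem_Icc, Finset.mem_Icc]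
    refine ⟨⟨?_, ?_⟩, ?_, ?_⟩
    · show (1 : ℤ) ≤ i; omega
    · show i ≤ 7 * w - 1; omega
    · show (1 : ℤ) ≤ ((w / 2 : ℕ) : ℤ); omega
    · show ((w / 2 : ℕ) : ℤ) ≤ w - 1; omega
  have harm : ∀ f : ℤ × ℤ → ℝ, (∀ i ∈ Finset.Icc (w : ℤ) (5 * w), f (i, ((w / 2 : ℕ) : ℤ)) ≤ U) →
      armOK true (0, 0) w (w / 4) U (12 * w) f := by
    intro f hf
    obtain ⟨p, hp1, hp2⟩ := F12_walk (4 * w) (w : ℤ) (5 * w) ((w / 2 : ℕ) : ℤ) (by push_cast; ring)
    refine ⟨_, _, p, rfl, rfl, ?_, ?_⟩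
    · intro z hz
      obtain ⟨h1, h2, h3⟩ := hp2 z hz
      refine ⟨?_, ?_⟩
      · unfold rect
        rw [Finset.mem_product, Finset.mem_Icc, Finset.mem_Icc, h1]
        refine ⟨⟨h2, h3⟩, ?_, ?_⟩ <;> omega
      · have h4 := hf z.1 (Finset.mem_Icc.2 ⟨h2, h3⟩)
        have h5 : place true (0, 0) z = (z.1, ((w / 2 : ℕ) : ℤ)) := by
          simp [place, h1]
        rw [h5]
        exact h4
    · rw [hp1]
      push_cast
      linarith
  have hsub : {x : EuclideanSpace ℝ (D : Finset (ℤ × ℤ)) |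
      ¬ armOK true (0, 0) w (w / 4) U (12 * w) (extf D x)} ⊆
      ⋃ i ∈ Finset.Icc (w : ℤ) (5 * w), {x | U ≤ extf D x (i, ((w / 2 : ℕ) : ℤ))} := by
    intro x hx
    by_contra hcon
    apply hx
    apply harm
    intro i hi
    by_contra h
    push Not at h
    apply hcon
    rw [Set.mem_iUnion₂]
    exact ⟨i, hi, h.le⟩
  -- tails
  have htail : ∀ i ∈ Finset.Icc (w : ℤ) (5 * w), gf D D {x | U ≤ extf D x (i, ((w / 2 : ℕ) : ℤ))} ≤
      ENNReal.ofReal (Real.exp (-(U ^ 2 / (2 * (12 * Real.log U))))) := by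
    intro i hi
    obtain ⟨hi1, hi2⟩ := Finset.mem_Icc.1 hi
    have hz := hmem i hi1 hi2
    have h := gauss_tail (Matrix.of fun x y : (D : Finset (ℤ × ℤ)) => (1 / 4) * green D x y)
      (F12_psd D) (fun j => if j = ⟨_, hz⟩ then 1 else 0) (12 * Real.log U) U (by positivity)
      hU0.le ?_
    · have e : {x : EuclideanSpace ℝ (D : Finset (ℤ × ℤ)) | U ≤ extf D x (i, ((w / 2 : ℕ) : ℤ))} =
          {x | U ≤ ∑ j, (if j = (⟨_, hz⟩ : (D : Finset (ℤ × ℤ))) then (1 : ℝ) else 0) * x j} := by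
        ext x
        simp only [Set.mem_ofPred_eq, ite_mul, one_mul, zero_mul, Finset.sum_ite_eq',
          Finset.mem_univ, if_true]
        unfold extf
        rw [dif_pos hz]
      rw [e]
      exact h
    · simp only [ite_mul, one_mul, zero_mul, mul_ite, mul_one, mul_zero, Finset.sum_ite_eq',
        Finset.mem_univ, if_true, Matrix.of_apply]
      have hg := green_log D (7 * w) (by omega) (by
        intro x hx y hy
        rw [hD] at hx hy
        unfold Dw rect at hx hy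
        rw [Finset.mem_product, Finset.mem_Icc, Finset.mem_Icc] at hx hy
        obtain ⟨⟨a1, a2⟩, a3, a4⟩ := hx
        obtain ⟨⟨b1, b2⟩, b3, b4⟩ := hy
        constructor
        · rw [abs_lt]; push_cast; constructor <;> omega
        · rw [abs_lt]; push_cast; constructor <;> omega) (i, ((w / 2 : ℕ) : ℤ))
      have h1 : (1 : ℝ) + 2 * ((7 * w : ℕ) : ℝ) ^ 2 ≤ U ^ 33 := by
        push_cast
        calc (1 : ℝ) + 2 * (7 * (w : ℝ)) ^ 2 ≤ 99 * (w : ℝ) ^ 2 := by nlinarith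
          _ ≤ 99 * (2 ^ 46 * U ^ 16) ^ 2 := by
            have := pow_le_pow_left₀ (by linarith) hwR 2
            linarith
          _ = (99 * 2 ^ 92) * U ^ 32 := by ring
          _ ≤ U * U ^ 32 := by
            refine mul_le_mul_of_nonneg_right (le_trans ?_ hU1) (by positivity)
            norm_num
          _ = U ^ 33 := by ring
      have h2 : Real.log (1 + 2 * ((7 * w : ℕ) : ℝ) ^ 2) ≤ 33 * Real.log U := by
        have h3 := Real.log_le_log (by positivity) h1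
        rw [Real.log_pow] at h3
        exact_mod_cast h3
      have hl2 : 0.6931 < Real.log 2 := by
        have := Real.log_two_gt_d9
        linarith
      have h3 : green D (i, ((w / 2 : ℕ) : ℤ)) (i, ((w / 2 : ℕ) : ℤ)) ≤ 48 * Real.log U := by
        refine hg.trans ?_
        rw [div_le_iff₀ (by linarith)]
        nlinarith
      linarith
  -- conclusion
  show gf (Dw w) (Dw w) {x | ¬ armOK true (0, 0) w (w / 4) u (12 * w) (extf (Dw w) x)} ≤
    ENNReal.ofReal (1 / 64)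
  rw [← hD, ← hU]
  refine (measure_mono hsub).trans ((measure_biUnion_finset_le _ _).trans ?_)
  refine (Finset.sum_le_sum htail).trans ?_
  rw [Finset.sum_const, Int.card_Icc, nsmul_eq_mul]
  have hc : ((5 * (w : ℤ) + 1 - w).toNat : ENNReal) = ENNReal.ofReal (4 * w + 1) := by
    have : (5 * (w : ℤ) + 1 - w).toNat = 4 * w + 1 := by omega
    rw [this, ← ENNReal.ofReal_natCast]
    push_cast
    rfl
  rw [hc, ← ENNReal.ofReal_mul (by positivity)]
  refine ENNReal.ofReal_le_ofReal ?_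
  have h1 : Real.exp (-(U ^ 2 / (2 * (12 * Real.log U)))) ≤ Real.exp (-(17 * Real.log U)) := by
    rw [Real.exp_le_exp, neg_le_neg_iff, le_div_iff₀ (by positivity)]
    have h2 := F12_log U hUone
    have h3 : (1632 : ℝ) ≤ U := le_trans (by norm_num) hU1
    nlinarith
  have h2 : Real.exp (-(17 * Real.log U)) = (U ^ 17)⁻¹ := by
    rw [Real.exp_neg]
    congr 1
    rw [show (17 : ℝ) * Real.log U = ((17 : ℕ) : ℝ) * Real.log U by norm_num, Real.exp_nat_mul,
      Real.exp_log hU0]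
  rw [h2] at h1
  have h3 : (4 * (w : ℝ) + 1) * 64 ≤ U ^ 17 := by
    calc (4 * (w : ℝ) + 1) * 64 ≤ 320 * w := by nlinarith
      _ ≤ 320 * (2 ^ 46 * U ^ 16) := by linarith
      _ = (320 * 2 ^ 46) * U ^ 16 := by ring
      _ ≤ U * U ^ 16 := by
        refine mul_le_mul_of_nonneg_right (le_trans ?_ hU1) (by positivity)
        norm_num
      _ = U ^ 17 := by ring
  have hU17 : 0 < U ^ 17 := by positivity
  calc (4 * (w : ℝ) + 1) * Real.exp (-(U ^ 2 / (2 * (12 * Real.log U))))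
      ≤ (4 * (w : ℝ) + 1) * (U ^ 17)⁻¹ := mul_le_mul_of_nonneg_left h1 (by positivity)
    _ ≤ 1 / 64 := by
      rw [← div_eq_mul_inv, div_le_div_iff₀ hU17 (by norm_num)]
      linarith

end H941.hyp_base
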