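import Pool.Agent.H941.Defs4
import Pool.Agent.H941.B.pst_near
import Pool.Agent.H941.C.gs_psd
import Pool.Agent.H941.C.level_fixed
import Pool.Agent.H941.G3

open MeasureTheory ProbabilityTheory

namespace H941.levC

theorem bb_pos_aux (i : ℕ) : 0 < bb i := by
  unfold bb bd
  positivity

theorem bb_le_aux (i : ℕ) : bb i ≤ 1 / 100 := by
  unfold bb bd
  have h : ((i : ℝ) + 1) ^ (-(3 / 5) : ℝ) ≤ 1 := by
    apply Real.rpow_le_one_of_one_le_of_nonpos
    · have : (0 : ℝ) ≤ i := Nat.cast_nonneg i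
      linarith
    · norm_num
  linarith

theorem bb_anti_aux : Antitone bb := by
  intro i j hij
  unfold bb bd
  have h : ((j : ℝ) + 1) ^ (-(3 / 5) : ℝ) ≤ ((i : ℝ) + 1) ^ (-(3 / 5) : ℝ) := by
    apply Real.rpow_le_rpow_of_nonpos
    · positivity
    · have : (i : ℝ) ≤ j := Nat.cast_le.mpr hij
      linarith
    · norm_num
  linarith

theorem sg0_norm_aux (w : ℕ) : ‖(sg0 w).2‖ = 5 * (w : ℝ) := by
  unfold sg0
  simp only
  rw [Complex.norm_natCast]
  push_cast
  ring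

theorem ps_norm_aux (w : ℕ) (c : ℕ → Fin 64 × Bool) (i : ℕ) : ‖(ps w c i).2‖ = ll w i := by
  have h := (pst_near bb (fun j => (bb_pos_aux j).le) (fun j => (bb_le_aux j).trans (by norm_num)) bb_anti_aux
    c (sg0 w) 0).2.2 i
  unfold ps
  rw [h, sg0_norm_aux]
  rfl

theorem _root_.H941.levC : ∃ c1 : ℝ, 0 < c1 ∧ c1 ≤ 1 ∧ ∀ (u w : ℕ), ParC u w → ∀ (a : ℤ × ℤ) (c : ℕ → Fin 64 × Bool) (k : ℕ), k < nb u w →
    (0 < ∑ x, ∑ y, WC w k (ps w c k) x * GC u w a k x y * WC w k (ps w c k) y) ∧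
    multivariateGaussian (0 : EuclideanSpace ℝ ↥(Dw w)) (GC u w a k) (sC w (c k).2 k (ps w c k)) ≤ 1 / 2 ∧
    ∀ i, k < i → i ≤ nb u w → ∀ v : ↥(Dw w), ‖toC v - (ps w c i).1‖ ≤ bb k * ll w k / 50 → ∀ θ : ℝ, 0 ≤ θ → θ ≤ 1 →
      ∫ x, Set.indicator (sC w (c k).2 k (ps w c k)) (fun x => Real.exp (θ * x v)) x
          ∂(multivariateGaussian (0 : EuclideanSpace ℝ ↥(Dw w)) (GC u w a k)) ≤
        (1 / 2) * Real.exp (θ ^ 2 * GC u w a k v v / 2) *
          (if @decide (24 ≤ ((c k).1 : ℕ) ∧ ((c k).1 : ℕ) < 40 ∧ bulk (cc w k) a v) (Classical.dec _) = true then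
            Real.exp (-(c1 * (θ * Real.sqrt (bb k)))) else 1) := by
  classical
  obtain ⟨c1, hc1, hc1', LF⟩ := level_fixed
  refine ⟨c1, hc1, hc1', ?_⟩
  intro u w P a c k hk
  have hGC : GC u w a k = Matrix.of (fun x y : ↥(Dw w) => Gs (Dw w) (cc w k) a x y) := if_pos hk
  have hbp := bb_pos_aux k
  have hbl := bb_le_aux k
  have hnorm := ps_norm_aux w c k
  have hbig := P.big k hk
  obtain ⟨hcc1, hcc2, hcc3⟩ := P.cc_fac k hk
  have hllw : ll w k ≤ 6 * (w : ℝ) := by
    have h1 := P.ll_le k hk.le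
    have h2 : wi w k ≤ 6 * w := Nat.div_le_self _ _
    have h3 : ((wi w k : ℕ) : ℝ) ≤ ((6 * w : ℕ) : ℝ) := Nat.cast_le.mpr h2
    push_cast at h3
    linarith
  have hll0 : 0 < ll w k := by
    by_contra hcon
    push Not at hcon
    have : bb k * ll w k ≤ 0 := mul_nonpos_of_nonneg_of_nonpos hbp.le hcon
    linarith
  have PN := pst_near bb (fun j => (bb_pos_aux j).le) (fun j => (bb_le_aux j).trans (by norm_num)) bb_anti_aux
    c (sg0 w)
  have hdom : ∀ (z : ℤ × ℤ) (τ : ℝ), 0 ≤ τ → τ ≤ 1 →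
        ‖toC z - ((ps w c k).1 + (τ : ℂ) * (ps w c k).2)‖ ≤ 2 * (bb k * ‖(ps w c k).2‖) → z ∈ Dw w := by
    intro z τ h0 h1 hz
    obtain ⟨τ', h0', h1', h2⟩ := (PN k).2.1 k le_rfl τ h0 h1
    apply P.bulkD z τ' h0' h1'
    rw [sg0_norm_aux] at h2
    have hb0 := bb_le_aux 0
    have hw : (0 : ℝ) ≤ w := Nat.cast_nonneg w
    have h3 : ‖toC z - ((sg0 w).1 + (τ' : ℂ) * (sg0 w).2)‖ ≤
        ‖toC z - ((ps w c k).1 + (τ : ℂ) * (ps w c k).2)‖ +
        ‖((ps w c k).1 + (τ : ℂ) * (ps w c k).2) - ((sg0 w).1 + (τ' : ℂ) * (sg0 w).2)‖ := by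
      have := norm_add_le (toC z - ((ps w c k).1 + (τ : ℂ) * (ps w c k).2))
        (((ps w c k).1 + (τ : ℂ) * (ps w c k).2) - ((sg0 w).1 + (τ' : ℂ) * (sg0 w).2))
      rw [sub_add_sub_cancel] at this
      exact this
    have h4 : ‖((ps w c k).1 + (τ : ℂ) * (ps w c k).2) - ((sg0 w).1 + (τ' : ℂ) * (sg0 w).2)‖ ≤
      60 / 59 * (bb 0 * (5 * (w : ℝ))) := h2
    rw [hnorm] at hz
    have h5 : bb 0 * (5 * (w : ℝ)) ≤ 1 / 100 * (5 * (w : ℝ)) := by
      apply mul_le_mul_of_nonneg_right hb0 (by positivity)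
    have h6 : bb k * ll w k ≤ 1 / 100 * (6 * (w : ℝ)) := by
      apply mul_le_mul hbl hllw hll0.le (by norm_num)
    linarith
  have key := LF (Dw w) (Dw w) (Finset.Subset.refl _) (cc w k) ⌈16 / bb k⌉₊ ⌈3 / 8 * (bb k * ll w k)⌉₊ a
    (by omega) (bb k) (ps w c k) hbp (hbl.trans (by norm_num)) (by rw [hnorm]; exact hbig)
    (Nat.le_ceil _) ((Nat.ceil_lt_add_one (by positivity)).le) (by rw [hnorm]; exact Nat.le_ceil _)
    (by rw [hnorm]; exact (Nat.ceil_lt_add_one (by positivity)).le) (by rw [hnorm]; exact hcc2)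
    (by rw [hnorm]; exact hcc3) hdom
  obtain ⟨k1, k2⟩ := key
  rw [hGC]
  refine ⟨k1, ?_, ?_⟩
  · -- probability at most one half
    have hnear : ‖toC (rd (ps w c k).1) - (ps w c k).1‖ ≤ 2 := by
      have h := Complex.norm_le_abs_re_add_abs_im (toC (rd (ps w c k).1) - (ps w c k).1)
      have e1 : (toC (rd (ps w c k).1) - (ps w c k).1).re = (⌊(ps w c k).1.re⌋ : ℝ) - (ps w c k).1.re := rfl
      have e2 : (toC (rd (ps w c k).1) - (ps w c k).1).im = (⌊(ps w c k).1.im⌋ : ℝ) - (ps w c k).1.im := rfl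
      rw [e1, e2] at h
      have a1 : |(⌊(ps w c k).1.re⌋ : ℝ) - (ps w c k).1.re| ≤ 1 := by
        rw [abs_le]
        constructor
        · have := Int.lt_floor_add_one (ps w c k).1.re
          linarith
        · have := Int.floor_le (ps w c k).1.re
          linarith
      have a2 : |(⌊(ps w c k).1.im⌋ : ℝ) - (ps w c k).1.im| ≤ 1 := by
        rw [abs_le]
        constructor
        · have := Int.lt_floor_add_one (ps w c k).1.im
          linarith
        · have := Int.floor_le (ps w c k).1.im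
          linarith
      linarith
    have hv : rd (ps w c k).1 ∈ Dw w := by
      apply hdom _ 0 le_rfl zero_le_one
      rw [hnorm]
      simp only [Complex.ofReal_zero, zero_mul, add_zero]
      linarith
    have h0 := k2 (c k).2 ⟨rd (ps w c k).1, hv⟩ 0 0 le_rfl zero_le_one le_rfl zero_le_one
      (by
        rw [hnorm]
        simp only [Complex.ofReal_zero, zero_mul, add_zero, mul_zero]
        linarith) 0 le_rfl (by simp)
    have h34 : ¬ ((3 : ℝ) / 4 ≤ 0 ∧ @decide (bulk (cc w k) a (⟨rd (ps w c k).1, hv⟩ : ↥(Dw w))) (Classical.dec _) = true) := by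
      intro h
      linarith [h.1]
    rw [if_neg h34] at h0
    have hmeas : MeasurableSet (sC w (c k).2 k (ps w c k)) := by
      unfold sC
      apply measurableSet_le
      · fun_prop
      · fun_prop
    have e3 : ∫ x : EuclideanSpace ℝ ↥(Dw w), Set.indicator (sC w (c k).2 k (ps w c k))
          (fun x => Real.exp (0 * x ⟨rd (ps w c k).1, hv⟩)) x
          ∂(multivariateGaussian (0 : EuclideanSpace ℝ ↥(Dw w))
              (Matrix.of fun x y : ↥(Dw w) => Gs (Dw w) (cc w k) a x y)) =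
        (multivariateGaussian (0 : EuclideanSpace ℝ ↥(Dw w))
              (Matrix.of fun x y : ↥(Dw w) => Gs (Dw w) (cc w k) a x y)).real (sC w (c k).2 k (ps w c k)) := by
      simp only [zero_mul, Real.exp_zero]
      rw [integral_indicator_const _ hmeas]
      simp
    have h1 : (multivariateGaussian (0 : EuclideanSpace ℝ ↥(Dw w))
              (Matrix.of fun x y : ↥(Dw w) => Gs (Dw w) (cc w k) a x y)).real (sC w (c k).2 k (ps w c k)) ≤ 1 / 2 := by
      rw [← e3]
      refine h0.trans ?_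
      simp
    have h2 : (multivariateGaussian (0 : EuclideanSpace ℝ ↥(Dw w))
              (Matrix.of fun x y : ↥(Dw w) => Gs (Dw w) (cc w k) a x y)) (sC w (c k).2 k (ps w c k)) =
        ENNReal.ofReal ((multivariateGaussian (0 : EuclideanSpace ℝ ↥(Dw w))
              (Matrix.of fun x y : ↥(Dw w) => Gs (Dw w) (cc w k) a x y)).real (sC w (c k).2 k (ps w c k))) := by
      rw [Measure.real, ENNReal.ofReal_toReal (measure_ne_top _ _)]
    rw [h2]
    have h3 : (1 / 2 : ENNReal) = ENNReal.ofReal (1 / 2) := by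
      rw [ENNReal.ofReal_div_of_pos (by norm_num)]
      simp
    rw [h3]
    exact ENNReal.ofReal_le_ofReal h1
  · intro i hki hin v hv θ h0 h1
    obtain ⟨τ, t, t0, t1, t2, t3, t4, t5⟩ := (PN i).1 k hki
    have hθ : θ * Real.sqrt (bb k) ≤ 1 := by
      have : Real.sqrt (bb k) ≤ 1 := by
        rw [Real.sqrt_le_one]
        linarith
      calc θ * Real.sqrt (bb k) ≤ 1 * 1 := by
            apply mul_le_mul h1 this (Real.sqrt_nonneg _) zero_le_one
        _ = 1 := one_mul 1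
    have hdist : ‖toC v - ((ps w c k).1 + (τ : ℂ) * (ps w c k).2 +
        bsign (c k).2 * (bb k : ℂ) * Complex.I * (t : ℂ) * (ps w c k).2)‖ ≤ bb k * ‖(ps w c k).2‖ / 16 := by
      have h3 := norm_add_le (toC v - (ps w c i).1)
        ((ps w c i).1 - ((ps w c k).1 + (τ : ℂ) * (ps w c k).2 +
        bsign (c k).2 * (bb k : ℂ) * Complex.I * (t : ℂ) * (ps w c k).2))
      rw [sub_add_sub_cancel] at h3
      have h4 : ‖(ps w c i).1 - ((ps w c k).1 + (τ : ℂ) * (ps w c k).2 +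
        bsign (c k).2 * (bb k : ℂ) * Complex.I * (t : ℂ) * (ps w c k).2)‖ ≤
        (1 / 59) * (bb k * ‖(ps w c k).2‖) := t5
      rw [hnorm] at h4 ⊢
      have h5 : 0 < bb k * ll w k := by positivity
      linarith
    have h6 := k2 (c k).2 v τ t t0 t1 t2 t3 hdist θ h0 hθ
    refine h6.trans ?_
    apply mul_le_mul_of_nonneg_left _ (by positivity)
    split_ifs with ha hb hb
    · exact le_rfl
    · rw [Real.exp_le_one_iff]
      have : 0 ≤ c1 * (θ * Real.sqrt (bb k)) := by positivity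
      linarith
    · exfalso
      apply ha
      have hb' : 24 ≤ ((c k).1 : ℕ) ∧ ((c k).1 : ℕ) < 40 ∧ bulk (cc w k) a v := by
        simpa using hb
      refine ⟨t4 hb'.1 hb'.2.1, ?_⟩
      simpa using hb'.2.2
    · exact le_rfl

end H941.levC
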