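import Pool.Agent.H941.Defs4
import Pool.Agent.H941.A2
import Pool.Agent.H941.A3
import Pool.Agent.H941.A6
import Pool.Agent.H941.B.green_log_off
import Pool.Agent.H941.B.harm_grad

open MeasureTheory ProbabilityTheory

namespace H941.inc_gs

theorem abs_le_iff_four {t : ℤ} {r : ℤ} : 4 * |t| ≤ r ↔ -r ≤ 4 * t ∧ 4 * t ≤ r := by
  constructor
  · intro h
    have h1 := le_abs_self t
    have h2 := neg_abs_le t
    constructor <;> omega
  · rintro ⟨h1, h2⟩
    rcases abs_cases t with ⟨h, _⟩ | ⟨h, _⟩ <;> omega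

theorem inc_card_nbrs (w : ℤ × ℤ) : (nbrs w).card = 4 := by
  unfold nbrs
  rw [Finset.card_insert_of_notMem, Finset.card_insert_of_notMem, Finset.card_insert_of_notMem,
    Finset.card_singleton]
  · simp [Prod.ext_iff]; omega
  · simp [Prod.ext_iff]
  · simp [Prod.ext_iff]; omega

theorem inc_cell_ediv (M p q : ℤ) (hM : 0 < M) (hp : ¬ M ∣ p) (hq : ¬ M ∣ q)
    (h : q = p + 1 ∨ q = p - 1 ∨ q = p) : q / M = p / M := by
  have e1 : p % M + M * (p / M) = p := Int.emod_add_mul_ediv p M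
  have b1 : 0 ≤ p % M := Int.emod_nonneg p (by omega)
  have b2 : p % M < M := Int.emod_lt_of_pos p hM
  have b3 : p % M ≠ 0 := fun h0 => hp (Int.dvd_of_emod_eq_zero h0)
  have key : ∀ s : ℤ, 0 ≤ s → s < M → (s + M * (p / M)) / M = p / M := by
    intro s h0 h1
    rw [Int.add_mul_ediv_left _ _ (by omega), Int.ediv_eq_zero_of_lt h0 h1, zero_add]
  rcases h with h | h | h
  · have hne : p % M + 1 ≠ M := by
      intro h2
      apply hq
      refine ⟨1 + p / M, ?_⟩
      rw [mul_add, mul_one]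
      omega
    have : q = (p % M + 1) + M * (p / M) := by omega
    rw [this]
    exact key _ (by omega) (by omega)
  · have : q = (p % M - 1) + M * (p / M) := by omega
    rw [this]
    exact key _ (by omega) (by omega)
  · rw [h]

theorem inc_cell_diam (M p q : ℤ) (hM : 0 < M) (h : q / M = p / M) : |q - p| < M := by
  have e1 : p % M + M * (p / M) = p := Int.emod_add_mul_ediv p M
  have e2 : q % M + M * (q / M) = q := Int.emod_add_mul_ediv q M
  rw [h] at e2
  have b1 : 0 ≤ p % M := Int.emod_nonneg p (by omega)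
  have b2 : p % M < M := Int.emod_lt_of_pos p hM
  have b3 : 0 ≤ q % M := Int.emod_nonneg q (by omega)
  have b4 : q % M < M := Int.emod_lt_of_pos q hM
  rw [abs_lt]
  constructor <;> omega

theorem inc_nbrs_coord {w z : ℤ × ℤ} (h : z ∈ nbrs w) :
    (z.1 = w.1 + 1 ∨ z.1 = w.1 - 1 ∨ z.1 = w.1) ∧ (z.2 = w.2 + 1 ∨ z.2 = w.2 - 1 ∨ z.2 = w.2) := by
  simp only [nbrs, Finset.mem_insert, Finset.mem_singleton] at h
  rcases h with h | h | h | h <;> subst h <;> simp

theorem inc_mem_grid {V : Finset (ℤ × ℤ)} {L : ℕ} {s z : ℤ × ℤ} :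
    z ∈ gridSet V L s ↔ z ∈ V ∧ ¬ ((L : ℤ) ∣ z.1 - s.1) ∧ ¬ ((L : ℤ) ∣ z.2 - s.2) := by
  simp [gridSet]

theorem inc_grid_sub (V : Finset (ℤ × ℤ)) (L : ℕ) (s : ℤ × ℤ) :
    gridSet V L s ⊆ gridSet V (2 * L) s := by
  intro z hz
  rw [inc_mem_grid] at hz ⊢
  refine ⟨hz.1, ?_, ?_⟩
  · intro h
    apply hz.2.1
    refine Dvd.dvd.trans ?_ h
    exact ⟨2, by push_cast; ring⟩
  · intro h
    apply hz.2.2
    refine Dvd.dvd.trans ?_ h
    exact ⟨2, by push_cast; ring⟩

/-- the Green function of the grid domain is at most that of the cell -/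
theorem inc_cell_green (V : Finset (ℤ × ℤ)) (N : ℕ) (hN : 1 ≤ N) (a u y : ℤ × ℤ)
    (h : green (gridSet V N a) u y ≠ 0) :
    green (gridSet V N a) u y ≤ (Real.log (1 + 2 * (N : ℝ) ^ 2) -
      Real.log (1 + ((u.1 : ℝ) - y.1) ^ 2 + ((u.2 : ℝ) - y.2) ^ 2)) / Real.log 2 := by
  classical
  set E := gridSet V N a with hE
  have hNz : (0 : ℤ) < (N : ℤ) := by exact_mod_cast hN
  obtain ⟨g0, gz, gs, gm, ge, gl⟩ := green_basic E
  have hu : u ∈ E := by
    by_contra hu
    exact h (gz u y (Or.inl hu))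
  set D := E.filter (fun z => (z.1 - a.1) / (N : ℤ) = (u.1 - a.1) / (N : ℤ) ∧
    (z.2 - a.2) / (N : ℤ) = (u.2 - a.2) / (N : ℤ)) with hD
  have huD : u ∈ D := by
    rw [hD, Finset.mem_filter]
    exact ⟨hu, rfl, rfl⟩
  have hclosed : ∀ w ∈ D, ∀ z ∈ nbrs w, z ∈ E → z ∈ D := by
    intro w hw z hz hzE
    rw [hD, Finset.mem_filter] at hw ⊢
    obtain ⟨hwE, hw1, hw2⟩ := hw
    obtain ⟨hc1, hc2⟩ := inc_nbrs_coord hz
    have m1 := (inc_mem_grid.1 hwE).2
    have m2 := (inc_mem_grid.1 hzE).2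
    refine ⟨hzE, ?_, ?_⟩
    · rw [← hw1]
      exact inc_cell_ediv _ _ _ hNz m1.1 m2.1 (by omega)
    · rw [← hw2]
      exact inc_cell_ediv _ _ _ hNz m1.2 m2.2 (by omega)
  have hdiam : ∀ z ∈ D, ∀ w ∈ D, |z.1 - w.1| < (N : ℤ) ∧ |z.2 - w.2| < (N : ℤ) := by
    intro z hz w hw
    rw [hD, Finset.mem_filter] at hz hw
    constructor
    · have := inc_cell_diam (N : ℤ) (w.1 - a.1) (z.1 - a.1) hNz (by rw [hz.2.1, hw.2.1])
      rwa [sub_sub_sub_cancel_right] at this
    · have := inc_cell_diam (N : ℤ) (w.2 - a.2) (z.2 - a.2) hNz (by rw [hz.2.2, hw.2.2])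
      rwa [sub_sub_sub_cancel_right] at this
  obtain ⟨-, -, -, -, -, dl⟩ := green_basic D
  have key := dl (fun v => if v = y then 1 else 0) (fun z => if z ∈ D then green E z y else 0)
    (fun z hz => by simp [hz])
    (by
      intro w hw
      have hwE : w ∈ E := (Finset.mem_filter.1 hw).1
      simp only [hw, if_true]
      rw [ge w hwE y]
      gcongr with z hz
      by_cases hzD : z ∈ D
      · simp [hzD]
      · simp only [hzD, if_false]
        have : z ∉ E := fun hzE => hzD (hclosed w hw z hz hzE)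
        rw [gz z y (Or.inl this)]) u huD
  simp only [huD, if_true, mul_ite, mul_one, mul_zero, Finset.sum_ite_eq'] at key
  by_cases hy : y ∈ D
  · simp only [hy, if_true] at key
    exact key.trans (green_log_off D N hN hdiam u y huD hy)
  · simp only [hy, if_false] at key
    exact absurd (le_antisymm key (g0 u y)) h

theorem inc_harm (V : Finset (ℤ × ℤ)) (L : ℕ) (a y u : ℤ × ℤ) (hu : u ∈ gridSet V L a) :
    Gs V L a u y = (1 / 4) * ∑ z ∈ nbrs u, Gs V L a z y := by
  obtain ⟨-, -, -, -, ge, -⟩ := green_basic (gridSet V L a)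
  obtain ⟨-, -, -, -, ge', -⟩ := green_basic (gridSet V (2 * L) a)
  have e1 := ge u hu y
  have e2 := ge' u (inc_grid_sub V L a hu) y
  unfold Gs
  rw [e1, e2, ← Finset.mul_sum, Finset.sum_sub_distrib]
  ring

theorem inc_nonneg (V : Finset (ℤ × ℤ)) (L : ℕ) (a y u : ℤ × ℤ) : 0 ≤ Gs V L a u y := by
  obtain ⟨-, -, -, gm, -, -⟩ := green_basic (gridSet V L a)
  have := gm _ (inc_grid_sub V L a) u y
  unfold Gs
  linarith

theorem inc_symm (V : Finset (ℤ × ℤ)) (L : ℕ) (a y u : ℤ × ℤ) : Gs V L a u y = Gs V L a y u := by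
  obtain ⟨-, -, gs, -, -, -⟩ := green_basic (gridSet V L a)
  obtain ⟨-, -, gs', -, -, -⟩ := green_basic (gridSet V (2 * L) a)
  unfold Gs
  rw [gs, gs']

theorem inc_num (L r : ℕ) (hL : 1 ≤ L) (hr : 1 ≤ r) (hrL : r ≤ 2 * L) (S : ℝ)
    (hS : 9 / 16 * (r : ℝ) ^ 2 ≤ S) :
    (1 / 4) * ((Real.log (1 + 2 * ((2 * L : ℕ) : ℝ) ^ 2) - Real.log (1 + S)) / Real.log 2) ≤
      1 + Real.log (2 * L / r) := by
  have hL' : (1 : ℝ) ≤ L := by exact_mod_cast hL
  have hr' : (1 : ℝ) ≤ r := by exact_mod_cast hr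
  have hrL' : (r : ℝ) ≤ 2 * L := by exact_mod_cast hrL
  have hr0 : (0 : ℝ) < r := by linarith
  have hL0 : (0 : ℝ) < L := by linarith
  have hlog2 : (1 : ℝ) / 2 < Real.log 2 := by
    have := Real.log_two_gt_d9
    linarith
  have hpos : 0 ≤ Real.log (2 * L / r) := by
    apply Real.log_nonneg
    rw [le_div_iff₀ hr0]
    linarith
  have h1 : Real.log (1 + 2 * ((2 * L : ℕ) : ℝ) ^ 2) ≤ Real.log (9 * (L : ℝ) ^ 2) := by
    apply Real.log_le_log (by positivity)
    push_cast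
    nlinarith
  have h2 : Real.log (9 / 16 * (r : ℝ) ^ 2) ≤ Real.log (1 + S) := by
    apply Real.log_le_log (by positivity)
    linarith
  have h3 : Real.log (9 * (L : ℝ) ^ 2) - Real.log (9 / 16 * (r : ℝ) ^ 2) =
      2 * Real.log 2 + 2 * Real.log (2 * L / r) := by
    have e0 : Real.log (9 * (L : ℝ) ^ 2) = Real.log 9 + 2 * Real.log L := by
      rw [Real.log_mul (by norm_num) (by positivity), Real.log_pow]
      push_cast
      ring
    have e1 : Real.log (9 / 16 * (r : ℝ) ^ 2) = Real.log 9 - 4 * Real.log 2 + 2 * Real.log r := by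
      rw [Real.log_mul (by norm_num) (by positivity), Real.log_pow,
        Real.log_div (by norm_num) (by norm_num)]
      have : (16 : ℝ) = 2 ^ 4 := by norm_num
      rw [this, Real.log_pow]
      push_cast
      ring
    have e2 : Real.log (2 * L / r) = Real.log 2 + Real.log L - Real.log r := by
      rw [Real.log_div (by positivity) (by positivity), Real.log_mul (by norm_num) (by positivity)]
    rw [e0, e1, e2]
    ring
  have h4 : Real.log (1 + 2 * ((2 * L : ℕ) : ℝ) ^ 2) - Real.log (1 + S) ≤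
      2 * Real.log 2 + 2 * Real.log (2 * L / r) := by linarith
  have h5 : (Real.log (1 + 2 * ((2 * L : ℕ) : ℝ) ^ 2) - Real.log (1 + S)) / Real.log 2 ≤
      2 + 4 * Real.log (2 * L / r) := by
    rw [div_le_iff₀ (by linarith)]
    nlinarith
  linarith

theorem inc_bound (V : Finset (ℤ × ℤ)) (L r : ℕ) (a x y : ℤ × ℤ) (hL : 1 ≤ L) (hr : 1 ≤ r)
    (hrL : r ≤ 2 * L) (hball : ∀ y ∈ ball x r, y ∈ gridSet V L a)
    (hy1 : 4 * |y.1 - x.1| ≤ (r : ℤ)) (hy2 : 4 * |y.2 - x.2| ≤ (r : ℤ)) (u : ℤ × ℤ) :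
    Gs V L a u y ≤ 1 + Real.log (2 * L / r) := by
  classical
  set K : ℝ := 1 + Real.log (2 * L / r) with hK
  have hK0 : 0 ≤ K := by
    have hr0 : (0 : ℝ) < r := by exact_mod_cast hr
    have : 0 ≤ Real.log (2 * L / r) := by
      apply Real.log_nonneg
      rw [le_div_iff₀ hr0, one_mul]
      exact_mod_cast hrL
    linarith
  set E := gridSet V L a with hE
  obtain ⟨g0, gz, gs, gm, ge, gl⟩ := green_basic E
  -- outside `E`
  have hout : ∀ v, v ∉ E → Gs V L a v y ≤ K := by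
    intro v hv
    by_cases hg : green (gridSet V (2 * L) a) v y = 0
    · unfold Gs
      rw [hg, gz v y (Or.inl hv)]
      simpa using hK0
    · have hb := inc_cell_green V (2 * L) (by omega) a v y hg
      have hvb : v ∉ ball x r := fun h => hv (hball v h)
      have hS : 9 / 16 * (r : ℝ) ^ 2 ≤ ((v.1 : ℝ) - y.1) ^ 2 + ((v.2 : ℝ) - y.2) ^ 2 := by
        simp only [ball, rect, Finset.mem_product, Finset.mem_Icc, not_and_or, not_le] at hvb
        have hcase : 3 * (r : ℤ) ≤ 4 * |v.1 - y.1| ∨ 3 * (r : ℤ) ≤ 4 * |v.2 - y.2| := by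
          rw [abs_le_iff_four] at hy1 hy2
          rcases hvb with (h | h) | (h | h)
          · left
            have : y.1 - v.1 ≤ |v.1 - y.1| := by rw [abs_sub_comm]; exact le_abs_self _
            omega
          · left
            have : v.1 - y.1 ≤ |v.1 - y.1| := le_abs_self _
            omega
          · right
            have : y.2 - v.2 ≤ |v.2 - y.2| := by rw [abs_sub_comm]; exact le_abs_self _
            omega
          · right
            have : v.2 - y.2 ≤ |v.2 - y.2| := le_abs_self _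
            omega
        have hr0 : (0 : ℝ) ≤ r := by positivity
        rcases hcase with h | h
        · have h' : 3 * (r : ℝ) ≤ 4 * |(v.1 : ℝ) - y.1| := by exact_mod_cast h
          have h2 : (3 * (r : ℝ)) ^ 2 ≤ (4 * |(v.1 : ℝ) - y.1|) ^ 2 :=
            pow_le_pow_left₀ (by positivity) h' 2
          rw [mul_pow 4, sq_abs] at h2
          nlinarith [sq_nonneg ((v.2 : ℝ) - y.2)]
        · have h' : 3 * (r : ℝ) ≤ 4 * |(v.2 : ℝ) - y.2| := by exact_mod_cast h
          have h2 : (3 * (r : ℝ)) ^ 2 ≤ (4 * |(v.2 : ℝ) - y.2|) ^ 2 :=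
            pow_le_pow_left₀ (by positivity) h' 2
          rw [mul_pow 4, sq_abs] at h2
          nlinarith [sq_nonneg ((v.1 : ℝ) - y.1)]
      have hnum := inc_num L r hL hr hrL _ hS
      rw [← add_assoc] at hnum
      unfold Gs
      rw [← hE, gz v y (Or.inl hv), sub_zero]
      exact (mul_le_mul_of_nonneg_left hb (by norm_num)).trans hnum
  by_cases hu : u ∈ E
  · have key := gl (fun _ => 0) (fun z => if z ∈ E then Gs V L a z y - K else 0)
      (fun z hz => by simp [hz])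
      (by
        intro w hw
        simp only [hw, if_true, zero_add]
        have h1 : Gs V L a w y - K = (1 / 4) * ∑ z ∈ nbrs w, (Gs V L a z y - K) := by
          rw [inc_harm V L a y w hw, Finset.sum_sub_distrib, Finset.sum_const, inc_card_nbrs]
          simp
          ring
        rw [h1]
        gcongr with z hz
        by_cases hzE : z ∈ E
        · simp [hzE]
        · simp only [hzE, if_false]
          have := hout z hzE
          linarith) u hu
    simp only [hu, if_true, mul_zero, Finset.sum_const_zero] at key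
    linarith
  · exact hout u hu

theorem inc_walk (φ : ℤ → ℝ) (g : ℝ) (τ : ℕ)
    (hstep : ∀ k : ℤ, |k| ≤ τ → |k + 1| ≤ τ → |φ (k + 1) - φ k| ≤ g) :
    ∀ n : ℕ, n ≤ τ → |φ n - φ 0| ≤ n * g ∧ |φ (-n) - φ 0| ≤ n * g := by
  intro n
  induction n with
  | zero => intro _; simp
  | succ n ih =>
    intro hn
    obtain ⟨h1, h2⟩ := ih (by omega)
    constructor
    · have h3 := hstep n (by rw [abs_of_nonneg (by positivity)]; exact_mod_cast (by omega))
        (by rw [abs_of_nonneg (by positivity)]; exact_mod_cast hn)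
      have : φ ((n + 1 : ℕ) : ℤ) - φ 0 = (φ ((n : ℤ) + 1) - φ n) + (φ n - φ 0) := by
        push_cast; ring
      rw [this]
      refine (abs_add_le _ _).trans ?_
      push_cast
      linarith
    · have h3 := hstep (-((n : ℤ) + 1)) (by
          rw [abs_neg, abs_of_nonneg (by positivity)]; exact_mod_cast hn)
        (by
          rw [show -((n : ℤ) + 1) + 1 = -(n : ℤ) by ring, abs_neg, abs_of_nonneg (by positivity)]
          exact_mod_cast (by omega))
      rw [show -((n : ℤ) + 1) + 1 = -(n : ℤ) by ring] at h3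
      have : φ (-((n + 1 : ℕ) : ℤ)) - φ 0 =
          -(φ (-(n : ℤ)) - φ (-((n : ℤ) + 1))) + (φ (-(n : ℤ)) - φ 0) := by
        push_cast; ring
      rw [this]
      refine (abs_add_le _ _).trans ?_
      rw [abs_neg]
      push_cast
      linarith

theorem inc_walk' (φ : ℤ → ℝ) (g : ℝ) (hg : 0 ≤ g) (τ : ℕ)
    (hstep : ∀ k : ℤ, |k| ≤ τ → |k + 1| ≤ τ → |φ (k + 1) - φ k| ≤ g) (k : ℤ) (hk : |k| ≤ τ) :
    |φ k - φ 0| ≤ τ * g := by
  have hk2 := abs_le.1 hk
  have h := inc_walk φ g τ hstep k.natAbs (by omega)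
  have hle : (k.natAbs : ℝ) * g ≤ τ * g := by
    apply mul_le_mul_of_nonneg_right _ hg
    have : k.natAbs ≤ τ := by omega
    exact_mod_cast this
  rcases Int.natAbs_eq k with h1 | h1
  · rw [h1]
    exact h.1.trans hle
  · rw [h1]
    exact h.2.trans hle

theorem inc_path (h : ℤ × ℤ → ℝ) (g : ℝ) (hg : 0 ≤ g) (τ : ℕ) (x z : ℤ × ℤ)
    (hz1 : |z.1 - x.1| ≤ τ) (hz2 : |z.2 - x.2| ≤ τ)
    (hstep : ∀ w w' : ℤ × ℤ, |w.1 - x.1| ≤ τ → |w.2 - x.2| ≤ τ → w' ∈ nbrs w →
      |h w' - h w| ≤ g) : |h z - h x| ≤ 2 * τ * g := by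
  have h1 := inc_walk' (fun k => h (x.1 + k, x.2)) g hg τ (by
    intro k hk hk'
    refine hstep (x.1 + k, x.2) (x.1 + (k + 1), x.2) (by simpa using hk) (by simp) ?_
    simp [nbrs, add_assoc]) (z.1 - x.1) hz1
  have h2 := inc_walk' (fun k => h (z.1, x.2 + k)) g hg τ (by
    intro k hk hk'
    refine hstep (z.1, x.2 + k) (z.1, x.2 + (k + 1)) (by simpa using hz1) (by simpa using hk) ?_
    simp [nbrs, add_assoc]) (z.2 - x.2) hz2
  simp only [add_zero, add_sub_cancel] at h1 h2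
  have e : h z - h x = (h (z.1, z.2) - h (z.1, x.2)) + (h (z.1, x.2) - h (x.1, x.2)) := by
    simp
  rw [e]
  refine (abs_add_le _ _).trans ?_
  linarith

theorem _root_.H941.inc_gs : ∃ C : ℝ, 0 < C ∧ ∀ (V : Finset (ℤ × ℤ)) (L r τ : ℕ) (a x z : ℤ × ℤ), 1 ≤ L → 1 ≤ τ → 4 * τ ≤ r → r ≤ 2 * L →
    (∀ y ∈ ball x r, y ∈ gridSet V L a) → z ∈ ball x τ →
    Gs V L a z z - 2 * Gs V L a z x + Gs V L a x x ≤ C * (τ / r) * (1 + Real.log (2 * L / r)) := by
  refine ⟨27, by norm_num, ?_⟩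
  intro V L r τ a x z hL hτ hτr hrL hball hz
  have hr : 1 ≤ r := by omega
  set K : ℝ := 1 + Real.log (2 * L / r) with hK
  have hr0 : (0 : ℝ) < r := by exact_mod_cast hr
  have hK1 : 0 ≤ K := by
    have : 0 ≤ Real.log (2 * L / r) := by
      apply Real.log_nonneg
      rw [le_div_iff₀ hr0, one_mul]
      exact_mod_cast hrL
    linarith
  simp only [ball, rect, Finset.mem_product, Finset.mem_Icc] at hz
  have hz1 : |z.1 - x.1| ≤ (τ : ℤ) := by rw [abs_le]; omega
  have hz2 : |z.2 - x.2| ≤ (τ : ℤ) := by rw [abs_le]; omega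
  have hρ : (0 : ℝ) < ((r - τ : ℕ) : ℝ) := by
    have : 0 < r - τ := by omega
    exact_mod_cast this
  have hρ3 : 3 / 4 * (r : ℝ) ≤ ((r - τ : ℕ) : ℝ) := by
    rw [Nat.cast_sub (by omega)]
    have : 4 * (τ : ℝ) ≤ r := by exact_mod_cast hτr
    linarith
  have main : ∀ y : ℤ × ℤ, 4 * |y.1 - x.1| ≤ (r : ℤ) → 4 * |y.2 - x.2| ≤ (r : ℤ) →
      |Gs V L a z y - Gs V L a x y| ≤ 2 * τ * (5 * K / ((r - τ : ℕ) : ℝ)) := by
    intro y hy1 hy2
    refine inc_path (fun u => Gs V L a u y) _ (by positivity) τ x z hz1 hz2 ?_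
    intro w w' hw1 hw2 hww
    refine harm_grad (fun u => Gs V L a u y) w w' hww (r - τ) (by omega) K ?_ ?_
    · intro v hv1 hv2
      apply inc_harm
      apply hball
      simp only [ball, rect, Finset.mem_product, Finset.mem_Icc]
      rw [abs_le] at hv1 hv2 hw1 hw2
      omega
    · intro v _ _
      rw [abs_of_nonneg (inc_nonneg V L a y v)]
      exact inc_bound V L r a x y hL hr hrL hball hy1 hy2 v
  have m1 := main z (by
    have : 4 * |z.1 - x.1| ≤ 4 * (τ : ℤ) := by linarith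
    omega) (by
    have : 4 * |z.2 - x.2| ≤ 4 * (τ : ℤ) := by linarith
    omega)
  have m2 := main x (by simp) (by simp)
  have e : Gs V L a z z - 2 * Gs V L a z x + Gs V L a x x =
      (Gs V L a z z - Gs V L a x z) - (Gs V L a z x - Gs V L a x x) := by
    rw [inc_symm V L a z x]
    ring
  rw [e]
  have hfin : 2 * (τ : ℝ) * (5 * K / ((r - τ : ℕ) : ℝ)) ≤ 27 / 2 * (τ / r) * K := by
    have h1 : 5 * K / ((r - τ : ℕ) : ℝ) ≤ 5 * K / (3 / 4 * (r : ℝ)) := by
      apply div_le_div_of_nonneg_left (by positivity) (by positivity) hρ3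
    have h2 : 2 * (τ : ℝ) * (5 * K / (3 / 4 * (r : ℝ))) = 40 / 3 * (τ / r) * K := by
      field_simp
      ring
    have h3 : 0 ≤ (τ / r : ℝ) * K := by positivity
    calc 2 * (τ : ℝ) * (5 * K / ((r - τ : ℕ) : ℝ)) ≤ 2 * (τ : ℝ) * (5 * K / (3 / 4 * (r : ℝ))) := by
          gcongr
      _ = 40 / 3 * (τ / r) * K := h2
      _ ≤ 27 / 2 * (τ / r) * K := by nlinarith
  have a1 := abs_le.1 m1
  have a2 := abs_le.1 m2
  linarith [a1.1, a1.2, a2.1, a2.2]

end H941.inc_gs
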