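import Pool.Agent.H941.Defs4
import Pool.Agent.H941.A3
import Pool.Agent.H941.A4
import Pool.Agent.H941.B.law_group
import Pool.Agent.H941.C.GC_facts
import Pool.Agent.H941.C.arm_abs
import Pool.Agent.H941.C.coarseC
import Pool.Agent.H941.C.gs_psd
import Pool.Agent.H941.C.levC

open MeasureTheory ProbabilityTheory

namespace H941.level_armC

section levelArmC


theorem lac_child_aux (δ : ℝ) (b : Bool) :
    ‖(1 / 2 + bsign b * δ * Complex.I : ℂ)‖ = Real.sqrt (1 + 4 * δ ^ 2) / 2 ∧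
    ‖(1 / 2 - bsign b * δ * Complex.I : ℂ)‖ = Real.sqrt (1 + 4 * δ ^ 2) / 2 := by
  have h4 : Real.sqrt (1 + 4 * δ ^ 2) / 2 = Real.sqrt ((1 + 4 * δ ^ 2) / 4) := by
    rw [Real.sqrt_div' _ (by norm_num : (0 : ℝ) ≤ 4)]
    congr 1
    rw [show (4 : ℝ) = 2 ^ 2 by norm_num]
    exact (Real.sqrt_sq (by norm_num)).symm
  have e1 : (1 / 2 + bsign b * δ * Complex.I : ℂ) =
      ⟨1 / 2, (if b then 1 else -1) * δ⟩ := by
    cases b <;> apply Complex.ext <;> simp [bsign]
  have e2 : (1 / 2 - bsign b * δ * Complex.I : ℂ) =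
      ⟨1 / 2, -((if b then 1 else -1) * δ)⟩ := by
    cases b <;> apply Complex.ext <;> simp [bsign]
  rw [e1, e2, Complex.norm_def, Complex.norm_def, Complex.normSq_mk, Complex.normSq_mk, h4]
  constructor
  · congr 1
    cases b <;> simp <;> ring
  · congr 1
    cases b <;> simp <;> ring

theorem lac_child (δ : ℝ) (hδ : 0 ≤ δ) (hδ' : δ ≤ 1 / 8) (b : Bool) (s : ℂ × ℂ) :
    (∀ k < 64, ‖(child δ b k s).2‖ = ‖s.2‖ * Real.sqrt (1 + 4 * δ ^ 2) / 64) ∧
    (∀ k < 64, ‖(child δ b k s).2‖ ≤ ‖s.2‖ / 60) ∧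
    (∀ k < 64, ∀ t' : ℝ, 0 ≤ t' → t' ≤ 1 → ∃ τ t : ℝ, 0 ≤ τ ∧ τ ≤ 1 ∧ 0 ≤ t ∧ t ≤ 1 ∧
      (child δ b k s).1 + (t' : ℂ) * (child δ b k s).2 =
        s.1 + (τ : ℂ) * s.2 + bsign b * δ * Complex.I * (t : ℂ) * s.2) := by
  obtain ⟨n1, n2⟩ := lac_child_aux δ b
  have h32 : ‖(1 / 32 : ℂ)‖ = 1 / 32 := by
    rw [show (1 / 32 : ℂ) = ((1 / 32 : ℝ) : ℂ) by push_cast; ring, Complex.norm_real]
    norm_num
  have hn : ∀ k < 64, ‖(child δ b k s).2‖ = ‖s.2‖ * Real.sqrt (1 + 4 * δ ^ 2) / 64 := by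
    intro k _
    unfold child
    split_ifs with h
    · simp only [norm_mul, h32, n1]
      ring
    · simp only [norm_mul, h32, n2]
      ring
  refine ⟨hn, ?_, ?_⟩
  · intro k hk
    rw [hn k hk]
    have h1 : Real.sqrt (1 + 4 * δ ^ 2) ≤ 16 / 15 := by
      rw [Real.sqrt_le_left (by norm_num)]
      nlinarith
    have h2 := norm_nonneg s.2
    nlinarith
  · intro k hk t' ht0 ht1
    by_cases h : k < 32
    · have hk' : (k : ℝ) ≤ 31 := by exact_mod_cast (by omega : k ≤ 31)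
      have hk0 : (0 : ℝ) ≤ k := Nat.cast_nonneg k
      refine ⟨((k : ℝ) + t') / 32 / 2, ((k : ℝ) + t') / 32, by positivity, ?_, by positivity, ?_, ?_⟩
      · linarith
      · linarith
      · unfold child
        rw [if_pos h]
        push_cast
        ring
    · have h' : 32 ≤ k := by omega
      have hk' : (k : ℝ) ≤ 63 := by exact_mod_cast (by omega : k ≤ 63)
      have hk0 : (32 : ℝ) ≤ k := by exact_mod_cast h'
      refine ⟨1 / 2 + ((k : ℝ) - 32 + t') / 32 / 2, 1 - ((k : ℝ) - 32 + t') / 32, ?_, ?_, ?_, ?_, ?_⟩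
      · linarith
      · linarith
      · linarith
      · linarith
      · unfold child
        rw [if_neg h]
        push_cast
        ring

theorem lac_bsign (b : Bool) : ‖bsign b‖ = 1 := by
  cases b <;> simp [bsign]

theorem lac_down (δ : ℕ → ℝ) (hδ : ∀ j, 0 ≤ δ j) (hδ' : ∀ j, δ j ≤ 1 / 8) (hanti : Antitone δ)
    (c : ℕ → Fin 64 × Bool) (s : ℂ × ℂ) (m : ℕ) : ∀ (i' : ℕ) (τ : ℝ), 0 ≤ τ → τ ≤ 1 →
    ∃ τ' : ℝ, 0 ≤ τ' ∧ τ' ≤ 1 ∧
      ‖((pst δ 0 s c (i' + m)).1 + (τ : ℂ) * (pst δ 0 s c (i' + m)).2)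
          - ((pst δ 0 s c i').1 + (τ' : ℂ) * (pst δ 0 s c i').2)‖ ≤
        (60 / 59) * (δ i' * ‖(pst δ 0 s c i').2‖) := by
  induction m with
  | zero =>
    intro i' τ h0 h1
    refine ⟨τ, h0, h1, ?_⟩
    rw [Nat.add_zero, sub_self, norm_zero]
    have := mul_nonneg (hδ i') (norm_nonneg (pst δ 0 s c i').2)
    linarith
  | succ m ih =>
    intro i' τ h0 h1
    obtain ⟨τ₁, b0, b1, b2⟩ := ih (i' + 1) τ h0 h1
    have he : i' + 1 + m = i' + (m + 1) := by ring
    rw [he] at b2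
    obtain ⟨-, f2, f6⟩ := lac_child (δ i') (hδ i') (hδ' i') (c i').2 (pst δ 0 s c i')
    have hP : pst δ 0 s c (i' + 1) = child (δ i') (c i').2 ((c i').1 : ℕ) (pst δ 0 s c i') := by
      rw [pst, Nat.zero_add]
    obtain ⟨τ', t, a1, a2, a3, a4, a6⟩ := f6 ((c i').1 : ℕ) (c i').1.2 τ₁ b0 b1
    refine ⟨τ', a1, a2, ?_⟩
    rw [← hP] at a6
    rw [a6] at b2
    have h2 := f2 ((c i').1 : ℕ) (c i').1.2
    rw [← hP] at h2
    have h3 : δ (i' + 1) ≤ δ i' := hanti (Nat.le_succ _)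
    have h4 : δ (i' + 1) * ‖(pst δ 0 s c (i' + 1)).2‖ ≤ δ i' * (‖(pst δ 0 s c i').2‖ / 60) :=
      mul_le_mul h3 h2 (norm_nonneg _) (hδ i')
    set z := (pst δ 0 s c (i' + (m + 1))).1 + (τ : ℂ) * (pst δ 0 s c (i' + (m + 1))).2 with hz
    set w := (pst δ 0 s c i').2 with hw
    set p := (pst δ 0 s c i').1 with hp
    have h5 : z - (p + (τ' : ℂ) * w) =
        (z - (p + (τ' : ℂ) * w + bsign (c i').2 * (δ i' : ℂ) * Complex.I * (t : ℂ) * w))
        + bsign (c i').2 * (δ i' : ℂ) * Complex.I * (t : ℂ) * w := by ring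
    rw [h5]
    refine (norm_add_le _ _).trans ?_
    have h6 : ‖bsign (c i').2 * (δ i' : ℂ) * Complex.I * (t : ℂ) * w‖ = δ i' * t * ‖w‖ := by
      rw [norm_mul, norm_mul, norm_mul, norm_mul, lac_bsign, Complex.norm_I, Complex.norm_real,
        Complex.norm_real, Real.norm_of_nonneg (hδ i'), Real.norm_of_nonneg a3]
      ring
    rw [h6]
    have h7 : δ i' * t * ‖w‖ ≤ δ i' * ‖w‖ := by
      have : δ i' * t ≤ δ i' := by
        have := mul_le_mul_of_nonneg_left a4 (hδ i')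
        linarith
      exact mul_le_mul_of_nonneg_right this (norm_nonneg _)
    linarith

theorem lac_bb_pos (k : ℕ) : 0 < bb k := by
  unfold bb bd
  positivity

theorem lac_bb_le (k : ℕ) : bb k ≤ 1 / 100 := by
  unfold bb bd
  have hk : (0 : ℝ) ≤ k := Nat.cast_nonneg k
  have : ((k : ℝ) + 1) ^ (-(3 / 5) : ℝ) ≤ 1 :=
    Real.rpow_le_one_of_one_le_of_nonpos (by linarith) (by norm_num)
  nlinarith

theorem lac_bb_anti : Antitone bb := by
  intro a b hab
  unfold bb bd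
  have h1 : (a : ℝ) ≤ b := Nat.cast_le.2 hab
  have h2 : (0 : ℝ) ≤ a := Nat.cast_nonneg a
  have := Real.rpow_le_rpow_of_nonpos (x := (a : ℝ) + 1) (y := (b : ℝ) + 1) (z := -(3 / 5))
    (by linarith) (by linarith) (by norm_num)
  exact mul_le_mul_of_nonneg_left this (by norm_num)

theorem lac_rd (z : ℂ) : ‖toC (rd z) - z‖ ≤ 2 := by
  refine (Complex.norm_le_abs_re_add_abs_im _).trans ?_
  have h1 : (toC (rd z) - z).re = (⌊z.re⌋ : ℝ) - z.re := rfl
  have h2 : (toC (rd z) - z).im = (⌊z.im⌋ : ℝ) - z.im := rfl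
  rw [h1, h2]
  have a1 := Int.floor_le z.re
  have a2 := Int.lt_floor_add_one z.re
  have a3 := Int.floor_le z.im
  have a4 := Int.lt_floor_add_one z.im
  have b1 : |(⌊z.re⌋ : ℝ) - z.re| ≤ 1 := by rw [abs_le]; constructor <;> linarith
  have b2 : |(⌊z.im⌋ : ℝ) - z.im| ≤ 1 := by rw [abs_le]; constructor <;> linarith
  linarith

theorem lac_toC (z y : ℤ × ℤ) (M : ℤ) (h1 : |z.1 - y.1| ≤ M) (h2 : |z.2 - y.2| ≤ M) :
    ‖toC z - toC y‖ ≤ 2 * (M : ℝ) := by
  refine (Complex.norm_le_abs_re_add_abs_im _).trans ?_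
  have e1 : (toC z - toC y).re = ((z.1 - y.1 : ℤ) : ℝ) := by
    simp [toC]
  have e2 : (toC z - toC y).im = ((z.2 - y.2 : ℤ) : ℝ) := by
    simp [toC]
  rw [e1, e2, ← Int.cast_abs, ← Int.cast_abs]
  have b1 : ((|z.1 - y.1| : ℤ) : ℝ) ≤ (M : ℝ) := by exact_mod_cast h1
  have b2 : ((|z.2 - y.2| : ℤ) : ℝ) ≤ (M : ℝ) := by exact_mod_cast h2
  linarith

theorem lac_meas {w : ℕ} (b : Bool) (i : ℕ) (seg : ℂ × ℂ) : MeasurableSet (sC w b i seg) := by
  unfold sC
  refine measurableSet_le ?_ measurable_const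
  fun_prop

theorem lac_place {o : Bool} {t cs : ℤ × ℤ} {W : ℕ} (ht : armAt cs W o t) :
    ∀ z ∈ (Dw W).image (place o t),
      |z.1 - cs.1| ≤ 4 * (W : ℤ) ∧ |z.2 - cs.2| ≤ 4 * (W : ℤ) := by
  intro z hz
  obtain ⟨v, hv, rfl⟩ := Finset.mem_image.1 hz
  simp only [Dw, rect, Finset.mem_product, Finset.mem_Icc] at hv
  obtain ⟨⟨h1, h2⟩, h3, h4⟩ := hv
  unfold armAt at ht
  rcases ht with ⟨rfl, rfl⟩ | ⟨rfl, rfl⟩ | ⟨rfl, rfl⟩ | ⟨rfl, rfl⟩ <;>
    simp only [place, if_true, Bool.false_eq_true, if_false] <;>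
    constructor <;> rw [abs_le] <;> constructor <;> linarith

theorem lac_ball {o : Bool} {t : ℤ × ℤ} {W r : ℕ} (hr : 4 * W ≤ r) :
    ∀ z ∈ (Dw W).image (place o t), z ∈ ball (xa o t W) (r : ℤ) := by
  intro z hz
  obtain ⟨v, hv, rfl⟩ := Finset.mem_image.1 hz
  simp only [Dw, rect, Finset.mem_product, Finset.mem_Icc] at hv
  obtain ⟨⟨h1, h2⟩, h3, h4⟩ := hv
  have hr' : 4 * (W : ℤ) ≤ r := by exact_mod_cast hr
  have h5 : (0 : ℤ) ≤ ((W / 2 : ℕ) : ℤ) := Int.natCast_nonneg _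
  have h6 : ((W / 2 : ℕ) : ℤ) ≤ W := by exact_mod_cast Nat.div_le_self W 2
  simp only [ball, rect, xa, Finset.mem_product, Finset.mem_Icc]
  cases o <;> simp only [place, if_true, Bool.false_eq_true, if_false] <;>
    refine ⟨⟨?_, ?_⟩, ?_, ?_⟩ <;> linarith

theorem lac_sum {M : Type*} [AddCommMonoid M] (n j : ℕ) (hj : j ≤ n) (ω : Fin (n + 1) → M) :
    ∑ k : Fin (j + 1), (if h : (k : ℕ) < j then ω ⟨k, by omega⟩ else
      ∑ i : Fin (n + 1), if (i : ℕ) < j then 0 else ω i) = ∑ i, ω i := by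
  rw [Fin.sum_univ_castSucc]
  have e1 : (∑ k : Fin j, (if h : ((k.castSucc : Fin (j + 1)) : ℕ) < j then
      ω ⟨(k.castSucc : Fin (j + 1)), by omega⟩ else
      ∑ i : Fin (n + 1), if (i : ℕ) < j then 0 else ω i)) =
      ∑ i : Fin (n + 1), if (i : ℕ) < j then ω i else 0 := by
    rw [← Finset.sum_filter]
    refine Finset.sum_bij (fun k _ => ⟨k, by omega⟩) ?_ ?_ ?_ ?_
    · intro k _
      simp
    · intro a _ b _ h
      exact Fin.ext (by simpa using h)
    · intro b hb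
      simp only [Finset.mem_filter, Finset.mem_univ, true_and] at hb
      exact ⟨⟨b, hb⟩, Finset.mem_univ _, rfl⟩
    · intro k _
      rw [dif_pos (by simp)]
      rfl
  rw [e1]
  simp only [Fin.val_last, lt_irrefl, dite_false]
  rw [← Finset.sum_add_distrib]
  refine Finset.sum_congr rfl fun i _ => ?_
  split_ifs <;> simp

/-- the placed rectangle lies in the domain -/
theorem lac_sub {u w : ℕ} (h : ParC u w) {i : ℕ} (hi2 : 2 ≤ i) (hi : i ≤ nb u w)
    (c : ℕ → Fin 64 × Bool) {o : Bool} {t : ℤ × ℤ}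
    (ht : armAt (mid (ps w c i)) (wi w i) o t) :
    (Dw (wi w i)).image (place o t) ⊆ Dw w := by
  intro z hz
  obtain ⟨a1, a2⟩ := lac_place ht z hz
  obtain ⟨τ', b0, b1, b2⟩ := lac_down bb (fun j => (lac_bb_pos j).le)
    (fun j => (lac_bb_le j).trans (by norm_num)) lac_bb_anti c (sg0 w) i 0 (1 / 2) (by norm_num)
    (by norm_num)
  rw [Nat.zero_add] at b2
  refine h.bulkD z τ' b0 b1 ?_
  have n1 := lac_toC z _ _ a1 a2
  have n2 := lac_rd ((ps w c i).1 + (1 / 2) * (ps w c i).2)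
  have n3 : ‖(sg0 w).2‖ = 5 * w := by
    have : (sg0 w).2 = ((5 * w : ℕ) : ℂ) := rfl
    rw [this, Complex.norm_natCast]
    push_cast
    ring
  have n4 : pst bb 0 (sg0 w) c 0 = sg0 w := rfl
  have n5 : pst bb 0 (sg0 w) c i = ps w c i := rfl
  rw [n4, n5, n3] at b2
  have e : (((1 / 2 : ℝ)) : ℂ) = 1 / 2 := by norm_num
  rw [e] at b2
  have n6 := norm_add_le (toC z - toC (mid (ps w c i)))
    (toC (mid (ps w c i)) - ((ps w c i).1 + (1 / 2) * (ps w c i).2))
  rw [sub_add_sub_cancel] at n6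
  have n7 := norm_add_le (toC z - ((ps w c i).1 + (1 / 2) * (ps w c i).2))
    ((ps w c i).1 + (1 / 2) * (ps w c i).2 - ((sg0 w).1 + (τ' : ℂ) * (sg0 w).2))
  rw [sub_add_sub_cancel] at n7
  have n8 : ‖toC (mid (ps w c i)) - ((ps w c i).1 + (1 / 2) * (ps w c i).2)‖ ≤ 2 := n2
  have h0 : bb 0 ≤ 1 / 100 := lac_bb_le 0
  obtain ⟨g1, -, g3⟩ := h.wi_ge i hi
  have g4 : 64 ^ 2 * wi w i ≤ 6 * w :=
    (Nat.mul_le_mul_right _ (Nat.pow_le_pow_right (by norm_num) hi2)).trans g3
  have g5 : 10 ^ 6 ≤ wi w i := by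
    refine (h.u_ge.trans ?_).trans g1
    calc u ≤ Nat.log 2 w + u := Nat.le_add_left _ _
      _ ≤ (Nat.log 2 w + u) ^ 16 := Nat.le_self_pow (by norm_num) _
  have g4' : (64 : ℝ) ^ 2 * wi w i ≤ 6 * w := by exact_mod_cast g4
  have g5' : (10 : ℝ) ^ 6 ≤ wi w i := by exact_mod_cast g5
  have hw : (0 : ℝ) ≤ w := Nat.cast_nonneg w
  have h1 : bb 0 * (5 * (w : ℝ)) ≤ 1 / 100 * (5 * w) :=
    mul_le_mul_of_nonneg_right h0 (by positivity)
  push_cast at n1
  linarith

end levelArmC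


theorem _root_.H941.level_armC : ∃ C c1 : ℝ, 1 ≤ C ∧ 0 < c1 ∧ c1 ≤ 1 ∧ ∀ (u w : ℕ), ParC u w → ∀ i, 2 ≤ i → i ≤ nb u w →
    ∀ (a : ℤ × ℤ) (c : ℕ → Fin 64 × Bool),
    (PC u w a {ω | ∀ k : Fin (nb u w + 1), (k : ℕ) < i - gap u i → ω k ∈ sC w (c k).2 k (ps w c k)} ≤ ENNReal.ofReal ((1 / 2) ^ (i - gap u i))) ∧
    ∀ (o : Bool) (t : ℤ × ℤ) (θ g len p2 : ℝ), 0 ≤ θ → θ ≤ 1 → 0 ≤ p2 →
      gf (Dw (wi w i)) (Dw (wi w i)) {x | ¬ armOK true (0, 0) (wi w i) (di u w i) g len (extf (Dw (wi w i)) x)} ≤ ENNReal.ofReal p2 →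
      armAt (mid (ps w c i)) (wi w i) o t → clr w (wi w i) (i - gap u i) a (xa o t (wi w i)) →
      PC u w a {ω | (∀ k : Fin (nb u w + 1), (k : ℕ) < i - gap u i → ω k ∈ sC w (c k).2 k (ps w c k)) ∧
          ¬ armOK o t (wi w i) (di u w i) u len (extf (Dw w) (∑ k, ω k))} ≤
      ENNReal.ofReal ((1 / 2) ^ (i - gap u i) * (p2 + Real.exp (-(θ * (u - 5 / 4 * g)) + θ ^ 2 * (3 * i + 10) / 2) *
          (∏ k ∈ Finset.range (i - gap u i), (if @decide (24 ≤ ((c k).1 : ℕ) ∧ ((c k).1 : ℕ) < 40 ∧ bulk (cc w k) a (xa o t (wi w i))) (Classical.dec _) = true then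
            Real.exp (-(c1 * (θ * Real.sqrt (bb k)))) else 1)) + C * ((i : ℝ) + u) ^ C * Real.exp (-(g / 4)))) := by
  classical
  obtain ⟨C, c1, hC, hc1, hc1', hcb⟩ := coarseC
  obtain ⟨c2, -, -, hlev⟩ := levC
  refine ⟨C, c1, hC, hc1, hc1', ?_⟩
  intro u w h i hi2 hi a c
  have hjn : i - gap u i ≤ nb u w := by omega
  have hgap : 1 ≤ gap u i := by unfold gap; omega
  have hhalf : ∀ k < nb u w, multivariateGaussian (0 : EuclideanSpace ℝ ↥(Dw w)) (GC u w a k)
      (sC w (c k).2 k (ps w c k)) ≤ 1 / 2 := fun k hk => (hlev u w h a c k hk).2.1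
  have e2 : (1 / 2 : ENNReal) = ENNReal.ofReal (1 / 2) := by
    rw [ENNReal.ofReal_div_of_pos (by norm_num)]
    simp
  constructor
  · -- the signs alone
    have hset : {ω : Fin (nb u w + 1) → EuclideanSpace ℝ ↥(Dw w) |
        ∀ k : Fin (nb u w + 1), (k : ℕ) < i - gap u i → ω k ∈ sC w (c k).2 k (ps w c k)} =
        Set.univ.pi fun k : Fin (nb u w + 1) =>
          if (k : ℕ) < i - gap u i then sC w (c k).2 k (ps w c k) else Set.univ := by
      ext ω
      simp only [Set.mem_ofPred_eq, Set.mem_pi, Set.mem_univ, true_implies]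
      refine forall_congr' fun k => ?_
      split_ifs with hk
      · simp [hk]
      · simp [hk]
    rw [hset]
    unfold PC
    rw [Measure.pi_pi]
    have hle : ∀ k : Fin (nb u w + 1), multivariateGaussian (0 : EuclideanSpace ℝ ↥(Dw w))
        (GC u w a k) (if (k : ℕ) < i - gap u i then sC w (c k).2 k (ps w c k) else Set.univ) ≤
        if (k : ℕ) < i - gap u i then (1 / 2 : ENNReal) else 1 := by
      intro k
      split_ifs with hk
      · exact hhalf k (by omega)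
      · exact prob_le_one
    refine (Finset.prod_le_prod' fun k _ => hle k).trans ?_
    rw [← Finset.prod_filter, Finset.prod_const, e2, ENNReal.ofReal_pow (by norm_num)]
    have hcard : (Finset.univ.filter fun k : Fin (nb u w + 1) => (k : ℕ) < i - gap u i).card =
        i - gap u i := by
      have := Fin.card_filter_val_lt (n := nb u w + 1) (m := i - gap u i)
      rw [this]
      omega
    rw [hcard]
  · intro o t θ g len p2 hθ hθ' hp2 hloc ht hclr
    obtain ⟨hG1, -, hG3⟩ := GC_facts u w h a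
    obtain ⟨g1, -, g3⟩ := h.wi_ge i hi
    obtain ⟨d1, d2, -⟩ := h.di_ge i hi
    have hDV := lac_sub h hi2 hi c ht
    have hgrid : 1 ≤ i - gap u i → (Dw (wi w i)).image (place o t) ⊆
        gridSet (Dw w) (cc w (i - gap u i - 1)) a := by
      intro hj z hz
      refine hclr (i - gap u i - 1) (by omega) z ?_
      refine lac_ball ?_ z hz
      rw [Nat.le_sqrt]
      have hn := h.near i hi (i - gap u i - 1) (by omega)
      rw [Nat.sub_self, pow_zero, mul_one] at hn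
      have hpow : 16 ≤ (i + u) ^ 34 := by
        have h1 : 16 ≤ i + u := by
          have := h.u_ge
          omega
        exact h1.trans (Nat.le_self_pow (by norm_num) _)
      calc 4 * wi w i * (4 * wi w i) = wi w i * (wi w i * 16) := by ring
        _ ≤ wi w i * (wi w i * (i + u) ^ 34) :=
          Nat.mul_le_mul_left _ (Nat.mul_le_mul_left _ hpow)
        _ ≤ wi w i * cc w (i - gap u i - 1) := Nat.mul_le_mul_left _ hn
    have hA := (gs_psd (Dw w) (Dw w) ((Dw (wi w i)).image (place o t)) (cc w) a (i - gap u i)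
      (fun i' hi' => (h.cc_dvd i' (by omega)).1) hDV hgrid).2
    -- the covariance matrices after grouping
    have hΓ : ∀ k : Fin (i - gap u i + 1), (if (k : ℕ) < i - gap u i then GC u w a k else
        ∑ i' ∈ Finset.Ico (i - gap u i) (nb u w + 1), GC u w a i').PosSemidef := by
      intro k
      split_ifs
      · exact hG1 _
      · exact Matrix.posSemidef_sum (Finset.Ico (i - gap u i) (nb u w + 1)) (fun k _ => hG1 k)
    have hlaw := law_group (nb u w) (i - gap u i) hjn (GC u w a) hG1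
    have hcoarse := hcb u w h i hi2 hi a c o t θ g hθ hθ' ht hclr _ hA rfl
    have hBd : 0 ≤ ((1 / 2) ^ (i - gap u i) * (Real.exp (-(θ * (u - 5 / 4 * g)) + θ ^ 2 * (3 * i + 10) / 2) *
          (∏ k ∈ Finset.range (i - gap u i), (if @decide (24 ≤ ((c k).1 : ℕ) ∧ ((c k).1 : ℕ) < 40 ∧ bulk (cc w k) a (xa o t (wi w i))) (Classical.dec _) = true then
            Real.exp (-(c1 * (θ * Real.sqrt (bb k)))) else 1)) + C * ((i : ℝ) + u) ^ C * Real.exp (-(g / 4)))) := by
      have : 0 ≤ (∏ k ∈ Finset.range (i - gap u i), (if @decide (24 ≤ ((c k).1 : ℕ) ∧ ((c k).1 : ℕ) < 40 ∧ bulk (cc w k) a (xa o t (wi w i))) (Classical.dec _) = true then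
            Real.exp (-(c1 * (θ * Real.sqrt (bb k)))) else 1)) := by
        refine Finset.prod_nonneg fun k _ => ?_
        split_ifs <;> positivity
      have hC' : 0 ≤ C := by linarith
      positivity
    have harm := arm_abs (Dw w) o t (wi w i) (di u w i) u g len p2 (by omega) (by omega) hp2
      hDV hloc (i - gap u i)
      (fun k => if (k : ℕ) < i - gap u i then GC u w a k else
        ∑ i' ∈ Finset.Ico (i - gap u i) (nb u w + 1), GC u w a i') hΓ _ hA (by
        simp only [Fin.val_last, lt_irrefl, if_false]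
        rw [hG3 _ hjn]
        ext x y
        simp only [Matrix.of_apply, Matrix.add_apply]
        ring)
      (fun k => sC w (c k).2 k (ps w c k)) (fun k => lac_meas _ _ _)
      (fun k => by
        have hk : (k.castSucc : ℕ) < i - gap u i := by simp
        simp only [hk, if_true]
        exact hhalf k (by omega)) _ hBd (by
        refine le_trans (le_of_eq ?_) hcoarse
        congr 2
        funext k
        by_cases hk : k = Fin.last (i - gap u i)
        · simp only [hk, if_true]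
        · have hk' : (k : ℕ) < i - gap u i := by
            have := k.2
            have h2 : (k : ℕ) ≠ i - gap u i := fun h => hk (Fin.ext h)
            omega
          simp only [hk, if_false, hk', if_true])
    refine le_trans ?_ (harm.trans (le_of_eq ?_))
    · unfold PC
      rw [← hlaw]
      refine le_trans (measure_mono ?_) (Measure.le_map_apply ?_ _)
      · rintro ω ⟨h1, h2⟩
        refine ⟨fun k => ?_, ?_⟩
        · have hk : ((k.castSucc : Fin (i - gap u i + 1)) : ℕ) < i - gap u i := by simp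
          simp only [hk, dite_true]
          exact h1 ⟨(k.castSucc : Fin (i - gap u i + 1)), by omega⟩ hk
        · intro h3
          apply h2
          rw [lac_sum (nb u w) (i - gap u i) hjn ω] at h3
          exact h3
      · refine Measurable.aemeasurable ?_
        refine measurable_pi_lambda _ fun k => ?_
        split_ifs
        · exact measurable_pi_apply _
        · refine Finset.measurable_sum _ fun i' _ => ?_
          split_ifs
          · exact measurable_const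
          · exact measurable_pi_apply _
    · congr 1
      ring

end H941.level_armC
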