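import Pool.Agent.H941.Defs4
import Pool.Agent.H941.B.pst_near
import Pool.Agent.H941.C.bulk_avg
import Pool.Agent.H941.C.level_armC
import Pool.Agent.H941.C.near_avg

open MeasureTheory ProbabilityTheory

namespace H941.avg_circ

theorem bb_nonneg' (i : ℕ) : 0 ≤ bb i := by unfold bb bd; positivity

theorem bb_anti' : Antitone bb := by
  intro a b h
  unfold bb bd
  apply mul_le_mul_of_nonneg_left _ (by norm_num)
  apply Real.rpow_le_rpow_of_nonpos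
  · positivity
  · have : (a : ℝ) ≤ b := by exact_mod_cast h
    linarith
  · norm_num

theorem bb_zero' : bb 0 = 1 / 100 := by
  simp [bb, bd]

theorem bb_le' (i : ℕ) : bb i ≤ 1 / 100 := by
  rw [← bb_zero']
  exact bb_anti' (Nat.zero_le i)

theorem rd_near (p : ℂ) : ‖toC (rd p) - p‖ ≤ 2 := by
  refine (Complex.norm_le_abs_re_add_abs_im _).trans ?_
  have h1 : |(toC (rd p) - p).re| ≤ 1 := by
    simp only [toC, rd, Complex.sub_re]
    rw [abs_le]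
    have := Int.floor_le p.re
    have := Int.lt_floor_add_one p.re
    constructor <;> linarith
  have h2 : |(toC (rd p) - p).im| ≤ 1 := by
    simp only [toC, rd, Complex.sub_im]
    rw [abs_le]
    have := Int.floor_le p.im
    have := Int.lt_floor_add_one p.im
    constructor <;> linarith
  linarith

theorem W_ge (u w : ℕ) (hP : ParC u w) (i : ℕ) (hi : i ≤ nb u w) : 10 ^ 6 ≤ wi w i := by
  obtain ⟨h1, -, -⟩ := hP.wi_ge i hi
  have hu := hP.u_ge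
  have : Nat.log 2 w + u ≤ (Nat.log 2 w + u) ^ 16 := Nat.le_self_pow (by norm_num) _
  omega

theorem ball_sub (u w : ℕ) (hP : ParC u w) (i : ℕ) (h2 : 2 ≤ i) (hi : i ≤ nb u w) (c : ℕ → Fin 64 × Bool)
    (o : Bool) (t : ℤ × ℤ) (ha : armAt (mid (ps w c i)) (wi w i) o t) (k : ℕ) (hk : k < i - gap u i)
    (z : ℤ × ℤ) (hz : z ∈ ball (xa o t (wi w i)) ((Nat.sqrt (wi w i * cc w k) : ℕ) : ℤ)) : z ∈ Dw w := by
  have hW10 := W_ge u w hP i hi
  obtain ⟨h1, h5, h6⟩ := hP.wi_ge i hi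
  have hkn : k < nb u w := by omega
  obtain ⟨hc16, hc2, hc3⟩ := hP.cc_fac k hkn
  have hkll := hP.ll_le k hkn.le
  obtain ⟨-, -, h6k⟩ := hP.wi_ge k hkn.le
  generalize hW : wi w i = W at *
  generalize hr0 : Nat.sqrt (W * cc w k) = r at *
  have hWw : (W : ℝ) * 4096 ≤ 6 * w := by
    have h : 64 ^ 2 * W ≤ 6 * w :=
      (Nat.mul_le_mul_right _ (Nat.pow_le_pow_right (by norm_num) h2)).trans h6
    have : ((64 ^ 2 * W : ℕ) : ℝ) ≤ ((6 * w : ℕ) : ℝ) := by exact_mod_cast h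
    push_cast at this; linarith
  have hW6 : (10 : ℝ) ^ 6 ≤ W := by exact_mod_cast hW10
  have hkw : (wi w k : ℝ) ≤ 6 * w := by
    have h : wi w k ≤ 6 * w := (Nat.le_mul_of_pos_left _ (by positivity)).trans h6k
    exact_mod_cast h
  have hcc : (cc w k : ℝ) * 3200 ≤ 6 * w := by
    have hb := bb_le' k
    have hb0 := bb_nonneg' k
    have : bb k * ll w k ≤ 1 / 100 * (6 * w) := by
      have h6w : (0 : ℝ) ≤ 6 * w := by positivity
      calc bb k * ll w k ≤ bb k * (6 * w) := mul_le_mul_of_nonneg_left (hkll.trans hkw) hb0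
        _ ≤ 1 / 100 * (6 * w) := mul_le_mul_of_nonneg_right hb h6w
    linarith
  have hr : (r : ℝ) ≤ w / 500 := by
    have hsq : r ^ 2 ≤ W * cc w k := by rw [← hr0]; exact Nat.sqrt_le' _
    have hsq' : (r : ℝ) ^ 2 ≤ W * cc w k := by exact_mod_cast hsq
    have hc0 : (0 : ℝ) ≤ cc w k := by positivity
    have hw0 : (0 : ℝ) ≤ w := by positivity
    have h3 : (W : ℝ) * cc w k ≤ (6 * w / 4096) * (6 * w / 3200) := by
      apply mul_le_mul <;> linarith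
    have h4 : (r : ℝ) ^ 2 ≤ (w / 500) ^ 2 := by nlinarith
    exact le_of_sq_le_sq h4 (by positivity)
  -- coordinates
  have hm : |z.1 - (mid (ps w c i)).1| ≤ r + 2 * (W : ℤ) ∧ |z.2 - (mid (ps w c i)).2| ≤ r + 2 * (W : ℤ) := by
    simp only [ball, rect, Finset.mem_product, Finset.mem_Icc] at hz
    generalize mid (ps w c i) = m at *
    obtain ⟨⟨z1, z2⟩, z3, z4⟩ := hz
    have hW2 : ((W / 2 : ℕ) : ℤ) ≤ W := by exact_mod_cast Nat.div_le_self W 2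
    have hW20 : (0 : ℤ) ≤ ((W / 2 : ℕ) : ℤ) := by positivity
    rcases ha with ⟨rfl, rfl⟩ | ⟨rfl, rfl⟩ | ⟨rfl, rfl⟩ | ⟨rfl, rfl⟩ <;>
      simp only [xa, place, if_true, Bool.false_eq_true, if_false] at z1 z2 z3 z4 <;>
      rw [abs_le, abs_le] <;> refine ⟨⟨?_, ?_⟩, ?_, ?_⟩ <;> omega
  obtain ⟨hm1, hm2⟩ := hm
  have hd1 : ‖toC z - toC (mid (ps w c i))‖ ≤ 2 * (r + 2 * W) := by
    refine (Complex.norm_le_abs_re_add_abs_im _).trans ?_
    have e1 : |(toC z - toC (mid (ps w c i))).re| ≤ r + 2 * W := by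
      simp only [toC, Complex.sub_re]
      exact_mod_cast hm1
    have e2 : |(toC z - toC (mid (ps w c i))).im| ≤ r + 2 * W := by
      simp only [toC, Complex.sub_im]
      exact_mod_cast hm2
    linarith
  have hd2 : ‖toC (mid (ps w c i)) - ((ps w c i).1 + (1 / 2) * (ps w c i).2)‖ ≤ 2 := rd_near _
  obtain ⟨-, hn, -⟩ := pst_near bb bb_nonneg' (fun j => (bb_le' j).trans (by norm_num)) bb_anti' c (sg0 w) i
  obtain ⟨τ, hτ0, hτ1, hτ⟩ := hn i le_rfl (1 / 2) (by norm_num) (by norm_num)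
  have hd3 : ‖((ps w c i).1 + (1 / 2) * (ps w c i).2) - ((sg0 w).1 + (τ : ℂ) * (sg0 w).2)‖ ≤ 3 * w / 59 := by
    have e : (((1 / 2 : ℝ)) : ℂ) = 1 / 2 := by push_cast; ring
    rw [e] at hτ
    refine hτ.trans ?_
    rw [bb_zero']
    have : ‖(sg0 w).2‖ = 5 * w := by
      simp [sg0]
    rw [this]
    linarith
  apply hP.bulkD z τ hτ0 hτ1
  have h3 : ‖toC z - ((sg0 w).1 + (τ : ℂ) * (sg0 w).2)‖ ≤ 2 * (r + 2 * W) + 2 + 3 * w / 59 := by
    calc ‖toC z - ((sg0 w).1 + (τ : ℂ) * (sg0 w).2)‖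
        = ‖(toC z - toC (mid (ps w c i))) + (toC (mid (ps w c i)) - ((ps w c i).1 + (1 / 2) * (ps w c i).2))
          + (((ps w c i).1 + (1 / 2) * (ps w c i).2) - ((sg0 w).1 + (τ : ℂ) * (sg0 w).2))‖ := by congr 1; ring
      _ ≤ _ := (norm_add_le _ _).trans (add_le_add ((norm_add_le _ _).trans (add_le_add hd1 hd2)) hd3)
  refine h3.trans ?_
  have hw0 : (0 : ℝ) ≤ w := by positivity
  linarith

theorem gap_ge (u i : ℕ) : 6 ≤ gap u i := by unfold gap; omega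

theorem geo8 (j : ℕ) : ∑ k ∈ Finset.range j, ((1 : ℝ) / 8) ^ (j - 1 - k) ≤ 8 / 7 := by
  rw [Finset.sum_range_reflect (fun k => ((1 : ℝ) / 8) ^ k) j]
  rw [geom_sum_eq (by norm_num)]
  have : (0 : ℝ) ≤ (1 / 8) ^ j := by positivity
  rw [div_le_iff_of_neg (by norm_num)]
  linarith

theorem count_bad (u w : ℕ) (hP : ParC u w) (i : ℕ) (h2 : 2 ≤ i) (hi : i ≤ nb u w) (c : ℕ → Fin 64 × Bool)
    (o : Bool) (t : ℤ × ℤ) (ha : armAt (mid (ps w c i)) (wi w i) o t) :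
    ((((Finset.range (2 * cc w 0)) ×ˢ (Finset.range (2 * cc w 0))).filter
      (fun a : ℕ × ℕ => @decide (¬ clr w (wi w i) (i - gap u i) ((a.1 : ℤ), (a.2 : ℤ)) (xa o t (wi w i)))
        (Classical.dec _) = true)).card : ℝ) ≤ 7 * (2 * (cc w 0 : ℝ)) ^ 2 / ((i : ℝ) + u) ^ 17 := by
  classical
  have hbs := ball_sub u w hP i h2 hi c o t ha
  have hW10 := W_ge u w hP i hi
  have hnear := hP.near i hi
  generalize hj : i - gap u i = j at *
  generalize hW : wi w i = W at *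
  generalize hx : xa o t W = x at *
  set S : ℕ → Finset (ℕ × ℕ) := fun k => ((Finset.range (2 * cc w 0)) ×ˢ (Finset.range (2 * cc w 0))).filter
    (fun a : ℕ × ℕ => @decide (∃ z : ℤ × ℤ, |z.1 - x.1| ≤ ((Nat.sqrt (W * cc w k) : ℕ) : ℤ) ∧ |z.2 - x.2| ≤ ((Nat.sqrt (W * cc w k) : ℕ) : ℤ) ∧
        (((cc w k : ℕ) : ℤ) ∣ z.1 - a.1 ∨ ((cc w k : ℕ) : ℤ) ∣ z.2 - a.2)) (Classical.dec _) = true) with hS
  have hsub : ((Finset.range (2 * cc w 0)) ×ˢ (Finset.range (2 * cc w 0))).filter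
      (fun a : ℕ × ℕ => @decide (¬ clr w W j ((a.1 : ℤ), (a.2 : ℤ)) x) (Classical.dec _) = true) ⊆
      (Finset.range j).biUnion S := by
    intro a ha'
    simp only [hS, Finset.mem_filter, decide_eq_true_eq, Finset.mem_biUnion, Finset.mem_range] at ha' ⊢
    obtain ⟨ha1, ha2⟩ := ha'
    unfold clr at ha2
    push Not at ha2
    obtain ⟨k, hk, z, hz, hz2⟩ := ha2
    refine ⟨k, hk, ha1, z, ?_, ?_, ?_⟩
    · simp only [ball, rect, Finset.mem_product, Finset.mem_Icc] at hz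
      rw [abs_le]; constructor <;> linarith [hz.1.1, hz.1.2]
    · simp only [ball, rect, Finset.mem_product, Finset.mem_Icc] at hz
      rw [abs_le]; constructor <;> linarith [hz.2.1, hz.2.2]
    · have hD := hbs k hk z hz
      unfold gridSet at hz2
      rw [Finset.mem_filter] at hz2
      push Not at hz2
      by_contra hcon
      push Not at hcon
      exact hcon.2 (hz2 hD hcon.1)
  have hiu : (1 : ℝ) ≤ (i : ℝ) + u := by
    have : (2 : ℝ) ≤ i := by exact_mod_cast h2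
    have : (0 : ℝ) ≤ u := by positivity
    linarith
  have hcard : ∀ k ∈ Finset.range j, ((S k).card : ℝ) ≤ 6 * (2 * (cc w 0 : ℝ)) ^ 2 / ((i : ℝ) + u) ^ 17 * (1 / 8) ^ (j - 1 - k) := by
    intro k hk
    rw [Finset.mem_range] at hk
    have hkn : k < nb u w := by omega
    have hc16 := (hP.cc_fac k hkn).1
    have hdv : cc w k ∣ 2 * cc w 0 := (Dvd.intro_left 2 rfl).trans (hP.cc_dvd0 k hkn)
    have hav := near_avg (2 * cc w 0) (cc w k) (Nat.sqrt (W * cc w k)) (by omega) hdv x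
    have hnk := hnear k (by omega)
    have hj1 : i - gap u i - 1 - k = j - 1 - k := by omega
    have hexp : j - 1 - k = j - 1 - k := rfl
    have hsq : (Nat.sqrt (W * cc w k)) ^ 2 ≤ W * cc w k := Nat.sqrt_le' _
    have hc : (S k).card = ((((Finset.range (2 * cc w 0)) ×ˢ (Finset.range (2 * cc w 0))).filter
      (fun a : ℕ × ℕ => @decide (∃ z : ℤ × ℤ, |z.1 - x.1| ≤ ((Nat.sqrt (W * cc w k) : ℕ) : ℤ) ∧ |z.2 - x.2| ≤ ((Nat.sqrt (W * cc w k) : ℕ) : ℤ) ∧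
        (((cc w k : ℕ) : ℤ) ∣ z.1 - a.1 ∨ ((cc w k : ℕ) : ℤ) ∣ z.2 - a.2)) (Classical.dec _) = true)).card) := rfl
    generalize Nat.sqrt (W * cc w k) = r at hc hsq hav
    rw [hc]
    set N : ℝ := ((((Finset.range (2 * cc w 0)) ×ˢ (Finset.range (2 * cc w 0))).filter
      (fun a : ℕ × ℕ => @decide (∃ z : ℤ × ℤ, |z.1 - x.1| ≤ (r : ℤ) ∧ |z.2 - x.2| ≤ (r : ℤ) ∧
        (((cc w k : ℕ) : ℤ) ∣ z.1 - a.1 ∨ ((cc w k : ℕ) : ℤ) ∣ z.2 - a.2)) (Classical.dec _) = true)).card : ℝ) with hN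
    set A : ℝ := ((i : ℝ) + u) ^ 17 * 8 ^ (j - 1 - k) with hA
    have hA1 : 1 ≤ A := by
      rw [hA]
      exact one_le_mul_of_one_le_of_one_le (one_le_pow₀ hiu) (one_le_pow₀ (by norm_num))
    have hWA : (W : ℝ) * A ^ 2 ≤ cc w k := by
      have h : ((W * (i + u) ^ 34 * 64 ^ (j - 1 - k) : ℕ) : ℝ) ≤ (cc w k : ℕ) := by exact_mod_cast hnk
      push_cast at h
      have e : (W : ℝ) * A ^ 2 = W * ((i : ℝ) + u) ^ 34 * 64 ^ (j - 1 - k) := by
        rw [hA, mul_pow, ← pow_mul, ← pow_mul, mul_comm (j - 1 - k) 2, pow_mul 8 2]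
        norm_num
        ring
      rw [e]; exact h
    have hW1 : (1 : ℝ) ≤ W := by
      have : 1 ≤ W := by omega
      exact_mod_cast this
    have hL0 : (0 : ℝ) < cc w k := by
      have : 0 < cc w k := by omega
      exact_mod_cast this
    have hr2 : (r : ℝ) ^ 2 ≤ W * cc w k := by exact_mod_cast hsq
    have hrA : (r : ℝ) * A ≤ cc w k := by
      apply le_of_sq_le_sq _ hL0.le
      calc ((r : ℝ) * A) ^ 2 = r ^ 2 * A ^ 2 := by ring
        _ ≤ (W * cc w k) * A ^ 2 := mul_le_mul_of_nonneg_right hr2 (by positivity)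
        _ = (W * A ^ 2) * cc w k := by ring
        _ ≤ (cc w k) * cc w k := mul_le_mul_of_nonneg_right hWA hL0.le
        _ = (cc w k : ℝ) ^ 2 := by ring
    have hAL : A ≤ cc w k := by
      calc A ≤ A ^ 2 := by nlinarith
        _ ≤ W * A ^ 2 := by nlinarith [sq_nonneg A]
        _ ≤ _ := hWA
    have h3 : (2 * (r : ℝ) + 1) * A ≤ 3 * cc w k := by linarith
    have h4 : N * A ≤ 6 * (2 * (cc w 0 : ℝ)) ^ 2 := by
      have hΛ : (0 : ℝ) ≤ (2 * (cc w 0 : ℝ)) ^ 2 := by positivity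
      have h5 : N * cc w k * A ≤ 2 * (2 * (r : ℝ) + 1) * (2 * (cc w 0 : ℝ)) ^ 2 * A := by
        apply mul_le_mul_of_nonneg_right _ (by positivity)
        have := hav
        push_cast at this
        exact this
      have h6 : N * cc w k * A ≤ 6 * (2 * (cc w 0 : ℝ)) ^ 2 * cc w k := by nlinarith
      have h7 : (N * A) * cc w k ≤ (6 * (2 * (cc w 0 : ℝ)) ^ 2) * cc w k := by linarith
      exact le_of_mul_le_mul_right h7 hL0
    have hApos : 0 < A := by linarith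
    calc N ≤ 6 * (2 * (cc w 0 : ℝ)) ^ 2 / A := by rw [le_div_iff₀ hApos]; exact h4
      _ = _ := by
        rw [hA, one_div, inv_pow]
        field_simp
  calc _ ≤ ((((Finset.range j).biUnion S).card : ℕ) : ℝ) := by exact_mod_cast Finset.card_le_card hsub
    _ ≤ ∑ k ∈ Finset.range j, ((S k).card : ℝ) := by exact_mod_cast Finset.card_biUnion_le
    _ ≤ ∑ k ∈ Finset.range j, 6 * (2 * (cc w 0 : ℝ)) ^ 2 / ((i : ℝ) + u) ^ 17 * (1 / 8) ^ (j - 1 - k) := Finset.sum_le_sum hcard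
    _ = 6 * (2 * (cc w 0 : ℝ)) ^ 2 / ((i : ℝ) + u) ^ 17 * ∑ k ∈ Finset.range j, (1 / 8) ^ (j - 1 - k) := by rw [Finset.mul_sum]
    _ ≤ 6 * (2 * (cc w 0 : ℝ)) ^ 2 / ((i : ℝ) + u) ^ 17 * (8 / 7) := mul_le_mul_of_nonneg_left (geo8 j) (by positivity)
    _ ≤ 7 * (2 * (cc w 0 : ℝ)) ^ 2 / ((i : ℝ) + u) ^ 17 := by
      have : (0 : ℝ) ≤ (2 * (cc w 0 : ℝ)) ^ 2 / ((i : ℝ) + u) ^ 17 := by positivity
      have e1 : 6 * (2 * (cc w 0 : ℝ)) ^ 2 / ((i : ℝ) + u) ^ 17 = 6 * ((2 * (cc w 0 : ℝ)) ^ 2 / ((i : ℝ) + u) ^ 17) := by ring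
      have e2 : 7 * (2 * (cc w 0 : ℝ)) ^ 2 / ((i : ℝ) + u) ^ 17 = 7 * ((2 * (cc w 0 : ℝ)) ^ 2 / ((i : ℝ) + u) ^ 17) := by ring
      rw [e1, e2]
      linarith

theorem bulk_sum (u w : ℕ) (hP : ParC u w) (j : ℕ) (hj : j ≤ nb u w) (c : ℕ → Fin 64 × Bool) (x : ℤ × ℤ)
    (y : ℕ → ℝ) (hy : ∀ k, 0 ≤ y k) :
    ∑ a1 ∈ Finset.range (2 * cc w 0), ∑ a2 ∈ Finset.range (2 * cc w 0),
      ∏ k ∈ Finset.range j, (if @decide (24 ≤ ((c k).1 : ℕ) ∧ ((c k).1 : ℕ) < 40 ∧ bulk (cc w k) ((a1 : ℤ), (a2 : ℤ)) x) (Classical.dec _) = true then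
            Real.exp (-(y k)) else 1) ≤
      (2 * (cc w 0 : ℝ)) ^ 2 * ∏ k ∈ Finset.range j, (1 - (1 / 30) * (1 - Real.exp (-(if 24 ≤ ((c k).1 : ℕ) ∧ ((c k).1 : ℕ) < 40 then y k else 0)))) := by
  have h := bulk_avg (2 * cc w 0) j (fun k => cc w k) (fun k hk => (hP.cc_fac k (by omega)).1)
    (fun k hk => hP.cc_dvd0 k (by omega)) (fun k hk => hP.cc_dvd k (by omega)) x
    (fun k => if 24 ≤ ((c k).1 : ℕ) ∧ ((c k).1 : ℕ) < 40 then y k else 0)
    (by intro k; split_ifs; exacts [hy k, le_rfl])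
  push_cast at h
  refine le_trans (le_of_eq ?_) h
  refine Finset.sum_congr rfl fun a1 _ => Finset.sum_congr rfl fun a2 _ => Finset.prod_congr rfl fun k _ => ?_
  by_cases h1 : 24 ≤ ((c k).1 : ℕ) ∧ ((c k).1 : ℕ) < 40
  · by_cases h2 : bulk (cc w k) ((a1 : ℤ), (a2 : ℤ)) x
    · rw [if_pos (@decide_eq_true _ (Classical.dec _) ⟨h1.1, h1.2, h2⟩),
        if_pos (@decide_eq_true _ (Classical.dec _) h2), if_pos h1]
    · rw [if_neg (fun h => h2 (@of_decide_eq_true _ (Classical.dec _) h).2.2),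
        if_neg (fun h => h2 (@of_decide_eq_true _ (Classical.dec _) h))]
  · rw [if_neg (fun h => h1 ⟨(@of_decide_eq_true _ (Classical.dec _) h).1,
      (@of_decide_eq_true _ (Classical.dec _) h).2.1⟩), if_neg h1, neg_zero, Real.exp_zero, ite_self]

theorem digit_sum (i j : ℕ) (hji : j ≤ i) (h : ℕ → Fin 64 × Bool → ℝ) :
    ∑ c : Fin i → Fin 64 × Bool, ∏ k ∈ Finset.range j, h k (extd c k) =
      128 ^ (i - j) * ∏ k ∈ Finset.range j, ∑ d, h k d := by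
  have e : ∀ c : Fin i → Fin 64 × Bool, ∏ k ∈ Finset.range j, h k (extd c k) =
      ∏ k : Fin i, (if (k : ℕ) < j then h k (c k) else 1) := by
    intro c
    have e1 : ∏ k : Fin i, (if (k : ℕ) < j then h k (c k) else 1) =
        ∏ k ∈ Finset.range i, (if k < j then h k (extd c k) else 1) := by
      rw [Finset.prod_range]
      refine Finset.prod_congr rfl fun k _ => ?_
      simp [extd]
    rw [e1]
    obtain ⟨m, rfl⟩ := Nat.exists_eq_add_of_le hji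
    rw [Finset.prod_range_add]
    have e2 : ∏ x ∈ Finset.range m, (if j + x < j then h (j + x) (extd c (j + x)) else 1) = 1 :=
      Finset.prod_eq_one fun x _ => if_neg (by omega)
    rw [e2, mul_one]
    exact Finset.prod_congr rfl fun k hk => by rw [if_pos (Finset.mem_range.mp hk)]
  simp only [e]
  have e3 := Finset.prod_univ_sum (fun _ : Fin i => (Finset.univ : Finset (Fin 64 × Bool)))
    (fun (k : Fin i) d => if (k : ℕ) < j then h k d else (1 : ℝ))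
  rw [Fintype.piFinset_univ] at e3
  rw [← e3]
  have e4 : ∏ k : Fin i, ∑ d : Fin 64 × Bool, (if (k : ℕ) < j then h k d else (1 : ℝ)) =
      ∏ k ∈ Finset.range i, ∑ d : Fin 64 × Bool, (if k < j then h k d else (1 : ℝ)) := by
    rw [Finset.prod_range]
  rw [e4]
  obtain ⟨m, rfl⟩ := Nat.exists_eq_add_of_le hji
  rw [Finset.prod_range_add]
  have e5 : ∏ x ∈ Finset.range m, ∑ d : Fin 64 × Bool, (if j + x < j then h (j + x) d else (1 : ℝ)) = 128 ^ m := by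
    rw [Finset.prod_congr rfl (g := fun _ => (128 : ℝ)), Finset.prod_const, Finset.card_range]
    intro x _
    simp [Fintype.card_prod]
  rw [e5, Nat.add_sub_cancel_left, mul_comm]
  refine congrArg (fun r => (128 : ℝ) ^ m * r) (Finset.prod_congr rfl fun k hk => ?_)
  exact Finset.sum_congr rfl fun d _ => if_pos (Finset.mem_range.mp hk)

theorem digit_val (y : ℝ) :
    ∑ d : Fin 64 × Bool, (1 - (1 / 30) * (1 - Real.exp (-(if 24 ≤ (d.1 : ℕ) ∧ (d.1 : ℕ) < 40 then y else 0)))) =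
      128 * (1 - (1 / 120) * (1 - Real.exp (-y))) := by
  have e : ∀ d : Fin 64 × Bool, (1 - (1 / 30) * (1 - Real.exp (-(if 24 ≤ (d.1 : ℕ) ∧ (d.1 : ℕ) < 40 then y else 0)))) =
      1 - (1 / 30) * (1 - Real.exp (-y)) * (if 24 ≤ (d.1 : ℕ) ∧ (d.1 : ℕ) < 40 then 1 else 0) := by
    intro d
    split_ifs
    · ring
    · simp
  simp only [e]
  rw [Finset.sum_sub_distrib, ← Finset.mul_sum, Finset.sum_boole]
  have hc : (Finset.univ.filter (fun d : Fin 64 × Bool => 24 ≤ (d.1 : ℕ) ∧ (d.1 : ℕ) < 40)).card = 32 := by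
    decide +kernel
  rw [hc]
  simp [Fintype.card_prod]
  ring

theorem ind_sum (n : ℕ) (P : ℕ × ℕ → Bool) :
    ∑ a1 ∈ Finset.range n, ∑ a2 ∈ Finset.range n, (if P (a1, a2) = true then (1 : ℝ) else 0) =
      (((Finset.range n ×ˢ Finset.range n).filter (fun a => P a = true)).card : ℝ) := by
  rw [← Finset.sum_boole, Finset.sum_product]

theorem circ_union {Ω : Type*} [MeasurableSpace Ω] (P : Measure Ω) (G : Ω → Prop) (f : Ω → ℤ × ℤ → ℝ)
    (m : ℤ × ℤ) (W d : ℕ) (lam len : ℝ) :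
    P {ω | G ω ∧ ¬ circuitOK m W d lam len (f ω)} ≤
      P {ω | G ω ∧ ¬ armOK true (m.1 - 3 * W, m.2 + W) W d lam len (f ω)} +
      P {ω | G ω ∧ ¬ armOK true (m.1 - 3 * W, m.2 - 2 * W) W d lam len (f ω)} +
      P {ω | G ω ∧ ¬ armOK false (m.1 + W, m.2 - 3 * W) W d lam len (f ω)} +
      P {ω | G ω ∧ ¬ armOK false (m.1 - 2 * W, m.2 - 3 * W) W d lam len (f ω)} := by
  refine (measure_mono (t := (({ω | G ω ∧ ¬ armOK true (m.1 - 3 * W, m.2 + W) W d lam len (f ω)} ∪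
      {ω | G ω ∧ ¬ armOK true (m.1 - 3 * W, m.2 - 2 * W) W d lam len (f ω)}) ∪
      {ω | G ω ∧ ¬ armOK false (m.1 + W, m.2 - 3 * W) W d lam len (f ω)}) ∪
      {ω | G ω ∧ ¬ armOK false (m.1 - 2 * W, m.2 - 3 * W) W d lam len (f ω)}) ?_).trans ?_
  · rintro ω ⟨h1, h2⟩
    unfold circuitOK at h2
    simp only [Set.mem_union, Set.mem_ofPred_eq]
    tauto
  · exact (measure_union_le _ _).trans (add_le_add ((measure_union_le _ _).trans
      (add_le_add (measure_union_le _ _) le_rfl)) le_rfl)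

theorem arm_sum (C c1 : ℝ) (hC : 1 ≤ C) (hc1 : 0 < c1) (u w : ℕ) (hP : ParC u w) (i : ℕ) (h2 : 2 ≤ i) (hi : i ≤ nb u w)
    (θ g len p2 : ℝ) (hθ0 : 0 ≤ θ) (hp2 : 0 ≤ p2)
    (hlev : ∀ (a : ℤ × ℤ) (c : ℕ → Fin 64 × Bool),
    (PC u w a {ω | ∀ k : Fin (nb u w + 1), (k : ℕ) < i - gap u i → ω k ∈ sC w (c k).2 k (ps w c k)} ≤ ENNReal.ofReal ((1 / 2) ^ (i - gap u i))) ∧
    ∀ (o : Bool) (t : ℤ × ℤ), armAt (mid (ps w c i)) (wi w i) o t → clr w (wi w i) (i - gap u i) a (xa o t (wi w i)) →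
      PC u w a {ω | (∀ k : Fin (nb u w + 1), (k : ℕ) < i - gap u i → ω k ∈ sC w (c k).2 k (ps w c k)) ∧
          ¬ armOK o t (wi w i) (di u w i) u len (extf (Dw w) (∑ k, ω k))} ≤
      ENNReal.ofReal ((1 / 2) ^ (i - gap u i) * (p2 + Real.exp (-(θ * (u - 5 / 4 * g)) + θ ^ 2 * (3 * i + 10) / 2) *
          (∏ k ∈ Finset.range (i - gap u i), (if @decide (24 ≤ ((c k).1 : ℕ) ∧ ((c k).1 : ℕ) < 40 ∧ bulk (cc w k) a (xa o t (wi w i))) (Classical.dec _) = true then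
            Real.exp (-(c1 * (θ * Real.sqrt (bb k)))) else 1)) + C * ((i : ℝ) + u) ^ C * Real.exp (-(g / 4)))))
    (o : Bool) (T : ℤ × ℤ → ℤ × ℤ) (hT : ∀ m, armAt m (wi w i) o (T m)) :
    ∑ a1 ∈ Finset.range (2 * cc w 0), ∑ a2 ∈ Finset.range (2 * cc w 0), ∑ c : Fin i → Fin 64 × Bool,
        PC u w ((a1 : ℤ), (a2 : ℤ)) {ω | (∀ k : Fin (nb u w + 1), (k : ℕ) < i - gap u i → ω k ∈ sC w (extd c k).2 k (ps w (extd c) k)) ∧
          ¬ armOK o (T (mid (ps w (extd c) i))) (wi w i) (di u w i) u len (extf (Dw w) (∑ k, ω k))} ≤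
      ENNReal.ofReal ((2 * (cc w 0 : ℝ)) ^ 2 * (64 ^ i * 2 ^ (min i (gap u i))) *
        (p2 + Real.exp (-(θ * (u - 5 / 4 * g)) + θ ^ 2 * (3 * i + 10) / 2) *
          (∏ k ∈ Finset.range (i - gap u i), (1 - (1 / 120) * (1 - Real.exp (-(c1 * (θ * Real.sqrt (bb k))))))) +
          C * ((i : ℝ) + u) ^ C * Real.exp (-(g / 4)) + 7 / ((i : ℝ) + u) ^ 17)) := by
  have hiu : (1 : ℝ) ≤ (i : ℝ) + u := by
    have : (2 : ℝ) ≤ i := by exact_mod_cast h2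
    have : (0 : ℝ) ≤ u := by positivity
    linarith
  set E : ℝ := Real.exp (-(θ * (u - 5 / 4 * g)) + θ ^ 2 * (3 * i + 10) / 2) with hE
  have hE0 : 0 ≤ E := (Real.exp_pos _).le
  set R : ℝ := C * ((i : ℝ) + u) ^ C * Real.exp (-(g / 4)) with hR
  have hR0 : 0 ≤ R := by
    rw [hR]
    have : 0 ≤ ((i : ℝ) + u) ^ C := Real.rpow_nonneg (by linarith) _
    have := (Real.exp_pos (-(g / 4))).le
    positivity
  set y : ℕ → ℝ := fun k => c1 * (θ * Real.sqrt (bb k)) with hy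
  have hy0 : ∀ k, 0 ≤ y k := fun k => by rw [hy]; positivity
  set j := i - gap u i with hj
  have hji : j ≤ i := by omega
  set F : ℕ → ℕ → (Fin i → Fin 64 × Bool) → ℝ := fun a1 a2 c =>
    ∏ k ∈ Finset.range j, (if @decide (24 ≤ (((extd c) k).1 : ℕ) ∧ (((extd c) k).1 : ℕ) < 40 ∧
      bulk (cc w k) ((a1 : ℤ), (a2 : ℤ)) (xa o (T (mid (ps w (extd c) i))) (wi w i))) (Classical.dec _) = true then
            Real.exp (-(y k)) else 1) with hF
  have hF0 : ∀ a1 a2 c, 0 ≤ F a1 a2 c := by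
    intro a1 a2 c
    apply Finset.prod_nonneg
    intro k _
    split_ifs
    · exact (Real.exp_pos _).le
    · exact zero_le_one
  set N : ℕ → ℕ → (Fin i → Fin 64 × Bool) → ℝ := fun a1 a2 c =>
    if @decide (¬ clr w (wi w i) j ((a1 : ℤ), (a2 : ℤ)) (xa o (T (mid (ps w (extd c) i))) (wi w i)))
        (Classical.dec _) = true then (1 : ℝ) else 0 with hN
  have hN0 : ∀ a1 a2 c, 0 ≤ N a1 a2 c := by
    intro a1 a2 c
    simp only [hN]
    split_ifs <;> norm_num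
  have hX0 : ∀ a1 a2 c, 0 ≤ (1 / 2 : ℝ) ^ j * (p2 + E * F a1 a2 c + R + N a1 a2 c) := by
    intro a1 a2 c
    have := hF0 a1 a2 c
    have := hN0 a1 a2 c
    positivity
  have hpt : ∀ (a1 a2 : ℕ) (c : Fin i → Fin 64 × Bool),
      PC u w ((a1 : ℤ), (a2 : ℤ)) {ω | (∀ k : Fin (nb u w + 1), (k : ℕ) < j → ω k ∈ sC w (extd c k).2 k (ps w (extd c) k)) ∧
          ¬ armOK o (T (mid (ps w (extd c) i))) (wi w i) (di u w i) u len (extf (Dw w) (∑ k, ω k))} ≤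
      ENNReal.ofReal ((1 / 2 : ℝ) ^ j * (p2 + E * F a1 a2 c + R + N a1 a2 c)) := by
    intro a1 a2 c
    have hF1 := hF0 a1 a2 c
    have hN1 := hN0 a1 a2 c
    by_cases hcl : clr w (wi w i) j ((a1 : ℤ), (a2 : ℤ)) (xa o (T (mid (ps w (extd c) i))) (wi w i))
    · refine ((hlev ((a1 : ℤ), (a2 : ℤ)) (extd c)).2 o _ (hT _) hcl).trans (ENNReal.ofReal_le_ofReal ?_)
      apply mul_le_mul_of_nonneg_left _ (by positivity)
      have : p2 + E * F a1 a2 c + R ≤ p2 + E * F a1 a2 c + R + N a1 a2 c := by linarith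
      exact this
    · refine (measure_mono ?_).trans (((hlev ((a1 : ℤ), (a2 : ℤ)) (extd c)).1).trans (ENNReal.ofReal_le_ofReal ?_))
      · rintro ω ⟨h1, -⟩
        exact h1
      · have hN2 : N a1 a2 c = 1 := by
          simp only [hN]
          rw [if_pos (@decide_eq_true _ (Classical.dec _) hcl)]
        rw [hN2]
        have : (0 : ℝ) ≤ p2 + E * F a1 a2 c + R := by positivity
        have h4 : (0 : ℝ) ≤ (1 / 2 : ℝ) ^ j := by positivity
        nlinarith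
  have h1 : ∑ a1 ∈ Finset.range (2 * cc w 0), ∑ a2 ∈ Finset.range (2 * cc w 0), ∑ c : Fin i → Fin 64 × Bool,
        PC u w ((a1 : ℤ), (a2 : ℤ)) {ω | (∀ k : Fin (nb u w + 1), (k : ℕ) < j → ω k ∈ sC w (extd c k).2 k (ps w (extd c) k)) ∧
          ¬ armOK o (T (mid (ps w (extd c) i))) (wi w i) (di u w i) u len (extf (Dw w) (∑ k, ω k))} ≤
      ENNReal.ofReal (∑ a1 ∈ Finset.range (2 * cc w 0), ∑ a2 ∈ Finset.range (2 * cc w 0), ∑ c : Fin i → Fin 64 × Bool,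
        ((1 / 2 : ℝ) ^ j * (p2 + E * F a1 a2 c + R + N a1 a2 c))) := by
    rw [ENNReal.ofReal_sum_of_nonneg (fun a1 _ => Finset.sum_nonneg fun a2 _ => Finset.sum_nonneg fun c _ => hX0 a1 a2 c)]
    refine Finset.sum_le_sum fun a1 _ => ?_
    rw [ENNReal.ofReal_sum_of_nonneg (fun a2 _ => Finset.sum_nonneg fun c _ => hX0 a1 a2 c)]
    refine Finset.sum_le_sum fun a2 _ => ?_
    rw [ENNReal.ofReal_sum_of_nonneg (fun c _ => hX0 a1 a2 c)]
    exact Finset.sum_le_sum fun c _ => hpt a1 a2 c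
  refine h1.trans (ENNReal.ofReal_le_ofReal ?_)
  have h2' : ∑ a1 ∈ Finset.range (2 * cc w 0), ∑ a2 ∈ Finset.range (2 * cc w 0), ∑ c : Fin i → Fin 64 × Bool,
        ((1 / 2 : ℝ) ^ j * (p2 + E * F a1 a2 c + R + N a1 a2 c)) =
      ∑ c : Fin i → Fin 64 × Bool, ∑ a1 ∈ Finset.range (2 * cc w 0), ∑ a2 ∈ Finset.range (2 * cc w 0),
        ((1 / 2 : ℝ) ^ j * (p2 + E * F a1 a2 c + R + N a1 a2 c)) := by
    rw [Finset.sum_congr rfl (fun a1 _ => Finset.sum_comm), Finset.sum_comm]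
  rw [h2']
  set Λ : ℝ := 2 * (cc w 0 : ℝ) with hΛ
  have hΛ0 : 0 ≤ Λ := by rw [hΛ]; positivity
  have h3 : ∀ c : Fin i → Fin 64 × Bool, ∑ a1 ∈ Finset.range (2 * cc w 0), ∑ a2 ∈ Finset.range (2 * cc w 0),
        ((1 / 2 : ℝ) ^ j * (p2 + E * F a1 a2 c + R + N a1 a2 c)) ≤
      (1 / 2 : ℝ) ^ j * (Λ ^ 2 * (p2 + R + 7 / ((i : ℝ) + u) ^ 17)) + (1 / 2 : ℝ) ^ j * Λ ^ 2 * E *
        ∏ k ∈ Finset.range j, (1 - (1 / 30) * (1 - Real.exp (-(if 24 ≤ (((extd c) k).1 : ℕ) ∧ (((extd c) k).1 : ℕ) < 40 then y k else 0)))) := by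
    intro c
    have hb := bulk_sum u w hP j (by omega) (extd c) (xa o (T (mid (ps w (extd c) i))) (wi w i)) y hy0
    have hcb := count_bad u w hP i h2 hi (extd c) o (T (mid (ps w (extd c) i))) (hT _)
    have hin := ind_sum (2 * cc w 0) (fun a => @decide (¬ clr w (wi w i) j ((a.1 : ℤ), (a.2 : ℤ)) (xa o (T (mid (ps w (extd c) i))) (wi w i)))
        (Classical.dec _))
    have e1 : ∑ a1 ∈ Finset.range (2 * cc w 0), ∑ a2 ∈ Finset.range (2 * cc w 0),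
        ((1 / 2 : ℝ) ^ j * (p2 + E * F a1 a2 c + R + N a1 a2 c)) =
        (1 / 2 : ℝ) ^ j * (Λ ^ 2 * (p2 + R)) + (1 / 2 : ℝ) ^ j * E * (∑ a1 ∈ Finset.range (2 * cc w 0), ∑ a2 ∈ Finset.range (2 * cc w 0), F a1 a2 c) +
        (1 / 2 : ℝ) ^ j * (∑ a1 ∈ Finset.range (2 * cc w 0), ∑ a2 ∈ Finset.range (2 * cc w 0), N a1 a2 c) := by
      have e2 : ∀ a1 a2, (1 / 2 : ℝ) ^ j * (p2 + E * F a1 a2 c + R + N a1 a2 c) =
          (1 / 2 : ℝ) ^ j * (p2 + R) + ((1 / 2 : ℝ) ^ j * E) * F a1 a2 c + (1 / 2 : ℝ) ^ j * N a1 a2 c := by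
        intro a1 a2; ring
      simp only [e2, Finset.sum_add_distrib, ← Finset.mul_sum, Finset.sum_const, Finset.card_range, nsmul_eq_mul]
      rw [hΛ]
      push_cast
      ring
    rw [e1]
    have hN3 : ∑ a1 ∈ Finset.range (2 * cc w 0), ∑ a2 ∈ Finset.range (2 * cc w 0), N a1 a2 c ≤ 7 * Λ ^ 2 / ((i : ℝ) + u) ^ 17 := by
      rw [hΛ]
      exact (le_of_eq hin).trans hcb
    have h5 : (1 / 2 : ℝ) ^ j * E * (∑ a1 ∈ Finset.range (2 * cc w 0), ∑ a2 ∈ Finset.range (2 * cc w 0), F a1 a2 c) ≤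
        (1 / 2 : ℝ) ^ j * E * (Λ ^ 2 * ∏ k ∈ Finset.range j, (1 - (1 / 30) * (1 - Real.exp (-(if 24 ≤ (((extd c) k).1 : ℕ) ∧ (((extd c) k).1 : ℕ) < 40 then y k else 0))))) :=
      mul_le_mul_of_nonneg_left hb (by positivity)
    have h6 : (1 / 2 : ℝ) ^ j * (∑ a1 ∈ Finset.range (2 * cc w 0), ∑ a2 ∈ Finset.range (2 * cc w 0), N a1 a2 c) ≤
        (1 / 2 : ℝ) ^ j * (7 * Λ ^ 2 / ((i : ℝ) + u) ^ 17) := mul_le_mul_of_nonneg_left hN3 (by positivity)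
    calc _ ≤ (1 / 2 : ℝ) ^ j * (Λ ^ 2 * (p2 + R)) + (1 / 2 : ℝ) ^ j * E * (Λ ^ 2 * ∏ k ∈ Finset.range j, (1 - (1 / 30) * (1 - Real.exp (-(if 24 ≤ (((extd c) k).1 : ℕ) ∧ (((extd c) k).1 : ℕ) < 40 then y k else 0))))) + (1 / 2 : ℝ) ^ j * (7 * Λ ^ 2 / ((i : ℝ) + u) ^ 17) := by linarith
      _ = _ := by ring
  refine (Finset.sum_le_sum fun c _ => h3 c).trans (le_of_eq ?_)
  rw [Finset.sum_add_distrib, Finset.sum_const, Finset.card_univ, ← Finset.mul_sum,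
    digit_sum i j hji (fun k d => (1 - (1 / 30) * (1 - Real.exp (-(if 24 ≤ (d.1 : ℕ) ∧ (d.1 : ℕ) < 40 then y k else 0)))))]
  simp only [digit_val]
  rw [Finset.prod_mul_distrib, Finset.prod_const, Finset.card_range]
  have hcard : Fintype.card (Fin i → Fin 64 × Bool) = 128 ^ i := by
    simp [Fintype.card_prod]
  rw [hcard, nsmul_eq_mul]
  have hmin : min i (gap u i) = i - j := by omega
  rw [hmin]
  have e128 : (128 : ℝ) ^ i = 128 ^ (i - j) * 128 ^ j := by rw [← pow_add]; congr 1; omega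
  have e64 : (64 : ℝ) ^ i = 64 ^ (i - j) * 64 ^ j := by rw [← pow_add]; congr 1; omega
  have e2 : (128 : ℝ) ^ j * (1 / 2) ^ j = 64 ^ j := by rw [← mul_pow]; norm_num
  have e3 : (128 : ℝ) ^ (i - j) = 64 ^ (i - j) * 2 ^ (i - j) := by rw [← mul_pow]; norm_num
  push_cast
  rw [e128, e64, e3, ← e2]
  ring

theorem _root_.H941.avg_circ : ∃ C c1 : ℝ, 1 ≤ C ∧ 0 < c1 ∧ c1 ≤ 1 ∧ ∀ (u w : ℕ), ParC u w → ∀ i, 2 ≤ i → i ≤ nb u w →
    ∀ (θ g len p2 : ℝ), 0 ≤ θ → θ ≤ 1 → 0 ≤ p2 →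
      gf (Dw (wi w i)) (Dw (wi w i)) {x | ¬ armOK true (0, 0) (wi w i) (di u w i) g len (extf (Dw (wi w i)) x)} ≤ ENNReal.ofReal p2 →
      ∑ a1 ∈ Finset.range (2 * cc w 0), ∑ a2 ∈ Finset.range (2 * cc w 0), ∑ c : Fin i → Fin 64 × Bool,
        PC u w ((a1 : ℤ), (a2 : ℤ)) {ω | (∀ k : Fin (nb u w + 1), (k : ℕ) < i - gap u i → ω k ∈ sC w (extd c k).2 k (ps w (extd c) k)) ∧
          ¬ circuitOK (mid (ps w (extd c) i)) (wi w i) (di u w i) u len (extf (Dw w) (∑ k, ω k))} ≤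
      ENNReal.ofReal ((2 * (cc w 0 : ℝ)) ^ 2 * (4 * 64 ^ i * 2 ^ (min i (gap u i))) *
        (p2 + Real.exp (-(θ * (u - 5 / 4 * g)) + θ ^ 2 * (3 * i + 10) / 2) *
          (∏ k ∈ Finset.range (i - gap u i), (1 - (1 / 120) * (1 - Real.exp (-(c1 * (θ * Real.sqrt (bb k))))))) +
          C * ((i : ℝ) + u) ^ C * Real.exp (-(g / 4)) + C / ((i : ℝ) + u) ^ 17)) := by
  obtain ⟨C, c1, hC, hc1, hc1', hlev⟩ := level_armC
  refine ⟨C + 7, c1, by linarith, hc1, hc1', ?_⟩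
  intro u w hP i h2 hi θ g len p2 hθ0 hθ1 hp2 hgf
  have hlev' : ∀ (a : ℤ × ℤ) (c : ℕ → Fin 64 × Bool), _ := fun a c =>
    And.intro (hlev u w hP i h2 hi a c).1 (fun (o : Bool) (t : ℤ × ℤ) hat hclr =>
      (hlev u w hP i h2 hi a c).2 o t θ g len p2 hθ0 hθ1 hp2 hgf hat hclr)
  have key := arm_sum C c1 hC hc1 u w hP i h2 hi θ g len p2 hθ0 hp2 hlev'
  have k1 := key true (fun m => (m.1 - 3 * (wi w i : ℤ), m.2 + (wi w i : ℤ))) (fun m => Or.inl ⟨rfl, rfl⟩)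
  have k2 := key true (fun m => (m.1 - 3 * (wi w i : ℤ), m.2 - 2 * (wi w i : ℤ))) (fun m => Or.inr (Or.inl ⟨rfl, rfl⟩))
  have k3 := key false (fun m => (m.1 + (wi w i : ℤ), m.2 - 3 * (wi w i : ℤ))) (fun m => Or.inr (Or.inr (Or.inl ⟨rfl, rfl⟩)))
  have k4 := key false (fun m => (m.1 - 2 * (wi w i : ℤ), m.2 - 3 * (wi w i : ℤ))) (fun m => Or.inr (Or.inr (Or.inr ⟨rfl, rfl⟩)))
  have hsum : ∑ a1 ∈ Finset.range (2 * cc w 0), ∑ a2 ∈ Finset.range (2 * cc w 0), ∑ c : Fin i → Fin 64 × Bool,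
        PC u w ((a1 : ℤ), (a2 : ℤ)) {ω | (∀ k : Fin (nb u w + 1), (k : ℕ) < i - gap u i → ω k ∈ sC w (extd c k).2 k (ps w (extd c) k)) ∧
          ¬ circuitOK (mid (ps w (extd c) i)) (wi w i) (di u w i) u len (extf (Dw w) (∑ k, ω k))} ≤ _ :=
    Finset.sum_le_sum fun a1 _ => Finset.sum_le_sum fun a2 _ => Finset.sum_le_sum fun c _ =>
      circ_union (PC u w ((a1 : ℤ), (a2 : ℤ)))
        (fun ω => ∀ k : Fin (nb u w + 1), (k : ℕ) < i - gap u i → ω k ∈ sC w (extd c k).2 k (ps w (extd c) k))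
        (fun ω => extf (Dw w) (∑ k, ω k)) (mid (ps w (extd c) i)) (wi w i) (di u w i) u len
  refine hsum.trans ?_
  simp only [Finset.sum_add_distrib]
  refine (add_le_add (add_le_add (add_le_add k1 k2) k3) k4).trans ?_
  set B : ℝ := (2 * (cc w 0 : ℝ)) ^ 2 * (64 ^ i * 2 ^ (min i (gap u i))) *
        (p2 + Real.exp (-(θ * (u - 5 / 4 * g)) + θ ^ 2 * (3 * i + 10) / 2) *
          (∏ k ∈ Finset.range (i - gap u i), (1 - (1 / 120) * (1 - Real.exp (-(c1 * (θ * Real.sqrt (bb k))))))) +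
          C * ((i : ℝ) + u) ^ C * Real.exp (-(g / 4)) + 7 / ((i : ℝ) + u) ^ 17) with hB
  have hiu : (1 : ℝ) ≤ (i : ℝ) + u := by
    have : (2 : ℝ) ≤ i := by exact_mod_cast h2
    have : (0 : ℝ) ≤ u := by positivity
    linarith
  have hprod : 0 ≤ ∏ k ∈ Finset.range (i - gap u i), (1 - (1 / 120) * (1 - Real.exp (-(c1 * (θ * Real.sqrt (bb k)))))) := by
    apply Finset.prod_nonneg
    intro k _
    have := Real.exp_pos (-(c1 * (θ * Real.sqrt (bb k))))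
    linarith
  have hrp : 0 ≤ ((i : ℝ) + u) ^ C := Real.rpow_nonneg (by linarith) _
  have hB0 : 0 ≤ B := by
    rw [hB]
    have := (Real.exp_pos (-(g / 4))).le
    have := (Real.exp_pos (-(θ * (u - 5 / 4 * g)) + θ ^ 2 * (3 * i + 10) / 2)).le
    positivity
  rw [← ENNReal.ofReal_add hB0 hB0, ← ENNReal.ofReal_add (by linarith) hB0, ← ENNReal.ofReal_add (by linarith) hB0]
  apply ENNReal.ofReal_le_ofReal
  have e1 : C * ((i : ℝ) + u) ^ C * Real.exp (-(g / 4)) ≤ (C + 7) * ((i : ℝ) + u) ^ (C + 7) * Real.exp (-(g / 4)) := by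
    apply mul_le_mul_of_nonneg_right _ (Real.exp_pos _).le
    have : ((i : ℝ) + u) ^ C ≤ ((i : ℝ) + u) ^ (C + 7) := Real.rpow_le_rpow_of_exponent_le hiu (by linarith)
    apply mul_le_mul (by linarith) this hrp (by linarith)
  have e2 : 7 / ((i : ℝ) + u) ^ 17 ≤ (C + 7) / ((i : ℝ) + u) ^ 17 := by
    apply div_le_div_of_nonneg_right (by linarith) (by positivity)
  have e3 : B + B + B + B = (2 * (cc w 0 : ℝ)) ^ 2 * (4 * 64 ^ i * 2 ^ (min i (gap u i))) *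
        (p2 + Real.exp (-(θ * (u - 5 / 4 * g)) + θ ^ 2 * (3 * i + 10) / 2) *
          (∏ k ∈ Finset.range (i - gap u i), (1 - (1 / 120) * (1 - Real.exp (-(c1 * (θ * Real.sqrt (bb k))))))) +
          C * ((i : ℝ) + u) ^ C * Real.exp (-(g / 4)) + 7 / ((i : ℝ) + u) ^ 17) := by
    rw [hB]; ring
  rw [e3]
  apply mul_le_mul_of_nonneg_left _ (by positivity)
  linarith

end H941.avg_circ
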