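import Pool.Agent.H941.Defs4
import Pool.Agent.H941.B.segs_facts

open MeasureTheory ProbabilityTheory

namespace H941.countC

theorem countC_countP {α : Type*} (p : α → Bool) (l : List α) :
    ((l.countP p : ℕ) : ℝ) = (l.map (fun x => if p x = true then (1 : ℝ) else 0)).sum := by
  induction l with
  | nil => simp
  | cons x l ih =>
    rw [List.countP_cons, List.map_cons, List.sum_cons, ← ih]
    split_ifs <;> simp [add_comm]

theorem countC_mem (w n i : ℕ) (hi : i ≤ n) (ω : Fin (n + 1) → EuclideanSpace ℝ ↥(Dw w))
    (k : ℕ) (hk : k < i) (s : ℂ × ℂ) (b : Bool)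
    (h : oracle (n := n) (WC w) ω k s = b) (k' : Fin (n + 1)) (hk' : (k' : ℕ) = k) :
    ω k' ∈ sC w b k' s := by
  have hkn : k < n := by omega
  unfold oracle at h
  rw [dif_pos hkn] at h
  have e : (⟨k, Nat.lt_succ_of_lt hkn⟩ : Fin (n + 1)) = k' := Fin.ext hk'.symm
  rw [e] at h
  subst hk'
  unfold sC
  rw [Set.mem_ofPred_eq]
  cases b with
  | true =>
    have := of_decide_eq_true h
    simpa using this
  | false =>
    have := of_decide_eq_false h
    rw [not_le] at this
    simp only [Bool.false_eq_true, if_false]
    linarith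

theorem _root_.H941.countC (u w : ℕ) (h : ParC u w) (a : ℤ × ℤ) (i : ℕ) (hi : i ≤ nb u w) :
    ∫⁻ ω, (((segs bb (oracle (WC w) ω) i 0 (sg0 w)).countP (fun s' =>
        @decide (¬ GdC u w (extf (Dw w) (∑ k, ω k)) i s') (Classical.dec _)) : ℕ) : ENNReal) ∂(PC u w a) ≤
      ∑ c : Fin i → Fin 64 × Bool, PC u w a {ω | (∀ k : Fin (nb u w + 1), (k : ℕ) < i - gap u i → ω k ∈ sC w (extd c k).2 k (ps w (extd c) k)) ∧
        ¬ GdC u w (extf (Dw w) (∑ k, ω k)) i (ps w (extd c) i)} := by
  classical
  set A : (Fin i → Fin 64 × Bool) → Set (Fin (nb u w + 1) → EuclideanSpace ℝ ↥(Dw w)) := fun c =>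
    {ω | (∀ k : Fin (nb u w + 1), (k : ℕ) < i - gap u i → ω k ∈ sC w (extd c k).2 k (ps w (extd c) k)) ∧
        ¬ GdC u w (extf (Dw w) (∑ k, ω k)) i (ps w (extd c) i)} with hA
  have hpt : ∀ ω : Fin (nb u w + 1) → EuclideanSpace ℝ ↥(Dw w),
      (((segs bb (oracle (WC w) ω) i 0 (sg0 w)).countP (fun s' =>
        @decide (¬ GdC u w (extf (Dw w) (∑ k, ω k)) i s') (Classical.dec _)) : ℕ) : ENNReal) ≤
      ∑ c, (toMeasurable (PC u w a) (A c)).indicator (fun _ => (1 : ENNReal)) ω := by
    intro ω
    set p : ℂ × ℂ → Bool := fun s' =>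
        @decide (¬ GdC u w (extf (Dw w) (∑ k, ω k)) i s') (Classical.dec _) with hp
    have hf := segs_facts bb (oracle (n := nb u w) (WC w) ω)
    obtain ⟨-, -, hf, -, -⟩ := hf
    have h3 := hf (fun x => if p x = true then (1 : ℝ) else 0) i 0 (sg0 w)
    rw [← countC_countP] at h3
    have h4 : (((segs bb (oracle (WC w) ω) i 0 (sg0 w)).countP p : ℕ) : ENNReal)
        = ENNReal.ofReal (((segs bb (oracle (WC w) ω) i 0 (sg0 w)).countP p : ℕ) : ℝ) := by
      rw [ENNReal.ofReal_natCast]
    rw [h4, h3, ENNReal.ofReal_sum_of_nonneg]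
    · apply Finset.sum_le_sum
      intro c _
      by_cases hω : ω ∈ A c
      · rw [Set.indicator_of_mem (subset_toMeasurable _ _ hω)]
        rw [← ENNReal.ofReal_one]
        apply ENNReal.ofReal_le_ofReal
        apply mul_le_one₀
        · apply Finset.prod_le_one
          · intro k _
            split_ifs <;> norm_num
          · intro k _
            split_ifs <;> norm_num
        · split_ifs <;> norm_num
        · split_ifs <;> norm_num
      · have hz : (∏ k : Fin i, if oracle (n := nb u w) (WC w) ω (0 + (k : ℕ)) (pst bb 0 (sg0 w) (extd c) k) = (c k).2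
            then (1 : ℝ) else 0) * (if p (pst bb 0 (sg0 w) (extd c) i) = true then (1 : ℝ) else 0) = 0 := by
          by_contra hne
          apply hω
          rw [← ne_eq, mul_ne_zero_iff] at hne
          obtain ⟨hne1, hne2⟩ := hne
          rw [Finset.prod_ne_zero_iff] at hne1
          have hag : ∀ k : Fin i, oracle (n := nb u w) (WC w) ω (0 + (k : ℕ)) (pst bb 0 (sg0 w) (extd c) k) = (c k).2 := by
            intro k
            by_contra hh
            exact hne1 k (Finset.mem_univ _) (if_neg hh)
          have hp' : p (pst bb 0 (sg0 w) (extd c) i) = true := by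
            by_contra hh
            exact hne2 (if_neg hh)
          refine ⟨?_, ?_⟩
          · intro k hk
            have hki : (k : ℕ) < i := by omega
            have h5 := hag ⟨k, hki⟩
            simp only [zero_add] at h5
            have h6 : (extd c k).2 = (c ⟨k, hki⟩).2 := by
              unfold extd
              rw [dif_pos hki]
            rw [h6]
            exact countC_mem w (nb u w) i hi ω k hki _ _ h5 k rfl
          · exact @of_decide_eq_true _ (Classical.dec _) hp'
        rw [hz, ENNReal.ofReal_zero]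
        exact bot_le
    · intro c _
      apply mul_nonneg
      · apply Finset.prod_nonneg
        intro k _
        split_ifs <;> norm_num
      · split_ifs <;> norm_num
  calc _ ≤ ∫⁻ ω, ∑ c, (toMeasurable (PC u w a) (A c)).indicator (fun _ => (1 : ENNReal)) ω ∂(PC u w a) :=
        lintegral_mono hpt
    _ = ∑ c, PC u w a (A c) := by
        rw [lintegral_finsetSum]
        · apply Finset.sum_congr rfl
          intro c _
          rw [lintegral_indicator (measurableSet_toMeasurable _ _), lintegral_const,
            Measure.restrict_apply_univ, one_mul, measure_toMeasurable]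
        · intro c _
          exact measurable_const.indicator (measurableSet_toMeasurable _ _)

end H941.countC
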