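import Pool.Agent.H941.Defs4

open MeasureTheory ProbabilityTheory

namespace H941.num_level

theorem aux_exp (κ : ℝ) (hκ : 0 < κ) (p : ℝ) :
    ∃ K : ℝ, 0 < K ∧ ∀ y : ℝ, 1 ≤ y → y ^ p * Real.exp (-(κ * y ^ (2 / 5 : ℝ))) ≤ K := by
  obtain ⟨m, hm⟩ := exists_nat_ge (5 / 2 * p)
  refine ⟨(m.factorial : ℝ) / κ ^ m, by positivity, fun y hy => ?_⟩
  have hy0 : 0 < y := by linarith
  set t := κ * y ^ (2 / 5 : ℝ) with ht
  have ht0 : 0 < t := by positivity
  have h1 : t ^ m / m.factorial ≤ Real.exp t := Real.pow_div_factorial_le_exp t ht0.le m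
  have h2 : Real.exp (-t) ≤ m.factorial / t ^ m := by
    rw [Real.exp_neg, inv_eq_one_div, div_le_div_iff₀ (Real.exp_pos _) (by positivity)]
    rw [div_le_iff₀ (by positivity)] at h1
    linarith
  have h3 : y ^ p ≤ (y ^ (2 / 5 : ℝ)) ^ m := by
    rw [← Real.rpow_natCast, ← Real.rpow_mul hy0.le]
    apply Real.rpow_le_rpow_of_exponent_le hy
    linarith
  calc y ^ p * Real.exp (-t) ≤ (y ^ (2 / 5 : ℝ)) ^ m * (m.factorial / t ^ m) :=
        mul_le_mul h3 h2 (Real.exp_pos _).le (by positivity)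
    _ = m.factorial / κ ^ m := by
        rw [ht, mul_pow]; field_simp

theorem aux_sqrt_bb (k : ℕ) : Real.sqrt (bb k) = (1 / 10) * ((k : ℝ) + 1) ^ (-(3 / 10) : ℝ) := by
  have hk : (0 : ℝ) < (k : ℝ) + 1 := by positivity
  rw [bb, bd, Real.sqrt_eq_iff_mul_self_eq (by positivity) (by positivity)]
  have : ((k : ℝ) + 1) ^ (-(3 / 5) : ℝ) = ((k : ℝ) + 1) ^ (-(3 / 10) : ℝ) *
      ((k : ℝ) + 1) ^ (-(3 / 10) : ℝ) := by
    rw [← Real.rpow_add hk]; norm_num
  rw [this]; ring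

theorem aux_G (j : ℕ) : (1 / 10) * (j : ℝ) ^ (7 / 10 : ℝ) ≤
    ∑ k ∈ Finset.range j, Real.sqrt (bb k) := by
  rcases Nat.eq_zero_or_pos j with h | h
  · subst h; norm_num
  have hj : (0 : ℝ) < j := by exact_mod_cast h
  have h1 : ∀ k ∈ Finset.range j, (1 / 10) * (j : ℝ) ^ (-(3 / 10) : ℝ) ≤ Real.sqrt (bb k) := by
    intro k hk
    rw [aux_sqrt_bb]
    have hk' : (k : ℝ) + 1 ≤ j := by exact_mod_cast Finset.mem_range.mp hk
    refine mul_le_mul_of_nonneg_left ?_ (by norm_num)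
    exact Real.rpow_le_rpow_of_nonpos (by positivity) hk' (by norm_num)
  have h2 := Finset.card_nsmul_le_sum _ _ _ h1
  rw [Finset.card_range, nsmul_eq_mul] at h2
  refine le_trans (le_of_eq ?_) h2
  have : (j : ℝ) ^ (7 / 10 : ℝ) = j * (j : ℝ) ^ (-(3 / 10) : ℝ) := by
    rw [← Real.rpow_one_add' hj.le (by norm_num)]; norm_num
  rw [this]; ring

theorem aux_prod (c1 θ : ℝ) (hc1 : 0 < c1) (hc1' : c1 ≤ 1) (hθ : 0 ≤ θ) (hθ' : θ ≤ 1) (j : ℕ) :
    ∏ k ∈ Finset.range j, (1 - (1 / 120) * (1 - Real.exp (-(c1 * (θ * Real.sqrt (bb k)))))) ≤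
      Real.exp (-(c1 * θ * (∑ k ∈ Finset.range j, Real.sqrt (bb k)) / 240)) := by
  have h1 : ∀ k ∈ Finset.range j,
      (1 - (1 / 120) * (1 - Real.exp (-(c1 * (θ * Real.sqrt (bb k)))))) ≤
        Real.exp (-(c1 * θ * Real.sqrt (bb k) / 240)) := by
    intro k _
    have hs0 : 0 ≤ Real.sqrt (bb k) := Real.sqrt_nonneg _
    have hs1 : Real.sqrt (bb k) ≤ 1 := by
      rw [aux_sqrt_bb]
      have : ((k : ℝ) + 1) ^ (-(3 / 10) : ℝ) ≤ 1 :=
        Real.rpow_le_one_of_one_le_of_nonpos (by linarith [(Nat.cast_nonneg k : (0 : ℝ) ≤ k)])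
          (by norm_num)
      linarith
    set z := c1 * (θ * Real.sqrt (bb k)) with hz
    have hz0 : 0 ≤ z := by positivity
    have hz1 : z ≤ 1 := by
      have : θ * Real.sqrt (bb k) ≤ 1 := mul_le_one₀ hθ' hs0 hs1
      exact mul_le_one₀ hc1' (by positivity) this
    have h2 : Real.exp (-z) ≤ 1 - z / 2 := by
      have h3 : 1 + z + z ^ 2 / 2 ≤ Real.exp z := Real.quadratic_le_exp_of_nonneg hz0
      have h4 : (1 - z / 2) * (1 + z + z ^ 2 / 2) ≥ 1 := by nlinarith [sq_nonneg z, pow_nonneg hz0 3]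
      have h5 : 1 ≤ (1 - z / 2) * Real.exp z :=
        h4.le.trans (mul_le_mul_of_nonneg_left h3 (by linarith))
      rw [Real.exp_neg, inv_eq_one_div, div_le_iff₀ (Real.exp_pos _)]
      exact h5
    have h6 : 1 - (1 / 120) * (1 - Real.exp (-z)) ≤ -(z / 240) + 1 := by linarith
    refine h6.trans ((Real.add_one_le_exp _).trans (le_of_eq ?_))
    congr 1
    rw [hz]; ring
  have h0 : ∀ k ∈ Finset.range j,
      0 ≤ (1 - (1 / 120) * (1 - Real.exp (-(c1 * (θ * Real.sqrt (bb k)))))) := by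
    intro k _
    have := Real.exp_pos (-(c1 * (θ * Real.sqrt (bb k))))
    linarith
  refine (Finset.prod_le_prod h0 h1).trans (le_of_eq ?_)
  rw [← Real.exp_sum]
  congr 1
  rw [Finset.sum_neg_distrib, ← Finset.sum_div, ← Finset.mul_sum]

theorem aux_log (L : ℕ) (hL : 8 ≤ L) : 24 * (L + 1) ≤ 2 ^ L := by
  induction L, hL using Nat.le_induction with
  | base => norm_num
  | succ n hn ih => rw [pow_succ]; omega

theorem _root_.H941.num_level (c1 C A c : ℝ) (hc1 : 0 < c1) (hc1' : c1 ≤ 1) (hC : 1 ≤ C) (hA : 1 ≤ A) (hc : 0 < c) :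
    ∃ (C3 : ℝ) (u0 : ℕ), 0 < C3 ∧ ∀ u ≥ u0, ∀ i : ℕ, ∃ θ g : ℝ, 0 ≤ θ ∧ θ ≤ 1 ∧ 1 ≤ g ∧
      ((i : ℝ) + u) ^ 9 * (4 * 2 ^ (gap u i)) *
        ((2 * Real.exp (-(c * g ^ 2)) + (A * 12 * u ^ 4 / ((i : ℝ) + u) ^ 9) ^ 4 + A * (1 / ((i : ℝ) + u) ^ 9) ^ 2) +
          Real.exp (-(θ * (u - 5 / 4 * g)) + θ ^ 2 * (3 * i + 10) / 2) *
          (∏ k ∈ Finset.range (i - gap u i), (1 - (1 / 120) * (1 - Real.exp (-(c1 * (θ * Real.sqrt (bb k))))))) +
          C * ((i : ℝ) + u) ^ C * Real.exp (-(g / 4)) + C / ((i : ℝ) + u) ^ 17) ≤ C3 / ((i : ℝ) + u) ^ 2 := by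
  set κ0 : ℝ := c1 ^ 2 / 10000000000 with hκ0
  have hκ0p : 0 < κ0 := by positivity
  obtain ⟨K1, hK1, hK1'⟩ := aux_exp (c * κ0) (by positivity) 17
  obtain ⟨K2, hK2, hK2'⟩ := aux_exp κ0 hκ0p 17
  obtain ⟨K3, hK3, hK3'⟩ := aux_exp (κ0 / 4) (by positivity) (17 + C)
  refine ⟨256 * (2 * K1 + (12 * A) ^ 4 + A + K2 + C * K3 + C), 256, by positivity,
    fun u hu i => ?_⟩
  set y : ℝ := (i : ℝ) + u with hy
  have hu' : (256 : ℝ) ≤ u := by exact_mod_cast hu
  have hi0 : (0 : ℝ) ≤ i := Nat.cast_nonneg i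
  have hy1 : 1 ≤ y := by linarith
  have hy0 : 0 < y := by linarith
  have hn : i + u ≠ 0 := by omega
  set j := i - gap u i with hj
  set G := ∑ k ∈ Finset.range j, Real.sqrt (bb k) with hG
  have hG0 : 0 ≤ G := Finset.sum_nonneg fun k _ => Real.sqrt_nonneg _
  set a := 3 / 8 * (u : ℝ) + c1 * G / 480 with ha
  set v := 3 * (i : ℝ) + 10 with hv
  have hv0 : 0 < v := by positivity
  have ha0 : 0 < a := by positivity
  set θ := min 1 (a / v) with hθ
  have hθ0 : 0 ≤ θ := le_min zero_le_one (by positivity)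
  have hθ1 : θ ≤ 1 := min_le_left _ _
  set g := (u + c1 / 300 * G) / 2 with hg
  have hg1 : 1 ≤ g := by
    have : 0 ≤ c1 / 300 * G := by positivity
    rw [hg]; linarith
  have hY1 : 1 ≤ y ^ (2 / 5 : ℝ) := Real.one_le_rpow hy1 (by norm_num)
  have hYy : y ^ (2 / 5 : ℝ) ≤ y := by
    conv_rhs => rw [← Real.rpow_one y]
    exact Real.rpow_le_rpow_of_exponent_le hy1 (by norm_num)
  have hc12 : c1 ^ 2 ≤ c1 := by nlinarith
  -- the two lower bounds
  have key : κ0 * y ^ (2 / 5 : ℝ) ≤ g ∧ κ0 * y ^ (2 / 5 : ℝ) ≤ θ * a / 2 := by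
    rcases le_or_gt i u with hiu | hiu
    · have hiu' : (i : ℝ) ≤ u := by exact_mod_cast hiu
      have hyu : y ≤ 2 * u := by linarith
      have hk1 : κ0 ≤ 1 / 10000000000 := by rw [hκ0]; linarith
      have h1 : κ0 * y ^ (2 / 5 : ℝ) ≤ 1 / 10000000000 * y :=
        mul_le_mul hk1 hYy (by positivity) (by norm_num)
      have hau : 3 / 8 * (u : ℝ) ≤ a := by
        have : 0 ≤ c1 * G / 480 := by positivity
        linarith
      refine ⟨?_, ?_⟩
      · have : 0 ≤ c1 / 300 * G := by positivity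
        rw [hg]; linarith
      · rcases le_total 1 (a / v) with h | h
        · rw [hθ, min_eq_left h]; linarith
        · rw [hθ, min_eq_right h]
          have hvu : v ≤ 13 * u := by linarith
          have h2 : 1 / 10000000000 * y ≤ a / v * a / 2 := by
            rw [show a / v * a / 2 = (a * a) / (v * 2) by field_simp, le_div_iff₀ (by positivity)]
            have h3 : (3 / 8 * (u : ℝ)) * (3 / 8 * (u : ℝ)) ≤ a * a :=
              mul_le_mul hau hau (by positivity) ha0.le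
            have h4 : 1 / 10000000000 * y * (v * 2) ≤ 1 / 10000000000 * (2 * u) * (13 * u * 2) := by
              apply mul_le_mul _ _ (by positivity) (by positivity)
              · linarith
              · linarith
            have h5 : 0 ≤ (u : ℝ) * u := by positivity
            nlinarith
          linarith
    · have hiu' : (u : ℝ) < i := by exact_mod_cast hiu
      have hi1 : (1 : ℝ) ≤ i := by linarith
      have hip : (0 : ℝ) < i := by linarith
      -- the gap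
      have hgap : 4 * gap u i ≤ i + u := by
        have hL : 8 ≤ Nat.log 2 (i + u) := by
          apply Nat.le_log_of_pow_le (by norm_num)
          norm_num; omega
        have h1 := aux_log _ hL
        have h2 := Nat.pow_log_le_self 2 hn
        rw [gap]; omega
      have hji : (i : ℝ) / 2 ≤ j := by
        have h1 : i ≤ 2 * j := by omega
        have h2 : (i : ℝ) ≤ 2 * j := by exact_mod_cast h1
        linarith
      have hG1 : (1 / 20) * (i : ℝ) ^ (7 / 10 : ℝ) ≤ G := by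
        refine le_trans ?_ (aux_G j)
        have h1 : ((i : ℝ) / 2) ^ (7 / 10 : ℝ) ≤ (j : ℝ) ^ (7 / 10 : ℝ) :=
          Real.rpow_le_rpow (by positivity) hji (by norm_num)
        have h2 : (i : ℝ) ^ (7 / 10 : ℝ) / 2 ≤ ((i : ℝ) / 2) ^ (7 / 10 : ℝ) := by
          rw [Real.div_rpow hi0 (by norm_num)]
          apply div_le_div_of_nonneg_left (by positivity) (by positivity)
          conv_rhs => rw [← Real.rpow_one (2 : ℝ)]
          exact Real.rpow_le_rpow_of_exponent_le (by norm_num) (by norm_num)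
        linarith
      have hi25 : (i : ℝ) ^ (2 / 5 : ℝ) ≤ (i : ℝ) ^ (7 / 10 : ℝ) :=
        Real.rpow_le_rpow_of_exponent_le hi1 (by norm_num)
      have hi25' : y ^ (2 / 5 : ℝ) ≤ 2 * (i : ℝ) ^ (2 / 5 : ℝ) := by
        have h1 : y ^ (2 / 5 : ℝ) ≤ (2 * (i : ℝ)) ^ (2 / 5 : ℝ) :=
          Real.rpow_le_rpow hy0.le (by linarith) (by norm_num)
        refine h1.trans ?_
        rw [Real.mul_rpow (by norm_num) hi0]
        apply mul_le_mul_of_nonneg_right _ (by positivity)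
        conv_rhs => rw [← Real.rpow_one (2 : ℝ)]
        exact Real.rpow_le_rpow_of_exponent_le (by norm_num) (by norm_num)
      set I := (i : ℝ) ^ (2 / 5 : ℝ) with hI
      have hI0 : 0 < I := by positivity
      have hGI : (1 / 20) * I ≤ G := by linarith
      have hcI : 0 ≤ c1 * I := by positivity
      have hup : κ0 * y ^ (2 / 5 : ℝ) ≤ c1 ^ 2 / 10000000000 * (2 * I) :=
        mul_le_mul_of_nonneg_left hi25' hκ0p.le
      have hup1 : c1 ^ 2 / 10000000000 * (2 * I) ≤ c1 / 5000000000 * I := by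
        have := mul_le_mul_of_nonneg_right hc12 hI0.le
        linarith
      have hcG : c1 * ((1 / 20) * I) ≤ c1 * G := mul_le_mul_of_nonneg_left hGI hc1.le
      refine ⟨?_, ?_⟩
      · rw [hg]
        have : c1 / 300 * G = c1 * G / 300 := by ring
        linarith
      · have haI : c1 * I / 9600 ≤ a := by
          linarith
        rcases le_total 1 (a / v) with h | h
        · rw [hθ, min_eq_left h]; linarith
        · rw [hθ, min_eq_right h]
          have hvi : v ≤ 13 * i := by linarith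
          have ha7 : c1 * (i : ℝ) ^ (7 / 10 : ℝ) / 9600 ≤ a := by
            have := mul_le_mul_of_nonneg_left hG1 hc1.le
            linarith
          have hsq : (i : ℝ) ^ (7 / 10 : ℝ) * (i : ℝ) ^ (7 / 10 : ℝ) = I * i := by
            rw [hI, ← Real.rpow_add hip]
            conv_rhs => rw [← Real.rpow_add_one hip.ne']
            norm_num
          have h3 : (c1 * (i : ℝ) ^ (7 / 10 : ℝ) / 9600) * (c1 * (i : ℝ) ^ (7 / 10 : ℝ) / 9600)
              ≤ a * a := mul_le_mul ha7 ha7 (by positivity) ha0.le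
          have h4 : (c1 * (i : ℝ) ^ (7 / 10 : ℝ) / 9600) * (c1 * (i : ℝ) ^ (7 / 10 : ℝ) / 9600)
              = c1 ^ 2 * (I * i) / 92160000 := by
            rw [← hsq]; ring
          have h2 : c1 ^ 2 / 10000000000 * (2 * I) ≤ a / v * a / 2 := by
            rw [show a / v * a / 2 = (a * a) / (v * 2) by field_simp, le_div_iff₀ (by positivity)]
            have h5 : c1 ^ 2 / 10000000000 * (2 * I) * (v * 2) ≤
                c1 ^ 2 / 10000000000 * (2 * I) * (13 * i * 2) :=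
              mul_le_mul_of_nonneg_left (by linarith) (by positivity)
            have h6 : 0 ≤ c1 ^ 2 * (I * i) := by positivity
            have h7 : c1 ^ 2 / 10000000000 * (2 * I) * (13 * i * 2) =
              c1 ^ 2 * (I * i) * (52 / 10000000000) := by ring
            rw [h7] at h5
            rw [h4] at h3
            linarith
          linarith
  obtain ⟨hkg, hka⟩ := key
  refine ⟨θ, g, hθ0, hθ1, hg1, ?_⟩
  -- the prefactor
  have hpre : y ^ 9 * (4 * 2 ^ (gap u i)) ≤ 256 * y ^ 15 := by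
    have h1 : (2 : ℝ) ^ (gap u i) ≤ 64 * y ^ 6 := by
      have h2 := Nat.pow_log_le_self 2 hn
      have h3 : (2 : ℝ) ^ (Nat.log 2 (i + u)) ≤ y := by
        have : ((2 ^ (Nat.log 2 (i + u)) : ℕ) : ℝ) ≤ ((i + u : ℕ) : ℝ) := by exact_mod_cast h2
        push_cast at this
        exact this
      have h4 : (2 : ℝ) ^ (gap u i) = (2 ^ (Nat.log 2 (i + u)) * 2) ^ 6 := by
        rw [gap, ← pow_succ, ← pow_mul, mul_comm]
      rw [h4]
      calc ((2 : ℝ) ^ (Nat.log 2 (i + u)) * 2) ^ 6 ≤ (y * 2) ^ 6 :=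
            pow_le_pow_left₀ (by positivity) (by linarith) 6
        _ = 64 * y ^ 6 := by ring
    calc y ^ 9 * (4 * 2 ^ (gap u i)) ≤ y ^ 9 * (4 * (64 * y ^ 6)) :=
          mul_le_mul_of_nonneg_left (by linarith) (by positivity)
      _ = 256 * y ^ 15 := by ring
  -- the terms
  have ry : ∀ n : ℕ, y ^ (n : ℝ) = y ^ n := fun n => Real.rpow_natCast y n
  have t1 : Real.exp (-(c * g ^ 2)) ≤ K1 / y ^ 17 := by
    have h1 : c * κ0 * y ^ (2 / 5 : ℝ) ≤ c * g ^ 2 := by
      have h2 : g ≤ g ^ 2 := by nlinarith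
      have h3 : c * (κ0 * y ^ (2 / 5 : ℝ)) ≤ c * g ^ 2 :=
        mul_le_mul_of_nonneg_left (hkg.trans h2) hc.le
      linarith
    have h2 := hK1' y hy1
    rw [show (17 : ℝ) = ((17 : ℕ) : ℝ) by norm_num, ry] at h2
    rw [le_div_iff₀ (by positivity), mul_comm]
    refine le_trans (mul_le_mul_of_nonneg_left (Real.exp_le_exp.mpr (neg_le_neg h1)) (by positivity)) h2
  have t2 : (A * 12 * u ^ 4 / y ^ 9) ^ 4 ≤ (12 * A) ^ 4 / y ^ 17 := by
    have h1 : A * 12 * (u : ℝ) ^ 4 / y ^ 9 ≤ (12 * A) * y ^ 4 / y ^ 9 := by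
      apply div_le_div_of_nonneg_right _ (by positivity)
      have : (u : ℝ) ^ 4 ≤ y ^ 4 := pow_le_pow_left₀ (by positivity) (by linarith) 4
      nlinarith
    have h2 : (12 * A) * y ^ 4 / y ^ 9 = 12 * A / y ^ 5 := by field_simp
    rw [h2] at h1
    refine (pow_le_pow_left₀ (by positivity) h1 4).trans ?_
    rw [div_pow, ← pow_mul]
    apply div_le_div_of_nonneg_left (by positivity) (by positivity)
    exact pow_le_pow_right₀ hy1 (by norm_num)
  have t3 : A * (1 / y ^ 9) ^ 2 ≤ A / y ^ 17 := by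
    rw [div_pow, one_pow, ← pow_mul, mul_one_div]
    apply div_le_div_of_nonneg_left (by positivity) (by positivity)
    exact pow_le_pow_right₀ hy1 (by norm_num)
  have t4 : Real.exp (-(θ * (u - 5 / 4 * g)) + θ ^ 2 * (3 * i + 10) / 2) *
      (∏ k ∈ Finset.range j, (1 - (1 / 120) * (1 - Real.exp (-(c1 * (θ * Real.sqrt (bb k)))))))
      ≤ K2 / y ^ 17 := by
    have h1 := aux_prod c1 θ hc1 hc1' hθ0 hθ1 j
    rw [← hG] at h1
    have h2 : Real.exp (-(θ * (u - 5 / 4 * g)) + θ ^ 2 * (3 * i + 10) / 2) *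
      (∏ k ∈ Finset.range j, (1 - (1 / 120) * (1 - Real.exp (-(c1 * (θ * Real.sqrt (bb k)))))))
      ≤ Real.exp (-(κ0 * y ^ (2 / 5 : ℝ))) := by
      refine (mul_le_mul_of_nonneg_left h1 (Real.exp_pos _).le).trans ?_
      rw [← Real.exp_add]
      apply Real.exp_le_exp.mpr
      have h3 : θ * v ≤ a := by
        have : θ ≤ a / v := min_le_right _ _
        rwa [le_div_iff₀ hv0] at this
      have h4 : θ ^ 2 * v / 2 ≤ θ * a / 2 := by
        have := mul_le_mul_of_nonneg_left h3 hθ0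
        nlinarith
      have h5 : -(θ * (u - 5 / 4 * g)) + θ ^ 2 * (3 * i + 10) / 2 + -(c1 * θ * G / 240)
          = -(θ * a) + θ ^ 2 * v / 2 := by
        rw [hg, ha, hv]; ring
      rw [h5]; linarith
    refine h2.trans ?_
    have h3 := hK2' y hy1
    rw [show (17 : ℝ) = ((17 : ℕ) : ℝ) by norm_num, ry] at h3
    rw [le_div_iff₀ (by positivity), mul_comm]
    exact h3
  have t5 : C * y ^ C * Real.exp (-(g / 4)) ≤ C * K3 / y ^ 17 := by
    have h1 : Real.exp (-(g / 4)) ≤ Real.exp (-(κ0 / 4 * y ^ (2 / 5 : ℝ))) := by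
      apply Real.exp_le_exp.mpr; linarith
    have h3 := hK3' y hy1
    rw [Real.rpow_add hy0, show (17 : ℝ) = ((17 : ℕ) : ℝ) by norm_num, ry] at h3
    rw [le_div_iff₀ (by positivity)]
    have hC0 : 0 < C := by linarith
    calc C * y ^ C * Real.exp (-(g / 4)) * y ^ 17
        ≤ C * y ^ C * Real.exp (-(κ0 / 4 * y ^ (2 / 5 : ℝ))) * y ^ 17 := by
          apply mul_le_mul_of_nonneg_right _ (by positivity)
          exact mul_le_mul_of_nonneg_left h1 (by positivity)
      _ = C * (y ^ 17 * y ^ C * Real.exp (-(κ0 / 4 * y ^ (2 / 5 : ℝ)))) := by ring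
      _ ≤ C * K3 := mul_le_mul_of_nonneg_left h3 hC0.le
  have hsum : ((2 * Real.exp (-(c * g ^ 2)) + (A * 12 * u ^ 4 / y ^ 9) ^ 4 + A * (1 / y ^ 9) ^ 2) +
          Real.exp (-(θ * (u - 5 / 4 * g)) + θ ^ 2 * (3 * i + 10) / 2) *
          (∏ k ∈ Finset.range j, (1 - (1 / 120) * (1 - Real.exp (-(c1 * (θ * Real.sqrt (bb k))))))) +
          C * y ^ C * Real.exp (-(g / 4)) + C / y ^ 17) ≤
      (2 * K1 + (12 * A) ^ 4 + A + K2 + C * K3 + C) / y ^ 17 := by
    have : (2 * K1 + (12 * A) ^ 4 + A + K2 + C * K3 + C) / y ^ 17 =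
      ((2 * (K1 / y ^ 17) + (12 * A) ^ 4 / y ^ 17 + A / y ^ 17) + K2 / y ^ 17 +
        C * K3 / y ^ 17 + C / y ^ 17) := by ring
    rw [this]
    linarith
  have hpos : 0 ≤ (2 * K1 + (12 * A) ^ 4 + A + K2 + C * K3 + C) / y ^ 17 := by positivity
  calc _ ≤ y ^ 9 * (4 * 2 ^ (gap u i)) * ((2 * K1 + (12 * A) ^ 4 + A + K2 + C * K3 + C) / y ^ 17) :=
        mul_le_mul_of_nonneg_left hsum (by positivity)
    _ ≤ 256 * y ^ 15 * ((2 * K1 + (12 * A) ^ 4 + A + K2 + C * K3 + C) / y ^ 17) :=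
        mul_le_mul_of_nonneg_right hpre hpos
    _ = 256 * (2 * K1 + (12 * A) ^ 4 + A + K2 + C * K3 + C) / y ^ 2 := by
        field_simp

end H941.num_level
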