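import Pool.Agent.H941.Defs4

open MeasureTheory ProbabilityTheory

namespace H941.parC_holds

theorem bd_eq (s : ℝ) (i : ℕ) : bd s i = s / ((((i : ℝ) + 1) ^ ((1:ℝ)/5)) ^ 3) := by
  have hx : (0:ℝ) < (i:ℝ) + 1 := by positivity
  unfold bd
  rw [← Real.rpow_natCast (((i:ℝ)+1) ^ ((1:ℝ)/5)) 3, ← Real.rpow_mul hx.le, Real.rpow_neg hx.le]
  norm_num
  exact (div_eq_mul_inv _ _).symm

theorem c5 (i : ℕ) : (((i : ℝ) + 1) ^ ((1:ℝ)/5)) ^ 5 = (i:ℝ) + 1 := by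
  have hx : (0:ℝ) < (i:ℝ) + 1 := by positivity
  rw [← Real.rpow_natCast (((i:ℝ)+1) ^ ((1:ℝ)/5)) 5, ← Real.rpow_mul hx.le]
  norm_num

theorem bd_sum (s : ℝ) (n : ℕ) :
    ∑ k ∈ Finset.range (n + 1), bd s k ^ 2 ≤ s ^ 2 * (6 - 5 / (((n : ℝ) + 1) ^ ((1:ℝ)/5))) := by
  induction n with
  | zero =>
    simp [bd]
    nlinarith [sq_nonneg s]
  | succ n ih =>
    rw [Finset.sum_range_succ]
    have e1 := c5 n
    have e2 := c5 (n + 1)
    have ha : 0 < ((n : ℝ) + 1) ^ ((1:ℝ)/5) := by positivity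
    have hb : 0 < (((n + 1 : ℕ) : ℝ) + 1) ^ ((1:ℝ)/5) := by positivity
    have hab : ((n : ℝ) + 1) ^ ((1:ℝ)/5) ≤ (((n + 1 : ℕ) : ℝ) + 1) ^ ((1:ℝ)/5) := by
      apply Real.rpow_le_rpow (by positivity) _ (by norm_num)
      push_cast; linarith
    rw [bd_eq s (n + 1)]
    generalize ((n : ℝ) + 1) ^ ((1:ℝ)/5) = a at *
    generalize (((n + 1 : ℕ) : ℝ) + 1) ^ ((1:ℝ)/5) = b at *
    have e3 : b ^ 5 - a ^ 5 = 1 := by rw [e1, e2]; push_cast; ring
    -- 1/b^6 ≤ 5/a - 5/b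
    have key : 1 / b ^ 6 ≤ 5 / a - 5 / b := by
      have h1 : (b - a) * (5 * b ^ 4) ≥ 1 := by
        have h2 : b ^ 5 - a ^ 5 = (b - a) * (b ^ 4 + b ^ 3 * a + b ^ 2 * a ^ 2 + b * a ^ 3 + a ^ 4) := by
          ring
        rw [← e3, h2]
        apply mul_le_mul_of_nonneg_left _ (by linarith)
        have g1 : b ^ 3 * a ≤ b ^ 3 * b := mul_le_mul_of_nonneg_left hab (by positivity)
        have g2 : b ^ 2 * a ^ 2 ≤ b ^ 2 * b ^ 2 :=
          mul_le_mul_of_nonneg_left (pow_le_pow_left₀ ha.le hab 2) (by positivity)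
        have g3 : b * a ^ 3 ≤ b * b ^ 3 :=
          mul_le_mul_of_nonneg_left (pow_le_pow_left₀ ha.le hab 3) (by positivity)
        have g4 : a ^ 4 ≤ b ^ 4 := pow_le_pow_left₀ ha.le hab 4
        nlinarith
      have h3 : 5 / a - 5 / b = 5 * (b - a) / (a * b) := by field_simp
      rw [h3, div_le_div_iff₀ (by positivity) (by positivity)]
      have h4 : a * b ≤ b * b := mul_le_mul_of_nonneg_right hab hb.le
      calc 1 * (a * b) ≤ b * b := by linarith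
        _ ≤ ((b - a) * (5 * b ^ 4)) * (b * b) := by nlinarith [mul_pos hb hb]
        _ = 5 * (b - a) * b ^ 6 := by ring
    have h5 : (s / b ^ 3) ^ 2 = s ^ 2 * (1 / b ^ 6) := by
      field_simp
    rw [h5]
    have h6 : s ^ 2 * (1 / b ^ 6) ≤ s ^ 2 * (5 / a - 5 / b) :=
      mul_le_mul_of_nonneg_left key (sq_nonneg s)
    nlinarith

theorem bd_sum6 (s : ℝ) (n : ℕ) : ∑ k ∈ Finset.range n, bd s k ^ 2 ≤ 6 * s ^ 2 := by
  cases n with
  | zero => simp; positivity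
  | succ n =>
    have h := bd_sum s n
    have h2 : 0 ≤ s ^ 2 * (5 / (((n : ℝ) + 1) ^ ((1:ℝ)/5))) := by positivity
    nlinarith

theorem prod_ge (s : ℝ) (i : ℕ) : 1 ≤ ∏ k ∈ Finset.range i, Real.sqrt (1 + 4 * bd s k ^ 2) := by
  induction i with
  | zero => simp
  | succ i ih =>
    rw [Finset.prod_range_succ]
    have h : 1 ≤ Real.sqrt (1 + 4 * bd s i ^ 2) := by
      rw [Real.one_le_sqrt]; nlinarith [sq_nonneg (bd s i)]
    nlinarith

theorem prod_le1 (i : ℕ) :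
    ∏ k ∈ Finset.range i, Real.sqrt (1 + 4 * bd (1 / 100) k ^ 2) ≤ 101 / 100 := by
  set s : ℝ := 1 / 100 with hs
  have h1 : ∏ k ∈ Finset.range i, Real.sqrt (1 + 4 * bd s k ^ 2) ≤
      ∏ k ∈ Finset.range i, Real.exp (2 * bd s k ^ 2) := by
    apply Finset.prod_le_prod
    · intro k _; exact Real.sqrt_nonneg _
    · intro k _
      have h2 : Real.sqrt (1 + 4 * bd s k ^ 2) ≤ 1 + 2 * bd s k ^ 2 := by
        rw [Real.sqrt_le_left (by positivity)]
        nlinarith [sq_nonneg (bd s k), sq_nonneg (bd s k ^ 2)]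
      have h3 := Real.add_one_le_exp (2 * bd s k ^ 2)
      linarith
  rw [← Real.exp_sum, ← Finset.mul_sum] at h1
  have h4 := bd_sum6 s i
  have h5 : s ^ 2 = 1 / 10000 := by rw [hs]; norm_num
  have h6 : Real.exp (2 * ∑ k ∈ Finset.range i, bd s k ^ 2) ≤ Real.exp (12 / 10000) := by
    apply Real.exp_le_exp.mpr; rw [h5] at h4; linarith
  have h7 : Real.exp (12 / 10000) ≤ 101 / 100 := by
    have h8 := Real.add_one_le_exp (-(12 / 10000 : ℝ))
    rw [Real.exp_neg] at h8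
    have h9 := Real.exp_pos (12 / 10000 : ℝ)
    have h10 : (-(12 / 10000 : ℝ) + 1) * Real.exp (12 / 10000) ≤
        (Real.exp (12 / 10000))⁻¹ * Real.exp (12 / 10000) :=
      mul_le_mul_of_nonneg_right h8 h9.le
    rw [inv_mul_cancel₀ h9.ne'] at h10
    nlinarith
  linarith

theorem dl_eq (s ℓ : ℝ) (i : ℕ) :
    dl s ℓ i = ℓ * (∏ k ∈ Finset.range i, Real.sqrt (1 + 4 * bd s k ^ 2)) / 64 ^ i := by
  unfold dl
  rw [Finset.prod_div_distrib, Finset.prod_const, Finset.card_range, mul_div_assoc]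

theorem dl_ge (s ℓ : ℝ) (hℓ : 0 ≤ ℓ) (i : ℕ) : ℓ / 64 ^ i ≤ dl s ℓ i := by
  rw [dl_eq]
  have h := prod_ge s i
  gcongr
  nlinarith

theorem dl_le1 (ℓ : ℝ) (hℓ : 0 ≤ ℓ) (i : ℕ) :
    dl (1 / 100) ℓ i ≤ 101 / 100 * ℓ / 64 ^ i := by
  rw [dl_eq, mul_comm (101 / 100 : ℝ) ℓ]
  have h := prod_le1 i
  gcongr

theorem dl_succ (s ℓ : ℝ) (hs0 : 0 < s) (hs : s ≤ 1 / 8) (hℓ : 0 ≤ ℓ) (i : ℕ) :
    dl s ℓ (i + 1) ≤ dl s ℓ i / 60 := by
  have h0 : 0 ≤ dl s ℓ i := by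
    rw [dl_eq]
    have h := prod_ge s i
    positivity
  have h1 : dl s ℓ (i + 1) = dl s ℓ i * (Real.sqrt (1 + 4 * bd s i ^ 2) / 64) := by
    unfold dl
    rw [Finset.prod_range_succ]; ring
  have h2 : bd s i ≤ s := by
    unfold bd
    have : ((i : ℝ) + 1) ^ (-(3 / 5) : ℝ) ≤ 1 := by
      apply Real.rpow_le_one_of_one_le_of_nonpos
      · have : (0:ℝ) ≤ (i:ℝ) := by positivity
        linarith
      · norm_num
    nlinarith
  have h20 : 0 ≤ bd s i := by unfold bd; positivity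
  have h3 : Real.sqrt (1 + 4 * bd s i ^ 2) ≤ 64 / 60 := by
    rw [Real.sqrt_le_left (by norm_num)]
    nlinarith
  rw [h1]
  nlinarith

theorem bd_anti (s : ℝ) (hs0 : 0 < s) (i : ℕ) : bd s (i + 1) ≤ bd s i := by
  unfold bd
  apply mul_le_mul_of_nonneg_left _ hs0.le
  apply Real.rpow_le_rpow_of_nonpos
  · positivity
  · push_cast; linarith
  · norm_num

theorem bd_pos (s : ℝ) (hs0 : 0 < s) (i : ℕ) : 0 < bd s i := by
  unfold bd; positivity

theorem bd_ge (s : ℝ) (hs0 : 0 < s) (i : ℕ) (L : ℝ) (h : (i : ℝ) + 1 ≤ L) : s / L ≤ bd s i := by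
  unfold bd
  rw [div_eq_mul_inv]
  apply mul_le_mul_of_nonneg_left _ hs0.le
  have hx : (1:ℝ) ≤ (i:ℝ) + 1 := by
    have : (0:ℝ) ≤ (i:ℝ) := by positivity
    linarith
  calc L⁻¹ ≤ ((i:ℝ) + 1)⁻¹ := by
        apply inv_anti₀ (by positivity) h
    _ = ((i:ℝ) + 1) ^ (-1 : ℝ) := by rw [Real.rpow_neg_one]
    _ ≤ ((i : ℝ) + 1) ^ (-(3 / 5) : ℝ) := by
        apply Real.rpow_le_rpow_of_exponent_le hx; norm_num

theorem lc_le (s ℓ : ℝ) (i : ℕ) (h : 96 ≤ bd s i * dl s ℓ i) :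
    (lc s ℓ i : ℝ) ≤ bd s i * dl s ℓ i / 32 := by
  unfold lc
  have h1 : 3 ≤ ⌊bd s i * dl s ℓ i / 32⌋₊ := by
    apply Nat.le_floor; push_cast; linarith
  have h2 := Nat.pow_log_le_self 2 (x := ⌊bd s i * dl s ℓ i / 32⌋₊) (by omega)
  have h3 : (⌊bd s i * dl s ℓ i / 32⌋₊ : ℝ) ≤ bd s i * dl s ℓ i / 32 := Nat.floor_le (by linarith)
  calc ((2 ^ Nat.log 2 ⌊bd s i * dl s ℓ i / 32⌋₊ : ℕ) : ℝ) ≤ (⌊bd s i * dl s ℓ i / 32⌋₊ : ℝ) := by
        exact_mod_cast h2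
    _ ≤ _ := h3

theorem lc_ge (s ℓ : ℝ) (i : ℕ) : bd s i * dl s ℓ i / 64 ≤ lc s ℓ i := by
  unfold lc
  have h1 := Nat.lt_pow_succ_log_self (b := 2) (by norm_num) ⌊bd s i * dl s ℓ i / 32⌋₊
  have h2 := Nat.lt_floor_add_one (bd s i * dl s ℓ i / 32)
  have h3 : (⌊bd s i * dl s ℓ i / 32⌋₊ : ℝ) + 1 ≤
      2 * ((2 ^ Nat.log 2 ⌊bd s i * dl s ℓ i / 32⌋₊ : ℕ) : ℝ) := by
    have h4 : ⌊bd s i * dl s ℓ i / 32⌋₊ + 1 ≤ 2 * 2 ^ Nat.log 2 ⌊bd s i * dl s ℓ i / 32⌋₊ := by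
      rw [Nat.pow_succ] at h1; omega
    exact_mod_cast h4
  linarith

theorem lc_dvd_of_le (s ℓ : ℝ) (i j : ℕ) (h : (lc s ℓ i : ℝ) ≤ lc s ℓ j) : lc s ℓ i ∣ lc s ℓ j := by
  unfold lc at *
  have h1 : 2 ^ Nat.log 2 ⌊bd s i * dl s ℓ i / 32⌋₊ ≤ 2 ^ Nat.log 2 ⌊bd s j * dl s ℓ j / 32⌋₊ := by
    exact_mod_cast h
  exact pow_dvd_pow 2 ((Nat.pow_le_pow_iff_right (by norm_num)).mp h1)

theorem lc_dvd2_of_le (s ℓ : ℝ) (i j : ℕ) (h : 2 * (lc s ℓ i : ℝ) ≤ lc s ℓ j) :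
    2 * lc s ℓ i ∣ lc s ℓ j := by
  unfold lc at *
  have h1 : 2 * 2 ^ Nat.log 2 ⌊bd s i * dl s ℓ i / 32⌋₊ ≤ 2 ^ Nat.log 2 ⌊bd s j * dl s ℓ j / 32⌋₊ := by
    exact_mod_cast h
  rw [← Nat.pow_succ'] at h1 ⊢
  exact pow_dvd_pow 2 ((Nat.pow_le_pow_iff_right (by norm_num)).mp h1)

theorem parC_aux (u w : ℕ) (hu : 10 ^ 6 ≤ u) (hw : 64 ^ 5 * (Nat.log 2 w + u) ^ 16 ≤ w) :
    ParC u w := by
  obtain ⟨M, hM⟩ : ∃ M, M = Nat.log 2 w + u := ⟨_, rfl⟩
  obtain ⟨n, hn⟩ : ∃ n, n = nb u w := ⟨_, rfl⟩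
  have hM6 : 10 ^ 6 ≤ M := by omega
  have hM0 : 0 < M := by omega
  have hMp : 0 < M ^ 16 := by positivity
  rw [← hM] at hw
  have h1 : 64 ^ 5 ≤ w / M ^ 16 := by
    rw [Nat.le_div_iff_mul_le hMp]; exact hw
  have h2 : w / M ^ 16 ≠ 0 := by omega
  have hnb : n = Nat.log 64 (w / M ^ 16) := by rw [hn, nb, ← hM]
  have h3 : 64 ^ n ≤ w / M ^ 16 := by rw [hnb]; exact Nat.pow_log_le_self 64 h2
  have h4 : w / M ^ 16 < 64 ^ (n + 1) := by rw [hnb]; exact Nat.lt_pow_succ_log_self (by norm_num) _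
  have h5 : 5 ≤ n := by rw [hnb]; exact Nat.le_log_of_pow_le (by norm_num) h1
  have h6 : 64 ^ n * M ^ 16 ≤ w := by
    rw [Nat.le_div_iff_mul_le hMp] at h3; exact h3
  have h7 : w < 64 ^ (n + 1) * M ^ 16 := by
    rw [Nat.div_lt_iff_lt_mul hMp] at h4; exact h4
  have hw0 : 0 < w := lt_of_lt_of_le (by positivity) h6
  have h8 : 64 ^ n ≤ w := le_trans (Nat.le_mul_of_pos_right _ hMp) h6
  have h9 : 6 * n ≤ Nat.log 2 w := by
    apply Nat.le_log_of_pow_le (by norm_num)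
    rw [pow_mul]; exact h8
  have h10 : ∀ i ≤ n, 64 ^ i * M ^ 16 ≤ w := by
    intro i hi
    exact le_trans (Nat.mul_le_mul_right _ (Nat.pow_le_pow_right (by norm_num) hi)) h6
  have hwr : (0:ℝ) < w := by exact_mod_cast hw0
  have hMr : (10:ℝ) ^ 6 ≤ M := by exact_mod_cast hM6
  have hMr0 : (0:ℝ) < M := by exact_mod_cast hM0
  -- bounds for the segment lengths
  have hll : ∀ i, 5 * (w : ℝ) / 64 ^ i ≤ ll w i := fun i =>
    dl_ge (1 / 100) (5 * (w : ℝ)) (by positivity) i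
  have hll2 : ∀ i, ll w i ≤ 101 / 100 * (5 * (w : ℝ)) / 64 ^ i := fun i =>
    dl_le1 (5 * (w : ℝ)) (by positivity) i
  have hbb : ∀ i : ℕ, 1 / (100 * ((i : ℝ) + 1)) ≤ bb i := by
    intro i
    have := bd_ge (1 / 100) (by norm_num) i ((i : ℝ) + 1) le_rfl
    unfold bb
    rwa [div_div] at this
  have hbl : ∀ i : ℕ, 5 * (w : ℝ) / (100 * ((i : ℝ) + 1) * 64 ^ i) ≤ bb i * ll w i := by
    intro i
    have e : 5 * (w : ℝ) / (100 * ((i : ℝ) + 1) * 64 ^ i) =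
        (1 / (100 * ((i : ℝ) + 1))) * (5 * (w : ℝ) / 64 ^ i) := by
      field_simp
    rw [e]
    exact mul_le_mul (hbb i) (hll i) (by positivity) (bd_pos _ (by norm_num) i).le
  have hbig : ∀ i < n, 1024 ≤ bb i * ll w i := by
    intro i hi
    refine le_trans ?_ (hbl i)
    rw [le_div_iff₀ (by positivity)]
    have e1 : (64:ℝ) ^ (i + 1) * M ^ 16 ≤ w := by exact_mod_cast h10 (i + 1) (by omega)
    have e2 : (i : ℝ) + 1 ≤ M := by exact_mod_cast (by omega : i + 1 ≤ M)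
    have e3 : (10:ℝ) ^ 6 ≤ (M : ℝ) ^ 15 := by
      calc (10:ℝ) ^ 6 ≤ M := hMr
        _ ≤ (M : ℝ) ^ 15 := by
            apply le_self_pow₀ _ (by norm_num)
            linarith [show (1:ℝ) ≤ 10 ^ 6 by norm_num]
    have e4 : (M : ℝ) ^ 16 = M ^ 15 * M := by ring
    have e5 : (0:ℝ) < 64 ^ i := by positivity
    have e6 : (64:ℝ) ^ i * ((10:ℝ) ^ 6 * ((i : ℝ) + 1)) ≤ 64 ^ i * (M ^ 15 * M) := by
      apply mul_le_mul_of_nonneg_left _ e5.le
      apply mul_le_mul e3 e2 (by positivity) (by positivity)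
    rw [pow_succ, e4] at e1
    nlinarith
  have hccge : ∀ i, bb i * ll w i / 64 ≤ cc w i := fun i => lc_ge (1 / 100) (5 * (w : ℝ)) i
  have hccle : ∀ i < n, (cc w i : ℝ) ≤ bb i * ll w i / 32 := by
    intro i hi
    apply lc_le (1 / 100) (5 * (w : ℝ)) i
    have := hbig i hi
    unfold bb ll at this
    linarith
  have hdec : ∀ i, bb (i + 1) * ll w (i + 1) ≤ bb i * ll w i / 60 := by
    intro i
    have a1 := dl_succ (1 / 100) (5 * (w : ℝ)) (by norm_num) (by norm_num) (by positivity) i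
    have a2 := bd_anti (1 / 100) (by norm_num) i
    have a3 : 0 ≤ dl (1 / 100) (5 * (w : ℝ)) (i + 1) := by
      refine le_trans (by positivity) (dl_ge (1 / 100) (5 * (w : ℝ)) (by positivity) (i + 1))
    have a4 := (bd_pos (1 / 100) (by norm_num) i).le
    unfold bb ll
    calc bd (1 / 100) (i + 1) * dl (1 / 100) (5 * (w : ℝ)) (i + 1)
        ≤ bd (1 / 100) i * (dl (1 / 100) (5 * (w : ℝ)) i / 60) := mul_le_mul a2 a1 a3 a4
      _ = _ := by ring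
  have hcc30 : ∀ i, i + 1 < n → 30 * (cc w (i + 1) : ℝ) ≤ cc w i := by
    intro i hi
    have b1 := hccle (i + 1) hi
    have b2 := hdec i
    have b3 := hccge i
    linarith
  have hdvd : ∀ i, i + 1 < n → 2 * cc w (i + 1) ∣ cc w i := by
    intro i hi
    apply lc_dvd2_of_le (1 / 100) (5 * (w : ℝ)) (i + 1) i
    have := hcc30 i hi
    have h0 : (0:ℝ) ≤ cc w (i + 1) := by positivity
    unfold cc at this h0
    linarith
  have hwi1 : ∀ i ≤ n, M ^ 16 ≤ wi w i := by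
    intro i hi
    unfold wi
    rw [Nat.le_div_iff_mul_le (by positivity)]
    have := h10 i hi
    rw [mul_comm] at this
    omega
  have hwi2 : ∀ i ≤ n, 5 * w ≤ 64 ^ i * wi w i := by
    intro i hi
    unfold wi
    have h0 : 0 < 64 ^ i := by positivity
    have c1 := Nat.div_add_mod (6 * w) (64 ^ i)
    have c2 := Nat.mod_lt (6 * w) h0
    have c3 : 64 ^ i ≤ w := le_trans (Nat.le_mul_of_pos_right _ hMp) (h10 i hi)
    omega
  have hwi3 : ∀ i, 64 ^ i * wi w i ≤ 6 * w := by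
    intro i
    unfold wi
    exact Nat.mul_div_le _ _
  refine ⟨hu, by omega, by omega, ?_, ?_, ?_, ?_, ?_, ?_, ?_, ?_, ?_, ?_, ?_⟩
  · rw [← hn, ← hM]; exact h7
  · -- log_le
    rw [← hn]
    have c1 : 2 ^ Nat.log 2 w ≤ w := Nat.pow_log_le_self 2 hw0.ne'
    have c2 : M < 2 ^ (Nat.log 2 M + 1) := Nat.lt_pow_succ_log_self (by norm_num) M
    have c3 : M ^ 16 ≤ 2 ^ (16 * (Nat.log 2 M + 1)) := by
      calc M ^ 16 ≤ (2 ^ (Nat.log 2 M + 1)) ^ 16 := Nat.pow_le_pow_left c2.le 16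
        _ = 2 ^ (16 * (Nat.log 2 M + 1)) := by rw [← pow_mul, mul_comm]
    have c4 : (64:ℕ) ^ (n + 1) = 2 ^ (6 * (n + 1)) := by
      rw [pow_mul]; norm_num
    have c5 : 2 ^ Nat.log 2 w < 2 ^ (6 * (n + 1) + 16 * (Nat.log 2 M + 1)) := by
      calc 2 ^ Nat.log 2 w ≤ w := c1
        _ < 64 ^ (n + 1) * M ^ 16 := h7
        _ ≤ 2 ^ (6 * (n + 1)) * 2 ^ (16 * (Nat.log 2 M + 1)) := by
            rw [c4]; exact Nat.mul_le_mul_left _ c3
        _ = _ := by rw [← pow_add]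
    have c6 : Nat.log 2 w < 6 * (n + 1) + 16 * (Nat.log 2 M + 1) :=
      (Nat.pow_lt_pow_iff_right (by norm_num)).mp c5
    have c7 : 32 * (Nat.log 2 M + 1) ≤ M := by
      have d1 : 2 ^ Nat.log 2 M ≤ M := Nat.pow_log_le_self 2 hM0.ne'
      have d2 : 19 ≤ Nat.log 2 M := by
        apply Nat.le_log_of_pow_le (by norm_num)
        norm_num at hM6 ⊢; omega
      have d3 : ∀ m : ℕ, 19 ≤ m → 32 * (m + 1) ≤ 2 ^ m := by
        intro m hm
        induction m, hm using Nat.le_induction with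
        | base => norm_num
        | succ m hm ih => rw [pow_succ]; omega
      exact le_trans (d3 _ d2) d1
    omega
  · intro i hi
    rw [← hn] at hi
    have := hbig i hi
    linarith
  · intro i hi
    rw [← hn] at hi
    have a1 := hbig i hi
    have a2 := hccge i
    have a3 := hccle i hi
    refine ⟨?_, by linarith, a2⟩
    have : (16:ℝ) ≤ cc w i := by linarith
    exact_mod_cast this
  · intro i hi
    rw [← hn] at hi
    refine ⟨hdvd i hi, ?_⟩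
    have := hcc30 i hi
    have h0 : (0:ℝ) ≤ cc w (i + 1) := by positivity
    have h1 : 16 * (cc w (i + 1) : ℝ) ≤ cc w i := by linarith
    exact_mod_cast h1
  · intro i hi
    rw [← hn] at hi
    apply Nat.mul_dvd_mul_left
    induction i with
    | zero => exact dvd_rfl
    | succ i ih =>
      exact dvd_trans (dvd_trans (Dvd.intro_left 2 rfl) (hdvd i hi)) (ih (by omega))
  · intro i hi
    rw [← hn] at hi
    have a1 := hll2 i
    have a2 : (w : ℝ) / 64 ^ i ≥ 10 ^ 6 := by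
      rw [ge_iff_le, le_div_iff₀ (by positivity)]
      have e1 : (64:ℝ) ^ i * M ^ 16 ≤ w := by exact_mod_cast h10 i hi
      have e3 : (10:ℝ) ^ 6 ≤ (M : ℝ) ^ 16 := by
        calc (10:ℝ) ^ 6 ≤ M := hMr
          _ ≤ (M : ℝ) ^ 16 := by
              apply le_self_pow₀ _ (by norm_num)
              linarith [show (1:ℝ) ≤ 10 ^ 6 by norm_num]
      have e5 : (0:ℝ) < 64 ^ i := by positivity
      nlinarith
    have a3 : (6 * w : ℝ) / 64 ^ i - 1 ≤ wi w i := by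
      unfold wi
      have h0 : 0 < 64 ^ i := by positivity
      have c1 := Nat.div_add_mod (6 * w) (64 ^ i)
      have c2 := Nat.mod_lt (6 * w) h0
      have c3 : 6 * w < (6 * w / 64 ^ i + 1) * 64 ^ i := by
        have : 64 ^ i * (6 * w / 64 ^ i) = 6 * w / 64 ^ i * 64 ^ i := mul_comm _ _
        rw [add_mul, one_mul]; omega
      have c4 : (6 * w : ℝ) < ((6 * w / 64 ^ i : ℕ) + 1) * 64 ^ i := by exact_mod_cast c3
      rw [sub_le_iff_le_add, div_le_iff₀ (by positivity)]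
      exact c4.le
    have a4 : (101 / 100 * (5 * (w : ℝ)) / 64 ^ i) = 101 / 20 * ((w : ℝ) / 64 ^ i) := by ring
    have a5 : (6 * w : ℝ) / 64 ^ i = 6 * ((w : ℝ) / 64 ^ i) := by ring
    rw [a4] at a1
    rw [a5] at a3
    linarith
  · intro i hi
    rw [← hn] at hi
    rw [← hM]
    exact ⟨hwi1 i hi, hwi2 i hi, hwi3 i⟩
  · intro i hi
    rw [← hn] at hi
    have a0 : 0 < (i + u) ^ 9 := by
      have : 0 < i + u := by omega
      positivity
    have a1 := hwi1 i hi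
    have a2 : i + u ≤ M := by omega
    have a3 : (i + u) ^ 9 ≤ M ^ 9 := Nat.pow_le_pow_left a2 9
    have a4 : 64 ≤ di u w i := by
      unfold di
      rw [Nat.le_div_iff_mul_le a0]
      calc 64 * (i + u) ^ 9 ≤ M ^ 7 * M ^ 9 := by
            apply Nat.mul_le_mul _ a3
            calc 64 ≤ M := by omega
              _ = M ^ 1 := (pow_one M).symm
              _ ≤ M ^ 7 := Nat.pow_le_pow_right hM0 (by norm_num)
        _ = M ^ 16 := by rw [← pow_add]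
        _ ≤ wi w i := a1
    have a5 : (i + u) ^ 9 * di u w i ≤ wi w i := Nat.mul_div_le _ _
    have a6 : wi w i < (i + u) ^ 9 * di u w i + (i + u) ^ 9 := by
      have b1 := Nat.div_add_mod (wi w i) ((i + u) ^ 9)
      have b2 := Nat.mod_lt (wi w i) a0
      unfold di
      omega
    refine ⟨a4, ?_, ?_⟩
    · refine le_trans (Nat.mul_le_mul_right _ ?_) a5
      calc 10 ^ 9 ≤ (10 ^ 6) ^ 9 := by norm_num
        _ ≤ (i + u) ^ 9 := Nat.pow_le_pow_left (by omega) 9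
    · have a7 : (i + u) ^ 9 ≤ (i + u) ^ 9 * di u w i := Nat.le_mul_of_pos_right _ (by omega)
      have a8 : 2 * (i + u) ^ 9 * di u w i = (i + u) ^ 9 * di u w i + (i + u) ^ 9 * di u w i := by ring
      omega
  · intro i hi k hk
    rw [← hn] at hi
    obtain ⟨r, hr⟩ : ∃ r, i = k + gap u i + 1 + r := ⟨i - (k + gap u i + 1), by omega⟩
    have hr2 : i - gap u i - 1 - k = r := by omega
    rw [hr2]
    obtain ⟨g, hg⟩ : ∃ g, g = gap u i := ⟨_, rfl⟩
    rw [← hg] at hr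
    have g1 : (i + u) ^ 36 ≤ 64 ^ g := by
      have b1 : i + u < 2 ^ (Nat.log 2 (i + u) + 1) := Nat.lt_pow_succ_log_self (by norm_num) _
      calc (i + u) ^ 36 ≤ (2 ^ (Nat.log 2 (i + u) + 1)) ^ 36 := Nat.pow_le_pow_left b1.le 36
        _ = 64 ^ g := by
            rw [hg, gap, show (64:ℕ) = 2 ^ 6 by norm_num, ← pow_mul, ← pow_mul]
            congr 1; ring
    have g2 : 120 * (k + 1) * (i + u) ^ 34 ≤ (i + u) ^ 36 := by
      have : 120 * (k + 1) ≤ (i + u) ^ 2 := by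
        have c1 : k + 1 ≤ i + u := by omega
        have c2 : 120 ≤ i + u := by omega
        calc 120 * (k + 1) ≤ (i + u) * (i + u) := Nat.mul_le_mul c2 c1
          _ = (i + u) ^ 2 := by ring
      calc 120 * (k + 1) * (i + u) ^ 34 ≤ (i + u) ^ 2 * (i + u) ^ 34 := Nat.mul_le_mul_right _ this
        _ = (i + u) ^ 36 := by rw [← pow_add]
    have g3 : 120 * (k + 1) * (i + u) ^ 34 ≤ 64 ^ g := le_trans g2 g1
    have g3r : 120 * ((k : ℝ) + 1) * ((i + u : ℕ) : ℝ) ^ 34 ≤ 64 ^ g := by exact_mod_cast g3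
    have g4 : (wi w i : ℝ) ≤ 6 * w / 64 ^ i := by
      rw [le_div_iff₀ (by positivity)]
      have := hwi3 i
      rw [mul_comm] at this
      exact_mod_cast this
    have g5 := hbl k
    have g6 := hccge k
    have hk1 : (0:ℝ) < (k : ℝ) + 1 := by positivity
    have g7 : 5 * (w : ℝ) / (6400 * ((k : ℝ) + 1) * 64 ^ k) ≤ cc w k := by
      have e : 5 * (w : ℝ) / (6400 * ((k : ℝ) + 1) * 64 ^ k) =
          5 * (w : ℝ) / (100 * ((k : ℝ) + 1) * 64 ^ k) / 64 := by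
        field_simp; norm_num
      rw [e]
      linarith
    have g8 : (wi w i : ℝ) * ((i + u : ℕ) : ℝ) ^ 34 * 64 ^ r ≤ cc w k := by
      refine le_trans ?_ g7
      refine le_trans (mul_le_mul_of_nonneg_right (mul_le_mul_of_nonneg_right g4 (by positivity))
        (by positivity)) ?_
      have e1 : (64:ℝ) ^ i = 64 ^ k * 64 ^ g * 64 * 64 ^ r := by
        rw [hr, pow_add, pow_add, pow_add]; ring
      rw [le_div_iff₀ (by positivity), e1]
      have hkp : (0:ℝ) < 64 ^ k := by positivity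
      have hgp : (0:ℝ) < 64 ^ g := by positivity
      have hrp : (0:ℝ) < 64 ^ r := by positivity
      have e2 : 6 * (w : ℝ) / (64 ^ k * 64 ^ g * 64 * 64 ^ r) * ((i + u : ℕ) : ℝ) ^ 34 * 64 ^ r *
          (6400 * ((k : ℝ) + 1) * 64 ^ k) =
          5 * w * ((120 * ((k : ℝ) + 1) * ((i + u : ℕ) : ℝ) ^ 34) / 64 ^ g) := by
        field_simp
        ring
      rw [e2]
      have e3 : (120 * ((k : ℝ) + 1) * ((i + u : ℕ) : ℝ) ^ 34) / 64 ^ g ≤ 1 := by
        rw [div_le_one hgp]; exact g3r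
      nlinarith
    exact_mod_cast g8
  · intro z τ hτ0 hτ1 h
    have hre := (Complex.abs_re_le_norm _).trans h
    have him := (Complex.abs_im_le_norm _).trans h
    have e1 : (toC z - ((sg0 w).1 + (τ : ℂ) * (sg0 w).2)).re =
        (z.1 : ℝ) - (((w / 2 : ℕ) : ℝ) + τ * (5 * (w : ℝ))) := by
      simp [toC, sg0]
    have e2 : (toC z - ((sg0 w).1 + (τ : ℂ) * (sg0 w).2)).im =
        (z.2 : ℝ) - ((w / 2 : ℕ) : ℝ) := by
      simp [toC, sg0]
    rw [e1] at hre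
    rw [e2] at him
    have hw100 : 100 ≤ w := by
      have : 1 ≤ M ^ 16 := hMp
      calc 100 ≤ 64 ^ 5 * 1 := by norm_num
        _ ≤ 64 ^ 5 * M ^ 16 := Nat.mul_le_mul_left _ this
        _ ≤ w := hw
    have hw100r : (100:ℝ) ≤ w := by exact_mod_cast hw100
    have f1 : (w : ℝ) ≤ 2 * ((w / 2 : ℕ) : ℝ) + 1 := by
      exact_mod_cast (by omega : w ≤ 2 * (w / 2) + 1)
    have f2 : 2 * ((w / 2 : ℕ) : ℝ) ≤ w := by
      exact_mod_cast (by omega : 2 * (w / 2) ≤ w)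
    generalize ((w / 2 : ℕ) : ℝ) = W at *
    rw [abs_le] at hre him
    have t0 : 0 ≤ τ * (5 * (w : ℝ)) := by positivity
    have t1 : τ * (5 * (w : ℝ)) ≤ 5 * w := by nlinarith
    unfold Dw rect
    rw [Finset.mem_product, Finset.mem_Icc, Finset.mem_Icc]
    refine ⟨⟨?_, ?_⟩, ⟨?_, ?_⟩⟩
    · have : (1:ℝ) ≤ z.1 := by linarith [hre.1]
      exact_mod_cast this
    · have : (z.1 : ℝ) ≤ 7 * (w : ℝ) - 1 := by linarith [hre.2]
      exact_mod_cast this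
    · have : (1:ℝ) ≤ z.2 := by linarith [him.1]
      exact_mod_cast this
    · have : (z.2 : ℝ) ≤ (w : ℝ) - 1 := by linarith [him.2]
      exact_mod_cast this

theorem _root_.H941.parC_holds : ∃ u0 : ℕ, ∀ u ≥ u0, ∀ w : ℕ, 64 ^ 5 * (Nat.log 2 w + u) ^ 16 ≤ w → ParC u w := by
  exact ⟨10 ^ 6, fun u hu w hw => parC_aux u w hu hw⟩

end H941.parC_holds
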