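import Pool.Agent.H941.Defs4
import Pool.Agent.H941.C.GC_facts
import Pool.Agent.H941.C.arm_T2
import Pool.Agent.H941.C.avg_bot
import Pool.Agent.H941.C.avg_circ
import Pool.Agent.H941.C.countC
import Pool.Agent.H941.C.det_finalC
import Pool.Agent.H941.C.num_bottom
import Pool.Agent.H941.C.num_level
import Pool.Agent.H941.C.parC_holds
import Pool.Agent.H941.G1

open MeasureTheory ProbabilityTheory

namespace H941.hyp_step

lemma measurable_extf685 (S : Finset (ℤ × ℤ)) (v : ℤ × ℤ) :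
    Measurable (fun x : EuclideanSpace ℝ ↥S => extf S x v) := by
  unfold extf
  by_cases h : v ∈ S
  · simp only [dif_pos h]
    have h1 : Continuous (fun x : EuclideanSpace ℝ ↥S => x (⟨v, h⟩ : ↥S)) := by
      fun_prop
    exact h1.measurable
  · simp only [dif_neg h]
    exact measurable_const

lemma measurable_sumE685 {ι : Type*} [Fintype ι] (n : ℕ) :
    Measurable (fun ω : Fin n → EuclideanSpace ℝ ι => ∑ k, ω k) := by
  have h2 : Continuous (fun ω : Fin n → EuclideanSpace ℝ ι => (∑ k, ω k)) := by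
    fun_prop
  exact h2.measurable

open Classical in
lemma armOK_iff685 (o : Bool) (t : ℤ × ℤ) (w d : ℕ) (lam len : ℝ) (f : ℤ × ℤ → ℝ) :
    armOK o t w d lam len f ↔ ∃ A ∈ ((rect w (5 * w) d (w - d)).powerset.filter (fun A : Finset (ℤ × ℤ) =>
      ∃ (u v : ℤ × ℤ) (p : grid.Walk u v), u.1 = w ∧ v.1 = 5 * w ∧ (∀ z ∈ p.support, z ∈ A) ∧
        (p.support.length : ℝ) ≤ len)), ∀ z ∈ A, f (place o t z) ≤ lam := by
  constructor
  · rintro ⟨a, b, p, ha, hb, h1, h2⟩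
    refine ⟨p.support.toFinset, ?_, ?_⟩
    · rw [Finset.mem_filter, Finset.mem_powerset]
      refine ⟨?_, a, b, p, ha, hb, ?_, h2⟩
      · intro z hz
        rw [List.mem_toFinset] at hz
        exact (h1 z hz).1
      · intro z hz
        rw [List.mem_toFinset]
        exact hz
    · intro z hz
      rw [List.mem_toFinset] at hz
      exact (h1 z hz).2
  · rintro ⟨A, hA, h3⟩
    rw [Finset.mem_filter, Finset.mem_powerset] at hA
    obtain ⟨hA1, a, b, p, ha, hb, h1, h2⟩ := hA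
    exact ⟨a, b, p, ha, hb, fun z hz => ⟨hA1 (h1 z hz), h3 z (h1 z hz)⟩, h2⟩

lemma meas_armOK685 {Ω : Type*} [MeasurableSpace Ω] (F : Ω → ℤ × ℤ → ℝ) (hF : ∀ v, Measurable (fun ω => F ω v))
    (o : Bool) (t : ℤ × ℤ) (w d : ℕ) (lam len : ℝ) :
    MeasurableSet {ω | armOK o t w d lam len (F ω)} := by
  classical
  have h1 : {ω | armOK o t w d lam len (F ω)} = ⋃ A ∈ ((rect w (5 * w) d (w - d)).powerset.filter (fun A : Finset (ℤ × ℤ) =>
      ∃ (u v : ℤ × ℤ) (p : grid.Walk u v), u.1 = w ∧ v.1 = 5 * w ∧ (∀ z ∈ p.support, z ∈ A) ∧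
        (p.support.length : ℝ) ≤ len)), ⋂ z ∈ A, {ω | F ω (place o t z) ≤ lam} := by
    ext ω
    rw [Set.mem_ofPred_eq, armOK_iff685]
    simp only [Set.mem_iUnion, Set.mem_iInter, Set.mem_ofPred_eq, exists_prop]
  rw [h1]
  refine Finset.measurableSet_biUnion _ fun A _ => ?_
  refine Finset.measurableSet_biInter _ fun z _ => ?_
  exact measurableSet_le (hF _) measurable_const

lemma meas_GdC685 {Ω : Type*} [MeasurableSpace Ω] (F : Ω → ℤ × ℤ → ℝ) (hF : ∀ v, Measurable (fun ω => F ω v))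
    (u w i : ℕ) (seg : ℂ × ℂ) : MeasurableSet {ω | GdC u w (F ω) i seg} := by
  unfold GdC
  by_cases h : i < nb u w
  · simp only [if_pos h]
    unfold circuitOK
    exact (meas_armOK685 F hF _ _ _ _ _ _).inter ((meas_armOK685 F hF _ _ _ _ _ _).inter
      ((meas_armOK685 F hF _ _ _ _ _ _).inter (meas_armOK685 F hF _ _ _ _ _ _)))
  · simp only [if_neg h]
    have h1 : {ω | ∀ v ∈ finalVerts ⌈ll w (nb u w)⌉₊ seg, F ω v ≤ u} =
        ⋂ v ∈ (finalVerts ⌈ll w (nb u w)⌉₊ seg).toFinset, {ω | F ω v ≤ u} := by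
      ext ω
      simp
    rw [h1]
    exact Finset.measurableSet_biInter _ fun z _ => measurableSet_le (hF _) measurable_const

lemma meas_oracle685 {ι : Type} [Fintype ι] {n : ℕ} (W : ℕ → ℂ × ℂ → ι → ℝ) (i : ℕ) (s : ℂ × ℂ) :
    MeasurableSet {ω : Fin (n + 1) → EuclideanSpace ℝ ι | oracle W ω i s = true} := by
  unfold oracle
  by_cases h : i < n
  · simp only [dif_pos h, decide_eq_true_eq]
    have h1 : Continuous (fun ω : Fin (n + 1) → EuclideanSpace ℝ ι => ∑ y, W i s y * ω ⟨i, Nat.lt_succ_of_lt h⟩ y) := by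
      fun_prop
    exact measurableSet_le h1.measurable measurable_const
  · simp only [dif_neg h]
    simp

lemma meas_count685 {Ω : Type*} [MeasurableSpace Ω] (δ : ℕ → ℝ) (σ : Ω → ℕ → ℂ × ℂ → Bool)
    (hσ : ∀ i s, MeasurableSet {ω | σ ω i s = true}) (G : Ω → ℂ × ℂ → Prop) (hG : ∀ s, MeasurableSet {ω | G ω s}) :
    ∀ (m j : ℕ) (s : ℂ × ℂ), Measurable (fun ω => ((segs δ (σ ω) m j s).countP (fun s' =>
        @decide (G ω s') (Classical.dec _)))) := by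
  classical
  intro m
  induction m with
  | zero =>
    intro j s
    have h1 : (fun ω => ((segs δ (σ ω) 0 j s).countP (fun s' =>
        @decide (G ω s') (Classical.dec _)))) = fun ω => if ω ∈ {ω | G ω s} then 1 else 0 := by
      ext ω
      simp only [segs, List.countP_cons, List.countP_nil, Set.mem_ofPred_eq, zero_add]
      by_cases h : G ω s
      · simp [h]
      · simp [h]
    rw [h1]
    exact Measurable.ite (hG s) measurable_const measurable_const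
  | succ m ih =>
    intro j s
    have h1 : (fun ω => ((segs δ (σ ω) (m + 1) j s).countP (fun s' =>
        @decide (G ω s') (Classical.dec _)))) = fun ω => ∑ k ∈ Finset.range 64, if ω ∈ {ω | σ ω j s = true} then
          ((segs δ (σ ω) m (j + 1) (child (δ j) true k s)).countP (fun s' => @decide (G ω s') (Classical.dec _)))
          else ((segs δ (σ ω) m (j + 1) (child (δ j) false k s)).countP (fun s' => @decide (G ω s') (Classical.dec _))) := by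
      ext ω
      simp only [segs, List.countP_flatMap]
      rw [← List.sum_toFinset _ List.nodup_range, List.toFinset_range]
      refine Finset.sum_congr rfl fun k _ => ?_
      by_cases h : σ ω j s = true
      · simp [h]
      · simp only [Bool.not_eq_true] at h
        simp [h]
    rw [h1]
    refine Finset.measurable_sum _ fun k _ => ?_
    exact Measurable.ite (hσ j s) (ih _ _) (ih _ _)

/-- sum over the codes of the probabilities of a bad segment -/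
noncomputable def TT685 (u w : ℕ) (i : ℕ) (a : ℤ × ℤ) : ENNReal :=
  ∑ c : Fin i → Fin 64 × Bool, PC u w a {ω | (∀ k : Fin (nb u w + 1), (k : ℕ) < i - gap u i → ω k ∈ sC w (extd c k).2 k (ps w (extd c) k)) ∧
        ¬ GdC u w (extf (Dw w) (∑ k, ω k)) i (ps w (extd c) i)}

lemma prod_nonneg685 (c θ : ℝ) (m : ℕ) :
    0 ≤ ∏ k ∈ Finset.range m, (1 - (1 / 120) * (1 - Real.exp (-(c * (θ * Real.sqrt (bb k)))))) := by
  refine Finset.prod_nonneg fun k _ => ?_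
  have := Real.exp_pos (-(c * (θ * Real.sqrt (bb k))))
  linarith

lemma level_bound685 : ∃ (C3 : ℝ) (u0 : ℕ), 0 < C3 ∧ ∀ u ≥ u0, ∀ w : ℕ, ParC u w →
    (∀ w' : ℕ, 128 ≤ w' → w' < w → HypA u 12 (1 / 64) w') → ∀ i, 2 ≤ i → i < nb u w →
    ∑ a1 ∈ Finset.range (2 * cc w 0), ∑ a2 ∈ Finset.range (2 * cc w 0), TT685 u w i ((a1 : ℤ), (a2 : ℤ)) ≤
     ENNReal.ofReal ((2 * (cc w 0 : ℝ)) ^ 2 * (64 ^ i * (C3 / (((i : ℝ) + u) ^ 2 * ((i : ℝ) + u) ^ 9)))) := by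
  obtain ⟨C, c1, hC, hc1, hc1', havg⟩ := avg_circ
  obtain ⟨A, c, hA, hc, harm⟩ := arm_T2
  obtain ⟨C3, u0, hC3, hnum⟩ := num_level c1 C A c hc1 hc1' hC hA hc
  refine ⟨C3, u0, hC3, fun u hu w hpar hyp i hi2 hi => ?_⟩
  obtain ⟨θ, g, hθ0, hθ1, hg, hnum⟩ := hnum u hu i
  have hu6 := hpar.u_ge
  have hu1 : (1 : ℝ) ≤ u := by
    have : 1 ≤ u := by omega
    exact_mod_cast this
  have hX : (1 : ℝ) ≤ (i : ℝ) + u := by
    have : (0 : ℝ) ≤ i := by positivity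
    linarith
  set X : ℝ := (i : ℝ) + u with hXdef
  have hX0 : 0 < X := by linarith
  obtain ⟨hw1, hw2, hw3⟩ := hpar.wi_ge i hi.le
  obtain ⟨hd1, hd2, hd3⟩ := hpar.di_ge i hi.le
  have hwpos : 0 < wi w i := by omega
  have hwR : (0 : ℝ) < wi w i := by exact_mod_cast hwpos
  have hWw : wi w i ≤ w := by
    have h1 : 64 ^ 2 ≤ 64 ^ i := Nat.pow_le_pow_right (by norm_num) hi2
    have h2 : 64 ^ 2 * wi w i ≤ 64 ^ i * wi w i := Nat.mul_le_mul_right _ h1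
    omega
  have hloc := harm u 12 (1 / 64) g (X ^ 9) (wi w i) (di u w i) hu1 (by norm_num) (by norm_num) le_rfl hg
    (one_le_pow₀ hX) (by omega) hd2 (fun w' h1 h2 => hyp w' h1 (by omega))
  have hdW : (di u w i : ℝ) / wi w i ≤ 1 / X ^ 9 := by
    rw [div_le_div_iff₀ hwR (by positivity)]
    have h1 : di u w i * (i + u) ^ 9 ≤ wi w i := Nat.div_mul_le_self _ _
    have h2 : ((di u w i * (i + u) ^ 9 : ℕ) : ℝ) ≤ wi w i := by exact_mod_cast h1
    push_cast at h2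
    rw [hXdef]
    linarith
  set p2 : ℝ := 2 * Real.exp (-(c * g ^ 2)) + (A * 12 * u ^ 4 / X ^ 9) ^ 4 + A * (1 / X ^ 9) ^ 2 with hp2
  have hp20 : 0 ≤ p2 := by positivity
  have hloc2 : gf (Dw (wi w i)) (Dw (wi w i)) {x | ¬ armOK true (0, 0) (wi w i) (di u w i) g (X ^ 9 * wi w i) (extf (Dw (wi w i)) x)} ≤
      ENNReal.ofReal p2 := by
    refine hloc.trans (ENNReal.ofReal_le_ofReal ?_)
    rw [hp2]
    have : ((di u w i : ℝ) / wi w i) ^ 2 ≤ (1 / X ^ 9) ^ 2 := by gcongr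
    have h3 : A * ((di u w i : ℝ) / wi w i) ^ 2 ≤ A * (1 / X ^ 9) ^ 2 := mul_le_mul_of_nonneg_left this (by linarith)
    linarith
  have h4 := havg u w hpar i hi2 hi.le θ g (X ^ 9 * wi w i) p2 hθ0 hθ1 hp20 hloc2
  have h5 : ∀ a, TT685 u w i a = ∑ c : Fin i → Fin 64 × Bool,
        PC u w a {ω | (∀ k : Fin (nb u w + 1), (k : ℕ) < i - gap u i → ω k ∈ sC w (extd c k).2 k (ps w (extd c) k)) ∧
          ¬ circuitOK (mid (ps w (extd c) i)) (wi w i) (di u w i) u (X ^ 9 * wi w i) (extf (Dw w) (∑ k, ω k))} := by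
    intro a
    unfold TT685 GdC
    simp only [if_pos hi]
    rfl
  simp only [h5]
  refine h4.trans (ENNReal.ofReal_le_ofReal ?_)
  set Z : ℝ := p2 + Real.exp (-(θ * (u - 5 / 4 * g)) + θ ^ 2 * (3 * i + 10) / 2) *
          (∏ k ∈ Finset.range (i - gap u i), (1 - (1 / 120) * (1 - Real.exp (-(c1 * (θ * Real.sqrt (bb k))))))) +
          C * X ^ C * Real.exp (-(g / 4)) + C / X ^ 17 with hZ
  have hprod := prod_nonneg685 c1 θ (i - gap u i)
  have hZ0 : 0 ≤ Z := by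
    have h6 : 0 ≤ X ^ C := Real.rpow_nonneg hX0.le _
    positivity
  have h7 : 4 * 2 ^ (gap u i) * Z ≤ C3 / (X ^ 2 * X ^ 9) := by
    rw [le_div_iff₀ (by positivity)]
    rw [le_div_iff₀ (by positivity)] at hnum
    calc 4 * 2 ^ (gap u i) * Z * (X ^ 2 * X ^ 9) = X ^ 9 * (4 * 2 ^ (gap u i)) * Z * X ^ 2 := by ring
      _ ≤ C3 := hnum
  have h8 : (2 : ℝ) ^ (min i (gap u i)) ≤ 2 ^ (gap u i) := pow_le_pow_right₀ (by norm_num) (min_le_right _ _)
  calc (2 * (cc w 0 : ℝ)) ^ 2 * (4 * 64 ^ i * 2 ^ (min i (gap u i))) * Z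
      ≤ (2 * (cc w 0 : ℝ)) ^ 2 * (4 * 64 ^ i * 2 ^ (gap u i)) * Z := by gcongr
    _ = (2 * (cc w 0 : ℝ)) ^ 2 * (64 ^ i * (4 * 2 ^ (gap u i) * Z)) := by ring
    _ ≤ (2 * (cc w 0 : ℝ)) ^ 2 * (64 ^ i * (C3 / (X ^ 2 * X ^ 9))) := by gcongr

lemma bottom_bound685 : ∃ (C3 : ℝ) (u0 : ℕ), 0 < C3 ∧ ∀ u ≥ u0, ∀ w : ℕ, ParC u w →
    ∑ a1 ∈ Finset.range (2 * cc w 0), ∑ a2 ∈ Finset.range (2 * cc w 0), TT685 u w (nb u w) ((a1 : ℤ), (a2 : ℤ)) ≤
     ENNReal.ofReal ((2 * (cc w 0 : ℝ)) ^ 2 * (64 ^ (nb u w) * (C3 / (((nb u w : ℝ) + u) ^ 2 * ((nb u w : ℝ) + u) ^ 9)))) := by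
  obtain ⟨c1, hc1, hc1', havg⟩ := avg_bot
  obtain ⟨C3, u0, hC3, hnum⟩ := num_bottom c1 hc1 hc1'
  refine ⟨C3, u0, hC3, fun u hu w hpar => ?_⟩
  have hu6 := hpar.u_ge
  have hu1 : (1 : ℝ) ≤ u := by
    have : 1 ≤ u := by omega
    exact_mod_cast this
  have hlog := hpar.log_le
  obtain ⟨θ, hθ0, hθ1, hnum⟩ := hnum u hu (nb u w) (Nat.log 2 w + u) (by omega)
  have h4 := havg u w hpar θ hθ0 hθ1
  have h5 : ∀ a, TT685 u w (nb u w) a = ∑ c : Fin (nb u w) → Fin 64 × Bool,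
        PC u w a {ω | (∀ k : Fin (nb u w + 1), (k : ℕ) < nb u w - gap u (nb u w) → ω k ∈ sC w (extd c k).2 k (ps w (extd c) k)) ∧
          ¬ ∀ v ∈ finalVerts ⌈ll w (nb u w)⌉₊ (ps w (extd c) (nb u w)), extf (Dw w) (∑ k, ω k) v ≤ u} := by
    intro a
    unfold TT685 GdC
    simp only [if_neg (lt_irrefl (nb u w))]
  simp only [h5]
  refine h4.trans (ENNReal.ofReal_le_ofReal ?_)
  set n := nb u w with hn
  have hX : (1 : ℝ) ≤ (n : ℝ) + u := by
    have : (0 : ℝ) ≤ n := by positivity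
    linarith
  set X : ℝ := (n : ℝ) + u with hXdef
  have hX0 : 0 < X := by linarith
  set Z : ℝ := Real.exp (-(θ * u) + θ ^ 2 * (6 * n + u + 10) / 2) *
          (∏ k ∈ Finset.range (n - gap u n), (1 - (1 / 120) * (1 - Real.exp (-(c1 * (θ * Real.sqrt (bb k))))))) with hZ
  have hprod := prod_nonneg685 c1 θ (n - gap u n)
  have hZ0 : 0 ≤ Z := by positivity
  obtain ⟨hw1, hw2, hw3⟩ := hpar.wi_ge n le_rfl
  have hll := hpar.ll_le n le_rfl
  have hwlt : w < 64 ^ (n + 1) * (Nat.log 2 w + u) ^ 16 := hpar.w_lt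
  have hceil : ⌈ll w n⌉₊ ≤ wi w n := Nat.ceil_le.mpr hll
  have hwi : wi w n < 384 * (Nat.log 2 w + u) ^ 16 := by
    have h1 : 64 ^ n * wi w n < 64 ^ n * (384 * (Nat.log 2 w + u) ^ 16) := by
      calc 64 ^ n * wi w n ≤ 6 * w := hw3
        _ < 6 * (64 ^ (n + 1) * (Nat.log 2 w + u) ^ 16) := by omega
        _ = 64 ^ n * (384 * (Nat.log 2 w + u) ^ 16) := by ring
    exact lt_of_mul_lt_mul_left h1 (by positivity)
  have hq : 2 * (⌈ll w n⌉₊ : ℝ) ≤ 800 * ((Nat.log 2 w + u : ℕ) : ℝ) ^ 16 := by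
    have h1 : 2 * ⌈ll w n⌉₊ ≤ 800 * (Nat.log 2 w + u) ^ 16 := by
      have : 0 ≤ (Nat.log 2 w + u) ^ 16 := Nat.zero_le _
      omega
    exact_mod_cast h1
  have h7 : 2 ^ (gap u n) * (800 * ((Nat.log 2 w + u : ℕ) : ℝ) ^ 16) * Z ≤ C3 / (X ^ 2 * X ^ 9) := by
    rw [le_div_iff₀ (by positivity)]
    rw [le_div_iff₀ (by positivity)] at hnum
    calc 2 ^ (gap u n) * (800 * ((Nat.log 2 w + u : ℕ) : ℝ) ^ 16) * Z * (X ^ 2 * X ^ 9) =
          X ^ 9 * (2 ^ (gap u n) * (800 * ((Nat.log 2 w + u : ℕ) : ℝ) ^ 16)) * Z * X ^ 2 := by ring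
      _ ≤ C3 := hnum
  have h8 : (2 : ℝ) ^ (min n (gap u n)) ≤ 2 ^ (gap u n) := pow_le_pow_right₀ (by norm_num) (min_le_right _ _)
  calc (2 * (cc w 0 : ℝ)) ^ 2 * (2 * ⌈ll w n⌉₊ * 64 ^ n * 2 ^ (min n (gap u n))) * Z
      ≤ (2 * (cc w 0 : ℝ)) ^ 2 * ((800 * ((Nat.log 2 w + u : ℕ) : ℝ) ^ 16) * 64 ^ n * 2 ^ (gap u n)) * Z := by gcongr
    _ = (2 * (cc w 0 : ℝ)) ^ 2 * (64 ^ n * (2 ^ (gap u n) * (800 * ((Nat.log 2 w + u : ℕ) : ℝ) ^ 16) * Z)) := by ring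
    _ ≤ (2 * (cc w 0 : ℝ)) ^ 2 * (64 ^ n * (C3 / (X ^ 2 * X ^ 9))) := by gcongr

lemma sum_inv_sq685 (v : ℝ) (hv : 0 < v) (m : ℕ) :
    ∑ k ∈ Finset.range m, 1 / ((k : ℝ) + 1 + v) ^ 2 ≤ 1 / v := by
  have h : ∀ m : ℕ, ∑ k ∈ Finset.range m, 1 / ((k : ℝ) + 1 + v) ^ 2 ≤ 1 / v - 1 / ((m : ℝ) + v) := by
    intro m
    induction m with
    | zero => simp
    | succ m ih =>
      rw [Finset.sum_range_succ]
      have h1 : 0 < (m : ℝ) + v := by positivity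
      have h2 : 1 / ((m : ℝ) + 1 + v) ^ 2 ≤ 1 / ((m : ℝ) + v) - 1 / ((m : ℝ) + 1 + v) := by
        have h3 : 1 / ((m : ℝ) + v) - 1 / ((m : ℝ) + 1 + v) = 1 / (((m : ℝ) + v) * ((m : ℝ) + 1 + v)) := by
          field_simp
          ring
        rw [h3]
        apply one_div_le_one_div_of_le (by positivity)
        nlinarith
      push_cast
      linarith
  have h1 := h m
  have h2 : 0 ≤ 1 / ((m : ℝ) + v) := by positivity
  linarith

lemma term_num685 (C4 X Y W w p L : ℝ) (hX : 0 < X) (hXY : X ≤ Y) (hC : 0 ≤ C4) (hW : 0 ≤ W) (hw : 0 < w)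
    (hp : 0 ≤ p) (hpW : p * W ≤ 6 * w) :
    (4 * (X ^ 9 * W) / w) * (L ^ 2 * (64 * p * (C4 / (Y ^ 2 * Y ^ 9)))) ≤ L ^ 2 * (1536 * C4 * (1 / Y ^ 2)) := by
  have hY : 0 < Y := by linarith
  have h1 : X ^ 9 ≤ Y ^ 9 := by gcongr
  calc (4 * (X ^ 9 * W) / w) * (L ^ 2 * (64 * p * (C4 / (Y ^ 2 * Y ^ 9))))
      ≤ (4 * (Y ^ 9 * W) / w) * (L ^ 2 * (64 * p * (C4 / (Y ^ 2 * Y ^ 9)))) := by gcongr
    _ = (L ^ 2 * (256 * C4 / (Y ^ 2 * w))) * (p * W) := by field_simp; ring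
    _ ≤ (L ^ 2 * (256 * C4 / (Y ^ 2 * w))) * (6 * w) := by gcongr
    _ = L ^ 2 * (1536 * C4 * (1 / Y ^ 2)) := by field_simp; ring

/-- the weight of the level `2 + k` -/
noncomputable def wt685 (u w k : ℕ) : ℝ := 4 * ((((2 + k : ℕ) : ℝ) + u) ^ 9 * wi w (2 + k)) / w

lemma wt_nonneg685 (u w k : ℕ) : 0 ≤ wt685 u w k := by
  unfold wt685
  positivity

lemma sum_bound685 : ∃ u0 : ℕ, ∀ u ≥ u0, ∀ w : ℕ, ParC u w →
    (∀ w' : ℕ, 128 ≤ w' → w' < w → HypA u 12 (1 / 64) w') →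
    ∑ a1 ∈ Finset.range (2 * cc w 0), ∑ a2 ∈ Finset.range (2 * cc w 0), (TT685 u w 2 ((a1 : ℤ), (a2 : ℤ)) +
      ∑ k ∈ Finset.range (nb u w - 2), ENNReal.ofReal (wt685 u w k) * TT685 u w (2 + k + 1) ((a1 : ℤ), (a2 : ℤ))) ≤
     ENNReal.ofReal ((2 * (cc w 0 : ℝ)) ^ 2 * (1 / 64)) := by
  obtain ⟨C1, u1, hC1, h1⟩ := level_bound685
  obtain ⟨C2, u2, hC2, h2⟩ := bottom_bound685
  set C4 : ℝ := max C1 C2 with hC4
  have hC4p : 0 < C4 := lt_of_lt_of_le hC1 (le_max_left _ _)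
  refine ⟨u1 + u2 + ⌈64 * 5632 * C4⌉₊ + 1, fun u hu w hpar hyp => ?_⟩
  have hlev : ∀ i, 2 ≤ i → i ≤ nb u w →
      ∑ a1 ∈ Finset.range (2 * cc w 0), ∑ a2 ∈ Finset.range (2 * cc w 0), TT685 u w i ((a1 : ℤ), (a2 : ℤ)) ≤
     ENNReal.ofReal ((2 * (cc w 0 : ℝ)) ^ 2 * (64 ^ i * (C4 / (((i : ℝ) + u) ^ 2 * ((i : ℝ) + u) ^ 9)))) := by
    intro i hi2 hin
    rcases lt_or_eq_of_le hin with hlt | heq
    · refine (h1 u (by omega) w hpar hyp i hi2 hlt).trans (ENNReal.ofReal_le_ofReal ?_)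
      have : C1 ≤ C4 := le_max_left _ _
      gcongr
    · rw [heq]
      refine (h2 u (by omega) w hpar).trans (ENNReal.ofReal_le_ofReal ?_)
      have : C2 ≤ C4 := le_max_right _ _
      gcongr
  have hn4 := hpar.n_ge
  have hwpos : 0 < w := by
    obtain ⟨e1, e2, e3⟩ := hpar.wi_ge 0 (Nat.zero_le _)
    have hu6 := hpar.u_ge
    have : 1 ≤ (Nat.log 2 w + u) ^ 16 := Nat.one_le_pow _ _ (by omega)
    simp at e3
    omega
  have hwR : (0 : ℝ) < w := by exact_mod_cast hwpos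
  have huR : 64 * 5632 * C4 ≤ (u : ℝ) := by
    have h3 : ⌈64 * 5632 * C4⌉₊ ≤ u := by omega
    exact (Nat.le_ceil _).trans (by exact_mod_cast h3)
  have hu1 : (1 : ℝ) ≤ u := by
    have : 1 ≤ u := by omega
    exact_mod_cast this
  set L : ℝ := 2 * (cc w 0 : ℝ) with hL
  have e0 : ∑ a1 ∈ Finset.range (2 * cc w 0), ∑ a2 ∈ Finset.range (2 * cc w 0), (TT685 u w 2 ((a1 : ℤ), (a2 : ℤ)) +
      ∑ k ∈ Finset.range (nb u w - 2), ENNReal.ofReal (wt685 u w k) * TT685 u w (2 + k + 1) ((a1 : ℤ), (a2 : ℤ))) =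
      (∑ a1 ∈ Finset.range (2 * cc w 0), ∑ a2 ∈ Finset.range (2 * cc w 0), TT685 u w 2 ((a1 : ℤ), (a2 : ℤ))) +
      ∑ k ∈ Finset.range (nb u w - 2), ENNReal.ofReal (wt685 u w k) * 
        ∑ a1 ∈ Finset.range (2 * cc w 0), ∑ a2 ∈ Finset.range (2 * cc w 0), TT685 u w (2 + k + 1) ((a1 : ℤ), (a2 : ℤ)) := by
    simp only [Finset.sum_add_distrib]
    congr 1
    rw [Finset.sum_congr rfl (fun a1 _ => Finset.sum_comm), Finset.sum_comm]
    refine Finset.sum_congr rfl fun k _ => ?_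
    rw [Finset.mul_sum]
    refine Finset.sum_congr rfl fun a1 _ => ?_
    rw [Finset.mul_sum]
  rw [e0]
  have e1 : ∀ k ∈ Finset.range (nb u w - 2), ENNReal.ofReal (wt685 u w k) * 
        ∑ a1 ∈ Finset.range (2 * cc w 0), ∑ a2 ∈ Finset.range (2 * cc w 0), TT685 u w (2 + k + 1) ((a1 : ℤ), (a2 : ℤ)) ≤
        ENNReal.ofReal (L ^ 2 * (1536 * C4 * (1 / ((k : ℝ) + 1 + (2 + u)) ^ 2))) := by
    intro k hk
    rw [Finset.mem_range] at hk
    refine (mul_le_mul' le_rfl (hlev (2 + k + 1) (by omega) (by omega))).trans ?_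
    rw [← ENNReal.ofReal_mul (wt_nonneg685 u w k)]
    apply ENNReal.ofReal_le_ofReal
    obtain ⟨f1, f2, f3⟩ := hpar.wi_ge (2 + k) (by omega)
    have f4 : (64 : ℝ) ^ (2 + k) * (wi w (2 + k) : ℝ) ≤ 6 * w := by exact_mod_cast f3
    have f5 := term_num685 C4 (((2 + k : ℕ) : ℝ) + u) (((2 + k + 1 : ℕ) : ℝ) + u) (wi w (2 + k)) w (64 ^ (2 + k)) L
      (by positivity) (by push_cast; linarith) hC4p.le (by positivity) hwR (by positivity) f4
    have f6 : (64 : ℝ) ^ (2 + k + 1) = 64 * 64 ^ (2 + k) := by ring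
    have f7 : (k : ℝ) + 1 + (2 + u) = ((2 + k + 1 : ℕ) : ℝ) + u := by push_cast; ring
    unfold wt685
    rw [f6, f7]
    exact f5
  have e2 : ∑ a1 ∈ Finset.range (2 * cc w 0), ∑ a2 ∈ Finset.range (2 * cc w 0), TT685 u w 2 ((a1 : ℤ), (a2 : ℤ)) ≤
      ENNReal.ofReal (L ^ 2 * (4096 * C4 * (1 / u))) := by
    refine (hlev 2 le_rfl (by omega)).trans (ENNReal.ofReal_le_ofReal ?_)
    have g1 : (u : ℝ) ≤ (((2 : ℕ) : ℝ) + u) ^ 2 * (((2 : ℕ) : ℝ) + u) ^ 9 := by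
      have g2 : (1 : ℝ) ≤ ((2 : ℕ) : ℝ) + u := by push_cast; linarith
      calc (u : ℝ) ≤ ((2 : ℕ) : ℝ) + u := by push_cast; linarith
        _ ≤ (((2 : ℕ) : ℝ) + u) ^ 11 := le_self_pow₀ g2 (by norm_num)
        _ = _ := by ring
    have g3 : C4 / ((((2 : ℕ) : ℝ) + u) ^ 2 * (((2 : ℕ) : ℝ) + u) ^ 9) ≤ C4 * (1 / u) := by
      rw [mul_one_div]
      exact div_le_div_of_nonneg_left hC4p.le (by linarith) g1
    calc L ^ 2 * (64 ^ 2 * (C4 / ((((2 : ℕ) : ℝ) + u) ^ 2 * (((2 : ℕ) : ℝ) + u) ^ 9))) 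
        ≤ L ^ 2 * (64 ^ 2 * (C4 * (1 / u))) := by gcongr
      _ = L ^ 2 * (4096 * C4 * (1 / u)) := by ring
  refine (add_le_add e2 (Finset.sum_le_sum e1)).trans ?_
  rw [← ENNReal.ofReal_sum_of_nonneg (fun k _ => by positivity), ← ENNReal.ofReal_add (by positivity)
    (Finset.sum_nonneg fun k _ => by positivity)]
  apply ENNReal.ofReal_le_ofReal
  have e3 := sum_inv_sq685 (2 + u) (by linarith) (nb u w - 2)
  have e4 : (1 : ℝ) / (2 + u) ≤ 1 / u := one_div_le_one_div_of_le (by linarith) (by linarith)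
  rw [← Finset.mul_sum, ← Finset.mul_sum]
  have e5 : 1536 * C4 * ∑ k ∈ Finset.range (nb u w - 2), 1 / ((k : ℝ) + 1 + (2 + u)) ^ 2 ≤ 1536 * C4 * (1 / u) :=
    mul_le_mul_of_nonneg_left (e3.trans e4) (by positivity)
  calc L ^ 2 * (4096 * C4 * (1 / u)) + L ^ 2 * (1536 * C4 * ∑ k ∈ Finset.range (nb u w - 2), 1 / ((k : ℝ) + 1 + (2 + u)) ^ 2)
      ≤ L ^ 2 * (4096 * C4 * (1 / u)) + L ^ 2 * (1536 * C4 * (1 / u)) := by gcongr
    _ = L ^ 2 * (5632 * C4 * (1 / u)) := by ring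
    _ ≤ L ^ 2 * (1 / 64) := by
      apply mul_le_mul_of_nonneg_left _ (by positivity)
      rw [mul_one_div, div_le_div_iff₀ (by linarith) (by norm_num)]
      linarith

/-- number of bad segments at level `i` -/
noncomputable def NN685 (u w i : ℕ) (ω : Fin (nb u w + 1) → EuclideanSpace ℝ ↥(Dw w)) : ℕ :=
  ((segs bb (oracle (WC w) ω) i 0 (sg0 w)).countP (fun s' =>
        @decide (¬ GdC u w (extf (Dw w) (∑ k, ω k)) i s') (Classical.dec _)))

lemma meas_NN685 (u w i : ℕ) : Measurable (fun ω => ((NN685 u w i ω : ℕ) : ENNReal)) := by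
  have h1 : Measurable (fun ω => NN685 u w i ω) := by
    unfold NN685
    refine meas_count685 bb (fun ω => oracle (WC w) ω) (fun i s => meas_oracle685 (WC w) i s)
      (fun (ω : Fin (nb u w + 1) → EuclideanSpace ℝ ↥(Dw w)) s' => ¬ GdC u w (extf (Dw w) (∑ k, ω k)) i s') (fun s => ?_) i 0 (sg0 w)
    exact (meas_GdC685 (fun ω : Fin (nb u w + 1) → EuclideanSpace ℝ ↥(Dw w) => extf (Dw w) (∑ k, ω k))
      (fun v => (measurable_extf685 (Dw w) v).comp (measurable_sumE685 _)) u w i s).compl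
  exact measurable_from_top.comp h1

lemma shift685 (m : ℕ) (hm : 0 < m) (f : ℕ → ℕ → ENNReal) (e : ℝ)
    (h : ∑ a1 ∈ Finset.range m, ∑ a2 ∈ Finset.range m, f a1 a2 ≤ ENNReal.ofReal ((m : ℝ) ^ 2 * e)) :
    ∃ a1 a2 : ℕ, f a1 a2 ≤ ENNReal.ofReal e := by
  by_contra hcon
  push Not at hcon
  have h1 : ∑ p ∈ Finset.range m ×ˢ Finset.range m, ENNReal.ofReal e < ∑ p ∈ Finset.range m ×ˢ Finset.range m, f p.1 p.2 := by
    apply ENNReal.sum_lt_sum_of_nonempty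
    · exact ⟨(0, 0), by simp [hm]⟩
    · intro p _
      exact hcon p.1 p.2
  rw [Finset.sum_product (f := fun p : ℕ × ℕ => f p.1 p.2), Finset.sum_const, Finset.card_product, Finset.card_range, nsmul_eq_mul] at h1
  have h2 : ENNReal.ofReal ((m : ℝ) ^ 2 * e) = ((m * m : ℕ) : ENNReal) * ENNReal.ofReal e := by
    rw [ENNReal.ofReal_mul (by positivity)]
    congr 1
    rw [← ENNReal.ofReal_natCast]
    congr 1
    push_cast
    ring
  rw [← h2] at h1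
  exact absurd (lt_of_lt_of_le h1 h) (lt_irrefl _)

theorem _root_.H941.hyp_step : ∃ u0 : ℕ, ∀ u ≥ u0, ∀ w : ℕ, 64 ^ 5 * (Nat.log 2 w + u) ^ 16 ≤ w →
    (∀ w' : ℕ, 128 ≤ w' → w' < w → HypA u 12 (1 / 64) w') → HypA u 12 (1 / 64) w := by
  obtain ⟨u1, hu1⟩ := parC_holds
  obtain ⟨u2, hu2⟩ := sum_bound685
  refine ⟨u1 + u2, fun u hu w hw hyp => ?_⟩
  have hpar := hu1 u (by omega) w hw
  have hsum := hu2 u (by omega) w hpar hyp
  have hn4 := hpar.n_ge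
  have hcc : 0 < 2 * cc w 0 := by
    have := (hpar.cc_fac 0 (by omega)).1
    omega
  have hwpos : 0 < w := by
    obtain ⟨e1, e2, e3⟩ := hpar.wi_ge 0 (Nat.zero_le _)
    have hu6 := hpar.u_ge
    have : 1 ≤ (Nat.log 2 w + u) ^ 16 := Nat.one_le_pow _ _ (by omega)
    simp at e3
    omega
  have hwR : (0 : ℝ) < w := by exact_mod_cast hwpos
  obtain ⟨a1, a2, ha⟩ := shift685 (2 * cc w 0) hcc (fun a1 a2 => (TT685 u w 2 ((a1 : ℤ), (a2 : ℤ)) +
      ∑ k ∈ Finset.range (nb u w - 2), ENNReal.ofReal (wt685 u w k) * TT685 u w (2 + k + 1) ((a1 : ℤ), (a2 : ℤ)))) (1 / 64)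
      (by push_cast; exact hsum)
  set a : ℤ × ℤ := ((a1 : ℤ), (a2 : ℤ)) with hadef
  obtain ⟨hG1, hG2, hG3⟩ := GC_facts u w hpar a
  -- cost
  let cost : (Fin (nb u w + 1) → EuclideanSpace ℝ ↥(Dw w)) → ENNReal := fun ω =>
    (NN685 u w 2 ω : ENNReal) + ∑ k ∈ Finset.range (nb u w - 2), ENNReal.ofReal (wt685 u w k) * (NN685 u w (2 + k + 1) ω : ENNReal)
  have hcm : Measurable cost := by
    refine (meas_NN685 u w 2).add ?_
    exact Finset.measurable_fun_sum _ fun k _ => (meas_NN685 u w _).const_mul _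
  have hcost : ∫⁻ ω, cost ω ∂(PC u w a) ≤ ENNReal.ofReal (1 / 64) := by
    refine le_trans ?_ ha
    simp only [cost]
    rw [lintegral_add_left (meas_NN685 u w 2), lintegral_finsetSum _ (fun k _ => (meas_NN685 u w _).const_mul _)]
    refine add_le_add (countC u w hpar a 2 (by omega)) (Finset.sum_le_sum fun k hk => ?_)
    rw [Finset.mem_range] at hk
    rw [lintegral_const_mul _ (meas_NN685 u w _)]
    exact mul_le_mul' le_rfl (countC u w hpar a (2 + k + 1) (by omega))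
  have hmark : PC u w a {ω | 1 ≤ cost ω} ≤ ENNReal.ofReal (1 / 64) := by
    have h1 := mul_meas_ge_le_lintegral₀ (μ := PC u w a) hcm.aemeasurable 1
    rw [one_mul] at h1
    exact h1.trans hcost
  have hdet : ∀ ω, cost ω < 1 → armOK true (0, 0) w (w / 4) u (12 * w) (extf (Dw w) (∑ k, ω k)) := by
    intro ω hω
    have h1 : (NN685 u w 2 ω : ENNReal) < 1 := lt_of_le_of_lt le_self_add hω
    have h2 : ∑ k ∈ Finset.range (nb u w - 2), ENNReal.ofReal (wt685 u w k) * (NN685 u w (2 + k + 1) ω : ENNReal) < 1 :=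
      lt_of_le_of_lt le_add_self hω
    have h3 : NN685 u w 2 ω = 0 := by
      have : NN685 u w 2 ω < 1 := by exact_mod_cast h1
      omega
    have h4 : ∑ k ∈ Finset.range (nb u w - 2), wt685 u w k * (NN685 u w (2 + k + 1) ω : ℝ) < 1 := by
      have h5 : ∑ k ∈ Finset.range (nb u w - 2), ENNReal.ofReal (wt685 u w k) * (NN685 u w (2 + k + 1) ω : ENNReal) =
          ENNReal.ofReal (∑ k ∈ Finset.range (nb u w - 2), wt685 u w k * (NN685 u w (2 + k + 1) ω : ℝ)) := by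
        rw [ENNReal.ofReal_sum_of_nonneg (fun k _ => mul_nonneg (wt_nonneg685 u w k) (Nat.cast_nonneg _))]
        refine Finset.sum_congr rfl fun k _ => ?_
        rw [ENNReal.ofReal_mul (wt_nonneg685 u w k), ENNReal.ofReal_natCast]
      rw [h5] at h2
      by_contra hc
      have h6 : ENNReal.ofReal 1 ≤ ENNReal.ofReal (∑ k ∈ Finset.range (nb u w - 2), wt685 u w k * (NN685 u w (2 + k + 1) ω : ℝ)) :=
        ENNReal.ofReal_le_ofReal (not_lt.mp hc)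
      rw [ENNReal.ofReal_one] at h6
      exact absurd (lt_of_le_of_lt h6 h2) (lt_irrefl _)
    refine det_finalC u w hpar (extf (Dw w) (∑ k, ω k)) (oracle (WC w) ω) ?_ ?_
    · intro s' hs'
      by_contra hcon
      unfold NN685 at h3
      have h7 := List.countP_eq_zero.mp h3 s' hs'
      exact h7 (@decide_eq_true _ (Classical.dec _) hcon)
    · have h8 : ∑ k ∈ Finset.range (nb u w - 2), 4 * ((((2 + k : ℕ) : ℝ) + u) ^ 9 * wi w (2 + k)) * (NN685 u w (2 + k + 1) ω : ℝ) < (w : ℝ) := by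
        have h9 : ∑ k ∈ Finset.range (nb u w - 2), 4 * ((((2 + k : ℕ) : ℝ) + u) ^ 9 * wi w (2 + k)) * (NN685 u w (2 + k + 1) ω : ℝ) =
            w * ∑ k ∈ Finset.range (nb u w - 2), wt685 u w k * (NN685 u w (2 + k + 1) ω : ℝ) := by
          rw [Finset.mul_sum]
          refine Finset.sum_congr rfl fun k _ => ?_
          unfold wt685
          field_simp
        rw [h9]
        calc (w : ℝ) * ∑ k ∈ Finset.range (nb u w - 2), wt685 u w k * (NN685 u w (2 + k + 1) ω : ℝ) < w * 1 := by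
              gcongr
          _ = w := mul_one _
      exact h8
  -- law
  have hlaw : (PC u w a).map (fun x => ∑ j, x j) = gf (Dw w) (Dw w) := by
    have h1 := law_sum (ι := ↥(Dw w)) (n := nb u w + 1) (fun k : Fin (nb u w + 1) => GC u w a k) (fun k => hG1 k)
    unfold PC gf
    rw [h1, hG2]
  have hms : MeasurableSet {x : EuclideanSpace ℝ ↥(Dw w) | ¬ armOK true (0, 0) w (w / 4) u (12 * w) (extf (Dw w) x)} :=
    (meas_armOK685 (fun x => extf (Dw w) x) (fun v => measurable_extf685 (Dw w) v) _ _ _ _ _ _).compl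
  unfold HypA
  rw [← hlaw, Measure.map_apply (measurable_sumE685 _) hms]
  refine (measure_mono ?_).trans hmark
  intro ω hω
  by_contra hc
  exact hω (hdet ω (not_le.mp hc))

end H941.hyp_step
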