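import Pool.Agent.H941.Defs4
import Pool.Agent.H941.C.hyp_base
import Pool.Agent.H941.C.hyp_step

open MeasureTheory ProbabilityTheory

namespace H941.hyp_all

theorem _root_.H941.hyp_all : ∃ u : ℕ, 1 ≤ u ∧ ∀ w : ℕ, 128 ≤ w → HypA u 12 (1 / 64) w := by
  obtain ⟨a, ha⟩ := hyp_step
  obtain ⟨b, hb⟩ := hyp_base
  refine ⟨max (max a b) 1, le_max_right _ _, ?_⟩
  intro w
  induction w using Nat.strong_induction_on with
  | _ w ih =>
    intro hw
    have h1 : a ≤ max (max a b) 1 := (le_max_left a b).trans (le_max_left _ _)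
    have h2 : b ≤ max (max a b) 1 := (le_max_right a b).trans (le_max_left _ _)
    by_cases h : 64 ^ 5 * (Nat.log 2 w + max (max a b) 1) ^ 16 ≤ w
    · exact ha _ h1 w h (fun w' hw' hlt => ih w' hlt hw')
    · exact hb _ h2 w hw (not_le.mp h)

end H941.hyp_all
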