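import Pool.Agent.H941.Defs4
import Pool.Agent.H941.C.arm_T2
import Pool.Agent.H941.C.arm_fixed
import Pool.Agent.H941.C.det_annulus
import Pool.Agent.H941.C.hyp_all

open MeasureTheory ProbabilityTheory

namespace H941.annulus_high

theorem annulus_high_ball (N : ℕ) (x : ℤ × ℤ) (r : ℤ) (h1 : -(N : ℤ) + 6 ≤ 2 * (x.1 - r))
    (h2 : 2 * (x.1 + r) ≤ N - 6) (h3 : -(N : ℤ) + 6 ≤ 2 * (x.2 - r))
    (h4 : 2 * (x.2 + r) ≤ N - 6) : ball x r ⊆ box N \ innerBdry N := by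
  intro z hz
  unfold ball rect at hz
  rw [Finset.mem_product, Finset.mem_Icc, Finset.mem_Icc] at hz
  obtain ⟨⟨a1, a2⟩, ⟨a3, a4⟩⟩ := hz
  have hbox : ∀ y : ℤ × ℤ, |z.1 - y.1| ≤ 1 → |z.2 - y.2| ≤ 1 → y ∈ box N := by
    intro y hy1 hy2
    rw [abs_le] at hy1 hy2
    unfold box
    rw [Finset.mem_product, Finset.mem_Icc, Finset.mem_Icc]
    refine ⟨⟨?_, ?_⟩, ⟨?_, ?_⟩⟩ <;> omega
  rw [Finset.mem_sdiff]
  refine ⟨hbox z (by simp) (by simp), ?_⟩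
  intro h
  unfold innerBdry at h
  simp only [Finset.mem_filter] at h
  obtain ⟨-, u, hu, hu2⟩ := h
  apply hu2
  have hu' : |z.1 - u.1| + |z.2 - u.2| = 1 := hu
  exact hbox u (by linarith [abs_nonneg (z.2 - u.2)]) (by linarith [abs_nonneg (z.1 - u.1)])

theorem annulus_high_sub (N : ℕ) (x : ℤ × ℤ) (h1 : |x.1| ≤ N) (h2 : |x.2| ≤ N) :
    box N \ innerBdry N ⊆ ball x (((2 * N : ℕ) : ℤ)) := by
  intro z hz
  have hz1 := (Finset.mem_sdiff.1 hz).1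
  unfold box at hz1
  rw [Finset.mem_product, Finset.mem_Icc, Finset.mem_Icc] at hz1
  obtain ⟨⟨a1, a2⟩, ⟨a3, a4⟩⟩ := hz1
  rw [abs_le] at h1 h2
  unfold ball rect
  rw [Finset.mem_product, Finset.mem_Icc, Finset.mem_Icc]
  refine ⟨⟨?_, ?_⟩, ⟨?_, ?_⟩⟩ <;> omega

theorem annulus_high_exp {x : ℝ} (hx : 0 < x) : Real.exp (-x) ≤ 1 / x := by
  rw [Real.exp_neg, ← one_div]
  exact one_div_le_one_div_of_le hx (by linarith [Real.add_one_le_exp x])

theorem annulus_high_n1 {c g e : ℝ} (hc : 0 < c) (he : 0 < e) (hg1 : 1 ≤ g)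
    (hg2 : 2 / (c * e) ≤ g) : 2 * Real.exp (-(c * g ^ 2)) ≤ e := by
  have hg : 0 < g := by linarith
  have h1 := annulus_high_exp (x := c * g ^ 2) (by positivity)
  have h2 : 1 / (c * g ^ 2) ≤ 1 / (c * g) := by
    apply one_div_le_one_div_of_le (by positivity)
    have h5 : c * g * 1 ≤ c * g * g := mul_le_mul_of_nonneg_left hg1 (by positivity)
    have h6 : c * g ^ 2 = c * g * g := by ring
    linarith
  have h3 : 2 * (1 / (c * g)) ≤ e := by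
    rw [mul_one_div, div_le_iff₀ (by positivity)]
    rw [div_le_iff₀ (by positivity)] at hg2
    have h4 : g * (c * e) = e * (c * g) := by ring
    linarith
  linarith

theorem annulus_high_n2 {B C2 e : ℝ} (hB : 0 ≤ B) (hC2 : 0 < C2) (he : 0 < e) (he1 : e ≤ 1)
    (h : B / e ≤ C2) : (B / C2) ^ 4 ≤ e := by
  have h1 : B / C2 ≤ e := by
    rw [div_le_iff₀ hC2]
    rw [div_le_iff₀ he] at h
    linarith
  have h2 : 0 ≤ B / C2 := by positivity
  calc (B / C2) ^ 4 ≤ (B / C2) ^ 1 := pow_le_pow_of_le_one h2 (by linarith) (by norm_num)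
    _ = B / C2 := pow_one _
    _ ≤ e := h1

theorem annulus_high_n3 {A R q e : ℝ} (hA : 1 ≤ A) (hR : 1 ≤ R) (he : 0 < e) (hq : 0 ≤ q)
    (hqR : q ≤ 1 / R) (h : A / e ≤ R) : A * q ^ 2 ≤ e := by
  have hR0 : 0 < R := by linarith
  have h1 : q ^ 2 ≤ (1 / R) ^ 2 := pow_le_pow_left₀ hq hqR 2
  have h2 : ((1 : ℝ) / R) ^ 2 ≤ 1 / R := by
    have h3 : (1 : ℝ) / R ≤ 1 := by
      rw [div_le_one hR0]
      exact hR
    have h4 : (0 : ℝ) ≤ 1 / R := by positivity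
    nlinarith
  have h3 : A * (1 / R) ≤ e := by
    rw [mul_one_div, div_le_iff₀ hR0]
    rw [div_le_iff₀ he] at h
    linarith
  calc A * q ^ 2 ≤ A * (1 / R) := mul_le_mul_of_nonneg_left (h1.trans h2) (by linarith)
    _ ≤ e := h3

theorem annulus_high_n4 {C Y e q r : ℝ} (hC : 1 ≤ C) (hY : 1 ≤ Y) (he : 0 < e) (hq : 1 ≤ q)
    (hqr : q ≤ r) (h : C * (1 + Real.log r) / e ≤ Y) :
    Real.exp (-(Y ^ 2 / (C * (1 + Real.log q)))) ≤ e := by
  have h1 : 0 ≤ Real.log q := Real.log_nonneg hq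
  have h2 : Real.log q ≤ Real.log r := Real.log_le_log (by linarith) hqr
  have hL : 0 < C * (1 + Real.log r) := by
    apply mul_pos (by linarith)
    linarith
  have hL' : 0 < C * (1 + Real.log q) := by
    apply mul_pos (by linarith)
    linarith
  have h3 : Y ^ 2 / (C * (1 + Real.log r)) ≤ Y ^ 2 / (C * (1 + Real.log q)) := by
    apply div_le_div_of_nonneg_left (by positivity) hL'
    apply mul_le_mul_of_nonneg_left _ (by linarith)
    linarith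
  have h4 : Real.exp (-(Y ^ 2 / (C * (1 + Real.log q)))) ≤
      Real.exp (-(Y ^ 2 / (C * (1 + Real.log r)))) := Real.exp_le_exp.2 (by linarith)
  have hY2 : 0 < Y ^ 2 := by positivity
  have h5 := annulus_high_exp (x := Y ^ 2 / (C * (1 + Real.log r))) (div_pos hY2 hL)
  have h6 : 1 / (Y ^ 2 / (C * (1 + Real.log r))) ≤ e := by
    rw [one_div_div, div_le_iff₀ hY2]
    rw [div_le_iff₀ he] at h
    have h7 : Y * 1 ≤ Y * Y := mul_le_mul_of_nonneg_left hY (by linarith)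
    have h8 : e * (Y * 1) ≤ e * (Y * Y) := mul_le_mul_of_nonneg_left h7 he.le
    have h9 : e * Y ^ 2 = e * (Y * Y) := by ring
    linarith
  linarith

theorem annulus_high_n5 {C R g e q : ℝ} (hC : 1 ≤ C) (hR : 1 ≤ R) (he : 0 < e) (hq : 0 ≤ q)
    (hqR : q ≤ 2 * R) (hg : 1 ≤ g) (h : 4 * (C * (2 * R) ^ C) / e ≤ g) :
    C * q ^ C * Real.exp (-(g / 4)) ≤ e := by
  have hg0 : 0 < g := by linarith
  have h2 : q ^ C ≤ (2 * R) ^ C := Real.rpow_le_rpow hq hqR (by linarith)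
  have h3 := annulus_high_exp (x := g / 4) (by positivity)
  have h4 : 0 ≤ (2 * R) ^ C := Real.rpow_nonneg (by linarith) _
  have h5 : 0 ≤ C * (2 * R) ^ C := mul_nonneg (by linarith) h4
  calc C * q ^ C * Real.exp (-(g / 4)) ≤ C * (2 * R) ^ C * (1 / (g / 4)) := by
        apply mul_le_mul _ h3 (Real.exp_pos _).le h5
        exact mul_le_mul_of_nonneg_left h2 (by linarith)
    _ = 4 * (C * (2 * R) ^ C) / g := by
        field_simp
    _ ≤ e := by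
        rw [div_le_iff₀ hg0]
        rw [div_le_iff₀ he] at h
        linarith

/-- the geometry of the arms -/
theorem annulus_high_geo {N w K M' : ℕ} {o : Bool} {t : ℤ × ℤ} (hK : K ≤ M')
    (hN : 2 * M' + 24 * w + 200 ≤ N) (hot : armAt (((K : ℕ) : ℤ), 0) w o t) :
    ball (xa o t w) (8 * (w : ℤ)) ⊆ box N \ innerBdry N ∧
      box N \ innerBdry N ⊆ ball (xa o t w) ((2 * N : ℕ) : ℤ) := by
  have hxa : -(2 * (w : ℤ)) ≤ (xa o t w).1 ∧ (xa o t w).1 ≤ K + 2 * w ∧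
      -(2 * (w : ℤ)) ≤ (xa o t w).2 ∧ (xa o t w).2 ≤ 2 * w := by
    rcases hot with ⟨ho, ht⟩ | ⟨ho, ht⟩ | ⟨ho, ht⟩ | ⟨ho, ht⟩
    · subst ho; subst ht
      simp only [xa, place, if_true]
      refine ⟨?_, ?_, ?_, ?_⟩ <;> omega
    · subst ho; subst ht
      simp only [xa, place, if_true]
      refine ⟨?_, ?_, ?_, ?_⟩ <;> omega
    · subst ho; subst ht
      simp only [xa, place, Bool.false_eq_true, if_false]
      refine ⟨?_, ?_, ?_, ?_⟩ <;> omega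
    · subst ho; subst ht
      simp only [xa, place, Bool.false_eq_true, if_false]
      refine ⟨?_, ?_, ?_, ?_⟩ <;> omega
  obtain ⟨x1, x2, x3, x4⟩ := hxa
  constructor
  · apply annulus_high_ball <;> omega
  · apply annulus_high_sub
    · rw [abs_le]
      constructor <;> omega
    · rw [abs_le]
      constructor <;> omega

/-- the bound for one arm -/
theorem annulus_high_arm (ε η : ℝ) (hε : 0 < ε) (hε1 : ε ≤ 1 / 100) (hη : 0 < η) (hη1 : η ≤ 1) (m : ℕ)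
    (hm : (m : ℝ) * ε + 14 * ε ≤ 1 / 2) :
    ∃ (R : ℕ) (lam1 C2 : ℝ), 1 ≤ R ∧ 1 ≤ C2 ∧
      ∀ (N w : ℕ), (w : ℝ) ≤ ε * N → ε * N ≤ w + 1 → 64 * R + 100 * (m + 1) ≤ w →
        64 ≤ w / R ∧ 2 * (w / R) ≤ w ∧
        ∀ j ≤ m, ∀ (o : Bool) (t : ℤ × ℤ), armAt (((j * w : ℕ) : ℤ), 0) w o t →
          gf (box N) (box N \ innerBdry N)
            {x | ¬ armOK o t w (w / R) lam1 (C2 * w) (extf (box N) x)} ≤ ENNReal.ofReal η := by
  obtain ⟨u, hu, hhyp⟩ := hyp_all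
  obtain ⟨A, c, hA, hc, hT2⟩ := arm_T2
  obtain ⟨C, hC, hfix⟩ := arm_fixed
  have hη5 : 0 < η / 5 := by positivity
  obtain ⟨R, hR⟩ := exists_nat_ge (max (A / (η / 5)) (10 ^ 9))
  have hR1 : A / (η / 5) ≤ R := (le_max_left _ _).trans hR
  have hR2 : (10 : ℝ) ^ 9 ≤ R := (le_max_right _ _).trans hR
  have hRpos : (0 : ℝ) < R := lt_of_lt_of_le (by norm_num) hR2
  have hRnat : 10 ^ 9 ≤ R := by exact_mod_cast hR2
  obtain ⟨g, hg⟩ : ∃ g : ℝ, g = max 1 (max (2 / (c * (η / 5)))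
    (4 * (C * (2 * (R : ℝ)) ^ C) / (η / 5))) := ⟨_, rfl⟩
  have hg1 : 1 ≤ g := by rw [hg]; exact le_max_left _ _
  have hg2 : 2 / (c * (η / 5)) ≤ g := by
    rw [hg]; exact (le_max_left _ _).trans (le_max_right _ _)
  have hg3 : 4 * (C * (2 * (R : ℝ)) ^ C) / (η / 5) ≤ g := by
    rw [hg]; exact (le_max_right _ _).trans (le_max_right _ _)
  have hgpos : 0 < g := by linarith
  obtain ⟨Y, hY⟩ : ∃ Y : ℝ, Y = max 1 (C * (1 + Real.log (4 / ε)) / (η / 5)) := ⟨_, rfl⟩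
  have hY1 : 1 ≤ Y := by rw [hY]; exact le_max_left _ _
  have hY2 : C * (1 + Real.log (4 / ε)) / (η / 5) ≤ Y := by rw [hY]; exact le_max_right _ _
  obtain ⟨C2, hC2⟩ : ∃ C2 : ℝ, C2 = max 1 (A * 12 * (u : ℝ) ^ 4 / (η / 5)) := ⟨_, rfl⟩
  have hC21 : 1 ≤ C2 := by rw [hC2]; exact le_max_left _ _
  have hC22 : A * 12 * (u : ℝ) ^ 4 / (η / 5) ≤ C2 := by rw [hC2]; exact le_max_right _ _
  have hC2pos : 0 < C2 := by linarith
  refine ⟨R, 5 / 4 * g + Y, C2, by omega, hC21, ?_⟩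
  intro N w hw1 hw2 hw3
  have hRpos' : 0 < R := by omega
  have hd64 : 64 ≤ w / R := by
    rw [Nat.le_div_iff_mul_le hRpos']
    omega
  have hdR : w / R * R ≤ w := Nat.div_mul_le_self w R
  have hdbig : 10 ^ 9 * (w / R) ≤ w := by
    calc 10 ^ 9 * (w / R) ≤ R * (w / R) := Nat.mul_le_mul_right _ hRnat
      _ = w / R * R := Nat.mul_comm _ _
      _ ≤ w := hdR
  have h2d : 2 * (w / R) ≤ w := by omega
  refine ⟨hd64, h2d, ?_⟩
  intro j hj o t hot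
  have hwpos : 0 < w := by omega
  have hwR : (0 : ℝ) < w := by exact_mod_cast hwpos
  have hdpos : (0 : ℝ) < ((w / R : ℕ) : ℝ) := by
    have : 0 < w / R := by omega
    exact_mod_cast this
  -- the first bound
  set p2 : ℝ := 2 * Real.exp (-(c * g ^ 2)) + (A * 12 * (u : ℝ) ^ 4 / C2) ^ 4 +
    A * (((w / R : ℕ) : ℝ) / w) ^ 2 with hp2
  have hu' : (1 : ℝ) ≤ u := by exact_mod_cast hu
  have hb1 : gf (Dw w) (Dw w) {x | ¬ armOK true (0, 0) w (w / R) g (C2 * w) (extf (Dw w) x)} ≤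
      ENNReal.ofReal p2 :=
    hT2 u 12 (1 / 64) g C2 w (w / R) hu' (by norm_num) (by norm_num) (by norm_num) hg1 hC21
      (by omega) hdbig fun w' hw' _ => hhyp w' hw'
  have hp20 : 0 ≤ p2 := by positivity
  -- the geometry
  have hmw : (m : ℝ) * w + 12 * w + 100 ≤ (N : ℝ) / 2 := by
    have h1 : (m : ℝ) * w ≤ m * (ε * N) := mul_le_mul_of_nonneg_left hw1 (Nat.cast_nonneg _)
    have h2 : ((m : ℝ) * ε + 14 * ε) * N ≤ 1 / 2 * N :=
      mul_le_mul_of_nonneg_right hm (Nat.cast_nonneg _)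
    have h3 : (100 : ℝ) ≤ w := by
      have : 100 ≤ w := by omega
      exact_mod_cast this
    nlinarith
  have hmw' : 2 * (m * w) + 24 * w + 200 ≤ N := by
    have : (2 * ((m : ℝ) * w) + 24 * w + 200) ≤ N := by linarith
    exact_mod_cast this
  have hjw : j * w ≤ m * w := Nat.mul_le_mul_right _ hj
  have hjw0 : 0 ≤ j * w := Nat.zero_le _
  obtain ⟨K, hK⟩ : ∃ K : ℕ, K = j * w := ⟨_, rfl⟩
  obtain ⟨M', hM'⟩ : ∃ M' : ℕ, M' = m * w := ⟨_, rfl⟩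
  rw [← hK] at hjw hjw0 hot
  rw [← hM'] at hjw hmw'
  obtain ⟨hball, hsub⟩ := annulus_high_geo hjw hmw' hot
  have hb2 := hfix (box N) (box N \ innerBdry N) Finset.sdiff_subset (2 * N) w (w / R)
    (((K : ℕ) : ℤ), 0) o t (5 / 4 * g + Y) g (C2 * w) p2 hd64 h2d (by omega) hp20 hgpos
    (by linarith) hot hball hsub hb1
  refine hb2.trans (ENNReal.ofReal_le_ofReal ?_)
  -- the numerical estimates
  have hR1' : (1 : ℝ) ≤ R := by linarith
  have e1 : 2 * Real.exp (-(c * g ^ 2)) ≤ η / 5 := annulus_high_n1 hc hη5 hg1 hg2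
  have e2 : (A * 12 * (u : ℝ) ^ 4 / C2) ^ 4 ≤ η / 5 :=
    annulus_high_n2 (by positivity) hC2pos hη5 (by linarith) hC22
  have hdw : ((w / R : ℕ) : ℝ) / w ≤ 1 / R := by
    rw [div_le_div_iff₀ hwR hRpos]
    have : ((w / R : ℕ) : ℝ) * R ≤ w := by exact_mod_cast hdR
    linarith
  have e3 : A * (((w / R : ℕ) : ℝ) / w) ^ 2 ≤ η / 5 :=
    annulus_high_n3 hA hR1' hη5 (by positivity) hdw hR1
  have hNw : ((2 * N : ℕ) : ℝ) / w ≤ 4 / ε := by
    rw [div_le_div_iff₀ hwR hε]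
    push_cast
    have : (1 : ℝ) ≤ w := by exact_mod_cast hwpos
    linarith [mul_comm (N : ℝ) ε, mul_assoc (2 : ℝ) N ε]
  have hNw1 : 1 ≤ ((2 * N : ℕ) : ℝ) / w := by
    rw [le_div_iff₀ hwR]
    have h1 : w ≤ 2 * N := by omega
    have h2 : (w : ℝ) ≤ ((2 * N : ℕ) : ℝ) := by exact_mod_cast h1
    linarith
  have e4 : Real.exp (-((5 / 4 * g + Y - 5 / 4 * g) ^ 2 /
      (C * (1 + Real.log (((2 * N : ℕ) : ℝ) / w))))) ≤ η / 5 := by
    have h0 : 5 / 4 * g + Y - 5 / 4 * g = Y := by ring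
    rw [h0]
    exact annulus_high_n4 hC hY1 hη5 hNw1 hNw hY2
  have h1 : (w : ℝ) / ((w / R : ℕ) : ℝ) ≤ 2 * R := by
    rw [div_le_iff₀ hdpos]
    have h2 : w < w / R * R + R := Nat.lt_div_mul_add (a := w) hRpos'
    have h3 : w ≤ 2 * R * (w / R) := by
      have h4 : R ≤ w / R * R := Nat.le_mul_of_pos_left R (by omega)
      have h5 : 2 * R * (w / R) = w / R * R + w / R * R := by ring
      omega
    exact_mod_cast h3
  have e5 : C * ((w : ℝ) / ((w / R : ℕ) : ℝ)) ^ C * Real.exp (-(g / 4)) ≤ η / 5 :=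
    annulus_high_n5 hC hR1' hη5 (by positivity) h1 hg1 hg3
  rw [hp2]
  linarith

theorem _root_.H941.annulus_high (α β : ℝ) (hα : 0 < α) (hαβ : α < β) (hβ : β < 1) :
    ∃ (lam1 C : ℝ) (N0 : ℕ), 0 < C ∧ ∀ N : ℕ, N0 ≤ N →
      gf (box N) (box N \ innerBdry N) {x | ¬ ∃ (u v : ℤ × ℤ) (p : grid.Walk u v),
          u ∈ innerBdry ⌊α * (N : ℝ)⌋₊ ∧ v ∈ innerBdry ⌊β * (N : ℝ)⌋₊ ∧
          (∀ z ∈ p.support, z ∈ box ⌊β * (N : ℝ)⌋₊ ∧ extf (box N) x z ≤ lam1) ∧ (p.support.length : ℝ) ≤ C * N} ≤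
        ENNReal.ofReal (1 / 4) := by
  have hβ0 : 0 < β := hα.trans hαβ
  obtain ⟨ε, hεdef⟩ : ∃ ε : ℝ, ε = min α (1 - β) / 100 := ⟨_, rfl⟩
  have hε : 0 < ε := by
    rw [hεdef]
    have : 0 < min α (1 - β) := lt_min hα (by linarith)
    positivity
  have hεα : 100 * ε ≤ α := by
    rw [hεdef]
    linarith [min_le_left α (1 - β)]
  have hεβ : 100 * ε ≤ 1 - β := by
    rw [hεdef]
    linarith [min_le_right α (1 - β)]
  have hε1 : ε ≤ 1 / 100 := by linarith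
  obtain ⟨m, hmdef⟩ : ∃ m : ℕ, m = ⌈β / (2 * ε)⌉₊ + 1 := ⟨_, rfl⟩
  have hm1 : β / 2 + ε ≤ m * ε := by
    have h1 : β / (2 * ε) ≤ ⌈β / (2 * ε)⌉₊ := Nat.le_ceil _
    rw [hmdef]
    push_cast
    rw [div_le_iff₀ (by positivity)] at h1
    linarith
  have hm2 : m * ε ≤ β / 2 + 2 * ε := by
    have h1 : (⌈β / (2 * ε)⌉₊ : ℝ) < β / (2 * ε) + 1 := Nat.ceil_lt_add_one (by positivity)
    rw [hmdef]
    push_cast
    have h2 : β / (2 * ε) * ε = β / 2 := by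
      field_simp
    nlinarith
  set η : ℝ := 1 / (16 * (m + 1)) with hη
  have hηpos : 0 < η := by positivity
  have hη1 : η ≤ 1 := by
    rw [hη, div_le_one (by positivity)]
    have : (0 : ℝ) ≤ m := Nat.cast_nonneg _
    linarith
  obtain ⟨R, lam1, C2, hR, hC2, harm⟩ := annulus_high_arm ε η hε hε1 hηpos hη1 m (by linarith)
  obtain ⟨N0, hN0⟩ := exists_nat_ge ((64 * R + 100 * (m + 1) + 1) / ε)
  refine ⟨lam1, 4 * (m + 1) * C2, N0, by positivity, ?_⟩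
  intro N hN
  have hNε : 64 * R + 100 * (m + 1) + 1 ≤ ε * N := by
    rw [div_le_iff₀ hε] at hN0
    have h1 : (N0 : ℝ) ≤ N := by exact_mod_cast hN
    nlinarith
  set w : ℕ := ⌊ε * N⌋₊ with hw
  have hw1 : (w : ℝ) ≤ ε * N := Nat.floor_le (by positivity)
  have hw2 : ε * N < w + 1 := Nat.lt_floor_add_one _
  have hw3 : 64 * R + 100 * (m + 1) ≤ w := by
    rw [hw]
    apply Nat.le_floor
    push_cast
    linarith
  obtain ⟨hd64, h2d, hbound⟩ := harm N w hw1 hw2.le hw3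
  have hmN : (0 : ℝ) ≤ N := Nat.cast_nonneg _
  have hmm : (0 : ℝ) ≤ m := Nat.cast_nonneg _
  have hRR : (0 : ℝ) ≤ R := Nat.cast_nonneg _
  set d := w / R with hd
  -- the two boxes
  have ha : (100 * (ε * N) : ℝ) ≤ α * N := by nlinarith
  have ha1 : 4 * w + 20 ≤ ⌊α * (N : ℝ)⌋₊ := by
    apply Nat.le_floor
    push_cast
    nlinarith
  have hb1 : ⌊β * (N : ℝ)⌋₊ / 2 + 5 ≤ m * w := by
    have h1 : ((⌊β * (N : ℝ)⌋₊ / 2 : ℕ) : ℝ) ≤ (⌊β * (N : ℝ)⌋₊ : ℝ) / 2 := Nat.cast_div_le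
    have h2 : (⌊β * (N : ℝ)⌋₊ : ℝ) ≤ β * N := Nat.floor_le (by positivity)
    have h3 : (m : ℝ) * (ε * N - 1) ≤ m * w :=
      mul_le_mul_of_nonneg_left (by linarith) hmm
    have h4 : (β / 2 + ε) * N ≤ (m * ε) * N := mul_le_mul_of_nonneg_right hm1 hmN
    have h5 : ((⌊β * (N : ℝ)⌋₊ / 2 : ℕ) : ℝ) + 5 ≤ m * w := by nlinarith
    exact_mod_cast h5
  have hab : ⌊α * (N : ℝ)⌋₊ ≤ ⌊β * (N : ℝ)⌋₊ :=
    Nat.floor_mono (mul_le_mul_of_nonneg_right hαβ.le hmN)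
  -- the arms
  let oo : Fin 4 → Bool := ![true, true, false, false]
  let tt : ℕ → Fin 4 → ℤ × ℤ := fun j => ![(((j * w : ℕ) : ℤ) - 3 * w, 0 + w),
    (((j * w : ℕ) : ℤ) - 3 * w, 0 - 2 * w), (((j * w : ℕ) : ℤ) + w, 0 - 3 * w),
    (((j * w : ℕ) : ℤ) - 2 * w, 0 - 3 * w)]
  have hat : ∀ j k, armAt (((j * w : ℕ) : ℤ), 0) w (oo k) (tt j k) := by
    intro j k
    fin_cases k
    · exact Or.inl ⟨rfl, rfl⟩
    · exact Or.inr (Or.inl ⟨rfl, rfl⟩)
    · exact Or.inr (Or.inr (Or.inl ⟨rfl, rfl⟩))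
    · exact Or.inr (Or.inr (Or.inr ⟨rfl, rfl⟩))
  set I : Finset (ℕ × Fin 4) := Finset.range (m + 1) ×ˢ Finset.univ with hI
  have hcard : I.card = (m + 1) * 4 := by
    rw [hI, Finset.card_product, Finset.card_range, Finset.card_univ, Fintype.card_fin]
  have hsubset : {x : EuclideanSpace ℝ (box N : Finset (ℤ × ℤ)) |
      ¬ ∃ (u v : ℤ × ℤ) (p : grid.Walk u v),
          u ∈ innerBdry ⌊α * (N : ℝ)⌋₊ ∧ v ∈ innerBdry ⌊β * (N : ℝ)⌋₊ ∧
          (∀ z ∈ p.support, z ∈ box ⌊β * (N : ℝ)⌋₊ ∧ extf (box N) x z ≤ lam1) ∧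
          (p.support.length : ℝ) ≤ 4 * (m + 1) * C2 * N} ⊆
      ⋃ p ∈ I, {x | ¬ armOK (oo p.2) (tt p.1 p.2) w d lam1 (C2 * w) (extf (box N) x)} := by
    intro x hx
    by_contra hcon
    apply hx
    simp only [Set.mem_iUnion, not_exists] at hcon
    have hok : ∀ j ≤ m, ∀ k, armOK (oo k) (tt j k) w d lam1 (C2 * w) (extf (box N) x) := by
      intro j hj k
      by_contra h1
      exact hcon (j, k) (by
        rw [hI, Finset.mem_product, Finset.mem_range]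
        exact ⟨Nat.lt_succ_of_le hj, Finset.mem_univ _⟩) h1
    obtain ⟨u, v, p, hu, hv, hp, hlen⟩ := det_annulus ⌊α * (N : ℝ)⌋₊ ⌊β * (N : ℝ)⌋₊ w m d lam1
      (C2 * w) (extf (box N) x) (by omega) hab (by omega) h2d ha1 hb1 (by positivity)
      (fun j hj => ⟨hok j hj 0, hok j hj 1, hok j hj 2, hok j hj 3⟩)
    refine ⟨u, v, p, hu, hv, hp, hlen.trans ?_⟩
    have h1 : (w : ℝ) ≤ N := by nlinarith
    have h2 : C2 * (w : ℝ) ≤ C2 * N := mul_le_mul_of_nonneg_left h1 (by linarith)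
    have h3 : 4 * ((m : ℝ) + 1) * (C2 * w) ≤ 4 * (m + 1) * (C2 * N) :=
      mul_le_mul_of_nonneg_left h2 (by positivity)
    linarith
  refine (measure_mono hsubset).trans ?_
  refine (measure_biUnion_finset_le I _).trans ?_
  have hle : ∀ p ∈ I, gf (box N) (box N \ innerBdry N)
      {x | ¬ armOK (oo p.2) (tt p.1 p.2) w d lam1 (C2 * w) (extf (box N) x)} ≤
      ENNReal.ofReal η := by
    intro p hp
    rw [hI, Finset.mem_product, Finset.mem_range] at hp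
    exact hbound p.1 (by omega) (oo p.2) (tt p.1 p.2) (hat p.1 p.2)
  refine (Finset.sum_le_sum hle).trans ?_
  rw [Finset.sum_const, hcard, nsmul_eq_mul, ← ENNReal.ofReal_natCast,
    ← ENNReal.ofReal_mul (Nat.cast_nonneg _)]
  apply ENNReal.ofReal_le_ofReal
  rw [hη]
  push_cast
  rw [mul_one_div, div_le_iff₀ (by positivity)]
  linarith

end H941.annulus_high
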