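import Pool.Agent.H941.Defs4
import Pool.Agent.H941.A3
import Pool.Agent.H941.A4
import Pool.Agent.H941.B.center_ge
import Pool.Agent.H941.B.row_le
import Pool.Agent.H941.B.shift_bound
import Pool.Agent.H941.C.annulus_high
import Pool.Agent.H941.G2

open MeasureTheory ProbabilityTheory

namespace H941.full_large

set_option autoImplicit false

theorem fl_box_mem (M : ℕ) (z : ℤ × ℤ) : z ∈ box M ↔
    (-(((M - 1) / 2 : ℕ) : ℤ) ≤ z.1 ∧ z.1 ≤ ((M / 2 : ℕ) : ℤ)) ∧
    (-(((M - 1) / 2 : ℕ) : ℤ) ≤ z.2 ∧ z.2 ≤ ((M / 2 : ℕ) : ℤ)) := by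
  simp [box]

theorem fl_box_mono {M M' : ℕ} (h : M ≤ M') : box M ⊆ box M' := by
  intro z hz
  rw [fl_box_mem] at hz ⊢
  have h1 : (M - 1) / 2 ≤ (M' - 1) / 2 := Nat.div_le_div_right (by omega)
  have h2 : M / 2 ≤ M' / 2 := Nat.div_le_div_right h
  omega

theorem fl_card_box (N : ℕ) (hN : 1 ≤ N) : (box N).card ≤ N ^ 2 := by
  have h : ∀ a b : ℕ, (Finset.Icc (-(a : ℤ)) (b : ℤ)).card = a + b + 1 := by
    intro a b
    rw [Int.card_Icc]
    omega
  unfold box
  rw [Finset.card_product, h]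
  have h1 : (N - 1) / 2 + N / 2 + 1 = N := by omega
  rw [h1]
  exact (sq N).symm.le

theorem fl_inner_sub (M : ℕ) : innerBdry M ⊆ box M := by
  classical
  intro v hv
  unfold innerBdry at hv
  rw [Finset.mem_filter] at hv
  exact hv.1

theorem fl_adj_near {u v : ℤ × ℤ} (h : grid.Adj u v) :
    |u.1 - v.1| ≤ 1 ∧ |u.2 - v.2| ≤ 1 := by
  have h1 : |u.1 - v.1| + |u.2 - v.2| = 1 := h
  have h2 := abs_nonneg (u.1 - v.1)
  have h3 := abs_nonneg (u.2 - v.2)
  omega

theorem fl_mem_V {N : ℕ} {z : ℤ × ℤ}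
    (h1 : -(((N - 1) / 2 : ℕ) : ℤ) + 1 ≤ z.1) (h2 : z.1 + 1 ≤ ((N / 2 : ℕ) : ℤ))
    (h3 : -(((N - 1) / 2 : ℕ) : ℤ) + 1 ≤ z.2) (h4 : z.2 + 1 ≤ ((N / 2 : ℕ) : ℤ)) :
    z ∈ box N \ innerBdry N := by
  classical
  rw [Finset.mem_sdiff]
  refine ⟨(fl_box_mem N z).2 ⟨⟨by omega, by omega⟩, by omega, by omega⟩, ?_⟩
  intro h
  unfold innerBdry at h
  rw [Finset.mem_filter] at h
  obtain ⟨_, u, hu, hu'⟩ := h
  apply hu'
  obtain ⟨k1, k2⟩ := fl_adj_near hu
  rw [abs_le] at k1 k2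
  rw [fl_box_mem]
  exact ⟨⟨by omega, by omega⟩, by omega, by omega⟩

theorem fl_tail_ge (b : ℝ) (hb : 0 ≤ b) :
    ENNReal.ofReal ((Real.sqrt (2 * Real.pi))⁻¹ * Real.exp (-((b + 1) ^ 2 / 2))) ≤
      gaussianReal 0 1 (Set.Iic (-b)) := by
  calc ENNReal.ofReal ((Real.sqrt (2 * Real.pi))⁻¹ * Real.exp (-((b + 1) ^ 2 / 2)))
      = ∫⁻ _ in Set.Icc (-b - 1) (-b),
          ENNReal.ofReal ((Real.sqrt (2 * Real.pi))⁻¹ * Real.exp (-((b + 1) ^ 2 / 2))) := by
        rw [setLIntegral_const, Real.volume_Icc]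
        rw [show -b - (-b - 1) = 1 by ring, ENNReal.ofReal_one, mul_one]
    _ ≤ ∫⁻ x in Set.Icc (-b - 1) (-b), gaussianPDF 0 1 x := by
        refine setLIntegral_mono' measurableSet_Icc fun x hx => ?_
        unfold gaussianPDF gaussianPDFReal
        refine ENNReal.ofReal_le_ofReal ?_
        simp only [NNReal.coe_one, mul_one, sub_zero]
        refine mul_le_mul_of_nonneg_left (Real.exp_le_exp.2 ?_) (by positivity)
        have h1 : x ^ 2 ≤ (b + 1) ^ 2 := by
          rw [sq_le_sq, abs_le]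
          rw [abs_of_nonneg (by linarith : (0 : ℝ) ≤ b + 1)]
          exact ⟨by linarith [hx.1], by linarith [hx.2]⟩
        rw [neg_div]
        linarith
    _ = gaussianReal 0 1 (Set.Icc (-b - 1) (-b)) := by
        rw [gaussianReal_apply _ one_ne_zero]
    _ ≤ gaussianReal 0 1 (Set.Iic (-b)) := measure_mono fun x hx => hx.2

theorem fl_sum_ext (N : ℕ) (g : ℤ × ℤ → ℝ) : ∑ i : ↥(box N), g i = ∑ z ∈ box N, g z :=
  Finset.sum_coe_sort (box N) g

theorem fl_sum_V (N : ℕ) (x : ℤ × ℤ) (g : ℤ × ℤ → ℝ) :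
    ∑ v ∈ box N, green (box N \ innerBdry N) x v * g v =
      ∑ v ∈ box N \ innerBdry N, green (box N \ innerBdry N) x v * g v := by
  symm
  apply Finset.sum_subset Finset.sdiff_subset
  intro v _ hv
  rw [(green_basic _).2.1 x v (Or.inr hv), zero_mul]

theorem fl_psd (N : ℕ) : (Matrix.of fun i j : ↥(box N) =>
    (1 / 4) * green (box N \ innerBdry N) i j).PosSemidef := by
  classical
  rw [Matrix.posSemidef_iff_dotProduct_mulVec]
  constructor
  · ext i j
    simp only [Matrix.conjTranspose_apply, Matrix.of_apply, star_trivial]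
    rw [(green_basic _).2.2.1]
  · intro x
    let f : ℤ × ℤ → ℝ := fun z => if h : z ∈ box N then x ⟨z, h⟩ else 0
    have hf : ∀ i : ↥(box N), x i = f i := by
      intro i
      simp [f]
    have h1 := green_psd ∅ (box N \ innerBdry N) (Finset.empty_subset _) f
    have h0 : ∀ a b, green ∅ a b = 0 := fun a b =>
      (green_basic ∅).2.1 a b (Or.inl (Finset.notMem_empty _))
    simp only [h0, sub_zero] at h1
    have h2 : star x ⬝ᵥ (Matrix.of fun i j : ↥(box N) =>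
        (1 / 4) * green (box N \ innerBdry N) i j).mulVec x =
        (1 / 4) * ∑ a ∈ box N \ innerBdry N, ∑ b ∈ box N \ innerBdry N,
          f a * green (box N \ innerBdry N) a b * f b := by
      simp only [dotProduct, Matrix.mulVec, Matrix.of_apply, star_trivial]
      have e1 : ∀ i : ↥(box N), ∑ j : ↥(box N), (1 / 4) * green (box N \ innerBdry N) i j * x j =
          (1 / 4) * ∑ b ∈ box N \ innerBdry N, green (box N \ innerBdry N) i b * f b := by
        intro i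
        rw [← fl_sum_V, ← fl_sum_ext N (fun b => green (box N \ innerBdry N) i b * f b),
          Finset.mul_sum]
        refine Finset.sum_congr rfl fun j _ => ?_
        rw [hf j]
        ring
      simp only [e1]
      simp only [hf]
      rw [fl_sum_ext N (fun a => f a * ((1 / 4) * ∑ b ∈ box N \ innerBdry N,
        green (box N \ innerBdry N) a b * f b))]
      rw [Finset.mul_sum]
      symm
      apply Finset.sum_subset_zero_on_sdiff Finset.sdiff_subset
      · intro a ha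
        rw [Finset.mem_sdiff] at ha
        have : ∀ b, green (box N \ innerBdry N) a b = 0 := fun b =>
          (green_basic _).2.1 a b (Or.inl ha.2)
        simp [this]
      · intro a _
        rw [Finset.mul_sum, Finset.mul_sum, Finset.mul_sum]
        refine Finset.sum_congr rfl fun b _ => ?_
        ring
    rw [h2]
    positivity

theorem fl_row_sum_le (N : ℕ) (hN : 1 ≤ N) (x : ℤ × ℤ) :
    ∑ v ∈ box N, green (box N \ innerBdry N) x v ≤ ((N : ℝ) + 1) ^ 2 / 2 := by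
  by_cases hx : x ∈ box N \ innerBdry N
  · have h0 := fl_sum_V N x (fun _ => 1)
    simp only [mul_one] at h0
    rw [h0]
    have h1 := row_le (box N \ innerBdry N) (-(((N - 1) / 2 : ℕ) : ℤ) - 1) (N + 1) (by
      intro z hz
      rw [Finset.mem_sdiff, fl_box_mem] at hz
      have h2 : (N - 1) / 2 + N / 2 + 1 = N := by omega
      push_cast
      omega) x hx
    refine h1.trans ?_
    have key : ∀ c y : ℝ, 2 * (y - c) * (c + ((N : ℝ) + 1) - y) ≤ ((N : ℝ) + 1) ^ 2 / 2 := by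
      intro c y
      nlinarith [sq_nonneg (y - c - (c + ((N : ℝ) + 1) - y))]
    have h2 : ((N + 1 : ℕ) : ℝ) = (N : ℝ) + 1 := by
      push_cast
      rfl
    rw [h2]
    exact key _ _
  · have h0 : ∀ v, green (box N \ innerBdry N) x v = 0 := fun v =>
      (green_basic _).2.1 x v (Or.inl hx)
    simp only [h0, Finset.sum_const_zero]
    positivity

theorem fl_row_sum_ge (β : ℝ) (hβ0 : 0 < β) (hβ : β < 1) : ∃ N0 : ℕ, ∀ N : ℕ, N0 ≤ N →
    ∀ a ∈ box ⌊β * (N : ℝ)⌋₊, (1 - β) ^ 2 / 16 * (N : ℝ) ^ 2 ≤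
      ∑ v ∈ box N, green (box N \ innerBdry N) a v := by
  obtain ⟨N0, hN0⟩ := exists_nat_gt (24 / (1 - β))
  refine ⟨N0, fun N hN a ha => ?_⟩
  have h1β : 0 < 1 - β := by linarith
  have hNr : 24 < (1 - β) * N := by
    rw [div_lt_iff₀ h1β] at hN0
    have : (N0 : ℝ) ≤ N := by exact_mod_cast hN
    nlinarith
  obtain ⟨m, hm⟩ : ∃ m : ℕ, m = ⌊(1 - β) * N / 2⌋₊ - 3 := ⟨_, rfl⟩
  obtain ⟨M, hM⟩ : ∃ M : ℕ, M = ⌊β * (N : ℝ)⌋₊ := ⟨_, rfl⟩
  rw [← hM] at ha
  have hM1 : (M : ℝ) ≤ β * N := by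
    rw [hM]
    exact Nat.floor_le (by positivity)
  have hf1 : ((⌊(1 - β) * N / 2⌋₊ : ℕ) : ℝ) ≤ (1 - β) * N / 2 := Nat.floor_le (by positivity)
  have hf2 := Nat.lt_floor_add_one ((1 - β) * N / 2)
  have hf3 : 3 ≤ ⌊(1 - β) * N / 2⌋₊ := by
    apply Nat.le_floor
    push_cast
    linarith
  have hm1 : (m : ℝ) + 3 ≤ (1 - β) * N / 2 := by
    have : m + 3 = ⌊(1 - β) * N / 2⌋₊ := by omega
    have h2 : ((m : ℝ) + 3) = ((⌊(1 - β) * N / 2⌋₊ : ℕ) : ℝ) := by
      rw [← this]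
      push_cast
      rfl
    linarith
  have hm2 : (1 - β) * N / 4 ≤ (m : ℝ) + 1 := by
    have : m + 3 = ⌊(1 - β) * N / 2⌋₊ := by omega
    have h2 : ((m : ℝ) + 3) = ((⌊(1 - β) * N / 2⌋₊ : ℕ) : ℝ) := by
      rw [← this]
      push_cast
      rfl
    linarith
  have hkey : 2 * m + 6 + M ≤ N := by
    have : (2 * m + 6 + M : ℝ) ≤ N := by linarith
    exact_mod_cast this
  rw [fl_box_mem] at ha
  have h3 := center_ge (box N \ innerBdry N) a m (by
    intro z h1 h2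
    rw [abs_le] at h1 h2
    apply fl_mem_V
    · omega
    · omega
    · omega
    · omega)
  have h4 : ∑ v ∈ rect (a.1 - m) (a.1 + m) (a.2 - m) (a.2 + m),
      green (box N \ innerBdry N) a v ≤ ∑ v ∈ box N, green (box N \ innerBdry N) a v := by
    apply Finset.sum_le_sum_of_subset_of_nonneg
    · intro z hz
      unfold rect at hz
      rw [Finset.mem_product, Finset.mem_Icc, Finset.mem_Icc] at hz
      rw [fl_box_mem]
      omega
    · intro v _ _
      exact (green_basic _).1 a v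
  calc (1 - β) ^ 2 / 16 * (N : ℝ) ^ 2 = ((1 - β) * N / 4) ^ 2 := by ring
    _ ≤ ((m : ℝ) + 1) ^ 2 := by
        apply pow_le_pow_left₀ _ hm2
        positivity
    _ ≤ _ := h3
    _ ≤ _ := h4

theorem _root_.H941.full_large (α β : ℝ) (hα : 0 < α) (hαβ : α < β) (hβ : β < 1) (lam : ℝ) :
    ∃ (C c : ℝ) (N0 : ℕ), 0 < C ∧ 0 < c ∧ ∀ N : ℕ, N0 ≤ N → ∀ (Ω : Type*) [MeasurableSpace Ω] (P : Measure Ω)
      (η : ℤ × ℤ → Ω → ℝ), IsDGFF N η P →
      ENNReal.ofReal c ≤ P {ω | ∃ (u v : ℤ × ℤ) (p : grid.Walk u v),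
          u ∈ innerBdry ⌊α * (N : ℝ)⌋₊ ∧ v ∈ innerBdry ⌊β * (N : ℝ)⌋₊ ∧
          (∀ w ∈ p.support, w ∈ box N ∧ η w ω ≤ lam) ∧ (p.support.length : ℝ) ≤ C * N} := by
  classical
  have hβ0 : 0 < β := hα.trans hαβ
  have h1β : 0 < 1 - β := by linarith
  obtain ⟨c', hc'⟩ : ∃ c' : ℝ, c' = (1 - β) ^ 2 / 64 := ⟨_, rfl⟩
  have hc'0 : 0 < c' := by
    rw [hc']
    positivity
  obtain ⟨L, C, N1, hC, hN1⟩ := annulus_high α β hα hαβ hβ
  obtain ⟨N3, hN3⟩ := fl_row_sum_ge β hβ0 hβ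
  obtain ⟨b, hb⟩ : ∃ b : ℝ, b = max 1 ((L - lam) / c') := ⟨_, rfl⟩
  have hb1 : 1 ≤ b := by
    rw [hb]
    exact le_max_left _ _
  have hb2 : L - lam ≤ b * c' := by
    rw [← div_le_iff₀ hc'0, hb]
    exact le_max_right _ _
  refine ⟨C, (Real.sqrt (2 * Real.pi))⁻¹ * Real.exp (-((b + 1) ^ 2 / 2)) * (1 / 4), N1 + N3 + 1,
    hC, by positivity, fun N hN Ω _ P η hη => ?_⟩
  have hNr : (1 : ℝ) ≤ N := by
    have : 1 ≤ N := by omega
    exact_mod_cast this
  have hP : IsProbabilityMeasure P := hη.gaussian.isProbabilityMeasure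
  obtain ⟨M, hM⟩ : ∃ M : ℕ, M = ⌊β * (N : ℝ)⌋₊ := ⟨_, rfl⟩
  obtain ⟨M', hM'⟩ : ∃ M' : ℕ, M' = ⌊α * (N : ℝ)⌋₊ := ⟨_, rfl⟩
  have hM'M : M' ≤ M := by
    rw [hM, hM']
    exact Nat.floor_mono (mul_le_mul_of_nonneg_right hαβ.le (by positivity))
  have hMN : M ≤ N := by
    have h1 : (M : ℝ) ≤ β * N := by
      rw [hM]
      exact Nat.floor_le (by positivity)
    have h2 : β * (N : ℝ) ≤ 1 * N := mul_le_mul_of_nonneg_right hβ.le (by positivity)
    have h3 : (M : ℝ) ≤ N := by linarith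
    exact_mod_cast h3
  -- the law
  have hlaw := law_of_cov P (fun v : ↥(box N) => η v) hη.gaussian
    (fun i => hη.mean_zero i i.2)
    (Matrix.of fun i j : ↥(box N) => (1 / 4) * green (box N \ innerBdry N) i j) (fl_psd N)
    (fun i j => hη.cov i i.2 j j.2)
  obtain ⟨hX, hmap⟩ := hlaw
  set Γ : Matrix ↥(box N) ↥(box N) ℝ :=
    Matrix.of fun i j : ↥(box N) => (1 / 4) * green (box N \ innerBdry N) i j with hΓ
  -- sums
  have hrow : ∀ i : ↥(box N), ∑ j : ↥(box N), Γ i j =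
      (1 / 4) * ∑ v ∈ box N, green (box N \ innerBdry N) i v := by
    intro i
    rw [Finset.mul_sum]
    exact fl_sum_ext N (fun v => (1 / 4) * green (box N \ innerBdry N) i v)
  have hrow0 : ∀ i : ↥(box N), 0 ≤ ∑ j : ↥(box N), Γ i j := by
    intro i
    apply Finset.sum_nonneg
    intro j _
    exact mul_nonneg (by norm_num) ((green_basic _).1 _ _)
  obtain ⟨s2, hs2⟩ : ∃ s2 : ℝ, s2 = ∑ i : ↥(box N), ∑ j : ↥(box N), Γ i j := ⟨_, rfl⟩
  have hs2le : s2 ≤ (N : ℝ) ^ 4 := by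
    rw [hs2]
    calc ∑ i : ↥(box N), ∑ j : ↥(box N), Γ i j ≤
        ∑ _i : ↥(box N), (N : ℝ) ^ 2 := by
          refine Finset.sum_le_sum fun i _ => ?_
          rw [hrow]
          have := fl_row_sum_le N (by omega) i
          nlinarith
      _ = ((box N).card : ℝ) * (N : ℝ) ^ 2 := by
          rw [Finset.sum_const, nsmul_eq_mul, Finset.card_univ, Fintype.card_coe]
      _ ≤ (N : ℝ) ^ 2 * (N : ℝ) ^ 2 := by
          have h1 := fl_card_box N (by omega)
          have h2 : ((box N).card : ℝ) ≤ (N : ℝ) ^ 2 := by exact_mod_cast h1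
          exact mul_le_mul_of_nonneg_right h2 (by positivity)
      _ = (N : ℝ) ^ 4 := by ring
  have hge : ∀ a (ha : a ∈ box M), c' * (N : ℝ) ^ 2 ≤
      ∑ j : ↥(box N), Γ ⟨a, fl_box_mono hMN ha⟩ j := by
    intro a ha
    rw [hrow, hc']
    have := hN3 N (by omega) a (by rw [← hM]; exact ha)
    nlinarith
  have hs2pos : 0 < s2 := by
    have h0 : ((0 : ℤ), (0 : ℤ)) ∈ box M := by
      rw [fl_box_mem]
      dsimp only
      omega
    have h1 := hge _ h0
    rw [hs2]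
    refine lt_of_lt_of_le (by positivity) (h1.trans ?_)
    exact Finset.single_le_sum (f := fun i => ∑ j : ↥(box N), Γ i j) (fun i _ => hrow0 i)
      (Finset.mem_univ _)
  obtain ⟨σ, hσ⟩ : ∃ σ : ℝ, σ = Real.sqrt s2 := ⟨_, rfl⟩
  have hσ0 : 0 < σ := by
    rw [hσ]
    exact Real.sqrt_pos.2 hs2pos
  have hσ2 : σ ^ 2 = s2 := by
    rw [hσ, Real.sq_sqrt hs2pos.le]
  have hσle : σ ≤ (N : ℝ) ^ 2 := by
    rw [hσ, Real.sqrt_le_left (by positivity)]
    refine hs2le.trans (le_of_eq ?_)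
    ring
  obtain ⟨h, hh⟩ : ∃ h : EuclideanSpace ℝ ↥(box N), ∀ i, h i = (∑ j, Γ i j * 1) / σ :=
    ⟨WithLp.toLp 2 fun i => (∑ j, Γ i j * 1) / σ, fun i => rfl⟩
  have hh0 : ∀ i, 0 ≤ h i := by
    intro i
    rw [hh]
    simp only [mul_one]
    exact div_nonneg (hrow0 i) hσ0.le
  have hhc : ∀ a (ha : a ∈ box M), c' ≤ h ⟨a, fl_box_mono hMN ha⟩ := by
    intro a ha
    rw [hh]
    simp only [mul_one]
    rw [le_div_iff₀ hσ0]
    refine le_trans ?_ (hge a ha)
    exact mul_le_mul_of_nonneg_left hσle hc'0.le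
  -- the events
  let G : Finset (ℤ × ℤ) → Prop := fun T => ∃ (u v : ℤ × ℤ) (p : grid.Walk u v),
    u ∈ innerBdry M' ∧ v ∈ innerBdry M ∧ (∀ w ∈ p.support, w ∈ T) ∧
      (p.support.length : ℝ) ≤ C * N
  let EV : ℝ → Set (EuclideanSpace ℝ ↥(box N)) := fun t =>
    ⋃ T ∈ (box M).powerset.filter G, {x | ∀ w : ↥(box N), (w : ℤ × ℤ) ∈ T → x w ≤ t}
  have hEV : ∀ t, MeasurableSet (EV t) := by
    intro t
    refine Finset.measurableSet_biUnion _ fun T _ => ?_
    have : {x : EuclideanSpace ℝ ↥(box N) | ∀ w : ↥(box N), (w : ℤ × ℤ) ∈ T → x w ≤ t} =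
        ⋂ w : ↥(box N), {x | (w : ℤ × ℤ) ∈ T → x w ≤ t} := by
      ext x
      simp
    rw [this]
    refine MeasurableSet.iInter fun w => ?_
    by_cases hw : (w : ℤ × ℤ) ∈ T
    · simp only [hw, true_imp_iff]
      exact measurableSet_le (by fun_prop) measurable_const
    · simp only [hw, false_imp_iff]
      exact MeasurableSet.univ
  have hmemEV : ∀ (t : ℝ) (x : EuclideanSpace ℝ ↥(box N)), x ∈ EV t ↔
      ∃ T, T ⊆ box M ∧ G T ∧ ∀ w : ↥(box N), (w : ℤ × ℤ) ∈ T → x w ≤ t := by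
    intro t x
    simp only [EV, Set.mem_iUnion, Finset.mem_filter, Finset.mem_powerset, exists_prop,
      Set.mem_ofPred_eq, and_assoc]
  have hsb := shift_bound Γ (fl_psd N) (fun _ => 1) σ b hσ0 (by
      rw [hσ2, hs2]
      simp) h hh (EV L) (EV lam) (hEV L) (hEV lam) (by
      intro x hx t ht
      rw [hmemEV] at hx ⊢
      obtain ⟨T, h1, h2, h3⟩ := hx
      refine ⟨T, h1, h2, fun w hw => ?_⟩
      have h4 := h3 w hw
      have h5 := mul_nonneg ht (hh0 w)
      have h6 : (x - t • h) w = x w - t * h w := rfl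
      rw [h6]
      linarith) (by
      intro x hx
      rw [hmemEV] at hx ⊢
      obtain ⟨T, h1, h2, h3⟩ := hx
      refine ⟨T, h1, h2, fun w hw => ?_⟩
      have h4 := h3 w hw
      have h5 := hhc w (h1 hw)
      have h6 : (x - b • h) w = x w - b * h w := rfl
      rw [h6]
      have h7 : b * c' ≤ b * h w := mul_le_mul_of_nonneg_left h5 (by linarith)
      linarith)
  -- the probability of `EV L`
  have hA : (1 : ENNReal) ≤ multivariateGaussian 0 Γ (EV L) + ENNReal.ofReal (1 / 4) := by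
    have h1 := hN1 N (by omega)
    rw [← hM, ← hM'] at h1
    have h2 : (1 : ENNReal) = multivariateGaussian (0 : EuclideanSpace ℝ ↥(box N)) Γ Set.univ :=
      measure_univ.symm
    rw [h2]
    refine le_trans ?_ (add_le_add_right h1 _)
    refine le_trans (measure_mono ?_) (measure_union_le _ _)
    intro x _
    by_cases hx : ∃ (u v : ℤ × ℤ) (p : grid.Walk u v), u ∈ innerBdry M' ∧ v ∈ innerBdry M ∧
        (∀ z ∈ p.support, z ∈ box M ∧ extf (box N) x z ≤ L) ∧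
        (p.support.length : ℝ) ≤ C * N
    · left
      obtain ⟨u, v, p, hu, hv, hp, hlen⟩ := hx
      rw [hmemEV]
      refine ⟨p.support.toFinset, ?_, ⟨u, v, p, hu, hv, ?_, hlen⟩, ?_⟩
      · intro w hw
        rw [List.mem_toFinset] at hw
        exact (hp w hw).1
      · intro w hw
        rw [List.mem_toFinset]
        exact hw
      · intro w hw
        rw [List.mem_toFinset] at hw
        have h3 := (hp w hw).2
        unfold extf at h3
        rw [dif_pos w.2] at h3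
        exact h3
    · right
      exact hx
  have hμB : P ((fun ω => (WithLp.toLp 2 (fun i : ↥(box N) => η i ω) :
      EuclideanSpace ℝ ↥(box N))) ⁻¹' EV lam) = multivariateGaussian 0 Γ (EV lam) := by
    rw [← hmap, Measure.map_apply_of_aemeasurable hX (hEV lam)]
  have hquarter : ENNReal.ofReal (1 / 4) ≤ multivariateGaussian 0 Γ (EV L) - 1 / 2 := by
    have h3 : (1 : ENNReal) = 1 / 2 + ENNReal.ofReal (1 / 4) + ENNReal.ofReal (1 / 4) := by
      have : (1 / 2 : ENNReal) = ENNReal.ofReal (1 / 2) := by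
        rw [ENNReal.ofReal_div_of_pos (by norm_num)]
        simp
      rw [this, ← ENNReal.ofReal_add (by norm_num) (by norm_num),
        ← ENNReal.ofReal_add (by norm_num) (by norm_num)]
      norm_num
    rw [h3] at hA
    have h4 := (ENNReal.add_le_add_iff_right ENNReal.ofReal_ne_top).1 hA
    exact ENNReal.le_sub_of_add_le_left (by norm_num) h4
  calc ENNReal.ofReal ((Real.sqrt (2 * Real.pi))⁻¹ * Real.exp (-((b + 1) ^ 2 / 2)) *
          (1 / 4)) = ENNReal.ofReal ((Real.sqrt (2 * Real.pi))⁻¹ * Real.exp (-((b + 1) ^ 2 / 2))) *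
          ENNReal.ofReal (1 / 4) := by
        rw [ENNReal.ofReal_mul (by positivity)]
    _ ≤ gaussianReal 0 1 (Set.Iic (-b)) * (multivariateGaussian 0 Γ (EV L) - 1 / 2) :=
        mul_le_mul' (fl_tail_ge b (by linarith)) hquarter
    _ ≤ multivariateGaussian 0 Γ (EV lam) := hsb
    _ = P ((fun ω => (WithLp.toLp 2 (fun i : ↥(box N) => η i ω) :
          EuclideanSpace ℝ ↥(box N))) ⁻¹' EV lam) := hμB.symm
    _ ≤ _ := by
        refine measure_mono fun ω hω => ?_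
        rw [Set.mem_preimage, hmemEV] at hω
        obtain ⟨T, h1, ⟨u, v, p, h2, h3, h4, h5⟩, h6⟩ := hω
        rw [← hM, ← hM']
        refine ⟨u, v, p, h2, h3, fun w hw => ?_, h5⟩
        have hwN := fl_box_mono hMN (h1 (h4 w hw))
        exact ⟨hwN, h6 ⟨w, hwN⟩ (h4 w hw)⟩

end H941.full_large
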