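import Pool.Agent.H941.Defs4
import Pool.Agent.H941.C.full_large
import Pool.Agent.H941.C.full_small

open MeasureTheory ProbabilityTheory

namespace H941.full_crossing

theorem _root_.H941.full_crossing (α β : ℝ) (hα : 0 < α) (hαβ : α < β) (hβ : β < 1) (lam : ℝ) :
    ∃ (C c : ℝ) (N0 : ℕ), 0 < C ∧ 0 < c ∧ ∀ N : ℕ, 1 ≤ ⌊α * (N : ℝ)⌋₊ → (0 ≤ lam ∨ N0 ≤ N) →
      ∀ (Ω : Type*) [MeasurableSpace Ω] (P : Measure Ω) (η : ℤ × ℤ → Ω → ℝ), IsDGFF N η P →
      ENNReal.ofReal c ≤ P {ω | ∃ (u v : ℤ × ℤ) (p : grid.Walk u v),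
          u ∈ innerBdry ⌊α * (N : ℝ)⌋₊ ∧ v ∈ innerBdry ⌊β * (N : ℝ)⌋₊ ∧
          (∀ w ∈ p.support, w ∈ box N ∧ η w ω ≤ lam) ∧ (p.support.length : ℝ) ≤ C * N} := by
  obtain ⟨C0, c0, N0, hC0, hc0, hlarge⟩ := full_large α β hα hαβ hβ lam
  by_cases hlam : 0 ≤ lam
  · -- the small cases
    have hsm : ∀ N : ℕ, ∃ c : ℝ, 0 < c ∧ (1 ≤ ⌊α * (N : ℝ)⌋₊ →
        ∀ (Ω : Type _) [MeasurableSpace Ω] (P : Measure Ω) (η : ℤ × ℤ → Ω → ℝ), IsDGFF N η P →
        ENNReal.ofReal c ≤ P {ω | ∃ (u v : ℤ × ℤ) (p : grid.Walk u v),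
          u ∈ innerBdry ⌊α * (N : ℝ)⌋₊ ∧ v ∈ innerBdry ⌊β * (N : ℝ)⌋₊ ∧
          (∀ w ∈ p.support, w ∈ box N ∧ η w ω ≤ lam) ∧
          (p.support.length : ℝ) ≤ (N : ℝ) ^ 2}) := by
      intro N
      by_cases h1 : 1 ≤ ⌊α * (N : ℝ)⌋₊
      · have hN : (0 : ℝ) ≤ N := Nat.cast_nonneg N
        obtain ⟨c, hc, h⟩ := full_small α β lam hlam N h1
          (Nat.floor_mono (mul_le_mul_of_nonneg_right hαβ.le hN))
          (Nat.floor_le_of_le (by nlinarith))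
        exact ⟨c, hc, fun _ => h⟩
      · exact ⟨1, one_pos, fun h => absurd h h1⟩
    choose cf hcf hcfP using hsm
    have hne : (Finset.range (N0 + 1)).Nonempty := ⟨0, by simp⟩
    refine ⟨max C0 (N0 + 1), min c0 ((Finset.range (N0 + 1)).inf' hne cf), N0,
      lt_max_of_lt_left hC0, lt_min hc0 ?_, ?_⟩
    · rw [Finset.lt_inf'_iff]
      intro N _
      exact hcf N
    · intro N h1 _ Ω _ P η hη
      by_cases hN : N0 ≤ N
      · refine (ENNReal.ofReal_le_ofReal (min_le_left _ _)).trans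
          ((hlarge N hN Ω P η hη).trans (measure_mono ?_))
        rintro ω ⟨u, v, p, hu, hv, hp, hl⟩
        exact ⟨u, v, p, hu, hv, hp, hl.trans
          (mul_le_mul_of_nonneg_right (le_max_left _ _) (Nat.cast_nonneg N))⟩
      · have hN' : N < N0 + 1 := by omega
        refine (ENNReal.ofReal_le_ofReal ((min_le_right _ _).trans
          (Finset.inf'_le cf (Finset.mem_range.mpr hN')))).trans
          ((hcfP N h1 Ω P η hη).trans (measure_mono ?_))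
        rintro ω ⟨u, v, p, hu, hv, hp, hl⟩
        refine ⟨u, v, p, hu, hv, hp, hl.trans ?_⟩
        rw [pow_two]
        refine mul_le_mul_of_nonneg_right ?_ (Nat.cast_nonneg N)
        refine le_trans ?_ (le_max_right _ _)
        have : (N : ℝ) < N0 + 1 := by exact_mod_cast hN'
        exact this.le
  · refine ⟨C0, c0, N0, hC0, hc0, ?_⟩
    intro N _ h Ω _ P η hη
    rcases h with h | h
    · exact absurd h hlam
    · exact hlarge N h Ω P η hη

end H941.full_crossing
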